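import Pool.Agent.H305.EG.Kd

/-!
The inflow averaged over the radii.
-/

set_option autoImplicit false

open MeasureTheory Set Metric Filter Topology
open scoped ContDiff ENNReal

namespace Pool.Agent.H305.EG

open H459R3.NS W221.NS Pool.Agent.V1183.PM Pool.Agent.H305.OS Pool.Agent.H305.SL Pool.Agent.H305.PL
  Pool.Agent.H305.EF

/-- The radial flux density. -/
noncomputable def KA (I : Finset (Fin 3)) (x₀ : V) (w : Fin 3 → V → ℝ) (q : V → ℝ) (x : V) : ℝ :=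
  -((nw w x + 2 * q x) * ∑ j ∈ I, w j x * (x j - x₀ j))

/-- The averaged inflow minus the dissipation. -/
noncomputable def Ah (I : Finset (Fin 3)) (x₀ : V) (ν ρ : ℝ) (w : Fin 3 → V → ℝ) (q : V → ℝ) : ℝ :=
  ∫ x in nb I x₀ ρ, (KA I x₀ w q x / ρ ^ 2 - ν * ((1 - qI I x₀ x / ρ ^ 2) * gw w x))

/-- The weights. -/
noncomputable def mA (n : ℕ) (ν ρ z : ℝ) : ℝ := ρ ^ 3 / (8 * ν ^ 2) * Ek (n + 5) ν ρ z

section
variable {ν T t₀ t₁ s T' R r ρ z d : ℝ} {u : ℝ → V → V} {p : ℝ → V → ℝ} {I : Finset (Fin 3)} {x₀ : V}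
  {n k : ℕ} {w : Fin 3 → V → ℝ} {q : V → ℝ}

lemma Ek_two (hz : 0 < z) : Ek (n + 5) ν ρ z = (z ^ 2)⁻¹ * Ek (n + 1) ν ρ z := by
  unfold Ek
  have h1 : ((√z)⁻¹) ^ (n + 5) = ((√z)⁻¹) ^ (n + 1) * (z ^ 2)⁻¹ := by
    rw [show n + 5 = n + 1 + 4 by ring, pow_add, inv_pow (√z) 4, show (√z) ^ 4 = (√z ^ 2) ^ 2 by ring,
      Real.sq_sqrt hz.le]
  rw [h1]
  ring

lemma Ek_rho (hν : 0 < ν) (hz : 0 < z) (ρ : ℝ) : HasDerivAt (fun ρ => Ek k ν ρ z)
    (-(ρ / (2 * ν * z)) * Ek k ν ρ z) ρ := by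
  unfold Ek
  have h1 : HasDerivAt (fun ρ : ℝ => -(1 / (4 * ν * z)) * ρ ^ 2) (-(1 / (4 * ν * z)) * (2 * ρ)) ρ := by
    have := (hasDerivAt_pow 2 ρ).const_mul (-(1 / (4 * ν * z)))
    simpa using this
  refine (h1.exp.const_mul _).congr_deriv ?_
  field_simp
  ring

lemma Ek_rc (k : ℕ) (ν z : ℝ) : Continuous fun ρ => Ek k ν ρ z := by
  unfold Ek
  fun_prop

/-- The first formula. -/
lemma fA1 (hν : 0 < ν) (hz : 0 < z) (hd : d ≤ R) :
    ∫ ρ in Ioo d R, ρ / (8 * ν ^ 2) * Ek (n + 5) ν ρ z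
      = 1 / (4 * ν * z) * (Ek (n + 1) ν d z - Ek (n + 1) ν R z) := by
  rw [← integral_Ioc_eq_integral_Ioo, ← intervalIntegral.integral_of_le hd]
  rw [intervalIntegral.integral_eq_sub_of_hasDerivAt (f := fun ρ => -(1 / (4 * ν * z)) * Ek (n + 1) ν ρ z)]
  · ring
  · intro ρ _
    refine ((Ek_rho hν hz ρ).const_mul _).congr_deriv ?_
    rw [Ek_two hz]
    field_simp
    ring
  · exact ((continuous_id.div_const _).mul (Ek_rc _ _ _)).intervalIntegrable _ _

/-- The second formula. -/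
lemma fA2 (hν : 0 < ν) (hz : 0 < z) (hd0 : 0 ≤ d) (hd : d ≤ R) :
    ∫ ρ in Ioo d R, ρ * (ρ ^ 2 - d ^ 2) / (8 * ν ^ 2) * Ek (n + 5) ν ρ z ≤ Ek (n + 1) ν d z := by
  rw [← integral_Ioc_eq_integral_Ioo, ← intervalIntegral.integral_of_le hd]
  rw [intervalIntegral.integral_eq_sub_of_hasDerivAt
    (f := fun ρ => -(1 + 1 / (4 * ν * z) * (ρ ^ 2 - d ^ 2)) * Ek (n + 1) ν ρ z)]
  · have h1 := Ek_nonneg (k := n + 1) (ν := ν) (ρ := R) (z := z)
    have h2 : d ^ 2 ≤ R ^ 2 := pow_le_pow_left₀ hd0 hd 2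
    have h3 : 0 ≤ (1 + 1 / (4 * ν * z) * (R ^ 2 - d ^ 2)) * Ek (n + 1) ν R z := by
      have : 0 ≤ R ^ 2 - d ^ 2 := by linarith
      positivity
    simp only [sub_self, mul_zero, add_zero]
    linarith
  · intro ρ _
    have h1 : HasDerivAt (fun ρ : ℝ => -(1 + 1 / (4 * ν * z) * (ρ ^ 2 - d ^ 2)))
        (-(1 / (4 * ν * z) * (2 * ρ))) ρ := by
      have h0 : HasDerivAt (fun ρ : ℝ => -(1 + 1 / (4 * ν * z) * (ρ ^ 2 - d ^ 2))) _ ρ :=
        ((((hasDerivAt_pow 2 ρ).sub_const (d ^ 2)).const_mul (1 / (4 * ν * z))).const_add 1).neg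
      refine h0.congr_deriv ?_
      norm_num
    refine (h1.mul (Ek_rho hν hz ρ)).congr_deriv ?_
    rw [Ek_two hz]
    field_simp
    ring
  · refine Continuous.intervalIntegrable ?_ _ _
    exact (by fun_prop : Continuous fun ρ : ℝ => ρ * (ρ ^ 2 - d ^ 2) / (8 * ν ^ 2)).mul (Ek_rc _ _ _)

lemma y_le (w : Fin 3 → V → ℝ) (x : V) :
    |∑ j ∈ I, w j x * (x j - x₀ j)| ≤ dI I x₀ x * ∑ j, |w j x| := by
  refine (Finset.abs_sum_le_sum_abs _ _).trans ?_
  calc ∑ j ∈ I, |w j x * (x j - x₀ j)| ≤ ∑ j ∈ I, dI I x₀ x * |w j x| := by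
        refine Finset.sum_le_sum fun j hj => ?_
        rw [abs_mul, mul_comm]
        exact mul_le_mul_of_nonneg_right (abs_le_dI hj) (abs_nonneg _)
    _ = dI I x₀ x * ∑ j ∈ I, |w j x| := by rw [Finset.mul_sum]
    _ ≤ _ := by
        refine mul_le_mul_of_nonneg_left ?_ (dI_nonneg I x₀ x)
        exact Finset.sum_le_sum_of_subset_of_nonneg (Finset.subset_univ I) fun _ _ _ => abs_nonneg _

lemma KA_le (w : Fin 3 → V → ℝ) (q : V → ℝ) (x : V) :
    |KA I x₀ w q x| ≤ dI I x₀ x * ((nw w x + 2 * |q x|) * ∑ j, |w j x|) := by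
  unfold KA
  rw [abs_neg, abs_mul]
  have h1 : |nw w x + 2 * q x| ≤ nw w x + 2 * |q x| := by
    refine (abs_add_le _ _).trans (add_le_add (le_of_eq ?_) (le_of_eq ?_))
    · exact abs_of_nonneg (nw_nonneg w x)
    · rw [abs_mul, abs_of_pos (by norm_num : (0 : ℝ) < 2)]
  calc _ ≤ (nw w x + 2 * |q x|) * (dI I x₀ x * ∑ j, |w j x|) :=
        mul_le_mul h1 (y_le w x) (abs_nonneg _) (add_nonneg (nw_nonneg w x) (by positivity))
    _ = _ := by ring

/-- The joint integrability. -/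
lemma KR_int (h : HS ν T u p) (ht₁ : 0 < t₁) (hs : s < T) (I : Finset (Fin 3)) (x₀ : V) (R : ℝ) :
    Integrable (fun z : ℝ × V => (nb I x₀ R).indicator (KA I x₀ (cw u z.1) (p z.1)) z.2)
      ((volume.restrict (Ioc t₁ s)).prod volume) := by
  have ju : ∀ i, J T (fun t => cw u t i) := h.ju
  have uu : ∀ i, UF (Icc t₁ s) (fun τ => cw u τ i) := fun i => h.uu t₁ s ht₁ hs i
  have jn : J T (fun τ => nw (cw u τ)) := HS.j_nw h
  have un : UF (Icc t₁ s) (fun τ => nw (cw u τ)) := by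
    have h1 : UF (Icc t₁ s) (fun τ x => ∑ i, cw u τ i x * cw u τ i x) :=
      UF.sum fun i => (uu i).mul (uu i)
    have e : (fun τ => nw (cw u τ)) = fun τ x => ∑ i, cw u τ i x * cw u τ i x := by
      funext τ x
      unfold nw
      exact Finset.sum_congr rfl fun i _ => sq _
    rw [e]
    exact h1
  have i1 : ∀ j, Integrable (fun z : ℝ × V => nw (cw u z.1) z.2 * cw u z.1 j z.2)
      ((volume.restrict (Ioc t₁ s)).prod volume) := fun j =>
    prod_int ht₁ hs jn (ju j) un (uu j)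
  have i2 : ∀ j, Integrable (fun z : ℝ × V => p z.1 z.2 * cw u z.1 j z.2)
      ((volume.restrict (Ioc t₁ s)).prod volume) := fun j =>
    prod_int ht₁ hs h.jp (ju j) (h.up t₁ s ht₁ hs) (uu j)
  have i3 : ∀ j ∈ I, Integrable (fun z : ℝ × V => (nw (cw u z.1) z.2 * cw u z.1 j z.2
      + 2 * (p z.1 z.2 * cw u z.1 j z.2)) * (nb I x₀ R).indicator (fun x : V => x j - x₀ j) z.2)
      ((volume.restrict (Ioc t₁ s)).prod volume) := by
    intro j hj
    refine ((i1 j).add ((i2 j).const_mul 2)).mul_bdd (c := |R|) ?_ ?_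
    · refine Measurable.aestronglyMeasurable ?_
      have : Measurable ((nb I x₀ R).indicator (fun x : V => x j - x₀ j)) :=
        Measurable.indicator (by fun_prop) nb_meas
      exact this.comp measurable_snd
    · refine Eventually.of_forall fun z => ?_
      by_cases hz : z.2 ∈ nb I x₀ R
      · rw [indicator_of_mem hz, Real.norm_eq_abs]
        refine (abs_le_dI hj).trans ?_
        have : dI I x₀ z.2 < R := hz
        exact this.le.trans (le_abs_self R)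
      · rw [indicator_of_notMem hz, norm_zero]
        positivity
  have i4 := (integrable_finsetSum I i3).neg
  refine i4.congr (Eventually.of_forall fun z => ?_)
  simp only [Pi.neg_apply]
  by_cases hz : z.2 ∈ nb I x₀ R
  · simp only [indicator_of_mem hz]
    unfold KA
    rw [neg_inj, Finset.mul_sum]
    refine Finset.sum_congr rfl fun j _ => ?_
    ring
  · simp only [indicator_of_notMem hz, mul_zero, Finset.sum_const_zero, neg_zero]

end

end Pool.Agent.H305.EG
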