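import Pool.Agent.H305.EG.Aa

/-!
The averaged inflow, integrated in time first.
-/

set_option autoImplicit false

open MeasureTheory Set Metric Filter Topology
open scoped ContDiff ENNReal

namespace Pool.Agent.H305.EG

open H459R3.NS W221.NS Pool.Agent.V1183.PM Pool.Agent.H305.OS Pool.Agent.H305.SL Pool.Agent.H305.PL
  Pool.Agent.H305.EF

/-- The weight of the radial flux. -/
noncomputable def b1 (n : ℕ) (ν ρ z : ℝ) : ℝ := ρ / (8 * ν ^ 2) * Ek (n + 5) ν ρ z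

/-- The weight of the dissipation. -/
noncomputable def b2 (n : ℕ) (ν d ρ z : ℝ) : ℝ :=
  ρ * (ρ ^ 2 - d ^ 2) / (8 * ν ^ 2) * Ek (n + 5) ν ρ z

/-- The part of the density with the weights. -/
noncomputable def Gx (I : Finset (Fin 3)) (n : ℕ) (x₀ : V) (ν R T' : ℝ) (u : ℝ → V → V)
    (p : ℝ → V → ℝ) (τ : ℝ) (x : V) : ℝ :=
  (nb I x₀ R).indicator (KA I x₀ (cw u τ) (p τ)) x
      * (∫ ρ in Ioo 0 R, (Ioi (dI I x₀ x)).indicator (fun ρ => b1 n ν ρ (T' - τ)) ρ)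
    - ν * (gw (cw u τ) x
      * ∫ ρ in Ioo 0 R, (Ioi (dI I x₀ x)).indicator (fun ρ => b2 n ν (dI I x₀ x) ρ (T' - τ)) ρ)

section
variable {ν T t₀ t₁ s T' R r ρ z d : ℝ} {u : ℝ → V → V} {p : ℝ → V → ℝ} {I : Finset (Fin 3)} {x₀ : V}
  {n k : ℕ} {w : Fin 3 → V → ℝ} {q : V → ℝ}

lemma b1_bd (hν : 0 < ν) (hr : 0 < r) (hρ : ρ ∈ Ioo 0 R) (hz : r ^ 2 ≤ z) :
    |b1 n ν ρ z| ≤ R / (8 * ν ^ 2) * (r⁻¹) ^ (n + 5) := by
  unfold b1
  have h1 := Ek_nonneg (k := n + 5) (ν := ν) (ρ := ρ) (z := z)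
  have h2 := hρ.1
  rw [abs_of_nonneg (by positivity)]
  exact mul_le_mul (div_le_div_of_nonneg_right hρ.2.le (by positivity)) (Ek_le hν hr hz) h1
    (div_nonneg (hρ.1.le.trans hρ.2.le) (by positivity))

lemma b2_bd (hν : 0 < ν) (hr : 0 < r) (hρ : ρ ∈ Ioo 0 R) (hd0 : 0 ≤ d) (hd : d < ρ) (hz : r ^ 2 ≤ z) :
    |b2 n ν d ρ z| ≤ R * R ^ 2 / (8 * ν ^ 2) * (r⁻¹) ^ (n + 5) := by
  unfold b2
  have h1 := Ek_nonneg (k := n + 5) (ν := ν) (ρ := ρ) (z := z)
  have h2 := hρ.1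
  have h3 : 0 ≤ ρ ^ 2 - d ^ 2 := by nlinarith
  have h4 : ρ ^ 2 - d ^ 2 ≤ R ^ 2 := by
    have := pow_le_pow_left₀ h2.le hρ.2.le 2
    nlinarith
  have hR0 : 0 ≤ R := hρ.1.le.trans hρ.2.le
  rw [abs_of_nonneg (by positivity)]
  refine mul_le_mul (div_le_div_of_nonneg_right ?_ (by positivity)) (Ek_le hν hr hz) h1
    (by positivity)
  exact mul_le_mul hρ.2.le h4 h3 hR0

/-- The layer cake formula, integrated in time first. -/
lemma swapA (h : HS ν T u p) (ht₁ : 0 < t₁) (hs : s < T)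
    (hsT' : s < T') (hR : 0 < R) (I : Finset (Fin 3)) (x₀ : V) (n : ℕ) :
    (∀ ρ ∈ Ioo 0 R, IntegrableOn (fun τ => Ah I x₀ ν ρ (cw u τ) (p τ)) (Ioc t₁ s)) ∧
    IntegrableOn (fun ρ => ∫ τ in Ioc t₁ s, mA n ν ρ (T' - τ) * Ah I x₀ ν ρ (cw u τ) (p τ))
      (Ioo 0 R) ∧
    IntegrableOn (fun τ => ∫ x, Gx I n x₀ ν R T' u p τ x) (Ioc t₁ s) ∧
    ∫ τ in Ioc t₁ s, ∫ x, Gx I n x₀ ν R T' u p τ x
      = ∫ ρ in Ioo 0 R, ∫ τ in Ioc t₁ s, mA n ν ρ (T' - τ) * Ah I x₀ ν ρ (cw u τ) (p τ) := by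
  have hν := h.hν
  have hK := KR_int h ht₁ hs I x₀ R
  have hgw : Integrable (fun z : ℝ × V => gw (cw u z.1) z.2)
      ((volume.restrict (Ioc t₁ s)).prod volume) := by
    have ju : ∀ i, J T (fun t => cw u t i) := h.ju
    have uu : ∀ i, UF (Icc t₁ s) (fun τ => cw u τ i) := fun i => h.uu t₁ s ht₁ hs i
    have i3 : ∀ i k, Integrable (fun z : ℝ × V => H459R3.NS.pd k (cw u z.1 i) z.2 ^ 2)
        ((volume.restrict (Ioc t₁ s)).prod volume) := fun i k => by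
      have := prod_int ht₁ hs ((ju i).pd k) ((ju i).pd k) ((uu i).pd k) ((uu i).pd k)
      refine this.congr (Eventually.of_forall fun z => ?_)
      show _ * _ = _ ^ 2
      ring
    unfold gw
    exact integrable_finsetSum _ fun i _ => integrable_finsetSum _ fun k _ => i3 i k
  obtain ⟨μ, hμ⟩ : ∃ μ : Measure ℝ, μ = volume.restrict (Ioc t₁ s) := ⟨_, rfl⟩
  obtain ⟨lam, hlam⟩ : ∃ lam : Measure ℝ, lam = volume.restrict (Ioo 0 R) := ⟨_, rfl⟩
  rw [← hμ] at hK hgw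
  have : IsFiniteMeasure μ := by
    rw [hμ]
    exact ⟨by rw [Measure.restrict_apply_univ, Real.volume_Ioc]; exact ENNReal.ofReal_lt_top⟩
  have : IsFiniteMeasure lam := by
    rw [hlam]
    exact ⟨by rw [Measure.restrict_apply_univ, Real.volume_Ioo]; exact ENNReal.ofReal_lt_top⟩
  obtain ⟨r, hr, hr2⟩ : ∃ r : ℝ, 0 < r ∧ r ^ 2 = T' - s :=
    ⟨√(T' - s), Real.sqrt_pos.2 (by linarith), Real.sq_sqrt (by linarith)⟩
  have hd : Measurable (dI I x₀) := (dI_cont I x₀).measurable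
  -- the factors
  obtain ⟨S, hS⟩ : ∃ S : Set ((ℝ × V) × ℝ), S = {q | dI I x₀ q.1.2 < q.2} := ⟨_, rfl⟩
  have hSm : MeasurableSet S := by
    rw [hS]
    exact measurableSet_lt (hd.comp measurable_fst.snd) measurable_snd
  have hEm : Measurable fun q : (ℝ × V) × ℝ => Ek (n + 5) ν q.2 (T' - q.1.1) := by
    unfold Ek
    fun_prop
  obtain ⟨W₁, hW₁⟩ : ∃ W : (ℝ × V) × ℝ → ℝ, W = S.indicator fun q => b1 n ν q.2 (T' - q.1.1) :=
    ⟨_, rfl⟩
  obtain ⟨W₂, hW₂⟩ : ∃ W : (ℝ × V) × ℝ → ℝ,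
    W = S.indicator fun q => b2 n ν (dI I x₀ q.1.2) q.2 (T' - q.1.1) := ⟨_, rfl⟩
  have hW₁m : Measurable W₁ := by
    rw [hW₁]
    refine Measurable.indicator ?_ hSm
    unfold b1
    exact (measurable_snd.div_const _).mul hEm
  have hW₂m : Measurable W₂ := by
    rw [hW₂]
    refine Measurable.indicator ?_ hSm
    unfold b2
    exact ((measurable_snd.mul ((measurable_snd.pow_const 2).sub
      ((hd.comp measurable_fst.snd).pow_const 2))).div_const _).mul hEm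
  have hm1 : (μ.prod (volume : Measure V)).prod lam
      = (((volume : Measure ℝ).prod (volume : Measure V)).prod (volume : Measure ℝ)).restrict
        ((Ioc t₁ s ×ˢ univ) ×ˢ Ioo 0 R) := by
    rw [hμ, hlam, ← Measure.prod_restrict, ← Measure.prod_restrict, Measure.restrict_univ]
  have hm2 : μ.prod (volume : Measure V)
      = ((volume : Measure ℝ).prod (volume : Measure V)).restrict (Ioc t₁ s ×ˢ univ) := by
    rw [hμ, ← Measure.prod_restrict, Measure.restrict_univ]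
  obtain ⟨C₁, hC₁⟩ : ∃ C : ℝ, C = R / (8 * ν ^ 2) * (r⁻¹) ^ (n + 5) := ⟨_, rfl⟩
  obtain ⟨C₂, hC₂⟩ : ∃ C : ℝ, C = R * R ^ 2 / (8 * ν ^ 2) * (r⁻¹) ^ (n + 5) := ⟨_, rfl⟩
  have hC₁0 : 0 ≤ C₁ := by rw [hC₁]; positivity
  have hC₂0 : 0 ≤ C₂ := by rw [hC₂]; positivity
  have hW₁b : ∀ q ∈ (Ioc t₁ s ×ˢ (univ : Set V)) ×ˢ Ioo 0 R, ‖W₁ q‖ ≤ C₁ := by
    intro q hq
    rw [hW₁]
    by_cases h1 : q ∈ S
    · rw [indicator_of_mem h1, hC₁]
      exact b1_bd hν hr hq.2 (by rw [hr2]; linarith [hq.1.1.2])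
    · rw [indicator_of_notMem h1, norm_zero]
      exact hC₁0
  have hW₂b : ∀ q ∈ (Ioc t₁ s ×ˢ (univ : Set V)) ×ˢ Ioo 0 R, ‖W₂ q‖ ≤ C₂ := by
    intro q hq
    rw [hW₂]
    by_cases h1 : q ∈ S
    · rw [indicator_of_mem h1, hC₂]
      rw [hS] at h1
      exact b2_bd hν hr hq.2 (dI_nonneg _ _ _) h1 (by rw [hr2]; linarith [hq.1.1.2])
    · rw [indicator_of_notMem h1, norm_zero]
      exact hC₂0
  obtain ⟨H, hH⟩ : ∃ H : (ℝ × V) × ℝ → ℝ, H = fun q =>
      (nb I x₀ R).indicator (KA I x₀ (cw u q.1.1) (p q.1.1)) q.1.2 * W₁ q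
        - ν * (gw (cw u q.1.1) q.1.2 * W₂ q) := ⟨_, rfl⟩
  have hHi : Integrable H ((μ.prod (volume : Measure V)).prod lam) := by
    rw [hH]
    refine Integrable.sub ((hK.comp_fst lam).mul_bdd hW₁m.aestronglyMeasurable (c := C₁) ?_)
      (((hgw.comp_fst lam).mul_bdd hW₂m.aestronglyMeasurable (c := C₂) ?_).const_mul ν)
    · rw [hm1]
      exact ae_restrict_of_forall_mem ((measurableSet_Ioc.prod MeasurableSet.univ).prod
        measurableSet_Ioo) hW₁b
    · rw [hm1]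
      exact ae_restrict_of_forall_mem ((measurableSet_Ioc.prod MeasurableSet.univ).prod
        measurableSet_Ioo) hW₂b
  -- for fixed `ρ`
  have hρi : ∀ ρ ∈ Ioo 0 R, Integrable (fun q : ℝ × V => H (q, ρ)) (μ.prod (volume : Measure V)) := by
    intro ρ hρ
    rw [hH]
    refine Integrable.sub (hK.mul_bdd (hW₁m.comp (measurable_id.prodMk
      measurable_const)).aestronglyMeasurable (c := C₁) ?_) ((hgw.mul_bdd (hW₂m.comp
      (measurable_id.prodMk measurable_const)).aestronglyMeasurable (c := C₂) ?_).const_mul ν)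
    · rw [hm2]
      exact ae_restrict_of_forall_mem (measurableSet_Ioc.prod MeasurableSet.univ)
        fun q hq => hW₁b (q, ρ) ⟨hq, hρ⟩
    · rw [hm2]
      exact ae_restrict_of_forall_mem (measurableSet_Ioc.prod MeasurableSet.univ)
        fun q hq => hW₂b (q, ρ) ⟨hq, hρ⟩
  have e1 : ∀ ρ ∈ Ioo 0 R, ∀ τ : ℝ, ∫ x, H ((τ, x), ρ)
      = mA n ν ρ (T' - τ) * Ah I x₀ ν ρ (cw u τ) (p τ) := by
    intro ρ hρ τ
    have hρ0 : ρ ≠ 0 := hρ.1.ne'
    have e2 : (fun x : V => H ((τ, x), ρ))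
        = (nb I x₀ ρ).indicator fun x => mA n ν ρ (T' - τ) * (KA I x₀ (cw u τ) (p τ) x / ρ ^ 2
          - ν * ((1 - qI I x₀ x / ρ ^ 2) * gw (cw u τ) x)) := by
      funext x
      rw [hH, hW₁, hW₂]
      by_cases hx : x ∈ nb I x₀ ρ
      · have hxR : x ∈ nb I x₀ R := nb_mono hρ.2.le hx
        have h1 : ((τ, x), ρ) ∈ S := by rw [hS]; exact hx
        simp only
        rw [indicator_of_mem h1, indicator_of_mem h1, indicator_of_mem hx, indicator_of_mem hxR]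
        unfold b1 b2 mA
        rw [dI_sq]
        field_simp
      · have h1 : ((τ, x), ρ) ∉ S := by rw [hS]; exact hx
        simp only
        rw [indicator_of_notMem h1, indicator_of_notMem h1, indicator_of_notMem hx]
        ring
    rw [e2, integral_indicator nb_meas, integral_const_mul]
    rfl
  have e3 : ∀ ρ ∈ Ioo 0 R, ∫ q, H (q, ρ) ∂(μ.prod (volume : Measure V))
      = ∫ τ in Ioc t₁ s, mA n ν ρ (T' - τ) * Ah I x₀ ν ρ (cw u τ) (p τ) := by
    intro ρ hρ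
    rw [integral_prod _ (hρi ρ hρ), hμ]
    exact integral_congr_ae (Eventually.of_forall fun τ => e1 ρ hρ τ)
  have hW₁i : ∀ τ ∈ Ioc t₁ s, ∀ x : V, Integrable (fun ρ => W₁ ((τ, x), ρ)) lam := by
    intro τ hτ x
    refine Integrable.of_bound (hW₁m.comp (measurable_const.prodMk
      measurable_id)).aestronglyMeasurable C₁ ?_
    rw [hlam]
    exact ae_restrict_of_forall_mem measurableSet_Ioo fun ρ hρ => hW₁b ((τ, x), ρ) ⟨⟨hτ, mem_univ _⟩, hρ⟩
  have hW₂i : ∀ τ ∈ Ioc t₁ s, ∀ x : V, Integrable (fun ρ => W₂ ((τ, x), ρ)) lam := by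
    intro τ hτ x
    refine Integrable.of_bound (hW₂m.comp (measurable_const.prodMk
      measurable_id)).aestronglyMeasurable C₂ ?_
    rw [hlam]
    exact ae_restrict_of_forall_mem measurableSet_Ioo fun ρ hρ => hW₂b ((τ, x), ρ) ⟨⟨hτ, mem_univ _⟩, hρ⟩
  have e4 : ∀ τ ∈ Ioc t₁ s, ∀ x : V, ∫ ρ, H ((τ, x), ρ) ∂lam = Gx I n x₀ ν R T' u p τ x := by
    intro τ hτ x
    have e5 : ∫ ρ, H ((τ, x), ρ) ∂lam
        = (nb I x₀ R).indicator (KA I x₀ (cw u τ) (p τ)) x * (∫ ρ, W₁ ((τ, x), ρ) ∂lam)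
        - ν * (gw (cw u τ) x * ∫ ρ, W₂ ((τ, x), ρ) ∂lam) := by
      rw [hH]
      simp only
      rw [integral_sub ((hW₁i τ hτ x).const_mul _) (((hW₂i τ hτ x).const_mul _).const_mul _),
        integral_const_mul, integral_const_mul, integral_const_mul]
    have e6 : (fun ρ => W₁ ((τ, x), ρ))
        = (Ioi (dI I x₀ x)).indicator (fun ρ => b1 n ν ρ (T' - τ)) := by
      funext ρ
      rw [hW₁]
      by_cases hρ : dI I x₀ x < ρ
      · rw [indicator_of_mem (by rw [hS]; exact hρ), indicator_of_mem (by exact hρ)]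
      · rw [indicator_of_notMem (by rw [hS]; exact hρ), indicator_of_notMem (by exact hρ)]
    have e7 : (fun ρ => W₂ ((τ, x), ρ))
        = (Ioi (dI I x₀ x)).indicator (fun ρ => b2 n ν (dI I x₀ x) ρ (T' - τ)) := by
      funext ρ
      rw [hW₂]
      by_cases hρ : dI I x₀ x < ρ
      · rw [indicator_of_mem (by rw [hS]; exact hρ), indicator_of_mem (by exact hρ)]
      · rw [indicator_of_notMem (by rw [hS]; exact hρ), indicator_of_notMem (by exact hρ)]
    rw [e5, e6, e7, hlam]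
    rfl
  have hsw := integral_integral_swap (f := fun (q : ℝ × V) (ρ : ℝ) => H (q, ρ)) hHi
  have hpi : Integrable (fun q : ℝ × V => ∫ ρ, H (q, ρ) ∂lam)
      (μ.prod (volume : Measure V)) := hHi.integral_prod_left
  have e8 : ∀ τ ∈ Ioc t₁ s, ∫ x, ∫ ρ, H ((τ, x), ρ) ∂lam = ∫ x, Gx I n x₀ ν R T' u p τ x := by
    intro τ hτ
    exact integral_congr_ae (Eventually.of_forall fun x => e4 τ hτ x)
  refine ⟨fun ρ hρ => ?_, ?_, ?_, ?_⟩
  · have hqc : Continuous fun x => qI I x₀ x := qI_cont I x₀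
    have a1 : Integrable (fun q : ℝ × V => (nb I x₀ ρ).indicator (KA I x₀ (cw u q.1) (p q.1)) q.2
        / ρ ^ 2) (μ.prod (volume : Measure V)) := by
      have := KR_int h ht₁ hs I x₀ ρ
      rw [← hμ] at this
      exact this.div_const _
    have a2 : Integrable (fun q : ℝ × V => gw (cw u q.1) q.2
        * (nb I x₀ ρ).indicator (fun x => 1 - qI I x₀ x / ρ ^ 2) q.2) (μ.prod (volume : Measure V)) := by
      refine hgw.mul_bdd (c := 1) (Measurable.aestronglyMeasurable ?_) (Eventually.of_forall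
        fun q => ?_)
      · have : Measurable ((nb I x₀ ρ).indicator (fun x => 1 - qI I x₀ x / ρ ^ 2)) :=
          Measurable.indicator (by fun_prop) nb_meas
        exact this.comp measurable_snd
      · by_cases hq : q.2 ∈ nb I x₀ ρ
        · rw [indicator_of_mem hq, Real.norm_eq_abs, ← dI_sq]
          have h1 : dI I x₀ q.2 < ρ := hq
          have h2 := dI_nonneg I x₀ q.2
          have h3 : dI I x₀ q.2 ^ 2 / ρ ^ 2 ≤ 1 := by
            rw [div_le_one (by positivity [hρ.1])]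
            exact pow_le_pow_left₀ h2 h1.le 2
          have h4 : 0 ≤ dI I x₀ q.2 ^ 2 / ρ ^ 2 := by positivity
          rw [abs_of_nonneg (by linarith)]
          linarith
        · rw [indicator_of_notMem hq, norm_zero]
          norm_num
    have a3 := (a1.sub (a2.const_mul ν)).integral_prod_left
    rw [hμ] at a3
    refine IntegrableOn.congr_fun a3 (fun τ _ => ?_) measurableSet_Ioc
    unfold Ah
    rw [← integral_indicator nb_meas]
    congr 1
    funext x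
    by_cases hx : x ∈ nb I x₀ ρ
    · simp only [Pi.sub_apply, indicator_of_mem hx]
      ring
    · simp only [Pi.sub_apply, indicator_of_notMem hx]
      ring
  · have h1 := hHi.integral_prod_right
    rw [hlam] at h1
    exact IntegrableOn.congr_fun h1 (fun ρ hρ => e3 ρ hρ) measurableSet_Ioo
  · have h1 := hpi.integral_prod_left
    rw [hμ] at h1
    exact IntegrableOn.congr_fun h1 (fun τ hτ => e8 τ hτ) measurableSet_Ioc
  · have h1 : ∫ q, (∫ ρ, H (q, ρ) ∂lam) ∂(μ.prod (volume : Measure V))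
        = ∫ τ in Ioc t₁ s, ∫ x, Gx I n x₀ ν R T' u p τ x := by
      rw [integral_prod _ hpi, hμ]
      exact setIntegral_congr_fun measurableSet_Ioc fun τ hτ => e8 τ hτ
    rw [← h1, hsw, hlam]
    exact setIntegral_congr_fun measurableSet_Ioo fun ρ hρ => e3 ρ hρ

end

end Pool.Agent.H305.EG
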