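import Pool.Agent.H305.EG.Ab

/-!
The flux through the averaged inflow.
-/

set_option autoImplicit false

open MeasureTheory Set Metric Filter Topology
open scoped ContDiff ENNReal

namespace Pool.Agent.H305.EG

open H459R3.NS W221.NS Pool.Agent.V1183.PM Pool.Agent.H305.OS Pool.Agent.H305.SL Pool.Agent.H305.PL
  Pool.Agent.H305.EF

/-- The bound for the flux density. -/
noncomputable def nq (w : Fin 3 → V → ℝ) (q : V → ℝ) (x : V) : ℝ :=
  (nw w x + 2 * |q x|) * ∑ j, |w j x|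

section
variable {ν T t₀ t₁ s T' R r ρ z d τ E : ℝ} {u : ℝ → V → V} {p : ℝ → V → ℝ} {I : Finset (Fin 3)}
  {x₀ : V} {n k : ℕ} {w : Fin 3 → V → ℝ} {q : V → ℝ}

lemma nq_nonneg (w : Fin 3 → V → ℝ) (q : V → ℝ) (x : V) : 0 ≤ nq w q x :=
  mul_nonneg (add_nonneg (nw_nonneg w x) (by positivity)) (Finset.sum_nonneg fun _ _ => abs_nonneg _)

lemma nq_meas (mw : ∀ i, Measurable (w i)) (mq : Measurable q) : Measurable (nq w q) := by
  have hn : Measurable (nw w) := by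
    unfold nw
    exact Finset.measurable_sum _ fun i _ => (mw i).pow_const 2
  unfold nq
  exact (hn.add (mq.norm.const_mul 2)).mul (Finset.measurable_sum _ fun j _ => (mw j).norm)

lemma nq_gF (mw : ∀ i, Measurable (w i)) (mq : Measurable q) :
    ∫⁻ x, ENNReal.ofReal (nq w q x) = ∑ j, gF w q (w j) := by
  have hn : Measurable (nw w) := by
    unfold nw
    exact Finset.measurable_sum _ fun i _ => (mw i).pow_const 2
  have m0 : ∀ j, Measurable fun x => ENNReal.ofReal ((nw w x + 2 * |q x|) * |w j x|) := fun j =>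
    ((hn.add (mq.norm.const_mul 2)).mul (mw j).norm).ennreal_ofReal
  unfold gF
  rw [← lintegral_finsetSum _ fun j _ => m0 j]
  congr 1
  funext x
  unfold nq
  rw [Finset.mul_sum, ENNReal.ofReal_sum_of_nonneg]
  intro j _
  exact mul_nonneg (add_nonneg (nw_nonneg w x) (by positivity)) (abs_nonneg _)

lemma nq_int (mw : ∀ i, Measurable (w i)) (mq : Measurable q) (h : ∑ j, gF w q (w j) ≠ (⊤ : ℝ≥0∞)) :
    Integrable (nq w q) ∧ ∫ x, nq w q x = (∑ j, gF w q (w j)).toReal := by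
  have h1 := nq_gF mw mq
  have h2 := nq_meas mw mq
  refine ⟨⟨h2.aestronglyMeasurable, ?_⟩, ?_⟩
  · rw [hasFiniteIntegral_iff_ofReal (Eventually.of_forall (nq_nonneg w q)), h1]
    exact lt_top_iff_ne_top.2 h
  · rw [integral_eq_lintegral_of_nonneg_ae (Eventually.of_forall (nq_nonneg w q))
      h2.aestronglyMeasurable, h1]

/-- The second formula. -/
lemma fA3 (hν : 0 < ν) (hz : 0 < z) (hd : d ≤ R) :
    ∫ ρ in Ioo d R, ρ * (ρ ^ 2 - d ^ 2) / (8 * ν ^ 2) * Ek (n + 5) ν ρ z = Ek (n + 1) ν d z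
      - (1 + 1 / (4 * ν * z) * (R ^ 2 - d ^ 2)) * Ek (n + 1) ν R z := by
  rw [← integral_Ioc_eq_integral_Ioo, ← intervalIntegral.integral_of_le hd]
  rw [intervalIntegral.integral_eq_sub_of_hasDerivAt
    (f := fun ρ => -(1 + 1 / (4 * ν * z) * (ρ ^ 2 - d ^ 2)) * Ek (n + 1) ν ρ z)]
  · ring
  · intro ρ _
    have h1 : HasDerivAt (fun ρ : ℝ => -(1 + 1 / (4 * ν * z) * (ρ ^ 2 - d ^ 2)))
        (-(1 / (4 * ν * z) * (2 * ρ))) ρ := by
      have h0 : HasDerivAt (fun ρ : ℝ => -(1 + 1 / (4 * ν * z) * (ρ ^ 2 - d ^ 2))) _ ρ :=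
        ((((hasDerivAt_pow 2 ρ).sub_const (d ^ 2)).const_mul (1 / (4 * ν * z))).const_add 1).neg
      refine h0.congr_deriv ?_
      norm_num
    refine (h1.mul (Ek_rho hν hz ρ)).congr_deriv ?_
    rw [Ek_two hz]
    field_simp
    ring
  · refine Continuous.intervalIntegrable ?_ _ _
    exact (by fun_prop : Continuous fun ρ : ℝ => ρ * (ρ ^ 2 - d ^ 2) / (8 * ν ^ 2)).mul (Ek_rc _ _ _)

lemma kI_Ek (hI : I.card = n + 1) (x : V) :
    kI I ν T' x₀ τ x = Ek (n + 1) ν (dI I x₀ x) (T' - τ) := by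
  rw [kI_eq, hI]
  unfold Ek
  rw [dI_sq]

/-- The closed form. -/
lemma Gx_eq (hν : 0 < ν) (hτ : τ < T') (x : V) :
    Gx I n x₀ ν R T' u p τ x = (nb I x₀ R).indicator (fun x => KA I x₀ (cw u τ) (p τ) x
      * (1 / (4 * ν * (T' - τ)) * (Ek (n + 1) ν (dI I x₀ x) (T' - τ) - Ek (n + 1) ν R (T' - τ)))
      - ν * (gw (cw u τ) x * (Ek (n + 1) ν (dI I x₀ x) (T' - τ)
        - (1 + 1 / (4 * ν * (T' - τ)) * (R ^ 2 - dI I x₀ x ^ 2)) * Ek (n + 1) ν R (T' - τ)))) x := by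
  have hz : 0 < T' - τ := by linarith
  unfold Gx
  rw [setIntegral_indicator measurableSet_Ioi, setIntegral_indicator measurableSet_Ioi]
  have e6 : Ioo 0 R ∩ Ioi (dI I x₀ x) = Ioo (dI I x₀ x) R := by
    ext ρ
    simp only [mem_inter_iff, mem_Ioo, mem_Ioi]
    constructor
    · rintro ⟨⟨_, h2⟩, h3⟩
      exact ⟨h3, h2⟩
    · rintro ⟨h1, h2⟩
      exact ⟨⟨(dI_nonneg I x₀ x).trans_lt h1, h2⟩, h1⟩
  rw [e6]
  by_cases hx : x ∈ nb I x₀ R
  · have hd : dI I x₀ x ≤ R := le_of_lt hx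
    rw [indicator_of_mem hx, indicator_of_mem hx]
    unfold b1 b2
    rw [fA1 hν hz hd, fA3 hν hz hd]
  · have hd : R ≤ dI I x₀ x := not_lt.1 hx
    rw [indicator_of_notMem hx, indicator_of_notMem hx, Ioo_eq_empty (not_lt.2 hd)]
    simp

lemma Ek_anti (hν : 0 < ν) (hz : 0 < z) (hd0 : 0 ≤ d) (hd : d ≤ R) : Ek k ν R z ≤ Ek k ν d z := by
  unfold Ek
  refine mul_le_mul_of_nonneg_left (Real.exp_le_exp.2 ?_) (by positivity)
  rw [neg_mul, neg_mul, neg_le_neg_iff]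
  exact mul_le_mul_of_nonneg_left (pow_le_pow_left₀ hd0 hd 2) (by positivity)

lemma Ek_add2 (hz : 0 < z) : Ek (k + 2) ν ρ z = z⁻¹ * Ek k ν ρ z := by
  unfold Ek
  have h1 : ((√z)⁻¹) ^ (k + 2) = ((√z)⁻¹) ^ k * z⁻¹ := by
    rw [pow_add, inv_pow (√z) 2, Real.sq_sqrt hz.le]
  rw [h1]
  ring

/-- The far part. -/
lemma far_bd (hν : 0 < ν) (hR : 0 < R) (hz : 0 < z) {C : ℝ}
    (hup : ∀ ρ z : ℝ, 0 ≤ ρ → 0 < z → Ek (n + 3) ν ρ z ≤ C * ((√z + ρ)⁻¹) ^ (n + 3)) (hC : 0 ≤ C)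
    {m : ℝ} (hd0 : 0 ≤ d) (hdm : d ≤ m) (hRm : R ≤ m) :
    d * (1 / (2 * ν * z) * Ek (n + 1) ν m z) ≤ C / (2 * ν) * (R⁻¹) ^ (n + 2) := by
  have hm : 0 < m := hR.trans_le hRm
  have e1 : 1 / (2 * ν * z) * Ek (n + 1) ν m z = 1 / (2 * ν) * Ek (n + 3) ν m z := by
    rw [show n + 3 = n + 1 + 2 by ring, Ek_add2 hz]
    field_simp
  have h1 := hup m z hm.le hz
  have h2 : ((√z + m)⁻¹) ^ (n + 3) ≤ (m⁻¹) ^ (n + 3) := by
    refine pow_le_pow_left₀ (by positivity) (inv_anti₀ hm ?_) _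
    have := Real.sqrt_nonneg z
    linarith
  have h3 : (m⁻¹) ^ (n + 3) * m = (m⁻¹) ^ (n + 2) := by
    rw [show n + 3 = n + 2 + 1 by ring, pow_succ, mul_assoc, inv_mul_cancel₀ hm.ne', mul_one]
  have h4 : (m⁻¹) ^ (n + 2) ≤ (R⁻¹) ^ (n + 2) :=
    pow_le_pow_left₀ (by positivity) (inv_anti₀ hR hRm) _
  rw [e1]
  calc d * (1 / (2 * ν) * Ek (n + 3) ν m z) ≤ m * (1 / (2 * ν) * (C * (m⁻¹) ^ (n + 3))) := by
        refine mul_le_mul hdm (mul_le_mul_of_nonneg_left (h1.trans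
          (mul_le_mul_of_nonneg_left h2 hC)) (by positivity)) ?_ hm.le
        have := Ek_nonneg (k := n + 3) (ν := ν) (ρ := m) (z := z)
        positivity
    _ = C / (2 * ν) * ((m⁻¹) ^ (n + 3) * m) := by ring
    _ ≤ _ := by
        rw [h3]
        exact mul_le_mul_of_nonneg_left h4 (by positivity)

lemma fl_KA (hτ : τ < T') (hν : 0 < ν) (w : Fin 3 → V → ℝ) (q : V → ℝ) (x : V) :
    ((∑ i, w i x ^ 2) + 2 * q x) * ∑ j, w j x * H459R3.NS.pd j (kI I ν T' x₀ τ) x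
      = KA I x₀ w q x * (1 / (2 * ν * (T' - τ)) * kI I ν T' x₀ τ x) := by
  have hz : 0 < T' - τ := by linarith
  have e1 : ∑ j, w j x * H459R3.NS.pd j (kI I ν T' x₀ τ) x
      = ∑ j ∈ I, w j x * H459R3.NS.pd j (kI I ν T' x₀ τ) x := by
    refine (Finset.sum_subset (Finset.subset_univ I) fun j _ hj => ?_).symm
    rw [kI_pd_ne hj, mul_zero]
  have e2 : ∑ j ∈ I, w j x * H459R3.NS.pd j (kI I ν T' x₀ τ) x
      = -(1 / (2 * ν * (T' - τ)) * kI I ν T' x₀ τ x) * ∑ j ∈ I, w j x * (x j - x₀ j) := by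
    rw [Finset.mul_sum]
    refine Finset.sum_congr rfl fun j hj => ?_
    rw [kI_pd hj]
    field_simp
    ring
  rw [e1, e2]
  unfold KA nw
  ring

/-- The pointwise inequality. -/
lemma fl_pt (hν : 0 < ν) (hR : 0 < R) (hτ : τ < T') (hI : I.card = n + 1) {C : ℝ}
    (hup : ∀ ρ z : ℝ, 0 ≤ ρ → 0 < z → Ek (n + 3) ν ρ z ≤ C * ((√z + ρ)⁻¹) ^ (n + 3)) (hC : 0 ≤ C)
    (x : V) :
    ((∑ i, cw u τ i x ^ 2) + 2 * p τ x) * (∑ j, cw u τ j x * H459R3.NS.pd j (kI I ν T' x₀ τ) x)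
      - 2 * (ν * (gw (cw u τ) x * kI I ν T' x₀ τ x))
      ≤ 2 * Gx I n x₀ ν R T' u p τ x + C / (2 * ν) * (R⁻¹) ^ (n + 2) * nq (cw u τ) (p τ) x := by
  have hz : 0 < T' - τ := by linarith
  rw [fl_KA hτ hν, Gx_eq hν hτ, kI_Ek hI]
  have hK := KA_le (I := I) (x₀ := x₀) (cw u τ) (p τ) x
  have hg := gw_nonneg (cw u τ) x
  have hd := dI_nonneg I x₀ x
  have hn := nq_nonneg (cw u τ) (p τ) x
  have key : ∀ m : ℝ, dI I x₀ x ≤ m → R ≤ m → KA I x₀ (cw u τ) (p τ) x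
      * (1 / (2 * ν * (T' - τ)) * Ek (n + 1) ν m (T' - τ))
      ≤ C / (2 * ν) * (R⁻¹) ^ (n + 2) * nq (cw u τ) (p τ) x := by
    intro m hm1 hm2
    have h0 := Ek_nonneg (k := n + 1) (ν := ν) (ρ := m) (z := T' - τ)
    calc KA I x₀ (cw u τ) (p τ) x * (1 / (2 * ν * (T' - τ)) * Ek (n + 1) ν m (T' - τ))
        ≤ (dI I x₀ x * nq (cw u τ) (p τ) x)
          * (1 / (2 * ν * (T' - τ)) * Ek (n + 1) ν m (T' - τ)) := by
          refine mul_le_mul_of_nonneg_right ((le_abs_self _).trans hK) ?_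
          positivity
      _ = dI I x₀ x * (1 / (2 * ν * (T' - τ)) * Ek (n + 1) ν m (T' - τ)) * nq (cw u τ) (p τ) x := by
          ring
      _ ≤ _ := mul_le_mul_of_nonneg_right (far_bd hν hR hz hup hC hd hm1 hm2) hn
  by_cases hx : x ∈ nb I x₀ R
  · have hdR : dI I x₀ x ≤ R := le_of_lt hx
    rw [indicator_of_mem hx]
    have h1 := key R hdR le_rfl
    have h2 : 0 ≤ (1 + 1 / (4 * ν * (T' - τ)) * (R ^ 2 - dI I x₀ x ^ 2)) * Ek (n + 1) ν R (T' - τ) := by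
      have h3 : 0 ≤ R ^ 2 - dI I x₀ x ^ 2 := by
        have := pow_le_pow_left₀ hd hdR 2
        linarith
      have h0 := Ek_nonneg (k := n + 1) (ν := ν) (ρ := R) (z := T' - τ)
      positivity
    have h3 := mul_nonneg (mul_nonneg hν.le hg) h2
    have e1 : (1 : ℝ) / (2 * ν * (T' - τ)) = 2 * (1 / (4 * ν * (T' - τ))) := by
      field_simp
      ring
    rw [e1] at h1 ⊢
    nlinarith
  · have hdR : R ≤ dI I x₀ x := not_lt.1 hx
    rw [indicator_of_notMem hx]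
    have h1 := key (dI I x₀ x) le_rfl hdR
    have h2 : 0 ≤ ν * (gw (cw u τ) x * Ek (n + 1) ν (dI I x₀ x) (T' - τ)) := by
      have h0 := Ek_nonneg (k := n + 1) (ν := ν) (ρ := dI I x₀ x) (z := T' - τ)
      positivity
    linarith

end

end Pool.Agent.H305.EG
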