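import Pool.Agent.H305.EG.Ac

/-!
The criterion for the averaged inflow, integrated in time.
-/

set_option autoImplicit false

open MeasureTheory Set Metric Filter Topology
open scoped ContDiff ENNReal

namespace Pool.Agent.H305.EG

open H459R3.NS W221.NS Pool.Agent.V1183.PM Pool.Agent.H305.OS Pool.Agent.H305.SL Pool.Agent.H305.PL
  Pool.Agent.H305.EF

section
variable {ν T t₀ t₁ s T' R r ρ z d τ E : ℝ} {u : ℝ → V → V} {p : ℝ → V → ℝ} {I : Finset (Fin 3)}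
  {x₀ : V} {n k : ℕ} {w : Fin 3 → V → ℝ} {q : V → ℝ}

lemma flux_int {Φ : V → ℝ} (hw : ∀ i, HF (w i)) (hq : HF q) (hΦ : BF Φ) :
    Integrable fun x => ((∑ i, w i x ^ 2) + 2 * q x) * ∑ j, w j x * H459R3.NS.pd j Φ x := by
  obtain ⟨D, hD⟩ : ∃ D : V → ℝ, D = fun x => ∑ j, w j x * H459R3.NS.pd j Φ x := ⟨_, rfl⟩
  have hDF : HF D := by
    rw [hD]
    exact HF.sum fun j => SL.HF.mulB (hw j) (hΦ.pd j)
  have iw : ∀ i, Integrable fun x => w i x ^ 2 * D x := fun i =>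
    (((hw i).mul (hw i)).ip_int hDF).congr (Eventually.of_forall fun x => by simp only; ring)
  have iq : Integrable fun x => q x * D x := hq.ip_int hDF
  refine ((integrable_finsetSum _ fun i (_ : i ∈ Finset.univ) => iw i).add
    (iq.const_mul 2)).congr (Eventually.of_forall fun x => ?_)
  rw [hD]
  simp only [Pi.add_apply, Finset.sum_mul, add_mul, mul_assoc]

lemma Gx_int (hν : 0 < ν) (hR : 0 < R) (hτ : τ < T') (hw : ∀ i, HF (cw u τ i)) (hq : HF (p τ))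
    (hF : ∑ j, gF (cw u τ) (p τ) (cw u τ j) ≠ (⊤ : ℝ≥0∞)) :
    Integrable fun x => Gx I n x₀ ν R T' u p τ x := by
  have hz : 0 < T' - τ := by linarith
  have hrz : 0 < √(T' - τ) := Real.sqrt_pos.2 hz
  have mw : ∀ i, Measurable (cw u τ i) := fun i => (hw i).sm.continuous.measurable
  have mq : Measurable (p τ) := hq.sm.continuous.measurable
  have hg : Integrable (gw (cw u τ)) := gw_int hw
  obtain ⟨M, hM⟩ : ∃ M : ℝ, M = ((√(T' - τ))⁻¹) ^ (n + 1) := ⟨_, rfl⟩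
  have hM0 : 0 ≤ M := by rw [hM]; positivity
  have hdm : Measurable (dI I x₀) := (dI_cont I x₀).measurable
  have mg : Measurable (gw (cw u τ)) := by
    unfold gw
    exact Finset.measurable_sum _ fun i _ => Finset.measurable_sum _ fun k _ =>
      (((hw i).pd k).sm.continuous.measurable).pow_const 2
  have mn : Measurable (nw (cw u τ)) := by
    unfold nw
    exact Finset.measurable_sum _ fun i _ => (mw i).pow_const 2
  have mK : Measurable (KA I x₀ (cw u τ) (p τ)) := by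
    unfold KA
    refine Measurable.neg ((mn.add (mq.const_mul 2)).mul (Finset.measurable_sum _ fun j _ =>
      (mw j).mul ?_))
    fun_prop
  have mE : Measurable fun x => Ek (n + 1) ν (dI I x₀ x) (T' - τ) :=
    (Ek_rc (n + 1) ν (T' - τ)).measurable.comp hdm
  refine (((nq_int mw mq hF).1.const_mul (R * (1 / (4 * ν * (T' - τ)) * M))).add
    (hg.const_mul (ν * M))).mono' ?_ (Eventually.of_forall fun x => ?_)
  · have e : (fun x => Gx I n x₀ ν R T' u p τ x) = _ := funext fun x => Gx_eq hν hτ x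
    rw [e]
    refine (Measurable.indicator ?_ nb_meas).aestronglyMeasurable
    exact (mK.mul ((mE.sub_const _).const_mul _)).sub ((mg.mul (mE.sub
      (((((hdm.pow_const 2).const_sub _).const_mul _).const_add 1).mul_const _))).const_mul ν)
  · rw [Gx_eq hν hτ, Real.norm_eq_abs]
    have hn := nq_nonneg (cw u τ) (p τ) x
    have hgx := gw_nonneg (cw u τ) x
    by_cases hx : x ∈ nb I x₀ R
    · have hdR : dI I x₀ x ≤ R := le_of_lt hx
      have hd := dI_nonneg I x₀ x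
      rw [indicator_of_mem hx]
      have hE0 := Ek_nonneg (k := n + 1) (ν := ν) (ρ := R) (z := T' - τ)
      have hE1 : Ek (n + 1) ν (dI I x₀ x) (T' - τ) ≤ M := by
        rw [hM]
        exact Ek_le hν hrz (by rw [Real.sq_sqrt hz.le])
      have hE2 := Ek_anti (k := n + 1) hν hz hd hdR
      have h1 : |KA I x₀ (cw u τ) (p τ) x * (1 / (4 * ν * (T' - τ)) * (Ek (n + 1) ν (dI I x₀ x) (T' - τ)
          - Ek (n + 1) ν R (T' - τ)))| ≤ R * (1 / (4 * ν * (T' - τ)) * M) * nq (cw u τ) (p τ) x := by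
        rw [abs_mul, abs_of_nonneg (a := 1 / (4 * ν * (T' - τ)) * _) (mul_nonneg (by positivity)
          (by linarith))]
        calc |KA I x₀ (cw u τ) (p τ) x| * (1 / (4 * ν * (T' - τ)) * (Ek (n + 1) ν (dI I x₀ x) (T' - τ)
          - Ek (n + 1) ν R (T' - τ))) ≤ (R * nq (cw u τ) (p τ) x) * (1 / (4 * ν * (T' - τ)) * M) := by
              refine mul_le_mul ((KA_le _ _ _).trans (mul_le_mul_of_nonneg_right hdR hn))
                (mul_le_mul_of_nonneg_left (by linarith) (by positivity)) (mul_nonneg (by positivity)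
                (by linarith)) (by positivity)
          _ = _ := by ring
      have hb := fA3 (n := n) hν hz hdR
      have hb0 : 0 ≤ Ek (n + 1) ν (dI I x₀ x) (T' - τ)
          - (1 + 1 / (4 * ν * (T' - τ)) * (R ^ 2 - dI I x₀ x ^ 2)) * Ek (n + 1) ν R (T' - τ) := by
        rw [← hb]
        refine setIntegral_nonneg measurableSet_Ioo fun ρ hρ => ?_
        have h0 := Ek_nonneg (k := n + 5) (ν := ν) (ρ := ρ) (z := T' - τ)
        have h2 : 0 ≤ ρ ^ 2 - dI I x₀ x ^ 2 := by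
          have := pow_le_pow_left₀ hd hρ.1.le 2
          linarith
        have h3 : 0 ≤ ρ := hd.trans hρ.1.le
        positivity
      have hb1 : Ek (n + 1) ν (dI I x₀ x) (T' - τ)
          - (1 + 1 / (4 * ν * (T' - τ)) * (R ^ 2 - dI I x₀ x ^ 2)) * Ek (n + 1) ν R (T' - τ) ≤ M := by
        rw [← hb]
        exact (fA2 hν hz hd hdR).trans hE1
      have h2 : |ν * (gw (cw u τ) x * (Ek (n + 1) ν (dI I x₀ x) (T' - τ)
          - (1 + 1 / (4 * ν * (T' - τ)) * (R ^ 2 - dI I x₀ x ^ 2)) * Ek (n + 1) ν R (T' - τ)))|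
          ≤ ν * M * gw (cw u τ) x := by
        rw [abs_of_nonneg (by positivity)]
        calc _ ≤ ν * (gw (cw u τ) x * M) :=
              mul_le_mul_of_nonneg_left (mul_le_mul_of_nonneg_left hb1 hgx) hν.le
          _ = _ := by ring
      exact (abs_sub _ _).trans (add_le_add h1 h2)
    · rw [indicator_of_notMem hx, abs_zero]
      simp only [Pi.add_apply]
      positivity

lemma flA (hν : 0 < ν) (hR : 0 < R) (hτ : τ < T') (hI : I.card = n + 1) {C : ℝ}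
    (hup : ∀ ρ z : ℝ, 0 ≤ ρ → 0 < z → Ek (n + 3) ν ρ z ≤ C * ((√z + ρ)⁻¹) ^ (n + 3)) (hC : 0 ≤ C)
    (hw : ∀ i, HF (cw u τ i)) (hq : HF (p τ))
    (hF : ∑ j, gF (cw u τ) (p τ) (cw u τ j) ≠ (⊤ : ℝ≥0∞)) :
    flW (cw u τ) (p τ) (kI I ν T' x₀ τ) - 2 * (ν * dsW (cw u τ) (kI I ν T' x₀ τ))
      ≤ 2 * (∫ x, Gx I n x₀ ν R T' u p τ x)
        + C / (2 * ν) * (R⁻¹) ^ (n + 2) * (Fx u p τ).toReal := by
  have mw : ∀ i, Measurable (cw u τ i) := fun i => (hw i).sm.continuous.measurable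
  have mq : Measurable (p τ) := hq.sm.continuous.measurable
  have hΦ : BF (kI I ν T' x₀ τ) := kI_BF hν hτ
  have h1 := flux_int hw hq hΦ
  have h2 : Integrable fun x => gw (cw u τ) x * kI I ν T' x₀ τ x := gwB_int hw hΦ
  obtain ⟨h3, h4⟩ := nq_int mw mq hF
  have h5 := Gx_int (I := I) (n := n) (x₀ := x₀) hν hR hτ hw hq hF
  have e1 : flW (cw u τ) (p τ) (kI I ν T' x₀ τ) - 2 * (ν * dsW (cw u τ) (kI I ν T' x₀ τ))
      = ∫ x, (((∑ i, cw u τ i x ^ 2) + 2 * p τ x) * (∑ j, cw u τ j x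
        * H459R3.NS.pd j (kI I ν T' x₀ τ) x) - 2 * (ν * (gw (cw u τ) x * kI I ν T' x₀ τ x))) := by
    rw [integral_sub h1 ((h2.const_mul ν).const_mul 2), integral_const_mul, integral_const_mul]
    rfl
  have e2 : 2 * (∫ x, Gx I n x₀ ν R T' u p τ x)
        + C / (2 * ν) * (R⁻¹) ^ (n + 2) * (Fx u p τ).toReal
      = ∫ x, (2 * Gx I n x₀ ν R T' u p τ x
        + C / (2 * ν) * (R⁻¹) ^ (n + 2) * nq (cw u τ) (p τ) x) := by
    rw [integral_add (h5.const_mul 2) (h3.const_mul _), integral_const_mul, integral_const_mul, h4]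
    rfl
  rw [e1, e2]
  exact integral_mono (h1.sub ((h2.const_mul ν).const_mul 2)) ((h5.const_mul 2).add (h3.const_mul _))
    fun x => fl_pt hν hR hτ hI hup hC x

/-- The estimate at a fixed radius. -/
theorem mA_F {ν : ℝ} (hν : 0 < ν) (n : ℕ) : ∃ K₁ : ℝ, 0 ≤ K₁ ∧
    ∀ (R t₁ s T' r ε ρ : ℝ) (F : ℝ → ℝ), t₁ ≤ s → 0 < r →
    r ^ 2 = T' - s → 0 ≤ ε → ρ ∈ Ioo 0 R → IntegrableOn F (Ioc t₁ s) →
    (∀ t t', t₁ ≤ t → t ≤ t' → t' ≤ s → ∫ τ in Ioc t t', F τ ≤ ε * (ρ + (t' - t) / ρ)) →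
    ∫ τ in Ioc t₁ s, mA n ν ρ (T' - τ) * F τ ≤ ε * (K₁ * ((r + ρ)⁻¹) ^ (n + 1)) := by
  obtain ⟨C, hC, hu⟩ := Ek_up (n + 5) hν
  refine ⟨C / (2 * ν ^ 2), by positivity, ?_⟩
  intro R t₁ s T' r ε ρ F hts hr hrs hε hρ hF hB
  have hρ0 : 0 < ρ := hρ.1
  have hs : s < T' := by nlinarith [pow_pos hr 2]
  have hrs' : √(T' - s) = r := by rw [← hrs, Real.sqrt_sq hr.le]
  have hint : IntegrableOn (fun τ => Ek (n + 5) ν ρ (T' - τ)) (Ioc t₁ s) :=
    (Ek_cont (k := n + 5) (ρ := ρ) (t₁ := t₁) hν hs).integrableOn_Icc.mono_set Ioc_subset_Icc_self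
  have e1 : ∫ τ in Ioc t₁ s, mA n ν ρ (T' - τ) * F τ
      = ρ ^ 3 / (8 * ν ^ 2) * ∫ τ in Ioc t₁ s, Ek (n + 5) ν ρ (T' - τ) * F τ := by
    rw [← integral_const_mul]
    congr 1
    funext τ
    unfold mA
    ring
  have hrρ : 0 < r + ρ := by positivity
  have h1 : ∫ τ in Ioc t₁ s, Ek (n + 5) ν ρ (T' - τ) * F τ
      ≤ 2 * (C * ((r + ρ)⁻¹) ^ (n + 5)) * (ε * ρ) + ε / ρ * (C * (2 * ((r + ρ)⁻¹) ^ (n + 3))) := by
    refine (Ek_F hν (by omega) hC hu hts hr hrs hρ0 hε hF hB).trans (add_le_add le_rfl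
      (mul_le_mul_of_nonneg_left ?_ (by positivity)))
    have h2 := inv_int (k := n + 3) (ρ := ρ) (by omega) hρ0.le hts hs
    rw [hrs'] at h2
    have hc : ContinuousOn (fun τ => ((√(T' - τ) + ρ)⁻¹) ^ (n + 5)) (Icc t₁ s) := by
      refine ContinuousOn.pow (ContinuousOn.inv₀ (by fun_prop) fun τ hτ => ?_) _
      have : 0 ≤ √(T' - τ) := Real.sqrt_nonneg _
      positivity
    calc ∫ τ in Ioc t₁ s, Ek (n + 5) ν ρ (T' - τ)
        ≤ ∫ τ in Ioc t₁ s, C * ((√(T' - τ) + ρ)⁻¹) ^ (n + 5) := by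
          refine setIntegral_mono_on hint ((hc.integrableOn_Icc.mono_set
            Ioc_subset_Icc_self).const_mul _) measurableSet_Ioc fun τ hτ => ?_
          exact hu ρ (T' - τ) hρ0.le (by linarith [hτ.2])
      _ ≤ _ := by
          rw [integral_const_mul]
          exact mul_le_mul_of_nonneg_left h2 hC
  have h5 : ∀ j : ℕ, ρ ^ j * ((r + ρ)⁻¹) ^ (n + 1 + j) ≤ ((r + ρ)⁻¹) ^ (n + 1) := by
    intro j
    rw [pow_add ((r + ρ)⁻¹) (n + 1) j]
    have h6 : ρ ^ j * ((r + ρ)⁻¹) ^ j ≤ 1 := by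
      rw [← mul_pow]
      apply pow_le_one₀ (by positivity)
      rw [← div_eq_mul_inv, div_le_one hrρ]
      linarith
    calc ρ ^ j * (((r + ρ)⁻¹) ^ (n + 1) * ((r + ρ)⁻¹) ^ j)
        = ((r + ρ)⁻¹) ^ (n + 1) * (ρ ^ j * ((r + ρ)⁻¹) ^ j) := by ring
      _ ≤ ((r + ρ)⁻¹) ^ (n + 1) * 1 := mul_le_mul_of_nonneg_left h6 (by positivity)
      _ = _ := mul_one _
  rw [e1]
  calc ρ ^ 3 / (8 * ν ^ 2) * ∫ τ in Ioc t₁ s, Ek (n + 5) ν ρ (T' - τ) * F τ
      ≤ ρ ^ 3 / (8 * ν ^ 2) * (2 * (C * ((r + ρ)⁻¹) ^ (n + 5)) * (ε * ρ)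
        + ε / ρ * (C * (2 * ((r + ρ)⁻¹) ^ (n + 3)))) := mul_le_mul_of_nonneg_left h1 (by positivity)
    _ = ε * (C / (4 * ν ^ 2)) * (ρ ^ 4 * ((r + ρ)⁻¹) ^ (n + 1 + 4)
        + ρ ^ 2 * ((r + ρ)⁻¹) ^ (n + 1 + 2)) := by
        rw [show n + 1 + 4 = n + 5 by ring, show n + 1 + 2 = n + 3 by ring]
        field_simp
        ring
    _ ≤ ε * (C / (4 * ν ^ 2)) * (((r + ρ)⁻¹) ^ (n + 1) + ((r + ρ)⁻¹) ^ (n + 1)) :=
        mul_le_mul_of_nonneg_left (add_le_add (h5 4) (h5 2)) (by positivity)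
    _ = _ := by ring

end

end Pool.Agent.H305.EG
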