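import Pool.Agent.H305.EG.Ad

/-!
The criterion for the averaged inflow, integrated in time.
-/

set_option autoImplicit false

open MeasureTheory Set Metric Filter Topology
open scoped ContDiff ENNReal

namespace Pool.Agent.H305.EG

open H459R3.NS W221.NS Pool.Agent.V1183.PM Pool.Agent.H305.OS Pool.Agent.H305.SL Pool.Agent.H305.PL
  Pool.Agent.H305.EF

section
variable {ν T t₀ E t₁ s T' R ρ : ℝ} {u : ℝ → V → V} {p : ℝ → V → ℝ} {I : Finset (Fin 3)} {x₀ : V}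
  {n : ℕ}

/-- The energy inequality. -/
lemma en_A (h : ST ν T u p t₀ E) (hI : I.card = n + 1) (hn : 1 ≤ n) (hR : 0 < R) (x₀ : V) {K₁ : ℝ}
    (hK₁ : 0 ≤ K₁) (hom : ∀ (R t₁ s T' r ε ρ : ℝ) (F : ℝ → ℝ), t₁ ≤ s → 0 < r →
      r ^ 2 = T' - s → 0 ≤ ε → ρ ∈ Ioo 0 R → IntegrableOn F (Ioc t₁ s) →
      (∀ t t', t₁ ≤ t → t ≤ t' → t' ≤ s → ∫ τ in Ioc t t', F τ ≤ ε * (ρ + (t' - t) / ρ)) →
      ∫ τ in Ioc t₁ s, mA n ν ρ (T' - τ) * F τ ≤ ε * (K₁ * ((r + ρ)⁻¹) ^ (n + 1))) :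
    ∃ K₃ : ℝ, 0 ≤ K₃ ∧ ∀ ε : ℝ, 0 ≤ ε → (∀ ρ ∈ Ioo 0 R, ∀ t t', t₀ ≤ t → t ≤ t' → t' < T →
      ∫ τ in Ioc t t', Ah I x₀ ν ρ (cw u τ) (p τ) ≤ ε * (ρ + (t' - t) / ρ)) →
    ∀ t₁ s T' : ℝ, t₀ ≤ t₁ → t₁ ≤ s → s < T → T ≤ T' → T' ≤ T + 1 →
    enW (cw u s) (kI I ν T' x₀ s) ≤ enW (cw u t₁) (kI I ν T' x₀ t₁)
        + (2 * ε * K₁ * ((√(T' - s))⁻¹) ^ n + K₃ * (ε + ∫ τ in Ioc t₁ s, (Fx u p τ).toReal)) := by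
  have hν := h.hν
  have hT0 : 0 < T := h.t0.trans h.tT
  obtain ⟨C, hC, hup⟩ := Ek_up (n + 3) hν
  obtain ⟨K₃, hK₃e⟩ : ∃ K : ℝ, K = C / (2 * ν) * (R⁻¹) ^ (n + 2) := ⟨_, rfl⟩
  have hK₃ : 0 ≤ K₃ := by rw [hK₃e]; positivity
  refine ⟨K₃, hK₃, ?_⟩
  intro ε hε hyp t₁ s T' ht₁ hts hs hT1 hT2
  have ht₁0 : 0 < t₁ := h.t0.trans_le ht₁
  have hsT' : s < T' := hs.trans_le hT1
  obtain ⟨i1, i2, e⟩ := gidK h.toHS ht₁0 hts hs hsT' I x₀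
  obtain ⟨w1, w2, w3, w4⟩ := swapA h.toHS ht₁0 hs hsT' hR I x₀ n
  have hsub : Ioc t₁ s ⊆ Ioo t₀ T := fun τ hτ => ⟨ht₁.trans_lt hτ.1, hτ.2.trans_lt hs⟩
  have hF' : IntegrableOn (fun τ => (Fx u p τ).toReal) (Ioc t₁ s) := h.Fx_int.mono_set hsub
  obtain ⟨r, hr, hr2⟩ : ∃ r : ℝ, 0 < r ∧ r = √(T' - s) :=
    ⟨√(T' - s), Real.sqrt_pos.2 (by linarith), rfl⟩
  have hrs : r ^ 2 = T' - s := by rw [hr2, Real.sq_sqrt (by linarith)]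
  have j12 : IntegrableOn (fun τ => 2 * (∫ x, Gx I n x₀ ν R T' u p τ x)
      + K₃ * (Fx u p τ).toReal) (Ioc t₁ s) := (w3.const_mul 2).add (hF'.const_mul K₃)
  have hmono : ∫ τ in Ioc t₁ s, (flW (cw u τ) (p τ) (kI I ν T' x₀ τ)
        - 2 * (ν * dsW (cw u τ) (kI I ν T' x₀ τ)))
      ≤ ∫ τ in Ioc t₁ s, (2 * (∫ x, Gx I n x₀ ν R T' u p τ x) + K₃ * (Fx u p τ).toReal) := by
    refine setIntegral_mono_on (i2.sub (i1.const_mul 2)) j12 measurableSet_Ioc fun τ hτ => ?_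
    have hτ0 : τ ∈ Ioo 0 T := ⟨ht₁0.trans hτ.1, hτ.2.trans_lt hs⟩
    rw [hK₃e]
    exact flA hν hR (hτ.2.trans_lt hsT') hI hup hC (fun i => h.toHS.cw_HF hτ0 i) (h.toHS.p_HF hτ0)
      (h.Fx_fin ⟨ht₁.trans hτ.1.le, hτ.2.trans_lt hs⟩)
  rw [integral_add (w3.const_mul 2) (hF'.const_mul K₃), integral_const_mul, integral_const_mul, w4]
    at hmono
  obtain ⟨r1, r2⟩ := rad_int hn hr hR
  have hρ : ∫ ρ in Ioo 0 R, ∫ τ in Ioc t₁ s, mA n ν ρ (T' - τ) * Ah I x₀ ν ρ (cw u τ) (p τ)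
      ≤ ε * (K₁ * (r⁻¹) ^ n) := by
    calc _ ≤ ∫ ρ in Ioo 0 R, ε * (K₁ * ((r + ρ)⁻¹) ^ (n + 1)) := by
          refine setIntegral_mono_on w2 ((r1.const_mul K₁).const_mul ε) measurableSet_Ioo
            fun ρ hρ => ?_
          exact hom R t₁ s T' r ε ρ _ hts hr hrs hε hρ (w1 ρ hρ)
            (fun t t' h1 h2 h3 => hyp ρ hρ t t' (ht₁.trans h1) h2 (h3.trans_lt hs))
      _ = ε * (K₁ * (∫ ρ in Ioo 0 R, ((r + ρ)⁻¹) ^ (n + 1))) := by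
          rw [integral_const_mul, integral_const_mul]
      _ ≤ _ := mul_le_mul_of_nonneg_left (mul_le_mul_of_nonneg_left r2 hK₁) hε
  rw [e, ← hr2]
  have h10 : 0 ≤ K₃ * ε := by positivity
  have h12 : 2 * (ε * (K₁ * (r⁻¹) ^ n)) = 2 * ε * K₁ * (r⁻¹) ^ n := by ring
  rw [mul_add K₃]
  linarith

end

/-- The criterion for the averaged inflow, integrated in time. -/
theorem critA {ν : ℝ} (hν : 0 < ν) : ∃ ε : ℝ, 0 < ε ∧ ∀ (T : ℝ) (u : ℝ → V → V) (p : ℝ → V → ℝ)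
    (t₀ E : ℝ), ST ν T u p t₀ E → ∀ (I : Finset (Fin 3)) (x₀ : V) (R : ℝ), 2 ≤ I.card → 0 < R →
    (∀ ρ ∈ Ioo 0 R, ∀ t t', t₀ ≤ t → t ≤ t' → t' < T →
      ∫ τ in Ioc t t', Ah I x₀ ν ρ (cw u τ) (p τ) ≤ ε * (ρ + (t' - t) / ρ)) →
    ∃ δ Q : ℝ, 0 < δ ∧ ∀ t ∈ Ioo (T - δ) T, ∀ x₁ ∈ PI' I x₀, ∀ x ∈ ball x₁ δ, ‖u t x‖ ≤ Q := by
  obtain ⟨θ, hθ, hN⟩ := bN hν
  have hX := Real.exp_pos (1 / (4 * ν))
  obtain ⟨K₁, hK₁, hom1⟩ := mA_F hν 1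
  obtain ⟨K₂, hK₂, hom2⟩ := mA_F hν 2
  refine ⟨θ / (64 * Real.exp (1 / (4 * ν)) * (K₁ + K₂ + 1)), by positivity, ?_⟩
  intro T u p t₀ E h I x₀ R hI hR hyp
  obtain ⟨ε, hεe⟩ : ∃ ε : ℝ, ε = θ / (64 * Real.exp (1 / (4 * ν)) * (K₁ + K₂ + 1)) := ⟨_, rfl⟩
  rw [← hεe] at hyp
  have hε : 0 ≤ ε := by rw [hεe]; positivity
  have hεK : 64 * Real.exp (1 / (4 * ν)) * (ε * (K₁ + K₂ + 1)) = θ := by
    rw [hεe]
    field_simp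
  have hcard : I.card ≤ 3 := by
    have h1 := Finset.card_le_univ I
    rwa [Fintype.card_fin] at h1
  have key : ∃ (n : ℕ) (K : ℝ), I.card = n + 1 ∧ 1 ≤ n ∧ n ≤ 2 ∧ 0 ≤ K ∧ K ≤ K₁ + K₂ + 1 ∧
      ∀ (R t₁ s T' r ε ρ : ℝ) (F : ℝ → ℝ), t₁ ≤ s → 0 < r →
      r ^ 2 = T' - s → 0 ≤ ε → ρ ∈ Ioo 0 R → IntegrableOn F (Ioc t₁ s) →
      (∀ t t', t₁ ≤ t → t ≤ t' → t' ≤ s → ∫ τ in Ioc t t', F τ ≤ ε * (ρ + (t' - t) / ρ)) →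
      ∫ τ in Ioc t₁ s, mA n ν ρ (T' - τ) * F τ ≤ ε * (K * ((r + ρ)⁻¹) ^ (n + 1)) := by
    rcases (by omega : I.card = 2 ∨ I.card = 3) with h2 | h3
    · exact ⟨1, K₁, h2, le_rfl, by norm_num, hK₁, by linarith, hom1⟩
    · exact ⟨2, K₂, h3, by norm_num, le_rfl, hK₂, by linarith, hom2⟩
  obtain ⟨n, K, hn, hn1, hn2, hK, hK12, hom⟩ := key
  obtain ⟨K₃, hK₃, hen⟩ := en_A h hn hn1 hR x₀ hK hom
  obtain ⟨r₁, hr₁, hsm⟩ := smD h hn hn1 hε hK hK₃ (hen ε hε hyp)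
    (θ := θ / (32 * Real.exp (1 / (4 * ν)))) (by positivity)
  refine hN T u p t₀ E h (PI' I x₀) (r₁ / 2) (by positivity) ?_
  intro x₁ hx₁ R hR hR1 s hs hts
  obtain ⟨-, h2⟩ := hsm (2 * R) (by positivity) (by linarith) s ⟨by nlinarith [hs.1], hs.2⟩
  have h3 := nw_low (x₀ := x₀) h hn ⟨hts, hs.2⟩ (ρ := 2 * R) (by positivity) h2
  refine (lintegral_mono_set (ball_nb hx₁ hR)).trans (h3.trans (ENNReal.ofReal_le_ofReal ?_))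
  have h4 : (2 : ℝ) ^ (n + 1) ≤ 8 := by
    calc (2 : ℝ) ^ (n + 1) ≤ 2 ^ 3 := pow_le_pow_right₀ (by norm_num) (by omega)
      _ = 8 := by norm_num
  have h5 : Real.exp (1 / (4 * ν)) * (θ / (32 * Real.exp (1 / (4 * ν))) + 2 * ε * K) ≤ θ / 16 := by
    have e1 : Real.exp (1 / (4 * ν)) * (θ / (32 * Real.exp (1 / (4 * ν)))) = θ / 32 := by
      field_simp
    have e2 : ε * K ≤ ε * (K₁ + K₂ + 1) := mul_le_mul_of_nonneg_left hK12 hε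
    have e3 := mul_le_mul_of_nonneg_left e2 hX.le
    rw [mul_add, e1]
    nlinarith
  have h6 : 0 ≤ Real.exp (1 / (4 * ν)) * (θ / (32 * Real.exp (1 / (4 * ν))) + 2 * ε * K) := by
    positivity
  calc 2 ^ (n + 1) * Real.exp (1 / (4 * ν)) * (θ / (32 * Real.exp (1 / (4 * ν))) + 2 * ε * K) * (2 * R)
      = 2 ^ (n + 1) * (Real.exp (1 / (4 * ν)) * (θ / (32 * Real.exp (1 / (4 * ν))) + 2 * ε * K)) * (2 * R) := by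
        ring
    _ ≤ 8 * (θ / 16) * (2 * R) := by
        refine mul_le_mul_of_nonneg_right (mul_le_mul h4 h5 h6 (by norm_num)) (by positivity)
    _ = θ * R := by ring

end Pool.Agent.H305.EG
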