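import Pool.Agent.H305.EF.Nea

/-!
The flux in a ball at one time.
-/

set_option autoImplicit false

open MeasureTheory Set Metric Filter Topology
open scoped ContDiff ENNReal

namespace Pool.Agent.H305.EG

open H459R3.NS W221.NS Pool.Agent.V1183.PM Pool.Agent.H305.OS Pool.Agent.H305.SL Pool.Agent.H305.PL
  Pool.Agent.H305.EF

/-- The dissipation in a ball. -/
noncomputable def gB (v : Fin 3 → V → ℝ) (x₀ : V) (ρ : ℝ) : ℝ≥0∞ :=
  ∫⁻ x in ball x₀ ρ, ENNReal.ofReal (gw v x)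

/-- The local dissipation with the lower order term. -/
noncomputable def Db (v : Fin 3 → V → ℝ) (x₀ : V) (ρ : ℝ) : ℝ≥0∞ :=
  6 * (gB v x₀ (3 * ρ) + ENNReal.ofReal ((2 * B1 / ρ) ^ 2) * eB v x₀ (3 * ρ))

section
variable {ρ θ : ℝ} {v : Fin 3 → V → ℝ} {x₀ : V}

lemma gB_Db : gB v x₀ (3 * ρ) ≤ Db v x₀ ρ := by
  unfold Db
  calc gB v x₀ (3 * ρ) = 1 * gB v x₀ (3 * ρ) := (one_mul _).symm
    _ ≤ _ := mul_le_mul' (by norm_num) le_self_add

lemma L4b (hv : ∀ i, HF (v i)) (hρ : 0 < ρ) (i : Fin 3) :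
    ∫⁻ x in ball x₀ ρ, ENNReal.ofReal (v i x ^ 4)
      ≤ 12 * (eB v x₀ (3 * ρ) ^ (1 / 2 : ℝ) * Db v x₀ ρ ^ (3 / 2 : ℝ)) := by
  obtain ⟨a, b, hT⟩ := SL.exists_tri 0
  have hB1 := B1_one
  have h := loc_aux (χ := cz 0 a b x₀ ρ) (B := 2 * B1 / ρ) (S := ball x₀ (3 * ρ)) hv (cz_BF hρ)
    (fun x => by rw [abs_of_nonneg (cz_nonneg x)]; exact cz_le x)
    (fun m x => pd_cz_le hT hρ m x) measurableSet_ball
    (fun x hx => cz_out hT hρ fun h => hx (ball_subset_ball (by linarith) h))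
    (fun m x hx => pd_cz_out hT hρ m hx) 0 i
  simp only [add_zero] at h
  obtain ⟨hF, h1, h2⟩ := h
  obtain ⟨F, hFe⟩ : ∃ F : V → ℝ, F = fun x => v i x * cz 0 a b x₀ ρ x := ⟨_, rfl⟩
  rw [← hFe] at hF h1 h2
  have h3 := L4g hF h1 (D := Db v x₀ ρ) (fun k =>
    (Finset.single_le_sum (f := fun k => sqi (H459R3.NS.pd k F)) (fun _ _ => zero_le)
      (Finset.mem_univ k)).trans h2)
  refine le_trans ?_ h3
  rw [← lintegral_indicator measurableSet_ball]
  refine lintegral_mono fun x => ?_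
  by_cases hx : x ∈ ball x₀ ρ
  · rw [indicator_of_mem hx, hFe]
    simp only
    rw [cz_one hρ hx, mul_one]
  · rw [indicator_of_notMem hx]
    exact zero_le

/-- The bound for the flux at one time. -/
lemma bF1 {ν T : ℝ} {u : ℝ → V → V} {p : ℝ → V → ℝ} {Cp : ℝ}
    (hp : ∀ (w : Fin 3 → V → ℝ) (q : V → ℝ), (∀ i, HF (w i)) →
    (∀ x, ∑ i, H459R3.NS.pd i (w i) x = 0) → HF q → (∀ x, - lp q x = ∑ i, H459R3.NS.pd i (nl w i) x) →
    ∀ r : ℝ, 0 < r → ∀ x, ENNReal.ofReal |q x| ≤ ENNReal.ofReal Cp * (nearP w r x + farP w r x))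
    (h : HS ν T u p) {τ : ℝ} (hτ : τ ∈ Ioo 0 T) (hρ : 0 < ρ) (hθ : 0 ≤ θ)
    (hE : ∀ R, ρ ≤ R → eB (cw u τ) x₀ R ≤ ENNReal.ofReal (θ * R ^ 2 / ρ)) (i : Fin 3) :
    fB (cw u τ) (p τ) (cw u τ i) x₀ ρ ≤
      108 * (eB (cw u τ) x₀ (3 * ρ) ^ (3 / 4 : ℝ) * Db (cw u τ) x₀ ρ ^ (3 / 4 : ℝ))
      + ENNReal.ofReal (2 * Cp) * (768 * (ENNReal.ofReal ρ ^ (1 / 8 : ℝ)
          * (eB (cw u τ) x₀ (3 * ρ) ^ (11 / 16 : ℝ) * Db (cw u τ) x₀ ρ ^ (13 / 16 : ℝ)))
        + 12 * (ENNReal.ofReal θ * (ENNReal.ofReal ρ ^ (-(1 / 2) : ℝ)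
          * eB (cw u τ) x₀ (3 * ρ) ^ (1 / 2 : ℝ)))) := by
  have hv : ∀ i, HF (cw u τ i) := fun i => h.cw_HF hτ i
  have hw : Continuous (cw u τ i) := (hv i).sm.continuous
  have cn := nw_cont hv
  have cg := gw_cont hv
  have mv : ∀ i, Measurable (cw u τ i) := fun i => (hv i).sm.continuous.measurable
  have mw : Measurable fun x => ENNReal.ofReal |cw u τ i x| := hw.measurable.norm.ennreal_ofReal
  obtain ⟨X, hX⟩ : ∃ X : ℝ≥0∞, X = eB (cw u τ) x₀ (3 * ρ) := ⟨_, rfl⟩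
  obtain ⟨D, hD⟩ : ∃ D : ℝ≥0∞, D = Db (cw u τ) x₀ ρ := ⟨_, rfl⟩
  obtain ⟨P, hP⟩ : ∃ P : ℝ≥0∞, P = ENNReal.ofReal ρ := ⟨_, rfl⟩
  rw [← hX, ← hD, ← hP]
  have hL4 : ∀ k, ∫⁻ x in ball x₀ ρ, ENNReal.ofReal (cw u τ k x ^ 4)
      ≤ 12 * (X ^ (1 / 2 : ℝ) * D ^ (3 / 2 : ℝ)) := fun k => by
    rw [hX, hD]
    exact L4b hv hρ k
  have hsq : ∫⁻ x in ball x₀ ρ, ENNReal.ofReal |cw u τ i x| ^ 2 ≤ X := by
    refine (PL.sq_eB i x₀ ρ).trans ?_
    rw [hX]
    exact lintegral_mono_set (ball_subset_ball (by linarith))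
  have hXp : ∀ a b : ℝ, 0 ≤ a → 0 ≤ b → X ^ a * X ^ b = X ^ (a + b) := fun a b ha hb =>
    (ENNReal.rpow_add_of_nonneg a b ha hb).symm
  have hDp : ∀ a b : ℝ, 0 ≤ a → 0 ≤ b → D ^ a * D ^ b = D ^ (a + b) := fun a b ha hb =>
    (ENNReal.rpow_add_of_nonneg a b ha hb).symm
  have h2 : fB (cw u τ) (p τ) (cw u τ i) x₀ ρ ≤
      (∫⁻ x in ball x₀ ρ, ENNReal.ofReal (|cw u τ i x| * nw (cw u τ) x))
      + ENNReal.ofReal (2 * Cp) * ((∫⁻ x in ball x₀ ρ, ENNReal.ofReal |cw u τ i x| * nearP (cw u τ) ρ x)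
        + ∫⁻ x in ball x₀ ρ, ENNReal.ofReal |cw u τ i x| * farP (cw u τ) ρ x) := by
    have m1 : Measurable fun x => ENNReal.ofReal (|cw u τ i x| * nw (cw u τ) x) :=
      (ENNReal.continuous_ofReal.comp (hw.abs.mul cn)).measurable
    have m2 : Measurable fun x => ENNReal.ofReal |cw u τ i x| * nearP (cw u τ) ρ x := by
      apply mw.mul
      unfold nearP
      have cG : Continuous fun x => √(nw (cw u τ) x) * √(gw (cw u τ) x) :=
        cn.sqrt.mul (gw_cont hv).sqrt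
      have : Measurable fun z : V × ℝ => ∫⁻ y' in closedBall (0 : V) 1,
          ENNReal.ofReal (√(nw (cw u τ) (z.1 + z.2 • y')) * √(gw (cw u τ) (z.1 + z.2 • y'))) := by
        have : Measurable fun q : (V × ℝ) × V => ENNReal.ofReal
            ((fun x => √(nw (cw u τ) x) * √(gw (cw u τ) x)) (q.1.1 + q.1.2 • q.2)) := by
          have : Continuous fun q : (V × ℝ) × V =>
              (fun x => √(nw (cw u τ) x) * √(gw (cw u τ) x)) (q.1.1 + q.1.2 • q.2) :=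
            cG.comp (by fun_prop)
          exact (ENNReal.continuous_ofReal.comp this).measurable
        exact this.lintegral_prod_right'
      exact this.lintegral_prod_right'
    unfold fB
    rw [← lintegral_add_left m2, ← lintegral_const_mul' _ _ ENNReal.ofReal_ne_top,
      ← lintegral_add_left m1]
    apply lintegral_mono
    intro x
    simp only
    have h2 : ENNReal.ofReal ((nw (cw u τ) x + 2 * |p τ x|) * |cw u τ i x|)
        = ENNReal.ofReal (|cw u τ i x| * nw (cw u τ) x) + ENNReal.ofReal 2 *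
          (ENNReal.ofReal |cw u τ i x| * ENNReal.ofReal |p τ x|) := by
      have n1 := nw_nonneg (cw u τ) x
      rw [← ENNReal.ofReal_mul (abs_nonneg _), ← ENNReal.ofReal_mul (by norm_num),
        ← ENNReal.ofReal_add (by positivity) (by positivity)]
      congr 1
      ring
    rw [h2]
    have h3 := hp (cw u τ) (p τ) hv (h.div τ hτ) (h.p_HF hτ) (HS.press h hτ) ρ hρ x
    calc ENNReal.ofReal (|cw u τ i x| * nw (cw u τ) x) + ENNReal.ofReal 2 *
          (ENNReal.ofReal |cw u τ i x| * ENNReal.ofReal |p τ x|)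
        ≤ ENNReal.ofReal (|cw u τ i x| * nw (cw u τ) x) + ENNReal.ofReal 2 *
          (ENNReal.ofReal |cw u τ i x| * (ENNReal.ofReal Cp
            * (nearP (cw u τ) ρ x + farP (cw u τ) ρ x))) :=
          add_le_add le_rfl (mul_le_mul_right (mul_le_mul_right h3 _) _)
      _ = _ := by
          rw [ENNReal.ofReal_mul (by norm_num : (0 : ℝ) ≤ 2)]
          ring
  -- the cubic term
  have c1 : ∫⁻ x in ball x₀ ρ, ENNReal.ofReal (|cw u τ i x| * nw (cw u τ) x)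
      ≤ 108 * (X ^ (3 / 4 : ℝ) * D ^ (3 / 4 : ℝ)) := by
    have h1 : ∫⁻ x in ball x₀ ρ, ENNReal.ofReal (|cw u τ i x| * nw (cw u τ) x)
        ≤ (∫⁻ x in ball x₀ ρ, ENNReal.ofReal |cw u τ i x| ^ 2) ^ (1 / 2 : ℝ)
          * (∫⁻ x in ball x₀ ρ, ENNReal.ofReal (nw (cw u τ) x) ^ 2) ^ (1 / 2 : ℝ) := by
      have m2 : Measurable fun x => ENNReal.ofReal (nw (cw u τ) x) := cn.measurable.ennreal_ofReal
      refine le_trans (le_of_eq ?_) (csE mw.aemeasurable m2.aemeasurable)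
      apply lintegral_congr
      intro x
      exact ENNReal.ofReal_mul (abs_nonneg _)
    have h3 : ∫⁻ x in ball x₀ ρ, ENNReal.ofReal (nw (cw u τ) x) ^ 2
        ≤ 108 * (X ^ (1 / 2 : ℝ) * D ^ (3 / 2 : ℝ)) := by
      calc ∫⁻ x in ball x₀ ρ, ENNReal.ofReal (nw (cw u τ) x) ^ 2
          ≤ ∫⁻ x in ball x₀ ρ, 3 * ∑ k, ENNReal.ofReal (cw u τ k x ^ 4) := by
            apply lintegral_mono
            intro x
            simp only
            rw [← ENNReal.ofReal_pow (nw_nonneg _ x), ← ENNReal.ofReal_sum_of_nonneg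
              (fun k _ => by positivity), show (3 : ℝ≥0∞) = ENNReal.ofReal 3 by norm_num,
              ← ENNReal.ofReal_mul (by norm_num)]
            apply ENNReal.ofReal_le_ofReal
            unfold nw
            simp only [Fin.sum_univ_three]
            nlinarith [sq_nonneg (cw u τ 0 x ^ 2 - cw u τ 1 x ^ 2),
              sq_nonneg (cw u τ 1 x ^ 2 - cw u τ 2 x ^ 2), sq_nonneg (cw u τ 0 x ^ 2 - cw u τ 2 x ^ 2)]
        _ = 3 * ∑ k, ∫⁻ x in ball x₀ ρ, ENNReal.ofReal (cw u τ k x ^ 4) := by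
            rw [lintegral_const_mul _ (Finset.measurable_sum _ fun k _ =>
              ((mv k).pow_const 4).ennreal_ofReal), lintegral_finsetSum _ fun k _ =>
              ((mv k).pow_const 4).ennreal_ofReal]
        _ ≤ 3 * ∑ _k : Fin 3, 12 * (X ^ (1 / 2 : ℝ) * D ^ (3 / 2 : ℝ)) := by
            gcongr with k _
            exact hL4 k
        _ = _ := by
            rw [Finset.sum_const, Finset.card_univ, Fintype.card_fin, nsmul_eq_mul]
            push_cast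
            ring
    calc _ ≤ X ^ (1 / 2 : ℝ) * (108 * (X ^ (1 / 2 : ℝ) * D ^ (3 / 2 : ℝ))) ^ (1 / 2 : ℝ) :=
          h1.trans (mul_le_mul' (ENNReal.rpow_le_rpow hsq (by norm_num))
            (ENNReal.rpow_le_rpow h3 (by norm_num)))
      _ = (108 : ℝ≥0∞) ^ (1 / 2 : ℝ) * ((X ^ (1 / 2 : ℝ) * X ^ (1 / 4 : ℝ)) * D ^ (3 / 4 : ℝ)) := by
          rw [ENNReal.mul_rpow_of_nonneg _ _ (by norm_num), ENNReal.mul_rpow_of_nonneg _ _ (by norm_num),
            ← ENNReal.rpow_mul, ← ENNReal.rpow_mul, show (1 / 2 : ℝ) * (1 / 2) = 1 / 4 by norm_num,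
            show (3 / 2 : ℝ) * (1 / 2) = 3 / 4 by norm_num]
          ring
      _ ≤ 108 * (X ^ (3 / 4 : ℝ) * D ^ (3 / 4 : ℝ)) := by
          rw [hXp _ _ (by norm_num) (by norm_num), show (1 / 2 + 1 / 4 : ℝ) = 3 / 4 by norm_num]
          refine mul_le_mul' ?_ le_rfl
          calc (108 : ℝ≥0∞) ^ (1 / 2 : ℝ) ≤ (108 : ℝ≥0∞) ^ (1 : ℝ) :=
                ENNReal.rpow_le_rpow_of_exponent_le (by norm_num) (by norm_num)
            _ = _ := ENNReal.rpow_one _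
  -- the near part
  have c2 : ∫⁻ x in ball x₀ ρ, ENNReal.ofReal |cw u τ i x| * nearP (cw u τ) ρ x
      ≤ 768 * (P ^ (1 / 8 : ℝ) * (X ^ (11 / 16 : ℝ) * D ^ (13 / 16 : ℝ))) := by
    have hg : ∫⁻ x in ball x₀ (3 * ρ), ENNReal.ofReal (√(nw (cw u τ) x) * √(gw (cw u τ) x))
        ≤ X ^ (1 / 2 : ℝ) * D ^ (1 / 2 : ℝ) := by
      have h := csE (μ := volume.restrict (ball x₀ (3 * ρ)))
        (f := fun x => ENNReal.ofReal √(nw (cw u τ) x))
        (g := fun x => ENNReal.ofReal √(gw (cw u τ) x)) cn.sqrt.measurable.ennreal_ofReal.aemeasurable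
        cg.sqrt.measurable.ennreal_ofReal.aemeasurable
      have e1 : ∫⁻ x in ball x₀ (3 * ρ), ENNReal.ofReal (√(nw (cw u τ) x) * √(gw (cw u τ) x))
          = ∫⁻ x in ball x₀ (3 * ρ), ENNReal.ofReal √(nw (cw u τ) x)
            * ENNReal.ofReal √(gw (cw u τ) x) := by
        apply lintegral_congr
        intro x
        exact ENNReal.ofReal_mul (Real.sqrt_nonneg _)
      rw [e1]
      refine h.trans (mul_le_mul' (ENNReal.rpow_le_rpow ?_ (by norm_num))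
        (ENNReal.rpow_le_rpow ?_ (by norm_num)))
      · rw [hX]
        apply le_of_eq
        apply lintegral_congr
        intro x
        rw [← ENNReal.ofReal_pow (Real.sqrt_nonneg _), Real.sq_sqrt (nw_nonneg _ x)]
      · rw [hD]
        refine le_trans (le_of_eq ?_) gB_Db
        apply lintegral_congr
        intro x
        rw [← ENNReal.ofReal_pow (Real.sqrt_nonneg _), Real.sq_sqrt (gw_nonneg _ x)]
    have h := nearG (S := ball x₀ ρ) (S' := ball x₀ (3 * ρ)) hv hw measurableSet_ball hρ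
      (fun x hx z hz => by
        rw [mem_ball] at hx ⊢
        rw [mem_closedBall] at hz
        linarith [dist_triangle z x x₀]) (e := X) (L := 12 * (X ^ (1 / 2 : ℝ) * D ^ (3 / 2 : ℝ)))
      hsq (hL4 i) hg
    rw [← hP] at h
    refine h.trans ?_
    calc 64 * (P ^ (1 / 8 : ℝ) * (X ^ (1 / 12 : ℝ) * (12 * (X ^ (1 / 2 : ℝ) * D ^ (3 / 2 : ℝ))) ^ (5 / 24 : ℝ)
          * (X ^ (1 / 2 : ℝ) * D ^ (1 / 2 : ℝ))))
        = 64 * ((12 : ℝ≥0∞) ^ (5 / 24 : ℝ) * (P ^ (1 / 8 : ℝ)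
          * ((X ^ (1 / 12 : ℝ) * X ^ (5 / 48 : ℝ) * X ^ (1 / 2 : ℝ))
          * (D ^ (5 / 16 : ℝ) * D ^ (1 / 2 : ℝ))))) := by
          rw [ENNReal.mul_rpow_of_nonneg _ _ (by norm_num), ENNReal.mul_rpow_of_nonneg _ _ (by norm_num),
            ← ENNReal.rpow_mul, ← ENNReal.rpow_mul, show (1 / 2 : ℝ) * (5 / 24) = 5 / 48 by norm_num,
            show (3 / 2 : ℝ) * (5 / 24) = 5 / 16 by norm_num]
          ring
      _ ≤ 64 * (12 * (P ^ (1 / 8 : ℝ) * (X ^ (11 / 16 : ℝ) * D ^ (13 / 16 : ℝ)))) := by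
          rw [hXp _ _ (by norm_num) (by norm_num), hXp _ _ (by norm_num) (by norm_num),
            hDp _ _ (by norm_num) (by norm_num), show (1 / 12 + 5 / 48 + 1 / 2 : ℝ) = 11 / 16 by norm_num,
            show (5 / 16 + 1 / 2 : ℝ) = 13 / 16 by norm_num]
          refine mul_le_mul_right (mul_le_mul' ?_ le_rfl) _
          calc (12 : ℝ≥0∞) ^ (5 / 24 : ℝ) ≤ (12 : ℝ≥0∞) ^ (1 : ℝ) :=
                ENNReal.rpow_le_rpow_of_exponent_le (by norm_num) (by norm_num)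
            _ = _ := ENNReal.rpow_one _
      _ = _ := by ring
  -- the far part
  have c3 : ∫⁻ x in ball x₀ ρ, ENNReal.ofReal |cw u τ i x| * farP (cw u τ) ρ x
      ≤ 12 * (ENNReal.ofReal θ * (P ^ (-(1 / 2) : ℝ) * X ^ (1 / 2 : ℝ))) := by
    have hK : ∀ R, ρ < R → ∀ z, ∫⁻ x in ball x₀ ρ ∩ closedBall z R, ENNReal.ofReal |cw u τ i x|
        ≤ 3 * (P ^ (3 / 2 : ℝ) * X ^ (1 / 2 : ℝ)) := by
      intro R hR z
      have h := csE (μ := volume.restrict (ball x₀ ρ))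
        (f := fun _ => 1) (g := fun x => ENNReal.ofReal |cw u τ i x|) aemeasurable_const mw.aemeasurable
      simp only [one_mul, one_pow] at h
      refine (lintegral_mono_set inter_subset_left).trans (h.trans ?_)
      have h2 : ∫⁻ _x in ball x₀ ρ, (1 : ℝ≥0∞) ≤ 8 * P ^ 3 := by
        rw [hP]
        refine le_trans (lintegral_mono_set ?_) (PL.vol_cb hρ x₀ (ball x₀ ρ))
        exact fun x hx => ⟨hx, ball_subset_closedBall hx⟩
      calc _ ≤ (8 * P ^ 3) ^ (1 / 2 : ℝ) * X ^ (1 / 2 : ℝ) :=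
            mul_le_mul' (ENNReal.rpow_le_rpow h2 (by norm_num))
              (ENNReal.rpow_le_rpow hsq (by norm_num))
        _ = (8 : ℝ≥0∞) ^ (1 / 2 : ℝ) * (P ^ (3 / 2 : ℝ) * X ^ (1 / 2 : ℝ)) := by
            rw [ENNReal.mul_rpow_of_nonneg _ _ (by norm_num), ← ENNReal.rpow_natCast,
              ← ENNReal.rpow_mul, show ((3 : ℕ) : ℝ) * (1 / 2) = 3 / 2 by norm_num]
            ring
        _ ≤ _ := by
            refine mul_le_mul_left ?_ _
            calc (8 : ℝ≥0∞) ^ (1 / 2 : ℝ) ≤ (9 : ℝ≥0∞) ^ (1 / 2 : ℝ) :=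
                  ENNReal.rpow_le_rpow (by norm_num) (by norm_num)
              _ = 3 := by
                  rw [show (9 : ℝ≥0∞) = 3 ^ (2 : ℝ) by norm_num, ← ENNReal.rpow_mul]
                  norm_num
    refine farG (S := ball x₀ ρ) hv hw hρ (K := fun _ => 3 * (P ^ (3 / 2 : ℝ)
      * X ^ (1 / 2 : ℝ))) (B := fun R => ENNReal.ofReal (θ * (2 * R) ^ 2 / ρ))
      (X := 12 * (ENNReal.ofReal θ * (P ^ (-(1 / 2) : ℝ) * X ^ (1 / 2 : ℝ)))) hK
      (D := fun R => ball x₀ (2 * R)) (fun _ => measurableSet_ball)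
      (fun R hR x hx z hz => ?_) (fun R hR => hE (2 * R) (by linarith)) ?_
    · rw [mem_ball] at hx ⊢
      rw [mem_closedBall] at hz
      linarith [dist_triangle z x x₀]
    · have key : ∀ R ∈ Ioi ρ, ENNReal.ofReal (R⁻¹ * (R ^ 3)⁻¹)
          * (3 * (P ^ (3 / 2 : ℝ) * X ^ (1 / 2 : ℝ)) * ENNReal.ofReal (θ * (2 * R) ^ 2 / ρ))
          = (3 * (P ^ (3 / 2 : ℝ) * X ^ (1 / 2 : ℝ)) * ENNReal.ofReal (4 * θ / ρ))
            * ENNReal.ofReal (R ^ (-2 : ℝ)) := by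
        intro R hR
        have hR0 : 0 < R := lt_trans hρ hR
        have e1 : ENNReal.ofReal (R⁻¹ * (R ^ 3)⁻¹) * ENNReal.ofReal (θ * (2 * R) ^ 2 / ρ)
            = ENNReal.ofReal (4 * θ / ρ) * ENNReal.ofReal (R ^ (-2 : ℝ)) := by
          rw [← ENNReal.ofReal_mul (by positivity), ← ENNReal.ofReal_mul (by positivity)]
          congr 1
          rw [show (-2 : ℝ) = -((2 : ℕ) : ℝ) by norm_num, Real.rpow_neg hR0.le, Real.rpow_natCast]
          field_simp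
          ring
        calc _ = 3 * (P ^ (3 / 2 : ℝ) * X ^ (1 / 2 : ℝ)) * (ENNReal.ofReal (R⁻¹ * (R ^ 3)⁻¹)
              * ENNReal.ofReal (θ * (2 * R) ^ 2 / ρ)) := by ring
          _ = _ := by
              rw [e1]
              ring
      rw [setLIntegral_congr_fun measurableSet_Ioi key, lintegral_const_mul _ (by fun_prop),
        ← ofReal_integral_eq_lintegral_ofReal (integrableOn_Ioi_rpow_of_lt (by norm_num) hρ),
        integral_Ioi_rpow_of_lt (by norm_num) hρ]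
      · have e2 : ENNReal.ofReal (4 * θ / ρ) * ENNReal.ofReal (-ρ ^ (-2 + 1 : ℝ) / (-2 + 1))
            = 4 * ENNReal.ofReal θ * P ^ (-2 : ℝ) := by
          rw [hP, ENNReal.ofReal_rpow_of_pos hρ, show (4 : ℝ≥0∞) = ENNReal.ofReal 4 by norm_num,
            ← ENNReal.ofReal_mul (by positivity), ← ENNReal.ofReal_mul (by positivity),
            ← ENNReal.ofReal_mul (by positivity)]
          congr 1
          rw [show (-2 + 1 : ℝ) = -1 by norm_num, Real.rpow_neg_one,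
            show (-2 : ℝ) = -((2 : ℕ) : ℝ) by norm_num, Real.rpow_neg hρ.le, Real.rpow_natCast]
          field_simp
        have hP0 : P ≠ 0 := by
          rw [hP]
          simpa using hρ
        have hPt : P ≠ (⊤ : ℝ≥0∞) := by rw [hP]; exact ENNReal.ofReal_ne_top
        calc _ = 3 * (P ^ (3 / 2 : ℝ) * X ^ (1 / 2 : ℝ)) * (ENNReal.ofReal (4 * θ / ρ)
              * ENNReal.ofReal (-ρ ^ (-2 + 1 : ℝ) / (-2 + 1))) := by ring
          _ = 12 * (ENNReal.ofReal θ * ((P ^ (3 / 2 : ℝ) * P ^ (-2 : ℝ)) * X ^ (1 / 2 : ℝ))) := by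
              rw [e2]
              ring
          _ ≤ _ := by
              rw [← ENNReal.rpow_add _ _ hP0 hPt, show (3 / 2 + -2 : ℝ) = -(1 / 2) by norm_num]
      · rw [EventuallyLE, ae_restrict_iff' measurableSet_Ioi]
        exact Eventually.of_forall fun R hR => Real.rpow_nonneg (lt_trans hρ hR).le _
  refine h2.trans ?_
  exact add_le_add c1 (mul_le_mul_right (add_le_add c2 c3) _)

end

end Pool.Agent.H305.EG
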