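import Pool.Agent.H305.EG.Bf1

/-!
The flux in a ball integrated in time.
-/

set_option autoImplicit false

open MeasureTheory Set Metric Filter Topology
open scoped ContDiff ENNReal

namespace Pool.Agent.H305.EG

open H459R3.NS W221.NS Pool.Agent.V1183.PM Pool.Agent.H305.OS Pool.Agent.H305.SL Pool.Agent.H305.PL
  Pool.Agent.H305.EF

lemma gB_aem {ν T : ℝ} {u : ℝ → V → V} {p : ℝ → V → ℝ} (h : HS ν T u p) (x₀ : V) (ρ : ℝ) {I : Set ℝ}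
    (hI : MeasurableSet I) (hIT : I ⊆ Ioo 0 T) :
    AEMeasurable (fun τ => gB (cw u τ) x₀ ρ) (volume.restrict I) :=
  J_aem (HS.j_gw h) hI hIT

/-- The flux in a ball integrated in time. -/
theorem bF2 : ∃ C : ℝ, 0 ≤ C ∧ ∀ (ν T : ℝ) (u : ℝ → V → V) (p : ℝ → V → ℝ), HS ν T u p →
    ∀ (i : Fin 3) (x₀ : V) (ρ s' s θ Z : ℝ), 0 < ρ → 0 < s' → s' ≤ s → s < T → s - s' ≤ ρ ^ 2 →
    0 ≤ θ → θ ≤ 1 → 1 ≤ Z →
    (∀ τ ∈ Ioc s' s, ∀ R, ρ ≤ R → eB (cw u τ) x₀ R ≤ ENNReal.ofReal (θ * R ^ 2 / ρ)) →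
    ∫⁻ τ in Ioc s' s, gB (cw u τ) x₀ (3 * ρ) ≤ ENNReal.ofReal (Z * ρ) →
    ∫⁻ τ in Ioc s' s, fB (cw u τ) (p τ) (cw u τ i) x₀ ρ
      ≤ ENNReal.ofReal (C * √θ * Z * ρ ^ 2) := by
  obtain ⟨Cp, hCp, hp⟩ := press_bd
  have hB1 := B1_one
  refine ⟨(972 + 2 * Cp * 7020) * (222 * B1 ^ 2), by positivity, ?_⟩
  intro ν T u p h i x₀ ρ s' s θ Z hρ hs' hss hs hk hθ0 hθ1 hZ hE hG
  have hI : Ioc s' s ⊆ Ioo 0 T := fun τ hτ => ⟨hs'.trans hτ.1, hτ.2.trans_lt hs⟩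
  obtain ⟨W, hW⟩ : ∃ W : ℝ≥0∞, W = ENNReal.ofReal (222 * B1 ^ 2 * Z) := ⟨_, rfl⟩
  obtain ⟨P, hP⟩ : ∃ P : ℝ≥0∞, P = ENNReal.ofReal ρ := ⟨_, rfl⟩
  obtain ⟨H, hH⟩ : ∃ H : ℝ≥0∞, H = ENNReal.ofReal θ := ⟨_, rfl⟩
  have hB2 : 1 ≤ B1 ^ 2 := one_le_pow₀ hB1
  have hW1 : 1 ≤ W := by
    rw [hW, ← ENNReal.ofReal_one]
    apply ENNReal.ofReal_le_ofReal
    nlinarith
  have hH1 : H ≤ 1 := by
    rw [hH, ENNReal.ofReal_le_one]
    exact hθ1
  have hP0 : P ≠ 0 := by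
    rw [hP]
    simpa using hρ
  have hPt : P ≠ (⊤ : ℝ≥0∞) := by rw [hP]; exact ENNReal.ofReal_ne_top
  have hPa : ∀ a b : ℝ, P ^ a * P ^ b = P ^ (a + b) := fun a b => (ENNReal.rpow_add a b hP0 hPt).symm
  have hHa : ∀ a b : ℝ, 0 ≤ a → 0 ≤ b → H ^ a * H ^ b = H ^ (a + b) := fun a b ha hb =>
    (ENNReal.rpow_add_of_nonneg a b ha hb).symm
  have hX : ∀ τ ∈ Ioc s' s, eB (cw u τ) x₀ (3 * ρ) ≤ 9 * (H * P) := by
    intro τ hτ
    refine (hE τ hτ (3 * ρ) (by linarith)).trans (le_of_eq ?_)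
    rw [hH, hP, show (9 : ℝ≥0∞) = ENNReal.ofReal 9 by norm_num, ← ENNReal.ofReal_mul (by positivity),
      ← ENNReal.ofReal_mul (by positivity)]
    congr 1
    field_simp
    ring
  -- pointwise
  have h1 : ∀ τ ∈ Ioc s' s, fB (cw u τ) (p τ) (cw u τ i) x₀ ρ ≤
      108 * ((9 * (H * P)) ^ (3 / 4 : ℝ) * Db (cw u τ) x₀ ρ ^ (3 / 4 : ℝ))
      + ENNReal.ofReal (2 * Cp) * (768 * (P ^ (1 / 8 : ℝ) * ((9 * (H * P)) ^ (11 / 16 : ℝ)
        * Db (cw u τ) x₀ ρ ^ (13 / 16 : ℝ)))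
        + 12 * (H * (P ^ (-(1 / 2) : ℝ) * (9 * (H * P)) ^ (1 / 2 : ℝ)))) := by
    intro τ hτ
    have h2 := bF1 hp h (hI hτ) hρ hθ0 (hE τ hτ) i
    rw [← hP, ← hH] at h2
    have h3 := hX τ hτ
    refine h2.trans ?_
    gcongr
  have mE : AEMeasurable (fun τ => eB (cw u τ) x₀ (3 * ρ)) (volume.restrict (Ioc s' s)) :=
    eB_aem h x₀ _ measurableSet_Ioc hI
  have mG : AEMeasurable (fun τ => gB (cw u τ) x₀ (3 * ρ)) (volume.restrict (Ioc s' s)) :=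
    gB_aem h x₀ _ measurableSet_Ioc hI
  have mD : AEMeasurable (fun τ => Db (cw u τ) x₀ ρ) (volume.restrict (Ioc s' s)) := by
    unfold Db
    exact (mG.add (mE.const_mul _)).const_mul _
  have hvol : volume (Ioc s' s) ≤ P ^ (2 : ℝ) := by
    rw [Real.volume_Ioc, hP, ENNReal.ofReal_rpow_of_pos hρ, Real.rpow_two]
    exact ENNReal.ofReal_le_ofReal hk
  have hDi : ∫⁻ τ in Ioc s' s, Db (cw u τ) x₀ ρ ≤ W * P := by
    unfold Db
    rw [lintegral_const_mul' _ _ (by norm_num), lintegral_add_left' mG,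
      lintegral_const_mul'' _ mE]
    have h2 : ∫⁻ τ in Ioc s' s, eB (cw u τ) x₀ (3 * ρ) ≤ ENNReal.ofReal (9 * θ * ρ * ρ ^ 2) := by
      calc ∫⁻ τ in Ioc s' s, eB (cw u τ) x₀ (3 * ρ)
          ≤ ∫⁻ τ in Ioc s' s, ENNReal.ofReal (9 * θ * ρ) := by
            apply setLIntegral_mono' measurableSet_Ioc
            intro τ hτ
            refine (hE τ hτ (3 * ρ) (by linarith)).trans (le_of_eq ?_)
            congr 1
            field_simp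
            ring
        _ = ENNReal.ofReal (9 * θ * ρ) * ENNReal.ofReal (s - s') := by
            rw [setLIntegral_const, Real.volume_Ioc]
        _ ≤ _ := by
            rw [← ENNReal.ofReal_mul (by positivity)]
            apply ENNReal.ofReal_le_ofReal
            gcongr
    calc 6 * ((∫⁻ τ in Ioc s' s, gB (cw u τ) x₀ (3 * ρ))
          + ENNReal.ofReal ((2 * B1 / ρ) ^ 2) * ∫⁻ τ in Ioc s' s, eB (cw u τ) x₀ (3 * ρ))
        ≤ 6 * (ENNReal.ofReal (Z * ρ) + ENNReal.ofReal ((2 * B1 / ρ) ^ 2)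
          * ENNReal.ofReal (9 * θ * ρ * ρ ^ 2)) := by gcongr
      _ = ENNReal.ofReal (6 * (Z * ρ + 36 * B1 ^ 2 * θ * ρ)) := by
          rw [show (6 : ℝ≥0∞) = ENNReal.ofReal 6 by norm_num, ← ENNReal.ofReal_mul (by positivity),
            ← ENNReal.ofReal_add (by positivity) (by positivity), ← ENNReal.ofReal_mul (by positivity)]
          congr 1
          field_simp
          ring
      _ ≤ _ := by
          rw [hW, hP, ← ENNReal.ofReal_mul (by positivity)]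
          apply ENNReal.ofReal_le_ofReal
          have a1 : Z * ρ ≤ B1 ^ 2 * Z * ρ := by
            have : 0 ≤ Z * ρ := by positivity
            nlinarith
          have a2 : B1 ^ 2 * θ * ρ ≤ B1 ^ 2 * Z * ρ := by
            have : θ ≤ Z := by linarith
            gcongr
          linarith
  have tint : ∀ β : ℝ, 0 ≤ β → β ≤ 1 →
      ∫⁻ τ in Ioc s' s, Db (cw u τ) x₀ ρ ^ β ≤ W ^ β * P ^ (2 - β) := by
    intro β h0 h1
    have hh := hol3 (μ := volume.restrict (Ioc s' s)) (f := fun τ => Db (cw u τ) x₀ ρ)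
      (g := fun _ => 1) (h := fun _ => 1) mD aemeasurable_const aemeasurable_const
      (p := β) (q := 1 - β) (r := 0) h0 (by linarith) le_rfl (by ring)
    simp only [ENNReal.one_rpow, mul_one, setLIntegral_one, ENNReal.rpow_zero] at hh
    refine hh.trans ?_
    calc (∫⁻ τ in Ioc s' s, Db (cw u τ) x₀ ρ) ^ β * volume (Ioc s' s) ^ (1 - β)
        ≤ (W * P) ^ β * (P ^ (2 : ℝ)) ^ (1 - β) :=
          mul_le_mul' (ENNReal.rpow_le_rpow hDi h0) (ENNReal.rpow_le_rpow hvol (by linarith))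
      _ = W ^ β * (P ^ β * P ^ (2 * (1 - β))) := by
          rw [ENNReal.mul_rpow_of_nonneg _ _ h0, ← ENNReal.rpow_mul]
          ring
      _ = _ := by
          rw [hPa]
          congr 2
          ring
  have hWp : ∀ β : ℝ, β ≤ 1 → W ^ β ≤ W := fun β hβ => by
    calc W ^ β ≤ W ^ (1 : ℝ) := ENNReal.rpow_le_rpow_of_exponent_le hW1 hβ
      _ = W := ENNReal.rpow_one W
  have hHp : ∀ β : ℝ, 1 / 2 ≤ β → H ^ β ≤ H ^ (1 / 2 : ℝ) := fun β hβ =>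
    ENNReal.rpow_le_rpow_of_exponent_ge hH1 hβ
  have h9 : ∀ β : ℝ, β ≤ 1 → (9 : ℝ≥0∞) ^ β ≤ 9 := fun β hβ => by
    calc (9 : ℝ≥0∞) ^ β ≤ (9 : ℝ≥0∞) ^ (1 : ℝ) :=
          ENNReal.rpow_le_rpow_of_exponent_le (by norm_num) hβ
      _ = 9 := ENNReal.rpow_one 9
  have q1 : (9 * (H * P)) ^ (3 / 4 : ℝ) * ∫⁻ τ in Ioc s' s, Db (cw u τ) x₀ ρ ^ (3 / 4 : ℝ)
      ≤ 9 * (H ^ (1 / 2 : ℝ) * W * P ^ (2 : ℝ)) := by
    refine (mul_le_mul_right (tint (3 / 4) (by norm_num) (by norm_num)) _).trans ?_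
    rw [ENNReal.mul_rpow_of_nonneg _ _ (by norm_num), ENNReal.mul_rpow_of_nonneg _ _ (by norm_num)]
    calc 9 ^ (3 / 4 : ℝ) * (H ^ (3 / 4 : ℝ) * P ^ (3 / 4 : ℝ)) * (W ^ (3 / 4 : ℝ) * P ^ (2 - 3 / 4 : ℝ))
        = 9 ^ (3 / 4 : ℝ) * (H ^ (3 / 4 : ℝ) * W ^ (3 / 4 : ℝ)
          * (P ^ (3 / 4 : ℝ) * P ^ (2 - 3 / 4 : ℝ))) := by ring
      _ ≤ 9 * (H ^ (1 / 2 : ℝ) * W * P ^ (2 : ℝ)) := by
          rw [hPa, show (3 / 4 + (2 - 3 / 4) : ℝ) = 2 by norm_num]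
          exact mul_le_mul' (h9 _ (by norm_num)) (mul_le_mul' (mul_le_mul' (hHp _ (by norm_num))
            (hWp _ (by norm_num))) le_rfl)
  have q2 : P ^ (1 / 8 : ℝ) * ((9 * (H * P)) ^ (11 / 16 : ℝ)
      * ∫⁻ τ in Ioc s' s, Db (cw u τ) x₀ ρ ^ (13 / 16 : ℝ)) ≤ 9 * (H ^ (1 / 2 : ℝ) * W * P ^ (2 : ℝ)) := by
    refine (mul_le_mul_right (mul_le_mul_right (tint (13 / 16) (by norm_num) (by norm_num)) _) _).trans ?_
    rw [ENNReal.mul_rpow_of_nonneg _ _ (by norm_num), ENNReal.mul_rpow_of_nonneg _ _ (by norm_num)]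
    calc P ^ (1 / 8 : ℝ) * (9 ^ (11 / 16 : ℝ) * (H ^ (11 / 16 : ℝ) * P ^ (11 / 16 : ℝ))
          * (W ^ (13 / 16 : ℝ) * P ^ (2 - 13 / 16 : ℝ)))
        = 9 ^ (11 / 16 : ℝ) * (H ^ (11 / 16 : ℝ) * W ^ (13 / 16 : ℝ)
          * (P ^ (1 / 8 : ℝ) * P ^ (11 / 16 : ℝ) * P ^ (2 - 13 / 16 : ℝ))) := by ring
      _ ≤ 9 * (H ^ (1 / 2 : ℝ) * W * P ^ (2 : ℝ)) := by
          rw [hPa, hPa, show (1 / 8 + 11 / 16 + (2 - 13 / 16) : ℝ) = 2 by norm_num]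
          exact mul_le_mul' (h9 _ (by norm_num)) (mul_le_mul' (mul_le_mul' (hHp _ (by norm_num))
            (hWp _ (by norm_num))) le_rfl)
  have q3 : (H * (P ^ (-(1 / 2) : ℝ) * (9 * (H * P)) ^ (1 / 2 : ℝ))) * volume (Ioc s' s)
      ≤ 9 * (H ^ (1 / 2 : ℝ) * W * P ^ (2 : ℝ)) := by
    rw [ENNReal.mul_rpow_of_nonneg _ _ (by norm_num), ENNReal.mul_rpow_of_nonneg _ _ (by norm_num)]
    calc H * (P ^ (-(1 / 2) : ℝ) * (9 ^ (1 / 2 : ℝ) * (H ^ (1 / 2 : ℝ) * P ^ (1 / 2 : ℝ))))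
          * volume (Ioc s' s)
        ≤ H * (P ^ (-(1 / 2) : ℝ) * (9 ^ (1 / 2 : ℝ) * (H ^ (1 / 2 : ℝ) * P ^ (1 / 2 : ℝ))))
          * P ^ (2 : ℝ) := mul_le_mul_right hvol _
      _ = 9 ^ (1 / 2 : ℝ) * (H ^ (1 / 2 : ℝ) * H * ((P ^ (-(1 / 2) : ℝ) * P ^ (1 / 2 : ℝ))
          * P ^ (2 : ℝ))) := by ring
      _ ≤ 9 * (H ^ (1 / 2 : ℝ) * W * P ^ (2 : ℝ)) := by
          rw [hPa, show (-(1 / 2) + 1 / 2 : ℝ) = 0 by norm_num, ENNReal.rpow_zero, one_mul]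
          exact mul_le_mul' (h9 _ (by norm_num)) (mul_le_mul' (mul_le_mul' le_rfl
            (hH1.trans hW1)) le_rfl)
  have hm : ∀ β : ℝ, AEMeasurable (fun τ => Db (cw u τ) x₀ ρ ^ β) (volume.restrict (Ioc s' s)) :=
    fun β => mD.pow_const _
  have m1 : AEMeasurable (fun τ => 108 * ((9 * (H * P)) ^ (3 / 4 : ℝ) * Db (cw u τ) x₀ ρ ^ (3 / 4 : ℝ)))
      (volume.restrict (Ioc s' s)) := ((hm _).const_mul _).const_mul _
  have m2 : AEMeasurable (fun τ => 768 * (P ^ (1 / 8 : ℝ) * ((9 * (H * P)) ^ (11 / 16 : ℝ)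
      * Db (cw u τ) x₀ ρ ^ (13 / 16 : ℝ)))) (volume.restrict (Ioc s' s)) :=
    (((hm _).const_mul _).const_mul _).const_mul _
  refine (setLIntegral_mono' measurableSet_Ioc h1).trans ?_
  rw [lintegral_add_left' m1, lintegral_const_mul' _ _ ENNReal.ofReal_ne_top,
    lintegral_add_left' m2, lintegral_const_mul'' _ ((hm _).const_mul _), lintegral_const_mul'' _ (hm _),
    lintegral_const_mul'' _ (((hm _).const_mul _).const_mul _), lintegral_const_mul'' _ ((hm _).const_mul _),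
    lintegral_const_mul'' _ (hm _), setLIntegral_const]
  calc _ ≤ 108 * (9 * (H ^ (1 / 2 : ℝ) * W * P ^ (2 : ℝ)))
        + ENNReal.ofReal (2 * Cp) * (768 * (9 * (H ^ (1 / 2 : ℝ) * W * P ^ (2 : ℝ)))
        + 12 * (9 * (H ^ (1 / 2 : ℝ) * W * P ^ (2 : ℝ)))) := by
        refine add_le_add (mul_le_mul_right q1 _) (mul_le_mul_right (add_le_add (mul_le_mul_right q2 _)
          ?_) _)
        rw [mul_assoc 12]
        exact mul_le_mul_right q3 _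
    _ = (972 + ENNReal.ofReal (2 * Cp) * 7020) * (H ^ (1 / 2 : ℝ) * W * P ^ (2 : ℝ)) := by ring
    _ = _ := by
        rw [show (972 : ℝ≥0∞) = ENNReal.ofReal 972 by norm_num,
          show (7020 : ℝ≥0∞) = ENNReal.ofReal 7020 by norm_num, hW, hP, hH,
          ENNReal.ofReal_rpow_of_nonneg hθ0 (by norm_num), ENNReal.ofReal_rpow_of_pos hρ,
          ← Real.sqrt_eq_rpow, Real.rpow_two, ← ENNReal.ofReal_mul (by positivity),
          ← ENNReal.ofReal_add (by positivity) (by positivity), ← ENNReal.ofReal_mul (by positivity),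
          ← ENNReal.ofReal_mul (by positivity), ← ENNReal.ofReal_mul (by positivity)]
        congr 1
        ring

end Pool.Agent.H305.EG
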