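import Pool.Agent.H305.EG.Bf2

/-!
The local energy inequality in a ball.
-/

set_option autoImplicit false

open MeasureTheory Set Metric Filter Topology
open scoped ContDiff ENNReal

namespace Pool.Agent.H305.EG

open H459R3.NS W221.NS Pool.Agent.V1183.PM Pool.Agent.H305.OS Pool.Agent.H305.SL Pool.Agent.H305.PL
  Pool.Agent.H305.EF

/-- The local energy inequality in a ball. -/
theorem bL : ∃ C : ℝ, 0 ≤ C ∧ ∀ (ν T : ℝ) (u : ℝ → V → V) (p : ℝ → V → ℝ), HS ν T u p →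
    ∀ (x₀ : V) (ρ t₁ s θ Z : ℝ), 0 < ρ → 0 < t₁ → t₁ ≤ s → s < T → s - t₁ ≤ ρ ^ 2 →
    0 ≤ θ → θ ≤ 1 → 1 ≤ Z →
    (∀ τ ∈ Icc t₁ s, ∀ R, 3 * ρ ≤ R → eB (cw u τ) x₀ R ≤ ENNReal.ofReal (θ * R ^ 2 / (3 * ρ))) →
    ∫⁻ τ in Ioc t₁ s, gB (cw u τ) x₀ (9 * ρ) ≤ ENNReal.ofReal (Z * ρ) →
    ENNReal.ofReal ν * ∫⁻ τ in Ioc t₁ s, gB (cw u τ) x₀ ρ
      ≤ ENNReal.ofReal (C * (1 + ν) * √θ * Z * ρ) := by
  obtain ⟨CF, hCF, hLF⟩ := bF2
  have hB1 := B1_one
  have hB2 := B2c_one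
  refine ⟨3 + 54 * B1 * CF + 9 * B2c, by positivity, ?_⟩
  intro ν T u p h x₀ ρ t₁ s θ Z hρ ht₁0 hts hs hk hθ0 hθ1 hZ hE hG
  obtain ⟨a, b, hT⟩ := SL.exists_tri 0
  have hν := h.hν
  have hI : Ioc t₁ s ⊆ Ioo 0 T := fun τ hτ => ⟨ht₁0.trans hτ.1, hτ.2.trans_lt hs⟩
  have hI' : ∀ τ ∈ Icc t₁ s, τ ∈ Ioo 0 T := fun τ hτ => ⟨ht₁0.trans_le hτ.1, hτ.2.trans_lt hs⟩
  obtain ⟨ζ, hζe⟩ : ∃ ζ, ζ = cz 0 a b x₀ ρ := ⟨_, rfl⟩
  have hζ : BF ζ := by rw [hζe]; exact cz_BF hρ
  have hζ0 : ∀ x, 0 ≤ ζ x := fun x => by rw [hζe]; exact cz_nonneg x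
  have key := lin h ht₁0 hts hs hζ hζ0
  have hθs : θ ≤ √θ := Real.le_sqrt_of_sq_le (by nlinarith)
  have hs0 : 0 ≤ √θ := Real.sqrt_nonneg θ
  have hE3 : ∀ τ ∈ Icc t₁ s, eB (cw u τ) x₀ (3 * ρ) ≤ ENNReal.ofReal (3 * θ * ρ) := by
    intro τ hτ
    refine (hE τ hτ (3 * ρ) le_rfl).trans (le_of_eq ?_)
    congr 1
    field_simp
  -- the left-hand side
  have hL : ENNReal.ofReal ν * ∫⁻ τ in Ioc t₁ s, gB (cw u τ) x₀ ρ
      ≤ ∫⁻ τ in Ioc t₁ s, ENNReal.ofReal (ν * dsW (cw u τ) ζ) := by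
    rw [← lintegral_const_mul' _ _ ENNReal.ofReal_ne_top]
    refine setLIntegral_mono' measurableSet_Ioc fun τ hτ => ?_
    rw [ENNReal.ofReal_mul hν.le, dsW_lint (fun i => h.cw_HF (hI hτ) i) hζ hζ0]
    refine mul_le_mul_right ?_ _
    unfold gB
    rw [← lintegral_indicator measurableSet_ball]
    refine lintegral_mono fun x => ?_
    simp only
    by_cases hxb : x ∈ ball x₀ ρ
    · rw [indicator_of_mem hxb, hζe, cz_one hρ hxb, ENNReal.ofReal_one, mul_one]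
    · rw [indicator_of_notMem hxb]
      exact zero_le
  -- the initial energy
  have hR1 : ENNReal.ofReal (enW (cw u t₁) ζ) ≤ ENNReal.ofReal (3 * θ * ρ) := by
    refine le_trans ?_ (hE3 t₁ ⟨le_rfl, hts⟩)
    rw [enW_lint (fun i => h.cw_HF (hI' t₁ ⟨le_rfl, hts⟩) i) hζ hζ0]
    unfold eB
    rw [← lintegral_indicator measurableSet_ball]
    refine lintegral_mono fun x => ?_
    simp only
    by_cases hxb : x ∈ ball x₀ (3 * ρ)
    · rw [indicator_of_mem hxb]
      calc ENNReal.ofReal (nw (cw u t₁) x) * ENNReal.ofReal (ζ x)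
          ≤ ENNReal.ofReal (nw (cw u t₁) x) * 1 := by
            refine mul_le_mul_right ?_ _
            rw [ENNReal.ofReal_le_one, hζe]
            exact cz_le x
        _ = _ := mul_one _
    · have h0 : ζ x = 0 := by
        rw [hζe]
        apply cz_out hT hρ
        intro h2
        exact hxb (ball_subset_ball (by linarith) h2)
      rw [h0]
      simp
  -- the flux
  have hx3 : s - t₁ ≤ (3 * ρ) ^ 2 := by nlinarith
  have hG' : ∫⁻ τ in Ioc t₁ s, gB (cw u τ) x₀ (3 * (3 * ρ)) ≤ ENNReal.ofReal (Z * (3 * ρ)) := by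
    rw [show 3 * (3 * ρ) = 9 * ρ by ring]
    refine hG.trans (ENNReal.ofReal_le_ofReal ?_)
    have : 0 ≤ Z * ρ := by positivity
    linarith
  have hR2 : ∫⁻ τ in Ioc t₁ s, ENNReal.ofReal |flW (cw u τ) (p τ) ζ + ν * enW (cw u τ) (lp ζ)|
      ≤ ENNReal.ofReal ((54 * B1 * CF + 9 * B2c) * (1 + ν) * √θ * Z * ρ) := by
    have hpt : ∀ τ ∈ Ioc t₁ s, ENNReal.ofReal |flW (cw u τ) (p τ) ζ + ν * enW (cw u τ) (lp ζ)|
        ≤ (∑ j, ENNReal.ofReal (2 * B1 / ρ) * fB (cw u τ) (p τ) (cw u τ j) x₀ (3 * ρ))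
          + ENNReal.ofReal ν * (ENNReal.ofReal (3 * B2c / ρ ^ 2) * eB (cw u τ) x₀ (3 * ρ)) := by
      intro τ hτ
      have hw : ∀ i, HF (cw u τ i) := fun i => h.cw_HF (hI hτ) i
      calc ENNReal.ofReal |flW (cw u τ) (p τ) ζ + ν * enW (cw u τ) (lp ζ)|
          ≤ ENNReal.ofReal |flW (cw u τ) (p τ) ζ| + ENNReal.ofReal ν
            * ENNReal.ofReal |enW (cw u τ) (lp ζ)| := by
            rw [← ENNReal.ofReal_mul hν.le, ← ENNReal.ofReal_add (abs_nonneg _) (by positivity)]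
            apply ENNReal.ofReal_le_ofReal
            refine (abs_add_le _ _).trans (le_of_eq ?_)
            rw [abs_mul, abs_of_pos hν]
        _ ≤ _ := by
            rw [hζe]
            exact add_le_add (flB hT hρ (fun i => (hw i).sm.continuous.measurable)
              (h.p_HF (hI hτ)).sm.continuous.measurable) (mul_le_mul_right (enB hT hρ) _)
    refine (setLIntegral_mono' measurableSet_Ioc hpt).trans ?_
    have mE : AEMeasurable (fun τ => eB (cw u τ) x₀ (3 * ρ)) (volume.restrict (Ioc t₁ s)) :=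
      eB_aem h x₀ _ measurableSet_Ioc hI
    have mF : ∀ j, AEMeasurable (fun τ => ENNReal.ofReal (2 * B1 / ρ)
        * fB (cw u τ) (p τ) (cw u τ j) x₀ (3 * ρ)) (volume.restrict (Ioc t₁ s)) := fun j =>
      (fB_aem h j x₀ _ measurableSet_Ioc hI).const_mul _
    rw [lintegral_add_right' _ ((mE.const_mul _).const_mul _), lintegral_finset_sum' _ fun j _ => mF j,
      lintegral_const_mul' _ _ ENNReal.ofReal_ne_top, lintegral_const_mul' _ _ ENNReal.ofReal_ne_top]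
    simp only [lintegral_const_mul' _ _ (ENNReal.ofReal_ne_top (r := 2 * B1 / ρ))]
    have hY : ∫⁻ τ in Ioc t₁ s, eB (cw u τ) x₀ (3 * ρ) ≤ ENNReal.ofReal (3 * θ * ρ * ρ ^ 2) := by
      calc ∫⁻ τ in Ioc t₁ s, eB (cw u τ) x₀ (3 * ρ)
          ≤ ∫⁻ τ in Ioc t₁ s, ENNReal.ofReal (3 * θ * ρ) :=
            setLIntegral_mono' measurableSet_Ioc fun τ hτ => hE3 τ (Ioc_subset_Icc_self hτ)
        _ = ENNReal.ofReal (3 * θ * ρ) * ENNReal.ofReal (s - t₁) := by
            rw [setLIntegral_const, Real.volume_Ioc]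
        _ ≤ _ := by
            rw [← ENNReal.ofReal_mul (by positivity)]
            apply ENNReal.ofReal_le_ofReal
            gcongr
    calc (∑ j, ENNReal.ofReal (2 * B1 / ρ) * ∫⁻ τ in Ioc t₁ s,
            fB (cw u τ) (p τ) (cw u τ j) x₀ (3 * ρ))
          + ENNReal.ofReal ν * (ENNReal.ofReal (3 * B2c / ρ ^ 2)
            * ∫⁻ τ in Ioc t₁ s, eB (cw u τ) x₀ (3 * ρ))
        ≤ (∑ _j : Fin 3, ENNReal.ofReal (2 * B1 / ρ)
            * ENNReal.ofReal (CF * √θ * Z * (3 * ρ) ^ 2))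
          + ENNReal.ofReal ν * (ENNReal.ofReal (3 * B2c / ρ ^ 2)
            * ENNReal.ofReal (3 * θ * ρ * ρ ^ 2)) := by
          refine add_le_add (Finset.sum_le_sum fun j _ => mul_le_mul_right ?_ _)
            (mul_le_mul_right (mul_le_mul_right hY _) _)
          exact hLF ν T u p h j x₀ (3 * ρ) t₁ s θ Z (by linarith) ht₁0 hts hs hx3 hθ0 hθ1 hZ
            (fun τ hτ => hE τ (Ioc_subset_Icc_self hτ)) hG'
      _ = ENNReal.ofReal (54 * B1 * CF * √θ * Z * ρ + 9 * ν * B2c * θ * ρ) := by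
          rw [Finset.sum_const, Finset.card_univ, Fintype.card_fin, nsmul_eq_mul,
            show ((3 : ℕ) : ℝ≥0∞) = ENNReal.ofReal 3 by norm_num,
            ← ENNReal.ofReal_mul (by positivity), ← ENNReal.ofReal_mul (by positivity),
            ← ENNReal.ofReal_mul (by positivity), ← ENNReal.ofReal_mul (by positivity),
            ← ENNReal.ofReal_add (by positivity) (by positivity)]
          congr 1
          field_simp
          ring
      _ ≤ _ := by
          apply ENNReal.ofReal_le_ofReal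
          have a1 : 54 * B1 * CF * √θ * Z * ρ ≤ 54 * B1 * CF * (1 + ν) * √θ * Z * ρ := by
            have : 0 ≤ 54 * B1 * CF * √θ * Z * ρ := by positivity
            nlinarith
          have a2 : 9 * ν * B2c * θ * ρ ≤ 9 * B2c * (1 + ν) * √θ * Z * ρ := by
            have b1 : ν * θ ≤ (1 + ν) * √θ := mul_le_mul (by linarith) hθs hθ0 (by positivity)
            calc 9 * ν * B2c * θ * ρ = 9 * B2c * ρ * (ν * θ) * 1 := by ring
              _ ≤ 9 * B2c * ρ * ((1 + ν) * √θ) * Z := by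
                  apply mul_le_mul _ hZ zero_le_one (by positivity)
                  exact mul_le_mul_of_nonneg_left b1 (by positivity)
              _ = _ := by ring
          linarith
  calc ENNReal.ofReal ν * ∫⁻ τ in Ioc t₁ s, gB (cw u τ) x₀ ρ
      ≤ ENNReal.ofReal (enW (cw u s) ζ) + ∫⁻ τ in Ioc t₁ s, ENNReal.ofReal (ν * dsW (cw u τ) ζ) :=
        hL.trans le_add_self
    _ ≤ ENNReal.ofReal (3 * θ * ρ) + ENNReal.ofReal ((54 * B1 * CF + 9 * B2c) * (1 + ν) * √θ * Z * ρ) :=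
        key.trans (add_le_add hR1 hR2)
    _ ≤ _ := by
        rw [← ENNReal.ofReal_add (by positivity) (by positivity)]
        apply ENNReal.ofReal_le_ofReal
        have a1 : 3 * θ * ρ ≤ 3 * (1 + ν) * √θ * Z * ρ := by
          calc 3 * θ * ρ = 3 * ρ * (1 * θ) * 1 := by ring
            _ ≤ 3 * ρ * ((1 + ν) * √θ) * Z := by
                apply mul_le_mul _ hZ zero_le_one (by positivity)
                exact mul_le_mul_of_nonneg_left (mul_le_mul (by linarith) hθs hθ0 (by positivity))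
                  (by positivity)
            _ = _ := by ring
        linarith

end Pool.Agent.H305.EG
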