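import Pool.Agent.H305.EG.Bf3

/-!
Small energy at all small scales implies regularity.
-/

set_option autoImplicit false

open MeasureTheory Set Metric Filter Topology
open scoped ContDiff ENNReal

namespace Pool.Agent.H305.EG

open H459R3.NS W221.NS Pool.Agent.V1183.PM Pool.Agent.H305.OS Pool.Agent.H305.SL Pool.Agent.H305.PL
  Pool.Agent.H305.EF

/-- The recursion for the dissipation. -/
theorem bR : ∃ C : ℝ, 0 ≤ C ∧ ∀ (ν T : ℝ) (u : ℝ → V → V) (p : ℝ → V → ℝ) (t₀ E : ℝ),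
    ST ν T u p t₀ E → ∀ (x₀ : V) (θ r₁ ρ₀ : ℝ), 0 < θ → θ ≤ 1 → C * (1 + ν) * √θ ≤ ν / 2 →
    0 < r₁ → 0 < ρ₀ → t₀ ≤ T - ρ₀ ^ 2 → 3 * ρ₀ * E ≤ θ * r₁ ^ 2 →
    (∀ R : ℝ, 0 < R → R ≤ r₁ → ∀ s ∈ Ico (T - R ^ 2) T, t₀ ≤ s →
      eB (cw u s) x₀ R ≤ ENNReal.ofReal (θ * R)) →
    ∀ (k : ℕ) (s : ℝ), s < T →
      ∫⁻ τ in Ioc (T - (ρ₀ * (1 / 9) ^ k) ^ 2) s, gB (cw u τ) x₀ (ρ₀ * (1 / 9) ^ k)
        ≤ ENNReal.ofReal ((2 * (C * (1 + ν) * √θ / ν) + (1 / 2) ^ k * (E / ρ₀))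
          * (ρ₀ * (1 / 9) ^ k)) := by
  obtain ⟨C, hC, hL⟩ := bL
  refine ⟨9 * C, by positivity, ?_⟩
  intro ν T u p t₀ E h x₀ θ r₁ ρ₀ hθ0 hθ1 hκ hr₁ hρ₀ ht₀ hEρ hH k
  have hν := h.hν
  have hE := h.E0
  obtain ⟨κ, hκe⟩ : ∃ κ : ℝ, κ = 9 * C * (1 + ν) * √θ / ν := ⟨_, rfl⟩
  have hκ0 : 0 ≤ κ := by rw [hκe]; positivity
  have hκ1 : κ ≤ 1 / 2 := by
    rw [hκe, div_le_iff₀ hν]
    linarith
  rw [← hκe]
  obtain ⟨Y, hY⟩ : ∃ Y : ℝ, Y = E / ρ₀ := ⟨_, rfl⟩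
  have hY0 : 0 ≤ Y := by rw [hY]; positivity
  rw [← hY]
  induction k with
  | zero =>
    intro s hs
    simp only [pow_zero, mul_one, one_mul]
    have h1 : ∫⁻ τ in Ioc (T - ρ₀ ^ 2) s, gB (cw u τ) x₀ ρ₀ ≤ ENNReal.ofReal E := by
      refine le_trans ?_ h.e2
      have hsub : Ioc (T - ρ₀ ^ 2) s ⊆ Ioo t₀ T := fun τ hτ => ⟨ht₀.trans_lt hτ.1, hτ.2.trans_lt hs⟩
      refine (lintegral_mono_set hsub).trans ?_
      exact lintegral_mono fun τ => setLIntegral_le_lintegral _ _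
    refine h1.trans (ENNReal.ofReal_le_ofReal ?_)
    have h2 : E = Y * ρ₀ := by
      rw [hY]
      field_simp
    have h3 : 0 ≤ 2 * κ * ρ₀ := by positivity
    nlinarith
  | succ k ih =>
    intro s hs
    obtain ⟨ρ, hρe⟩ : ∃ ρ : ℝ, ρ = ρ₀ * (1 / 9) ^ (k + 1) := ⟨_, rfl⟩
    have hρ : 0 < ρ := by rw [hρe]; positivity
    have hρk : ρ₀ * (1 / 9) ^ k = 9 * ρ := by
      rw [hρe, pow_succ]
      ring
    have hρ1 : ρ ≤ ρ₀ := by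
      rw [hρe]
      exact mul_le_of_le_one_right hρ₀.le (pow_le_one₀ (by norm_num) (by norm_num))
    rw [← hρe]
    rw [hρk] at ih
    rcases lt_or_ge s (T - ρ ^ 2) with h1 | h1
    · rw [Ioc_eq_empty (not_lt.2 h1.le)]
      simp
    · have hρ2 : ρ ^ 2 ≤ ρ₀ ^ 2 := pow_le_pow_left₀ hρ.le hρ1 2
      have ht₁ : t₀ ≤ T - ρ ^ 2 := by linarith
      obtain ⟨Z, hZ⟩ : ∃ Z : ℝ, Z = 9 * (1 + 2 * κ + (1 / 2) ^ k * Y) := ⟨_, rfl⟩
      have hq : 0 ≤ (1 / 2 : ℝ) ^ k * Y := by positivity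
      have hZ1 : 1 ≤ Z := by rw [hZ]; linarith
      have hE1 : ∀ τ ∈ Icc (T - ρ ^ 2) s, ∀ R, 3 * ρ ≤ R →
          eB (cw u τ) x₀ R ≤ ENNReal.ofReal (θ * R ^ 2 / (3 * ρ)) := by
        intro τ hτ R hR
        have hR0 : 0 < R := by linarith
        have ht : t₀ ≤ τ := ht₁.trans hτ.1
        rcases le_or_gt R r₁ with h3 | h3
        · refine (hH R hR0 h3 τ ⟨?_, hτ.2.trans_lt hs⟩ ht).trans (ENNReal.ofReal_le_ofReal ?_)
          · have : ρ ^ 2 ≤ R ^ 2 := pow_le_pow_left₀ hρ.le (by linarith) 2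
            linarith [hτ.1]
          · rw [le_div_iff₀ (by positivity)]
            have : R * (3 * ρ) ≤ R ^ 2 := by nlinarith
            calc θ * R * (3 * ρ) = θ * (R * (3 * ρ)) := by ring
              _ ≤ _ := mul_le_mul_of_nonneg_left this hθ0.le
        · refine (setLIntegral_le_lintegral _ _).trans ((h.e1 τ ⟨ht, hτ.2.trans_lt hs⟩).trans
            (ENNReal.ofReal_le_ofReal ?_))
          rw [le_div_iff₀ (by positivity)]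
          have h4 : r₁ ^ 2 ≤ R ^ 2 := pow_le_pow_left₀ hr₁.le h3.le 2
          have h5 : θ * r₁ ^ 2 ≤ θ * R ^ 2 := mul_le_mul_of_nonneg_left h4 hθ0.le
          have h6 : E * (3 * ρ) ≤ 3 * ρ₀ * E := by nlinarith
          linarith
      have hG1 : ∫⁻ τ in Ioc (T - ρ ^ 2) s, gB (cw u τ) x₀ (9 * ρ) ≤ ENNReal.ofReal (Z * ρ) := by
        have h3 : ρ ^ 2 ≤ (9 * ρ) ^ 2 := by nlinarith
        refine (lintegral_mono_set (Ioc_subset_Ioc_left (by linarith))).trans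
          ((ih s hs).trans (ENNReal.ofReal_le_ofReal ?_))
        rw [hZ]
        nlinarith
      have h2 := hL ν T u p h.toHS x₀ ρ (T - ρ ^ 2) s θ Z hρ (h.t0.trans_le ht₁) h1 hs (by linarith)
        hθ0.le hθ1 hZ1 hE1 hG1
      calc ∫⁻ τ in Ioc (T - ρ ^ 2) s, gB (cw u τ) x₀ ρ
          = ENNReal.ofReal ν⁻¹ * (ENNReal.ofReal ν * ∫⁻ τ in Ioc (T - ρ ^ 2) s, gB (cw u τ) x₀ ρ) := by
            rw [← mul_assoc, ← ENNReal.ofReal_mul (by positivity), inv_mul_cancel₀ hν.ne',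
              ENNReal.ofReal_one, one_mul]
        _ ≤ ENNReal.ofReal ν⁻¹ * ENNReal.ofReal (C * (1 + ν) * √θ * Z * ρ) := mul_le_mul_right h2 _
        _ = ENNReal.ofReal (κ * (1 + 2 * κ + (1 / 2) ^ k * Y) * ρ) := by
            rw [← ENNReal.ofReal_mul (by positivity)]
            congr 1
            have e1 : ν⁻¹ * (C * (1 + ν) * √θ * Z * ρ) = (9 * C * (1 + ν) * √θ / ν)
                * (1 + 2 * κ + (1 / 2) ^ k * Y) * ρ := by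
              rw [hZ]
              ring
            rw [e1, ← hκe]
        _ ≤ _ := by
            apply ENNReal.ofReal_le_ofReal
            refine mul_le_mul_of_nonneg_right ?_ hρ.le
            rw [pow_succ]
            have h3 : κ * (2 * κ) ≤ 1 / 2 * (2 * κ) := mul_le_mul_of_nonneg_right hκ1 (by positivity)
            have h4 : κ * ((1 / 2) ^ k * Y) ≤ 1 / 2 * ((1 / 2) ^ k * Y) :=
              mul_le_mul_of_nonneg_right hκ1 hq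
            linarith

/-- Local regularity at one scale. -/
theorem near_at {ν : ℝ} (hν : 0 < ν) : ∃ L c : ℝ, 1 ≤ L ∧ 0 < c ∧ ∀ (T : ℝ) (u : ℝ → V → V)
    (p : ℝ → V → ℝ), HS ν T u p → ∀ z : ℝ, 0 < z → 0 < T - z ^ 2 / 4 → ∀ P : Set V,
    (∀ x₁ ∈ P, ∀ s ∈ Ico (T - z ^ 2 / 4) T,
      eB (cw u s) x₁ (3 * (L * z)) ≤ ENNReal.ofReal (3 * (L * z))) →
    (∀ x₁ ∈ P, ∀ s ∈ Ico (T - z ^ 2 / 4) T, ∫⁻ τ in Ioc (T - z ^ 2 / 4) s,
      gB (cw u τ) x₁ (L * z) ≤ ENNReal.ofReal (c * z)) → ∃ δ Q : ℝ, 0 < δ ∧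
    ∀ t ∈ Ioo (T - δ) T, ∀ x₁ ∈ P, ∀ x ∈ ball x₁ δ, ‖u t x‖ ≤ Q := by
  obtain ⟨C, ε₀, hC, hε₀, hreg⟩ := reg'
  obtain ⟨b, hb, hb2⟩ : ∃ b : ℝ, 0 < b ∧ b ^ 2 = ν / 16 := by
    refine ⟨√(ν / 16), Real.sqrt_pos.2 (by positivity), Real.sq_sqrt (by positivity)⟩
  obtain ⟨q, hq⟩ : ∃ q : ℝ, q = 1 + C * b + C * (ν⁻¹ * √(3 * b)) := ⟨_, rfl⟩
  have hq1 : 1 ≤ q := by
    have h1 : 0 ≤ C * b := by positivity
    have h2 : 0 ≤ C * (ν⁻¹ * √(3 * b)) := by positivity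
    linarith
  obtain ⟨L, hL⟩ : ∃ L : ℝ, L = q ^ 2 := ⟨_, rfl⟩
  have hL1 : 1 ≤ L := by rw [hL]; exact one_le_pow₀ hq1
  have hL0 : 0 < L := by linarith
  refine ⟨L, ε₀ * ν * b, hL1, by positivity, ?_⟩
  intro T u p h z hh hz2 P h1 hk
  obtain ⟨m, hm⟩ : ∃ m : ℝ, m = 3 * (L * z) := ⟨_, rfl⟩
  have hm0 : 0 ≤ m := by rw [hm]; positivity
  have hr : 0 < b * z := by positivity
  obtain ⟨δ, Q, hδ, hQ⟩ := hreg ν m (b * z) hν hm0 hr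
  have hrν : (b * z) ^ 2 / ν = z ^ 2 / 16 := by
    rw [mul_pow, hb2]
    field_simp
  have hCρ : C * (b * z + ν⁻¹ * √m * √(b * z)) ≤ L * z := by
    have e1 : √m * √(b * z) = √(3 * b) * q * z := by
      rw [← Real.sqrt_mul hm0, hm, hL]
      have e2 : 3 * (q ^ 2 * z) * (b * z) = 3 * b * (q * z) ^ 2 := by ring
      rw [e2, Real.sqrt_mul (by positivity), Real.sqrt_sq (by positivity)]
      ring
    calc C * (b * z + ν⁻¹ * √m * √(b * z))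
        = (C * b + C * (ν⁻¹ * √(3 * b)) * q) * z := by
          rw [mul_assoc ν⁻¹, e1]; ring
      _ ≤ L * z := by
          refine mul_le_mul_of_nonneg_right ?_ hh.le
          have h1 : 0 ≤ C * b := by positivity
          have h2 : 0 ≤ C * (ν⁻¹ * √(3 * b)) := by positivity
          rw [hL, pow_two]
          calc C * b + C * (ν⁻¹ * √(3 * b)) * q
              ≤ (1 + C * b) * q + C * (ν⁻¹ * √(3 * b)) * q := by
                have : C * b ≤ (1 + C * b) * q := by nlinarith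
                linarith
            _ = q * q := by rw [hq]; ring
  have hzz : 0 < z ^ 2 := by positivity
  refine ⟨min δ (z ^ 2 / 8), Q, by positivity, ?_⟩
  intro t ht x₁ hx₁ x hx
  have hδ1 : min δ (z ^ 2 / 8) ≤ δ := min_le_left _ _
  have hδ2 : min δ (z ^ 2 / 8) ≤ z ^ 2 / 8 := min_le_right _ _
  have hxb : x ∈ ball x₁ δ := ball_subset_ball hδ1 hx
  refine hQ T u p h (T - z ^ 2 / 4) hz2 x₁ (L * z) hCρ ?_
    ((t + T) / 2) ?_ ?_ ?_ t ?_ x hxb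
  · intro τ hτ
    have h5 := h1 x₁ hx₁ τ ⟨hτ.1.le, hτ.2⟩
    rwa [← hm] at h5 ⊢
  · rw [hrν]
    linarith [ht.1]
  · linarith [ht.2]
  · refine le_trans (lintegral_mono_set Ioo_subset_Ioc_self) ?_
    refine (hk x₁ hx₁ ((t + T) / 2) ⟨by linarith [ht.1], by linarith [ht.2]⟩).trans (le_of_eq ?_)
    congr 1
    ring
  · constructor
    · linarith [ht.1]
    · linarith [ht.2]

/-- Small energy at all small scales implies regularity. -/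
theorem bN {ν : ℝ} (hν : 0 < ν) : ∃ θ : ℝ, 0 < θ ∧ ∀ (T : ℝ) (u : ℝ → V → V) (p : ℝ → V → ℝ)
    (t₀ E : ℝ), ST ν T u p t₀ E → ∀ (P : Set V) (r₁ : ℝ), 0 < r₁ →
    (∀ x₁ ∈ P, ∀ R : ℝ, 0 < R → R ≤ r₁ → ∀ s ∈ Ico (T - R ^ 2) T, t₀ ≤ s →
      eB (cw u s) x₁ R ≤ ENNReal.ofReal (θ * R)) →
    ∃ δ Q : ℝ, 0 < δ ∧ ∀ t ∈ Ioo (T - δ) T, ∀ x₁ ∈ P, ∀ x ∈ ball x₁ δ, ‖u t x‖ ≤ Q := by
  obtain ⟨C, hC, hR⟩ := bR
  obtain ⟨L, c, hL1, hc, hN⟩ := near_at hν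
  have hL0 : 0 < L := by linarith
  -- the choice of the threshold
  obtain ⟨κ₀, hκ₀⟩ : ∃ κ₀ : ℝ, κ₀ = min (min 1 (ν / 2)) (c * ν / (4 * L)) / (C * (1 + ν) + 1) := ⟨_, rfl⟩
  have hden : 0 < C * (1 + ν) + 1 := by positivity
  have hκ₀0 : 0 < κ₀ := by rw [hκ₀]; positivity
  have hκ1 : κ₀ * (C * (1 + ν) + 1) ≤ 1 := by
    rw [hκ₀, div_mul_cancel₀ _ hden.ne']
    exact (min_le_left _ _).trans (min_le_left _ _)
  have hκ2 : κ₀ * (C * (1 + ν) + 1) ≤ ν / 2 := by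
    rw [hκ₀, div_mul_cancel₀ _ hden.ne']
    exact (min_le_left _ _).trans (min_le_right _ _)
  have hκ3 : κ₀ * (C * (1 + ν) + 1) ≤ c * ν / (4 * L) := by
    rw [hκ₀, div_mul_cancel₀ _ hden.ne']
    exact min_le_right _ _
  have hCν : 0 ≤ C * (1 + ν) := by positivity
  have hle1 : κ₀ ≤ 1 := by nlinarith
  have hmul : C * (1 + ν) * κ₀ ≤ κ₀ * (C * (1 + ν) + 1) := by nlinarith
  have hsq : √(κ₀ ^ 2) = κ₀ := Real.sqrt_sq hκ₀0.le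
  refine ⟨κ₀ ^ 2, by positivity, ?_⟩
  intro T u p t₀ E h P r₁ hr₁ hH
  have hE := h.E0
  have hθ1 : κ₀ ^ 2 ≤ 1 := pow_le_one₀ hκ₀0.le hle1
  -- the choice of the scales
  obtain ⟨ρ₀, hρ₀e⟩ : ∃ ρ₀ : ℝ, ρ₀ = min (min (√(T - t₀)) (r₁ / 3)) (κ₀ ^ 2 * r₁ ^ 2 / (3 * (E + 1))) :=
    ⟨_, rfl⟩
  have hTt : 0 < T - t₀ := by linarith [h.tT]
  have hρ₀ : 0 < ρ₀ := by rw [hρ₀e]; positivity
  have hρ1 : ρ₀ ^ 2 ≤ T - t₀ := by
    have : ρ₀ ≤ √(T - t₀) := by rw [hρ₀e]; exact (min_le_left _ _).trans (min_le_left _ _)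
    calc ρ₀ ^ 2 ≤ √(T - t₀) ^ 2 := pow_le_pow_left₀ hρ₀.le this 2
      _ = _ := Real.sq_sqrt hTt.le
  have hρ2 : ρ₀ ≤ r₁ / 3 := by rw [hρ₀e]; exact (min_le_left _ _).trans (min_le_right _ _)
  have hρ3 : 3 * ρ₀ * E ≤ κ₀ ^ 2 * r₁ ^ 2 := by
    have h1 : ρ₀ ≤ κ₀ ^ 2 * r₁ ^ 2 / (3 * (E + 1)) := by rw [hρ₀e]; exact min_le_right _ _
    rw [le_div_iff₀ (by positivity)] at h1
    nlinarith
  obtain ⟨k, hk⟩ : ∃ k : ℕ, (1 / 2 : ℝ) ^ k < c / (2 * L * (E / ρ₀ + 1)) :=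
    exists_pow_lt_of_lt_one (by positivity) (by norm_num)
  obtain ⟨ρ, hρe⟩ : ∃ ρ : ℝ, ρ = ρ₀ * (1 / 9) ^ k := ⟨_, rfl⟩
  have hρ : 0 < ρ := by rw [hρe]; positivity
  have hρl : ρ ≤ ρ₀ := by
    rw [hρe]
    exact mul_le_of_le_one_right hρ₀.le (pow_le_one₀ (by norm_num) (by norm_num))
  have hρρ : ρ ^ 2 ≤ ρ₀ ^ 2 := pow_le_pow_left₀ hρ.le hρl 2
  obtain ⟨z, hz⟩ : ∃ z : ℝ, z = ρ / L := ⟨_, rfl⟩
  have hz0 : 0 < z := by rw [hz]; positivity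
  have hLz : L * z = ρ := by rw [hz]; field_simp
  have hzρ : z ≤ ρ := by rw [← hLz]; nlinarith
  have hzz : z ^ 2 ≤ ρ ^ 2 := pow_le_pow_left₀ hz0.le hzρ 2
  have hzp : 0 < z ^ 2 := by positivity
  have ht₀z : t₀ ≤ T - z ^ 2 / 4 := by linarith
  refine hN T u p h.toHS z hz0 (h.t0.trans_le ht₀z) P ?_ ?_
  · intro x₁ hx₁ s hs
    rw [hLz]
    refine (hH x₁ hx₁ (3 * ρ) (by positivity) (by linarith) s ⟨?_, hs.2⟩ (ht₀z.trans hs.1)).trans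
      (ENNReal.ofReal_le_ofReal ?_)
    · nlinarith [hs.1]
    · exact mul_le_of_le_one_left (by positivity) hθ1
  · intro x₁ hx₁ s hs
    have h1 := hR ν T u p t₀ E h x₁ (κ₀ ^ 2) r₁ ρ₀ (by positivity) hθ1 (by rw [hsq]; linarith) hr₁ hρ₀
      (by linarith) hρ3 (hH x₁ hx₁) k s hs.2
    rw [← hρe, hsq] at h1
    rw [hLz]
    refine (lintegral_mono_set (Ioc_subset_Ioc_left (by linarith))).trans (h1.trans
      (ENNReal.ofReal_le_ofReal ?_))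
    have h2 : C * (1 + ν) * κ₀ / ν ≤ c / (4 * L) := by
      rw [div_le_iff₀ hν]
      calc C * (1 + ν) * κ₀ ≤ c * ν / (4 * L) := hmul.trans hκ3
        _ = _ := by ring
    have h3 : (1 / 2 : ℝ) ^ k * (E / ρ₀) ≤ c / (2 * L) := by
      have h4 : 0 < E / ρ₀ + 1 := by positivity
      rw [lt_div_iff₀ (by positivity)] at hk
      rw [le_div_iff₀ (by positivity)]
      have h5 : (0 : ℝ) < (1 / 2) ^ k := by positivity
      have h6 : (1 / 2 : ℝ) ^ k * (E / ρ₀) * (2 * L) ≤ (1 / 2) ^ k * (2 * L * (E / ρ₀ + 1)) := by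
        have : 0 ≤ (1 / 2 : ℝ) ^ k * (2 * L) := by positivity
        nlinarith
      linarith
    calc (2 * (C * (1 + ν) * κ₀ / ν) + (1 / 2) ^ k * (E / ρ₀)) * ρ
        ≤ (2 * (c / (4 * L)) + c / (2 * L)) * ρ := by gcongr
      _ = c * z := by
          rw [← hLz]
          field_simp
          ring

end Pool.Agent.H305.EG
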