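import Pool.Agent.H305.EG.Kc

/-!
The layer cake formula with a critical term.
-/

set_option autoImplicit false

open MeasureTheory Set Metric Filter Topology
open scoped ContDiff ENNReal

namespace Pool.Agent.H305.EG

open H459R3.NS W221.NS Pool.Agent.V1183.PM Pool.Agent.H305.OS Pool.Agent.H305.SL Pool.Agent.H305.PL
  Pool.Agent.H305.EF

/-- The derivative of the profile divided by `ρ`. -/
noncomputable def pq (R ρ : ℝ) : ℝ :=
  deriv Real.smoothTransition ((4 - 4 * ρ ^ 2 / R ^ 2) / 3) * (-(8 / R ^ 2) / 3)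

/-- The density divided by `ρ`. -/
noncomputable def dq (ν τ R ρ : ℝ) : ℝ := 1 / (2 * ν * τ) * (gk ν τ ρ * pf R ρ) - gk ν τ ρ * pq R ρ

lemma pq_cont (R : ℝ) : Continuous (pq R) := by
  unfold pq
  have h1 : Continuous (deriv Real.smoothTransition) :=
    (Real.smoothTransition.contDiff (n := 1)).continuous_deriv (by norm_num)
  exact (h1.comp (by fun_prop)).mul (by fun_prop)

lemma pq_bd (R : ℝ) : ∃ C : ℝ, 0 ≤ C ∧ ∀ ρ ∈ Icc 0 R, |pq R ρ| ≤ C := by
  obtain ⟨C, hC⟩ := isCompact_Icc.exists_bound_of_continuousOn (pq_cont R).continuousOn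
    (s := Icc 0 R)
  exact ⟨max C 0, le_max_right _ _, fun ρ hρ => (hC ρ hρ).trans (le_max_left _ _)⟩

section
variable {ν τ R M ε : ℝ} {d : V → ℝ} {J : V → ℝ}

lemma dn_dq (hν : 0 < ν) (hτ : 0 < τ) (ρ : ℝ) : dn ν τ R ρ = dq ν τ R ρ * ρ := by
  unfold dn dq kk pf' pq
  field_simp
  ring

lemma dq_cont (ν τ R : ℝ) : Continuous (dq ν τ R) := by
  unfold dq
  exact (((gk_cont ν τ).mul (pf_cont R)).const_mul _).sub ((gk_cont ν τ).mul (pq_cont R))

lemma dq_int (hν : 0 < ν) (hτ : 0 < τ) {C : ℝ} (hC : 0 ≤ C)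
    (h : ∀ ρ ∈ Icc 0 R, |pq R ρ| ≤ C) :
    ∫ ρ in Ioo 0 R, dq ν τ R ρ ≤ √(Real.pi * ν) * (1 / (2 * ν * τ) + C) := by
  obtain ⟨i1, e2⟩ := gk_int1 (ν := ν) (τ := τ) hν hτ
  have i2 : IntegrableOn (dq ν τ R) (Ioo 0 R) :=
    (dq_cont ν τ R).continuousOn.integrableOn_Icc.mono_set Ioo_subset_Icc_self
  have i3 : IntegrableOn (fun ρ => (1 / (2 * ν * τ) + C) * gk ν τ ρ) (Ioi 0) := i1.const_mul _
  calc ∫ ρ in Ioo 0 R, dq ν τ R ρ ≤ ∫ ρ in Ioo 0 R, (1 / (2 * ν * τ) + C) * gk ν τ ρ := by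
        refine setIntegral_mono_on i2 (i3.mono_set Ioo_subset_Ioi_self) measurableSet_Ioo fun ρ hρ => ?_
        unfold dq
        have h1 := gk_nonneg ν τ ρ
        have h2 : gk ν τ ρ * pf R ρ ≤ gk ν τ ρ := mul_le_of_le_one_right h1 (pf_le R ρ)
        have h3 : 1 / (2 * ν * τ) * (gk ν τ ρ * pf R ρ) ≤ 1 / (2 * ν * τ) * gk ν τ ρ :=
          mul_le_mul_of_nonneg_left h2 (by positivity)
        have h4 : -(gk ν τ ρ * pq R ρ) ≤ gk ν τ ρ * C := by
          rw [← mul_neg]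
          exact mul_le_mul_of_nonneg_left ((neg_le_abs _).trans (h ρ (Ioo_subset_Icc_self hρ))) h1
        linarith
    _ ≤ ∫ ρ in Ioi 0, (1 / (2 * ν * τ) + C) * gk ν τ ρ := by
        refine setIntegral_mono_set i3 (Eventually.of_forall fun ρ => ?_) Ioo_subset_Ioi_self.eventuallyLE
        have h1 := gk_nonneg ν τ ρ
        show 0 ≤ (1 / (2 * ν * τ) + C) * gk ν τ ρ
        positivity
    _ = _ := by
        rw [integral_const_mul, e2]
        ring

/-- The layer cake formula. -/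
lemma cakeE (hd : Measurable d) (hd0 : ∀ x, 0 ≤ d x) (hR : 0 < R) (hJ : Integrable J) :
    IntegrableOn (fun ρ => dn ν τ R ρ * ∫ x in {x | d x < ρ}, J x) (Ioo 0 R) ∧
    ∫ x, J x * gc ν τ R (d x) = ∫ ρ in Ioo (0 : ℝ) R, dn ν τ R ρ * ∫ x in {x | d x < ρ}, J x := by
  have hDm : ∀ ρ, MeasurableSet {x | d x < ρ} := fun ρ => measurableSet_lt hd measurable_const
  obtain ⟨S, hS⟩ : ∃ S : Set (V × ℝ), S = {z | d z.1 < z.2} := ⟨_, rfl⟩
  have hSm : MeasurableSet S := by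
    rw [hS]
    exact measurableSet_lt (hd.comp measurable_fst) measurable_snd
  have hdn : IntegrableOn (dn ν τ R) (Ioo 0 R) :=
    (dn_cont ν τ R).continuousOn.integrableOn_Icc.mono_set Ioo_subset_Icc_self
  have hprod : Integrable (fun z : V × ℝ => J z.1 * dn ν τ R z.2)
      ((volume : Measure V).prod (volume.restrict (Ioo (0 : ℝ) R))) :=
    hJ.mul_prod hdn
  have hind : Integrable (Function.uncurry fun (x : V) (ρ : ℝ) =>
      S.indicator (fun z : V × ℝ => J z.1 * dn ν τ R z.2) (x, ρ))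
      ((volume : Measure V).prod (volume.restrict (Ioo (0 : ℝ) R))) := hprod.indicator hSm
  have hsw := integral_integral_swap hind
  have e1 : ∀ x : V, ∫ ρ in Ioo (0 : ℝ) R, S.indicator (fun z : V × ℝ => J z.1 * dn ν τ R z.2) (x, ρ)
      = J x * gc ν τ R (d x) := by
    intro x
    have e2 : (fun ρ : ℝ => S.indicator (fun z : V × ℝ => J z.1 * dn ν τ R z.2) (x, ρ))
        = (Ioi (d x)).indicator fun ρ => J x * dn ν τ R ρ := by
      funext ρ
      by_cases hρ : d x < ρ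
      · rw [indicator_of_mem (by rw [hS]; exact hρ), indicator_of_mem (by exact hρ)]
      · rw [indicator_of_notMem (by rw [hS]; exact hρ), indicator_of_notMem (by exact hρ)]
    have e6 : Ioo 0 R ∩ Ioi (d x) = Ioo (d x) R := by
      ext ρ
      simp only [mem_inter_iff, mem_Ioo, mem_Ioi]
      constructor
      · rintro ⟨⟨_, h2⟩, h3⟩
        exact ⟨h3, h2⟩
      · rintro ⟨h1, h2⟩
        exact ⟨⟨(hd0 x).trans_lt h1, h2⟩, h1⟩
    rw [e2, setIntegral_indicator measurableSet_Ioi, e6, integral_const_mul]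
    congr 1
    rcases le_or_gt (d x) R with h1 | h1
    · exact dn_int hR h1
    · rw [Ioo_eq_empty (not_lt.2 h1.le), gc_zero hR h1.le]
      simp
  have e3 : ∀ ρ ∈ Ioo (0 : ℝ) R, ∫ x, S.indicator (fun z : V × ℝ => J z.1 * dn ν τ R z.2) (x, ρ)
      = dn ν τ R ρ * ∫ x in {x | d x < ρ}, J x := by
    intro ρ _
    have e4 : (fun x : V => S.indicator (fun z : V × ℝ => J z.1 * dn ν τ R z.2) (x, ρ))
        = ({x | d x < ρ}).indicator fun x => dn ν τ R ρ * J x := by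
      funext x
      by_cases hx : d x < ρ
      · rw [indicator_of_mem (by rw [hS]; exact hx), indicator_of_mem (by exact hx), mul_comm]
      · rw [indicator_of_notMem (by rw [hS]; exact hx), indicator_of_notMem (by exact hx)]
    rw [e4, integral_indicator (hDm ρ), integral_const_mul]
  refine ⟨(hind.integral_prod_right).congr ((ae_restrict_iff' measurableSet_Ioo).2
      (Eventually.of_forall e3)), ?_⟩
  rw [← setIntegral_congr_fun measurableSet_Ioo e3, ← hsw]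
  exact integral_congr_ae (Eventually.of_forall fun x => (e1 x).symm)

/-- The local layer cake inequality with a critical term. -/
lemma cakeM (hd : Measurable d) (hd0 : ∀ x, 0 ≤ d x) (hν : 0 < ν) (hτ : 0 < τ) (hR : 0 < R)
    (hM : 0 ≤ M) (hε : 0 ≤ ε) (hJ : Integrable J) {C : ℝ} (hC : 0 ≤ C)
    (hpq : ∀ ρ ∈ Icc 0 R, |pq R ρ| ≤ C)
    (h : ∀ ρ : ℝ, 0 < ρ → ρ < R → ∫ x in {x | d x < ρ}, J x ≤ M * ρ + ε / ρ) :
    ∫ x, J x * gc ν τ R (d x) ≤ √(Real.pi * ν) * (M + ε * (1 / (2 * ν * τ) + C)) := by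
  obtain ⟨i0, e0⟩ := cakeE (ν := ν) (τ := τ) hd hd0 hR hJ
  have hdn1 : IntegrableOn (fun ρ => M * (dn ν τ R ρ * ρ)) (Ioo 0 R) :=
    (((dn_cont ν τ R).mul continuous_id).const_mul M).continuousOn.integrableOn_Icc.mono_set
      Ioo_subset_Icc_self
  have hdq1 : IntegrableOn (fun ρ => ε * dq ν τ R ρ) (Ioo 0 R) :=
    ((dq_cont ν τ R).const_mul ε).continuousOn.integrableOn_Icc.mono_set Ioo_subset_Icc_self
  have h1 := dn1_int (ν := ν) (τ := τ) hν hτ hR
  have h2 := dq_int (R := R) hν hτ hC hpq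
  have h3 : ∫ ρ in Ioo (0 : ℝ) R, dn ν τ R ρ * ∫ x in {x | d x < ρ}, J x
      ≤ ∫ ρ in Ioo 0 R, (M * (dn ν τ R ρ * ρ) + ε * dq ν τ R ρ) := by
    refine setIntegral_mono_on i0 (hdn1.add hdq1) measurableSet_Ioo fun ρ hρ => ?_
    calc dn ν τ R ρ * ∫ x in {x | d x < ρ}, J x ≤ dn ν τ R ρ * (M * ρ + ε / ρ) :=
          mul_le_mul_of_nonneg_left (h ρ hρ.1 hρ.2) (dn_nonneg hν hτ (le_of_lt hρ.1))
      _ = _ := by
          have h4 := dn_dq (R := R) hν hτ ρ
          have h5 : ρ ≠ 0 := hρ.1.ne'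
          have h6 : dn ν τ R ρ * (ε / ρ) = ε * dq ν τ R ρ := by
            rw [h4]
            field_simp
          rw [mul_add, h6]
          ring
  rw [e0]
  refine h3.trans ?_
  rw [integral_add hdn1 hdq1, integral_const_mul, integral_const_mul]
  have h4 := mul_le_mul_of_nonneg_left h1 hM
  have h5 := mul_le_mul_of_nonneg_left h2 hε
  linarith

end

end Pool.Agent.H305.EG
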