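import Pool.Agent.H305.EG.Kcs
import Pool.Agent.H305.EF.Fin

/-!
The criterion for points and lines.
-/

set_option autoImplicit false

open MeasureTheory Set Metric Filter Topology
open scoped ContDiff ENNReal

namespace Pool.Agent.H305.EG

open H459R3.NS W221.NS Pool.Agent.V1183.PM Pool.Agent.H305.OS Pool.Agent.H305.SL Pool.Agent.H305.PL
  Pool.Agent.H305.EF

/-- The criterion in coordinates. -/
theorem coordC {ν : ℝ} (hν : 0 < ν) : ∃ ε : ℝ, 0 < ε ∧ ∀ (T : ℝ) (u : ℝ → V → V) (p : ℝ → V → ℝ),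
    HS ν T u p → ∀ a : ℝ, 0 ≤ a → a < T → ∀ (I : Finset (Fin 3)) (x₀ : V) (R : ℝ) (g : ℝ → ℝ),
    2 ≤ I.card → 0 < R → IntegrableOn g (Ioo a T) →
    ((∀ᵐ τ ∂(volume.restrict (Ioo a T)), InS I x₀ R ν ε (cw u τ) (p τ) (g τ)) ∨
      (∀ᵐ τ ∂(volume.restrict (Ioo a T)), InG I x₀ R ν T τ ε (cw u τ) (p τ) (g τ))) →
    ∃ d Q : ℝ, 0 < d ∧ ∀ t ∈ Ioo (T - d) T, ∀ x : V, dI I x₀ x < d → ‖u t x‖ ≤ Q := by
  obtain ⟨c₀, hc₀, hcr⟩ := critC hν
  have hsν : 0 < √ν := Real.sqrt_pos.2 hν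
  have hπ : 0 < √(Real.pi * ν) := Real.sqrt_pos.2 (by positivity)
  obtain ⟨ε, hεe⟩ : ∃ ε : ℝ, ε = min (c₀ * ν / √(Real.pi * ν)) (c₀ * √ν) := ⟨_, rfl⟩
  have hε : 0 < ε := by rw [hεe]; positivity
  have hε1 : √(Real.pi * ν) * ε / ν ≤ c₀ := by
    have h1 : ε ≤ c₀ * ν / √(Real.pi * ν) := by rw [hεe]; exact min_le_left _ _
    rw [le_div_iff₀ hπ] at h1
    rw [div_le_iff₀ hν]
    linarith
  have hε2 : ε / √ν ≤ c₀ := by
    rw [div_le_iff₀ hsν, hεe]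
    exact min_le_right _ _
  refine ⟨ε, hε, ?_⟩
  intro T u p h a ha haT I x₀ R g hI hR hg hin
  have hT : 0 < T := by linarith
  obtain ⟨b, hb⟩ : ∃ b : ℝ, b = R ^ 2 / (16 * ν) := ⟨_, rfl⟩
  have hb0 : 0 < b := by rw [hb]; positivity
  have hbν : 4 * ν * b = R ^ 2 / 4 := by
    rw [hb]
    field_simp
    ring
  obtain ⟨t₀, ht₀, E, hST⟩ := ST_of h (a := max ((a + T) / 2) (T - b))
    (lt_max_of_lt_left (by linarith)) (max_lt (by linarith) (by linarith))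
  have ht₀a : (a + T) / 2 < t₀ := (le_max_left _ _).trans_lt ht₀.1
  have ht₀b : T - b < t₀ := (le_max_right _ _).trans_lt ht₀.1
  have hsub : Ioo t₀ T ⊆ Ioo a T := Ioo_subset_Ioo_left (by linarith)
  have hg' := hg.mono_set hsub
  obtain ⟨n, hn⟩ : ∃ n, I.card = n + 1 := ⟨I.card - 1, by omega⟩
  have hn1 : 1 ≤ n := by omega
  have hfin : volume (Ioo t₀ T) ≠ ⊤ := by
    rw [Real.volume_Ioo]
    exact ENNReal.ofReal_ne_top
  have key : ∃ d Q : ℝ, 0 < d ∧ ∀ t ∈ Ioo (T - d) T, ∀ x₁ ∈ PI' I x₀, ∀ x ∈ ball x₁ d,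
      ‖u t x‖ ≤ Q := by
    rcases hin with hin | hin
    · obtain ⟨K₁, K₂, hK₁, hK₂, hk⟩ := kcS hST hn hR hε.le x₀
      have hi := ae_restrict_of_ae_restrict_of_subset hsub hin
      refine hcr T u p t₀ E hST I n x₀ 1 _ (fun τ => 2 * √(Real.pi * ν) * (|g τ| + K₁)
        + K₂ * (Fx u p τ).toReal) hn hn1 one_pos (by positivity) hε1 ?_ ?_ ?_
      · have j1 : IntegrableOn (fun τ => |g τ| + K₁) (Ioo t₀ T) :=
          hg'.abs.add (integrableOn_const hfin)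
        exact (j1.const_mul _).add (hST.Fx_int.const_mul _)
      · intro τ
        have : 0 ≤ (Fx u p τ).toReal := ENNReal.toReal_nonneg
        positivity
      · filter_upwards [hi, ae_restrict_mem measurableSet_Ioo] with τ h1 h2
        exact hk τ h2 (g τ) h1
    · have hi := ae_restrict_of_ae_restrict_of_subset hsub hin
      have hk := kcG (ε := ε) hST hn hR x₀ (h₀ := b) (by
        have : 4 * ν * (T + b - t₀) ≤ 4 * ν * (2 * b) :=
          mul_le_mul_of_nonneg_left (by linarith) (by positivity)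
        nlinarith)
      refine hcr T u p t₀ E hST I n x₀ b _ (fun τ => 4 * √ν * |g τ|) hn hn1 hb0 (by positivity) hε2
        (hg'.abs.const_mul _) (fun τ => by positivity) ?_
      filter_upwards [hi, ae_restrict_mem measurableSet_Ioo] with τ h1 h2
      exact hk τ h2 (g τ) h1
  obtain ⟨d, Q, hd, hQ⟩ := key
  refine ⟨d, Q, hd, fun t ht x hx => ?_⟩
  refine hQ t ht (fun i => if i ∈ I then x₀ i else x i) (fun i hi => by simp only [if_pos hi]) x ?_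
  rw [mem_ball, dist_pi_lt_iff hd]
  intro i
  by_cases hi : i ∈ I
  · simp only [if_pos hi]
    rw [Real.dist_eq]
    exact (abs_le_dI hi).trans_lt hx
  · simp only [if_neg hi, dist_self]
    exact hd

/-- The Gaussian weights. -/
noncomputable def gsf {m : ℕ} (f : Fin m → V) (b : V) (ρ : ℝ) (x : V) : ℝ :=
  Real.exp (-((∑ i, (∑ l, f i l * (x l - b l)) ^ 2) / ρ ^ 2))

/-- The criterion. -/
theorem inflow_crit2 {ν : ℝ} (hν : 0 < ν) : ∃ ε : ℝ, 0 < ε ∧ ∀ (T : ℝ) (u : ℝ → V → V)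
    (p : ℝ → V → ℝ), HS ν T u p → ∀ a : ℝ, 0 ≤ a → a < T → ∀ (m : ℕ) (f : Fin m → V), 2 ≤ m →
    (∀ i j, ∑ l, f i l * f j l = if i = j then 1 else 0) → ∀ (b : V) (R : ℝ) (g : ℝ → ℝ), 0 < R →
    IntegrableOn g (Ioo a T) →
    ((∀ᵐ t ∂(volume.restrict (Ioo a T)), ∀ ρ ∈ Ioo 0 R,
      -(∫ x in nbh f b ρ, wk (cw u t) (p t) x)
        ≤ ν * (∫ x in nbh f b ρ, gw (cw u t) x) + g t * ρ + ε / ρ) ∨
    (∀ᵐ t ∂(volume.restrict (Ioo a T)), ∀ ρ ∈ Ioo 0 R, 4 * ν * (T - t) ≤ ρ ^ 2 →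
      -(∫ x, wk (cw u t) (p t) x * gsf f b ρ x)
        ≤ ν * (∫ x, gw (cw u t) x * gsf f b ρ x) + g t * ρ + ε / ρ)) →
    ∃ d : ℝ, 0 < d ∧ ∃ M : ℝ, ∀ t ∈ Ioo (T - d) T, ∀ x ∈ nbh f b d, ∀ i, |u t x i| ≤ M := by
  obtain ⟨ε, hε, hcr⟩ := coordC hν
  refine ⟨ε, hε, ?_⟩
  intro T u p h a ha haT m f hm hf b R g hR hg hin
  obtain ⟨M, I, hM, hI, hMI⟩ := exists_MI (by omega : 0 < m) hf
  have hr := OS.HS.rot h hM
  have hq : ∀ y : V, qI I (lm M b) y = ∑ i, (∑ l, f i l * (lm M y l - b l)) ^ 2 := by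
    intro y
    have h1 := hMI (fun l => lm M y l - b l)
    rw [← h1]
    unfold qI
    refine Finset.sum_congr rfl fun i _ => ?_
    have h2 : lm M (fun l => lm M y l - b l) = fun l => y l - lm M b l := by
      have h3 : (fun l => lm M y l - b l) = lm M y - b := rfl
      rw [h3, map_sub, hM.lm_lm]
      rfl
    rw [h2]
  have hnb : ∀ ρ : ℝ, 0 < ρ → nb I (lm M b) ρ = (lm M) ⁻¹' (nbh f b ρ) := by
    intro ρ hρ
    ext y
    show √(qI I (lm M b) y) < ρ ↔ ∑ i, (∑ l, f i l * (lm M y l - b l)) ^ 2 < ρ ^ 2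
    rw [Real.sqrt_lt' hρ, hq]
  have hgs : ∀ (ρ : ℝ) (y : V), gs I (lm M b) ρ y = gsf f b ρ (lm M y) := by
    intro ρ y
    unfold gs gsf
    rw [hq]
  have hin' : (∀ᵐ τ ∂(volume.restrict (Ioo a T)),
      InS I (lm M b) R ν ε (cw (uM M u) τ) (pM M p τ) (g τ)) ∨ (∀ᵐ τ ∂(volume.restrict (Ioo a T)),
      InG I (lm M b) R ν T τ ε (cw (uM M u) τ) (pM M p τ) (g τ)) := by
    rcases hin with hin | hin
    · left
      filter_upwards [hin, ae_restrict_mem measurableSet_Ioo] with τ hτ hτm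
      intro ρ hρ hρR
      have hτ0 : τ ∈ Ioo 0 T := ⟨ha.trans_lt hτm.1, hτm.2⟩
      have h1 := hτ ρ ⟨hρ, hρR⟩
      rw [hnb ρ hρ]
      simp only [wk_uM h hM hτ0, gw_uM h hM hτ0]
      rw [int_lm hM (wk (cw u τ) (p τ)), int_lm hM (gw (cw u τ))]
      exact h1
    · right
      filter_upwards [hin, ae_restrict_mem measurableSet_Ioo] with τ hτ hτm
      intro ρ hρ hρR hρT
      have hτ0 : τ ∈ Ioo 0 T := ⟨ha.trans_lt hτm.1, hτm.2⟩
      have h1 := hτ ρ ⟨hρ, hρR⟩ hρT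
      simp only [wk_uM h hM hτ0, gw_uM h hM hτ0, hgs]
      have e1 := int_lm hM (fun x => wk (cw u τ) (p τ) x * gsf f b ρ x) univ
      have e2 := int_lm hM (fun x => gw (cw u τ) x * gsf f b ρ x) univ
      rw [preimage_univ, Measure.restrict_univ] at e1 e2
      rw [e1, e2]
      exact h1
  obtain ⟨d, Q, hd, hQ⟩ := hcr T (uM M u) (pM M p) hr a ha haT I (lm M b) R g (by omega) hR hg hin'
  refine ⟨d, hd, ∑ i, ∑ k, |M i k| * |Q|, fun t ht x hx i => ?_⟩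
  have hx' : dI I (lm M b) (lm M x) < d := by
    have h1 : lm M x ∈ nb I (lm M b) d := by
      rw [hnb d hd]
      show lm M (lm M x) ∈ nbh f b d
      rw [hM.lm_lm]
      exact hx
    exact h1
  have e1 : u t x i = ∑ k, M i k * uM M u t (lm M x) k := by
    have k1 : (fun k => uM M u t (lm M x) k) = lm M (u t x) := by
      funext k
      unfold uM
      rw [hM.lm_lm, lm_apply]
    have k2 : uM M u t (lm M x) = lm M (u t x) := k1
    rw [k2, ← lm_apply, hM.lm_lm]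
  rw [e1]
  have k3 : |∑ k, M i k * uM M u t (lm M x) k| ≤ ∑ k, |M i k| * |Q| := by
    refine (Finset.abs_sum_le_sum_abs _ _).trans (Finset.sum_le_sum fun k _ => ?_)
    rw [abs_mul]
    have k4 := norm_le_pi_norm (uM M u t (lm M x)) k
    rw [Real.norm_eq_abs] at k4
    exact mul_le_mul_of_nonneg_left ((k4.trans (hQ t ht (lm M x) hx')).trans (le_abs_self Q))
      (abs_nonneg _)
  refine k3.trans ?_
  exact single1 (F := fun i => ∑ k, |M i k| * |Q|)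
    (fun i => Finset.sum_nonneg fun k _ => by positivity) i

end Pool.Agent.H305.EG
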