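import Pool.Agent.H305.EG.Ae
import Pool.Agent.H305.EG.Fi2

/-!
The criteria in coordinates.
-/

set_option autoImplicit false

open MeasureTheory Set Metric Filter Topology
open scoped ContDiff ENNReal

namespace Pool.Agent.H305.EG

open H459R3.NS W221.NS Pool.Agent.V1183.PM Pool.Agent.H305.OS Pool.Agent.H305.SL Pool.Agent.H305.PL
  Pool.Agent.H305.EF

/-- From short to long windows. -/
lemma splitW {F : ℝ → ℝ} {t₀ T c h : ℝ} (hc : 0 ≤ c) (hh : 0 < h)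
    (hF : ∀ t t', t₀ ≤ t → t' < T → IntegrableOn F (Ioc t t'))
    (hB : ∀ t t', t₀ ≤ t → t < t' → t' < T → t' - t ≤ h → ∫ τ in Ioc t t', F τ ≤ c) :
    ∀ t t', t₀ ≤ t → t ≤ t' → t' < T → ∫ τ in Ioc t t', F τ ≤ c * (1 + (t' - t) / h) := by
  have key : ∀ (N : ℕ) (t t' : ℝ), t₀ ≤ t → t ≤ t' → t' < T → t' - t ≤ N * h →
      ∫ τ in Ioc t t', F τ ≤ c * N := by
    intro N
    induction N with
    | zero =>
      intro t t' _ h2 _ h4
      have : t' = t := by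
        simp only [Nat.cast_zero, zero_mul] at h4
        linarith
      rw [this, Ioc_self]
      simp
    | succ N ih =>
      intro t t' h1 h2 h3 h4
      rcases le_or_gt (t' - t) h with h5 | h5
      · rcases eq_or_lt_of_le h2 with h6 | h6
        · rw [h6, Ioc_self]
          simp only [Measure.restrict_empty, integral_zero_measure]
          positivity
        · refine (hB t t' h1 h6 h3 h5).trans ?_
          have : (0 : ℝ) ≤ N := Nat.cast_nonneg N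
          push_cast
          nlinarith
      · have h6 : t + h < t' := by linarith
        have e : Ioc t t' = Ioc t (t + h) ∪ Ioc (t + h) t' :=
          (Ioc_union_Ioc_eq_Ioc (by linarith) h6.le).symm
        have hd : Disjoint (Ioc t (t + h)) (Ioc (t + h) t') := by
          rw [Set.disjoint_left]
          intro x hx hx'
          exact absurd hx.2 (not_le.2 hx'.1)
        rw [e, setIntegral_union hd measurableSet_Ioc (hF _ _ h1 (h6.trans h3))
          (hF _ _ (by linarith) h3)]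
        have a1 := hB t (t + h) h1 (by linarith) (h6.trans h3) (by linarith)
        have a2 := ih (t + h) t' (by linarith) h6.le h3 (by push_cast at h4; linarith)
        push_cast
        linarith
  intro t t' h1 h2 h3
  have h4 : 0 ≤ (t' - t) / h := div_nonneg (by linarith) hh.le
  have h5 := Nat.le_ceil ((t' - t) / h)
  have h6 := (Nat.ceil_lt_add_one h4).le
  refine (key ⌈(t' - t) / h⌉₊ t t' h1 h2 h3 ?_).trans ?_
  · rwa [div_le_iff₀ hh] at h5
  · exact mul_le_mul_of_nonneg_left (by linarith) hc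

/-- The criteria in coordinates, integrated in time. -/
theorem coordD {ν : ℝ} (hν : 0 < ν) : ∃ ε : ℝ, 0 < ε ∧ ∀ (T : ℝ) (u : ℝ → V → V) (p : ℝ → V → ℝ),
    HS ν T u p → ∀ a : ℝ, 0 ≤ a → a < T → ∀ (I : Finset (Fin 3)) (x₀ : V) (R : ℝ),
    2 ≤ I.card → 0 < R →
    ((∀ ρ ∈ Ioo 0 R, ∀ t t', a < t → t < t' → t' < T → t' - t ≤ ρ ^ 2 →
      ∫ τ in Ioc t t', ∫ x in nb I x₀ ρ, Jd ν u p τ x ≤ ε * ρ) ∨
    (∀ ρ ∈ Ioo 0 R, ∀ t t', a < t → t < t' → t' < T → t' - t ≤ ρ ^ 2 →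
      ∫ τ in Ioc t t', Ah I x₀ ν ρ (cw u τ) (p τ) ≤ ε * ρ)) →
    ∃ d Q : ℝ, 0 < d ∧ ∀ t ∈ Ioo (T - d) T, ∀ x : V, dI I x₀ x < d → ‖u t x‖ ≤ Q := by
  obtain ⟨ε₁, hε₁, hD⟩ := critD hν
  obtain ⟨ε₂, hε₂, hA⟩ := critA hν
  refine ⟨min ε₁ ε₂, lt_min hε₁ hε₂, ?_⟩
  intro T u p h a ha haT I x₀ R hI hR hin
  have hT : 0 < T := by linarith
  obtain ⟨t₀, ht₀, E, hST⟩ := ST_of h (a := (a + T) / 2) (by linarith) (by linarith)
  have ht₀a : a < t₀ := by linarith [ht₀.1]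
  have hεm : 0 ≤ min ε₁ ε₂ := (lt_min hε₁ hε₂).le
  have hw : ∀ ρ : ℝ, 0 < ρ → ∀ t t' : ℝ, t ≤ t' → ∀ ε : ℝ, min ε₁ ε₂ ≤ ε →
      min ε₁ ε₂ * ρ * (1 + (t' - t) / ρ ^ 2) ≤ ε * (ρ + (t' - t) / ρ) := by
    intro ρ hρ t t' htt ε hε
    have e1 : min ε₁ ε₂ * ρ * (1 + (t' - t) / ρ ^ 2) = min ε₁ ε₂ * (ρ + (t' - t) / ρ) := by
      field_simp
    rw [e1]
    refine mul_le_mul_of_nonneg_right hε ?_
    have : 0 ≤ (t' - t) / ρ := div_nonneg (by linarith) hρ.le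
    linarith
  have key : ∃ d Q : ℝ, 0 < d ∧ ∀ t ∈ Ioo (T - d) T, ∀ x₁ ∈ PI' I x₀, ∀ x ∈ ball x₁ d,
      ‖u t x‖ ≤ Q := by
    rcases hin with hin | hin
    · refine hD T u p t₀ E hST I x₀ R hI hR ?_
      intro ρ hρ t t' h1 h2 h3
      refine (splitW (t₀ := t₀) (T := T) (c := min ε₁ ε₂ * ρ) (h := ρ ^ 2)
        (mul_nonneg hεm hρ.1.le) (pow_pos hρ.1 2) ?_ ?_ t t' h1 h2 h3).trans
        (hw ρ hρ.1 t t' h2 ε₁ (min_le_left _ _))
      · intro t t' h1 h3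
        exact F_int h (hST.t0.trans_le h1) h3 _ nb_meas
      · intro t t' h1 h2 h3 h4
        exact hin ρ hρ t t' (ht₀a.trans_le h1) h2 h3 h4
    · refine hA T u p t₀ E hST I x₀ R hI hR ?_
      intro ρ hρ t t' h1 h2 h3
      refine (splitW (t₀ := t₀) (T := T) (c := min ε₁ ε₂ * ρ) (h := ρ ^ 2)
        (mul_nonneg hεm hρ.1.le) (pow_pos hρ.1 2) ?_ ?_ t t' h1 h2 h3).trans
        (hw ρ hρ.1 t t' h2 ε₂ (min_le_right _ _))
      · intro t t' h1 h3
        exact (swapA h (hST.t0.trans_le h1) h3 (T' := T + 1) (by linarith) hR I x₀ 1).1 ρ hρ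
      · intro t t' h1 h2 h3 h4
        exact hin ρ hρ t t' (ht₀a.trans_le h1) h2 h3 h4
  obtain ⟨d, Q, hd, hQ⟩ := key
  refine ⟨d, Q, hd, fun t ht x hx => ?_⟩
  refine hQ t ht (fun i => if i ∈ I then x₀ i else x i) (fun i hi => by simp only [if_pos hi]) x ?_
  rw [mem_ball, dist_pi_lt_iff hd]
  intro i
  by_cases hi : i ∈ I
  · simp only [if_pos hi]
    rw [Real.dist_eq]
    exact (abs_le_dI hi).trans_lt hx
  · simp only [if_neg hi, dist_self]
    exact hd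

end Pool.Agent.H305.EG
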