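import Pool.Agent.H305.EG.Est

/-!
The estimate for the weight at a fixed radius.
-/

set_option autoImplicit false

open MeasureTheory Set Metric Filter Topology
open scoped ContDiff ENNReal

namespace Pool.Agent.H305.EG

open H459R3.NS W221.NS Pool.Agent.V1183.PM Pool.Agent.H305.OS Pool.Agent.H305.SL Pool.Agent.H305.PL
  Pool.Agent.H305.EF

lemma pf'_zero {R ρ : ℝ} (hR : 0 < R) (h0 : 0 < ρ) (h : ρ < R / 2) : pf' R ρ = 0 := by
  have h1 := pf_hd R ρ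
  have h2 : HasDerivAt (pf R) 0 ρ := by
    refine (hasDerivAt_const ρ (1 : ℝ)).congr_of_eventuallyEq ?_
    filter_upwards [Ioo_mem_nhds h0 h] with x hx
    exact pf_one hR hx.1.le hx.2.le
  exact h1.unique h2

/-- The estimate at a fixed radius. -/
theorem om_F {ν : ℝ} (hν : 0 < ν) (n : ℕ) : ∃ K₁ : ℝ, 0 ≤ K₁ ∧ ∀ R T : ℝ, 0 < R →
    0 < T → ∃ K₂ : ℝ, 0 ≤ K₂ ∧ ∀ (t₁ s T' r ε ρ : ℝ) (F : ℝ → ℝ), t₁ ≤ s → s - t₁ ≤ T → 0 < r →
    r ^ 2 = T' - s → 0 ≤ ε → ρ ∈ Ioo 0 R → IntegrableOn F (Ioc t₁ s) →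
    (∀ t t', t₁ ≤ t → t ≤ t' → t' ≤ s → ∫ τ in Ioc t t', F τ ≤ ε * (ρ + (t' - t) / ρ)) →
    ∫ τ in Ioc t₁ s, om n ν R ρ (T' - τ) * F τ ≤ ε * (K₁ * ((r + ρ)⁻¹) ^ (n + 1) + K₂) := by
  obtain ⟨C₃, hC₃, hu3⟩ := Ek_up (n + 3) hν
  obtain ⟨C₁, hC₁, hu1⟩ := Ek_up (n + 1) hν
  refine ⟨2 * C₃ / ν, by positivity, ?_⟩
  intro R T hR hT
  obtain ⟨Cp, hCp⟩ := isCompact_Icc.exists_bound_of_continuousOn (pf'_cont R).continuousOn
    (s := Icc 0 R)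
  have hCp0 : 0 ≤ Cp := (norm_nonneg _).trans (hCp 0 ⟨le_rfl, hR.le⟩)
  refine ⟨Cp * (C₁ * (2 / R) ^ (n + 1) * (2 * R + 2 * T / R)), by positivity, ?_⟩
  intro t₁ s T' r ε ρ F hts hsT hr hrs hε hρ hF hB
  have hρ0 : 0 < ρ := hρ.1
  have hs : s < T' := by nlinarith [pow_pos hr 2]
  have hrs' : √(T' - s) = r := by rw [← hrs, Real.sqrt_sq hr.le]
  have hint : ∀ k, IntegrableOn (fun τ => Ek k ν ρ (T' - τ)) (Ioc t₁ s) := fun k =>
    (Ek_cont (k := k) (ρ := ρ) (t₁ := t₁) hν hs).integrableOn_Icc.mono_set Ioc_subset_Icc_self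
  have hFi : ∀ k, IntegrableOn (fun τ => Ek k ν ρ (T' - τ) * F τ) (Ioc t₁ s) := by
    intro k
    refine hF.bdd_mul (((Ek_cont (k := k) (ρ := ρ) (t₁ := t₁) hν hs).mono
      Ioc_subset_Icc_self).aestronglyMeasurable measurableSet_Ioc) (c := (r⁻¹) ^ k) ?_
    refine ae_restrict_of_forall_mem measurableSet_Ioc fun t ht => ?_
    rw [Real.norm_eq_abs, abs_of_nonneg Ek_nonneg]
    exact Ek_le hν hr (by rw [hrs]; linarith [ht.2])
  have e1 : ∫ τ in Ioc t₁ s, om n ν R ρ (T' - τ) * F τ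
      = ρ / (2 * ν) * pf R ρ * (∫ τ in Ioc t₁ s, Ek (n + 3) ν ρ (T' - τ) * F τ)
        + (-pf' R ρ) * ∫ τ in Ioc t₁ s, Ek (n + 1) ν ρ (T' - τ) * F τ := by
    rw [← integral_const_mul, ← integral_const_mul, ← integral_add ((hFi _).const_mul _)
      ((hFi _).const_mul _)]
    congr 1
    funext τ
    unfold om
    ring
  have hrρ : 0 < r + ρ := by positivity
  -- the first part
  have h1 : ∫ τ in Ioc t₁ s, Ek (n + 3) ν ρ (T' - τ) * F τ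
      ≤ 2 * (C₃ * ((r + ρ)⁻¹) ^ (n + 3)) * (ε * ρ) + ε / ρ * (C₃ * (2 * ((r + ρ)⁻¹) ^ (n + 1))) := by
    refine (Ek_F hν (by omega) hC₃ hu3 hts hr hrs hρ0 hε hF hB).trans (add_le_add le_rfl
      (mul_le_mul_of_nonneg_left ?_ (by positivity)))
    have h2 := inv_int (k := n + 1) (ρ := ρ) (by omega) hρ0.le hts hs
    rw [hrs'] at h2
    have hc : ContinuousOn (fun τ => ((√(T' - τ) + ρ)⁻¹) ^ (n + 3)) (Icc t₁ s) := by
      refine ContinuousOn.pow (ContinuousOn.inv₀ (by fun_prop) fun τ hτ => ?_) _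
      have : 0 ≤ √(T' - τ) := Real.sqrt_nonneg _
      positivity
    calc ∫ τ in Ioc t₁ s, Ek (n + 3) ν ρ (T' - τ)
        ≤ ∫ τ in Ioc t₁ s, C₃ * ((√(T' - τ) + ρ)⁻¹) ^ (n + 3) := by
          refine setIntegral_mono_on (hint _) ((hc.integrableOn_Icc.mono_set
            Ioc_subset_Icc_self).const_mul _) measurableSet_Ioc fun τ hτ => ?_
          exact hu3 ρ (T' - τ) hρ0.le (by linarith [hτ.2])
      _ ≤ _ := by
          rw [integral_const_mul]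
          exact mul_le_mul_of_nonneg_left h2 hC₃
  have h2 : ρ / (2 * ν) * pf R ρ * (∫ τ in Ioc t₁ s, Ek (n + 3) ν ρ (T' - τ) * F τ)
      ≤ ε * (2 * C₃ / ν * ((r + ρ)⁻¹) ^ (n + 1)) := by
    have hU : 0 ≤ 2 * (C₃ * ((r + ρ)⁻¹) ^ (n + 3)) * (ε * ρ)
        + ε / ρ * (C₃ * (2 * ((r + ρ)⁻¹) ^ (n + 1))) := by positivity
    have h3 : ρ / (2 * ν) * pf R ρ ≤ ρ / (2 * ν) := mul_le_of_le_one_right (by positivity) (pf_le R ρ)
    have h4 : 0 ≤ ρ / (2 * ν) * pf R ρ := mul_nonneg (by positivity) (pf_nonneg R ρ)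
    have h5 : ρ ^ 2 * ((r + ρ)⁻¹) ^ (n + 3) ≤ ((r + ρ)⁻¹) ^ (n + 1) := by
      have e2 : ((r + ρ)⁻¹) ^ (n + 3) = ((r + ρ)⁻¹) ^ (n + 1) * ((r + ρ)⁻¹) ^ 2 := by
        rw [← pow_add]
      rw [e2]
      have h6 : ρ ^ 2 * ((r + ρ)⁻¹) ^ 2 ≤ 1 := by
        rw [← mul_pow]
        apply pow_le_one₀ (by positivity)
        rw [← div_eq_mul_inv, div_le_one hrρ]
        linarith
      calc ρ ^ 2 * (((r + ρ)⁻¹) ^ (n + 1) * ((r + ρ)⁻¹) ^ 2)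
          = ((r + ρ)⁻¹) ^ (n + 1) * (ρ ^ 2 * ((r + ρ)⁻¹) ^ 2) := by ring
        _ ≤ ((r + ρ)⁻¹) ^ (n + 1) * 1 := mul_le_mul_of_nonneg_left h6 (by positivity)
        _ = _ := mul_one _
    calc ρ / (2 * ν) * pf R ρ * (∫ τ in Ioc t₁ s, Ek (n + 3) ν ρ (T' - τ) * F τ)
        ≤ ρ / (2 * ν) * pf R ρ * (2 * (C₃ * ((r + ρ)⁻¹) ^ (n + 3)) * (ε * ρ)
        + ε / ρ * (C₃ * (2 * ((r + ρ)⁻¹) ^ (n + 1)))) := mul_le_mul_of_nonneg_left h1 h4
      _ ≤ ρ / (2 * ν) * (2 * (C₃ * ((r + ρ)⁻¹) ^ (n + 3)) * (ε * ρ)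
        + ε / ρ * (C₃ * (2 * ((r + ρ)⁻¹) ^ (n + 1)))) := mul_le_mul_of_nonneg_right h3 hU
      _ = ε * C₃ / ν * (ρ ^ 2 * ((r + ρ)⁻¹) ^ (n + 3)) + ε * C₃ / ν * ((r + ρ)⁻¹) ^ (n + 1) := by
          field_simp
      _ ≤ ε * C₃ / ν * ((r + ρ)⁻¹) ^ (n + 1) + ε * C₃ / ν * ((r + ρ)⁻¹) ^ (n + 1) :=
          add_le_add (mul_le_mul_of_nonneg_left h5 (by positivity)) le_rfl
      _ = _ := by ring
  -- the second part
  have h3 : (-pf' R ρ) * (∫ τ in Ioc t₁ s, Ek (n + 1) ν ρ (T' - τ) * F τ)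
      ≤ ε * (Cp * (C₁ * (2 / R) ^ (n + 1) * (2 * R + 2 * T / R))) := by
    rcases lt_or_ge ρ (R / 2) with h4 | h4
    · rw [pf'_zero hR hρ0 h4]
      simp only [neg_zero, zero_mul]
      positivity
    · have h5 : ρ⁻¹ ≤ 2 / R := by
        rw [inv_le_comm₀ hρ0 (by positivity), inv_div]
        exact h4
      have h6 : (ρ⁻¹) ^ (n + 1) ≤ (2 / R) ^ (n + 1) := pow_le_pow_left₀ (by positivity) h5 _
      have h7 : ((r + ρ)⁻¹) ^ (n + 1) ≤ (2 / R) ^ (n + 1) :=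
        (pow_le_pow_left₀ (by positivity) (inv_anti₀ hρ0 (by linarith)) _).trans h6
      have h8 : ∫ τ in Ioc t₁ s, Ek (n + 1) ν ρ (T' - τ) ≤ C₁ * (2 / R) ^ (n + 1) * T := by
        calc ∫ τ in Ioc t₁ s, Ek (n + 1) ν ρ (T' - τ)
            ≤ ∫ _τ in Ioc t₁ s, C₁ * (2 / R) ^ (n + 1) := by
              refine setIntegral_mono_on (hint _) (integrableOn_const (by
                rw [Real.volume_Ioc]; exact ENNReal.ofReal_ne_top)) measurableSet_Ioc fun τ hτ => ?_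
              refine (hu1 ρ (T' - τ) hρ0.le (by linarith [hτ.2])).trans
                (mul_le_mul_of_nonneg_left ?_ hC₁)
              refine (pow_le_pow_left₀ (by positivity) (inv_anti₀ hρ0 ?_) _).trans h6
              have : 0 ≤ √(T' - τ) := Real.sqrt_nonneg _
              linarith
          _ = C₁ * (2 / R) ^ (n + 1) * (s - t₁) := by
              rw [setIntegral_const, Real.volume_real_Ioc_of_le hts, smul_eq_mul]
              ring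
          _ ≤ _ := mul_le_mul_of_nonneg_left hsT (by positivity)
      have h9 := Ek_F hν (by omega : 1 ≤ n + 1) hC₁ hu1 hts hr hrs hρ0 hε hF hB
      have h10 : 2 * (C₁ * ((r + ρ)⁻¹) ^ (n + 1)) * (ε * ρ)
          + ε / ρ * (∫ τ in Ioc t₁ s, Ek (n + 1) ν ρ (T' - τ))
          ≤ ε * (C₁ * (2 / R) ^ (n + 1) * (2 * R + 2 * T / R)) := by
        have a1 : 2 * (C₁ * ((r + ρ)⁻¹) ^ (n + 1)) * (ε * ρ) ≤ 2 * (C₁ * (2 / R) ^ (n + 1)) * (ε * R) := by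
          have := hρ.2.le
          gcongr
        have a2 : ε / ρ * (∫ τ in Ioc t₁ s, Ek (n + 1) ν ρ (T' - τ))
            ≤ ε * (2 / R) * (C₁ * (2 / R) ^ (n + 1) * T) := by
          refine mul_le_mul ?_ h8 (integral_nonneg fun _ => Ek_nonneg) (by positivity)
          rw [div_eq_mul_inv]
          exact mul_le_mul_of_nonneg_left h5 hε
        have a3 : 2 * (C₁ * (2 / R) ^ (n + 1)) * (ε * R) + ε * (2 / R) * (C₁ * (2 / R) ^ (n + 1) * T)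
            = ε * (C₁ * (2 / R) ^ (n + 1) * (2 * R + 2 * T / R)) := by ring
        linarith
      have h11 : 0 ≤ -pf' R ρ := neg_nonneg.2 (pf'_nonpos hρ0.le)
      have h12 : -pf' R ρ ≤ Cp := (neg_le_abs _).trans (hCp ρ (Ioo_subset_Icc_self hρ))
      calc (-pf' R ρ) * (∫ τ in Ioc t₁ s, Ek (n + 1) ν ρ (T' - τ) * F τ)
          ≤ (-pf' R ρ) * (ε * (C₁ * (2 / R) ^ (n + 1) * (2 * R + 2 * T / R))) :=
            mul_le_mul_of_nonneg_left (h9.trans h10) h11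
        _ ≤ Cp * (ε * (C₁ * (2 / R) ^ (n + 1) * (2 * R + 2 * T / R))) :=
            mul_le_mul_of_nonneg_right h12 (by positivity)
        _ = _ := by ring
  rw [e1]
  calc _ ≤ ε * (2 * C₃ / ν * ((r + ρ)⁻¹) ^ (n + 1))
        + ε * (Cp * (C₁ * (2 / R) ^ (n + 1) * (2 * R + 2 * T / R))) := add_le_add h2 h3
    _ = _ := by ring

/-- The integral in the radius. -/
lemma rad_int {n : ℕ} (hn : 1 ≤ n) {r R : ℝ} (hr : 0 < r) (hR : 0 < R) :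
    IntegrableOn (fun ρ => ((r + ρ)⁻¹) ^ (n + 1)) (Ioo 0 R) ∧
    ∫ ρ in Ioo 0 R, ((r + ρ)⁻¹) ^ (n + 1) ≤ (r⁻¹) ^ n := by
  have hn' : (1 : ℝ) ≤ n := by exact_mod_cast hn
  have hc : ContinuousOn (fun ρ => ((r + ρ)⁻¹) ^ (n + 1)) (Icc 0 R) := by
    refine ContinuousOn.pow (ContinuousOn.inv₀ (by fun_prop) fun ρ hρ => ?_) _
    have := hρ.1
    positivity
  have hd : ∀ ρ ∈ uIcc 0 R, HasDerivAt (fun ρ => -(1 / n : ℝ) * ((r + ρ)⁻¹) ^ n)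
      (((r + ρ)⁻¹) ^ (n + 1)) ρ := by
    intro ρ hρ
    rw [uIcc_of_le hR.le] at hρ
    have h0 : 0 < r + ρ := by linarith [hρ.1]
    have h1 : HasDerivAt (fun ρ => r + ρ) 1 ρ := (hasDerivAt_id ρ).const_add r
    have h2 := h1.inv h0.ne'
    have h3 := (h2.pow n).const_mul (-(1 / n : ℝ))
    refine h3.congr_deriv ?_
    obtain ⟨j, rfl⟩ : ∃ j, n = j + 1 := ⟨n - 1, by omega⟩
    simp only [Nat.add_sub_cancel]
    have hk : ((j + 1 : ℕ) : ℝ) ≠ 0 := by positivity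
    rw [show j + 1 + 1 = j + 2 by ring, pow_add ((r + ρ)⁻¹) j 2]
    simp only [Pi.inv_apply]
    field_simp
  have h1 := intervalIntegral.integral_eq_sub_of_hasDerivAt hd
    (by rw [← uIcc_of_le hR.le] at hc; exact hc.intervalIntegrable)
  refine ⟨hc.integrableOn_Icc.mono_set Ioo_subset_Icc_self, ?_⟩
  rw [← integral_Ioc_eq_integral_Ioo, ← intervalIntegral.integral_of_le hR.le, h1, add_zero]
  have h2 : 0 ≤ (1 / n : ℝ) * ((r + R)⁻¹) ^ n := by positivity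
  have h3 : (1 / n : ℝ) * (r⁻¹) ^ n ≤ (r⁻¹) ^ n := by
    refine mul_le_of_le_one_left (by positivity) ?_
    rw [div_le_one (by linarith)]
    exact hn'
  linarith

end Pool.Agent.H305.EG
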