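import Pool.Agent.H305.EG.Uni

/-!
The estimate at a fixed radius.
-/

set_option autoImplicit false

open MeasureTheory Set Metric Filter Topology
open scoped ContDiff ENNReal

namespace Pool.Agent.H305.EG

open H459R3.NS W221.NS Pool.Agent.V1183.PM Pool.Agent.H305.OS Pool.Agent.H305.SL Pool.Agent.H305.PL
  Pool.Agent.H305.EF

section
variable {ν T t₁ s T' R r ρ z τ ε : ℝ} {n k : ℕ} {F : ℝ → ℝ}

lemma Ek_deriv (hν : 0 < ν) (hk : 1 ≤ k) (hτ : τ < T') :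
    HasDerivAt (fun τ => Ek k ν ρ (T' - τ)) (Ek k ν ρ (T' - τ)
      * (k / (2 * (T' - τ)) - ρ ^ 2 / (4 * ν * (T' - τ) ^ 2))) τ := by
  have h0 : 0 < T' - τ := by linarith
  have hs0 : 0 < √(T' - τ) := Real.sqrt_pos.2 h0
  have h1 : HasDerivAt (fun s => T' - s) (-1) τ := by
    simpa using (hasDerivAt_id τ).const_sub T'
  have h2 : HasDerivAt (fun s => (√(T' - s))⁻¹) (-(-1 / (2 * √(T' - τ))) / √(T' - τ) ^ 2) τ :=
    (h1.sqrt h0.ne').inv hs0.ne'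
  have h3 : HasDerivAt (fun s => ((√(T' - s))⁻¹) ^ k)
      (((√(T' - τ))⁻¹) ^ k * (k / (2 * (T' - τ)))) τ := by
    have h4 := h2.pow k
    refine h4.congr_deriv ?_
    obtain ⟨j, rfl⟩ : ∃ j, k = j + 1 := ⟨k - 1, by omega⟩
    simp only [Nat.add_sub_cancel]
    have h5 : √(T' - τ) ^ 2 = T' - τ := Real.sq_sqrt h0.le
    rw [show ((j + 1 : ℕ) : ℝ) / (2 * (T' - τ)) = ((j + 1 : ℕ) : ℝ) / (2 * √(T' - τ) ^ 2) by rw [h5],
      pow_succ ((√(T' - τ))⁻¹) j]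
    field_simp
  have h5 : HasDerivAt (fun s => 4 * ν * (T' - s)) (4 * ν * -1) τ := h1.const_mul (4 * ν)
  have h6 : HasDerivAt (fun s => -(1 / (4 * ν * (T' - s))) * ρ ^ 2)
      (-(ρ ^ 2 / (4 * ν * (T' - τ) ^ 2))) τ := by
    have h7 := ((hasDerivAt_const τ (1 : ℝ)).div h5 (by positivity)).neg.mul_const (ρ ^ 2)
    refine h7.congr_deriv ?_
    field_simp
    ring
  have h7 : HasDerivAt (fun s => ((√(T' - s))⁻¹) ^ k * Real.exp (-(1 / (4 * ν * (T' - s))) * ρ ^ 2)) _ τ :=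
    h3.mul h6.exp
  refine h7.congr_deriv ?_
  unfold Ek
  ring

lemma Ek_cont (hν : 0 < ν) (hs : s < T') :
    ContinuousOn (fun τ => Ek k ν ρ (T' - τ)) (Icc t₁ s) := by
  unfold Ek
  refine ContinuousOn.mul (ContinuousOn.pow (ContinuousOn.inv₀ (by fun_prop) fun τ hτ => ?_) _) ?_
  · exact (Real.sqrt_pos.2 (by linarith [hτ.2])).ne'
  · refine Real.continuous_exp.comp_continuousOn (ContinuousOn.mul (ContinuousOn.neg
      (ContinuousOn.div continuousOn_const (by fun_prop) fun τ hτ => ?_)) continuousOn_const)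
    have : 0 < T' - τ := by linarith [hτ.2]
    positivity

/-- The bound for the profile. -/
lemma Ek_up (k : ℕ) (hν : 0 < ν) : ∃ C : ℝ, 0 ≤ C ∧ ∀ ρ z : ℝ, 0 ≤ ρ → 0 < z →
    Ek k ν ρ z ≤ C * ((√z + ρ)⁻¹) ^ k := by
  obtain ⟨C, hC, h⟩ := ek k (b := 1 / (4 * ν)) (by positivity)
  refine ⟨2 ^ k * C + 1, by positivity, ?_⟩
  intro ρ z hρ hz
  have hs : 0 < √z := Real.sqrt_pos.2 hz
  have hsz : √z ^ 2 = z := Real.sq_sqrt hz.le
  have hp : 0 < √z + ρ := by positivity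
  rw [inv_pow, ← div_eq_mul_inv, le_div_iff₀ (by positivity)]
  unfold Ek
  have e1 : ((√z)⁻¹) ^ k * Real.exp (-(1 / (4 * ν * z)) * ρ ^ 2) * (√z + ρ) ^ k
      = (1 + ρ / √z) ^ k * Real.exp (-(1 / (4 * ν * z)) * ρ ^ 2) := by
    rw [mul_right_comm, ← mul_pow]
    congr 2
    field_simp
  rw [e1]
  rcases eq_or_lt_of_le hρ with h0 | h0
  · rw [← h0]
    simp only [zero_div, add_zero, one_pow, one_mul]
    norm_num
    positivity
  · have h1 := h (z / ρ ^ 2) (by positivity)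
    have e2 : 1 / (4 * ν) / (z / ρ ^ 2) = 1 / (4 * ν * z) * ρ ^ 2 := by field_simp
    rw [e2] at h1
    have h2 : 1 + ρ / √z ≤ 2 * (1 + 1 / (z / ρ ^ 2)) := by
      have e3 : 1 / (z / ρ ^ 2) = (ρ / √z) ^ 2 := by
        rw [div_pow, hsz]
        field_simp
      rw [e3]
      nlinarith [sq_nonneg (ρ / √z - 1)]
    have h3 : 0 ≤ 1 / (z / ρ ^ 2) := by positivity
    rw [neg_mul]
    calc (1 + ρ / √z) ^ k * Real.exp (-(1 / (4 * ν * z) * ρ ^ 2))
        ≤ (2 * (1 + 1 / (z / ρ ^ 2))) ^ k * Real.exp (-(1 / (4 * ν * z) * ρ ^ 2)) :=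
          mul_le_mul_of_nonneg_right (pow_le_pow_left₀ (by positivity) h2 k) (Real.exp_pos _).le
      _ ≤ 2 ^ k * ((1 + 1 / (z / ρ ^ 2)) ^ (k + 1) * Real.exp (-(1 / (4 * ν * z) * ρ ^ 2))) := by
          rw [mul_pow, mul_assoc]
          refine mul_le_mul_of_nonneg_left (mul_le_mul_of_nonneg_right ?_ (Real.exp_pos _).le)
            (by positivity)
          exact pow_le_pow_right₀ (by linarith) (by omega)
      _ ≤ 2 ^ k * C := mul_le_mul_of_nonneg_left h1 (by positivity)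
      _ ≤ _ := by linarith

/-- The time integral. -/
lemma inv_int (hk : 1 ≤ k) (hρ : 0 ≤ ρ) (hts : t₁ ≤ s) (hs : s < T') :
    ∫ τ in Ioc t₁ s, ((√(T' - τ) + ρ)⁻¹) ^ (k + 2) ≤ 2 * ((√(T' - s) + ρ)⁻¹) ^ k := by
  have hk' : (1 : ℝ) ≤ k := by exact_mod_cast hk
  have hp : ∀ τ ∈ Icc t₁ s, 0 < √(T' - τ) := fun τ hτ => Real.sqrt_pos.2 (by linarith [hτ.2])
  have hc : ContinuousOn (fun τ => ((√(T' - τ) + ρ)⁻¹) ^ (k + 2)) (Icc t₁ s) := by
    refine ContinuousOn.pow (ContinuousOn.inv₀ (by fun_prop) fun τ hτ => ?_) _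
    have := hp τ hτ
    positivity
  have hc2 : ContinuousOn (fun τ => ((√(T' - τ) + ρ)⁻¹) ^ (k + 1) * (√(T' - τ))⁻¹) (Icc t₁ s) := by
    refine ContinuousOn.mul (ContinuousOn.pow (ContinuousOn.inv₀ (by fun_prop) fun τ hτ => ?_) _)
      (ContinuousOn.inv₀ (by fun_prop) fun τ hτ => (hp τ hτ).ne')
    have := hp τ hτ
    positivity
  have hd : ∀ τ ∈ uIcc t₁ s, HasDerivAt (fun τ => (2 / k : ℝ) * ((√(T' - τ) + ρ)⁻¹) ^ k)
      (((√(T' - τ) + ρ)⁻¹) ^ (k + 1) * (√(T' - τ))⁻¹) τ := by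
    intro τ hτ
    rw [uIcc_of_le hts] at hτ
    have h0 : 0 < T' - τ := by linarith [hτ.2]
    have hs0 := hp τ hτ
    have hs1 : 0 < √(T' - τ) + ρ := by positivity
    have h1 : HasDerivAt (fun s => T' - s) (-1) τ := by
      simpa using (hasDerivAt_id τ).const_sub T'
    have h2 := ((h1.sqrt h0.ne').add_const ρ).inv hs1.ne'
    have h3 := (h2.pow k).const_mul (2 / k : ℝ)
    refine h3.congr_deriv ?_
    obtain ⟨j, rfl⟩ : ∃ j, k = j + 1 := ⟨k - 1, by omega⟩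
    simp only [Nat.add_sub_cancel]
    have hk : ((j + 1 : ℕ) : ℝ) ≠ 0 := by positivity
    rw [show j + 1 + 1 = j + 2 by ring, pow_add ((√(T' - τ) + ρ)⁻¹) j 2]
    simp only [Pi.inv_apply]
    field_simp
  have h1 := intervalIntegral.integral_eq_sub_of_hasDerivAt hd
    (by rw [← uIcc_of_le hts] at hc2; exact hc2.intervalIntegrable)
  have h2 : ∫ τ in Ioc t₁ s, ((√(T' - τ) + ρ)⁻¹) ^ (k + 2)
      ≤ ∫ τ in Ioc t₁ s, ((√(T' - τ) + ρ)⁻¹) ^ (k + 1) * (√(T' - τ))⁻¹ := by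
    refine setIntegral_mono_on (hc.integrableOn_Icc.mono_set Ioc_subset_Icc_self)
      (hc2.integrableOn_Icc.mono_set Ioc_subset_Icc_self) measurableSet_Ioc fun τ hτ => ?_
    have h3 := hp τ (Ioc_subset_Icc_self hτ)
    rw [pow_succ _ (k + 1)]
    exact mul_le_mul_of_nonneg_left (inv_anti₀ h3 (by linarith)) (by positivity)
  rw [← intervalIntegral.integral_of_le hts (f := fun τ => ((√(T' - τ) + ρ)⁻¹) ^ (k + 1)
    * (√(T' - τ))⁻¹), h1] at h2
  refine h2.trans ?_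
  have h4 : 0 ≤ (2 / k : ℝ) * ((√(T' - t₁) + ρ)⁻¹) ^ k := by positivity
  have h5 : (2 / k : ℝ) ≤ 2 := by
    rw [div_le_iff₀ (by linarith)]
    linarith
  have h6 : (2 / k : ℝ) * ((√(T' - s) + ρ)⁻¹) ^ k ≤ 2 * ((√(T' - s) + ρ)⁻¹) ^ k :=
    mul_le_mul_of_nonneg_right h5 (by positivity)
  linarith

/-- The integral against the profile. -/
lemma Ek_F (hν : 0 < ν) (hk : 1 ≤ k) {C : ℝ} (hC : 0 ≤ C)
    (hup : ∀ ρ z : ℝ, 0 ≤ ρ → 0 < z → Ek k ν ρ z ≤ C * ((√z + ρ)⁻¹) ^ k)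
    (hts : t₁ ≤ s) (hr : 0 < r) (hrs : r ^ 2 = T' - s) (hρ : 0 < ρ) (hε : 0 ≤ ε)
    (hF : IntegrableOn F (Ioc t₁ s))
    (hB : ∀ t t', t₁ ≤ t → t ≤ t' → t' ≤ s → ∫ τ in Ioc t t', F τ ≤ ε * (ρ + (t' - t) / ρ)) :
    ∫ τ in Ioc t₁ s, Ek k ν ρ (T' - τ) * F τ ≤ 2 * (C * ((r + ρ)⁻¹) ^ k) * (ε * ρ)
      + ε / ρ * ∫ τ in Ioc t₁ s, Ek k ν ρ (T' - τ) := by
  have hs : s < T' := by nlinarith [pow_pos hr 2]
  have hrs' : √(T' - s) = r := by rw [← hrs, Real.sqrt_sq hr.le]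
  have hEc := Ek_cont (k := k) (ρ := ρ) (t₁ := t₁) hν hs
  have hEi : IntegrableOn (fun τ => Ek k ν ρ (T' - τ)) (Ioc t₁ s) :=
    hEc.integrableOn_Icc.mono_set Ioc_subset_Icc_self
  have hfin : volume (Ioc t₁ s) ≠ ⊤ := by
    rw [Real.volume_Ioc]
    exact ENNReal.ofReal_ne_top
  have hci : ∀ t t' : ℝ, IntegrableOn (fun _ : ℝ => ε / ρ) (Ioc t t') := fun t t' =>
    integrableOn_const (by rw [Real.volume_Ioc]; exact ENNReal.ofReal_ne_top)
  have hF' : IntegrableOn (fun τ => F τ - ε / ρ) (Ioc t₁ s) := hF.sub (hci _ _)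
  have hS : ∀ τ ∈ Icc t₁ s, Ek k ν ρ (T' - τ) ≤ C * ((r + ρ)⁻¹) ^ k := by
    intro τ hτ
    refine (hup ρ (T' - τ) hρ.le (by linarith [hτ.2])).trans ?_
    refine mul_le_mul_of_nonneg_left (pow_le_pow_left₀ (by positivity) (inv_anti₀ (by positivity) ?_) k) hC
    have : r ≤ √(T' - τ) := by
      rw [← hrs']
      exact Real.sqrt_le_sqrt (by linarith [hτ.2])
    linarith
  have h1 := bon_uni (α := t₁) (β := s) (w := fun τ => Ek k ν ρ (T' - τ))
    (w' := fun τ => Ek k ν ρ (T' - τ) * (k / (2 * (T' - τ)) - ρ ^ 2 / (4 * ν * (T' - τ) ^ 2)))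
    (F := fun τ => F τ - ε / ρ) (S := C * ((r + ρ)⁻¹) ^ k) (B₀ := ε * ρ) hts
    (fun t ht => Ek_deriv hν hk (by linarith [ht.2])) ?_ (T' - ρ ^ 2 / (2 * ν * k)) ?_ ?_
    (fun t _ => Ek_nonneg) hS hF' (by positivity) ?_
  · have e1 : ∫ τ in Ioc t₁ s, Ek k ν ρ (T' - τ) * (F τ - ε / ρ)
        = (∫ τ in Ioc t₁ s, Ek k ν ρ (T' - τ) * F τ) - ε / ρ * ∫ τ in Ioc t₁ s, Ek k ν ρ (T' - τ) := by
      have i1 : IntegrableOn (fun τ => Ek k ν ρ (T' - τ) * F τ) (Ioc t₁ s) := by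
        refine hF.bdd_mul ((hEc.mono Ioc_subset_Icc_self).aestronglyMeasurable measurableSet_Ioc)
          (c := C * ((r + ρ)⁻¹) ^ k) ?_
        refine ae_restrict_of_forall_mem measurableSet_Ioc fun t ht => ?_
        rw [Real.norm_eq_abs, abs_of_nonneg Ek_nonneg]
        exact hS t (Ioc_subset_Icc_self ht)
      rw [← integral_const_mul, ← integral_sub i1 (hEi.const_mul _)]
      congr 1
      funext τ
      ring
    rw [e1] at h1
    linarith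
  · refine hEc.mul (ContinuousOn.sub ?_ ?_)
    · refine ContinuousOn.div continuousOn_const (by fun_prop) fun τ hτ => ?_
      have : 0 < T' - τ := by linarith [hτ.2]
      positivity
    · refine ContinuousOn.div continuousOn_const (by fun_prop) fun τ hτ => ?_
      have : 0 < T' - τ := by linarith [hτ.2]
      positivity
  · intro t ht ht2
    have h0 : 0 < T' - t := by linarith [ht.2]
    have hk0 : (0 : ℝ) < k := by exact_mod_cast hk
    refine mul_nonneg Ek_nonneg ?_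
    rw [sub_nonneg, div_le_div_iff₀ (by positivity) (by positivity)]
    have h2 : ρ ^ 2 / (2 * ν * k) ≤ T' - t := by linarith
    rw [div_le_iff₀ (by positivity)] at h2
    nlinarith [mul_le_mul_of_nonneg_right h2 (by positivity : 0 ≤ 2 * (T' - t))]
  · intro t ht ht2
    have h0 : 0 < T' - t := by linarith [ht.2]
    have hk0 : (0 : ℝ) < k := by exact_mod_cast hk
    refine mul_nonpos_of_nonneg_of_nonpos Ek_nonneg ?_
    rw [sub_nonpos, div_le_div_iff₀ (by positivity) (by positivity)]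
    have h2 : T' - t ≤ ρ ^ 2 / (2 * ν * k) := by linarith
    rw [le_div_iff₀ (by positivity)] at h2
    nlinarith [mul_le_mul_of_nonneg_right h2 (by positivity : 0 ≤ 2 * (T' - t))]
  · intro t t' ht1 ht2 ht3
    have hsub : Ioc t t' ⊆ Ioc t₁ s := fun τ hτ => ⟨ht1.trans_lt hτ.1, hτ.2.trans ht3⟩
    rw [integral_sub (hF.mono_set hsub) (hci t t'), setIntegral_const, Real.volume_real_Ioc_of_le ht2,
      smul_eq_mul]
    have h2 := hB t t' ht1 ht2 ht3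
    have h3 : ε * (ρ + (t' - t) / ρ) = ε * ρ + (t' - t) * (ε / ρ) := by
      field_simp
    linarith

end

end Pool.Agent.H305.EG
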