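import Pool.Agent.H305.EG.Tn

/-!
The criteria for points and lines, with frames.
-/

set_option autoImplicit false

open MeasureTheory Set Metric Filter Topology
open scoped ContDiff ENNReal

namespace Pool.Agent.H305.EG

open H459R3.NS W221.NS Pool.Agent.V1183.PM Pool.Agent.H305.OS Pool.Agent.H305.SL Pool.Agent.H305.PL
  Pool.Agent.H305.EF

/-- The net inflow of energy with a weight. -/
noncomputable def net (ν : ℝ) (w : Fin 3 → V → ℝ) (q : V → ℝ) (W : V → ℝ) : ℝ :=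
  ∫ x, (-wk w q x - ν * gw w x) * W x

/-- The square of the distance. -/
noncomputable def dsf {m : ℕ} (f : Fin m → V) (b x : V) : ℝ := ∑ i, (∑ l, f i l * (x l - b l)) ^ 2

/-- The criteria. -/
def CR {m : ℕ} (ν T : ℝ) (u : ℝ → V → V) (p : ℝ → V → ℝ) (a R : ℝ) (f : Fin m → V) (b : V)
    (e₁ e₂ : ℝ) : Prop :=
  (∀ ρ ∈ Ioo 0 R, ∀ t t', a < t → t < t' → t' < T → ν * (t' - t) ≤ ρ ^ 2 →
    ∫ τ in Ioc t t', net ν (cw u τ) (p τ) ((nbh f b ρ).indicator 1) ≤ e₁ * ρ) ∨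
  (∀ ρ ∈ Ioo 0 R, ∀ t t', a < t → t < t' → t' < T → ν * (t' - t) ≤ ρ ^ 2 →
    ∫ τ in Ioc t t', net ν (cw u τ) (p τ) (fun x => max (1 - dsf f b x / ρ ^ 2) 0) ≤ e₁ * ρ) ∨
  (∃ g : ℝ → ℝ, IntegrableOn g (Ioo a T) ∧ ∀ᵐ t ∂(volume.restrict (Ioo a T)), ∀ ρ ∈ Ioo 0 R,
    4 * ν * (T - t) ≤ ρ ^ 2 →
      net ν (cw u t) (p t) (fun x => Real.exp (-(dsf f b x / ρ ^ 2))) ≤ g t * ρ + e₂ / ρ)

section
variable {ν T : ℝ} {u : ℝ → V → V} {p : ℝ → V → ℝ} {I : Finset (Fin 3)} {x₀ : V} {w : Fin 3 → V → ℝ}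
  {q : V → ℝ} {M : Matrix (Fin 3) (Fin 3) ℝ} {t : ℝ}

lemma net_ind {S : Set V} (hS : MeasurableSet S) :
    net ν w q (S.indicator 1) = ∫ x in S, (-wk w q x - ν * gw w x) := by
  unfold net
  rw [← integral_indicator hS]
  congr 1
  funext x
  by_cases hx : x ∈ S
  · rw [indicator_of_mem hx, indicator_of_mem hx, Pi.one_apply, mul_one]
  · rw [indicator_of_notMem hx, indicator_of_notMem hx, mul_zero]

lemma net_uM (h : HS ν T u p) (hM : SO M) (ht : t ∈ Ioo 0 T) (W : V → ℝ) :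
    net ν (cw (uM M u) t) (pM M p t) (fun x => W (lm M x)) = net ν (cw u t) (p t) W := by
  unfold net
  simp only [wk_uM h hM ht, gw_uM h hM ht]
  have e := int_lm hM (fun x => (-wk (cw u t) (p t) x - ν * gw (cw u t) x) * W x) univ
  rw [preimage_univ, Measure.restrict_univ] at e
  exact e

lemma net_gs (hw : ∀ i, HF (w i)) (hq : HF q) (ρ : ℝ) : net ν w q (gs I x₀ ρ)
    = -(∫ x, wk w q x * gs I x₀ ρ x) - ν * ∫ x, gw w x * gs I x₀ ρ x := by
  have hm : Measurable (gs I x₀ ρ) := by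
    have h1 : Continuous (gs I x₀ ρ) := by
      unfold gs
      exact Real.continuous_exp.comp ((qI_cont I x₀).div_const _).neg
    exact h1.measurable
  have hb : ∀ x : V, ‖gs I x₀ ρ x‖ ≤ 1 := by
    intro x
    unfold gs
    rw [Real.norm_eq_abs, abs_of_pos (Real.exp_pos _), Real.exp_le_one_iff, neg_nonpos]
    exact div_nonneg (qI_nonneg I x₀ x) (sq_nonneg ρ)
  have i1 : Integrable fun x => wk w q x * gs I x₀ ρ x :=
    (wk_int hw hq).mul_bdd hm.aestronglyMeasurable (Eventually.of_forall hb)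
  have i2 : Integrable fun x => gw w x * gs I x₀ ρ x :=
    (gw_int hw).mul_bdd hm.aestronglyMeasurable (Eventually.of_forall hb)
  have i1' : Integrable fun x => -(wk w q x * gs I x₀ ρ x) := i1.neg
  unfold net
  rw [← integral_neg, ← integral_const_mul, ← integral_sub i1' (i2.const_mul ν)]
  congr 1
  funext x
  ring

end

lemma gF_fin {ν T : ℝ} {u : ℝ → V → V} {p : ℝ → V → ℝ} (h : HS ν T u p) {τ : ℝ}
    (hτ : τ ∈ Ioo 0 T) : ∑ j, gF (cw u τ) (p τ) (cw u τ j) ≠ (⊤ : ℝ≥0∞) := by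
  obtain ⟨Cp, hCp, hp⟩ := press_bd
  have hgf : ∫⁻ x, ENNReal.ofReal (gw (cw u τ) x) ≠ ⊤ :=
    (gw_int fun i => h.cw_HF hτ i).lintegral_lt_top.ne
  have hE : ∫⁻ x, ENNReal.ofReal (nw (cw u τ) x) ≤ ENNReal.ofReal (en u τ) + 1 := by
    rw [nw_en fun i => h.cw_HF hτ i]
    exact le_self_add
  refine (ENNReal.sum_lt_top.2 fun j _ => ?_).ne
  refine lt_top_iff_ne_top.2 (ne_top_of_le_ne_top ?_ (gF_le hp h hτ le_add_self hE j))
  refine ENNReal.mul_ne_top (ENNReal.add_ne_top.2 ⟨by norm_num,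
      ENNReal.mul_ne_top ENNReal.ofReal_ne_top (by norm_num)⟩) (ENNReal.mul_ne_top ?_ ?_)
  · exact ENNReal.pow_ne_top (ENNReal.add_ne_top.2 ⟨ENNReal.ofReal_ne_top, ENNReal.one_ne_top⟩)
  · exact ENNReal.add_ne_top.2 ⟨ENNReal.one_ne_top, hgf⟩

/-- The criterion for a fixed viscosity. -/
theorem crit_fr : ∃ ε : ℝ, 0 < ε ∧ ∀ (T : ℝ) (u : ℝ → V → V)
    (p : ℝ → V → ℝ), HS 1 T u p → ∀ a : ℝ, 0 ≤ a → a < T → ∀ (m : ℕ) (f : Fin m → V), 2 ≤ m →
    (∀ i j, ∑ l, f i l * f j l = if i = j then 1 else 0) → ∀ (b : V) (R : ℝ), 0 < R →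
    CR 1 T u p a R f b ε ε →
    ∃ d : ℝ, 0 < d ∧ ∃ M : ℝ, ∀ t ∈ Ioo (T - d) T, ∀ x ∈ nbh f b d, ∀ i, |u t x i| ≤ M := by
  obtain ⟨ε₁, hε₁, hcr₁⟩ := coordD one_pos
  obtain ⟨ε₂, hε₂, hcr₂⟩ := coordC one_pos
  have hm1 : min ε₁ ε₂ ≤ ε₁ := min_le_left _ _
  have hm2 : min ε₁ ε₂ ≤ ε₂ := min_le_right _ _
  refine ⟨min ε₁ ε₂, lt_min hε₁ hε₂, ?_⟩
  intro T u p h a ha haT m f hm hf b R hR hin
  obtain ⟨M, I, hM, hI, hMI⟩ := exists_MI (by omega : 0 < m) hf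
  have hr := OS.HS.rot h hM
  have hq : ∀ y : V, qI I (lm M b) y = dsf f b (lm M y) := by
    intro y
    have h1 := hMI (fun l => lm M y l - b l)
    unfold dsf
    rw [← h1]
    unfold qI
    refine Finset.sum_congr rfl fun i _ => ?_
    have h2 : lm M (fun l => lm M y l - b l) = fun l => y l - lm M b l := by
      have h3 : (fun l => lm M y l - b l) = lm M y - b := rfl
      rw [h3, map_sub, hM.lm_lm]
      rfl
    rw [h2]
  have hnb : ∀ ρ : ℝ, 0 < ρ → nb I (lm M b) ρ = (lm M) ⁻¹' (nbh f b ρ) := by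
    intro ρ hρ
    ext y
    show √(qI I (lm M b) y) < ρ ↔ dsf f b (lm M y) < ρ ^ 2
    rw [Real.sqrt_lt' hρ, hq]
  have key : ∃ d Q : ℝ, 0 < d ∧ ∀ t ∈ Ioo (T - d) T, ∀ x : V, dI I (lm M b) x < d →
      ‖uM M u t x‖ ≤ Q := by
    rcases hin with hin | hin | ⟨g, hg, hin⟩
    · refine hcr₁ T (uM M u) (pM M p) hr a ha haT I (lm M b) R (by omega) hR (Or.inl ?_)
      intro ρ hρ t t' h1 h2 h3 h4
      have h5 := hin ρ hρ t t' h1 h2 h3 (by rw [one_mul]; exact h4)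
      refine le_trans (le_of_eq ?_) (h5.trans (mul_le_mul_of_nonneg_right hm1 hρ.1.le))
      refine setIntegral_congr_fun measurableSet_Ioc fun τ hτ => ?_
      have hτ0 : τ ∈ Ioo 0 T := ⟨(ha.trans_lt h1).trans hτ.1, hτ.2.trans_lt h3⟩
      rw [← net_uM h hM hτ0]
      have e1 : (fun x => (nbh f b ρ).indicator (1 : V → ℝ) (lm M x))
          = (nb I (lm M b) ρ).indicator 1 := by
        rw [hnb ρ hρ.1]
        rfl
      rw [e1, net_ind nb_meas]
      rfl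
    · refine hcr₁ T (uM M u) (pM M p) hr a ha haT I (lm M b) R (by omega) hR (Or.inr ?_)
      intro ρ hρ t t' h1 h2 h3 h4
      have h5 := hin ρ hρ t t' h1 h2 h3 (by rw [one_mul]; exact h4)
      refine le_trans (le_of_eq ?_) (h5.trans (mul_le_mul_of_nonneg_right hm1 hρ.1.le))
      refine setIntegral_congr_fun measurableSet_Ioc fun τ hτ => ?_
      have hτ0 : τ ∈ Ioo 0 T := ⟨(ha.trans_lt h1).trans hτ.1, hτ.2.trans_lt h3⟩
      have hF := gF_fin hr hτ0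
      rw [← net_uM h hM hτ0, Ah_net (fun i => hr.cw_HF hτ0 i) (hr.div τ hτ0) (hr.p_HF hτ0) hρ.1 hF]
      unfold net
      simp only [hq]
    · refine hcr₂ T (uM M u) (pM M p) hr a ha haT I (lm M b) R g (by omega) hR hg (Or.inr ?_)
      filter_upwards [hin, ae_restrict_mem measurableSet_Ioo] with τ hτ hτm
      intro ρ hρ hρR hρT
      have hτ0 : τ ∈ Ioo 0 T := ⟨ha.trans_lt hτm.1, hτm.2⟩
      have h1 := hτ ρ ⟨hρ, hρR⟩ hρT
      rw [← net_uM h hM hτ0] at h1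
      have e1 : (fun x => Real.exp (-(dsf f b (lm M x) / ρ ^ 2))) = gs I (lm M b) ρ := by
        funext x
        unfold gs
        rw [hq]
      rw [e1, net_gs (fun i => hr.cw_HF hτ0 i) (hr.p_HF hτ0)] at h1
      have h2 : min ε₁ ε₂ / ρ ≤ ε₂ / ρ := div_le_div_of_nonneg_right hm2 hρ.le
      linarith
  obtain ⟨d, Q, hd, hQ⟩ := key
  refine ⟨d, hd, ∑ i, ∑ k, |M i k| * |Q|, fun t ht x hx i => ?_⟩
  have hx' : dI I (lm M b) (lm M x) < d := by
    have h1 : lm M x ∈ nb I (lm M b) d := by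
      rw [hnb d hd]
      show lm M (lm M x) ∈ nbh f b d
      rw [hM.lm_lm]
      exact hx
    exact h1
  have e1 : u t x i = ∑ k, M i k * uM M u t (lm M x) k := by
    have k1 : (fun k => uM M u t (lm M x) k) = lm M (u t x) := by
      funext k
      unfold uM
      rw [hM.lm_lm, lm_apply]
    have k2 : uM M u t (lm M x) = lm M (u t x) := k1
    rw [k2, ← lm_apply, hM.lm_lm]
  rw [e1]
  have k3 : |∑ k, M i k * uM M u t (lm M x) k| ≤ ∑ k, |M i k| * |Q| := by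
    refine (Finset.abs_sum_le_sum_abs _ _).trans (Finset.sum_le_sum fun k _ => ?_)
    rw [abs_mul]
    have k4 := norm_le_pi_norm (uM M u t (lm M x)) k
    rw [Real.norm_eq_abs] at k4
    exact mul_le_mul_of_nonneg_left ((k4.trans (hQ t ht (lm M x) hx')).trans (le_abs_self Q))
      (abs_nonneg _)
  refine k3.trans ?_
  exact single1 (F := fun i => ∑ k, |M i k| * |Q|)
    (fun i => Finset.sum_nonneg fun k _ => by positivity) i

end Pool.Agent.H305.EG
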