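import Pool.Agent.H305.EG.Fr

/-!
The criterion along backward heat kernels.
-/

set_option autoImplicit false

open MeasureTheory Set Metric Filter Topology
open scoped ContDiff ENNReal

namespace Pool.Agent.H305.EG

open H459R3.NS W221.NS Pool.Agent.V1183.PM Pool.Agent.H305.OS Pool.Agent.H305.SL Pool.Agent.H305.PL
  Pool.Agent.H305.EF

section
variable {ν T t₀ E t₁ s T' R ρ ε t h₀ : ℝ} {u : ℝ → V → V} {p : ℝ → V → ℝ} {I : Finset (Fin 3)} {x₀ : V}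
  {n : ℕ} {F : ℝ → ℝ}

lemma E0_eq (k : ℕ) (z : ℝ) : Ek k 1 0 z = ((√z)⁻¹) ^ k := by
  unfold Ek
  simp

/-- One window. -/
lemma hk_win (hts : t ≤ s) (hs : s < T') (hε : 0 ≤ ε) (hF : IntegrableOn F (Ioc t s))
    (h2 : T' - t ≤ 2 * (T' - s))
    (hB : ∀ t', t ≤ t' → t' < s → ∫ τ in Ioc t' s, F τ ≤ ε * √(T' - t')) :
    ∫ τ in Ioc t s, ((√(T' - τ))⁻¹) ^ (n + 1) * F τ ≤ 3 / 2 * ε * ((√(T' - s))⁻¹) ^ n := by
  have hz : 0 < T' - s := by linarith
  have hr : 0 < √(T' - s) := Real.sqrt_pos.2 hz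
  have h3 : ∀ t' ∈ Icc t s, ∫ τ in Ioc t' s, F τ ≤ 3 / 2 * ε * √(T' - s) := by
    intro t' ht'
    rcases eq_or_lt_of_le ht'.2 with h4 | h4
    · rw [h4, Ioc_self]
      simp only [Measure.restrict_empty, integral_zero_measure]
      positivity
    · refine (hB t' ht'.1 h4).trans ?_
      have h5 : √(T' - t') ≤ 3 / 2 * √(T' - s) := by
        rw [Real.sqrt_le_left (by positivity), mul_pow, Real.sq_sqrt hz.le]
        linarith [ht'.1]
      calc ε * √(T' - t') ≤ ε * (3 / 2 * √(T' - s)) := mul_le_mul_of_nonneg_left h5 hε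
        _ = _ := by ring
  have h4 := bon_inc (α := t) (β := s) (w := fun τ => Ek (n + 1) 1 0 (T' - τ))
    (w' := fun τ => Ek (n + 1) 1 0 (T' - τ) * ((n + 1 : ℕ) / (2 * (T' - τ))
      - 0 ^ 2 / (4 * 1 * (T' - τ) ^ 2))) (F := F) (B₀ := 3 / 2 * ε * √(T' - s)) hts
    (fun τ hτ => Ek_deriv one_pos (by omega) (by linarith [hτ.2])) ?_ ?_ Ek_nonneg hF h3
  · simp only [E0_eq] at h4
    refine h4.trans (le_of_eq ?_)
    rw [pow_succ]
    field_simp
  · refine (Ek_cont (k := n + 1) (ρ := 0) (t₁ := t) one_pos hs).mul (ContinuousOn.sub ?_ ?_)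
    · refine ContinuousOn.div continuousOn_const (by fun_prop) fun τ hτ => ?_
      have : 0 < T' - τ := by linarith [hτ.2]
      positivity
    · refine ContinuousOn.div continuousOn_const (by fun_prop) fun τ hτ => ?_
      have : 0 < T' - τ := by linarith [hτ.2]
      positivity
  · intro τ hτ
    have h0 : 0 < T' - τ := by linarith [hτ.2]
    refine mul_nonneg Ek_nonneg ?_
    have : (0 : ℝ) ≤ (n + 1 : ℕ) / (2 * (T' - τ)) := by positivity
    simpa using this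

/-- All windows. -/
lemma hk_sum (hn : 1 ≤ n) (hε : 0 ≤ ε) (hsT : s < T') (hF : IntegrableOn F (Ioc t₀ s))
    (hB : ∀ t t', t₀ ≤ t → t < t' → t' ≤ s → T' - t ≤ 2 * (T' - t') →
      ∫ τ in Ioc t t', F τ ≤ ε * √(T' - t)) (hts : t₀ ≤ s) :
    ∫ τ in Ioc t₀ s, ((√(T' - τ))⁻¹) ^ (n + 1) * F τ ≤ 6 * ε * ((√(T' - s))⁻¹) ^ n := by
  have hi : ∀ a b : ℝ, t₀ ≤ a → b ≤ s → IntegrableOn (fun τ => ((√(T' - τ))⁻¹) ^ (n + 1) * F τ)
      (Ioc a b) := by
    intro a b ha hb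
    have h1 : IntegrableOn (fun τ => ((√(T' - τ))⁻¹) ^ (n + 1) * F τ) (Ioc t₀ s) := by
      have hr : 0 < √(T' - s) := Real.sqrt_pos.2 (by linarith)
      have hc : ContinuousOn (fun τ => ((√(T' - τ))⁻¹) ^ (n + 1)) (Icc t₀ s) := by
        refine ContinuousOn.pow (ContinuousOn.inv₀ (by fun_prop) fun τ hτ => ?_) _
        exact (Real.sqrt_pos.2 (by linarith [hτ.2])).ne'
      refine hF.bdd_mul ((hc.mono Ioc_subset_Icc_self).aestronglyMeasurable measurableSet_Ioc)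
        (c := ((√(T' - s))⁻¹) ^ (n + 1)) ?_
      refine ae_restrict_of_forall_mem measurableSet_Ioc fun τ hτ => ?_
      rw [Real.norm_eq_abs, abs_of_nonneg (by positivity)]
      exact pow_le_pow_left₀ (by positivity) (inv_anti₀ hr (Real.sqrt_le_sqrt (by linarith [hτ.2]))) _
    exact h1.mono_set (Ioc_subset_Ioc ha hb)
  have key : ∀ (N : ℕ) (s' : ℝ), t₀ ≤ s' → s' ≤ s → T' - t₀ ≤ 2 ^ N * (T' - s') →
      ∫ τ in Ioc t₀ s', ((√(T' - τ))⁻¹) ^ (n + 1) * F τ ≤ 6 * ε * ((√(T' - s'))⁻¹) ^ n := by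
    intro N
    induction N with
    | zero =>
      intro s' h1 h2 h3
      have : s' = t₀ := by
        rw [pow_zero, one_mul] at h3
        linarith
      rw [this, Ioc_self]
      simp only [Measure.restrict_empty, integral_zero_measure]
      positivity
    | succ N ih =>
      intro s' h1 h2 h3
      have hz : 0 < T' - s' := by linarith
      have hr : 0 < √(T' - s') := Real.sqrt_pos.2 hz
      have hP : 0 ≤ ε * ((√(T' - s'))⁻¹) ^ n := by positivity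
      obtain ⟨t₂, ht₂⟩ : ∃ t₂, t₂ = T' - 2 * (T' - s') := ⟨_, rfl⟩
      rcases le_or_gt t₂ t₀ with h4 | h4
      · refine (hk_win h1 (by linarith) hε (hF.mono_set (Ioc_subset_Ioc_right h2)) (by linarith)
          fun t' h5 h6 => hB t' s' h5 h6 h2 (by linarith)).trans ?_
        nlinarith
      · have h5 : t₂ ≤ s' := by linarith
        rw [← Ioc_union_Ioc_eq_Ioc h4.le h5, setIntegral_union (by
          rw [Set.disjoint_left]
          intro x hx hx'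
          exact absurd hx.2 (not_le.2 hx'.1)) measurableSet_Ioc (hi _ _ le_rfl (h5.trans h2))
          (hi _ _ h4.le h2)]
        have h6 := ih t₂ h4.le (h5.trans h2) (by
          have : T' - t₂ = 2 * (T' - s') := by linarith
          rw [this]
          calc T' - t₀ ≤ 2 ^ (N + 1) * (T' - s') := h3
            _ = _ := by ring)
        have h7 := hk_win (n := n) h5 (by linarith : s' < T') hε
          (hF.mono_set (Ioc_subset_Ioc h4.le h2)) (by linarith)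
          fun t' h8 h9 => hB t' s' (h4.le.trans h8) h9 h2 (by linarith)
        have h8 : ((√(T' - t₂))⁻¹) ^ n ≤ 3 / 4 * ((√(T' - s'))⁻¹) ^ n := by
          have e1 : T' - t₂ = 2 * (T' - s') := by linarith
          have h9 : 4 / 3 * √(T' - s') ≤ √(T' - t₂) := by
            rw [e1]
            apply Real.le_sqrt_of_sq_le
            rw [mul_pow, Real.sq_sqrt hz.le]
            nlinarith
          have h10 : (√(T' - t₂))⁻¹ ≤ 3 / 4 * (√(T' - s'))⁻¹ := by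
            have := inv_anti₀ (by positivity) h9
            rw [mul_inv] at this
            calc (√(T' - t₂))⁻¹ ≤ (4 / 3)⁻¹ * (√(T' - s'))⁻¹ := this
              _ = _ := by norm_num
          calc ((√(T' - t₂))⁻¹) ^ n ≤ (3 / 4 * (√(T' - s'))⁻¹) ^ n :=
                pow_le_pow_left₀ (by positivity) h10 n
            _ = (3 / 4) ^ n * ((√(T' - s'))⁻¹) ^ n := mul_pow _ _ _
            _ ≤ 3 / 4 * ((√(T' - s'))⁻¹) ^ n := by
                refine mul_le_mul_of_nonneg_right ?_ (by positivity)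
                calc (3 / 4 : ℝ) ^ n ≤ (3 / 4) ^ 1 :=
                      pow_le_pow_of_le_one (by norm_num) (by norm_num) hn
                  _ = _ := pow_one _
        have h9 := mul_le_mul_of_nonneg_left h8 (by positivity : 0 ≤ 6 * ε)
        linarith
  have hz : 0 < T' - s := by linarith
  obtain ⟨N, hN⟩ := pow_unbounded_of_one_lt ((T' - t₀) / (T' - s)) (one_lt_two (α := ℝ))
  rw [div_lt_iff₀ hz] at hN
  exact key N s hts le_rfl hN.le

/-- The energy inequality. -/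
lemma en_H (h : ST ν T u p t₀ E) (hI : I.card = n + 1) (hn : 1 ≤ n) (hε : 0 ≤ ε)
    (hyp : ∀ T' t t', T ≤ T' → T' ≤ T + h₀ → t₀ ≤ t → t < t' → t' < T → T' - t ≤ 2 * (T' - t') →
      ∫ τ in Ioc t t', net ν (cw u τ) (p τ) (fun x => Real.exp (-(qI I x₀ x / (4 * ν * (T' - τ)))))
        ≤ ε * √(T' - t))
    (hs₀ : t₀ ≤ s) (hs : s < T) (hT1 : T ≤ T') (hT2 : T' ≤ T + h₀) :
    enW (cw u s) (kI I ν T' x₀ s) ≤ enW (cw u t₀) (kI I ν T' x₀ t₀)
        + 12 * ε * ((√(T' - s))⁻¹) ^ n := by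
  have hν := h.hν
  have hsT' : s < T' := hs.trans_le hT1
  obtain ⟨i1, i2, e⟩ := gidK h.toHS h.t0 hs₀ hs hsT' I x₀
  obtain ⟨F, hF⟩ : ∃ F : ℝ → ℝ, F = fun τ => net ν (cw u τ) (p τ)
    (fun x => Real.exp (-(qI I x₀ x / (4 * ν * (T' - τ))))) := ⟨_, rfl⟩
  have e1 : ∀ τ ∈ Ioc t₀ s, flW (cw u τ) (p τ) (kI I ν T' x₀ τ)
      - 2 * (ν * dsW (cw u τ) (kI I ν T' x₀ τ)) = 2 * (((√(T' - τ))⁻¹) ^ (n + 1) * F τ) := by
    intro τ hτ
    have hτ0 : τ ∈ Ioo 0 T := ⟨h.t0.trans hτ.1, hτ.2.trans_lt hs⟩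
    have hτ' : τ < T' := hτ.2.trans_lt hsT'
    have hz : 0 < T' - τ := by linarith
    have hw : ∀ i, HF (cw u τ i) := fun i => h.toHS.cw_HF hτ0 i
    have hΦ : BF (kI I ν T' x₀ τ) := kI_BF hν hτ'
    have a1 := wkB_int hw (h.toHS.p_HF hτ0) hΦ
    have a2 := gwB_int hw hΦ
    have e2 : net ν (cw u τ) (p τ) (kI I ν T' x₀ τ)
        = -(∫ x, wk (cw u τ) (p τ) x * kI I ν T' x₀ τ x)
          - ν * ∫ x, gw (cw u τ) x * kI I ν T' x₀ τ x := by
      have a1' : Integrable fun x => -(wk (cw u τ) (p τ) x * kI I ν T' x₀ τ x) := a1.neg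
      unfold net
      rw [← integral_neg, ← integral_const_mul, ← integral_sub a1' (a2.const_mul ν)]
      congr 1
      funext x
      ring
    have e3 : net ν (cw u τ) (p τ) (kI I ν T' x₀ τ) = ((√(T' - τ))⁻¹) ^ (n + 1) * F τ := by
      rw [hF]
      unfold net
      rw [← integral_const_mul]
      congr 1
      funext x
      rw [kI_eq, hI]
      have e4 : -(1 / (4 * ν * (T' - τ))) * qI I x₀ x = -(qI I x₀ x / (4 * ν * (T' - τ))) := by
        field_simp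
      rw [e4]
      ring
    rw [flW_wk hw (h.div τ hτ0) (h.toHS.p_HF hτ0) hΦ, ← e3, e2]
    have e5 : dsW (cw u τ) (kI I ν T' x₀ τ) = ∫ x, gw (cw u τ) x * kI I ν T' x₀ τ x := rfl
    rw [e5]
    ring
  have hFi : IntegrableOn F (Ioc t₀ s) := by
    have h1 : IntegrableOn (fun τ => (√(T' - τ)) ^ (n + 1) * (1 / 2 * (flW (cw u τ) (p τ) (kI I ν T' x₀ τ)
      - 2 * (ν * dsW (cw u τ) (kI I ν T' x₀ τ))))) (Ioc t₀ s) := by
      have hc : Continuous fun τ => (√(T' - τ)) ^ (n + 1) := by fun_prop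
      refine ((i2.sub (i1.const_mul 2)).const_mul (1 / 2)).bdd_mul hc.aestronglyMeasurable
        (c := (√(T' - t₀)) ^ (n + 1)) ?_
      refine ae_restrict_of_forall_mem measurableSet_Ioc fun τ hτ => ?_
      rw [Real.norm_eq_abs, abs_of_nonneg (by positivity)]
      exact pow_le_pow_left₀ (Real.sqrt_nonneg _) (Real.sqrt_le_sqrt (by linarith [hτ.1])) _
    refine IntegrableOn.congr_fun h1 (fun τ hτ => ?_) measurableSet_Ioc
    rw [e1 τ hτ]
    have hr : 0 < √(T' - τ) := Real.sqrt_pos.2 (by linarith [hτ.2])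
    rw [inv_pow]
    field_simp
  have h1 := hk_sum (n := n) (T' := T') hn hε hsT' hFi
    (fun t t' a1 a2 a3 a4 => by rw [hF]; exact hyp T' t t' hT1 hT2 a1 a2 (a3.trans_lt hs) a4) hs₀
  rw [e, setIntegral_congr_fun measurableSet_Ioc e1, integral_const_mul]
  linarith

/-- Smallness. -/
lemma smH (h : ST ν T u p t₀ E) (hI : I.card = n + 1) (hn : 1 ≤ n) (hε : 0 ≤ ε) (hh : 0 < h₀)
    (hyp : ∀ T' t t', T ≤ T' → T' ≤ T + h₀ → t₀ ≤ t → t < t' → t' < T → T' - t ≤ 2 * (T' - t') →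
      ∫ τ in Ioc t t', net ν (cw u τ) (p τ) (fun x => Real.exp (-(qI I x₀ x / (4 * ν * (T' - τ)))))
        ≤ ε * √(T' - t)) {θ : ℝ} (hθ : 0 < θ) :
    ∃ r₁ : ℝ, 0 < r₁ ∧ ∀ r : ℝ, 0 < r → r ≤ r₁ → ∀ s ∈ Ico (T - r ^ 2) T,
      t₀ ≤ s ∧ (√(s + r ^ 2 - s)) ^ n * enW (cw u s) (kI I ν (s + r ^ 2) x₀ s) ≤ θ + 12 * ε := by
  have hν := h.hν
  have hE := h.E0
  have hb : 0 < T - t₀ := by linarith [h.tT]
  have hsb : 0 < √(T - t₀) := Real.sqrt_pos.2 hb
  have hsh : 0 < √h₀ := Real.sqrt_pos.2 hh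
  obtain ⟨K, hK⟩ : ∃ K : ℝ, K = ((√(T - t₀))⁻¹) ^ (n + 1) * E + 1 := ⟨_, rfl⟩
  have hK0 : 0 < K := by rw [hK]; positivity
  refine ⟨min (min (min 1 (√h₀)) (√(T - t₀))) (θ / K), by positivity, ?_⟩
  intro r hr hr1 s hs
  have r1 : r ≤ 1 := hr1.trans ((min_le_left _ _).trans ((min_le_left _ _).trans (min_le_left _ _)))
  have r3 : r ≤ √h₀ := hr1.trans ((min_le_left _ _).trans ((min_le_left _ _).trans (min_le_right _ _)))
  have r2 : r ≤ √(T - t₀) := hr1.trans ((min_le_left _ _).trans (min_le_right _ _))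
  have r4 : r ≤ θ / K := hr1.trans (min_le_right _ _)
  have r2' : r ^ 2 ≤ T - t₀ := by
    calc r ^ 2 ≤ √(T - t₀) ^ 2 := pow_le_pow_left₀ hr.le r2 2
      _ = T - t₀ := Real.sq_sqrt hb.le
  have r3' : r ^ 2 ≤ h₀ := by
    calc r ^ 2 ≤ √h₀ ^ 2 := pow_le_pow_left₀ hr.le r3 2
      _ = h₀ := Real.sq_sqrt hh.le
  have hts : t₀ ≤ s := by linarith [hs.1]
  refine ⟨hts, ?_⟩
  have h1 := en_H (x₀ := x₀) h hI hn hε hyp hts hs.2 (T' := s + r ^ 2) (by linarith [hs.1])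
    (by linarith [hs.2])
  have hr5 : √(s + r ^ 2 - s) = r := by rw [add_sub_cancel_left, Real.sqrt_sq hr.le]
  rw [hr5] at h1 ⊢
  have h2 := enW_up (x₀ := x₀) h hI (T' := s + r ^ 2) (τ := t₀) ⟨le_rfl, h.tT⟩
    (by nlinarith [hs.1, pow_pos hr 2])
  have h3 : ((√(s + r ^ 2 - t₀))⁻¹) ^ (n + 1) ≤ ((√(T - t₀))⁻¹) ^ (n + 1) := by
    refine pow_le_pow_left₀ (by positivity) (inv_anti₀ hsb (Real.sqrt_le_sqrt ?_)) _
    linarith [hs.1]
  have h4 := mul_le_mul_of_nonneg_right h3 hE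
  have h6 := mul_le_mul_of_nonneg_left h1 (pow_nonneg hr.le n)
  have h7 : r ^ n * (enW (cw u t₀) (kI I ν (s + r ^ 2) x₀ t₀) + 12 * ε * (r⁻¹) ^ n)
      = r ^ n * enW (cw u t₀) (kI I ν (s + r ^ 2) x₀ t₀) + 12 * ε := by
    have : r ^ n * (r⁻¹) ^ n = 1 := by
      rw [← mul_pow, mul_inv_cancel₀ hr.ne', one_pow]
    linear_combination (12 * ε) * this
  rw [h7] at h6
  have h8 : r ^ n * enW (cw u t₀) (kI I ν (s + r ^ 2) x₀ t₀) ≤ θ := by
    have h9 : 0 ≤ enW (cw u t₀) (kI I ν (s + r ^ 2) x₀ t₀) := enW_nonneg fun x => kI_nonneg x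
    have h10 : r ^ n ≤ r := by
      calc r ^ n ≤ r ^ 1 := pow_le_pow_of_le_one hr.le r1 hn
        _ = r := pow_one r
    rw [le_div_iff₀ hK0] at r4
    calc r ^ n * enW (cw u t₀) (kI I ν (s + r ^ 2) x₀ t₀)
        ≤ r * K := mul_le_mul h10 (by rw [hK]; linarith) h9 hr.le
      _ ≤ _ := r4
  linarith

end

/-- The criterion along backward heat kernels. -/
theorem critH {ν : ℝ} (hν : 0 < ν) : ∃ ε : ℝ, 0 < ε ∧ ∀ (T : ℝ) (u : ℝ → V → V) (p : ℝ → V → ℝ)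
    (t₀ E : ℝ), ST ν T u p t₀ E → ∀ (I : Finset (Fin 3)) (x₀ : V) (h₀ : ℝ), 2 ≤ I.card → 0 < h₀ →
    (∀ T' t t', T ≤ T' → T' ≤ T + h₀ → t₀ ≤ t → t < t' → t' < T → T' - t ≤ 2 * (T' - t') →
      ∫ τ in Ioc t t', net ν (cw u τ) (p τ) (fun x => Real.exp (-(qI I x₀ x / (4 * ν * (T' - τ)))))
        ≤ ε * √(T' - t)) →
    ∃ δ Q : ℝ, 0 < δ ∧ ∀ t ∈ Ioo (T - δ) T, ∀ x₁ ∈ PI' I x₀, ∀ x ∈ ball x₁ δ, ‖u t x‖ ≤ Q := by
  obtain ⟨θ, hθ, hN⟩ := bN hν
  have hX := Real.exp_pos (1 / (4 * ν))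
  refine ⟨θ / (384 * Real.exp (1 / (4 * ν))), by positivity, ?_⟩
  intro T u p t₀ E h I x₀ h₀ hI hh hyp
  obtain ⟨ε, hεe⟩ : ∃ ε : ℝ, ε = θ / (384 * Real.exp (1 / (4 * ν))) := ⟨_, rfl⟩
  rw [← hεe] at hyp
  have hε : 0 ≤ ε := by rw [hεe]; positivity
  have hcard : I.card ≤ 3 := by
    have h1 := Finset.card_le_univ I
    rwa [Fintype.card_fin] at h1
  obtain ⟨n, hn⟩ : ∃ n, I.card = n + 1 := ⟨I.card - 1, by omega⟩
  have hn1 : 1 ≤ n := by omega
  obtain ⟨r₁, hr₁, hsm⟩ := smH h hn hn1 hε hh hyp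
    (θ := θ / (32 * Real.exp (1 / (4 * ν)))) (by positivity)
  refine hN T u p t₀ E h (PI' I x₀) (r₁ / 2) (by positivity) ?_
  intro x₁ hx₁ R hR hR1 s hs hts
  obtain ⟨-, h2⟩ := hsm (2 * R) (by positivity) (by linarith) s ⟨by nlinarith [hs.1], hs.2⟩
  have h3 := nw_low (x₀ := x₀) h hn ⟨hts, hs.2⟩ (ρ := 2 * R) (by positivity) h2
  refine (lintegral_mono_set (ball_nb hx₁ hR)).trans (h3.trans (ENNReal.ofReal_le_ofReal ?_))
  have h4 : (2 : ℝ) ^ (n + 1) ≤ 8 := by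
    calc (2 : ℝ) ^ (n + 1) ≤ 2 ^ 3 := pow_le_pow_right₀ (by norm_num) (by omega)
      _ = 8 := by norm_num
  have h5 : Real.exp (1 / (4 * ν)) * (θ / (32 * Real.exp (1 / (4 * ν))) + 12 * ε) ≤ θ / 16 := by
    rw [hεe]
    have e1 : Real.exp (1 / (4 * ν)) * (θ / (32 * Real.exp (1 / (4 * ν)))
        + 12 * (θ / (384 * Real.exp (1 / (4 * ν))))) = θ / 16 := by
      field_simp
      ring
    exact e1.le
  have h6 : 0 ≤ Real.exp (1 / (4 * ν)) * (θ / (32 * Real.exp (1 / (4 * ν))) + 12 * ε) := by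
    positivity
  calc 2 ^ (n + 1) * Real.exp (1 / (4 * ν)) * (θ / (32 * Real.exp (1 / (4 * ν))) + 12 * ε) * (2 * R)
      = 2 ^ (n + 1) * (Real.exp (1 / (4 * ν)) * (θ / (32 * Real.exp (1 / (4 * ν))) + 12 * ε)) * (2 * R) := by
        ring
    _ ≤ 8 * (θ / 16) * (2 * R) := by
        refine mul_le_mul_of_nonneg_right (mul_le_mul h4 h5 h6 (by norm_num)) (by positivity)
    _ = θ * R := by ring

end Pool.Agent.H305.EG
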