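import Pool.Agent.H305.EG.Fr

/-!
Scaling to the viscosity one.
-/

set_option autoImplicit false

open MeasureTheory Set Metric Filter Topology
open scoped ContDiff ENNReal

namespace Pool.Agent.H305.EG

open H459R3.NS W221.NS Pool.Agent.V1183.PM Pool.Agent.H305.OS Pool.Agent.H305.SL Pool.Agent.H305.PL
  Pool.Agent.H305.EF
open Pool.Agent.H305.TI (it it_nil it_cons it_sm)

/-- The rescaled velocity. -/
noncomputable def us (k : ℝ) (u : ℝ → V → V) : ℝ → V → V := fun τ x i => k * u (k * τ) x i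

/-- The rescaled pressure. -/
noncomputable def ps (k : ℝ) (p : ℝ → V → ℝ) : ℝ → V → ℝ := fun τ x => k ^ 2 * p (k * τ) x

section
variable {ν T k t : ℝ} {u : ℝ → V → V} {p : ℝ → V → ℝ} {F : ℝ → V → ℝ} {f : V → ℝ}
  {w : Fin 3 → V → ℝ} {q : V → ℝ}

lemma pd_k (hf : ContDiff ℝ ∞ f) (c : ℝ) (j : Fin 3) :
    H459R3.NS.pd j (fun x => c * f x) = fun x => c * H459R3.NS.pd j f x := by
  have := it_cmul [j] c hf
  simpa only [it_cons, it_nil] using this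

lemma lp_k (hf : ContDiff ℝ ∞ f) (c : ℝ) (x : V) :
    lp (fun x => c * f x) x = c * lp f x := by
  show ∑ j, H459R3.NS.pd j (H459R3.NS.pd j fun x => c * f x) x = c * ∑ j, H459R3.NS.pd j (H459R3.NS.pd j f) x
  rw [Finset.mul_sum]
  refine Finset.sum_congr rfl fun j _ => ?_
  rw [pd_k hf c j, pd_k (Pool.Agent.W583.MD.sm_pd hf j) c j]

lemma nl_k (hw : ∀ i, ContDiff ℝ ∞ (w i)) (c : ℝ) (i : Fin 3) (x : V) :
    nl (fun i x => c * w i x) i x = c ^ 2 * nl w i x := by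
  show ∑ j, (c * w j x) * H459R3.NS.pd j (fun x => c * w i x) x = c ^ 2 * ∑ j, w j x * H459R3.NS.pd j (w i) x
  rw [Finset.mul_sum]
  refine Finset.sum_congr rfl fun j _ => ?_
  rw [pd_k (hw i) c j]
  ring

lemma J_k (hF : J T F) (hν : 0 < ν) (c : ℝ) : J (ν * T) (fun τ x => c * F (ν⁻¹ * τ) x) := by
  unfold J at hF ⊢
  refine contDiffOn_const.mul ?_
  have h1 : ContDiff ℝ ∞ fun z : ℝ × V => ((ν⁻¹ * z.1, z.2) : ℝ × V) :=
    (contDiff_const.mul contDiff_fst).prodMk contDiff_snd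
  refine hF.comp h1.contDiffOn ?_
  rintro ⟨τ, x⟩ ⟨h2, -⟩
  refine ⟨⟨mul_pos (inv_pos.2 hν) h2.1, ?_⟩, mem_univ _⟩
  show ν⁻¹ * τ < T
  rw [inv_mul_lt_iff₀ hν]
  exact h2.2

lemma UF_k (hν : 0 < ν) {s t : ℝ} (hF : UF (Icc (ν⁻¹ * s) (ν⁻¹ * t)) F) (c : ℝ) :
    UF (Icc s t) (fun τ x => c * F (ν⁻¹ * τ) x) := by
  have h1 := hF.cmul c
  have h2 : ∀ τ ∈ Icc s t, ν⁻¹ * τ ∈ Icc (ν⁻¹ * s) (ν⁻¹ * t) := fun τ hτ =>
    ⟨mul_le_mul_of_nonneg_left hτ.1 (by positivity), mul_le_mul_of_nonneg_left hτ.2 (by positivity)⟩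
  refine ⟨fun τ hτ => h1.sm _ (h2 τ hτ), fun l => ?_⟩
  obtain ⟨C, hC, hb⟩ := h1.bd l
  exact ⟨C, hC, fun τ hτ => hb _ (h2 τ hτ)⟩

lemma cw_us (k : ℝ) (u : ℝ → V → V) (τ : ℝ) : cw (us k u) τ = fun i x => k * cw u (k * τ) i x := rfl

lemma mem_k (hν : 0 < ν) {τ : ℝ} : τ ∈ Ioo 0 (ν * T) ↔ ν⁻¹ * τ ∈ Ioo 0 T := by
  simp only [mem_Ioo]
  rw [inv_mul_lt_iff₀ hν]
  refine and_congr_left fun _ => ?_
  exact (mul_pos_iff_of_pos_left (inv_pos.2 hν)).symm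

lemma HS_k (h : HS ν T u p) : HS 1 (ν * T) (us ν⁻¹ u) (ps ν⁻¹ p) := by
  have hν := h.hν
  have hsm : ∀ t ∈ Ioo 0 T, ∀ i, ContDiff ℝ ∞ (fun x => u t x i) := fun t ht i =>
    (h.cw_HF ht i).sm
  refine ⟨one_pos, fun i => J_k (h.ju i) hν _, J_k h.jp hν _, ?_, ?_, ?_, ?_⟩
  · intro s t hs ht i
    refine UF_k hν (h.uu _ _ (by positivity) ?_ i) _
    rw [inv_mul_lt_iff₀ hν]
    exact ht
  · intro s t hs ht
    refine UF_k hν (h.up _ _ (by positivity) ?_) _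
    rw [inv_mul_lt_iff₀ hν]
    exact ht
  · intro t ht x
    have ht' := (mem_k hν).1 ht
    have h1 : ∀ i, H459R3.NS.pd i (fun y => us ν⁻¹ u t y i) x
        = ν⁻¹ * H459R3.NS.pd i (fun y => u (ν⁻¹ * t) y i) x := fun i => by
      have := pd_k (hsm _ ht' i) ν⁻¹ i
      exact congrFun this x
    rw [Finset.sum_congr rfl fun i _ => h1 i, ← Finset.mul_sum, h.div _ ht' x, mul_zero]
  · intro i t ht x
    have ht' := (mem_k hν).1 ht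
    have hd : DifferentiableAt ℝ (fun s => u s x i) (ν⁻¹ * t) := by
      have h1 : ContDiffAt ℝ ∞ (fun z : ℝ × V => u z.1 z.2 i) (ν⁻¹ * t, x) :=
        (h.ju i).contDiffAt ((isOpen_Ioo.prod isOpen_univ).mem_nhds ⟨ht', mem_univ _⟩)
      have h2 : DifferentiableAt ℝ (fun z : ℝ × V => u z.1 z.2 i) (ν⁻¹ * t, x) :=
        h1.differentiableAt (by simp)
      have h3 : DifferentiableAt ℝ (fun s : ℝ => (s, x)) (ν⁻¹ * t) :=
        differentiableAt_id.prodMk (differentiableAt_const x)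
      exact h2.comp (ν⁻¹ * t) h3
    have e1 : deriv (fun s => us ν⁻¹ u s x i) t = ν⁻¹ * (ν⁻¹ * deriv (fun s => u s x i) (ν⁻¹ * t)) := by
      have h1 : HasDerivAt (fun s : ℝ => ν⁻¹ * s) ν⁻¹ t := by
        simpa using (hasDerivAt_id t).const_mul ν⁻¹
      have h2 := (hd.hasDerivAt.comp t h1).const_mul ν⁻¹
      have h3 : deriv (fun s => us ν⁻¹ u s x i) t = _ := h2.deriv
      rw [h3]
      ring
    have e2 : lp (fun y => us ν⁻¹ u t y i) x = ν⁻¹ * lp (fun y => u (ν⁻¹ * t) y i) x :=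
      lp_k (hsm _ ht' i) _ x
    have e3 : nl (fun i y => us ν⁻¹ u t y i) i x = ν⁻¹ ^ 2 * nl (fun i y => u (ν⁻¹ * t) y i) i x :=
      nl_k (w := fun i y => u (ν⁻¹ * t) y i) (hsm _ ht') _ i x
    have e4 : H459R3.NS.pd i (ps ν⁻¹ p t) x = ν⁻¹ ^ 2 * H459R3.NS.pd i (p (ν⁻¹ * t)) x :=
      congrFun (pd_k (h.p_HF ht').sm (ν⁻¹ ^ 2) i) x
    rw [e1, e2, e3, e4, h.mom i _ ht' x]
    field_simp

lemma net_k (h : HS ν T u p) {τ : ℝ} (hτ : τ ∈ Ioo 0 (ν * T)) (W : V → ℝ) :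
    net 1 (cw (us ν⁻¹ u) τ) (ps ν⁻¹ p τ) W = ν⁻¹ ^ 3 * net ν (cw u (ν⁻¹ * τ)) (p (ν⁻¹ * τ)) W := by
  have hν := h.hν
  have hτ' := (mem_k hν).1 hτ
  have hsm : ∀ i, ContDiff ℝ ∞ (cw u (ν⁻¹ * τ) i) := fun i => (h.cw_HF hτ' i).sm
  unfold net
  rw [← integral_const_mul]
  congr 1
  funext x
  have e1 : wk (cw (us ν⁻¹ u) τ) (ps ν⁻¹ p τ) x = ν⁻¹ ^ 3 * wk (cw u (ν⁻¹ * τ)) (p (ν⁻¹ * τ)) x := by
    unfold wk
    rw [Finset.mul_sum]
    refine Finset.sum_congr rfl fun i _ => ?_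
    have e3 : nl (cw (us ν⁻¹ u) τ) i x = ν⁻¹ ^ 2 * nl (cw u (ν⁻¹ * τ)) i x := nl_k hsm _ i x
    have e4 : H459R3.NS.pd i (ps ν⁻¹ p τ) x = ν⁻¹ ^ 2 * H459R3.NS.pd i (p (ν⁻¹ * τ)) x :=
      congrFun (pd_k (h.p_HF hτ').sm (ν⁻¹ ^ 2) i) x
    rw [e3, e4, cw_us]
    ring
  have e2 : gw (cw (us ν⁻¹ u) τ) x = ν⁻¹ ^ 2 * gw (cw u (ν⁻¹ * τ)) x := by
    unfold gw
    rw [Finset.mul_sum]
    refine Finset.sum_congr rfl fun i _ => ?_
    rw [Finset.mul_sum]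
    refine Finset.sum_congr rfl fun k _ => ?_
    have e3 : H459R3.NS.pd k (cw (us ν⁻¹ u) τ i) x = ν⁻¹ * H459R3.NS.pd k (cw u (ν⁻¹ * τ) i) x :=
      congrFun (pd_k (hsm i) ν⁻¹ k) x
    rw [e3]
    ring
  rw [e1, e2]
  field_simp

lemma int_k (hν : 0 < ν) (G : ℝ → ℝ) {s t : ℝ} (hst : s ≤ t) :
    ∫ τ in Ioc s t, G (ν⁻¹ * τ) = ν * ∫ τ in Ioc (ν⁻¹ * s) (ν⁻¹ * t), G τ := by
  have hst' : ν⁻¹ * s ≤ ν⁻¹ * t := mul_le_mul_of_nonneg_left hst (by positivity)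
  rw [← intervalIntegral.integral_of_le hst, ← intervalIntegral.integral_of_le hst',
    intervalIntegral.integral_comp_mul_left G (inv_ne_zero hν.ne'), inv_inv, smul_eq_mul]

lemma ae_k (hν : 0 < ν) {P : ℝ → Prop} {a : ℝ} (h : ∀ᵐ t ∂(volume.restrict (Ioo a T)), P t) :
    ∀ᵐ τ ∂(volume.restrict (Ioo (ν * a) (ν * T))), P (ν⁻¹ * τ) := by
  rw [ae_restrict_iff' measurableSet_Ioo] at h ⊢
  have h1 : Tendsto (fun τ : ℝ => ν⁻¹ * τ) (ae volume) (ae volume) := by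
    exact (Measure.quasiMeasurePreserving_smul (volume : Measure ℝ)
      (inv_ne_zero hν.ne')).tendsto_ae
  filter_upwards [h1.eventually h] with τ hτ hm
  refine hτ ⟨?_, ?_⟩
  · rw [lt_inv_mul_iff₀ hν]
    exact hm.1
  · rw [inv_mul_lt_iff₀ hν]
    exact hm.2

end

/-- The criterion. -/
theorem crit_abs : ∃ ε : ℝ, 0 < ε ∧ ∀ (ν T : ℝ) (u : ℝ → V → V)
    (p : ℝ → V → ℝ), HS ν T u p → ∀ a : ℝ, 0 ≤ a → a < T → ∀ (m : ℕ) (f : Fin m → V), 2 ≤ m →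
    (∀ i j, ∑ l, f i l * f j l = if i = j then 1 else 0) → ∀ (b : V) (R : ℝ), 0 < R →
    CR ν T u p a R f b (ε * ν ^ 2) (ε * ν ^ 3) →
    ∃ d : ℝ, 0 < d ∧ ∃ M : ℝ, ∀ t ∈ Ioo (T - d) T, ∀ x ∈ nbh f b d, ∀ i, |u t x i| ≤ M := by
  obtain ⟨ε, hε, hcr⟩ := crit_fr
  refine ⟨ε, hε, ?_⟩
  intro ν T u p h a ha haT m f hm hf b R hR hin
  have hν := h.hν
  have hw : ∀ W : ℝ → V → ℝ, (∀ ρ ∈ Ioo 0 R, ∀ t t', a < t → t < t' → t' < T → ν * (t' - t) ≤ ρ ^ 2 →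
      ∫ τ in Ioc t t', net ν (cw u τ) (p τ) (W ρ) ≤ ε * ν ^ 2 * ρ) →
      ∀ ρ ∈ Ioo 0 R, ∀ t t', ν * a < t → t < t' → t' < ν * T → 1 * (t' - t) ≤ ρ ^ 2 →
      ∫ τ in Ioc t t', net 1 (cw (us ν⁻¹ u) τ) (ps ν⁻¹ p τ) (W ρ) ≤ ε * ρ := by
    intro W hin ρ hρ t t' h1 h2 h3 h4
    have e1 : ∫ τ in Ioc t t', net 1 (cw (us ν⁻¹ u) τ) (ps ν⁻¹ p τ) (W ρ)
        = ∫ τ in Ioc t t', ν⁻¹ ^ 3 * net ν (cw u (ν⁻¹ * τ)) (p (ν⁻¹ * τ)) (W ρ) := by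
      refine setIntegral_congr_fun measurableSet_Ioc fun τ hτ => ?_
      exact net_k h ⟨((mul_nonneg hν.le ha).trans_lt h1).trans hτ.1, hτ.2.trans_lt h3⟩ _
    have e2 := int_k hν (fun τ => net ν (cw u τ) (p τ) (W ρ)) h2.le
    rw [e1, integral_const_mul, e2]
    have h5 := hin ρ hρ (ν⁻¹ * t) (ν⁻¹ * t') (by rw [lt_inv_mul_iff₀ hν]; exact h1)
      (mul_lt_mul_of_pos_left h2 (by positivity)) (by rw [inv_mul_lt_iff₀ hν]; exact h3) (by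
        rw [← mul_sub, ← mul_assoc, mul_inv_cancel₀ hν.ne']; exact h4)
    calc ν⁻¹ ^ 3 * (ν * ∫ τ in Ioc (ν⁻¹ * t) (ν⁻¹ * t'), net ν (cw u τ) (p τ) (W ρ))
        ≤ ν⁻¹ ^ 3 * (ν * (ε * ν ^ 2 * ρ)) := by gcongr
      _ = ε * ρ := by field_simp
  obtain ⟨d, hd, M, hM⟩ := hcr (ν * T) (us ν⁻¹ u) (ps ν⁻¹ p) (HS_k h) (ν * a) (by positivity)
    (mul_lt_mul_of_pos_left haT hν) m f hm hf b R hR (by
      rcases hin with hin | hin | ⟨g, hg, hin⟩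
      · exact Or.inl (hw _ hin)
      · exact Or.inr (Or.inl (hw _ hin))
      · refine Or.inr (Or.inr ⟨fun τ => ν⁻¹ ^ 3 * g (ν⁻¹ * τ), ?_, ?_⟩)
        · refine Integrable.const_mul ?_ _
          have h2 : IntervalIntegrable g volume a T :=
            (intervalIntegrable_iff_integrableOn_Ioo_of_le haT.le).2 hg
          have h3 := h2.comp_mul_left (c := ν⁻¹)
          have e1 : a / ν⁻¹ = ν * a := by field_simp
          have e2 : T / ν⁻¹ = ν * T := by field_simp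
          rw [e1, e2, intervalIntegrable_iff_integrableOn_Ioo_of_le (by
            exact mul_le_mul_of_nonneg_left haT.le hν.le)] at h3
          exact h3
        · filter_upwards [ae_k hν hin, ae_restrict_mem measurableSet_Ioo] with τ h1 h2 ρ hρ h3
          have hτ0 : τ ∈ Ioo 0 (ν * T) := ⟨(mul_nonneg hν.le ha).trans_lt h2.1, h2.2⟩
          rw [net_k h hτ0]
          have h4 := h1 ρ hρ (by
            have : 4 * ν * (T - ν⁻¹ * τ) = 4 * 1 * (ν * T - τ) := by field_simp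
            rw [this]
            exact h3)
          have hρ0 := hρ.1
          calc ν⁻¹ ^ 3 * net ν (cw u (ν⁻¹ * τ)) (p (ν⁻¹ * τ)) (fun x => Real.exp (-(dsf f b x / ρ ^ 2)))
              ≤ ν⁻¹ ^ 3 * (g (ν⁻¹ * τ) * ρ + ε * ν ^ 3 / ρ) := by gcongr
            _ = _ := by
              field_simp)
  refine ⟨min d (d / ν), by positivity, ν * M, ?_⟩
  intro t ht x hx i
  have h1 : min d (d / ν) ≤ d := min_le_left _ _
  have h2 : min d (d / ν) ≤ d / ν := min_le_right _ _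
  have hx' : x ∈ nbh f b d := by
    have h3 : ∑ i, (∑ l, f i l * (x l - b l)) ^ 2 < (min d (d / ν)) ^ 2 := hx
    exact lt_of_lt_of_le h3 (pow_le_pow_left₀ (by positivity) h1 2)
  have ht' : ν * t ∈ Ioo (ν * T - d) (ν * T) := by
    constructor
    · have h3 : T - d / ν < t := by linarith [ht.1]
      have h4 := mul_lt_mul_of_pos_left h3 hν
      have e : ν * (T - d / ν) = ν * T - d := by field_simp
      linarith
    · exact mul_lt_mul_of_pos_left ht.2 hν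
  have h3 := hM (ν * t) ht' x hx' i
  have e : us ν⁻¹ u (ν * t) x i = ν⁻¹ * u t x i := by
    unfold us
    rw [← mul_assoc, inv_mul_cancel₀ hν.ne', one_mul]
  rw [e, abs_mul, abs_of_pos (inv_pos.2 hν), inv_mul_le_iff₀ hν] at h3
  exact h3

end Pool.Agent.H305.EG
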