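import Pool.Agent.H305.EG.Hk
import Pool.Agent.H305.EG.Scl

/-!
The criterion along backward heat kernels, with frames and scaling.
-/

set_option autoImplicit false

open MeasureTheory Set Metric Filter Topology
open scoped ContDiff ENNReal

namespace Pool.Agent.H305.EG

open H459R3.NS W221.NS Pool.Agent.V1183.PM Pool.Agent.H305.OS Pool.Agent.H305.SL Pool.Agent.H305.PL
  Pool.Agent.H305.EF

/-- The condition along backward heat kernels. -/
def CH {m : ℕ} (ν T : ℝ) (u : ℝ → V → V) (p : ℝ → V → ℝ) (a R : ℝ) (f : Fin m → V) (b : V)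
    (e₁ : ℝ) : Prop :=
  ∀ T' t t', T ≤ T' → a < t → t < t' → t' < T → T' - t ≤ 2 * (T' - t') →
    4 * ν * (T' - t) < R ^ 2 →
    ∫ τ in Ioc t t', net ν (cw u τ) (p τ) (fun x => Real.exp (-(dsf f b x / (4 * ν * (T' - τ)))))
      ≤ e₁ * √(4 * ν * (T' - t))

/-- The criterion with frames. -/
theorem crit_frH : ∃ ε : ℝ, 0 < ε ∧ ∀ (T : ℝ) (u : ℝ → V → V)
    (p : ℝ → V → ℝ), HS 1 T u p → ∀ a : ℝ, 0 ≤ a → a < T → ∀ (m : ℕ) (f : Fin m → V), 2 ≤ m →
    (∀ i j, ∑ l, f i l * f j l = if i = j then 1 else 0) → ∀ (b : V) (R : ℝ), 0 < R →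
    CH 1 T u p a R f b ε →
    ∃ d : ℝ, 0 < d ∧ ∃ M : ℝ, ∀ t ∈ Ioo (T - d) T, ∀ x ∈ nbh f b d, ∀ i, |u t x i| ≤ M := by
  obtain ⟨ε₁, hε₁, hcr⟩ := critH one_pos
  refine ⟨ε₁ / 2, by positivity, ?_⟩
  intro T u p h a ha haT m f hm hf b R hR hin
  obtain ⟨M, I, hM, hI, hMI⟩ := exists_MI (by omega : 0 < m) hf
  have hr := OS.HS.rot h hM
  have hT : 0 < T := by linarith
  have hq : ∀ y : V, qI I (lm M b) y = dsf f b (lm M y) := by
    intro y
    have h1 := hMI (fun l => lm M y l - b l)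
    unfold dsf
    rw [← h1]
    unfold qI
    refine Finset.sum_congr rfl fun i _ => ?_
    have h2 : lm M (fun l => lm M y l - b l) = fun l => y l - lm M b l := by
      have h3 : (fun l => lm M y l - b l) = lm M y - b := rfl
      rw [h3, map_sub, hM.lm_lm]
      rfl
    rw [h2]
  obtain ⟨c, hc⟩ : ∃ c : ℝ, c = R ^ 2 / 16 := ⟨_, rfl⟩
  have hc0 : 0 < c := by rw [hc]; positivity
  obtain ⟨t₀, ht₀, E, hST⟩ := ST_of hr (a := max ((a + T) / 2) (T - c))
    (lt_max_of_lt_left (by linarith)) (max_lt (by linarith) (by linarith))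
  have ht₀a : (a + T) / 2 < t₀ := (le_max_left _ _).trans_lt ht₀.1
  have ht₀b : T - c < t₀ := (le_max_right _ _).trans_lt ht₀.1
  obtain ⟨δ, Q, hδ, hQ⟩ := hcr T (uM M u) (pM M p) t₀ E hST I (lm M b) c (by omega) hc0 (by
    intro T' t t' h1 h2 h3 h4 h5 h6
    have h7 := hin T' t t' h1 (by linarith) h4 h5 h6 (by
      have : 4 * 1 * (T' - t) < 4 * 1 * (4 * c) := by linarith
      rw [hc] at this
      linarith)
    have e1 : √(4 * 1 * (T' - t)) = 2 * √(T' - t) := by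
      rw [show 4 * 1 * (T' - t) = 2 ^ 2 * (T' - t) by ring, Real.sqrt_mul (by positivity),
        Real.sqrt_sq (by norm_num)]
    rw [e1] at h7
    refine le_trans (le_of_eq ?_) (h7.trans (le_of_eq (by ring)))
    refine setIntegral_congr_fun measurableSet_Ioc fun τ hτ => ?_
    have hτ0 : τ ∈ Ioo 0 T := ⟨hST.t0.trans_le (h3.trans hτ.1.le), hτ.2.trans_lt h5⟩
    rw [← net_uM h hM hτ0]
    simp only [hq])
  refine ⟨δ, hδ, ∑ i, ∑ k, |M i k| * |Q|, fun t ht x hx i => ?_⟩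
  have hx' : dI I (lm M b) (lm M x) < δ := by
    rw [dI, Real.sqrt_lt' hδ, hq, hM.lm_lm]
    exact hx
  have hQ' : ‖uM M u t (lm M x)‖ ≤ Q := by
    refine hQ t ht (fun i => if i ∈ I then lm M b i else lm M x i)
      (fun i hi => by simp only [if_pos hi]) (lm M x) ?_
    rw [mem_ball, dist_pi_lt_iff hδ]
    intro i
    by_cases hi : i ∈ I
    · simp only [if_pos hi]
      rw [Real.dist_eq]
      exact (abs_le_dI hi).trans_lt hx'
    · simp only [if_neg hi, dist_self]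
      exact hδ
  have e1 : u t x i = ∑ k, M i k * uM M u t (lm M x) k := by
    have k1 : (fun k => uM M u t (lm M x) k) = lm M (u t x) := by
      funext k
      unfold uM
      rw [hM.lm_lm, lm_apply]
    have k2 : uM M u t (lm M x) = lm M (u t x) := k1
    rw [k2, ← lm_apply, hM.lm_lm]
  rw [e1]
  have k3 : |∑ k, M i k * uM M u t (lm M x) k| ≤ ∑ k, |M i k| * |Q| := by
    refine (Finset.abs_sum_le_sum_abs _ _).trans (Finset.sum_le_sum fun k _ => ?_)
    rw [abs_mul]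
    have k4 := norm_le_pi_norm (uM M u t (lm M x)) k
    rw [Real.norm_eq_abs] at k4
    exact mul_le_mul_of_nonneg_left ((k4.trans hQ').trans (le_abs_self Q)) (abs_nonneg _)
  refine k3.trans ?_
  exact single1 (F := fun i => ∑ k, |M i k| * |Q|)
    (fun i => Finset.sum_nonneg fun k _ => by positivity) i

/-- The criterion. -/
theorem crit_absH : ∃ ε : ℝ, 0 < ε ∧ ∀ (ν T : ℝ) (u : ℝ → V → V)
    (p : ℝ → V → ℝ), HS ν T u p → ∀ a : ℝ, 0 ≤ a → a < T → ∀ (m : ℕ) (f : Fin m → V), 2 ≤ m →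
    (∀ i j, ∑ l, f i l * f j l = if i = j then 1 else 0) → ∀ (b : V) (R : ℝ), 0 < R →
    CH ν T u p a R f b (ε * ν ^ 2) →
    ∃ d : ℝ, 0 < d ∧ ∃ M : ℝ, ∀ t ∈ Ioo (T - d) T, ∀ x ∈ nbh f b d, ∀ i, |u t x i| ≤ M := by
  obtain ⟨ε, hε, hcr⟩ := crit_frH
  refine ⟨ε, hε, ?_⟩
  intro ν T u p h a ha haT m f hm hf b R hR hin
  have hν := h.hν
  obtain ⟨d, hd, M, hM⟩ := hcr (ν * T) (us ν⁻¹ u) (ps ν⁻¹ p) (HS_k h) (ν * a) (by positivity)
    (mul_lt_mul_of_pos_left haT hν) m f hm hf b R hR (by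
      intro T' t t' h0 h1 h2 h3 h4 h5
      have e0 : ∀ τ : ℝ, 4 * ν * (ν⁻¹ * T' - ν⁻¹ * τ) = 4 * 1 * (T' - τ) := by
        intro τ
        field_simp
      have e1 : ∫ τ in Ioc t t', net 1 (cw (us ν⁻¹ u) τ) (ps ν⁻¹ p τ)
            (fun x => Real.exp (-(dsf f b x / (4 * 1 * (T' - τ)))))
          = ∫ τ in Ioc t t', ν⁻¹ ^ 3 * net ν (cw u (ν⁻¹ * τ)) (p (ν⁻¹ * τ))
            (fun x => Real.exp (-(dsf f b x / (4 * ν * (ν⁻¹ * T' - ν⁻¹ * τ))))) := by
        refine setIntegral_congr_fun measurableSet_Ioc fun τ hτ => ?_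
        simp only [e0]
        exact net_k h ⟨((mul_nonneg hν.le ha).trans_lt h1).trans hτ.1, hτ.2.trans_lt h3⟩ _
      have e2 := int_k hν (fun τ => net ν (cw u τ) (p τ)
        (fun x => Real.exp (-(dsf f b x / (4 * ν * (ν⁻¹ * T' - τ)))))) h2.le
      rw [e1, integral_const_mul, e2]
      have h6 := hin (ν⁻¹ * T') (ν⁻¹ * t) (ν⁻¹ * t') (by rw [le_inv_mul_iff₀ hν]; exact h0)
        (by rw [lt_inv_mul_iff₀ hν]; exact h1)
        (mul_lt_mul_of_pos_left h2 (by positivity)) (by rw [inv_mul_lt_iff₀ hν]; exact h3) (by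
          have h7 := mul_le_mul_of_nonneg_left h4 (by positivity : 0 ≤ ν⁻¹)
          calc ν⁻¹ * T' - ν⁻¹ * t = ν⁻¹ * (T' - t) := by ring
            _ ≤ ν⁻¹ * (2 * (T' - t')) := h7
            _ = _ := by ring) (by rw [e0]; exact h5)
      rw [e0] at h6
      calc ν⁻¹ ^ 3 * (ν * ∫ τ in Ioc (ν⁻¹ * t) (ν⁻¹ * t'), net ν (cw u τ) (p τ)
            (fun x => Real.exp (-(dsf f b x / (4 * ν * (ν⁻¹ * T' - τ))))))
          ≤ ν⁻¹ ^ 3 * (ν * (ε * ν ^ 2 * √(4 * 1 * (T' - t)))) := by gcongr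
        _ = ε * √(4 * 1 * (T' - t)) := by field_simp)
  refine ⟨min d (d / ν), by positivity, ν * M, ?_⟩
  intro t ht x hx i
  have h1 : min d (d / ν) ≤ d := min_le_left _ _
  have h2 : min d (d / ν) ≤ d / ν := min_le_right _ _
  have hx' : x ∈ nbh f b d := by
    have h3 : ∑ i, (∑ l, f i l * (x l - b l)) ^ 2 < (min d (d / ν)) ^ 2 := hx
    exact lt_of_lt_of_le h3 (pow_le_pow_left₀ (by positivity) h1 2)
  have ht' : ν * t ∈ Ioo (ν * T - d) (ν * T) := by
    constructor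
    · have h3 : T - d / ν < t := by linarith [ht.1]
      have h4 := mul_lt_mul_of_pos_left h3 hν
      have e : ν * (T - d / ν) = ν * T - d := by field_simp
      linarith
    · exact mul_lt_mul_of_pos_left ht.2 hν
  have h3 := hM (ν * t) ht' x hx' i
  have e : us ν⁻¹ u (ν * t) x i = ν⁻¹ * u t x i := by
    unfold us
    rw [← mul_assoc, inv_mul_cancel₀ hν.ne', one_mul]
  rw [e, abs_mul, abs_of_pos (inv_pos.2 hν), inv_mul_le_iff₀ hν] at h3
  exact h3

end Pool.Agent.H305.EG
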