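import Pool.Agent.H305.EG.Pc

/-!
Boundedness far away, and the existence of a singular point.
-/

set_option autoImplicit false

open MeasureTheory Set Metric Filter Topology
open scoped ContDiff ENNReal

namespace Pool.Agent.H305.EG

open H459R3.NS W221.NS Pool.Agent.V1183.PM Pool.Agent.H305.OS Pool.Agent.H305.SL Pool.Agent.H305.PL
  Pool.Agent.H305.EF

section
variable {ν T t₀ E : ℝ} {u : ℝ → V → V} {p : ℝ → V → ℝ}

lemma far_gw (h : ST ν T u p t₀ E) {η : ℝ≥0∞} (hη : 0 < η) : ∃ k : ℕ,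
    ∫⁻ t in Ioo t₀ T, ∫⁻ x in (ball (0 : V) k)ᶜ, ENNReal.ofReal (gw (cw u t) x) < η := by
  have hsub : Ioo t₀ T ⊆ Ioo 0 T := Ioo_subset_Ioo_left h.t0.le
  have h1 : ∀ t ∈ Ioo t₀ T, Tendsto (fun k : ℕ => ∫⁻ x in (ball (0 : V) k)ᶜ,
      ENNReal.ofReal (gw (cw u t) x)) atTop (𝓝 0) := by
    intro t ht
    have ht0 := hsub ht
    have hm : Measurable fun x => ENNReal.ofReal (gw (cw u t) x) := by
      refine Measurable.ennreal_ofReal ?_
      unfold gw
      exact Finset.measurable_sum _ fun i _ => Finset.measurable_sum _ fun k _ =>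
        (((h.toHS.cw_HF ht0 i).pd k).sm.continuous.measurable).pow_const 2
    have h2 : ∀ k : ℕ, ∫⁻ x in (ball (0 : V) k)ᶜ, ENNReal.ofReal (gw (cw u t) x)
        = ∫⁻ x, ((ball (0 : V) k)ᶜ).indicator (fun x => ENNReal.ofReal (gw (cw u t) x)) x := fun k =>
      (lintegral_indicator measurableSet_ball.compl _).symm
    simp only [h2]
    have h3 : (0 : ℝ≥0∞) = ∫⁻ _x : V, 0 := by simp
    rw [h3]
    refine tendsto_lintegral_of_dominated_convergence (fun x => ENNReal.ofReal (gw (cw u t) x))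
      (fun k => hm.indicator measurableSet_ball.compl)
      (fun k => Eventually.of_forall fun x => indicator_le_self _ _ x) (h.gw_fin ⟨ht.1.le, ht.2⟩)
      (Eventually.of_forall fun x => ?_)
    refine tendsto_const_nhds.congr' ?_
    obtain ⟨N, hN⟩ := exists_nat_gt ‖x‖
    filter_upwards [eventually_ge_atTop N] with k hk
    rw [indicator_of_notMem]
    rw [notMem_compl_iff, mem_ball_zero_iff]
    exact hN.trans_le (by exact_mod_cast hk)
  have h2 : Tendsto (fun k : ℕ => ∫⁻ t in Ioo t₀ T, ∫⁻ x in (ball (0 : V) k)ᶜ,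
      ENNReal.ofReal (gw (cw u t) x)) atTop (𝓝 (∫⁻ _t in Ioo t₀ T, 0)) := by
    refine tendsto_lintegral_of_dominated_convergence' (fun t => ∫⁻ x, ENNReal.ofReal (gw (cw u t) x))
      (fun k => J_aem (HS.j_gw h.toHS) measurableSet_Ioo hsub) (fun k => ?_)
      (ne_top_of_le_ne_top ENNReal.ofReal_ne_top h.e2) ?_
    · exact Eventually.of_forall fun t => setLIntegral_le_lintegral _ _
    · exact ae_restrict_of_forall_mem measurableSet_Ioo fun t ht => h1 t ht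
  rw [lintegral_zero] at h2
  obtain ⟨k, hk⟩ := (h2.eventually (gt_mem_nhds hη)).exists
  exact ⟨k, hk⟩

/-- Boundedness far away. -/
theorem bd_inf (h : HS ν T u p) (hT : 0 < T) : ∃ K d M : ℝ, 0 < d ∧ ∀ t ∈ Ioo (T - d) T, ∀ x : V,
    K ≤ ‖x‖ → ‖u t x‖ ≤ M := by
  have hν := h.hν
  obtain ⟨t₀, ht₀, E, hST⟩ := ST_of h (a := T / 2) (by linarith) (by linarith)
  obtain ⟨C, ε₀, hC, hε₀, hreg⟩ := reg'
  have hTt : 0 < T - t₀ := by linarith [ht₀.2]
  obtain ⟨r, hr, hr2⟩ : ∃ r : ℝ, 0 < r ∧ r ^ 2 = ν * (T - t₀) / 2 :=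
    ⟨√(ν * (T - t₀) / 2), Real.sqrt_pos.2 (by positivity), Real.sq_sqrt (by positivity)⟩
  have hrν : r ^ 2 / ν = (T - t₀) / 2 := by
    rw [hr2]
    field_simp
  obtain ⟨δ, Q, hδ, hQ⟩ := hreg ν E r hν hST.E0 hr
  obtain ⟨ρ, hρ⟩ : ∃ ρ : ℝ, ρ = C * (r + ν⁻¹ * √E * √r) := ⟨_, rfl⟩
  obtain ⟨k, hk⟩ := far_gw hST (η := ENNReal.ofReal (ε₀ * ν * r)) (by
    rw [ENNReal.ofReal_pos]
    positivity)
  refine ⟨k + ρ, min δ (T - t₀), Q, lt_min hδ hTt, ?_⟩
  intro t ht x hx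
  have h1 : min δ (T - t₀) ≤ δ := min_le_left _ _
  have h2 : min δ (T - t₀) ≤ T - t₀ := min_le_right _ _
  refine hQ T u p h t₀ hST.t0 x ρ (le_of_eq hρ.symm) ?_ ((t + T) / 2) ?_ ?_ ?_ t ?_ x
    (mem_ball_self hδ)
  · intro τ hτ
    exact (setLIntegral_le_lintegral _ _).trans (hST.e1 τ ⟨hτ.1.le, hτ.2⟩)
  · rw [hrν]
    linarith [ht.1]
  · linarith [ht.2]
  · refine le_trans ?_ hk.le
    have hsub : Ioo t₀ ((t + T) / 2) ⊆ Ioo t₀ T := Ioo_subset_Ioo_right (by linarith [ht.2])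
    refine (lintegral_mono_set hsub).trans ?_
    refine lintegral_mono fun τ => lintegral_mono_set ?_
    intro y hy
    rw [mem_compl_iff, mem_ball_zero_iff, not_lt]
    rw [mem_ball, dist_eq_norm] at hy
    have h3 : ‖x‖ ≤ ‖x - y‖ + ‖y‖ := by
      calc ‖x‖ = ‖(x - y) + y‖ := by rw [sub_add_cancel]
        _ ≤ _ := norm_add_le _ _
    rw [norm_sub_rev] at hy
    linarith
  · constructor
    · linarith [ht.1]
    · linarith [ht.2]

lemma nbh_nhds (b : V) {d : ℝ} (hd : 0 < d) : nbh sf b d ∈ 𝓝 b := by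
  have h1 : Continuous fun x : V => ∑ i, (∑ l, sf i l * (x l - b l)) ^ 2 := by fun_prop
  refine (isOpen_lt h1 continuous_const).mem_nhds ?_
  have h2 : ∑ i, (∑ l, sf i l * (b l - b l)) ^ 2 = 0 := by simp
  show ∑ i, (∑ l, sf i l * (b l - b l)) ^ 2 < d ^ 2
  rw [h2]
  positivity

/-- If the solution is unbounded, there is a singular point. -/
theorem sing_pt (h : HS ν T u p) (hT : 0 < T)
    (hs : ∀ d > 0, ∀ M, ∃ t ∈ Ioo (T - d) T, ∃ x i, M < |u t x i|) :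
    ∃ b : V, ∀ d > 0, ∀ M, ∃ t ∈ Ioo (T - d) T, ∃ x ∈ nbh sf b d, ∃ i, M < |u t x i| := by
  by_contra hcon
  push Not at hcon
  obtain ⟨K, d₀, M₀, hd₀, hK⟩ := bd_inf h hT
  have key : ∃ d > 0, ∃ M : ℝ, ∀ t ∈ Ioo (T - d) T, ∀ x ∈ closedBall (0 : V) K, ∀ i,
      |u t x i| ≤ M := by
    refine (isCompact_closedBall (0 : V) K).induction_on (p := fun S => ∃ d > 0, ∃ M : ℝ,
      ∀ t ∈ Ioo (T - d) T, ∀ x ∈ S, ∀ i, |u t x i| ≤ M) ?_ ?_ ?_ ?_
    · exact ⟨1, one_pos, 0, fun t _ x hx => absurd hx (notMem_empty x)⟩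
    · rintro S S' hSS ⟨d, hd, M, hM⟩
      exact ⟨d, hd, M, fun t ht x hx => hM t ht x (hSS hx)⟩
    · rintro S S' ⟨d, hd, M, hM⟩ ⟨d', hd', M', hM'⟩
      refine ⟨min d d', lt_min hd hd', max M M', fun t ht x hx i => ?_⟩
      have a1 : min d d' ≤ d := min_le_left _ _
      have a2 : min d d' ≤ d' := min_le_right _ _
      rcases hx with hx | hx
      · exact (hM t ⟨by linarith [ht.1], ht.2⟩ x hx i).trans (le_max_left _ _)
      · exact (hM' t ⟨by linarith [ht.1], ht.2⟩ x hx i).trans (le_max_right _ _)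
    · intro b _
      obtain ⟨d, hd, M, hM⟩ := hcon b
      exact ⟨nbh sf b d, mem_nhdsWithin_of_mem_nhds (nbh_nhds b hd), d, hd, M,
        fun t ht x hx i => hM t ht x hx i⟩
  obtain ⟨d, hd, M, hM⟩ := key
  obtain ⟨t, ht, x, i, hx⟩ := hs (min d d₀) (lt_min hd hd₀) (max M M₀)
  have a1 : min d d₀ ≤ d := min_le_left _ _
  have a2 : min d d₀ ≤ d₀ := min_le_right _ _
  rcases le_or_gt K ‖x‖ with h1 | h1
  · have h2 := hK t ⟨by linarith [ht.1], ht.2⟩ x h1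
    have h3 := norm_le_pi_norm (u t x) i
    rw [Real.norm_eq_abs] at h3
    exact absurd hx (not_lt.2 ((h3.trans h2).trans (le_max_right _ _)))
  · have h2 := hM t ⟨by linarith [ht.1], ht.2⟩ x (by
      rw [mem_closedBall_zero_iff]
      exact h1.le) i
    exact absurd hx (not_lt.2 (h2.trans (le_max_left _ _)))

end

end Pool.Agent.H305.EG
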