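import Pool.Agent.H305.EG.Kcs

/-!
The layer cake formula, integrated in time first.
-/

set_option autoImplicit false

open MeasureTheory Set Metric Filter Topology
open scoped ContDiff ENNReal

namespace Pool.Agent.H305.EG

open H459R3.NS W221.NS Pool.Agent.V1183.PM Pool.Agent.H305.OS Pool.Agent.H305.SL Pool.Agent.H305.PL
  Pool.Agent.H305.EF

/-- The density. -/
noncomputable def Jd (ν : ℝ) (u : ℝ → V → V) (p : ℝ → V → ℝ) (τ : ℝ) (x : V) : ℝ :=
  -wk (cw u τ) (p τ) x - ν * gw (cw u τ) x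

/-- The profile of the kernel. -/
noncomputable def Ek (k : ℕ) (ν ρ z : ℝ) : ℝ := ((√z)⁻¹) ^ k * Real.exp (-(1 / (4 * ν * z)) * ρ ^ 2)

/-- The weight. -/
noncomputable def om (n : ℕ) (ν R ρ z : ℝ) : ℝ :=
  ρ / (2 * ν) * pf R ρ * Ek (n + 3) ν ρ z + (-pf' R ρ) * Ek (n + 1) ν ρ z

section
variable {ν T t₀ t₁ s T' R r ρ z : ℝ} {u : ℝ → V → V} {p : ℝ → V → ℝ} {I : Finset (Fin 3)} {x₀ : V}
  {n k : ℕ}

lemma Jd_int (h : HS ν T u p) (ht₁ : 0 < t₁) (hs : s < T) :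
    Integrable (fun z : ℝ × V => Jd ν u p z.1 z.2) ((volume.restrict (Ioc t₁ s)).prod volume) := by
  have ju : ∀ i, J T (fun t => cw u t i) := h.ju
  have uu : ∀ i, UF (Icc t₁ s) (fun τ => cw u τ i) := fun i => h.uu t₁ s ht₁ hs i
  have jn : ∀ i, J T (fun t => nl (cw u t) i) := fun i =>
    J.sum fun j => (ju j).mul ((ju i).pd j)
  have un : ∀ i, UF (Icc t₁ s) (fun t => nl (cw u t) i) := fun i =>
    UF.sum fun j => (uu j).mul ((uu i).pd j)
  have i1 : ∀ i, Integrable (fun z : ℝ × V => nl (cw u z.1) i z.2 * cw u z.1 i z.2)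
      ((volume.restrict (Ioc t₁ s)).prod volume) := fun i =>
    prod_int ht₁ hs (jn i) (ju i) (un i) (uu i)
  have i2 : ∀ i, Integrable (fun z : ℝ × V => H459R3.NS.pd i (p z.1) z.2 * cw u z.1 i z.2)
      ((volume.restrict (Ioc t₁ s)).prod volume) := fun i =>
    prod_int ht₁ hs (h.jp.pd i) (ju i) ((h.up t₁ s ht₁ hs).pd i) (uu i)
  have i3 : ∀ i k, Integrable (fun z : ℝ × V => H459R3.NS.pd k (cw u z.1 i) z.2 ^ 2)
      ((volume.restrict (Ioc t₁ s)).prod volume) := fun i k => by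
    have := prod_int ht₁ hs ((ju i).pd k) ((ju i).pd k) ((uu i).pd k) ((uu i).pd k)
    refine this.congr (Eventually.of_forall fun z => ?_)
    show _ * _ = _ ^ 2
    ring
  have i4 : Integrable (fun z : ℝ × V => wk (cw u z.1) (p z.1) z.2)
      ((volume.restrict (Ioc t₁ s)).prod volume) := by
    unfold wk
    exact integrable_finsetSum _ fun i _ => (i1 i).add (i2 i)
  have i5 : Integrable (fun z : ℝ × V => gw (cw u z.1) z.2)
      ((volume.restrict (Ioc t₁ s)).prod volume) := by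
    unfold gw
    exact integrable_finsetSum _ fun i _ => integrable_finsetSum _ fun k _ => i3 i k
  exact i4.neg.sub (i5.const_mul ν)

lemma Ek_nonneg : 0 ≤ Ek k ν ρ z := by
  unfold Ek
  positivity

lemma Ek_le (hν : 0 < ν) (hr : 0 < r) (hz : r ^ 2 ≤ z) : Ek k ν ρ z ≤ (r⁻¹) ^ k := by
  have hz0 : 0 < z := lt_of_lt_of_le (by positivity) hz
  have h1 : Real.exp (-(1 / (4 * ν * z)) * ρ ^ 2) ≤ 1 := by
    rw [Real.exp_le_one_iff, neg_mul, neg_nonpos]
    positivity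
  have h2 : r ≤ √z := Real.le_sqrt_of_sq_le hz
  unfold Ek
  calc ((√z)⁻¹) ^ k * Real.exp (-(1 / (4 * ν * z)) * ρ ^ 2) ≤ ((√z)⁻¹) ^ k * 1 :=
        mul_le_mul_of_nonneg_left h1 (by positivity)
    _ ≤ _ := by
        rw [mul_one]
        exact pow_le_pow_left₀ (by positivity) (inv_anti₀ hr h2) k

lemma om_eq (hν : 0 < ν) (hz : 0 < z) : ((√z)⁻¹) ^ n * dn ν z R ρ = om n ν R ρ z := by
  unfold om dn kk gk Ek
  have h1 : (√z)⁻¹ ^ 2 = z⁻¹ := by
    rw [inv_pow, Real.sq_sqrt hz.le]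
  have h2 : 2 * (1 / (4 * ν * z)) * ρ = ρ / (2 * ν) * ((√z)⁻¹) ^ 2 := by
    rw [h1]
    field_simp
    ring
  rw [h2]
  ring

lemma om_nonneg (hν : 0 < ν) (hρ : 0 ≤ ρ) : 0 ≤ om n ν R ρ z := by
  unfold om
  have h1 := pf_nonneg R ρ
  have h2 : 0 ≤ -pf' R ρ := neg_nonneg.2 (pf'_nonpos hρ)
  have h3 := Ek_nonneg (k := n + 3) (ν := ν) (ρ := ρ) (z := z)
  have h4 := Ek_nonneg (k := n + 1) (ν := ν) (ρ := ρ) (z := z)
  positivity

lemma om_bd (hν : 0 < ν) (hR : 0 < R) (hr : 0 < r) : ∃ C : ℝ, ∀ ρ ∈ Ioo 0 R, ∀ z : ℝ, r ^ 2 ≤ z →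
    ‖om n ν R ρ z‖ ≤ C := by
  obtain ⟨C, hC⟩ := isCompact_Icc.exists_bound_of_continuousOn (pf'_cont R).continuousOn
    (s := Icc 0 R)
  refine ⟨R / (2 * ν) * 1 * (r⁻¹) ^ (n + 3) + C * (r⁻¹) ^ (n + 1), fun ρ hρ z hz => ?_⟩
  rw [Real.norm_eq_abs, abs_of_nonneg (om_nonneg hν hρ.1.le)]
  unfold om
  have h1 := pf_nonneg R ρ
  have h2 : 0 ≤ -pf' R ρ := neg_nonneg.2 (pf'_nonpos hρ.1.le)
  have h3 : -pf' R ρ ≤ C := (neg_le_abs _).trans (hC ρ (Ioo_subset_Icc_self hρ))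
  have h4 : 0 ≤ ρ := hρ.1.le
  refine add_le_add (mul_le_mul (mul_le_mul ?_ (pf_le R ρ) h1 (by positivity)) (Ek_le hν hr hz)
    Ek_nonneg (by positivity)) (mul_le_mul h3 (Ek_le hν hr hz) Ek_nonneg (h2.trans h3))
  exact div_le_div_of_nonneg_right hρ.2.le (by positivity)

lemma om_meas : Measurable fun q : ℝ × ℝ => om n ν R q.1 q.2 := by
  unfold om Ek
  have h1 : Measurable (pf R) := (pf_cont R).measurable
  have h2 : Measurable (pf' R) := (pf'_cont R).measurable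
  fun_prop

/-- The layer cake formula, integrated in time first. -/
lemma swapD (h : HS ν T u p) (hI : I.card = n + 1) (ht₁ : 0 < t₁) (hts : t₁ ≤ s) (hs : s < T)
    (hsT' : s < T') (hR : 0 < R) :
    (∀ ρ ∈ Ioo 0 R, IntegrableOn (fun τ => om n ν R ρ (T' - τ) * ∫ x in nb I x₀ ρ, Jd ν u p τ x)
      (Ioc t₁ s)) ∧
    IntegrableOn (fun ρ => ∫ τ in Ioc t₁ s, om n ν R ρ (T' - τ) * ∫ x in nb I x₀ ρ, Jd ν u p τ x)
      (Ioo 0 R) ∧
    IntegrableOn (fun τ => ∫ x, Jd ν u p τ x * (kI I ν T' x₀ τ x * chi I x₀ R x)) (Ioc t₁ s) ∧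
    ∫ τ in Ioc t₁ s, ∫ x, Jd ν u p τ x * (kI I ν T' x₀ τ x * chi I x₀ R x)
      = ∫ ρ in Ioo 0 R, ∫ τ in Ioc t₁ s, om n ν R ρ (T' - τ) * ∫ x in nb I x₀ ρ, Jd ν u p τ x := by
  have hν := h.hν
  have hJ := Jd_int h ht₁ hs
  obtain ⟨μ, hμ⟩ : ∃ μ : Measure ℝ, μ = volume.restrict (Ioc t₁ s) := ⟨_, rfl⟩
  obtain ⟨lam, hlam⟩ : ∃ lam : Measure ℝ, lam = volume.restrict (Ioo 0 R) := ⟨_, rfl⟩
  rw [← hμ] at hJ
  have : IsFiniteMeasure μ := by
    rw [hμ]
    exact ⟨by rw [Measure.restrict_apply_univ, Real.volume_Ioc]; exact ENNReal.ofReal_lt_top⟩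
  have : IsFiniteMeasure lam := by
    rw [hlam]
    exact ⟨by rw [Measure.restrict_apply_univ, Real.volume_Ioo]; exact ENNReal.ofReal_lt_top⟩
  obtain ⟨r, hr, hr2⟩ : ∃ r : ℝ, 0 < r ∧ r ^ 2 = T' - s :=
    ⟨√(T' - s), Real.sqrt_pos.2 (by linarith), Real.sq_sqrt (by linarith)⟩
  obtain ⟨C, hC⟩ := om_bd (n := n) hν hR hr
  have hd : Measurable (dI I x₀) := (dI_cont I x₀).measurable
  -- the factor
  obtain ⟨S, hS⟩ : ∃ S : Set ((ℝ × V) × ℝ), S = {q | dI I x₀ q.1.2 < q.2} := ⟨_, rfl⟩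
  have hSm : MeasurableSet S := by
    rw [hS]
    exact measurableSet_lt (hd.comp measurable_fst.snd) measurable_snd
  obtain ⟨W, hW⟩ : ∃ W : (ℝ × V) × ℝ → ℝ, W = S.indicator fun q => om n ν R q.2 (T' - q.1.1) :=
    ⟨_, rfl⟩
  have hWm : Measurable W := by
    rw [hW]
    refine Measurable.indicator ?_ hSm
    exact om_meas.comp (measurable_snd.prodMk (measurable_const.sub measurable_fst.fst))
  have hm1 : (μ.prod (volume : Measure V)).prod lam
      = (((volume : Measure ℝ).prod (volume : Measure V)).prod (volume : Measure ℝ)).restrict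
        ((Ioc t₁ s ×ˢ univ) ×ˢ Ioo 0 R) := by
    rw [hμ, hlam, ← Measure.prod_restrict, ← Measure.prod_restrict, Measure.restrict_univ]
  have hWb : ∀ q ∈ (Ioc t₁ s ×ˢ (univ : Set V)) ×ˢ Ioo 0 R, ‖W q‖ ≤ max C 0 := by
    intro q hq
    rw [hW]
    by_cases h1 : q ∈ S
    · rw [indicator_of_mem h1]
      refine (hC q.2 hq.2 _ ?_).trans (le_max_left _ _)
      rw [hr2]
      linarith [hq.1.1.2]
    · rw [indicator_of_notMem h1, norm_zero]
      exact le_max_right _ _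
  have hHi : Integrable (fun q : (ℝ × V) × ℝ => Jd ν u p q.1.1 q.1.2 * W q)
      ((μ.prod (volume : Measure V)).prod lam) := by
    refine (hJ.comp_fst lam).mul_bdd hWm.aestronglyMeasurable (c := max C 0) ?_
    rw [hm1]
    exact ae_restrict_of_forall_mem ((measurableSet_Ioc.prod MeasurableSet.univ).prod
      measurableSet_Ioo) hWb
  -- for fixed `ρ`
  have hρi : ∀ ρ ∈ Ioo 0 R, Integrable (fun q : ℝ × V => Jd ν u p q.1 q.2 * W (q, ρ))
      (μ.prod (volume : Measure V)) := by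
    intro ρ hρ
    refine hJ.mul_bdd (hWm.comp (measurable_id.prodMk measurable_const)).aestronglyMeasurable
      (c := max C 0) ?_
    rw [hμ, show (volume.restrict (Ioc t₁ s)).prod (volume : Measure V)
      = ((volume : Measure ℝ).prod (volume : Measure V)).restrict (Ioc t₁ s ×ˢ univ) by
        rw [← Measure.prod_restrict, Measure.restrict_univ]]
    exact ae_restrict_of_forall_mem (measurableSet_Ioc.prod MeasurableSet.univ)
      fun q hq => hWb (q, ρ) ⟨hq, hρ⟩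
  have e1 : ∀ ρ τ : ℝ, ∫ x, Jd ν u p τ x * W ((τ, x), ρ)
      = om n ν R ρ (T' - τ) * ∫ x in nb I x₀ ρ, Jd ν u p τ x := by
    intro ρ τ
    have e2 : (fun x : V => Jd ν u p τ x * W ((τ, x), ρ))
        = (nb I x₀ ρ).indicator fun x => om n ν R ρ (T' - τ) * Jd ν u p τ x := by
      funext x
      rw [hW]
      by_cases hx : x ∈ nb I x₀ ρ
      · rw [indicator_of_mem hx, indicator_of_mem (by rw [hS]; exact hx), mul_comm]
      · rw [indicator_of_notMem hx, indicator_of_notMem (by rw [hS]; exact hx), mul_zero]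
    rw [e2, integral_indicator nb_meas, integral_const_mul]
  have e3 : ∀ ρ ∈ Ioo 0 R, ∫ q, Jd ν u p q.1 q.2 * W (q, ρ) ∂(μ.prod (volume : Measure V))
      = ∫ τ in Ioc t₁ s, om n ν R ρ (T' - τ) * ∫ x in nb I x₀ ρ, Jd ν u p τ x := by
    intro ρ hρ
    rw [integral_prod _ (hρi ρ hρ), hμ]
    exact integral_congr_ae (Eventually.of_forall fun τ => e1 ρ τ)
  have e4 : ∀ τ ∈ Ioc t₁ s, ∀ x : V, ∫ ρ, Jd ν u p τ x * W ((τ, x), ρ) ∂lam
      = Jd ν u p τ x * (kI I ν T' x₀ τ x * chi I x₀ R x) := by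
    intro τ hτ x
    have hz : 0 < T' - τ := by linarith [hτ.2]
    rw [integral_const_mul]
    congr 1
    have e5 : (fun ρ : ℝ => W ((τ, x), ρ))
        = (Ioi (dI I x₀ x)).indicator fun ρ => ((√(T' - τ))⁻¹) ^ n * dn ν (T' - τ) R ρ := by
      funext ρ
      rw [hW]
      by_cases hρ : dI I x₀ x < ρ
      · rw [indicator_of_mem (by rw [hS]; exact hρ), indicator_of_mem (by exact hρ), om_eq hν hz]
      · rw [indicator_of_notMem (by rw [hS]; exact hρ), indicator_of_notMem (by exact hρ)]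
    have e6 : Ioo 0 R ∩ Ioi (dI I x₀ x) = Ioo (dI I x₀ x) R := by
      ext ρ
      simp only [mem_inter_iff, mem_Ioo, mem_Ioi]
      constructor
      · rintro ⟨⟨_, h2⟩, h3⟩
        exact ⟨h3, h2⟩
      · rintro ⟨h1, h2⟩
        exact ⟨⟨(dI_nonneg I x₀ x).trans_lt h1, h2⟩, h1⟩
    have e7 : ∫ ρ in Ioo (dI I x₀ x) R, dn ν (T' - τ) R ρ = gc ν (T' - τ) R (dI I x₀ x) := by
      rcases le_or_gt (dI I x₀ x) R with h1 | h1
      · exact dn_int hR h1
      · rw [Ioo_eq_empty (not_lt.2 h1.le), gc_zero hR h1.le]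
        simp
    rw [e5, hlam, setIntegral_indicator measurableSet_Ioi, e6, integral_const_mul, e7, kI_gk hI, chi_pf]
    unfold gc
    ring
  have hsw := integral_integral_swap (f := fun (q : ℝ × V) (ρ : ℝ) => Jd ν u p q.1 q.2 * W (q, ρ)) hHi
  have hpi : Integrable (fun q : ℝ × V => ∫ ρ, Jd ν u p q.1 q.2 * W (q, ρ) ∂lam)
      (μ.prod (volume : Measure V)) := hHi.integral_prod_left
  have e8 : ∀ τ ∈ Ioc t₁ s, ∫ x, ∫ ρ, Jd ν u p τ x * W ((τ, x), ρ) ∂lam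
      = ∫ x, Jd ν u p τ x * (kI I ν T' x₀ τ x * chi I x₀ R x) := by
    intro τ hτ
    exact integral_congr_ae (Eventually.of_forall fun x => e4 τ hτ x)
  refine ⟨fun ρ hρ => ?_, ?_, ?_, ?_⟩
  · have := (hρi ρ hρ).integral_prod_left
    simp only [e1] at this
    rwa [hμ] at this
  · have h1 := hHi.integral_prod_right
    rw [hlam] at h1
    exact IntegrableOn.congr_fun h1 (fun ρ hρ => e3 ρ hρ) measurableSet_Ioo
  · have h1 := hpi.integral_prod_left
    rw [hμ] at h1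
    exact IntegrableOn.congr_fun h1 (fun τ hτ => e8 τ hτ) measurableSet_Ioc
  · have h1 : ∫ q, (∫ ρ, Jd ν u p q.1 q.2 * W (q, ρ) ∂lam) ∂(μ.prod (volume : Measure V))
        = ∫ τ in Ioc t₁ s, ∫ x, Jd ν u p τ x * (kI I ν T' x₀ τ x * chi I x₀ R x) := by
      rw [integral_prod _ hpi, hμ]
      exact setIntegral_congr_fun measurableSet_Ioc fun τ hτ => e8 τ hτ
    rw [← h1, hsw, hlam]
    exact setIntegral_congr_fun measurableSet_Ioo fun ρ hρ => e3 ρ hρ

end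

end Pool.Agent.H305.EG
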