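import Pool.Agent.H305.EG.Bf4

/-!
The energy inequality with the backward heat kernels and a critical error term.
-/

set_option autoImplicit false

open MeasureTheory Set Metric Filter Topology
open scoped ContDiff ENNReal

namespace Pool.Agent.H305.EG

open H459R3.NS W221.NS Pool.Agent.V1183.PM Pool.Agent.H305.OS Pool.Agent.H305.SL Pool.Agent.H305.PL
  Pool.Agent.H305.EF

/-- The condition on the weighted flux. -/
def KC (I : Finset (Fin 3)) (n : ℕ) (x₀ : V) (ν T h₀ c τ M : ℝ) (w : Fin 3 → V → ℝ) (q : V → ℝ) :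
    Prop :=
  ∀ T' : ℝ, T ≤ T' → T' ≤ T + h₀ → flW w q (kI I ν T' x₀ τ) ≤ 2 * (ν * dsW w (kI I ν T' x₀ τ))
    + (((√(T' - τ))⁻¹) ^ n * M + c * ((√(T' - τ))⁻¹) ^ (n + 2))

lemma sqrt_pow_int {n : ℕ} (hn : 1 ≤ n) {t₁ s T' : ℝ} (hts : t₁ ≤ s) (hs : s < T') :
    IntegrableOn (fun τ => ((√(T' - τ))⁻¹) ^ (n + 2)) (Ioc t₁ s) ∧
    ∫ τ in Ioc t₁ s, ((√(T' - τ))⁻¹) ^ (n + 2) ≤ 2 * ((√(T' - s))⁻¹) ^ n := by
  have hn' : (1 : ℝ) ≤ n := by exact_mod_cast hn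
  have hd : ∀ τ ∈ uIcc t₁ s, HasDerivAt (fun τ => (2 / n : ℝ) * ((√(T' - τ))⁻¹) ^ n)
      (((√(T' - τ))⁻¹) ^ (n + 2)) τ := by
    intro τ hτ
    rw [uIcc_of_le hts] at hτ
    have h0 : 0 < T' - τ := by linarith [hτ.2]
    have hs0 : 0 < √(T' - τ) := Real.sqrt_pos.2 h0
    have h1 : HasDerivAt (fun s => T' - s) (-1) τ := by
      simpa using (hasDerivAt_id τ).const_sub T'
    have h2 : HasDerivAt (fun s => (√(T' - s))⁻¹) (-(-1 / (2 * √(T' - τ))) / √(T' - τ) ^ 2) τ :=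
      (h1.sqrt h0.ne').inv hs0.ne'
    have h3 := (h2.pow n).const_mul (2 / n : ℝ)
    refine h3.congr_deriv ?_
    obtain ⟨k, rfl⟩ : ∃ k, n = k + 1 := ⟨n - 1, by omega⟩
    simp only [Nat.add_sub_cancel]
    have hk : ((k + 1 : ℕ) : ℝ) ≠ 0 := by positivity
    rw [show k + 1 + 2 = k + 3 by ring, pow_add ((√(T' - τ))⁻¹) k 3]
    field_simp
  have hc : ContinuousOn (fun τ => ((√(T' - τ))⁻¹) ^ (n + 2)) (uIcc t₁ s) := by
    rw [uIcc_of_le hts]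
    refine ContinuousOn.pow (ContinuousOn.inv₀ (by fun_prop) fun τ hτ => ?_) _
    exact (Real.sqrt_pos.2 (by linarith [hτ.2])).ne'
  have h1 := intervalIntegral.integral_eq_sub_of_hasDerivAt hd hc.intervalIntegrable
  have hi := hc.intervalIntegrable (μ := volume)
  rw [intervalIntegrable_iff_integrableOn_Ioc_of_le hts] at hi
  refine ⟨hi, ?_⟩
  rw [← intervalIntegral.integral_of_le hts, h1]
  have h2 : 0 ≤ (2 / n : ℝ) * ((√(T' - t₁))⁻¹) ^ n := by positivity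
  have h3 : (2 / n : ℝ) ≤ 2 := by
    rw [div_le_iff₀ (by linarith)]
    linarith
  have h4 : (2 / n : ℝ) * ((√(T' - s))⁻¹) ^ n ≤ 2 * ((√(T' - s))⁻¹) ^ n :=
    mul_le_mul_of_nonneg_right h3 (by positivity)
  linarith

section
variable {I : Finset (Fin 3)} {ν T t₀ E h₀ c θ : ℝ} {x₀ : V}
  {u : ℝ → V → V} {p : ℝ → V → ℝ} {m : ℝ → ℝ} {n : ℕ}

/-- The energy inequality. -/
lemma en_C (h : ST ν T u p t₀ E) (hn : 1 ≤ n) (hc : 0 ≤ c) (hm : IntegrableOn m (Ioo t₀ T))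
    (hm0 : ∀ τ, 0 ≤ m τ)
    (hin : ∀ᵐ τ ∂(volume.restrict (Ioo t₀ T)), KC I n x₀ ν T h₀ c τ (m τ) (cw u τ) (p τ))
    {t₁ s T' : ℝ} (ht₁ : t₀ ≤ t₁) (hts : t₁ ≤ s) (hs : s < T) (hT1 : T ≤ T') (hT2 : T' ≤ T + h₀) :
    enW (cw u s) (kI I ν T' x₀ s) ≤ enW (cw u t₁) (kI I ν T' x₀ t₁)
        + ((√(T' - s))⁻¹) ^ n * ((∫ τ in Ioc t₁ s, m τ) + 2 * c) := by
  have hν := h.hν
  have ht₁0 : 0 < t₁ := h.t0.trans_le ht₁
  have hsT' : s < T' := hs.trans_le hT1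
  obtain ⟨i1, i2, e⟩ := gidK h.toHS ht₁0 hts hs hsT' I x₀
  have hsub : Ioc t₁ s ⊆ Ioo t₀ T := fun τ hτ => ⟨ht₁.trans_lt hτ.1, hτ.2.trans_lt hs⟩
  have hm' : IntegrableOn m (Ioc t₁ s) := hm.mono_set hsub
  have hr0 : 0 < √(T' - s) := Real.sqrt_pos.2 (by linarith)
  obtain ⟨k1, k2⟩ := sqrt_pow_int hn hts hsT'
  have j1 : IntegrableOn (fun τ => (((√(T' - s))⁻¹) ^ n) * m τ) (Ioc t₁ s) := hm'.const_mul _
  have j2 : IntegrableOn (fun τ => c * ((√(T' - τ))⁻¹) ^ (n + 2)) (Ioc t₁ s) := k1.const_mul _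
  have j12 : IntegrableOn (fun τ => (((√(T' - s))⁻¹) ^ n) * m τ + c * ((√(T' - τ))⁻¹) ^ (n + 2))
      (Ioc t₁ s) := j1.add j2
  have hmono : ∫ τ in Ioc t₁ s, (flW (cw u τ) (p τ) (kI I ν T' x₀ τ)
        - 2 * (ν * dsW (cw u τ) (kI I ν T' x₀ τ)))
      ≤ ∫ τ in Ioc t₁ s, ((((√(T' - s))⁻¹) ^ n) * m τ + c * ((√(T' - τ))⁻¹) ^ (n + 2)) := by
    refine integral_mono_ae (i2.sub (i1.const_mul 2)) j12 ?_
    filter_upwards [ae_restrict_of_ae_restrict_of_subset hsub hin, ae_restrict_mem measurableSet_Ioc]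
      with τ h1 h2
    have h3 := h1 T' hT1 hT2
    have h4 : ((√(T' - τ))⁻¹) ^ n ≤ ((√(T' - s))⁻¹) ^ n := by
      refine pow_le_pow_left₀ (by positivity) (inv_anti₀ hr0 (Real.sqrt_le_sqrt ?_)) n
      linarith [h2.2]
    have h5 := mul_le_mul_of_nonneg_right h4 (hm0 τ)
    linarith
  rw [integral_add j1 j2, integral_const_mul, integral_const_mul] at hmono
  have h5 := mul_le_mul_of_nonneg_left k2 hc
  rw [e]
  have h6 : ((√(T' - s))⁻¹) ^ n * ((∫ τ in Ioc t₁ s, m τ) + 2 * c)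
      = ((√(T' - s))⁻¹) ^ n * (∫ τ in Ioc t₁ s, m τ) + c * (2 * ((√(T' - s))⁻¹) ^ n) := by ring
  linarith

/-- Smallness. -/
lemma smC (h : ST ν T u p t₀ E) (hI : I.card = n + 1) (hn : 1 ≤ n) (hc : 0 ≤ c) (hh₀ : 0 < h₀)
    (hm : IntegrableOn m (Ioo t₀ T)) (hm0 : ∀ τ, 0 ≤ m τ)
    (hin : ∀ᵐ τ ∂(volume.restrict (Ioo t₀ T)), KC I n x₀ ν T h₀ c τ (m τ) (cw u τ) (p τ))
    (hθ : 0 < θ) :
    ∃ r₁ : ℝ, 0 < r₁ ∧ ∀ r : ℝ, 0 < r → r ≤ r₁ → ∀ s ∈ Ico (T - r ^ 2) T,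
      t₀ ≤ s ∧ (√(s + r ^ 2 - s)) ^ n * enW (cw u s) (kI I ν (s + r ^ 2) x₀ s) ≤ θ + 2 * c := by
  have hν := h.hν
  have hE := h.E0
  obtain ⟨b, hb, hb2, hsm⟩ := small_int (η := θ / 2) hm hm0 (by positivity) h.tT
  have hsb : 0 < √b := Real.sqrt_pos.2 hb
  obtain ⟨K, hK⟩ : ∃ K : ℝ, K = ((√b)⁻¹) ^ (n + 1) * E + 1 := ⟨_, rfl⟩
  have hK0 : 0 < K := by rw [hK]; positivity
  refine ⟨min (min 1 (√b)) (min (√h₀) (θ / 2 / K)), ?_, ?_⟩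
  · have : 0 < √h₀ := Real.sqrt_pos.2 hh₀
    positivity
  intro r hr hr1 s hs
  have r1 : r ≤ 1 := hr1.trans ((min_le_left _ _).trans (min_le_left _ _))
  have r2 : r ≤ √b := hr1.trans ((min_le_left _ _).trans (min_le_right _ _))
  have r3 : r ≤ √h₀ := hr1.trans ((min_le_right _ _).trans (min_le_left _ _))
  have r4 : r ≤ θ / 2 / K := hr1.trans ((min_le_right _ _).trans (min_le_right _ _))
  have r2' : r ^ 2 ≤ b := by
    calc r ^ 2 ≤ √b ^ 2 := pow_le_pow_left₀ hr.le r2 2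
      _ = b := Real.sq_sqrt hb.le
  have r3' : r ^ 2 ≤ h₀ := by
    calc r ^ 2 ≤ √h₀ ^ 2 := pow_le_pow_left₀ hr.le r3 2
      _ = h₀ := Real.sq_sqrt hh₀.le
  have hts : T - b ≤ s := by linarith [hs.1]
  have ht₀ : t₀ ≤ T - b := by linarith
  refine ⟨ht₀.trans hts, ?_⟩
  have h1 := en_C h hn hc hm hm0 hin ht₀ hts hs.2 (T' := s + r ^ 2) (by linarith [hs.1])
    (by linarith [hs.2])
  have hr5 : √(s + r ^ 2 - s) = r := by rw [add_sub_cancel_left, Real.sqrt_sq hr.le]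
  rw [hr5] at h1 ⊢
  have h2 := enW_up (x₀ := x₀) h hI (T' := s + r ^ 2) (τ := T - b) ⟨ht₀, by linarith⟩
    (by nlinarith [hs.1, pow_pos hr 2])
  have h3 : ((√(s + r ^ 2 - (T - b)))⁻¹) ^ (n + 1) ≤ ((√b)⁻¹) ^ (n + 1) := by
    refine pow_le_pow_left₀ (by positivity) (inv_anti₀ hsb (Real.sqrt_le_sqrt ?_)) _
    linarith [hs.1]
  have h4 : enW (cw u (T - b)) (kI I ν (s + r ^ 2) x₀ (T - b)) ≤ K := by
    rw [hK]
    have := mul_le_mul_of_nonneg_right h3 hE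
    linarith
  have h5 := hsm (T - b) s le_rfl hs.2
  have h6 := mul_le_mul_of_nonneg_left h1 (pow_nonneg hr.le n)
  have h7 : r ^ n * (enW (cw u (T - b)) (kI I ν (s + r ^ 2) x₀ (T - b))
      + (r⁻¹) ^ n * ((∫ τ in Ioc (T - b) s, m τ) + 2 * c))
      = r ^ n * enW (cw u (T - b)) (kI I ν (s + r ^ 2) x₀ (T - b))
        + ((∫ τ in Ioc (T - b) s, m τ) + 2 * c) := by
    rw [mul_add, inv_pow, ← mul_assoc, mul_inv_cancel₀ (pow_pos hr n).ne', one_mul]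
  rw [h7] at h6
  have h8 : r ^ n * enW (cw u (T - b)) (kI I ν (s + r ^ 2) x₀ (T - b)) ≤ θ / 2 := by
    have h9 : 0 ≤ enW (cw u (T - b)) (kI I ν (s + r ^ 2) x₀ (T - b)) := enW_nonneg fun x => kI_nonneg x
    have h10 : r ^ n ≤ r := by
      calc r ^ n ≤ r ^ 1 := pow_le_pow_of_le_one hr.le r1 hn
        _ = r := pow_one r
    rw [le_div_iff₀ hK0] at r4
    calc r ^ n * enW (cw u (T - b)) (kI I ν (s + r ^ 2) x₀ (T - b))
        ≤ r * K := mul_le_mul h10 h4 h9 hr.le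
      _ ≤ _ := r4
  linarith

end

/-- The criterion for the weighted flux. -/
theorem critC {ν : ℝ} (hν : 0 < ν) : ∃ c₀ : ℝ, 0 < c₀ ∧ ∀ (T : ℝ) (u : ℝ → V → V) (p : ℝ → V → ℝ)
    (t₀ E : ℝ), ST ν T u p t₀ E → ∀ (I : Finset (Fin 3)) (n : ℕ) (x₀ : V) (h₀ c : ℝ) (m : ℝ → ℝ),
    I.card = n + 1 → 1 ≤ n → 0 < h₀ → 0 ≤ c → c ≤ c₀ → IntegrableOn m (Ioo t₀ T) → (∀ τ, 0 ≤ m τ) →
    (∀ᵐ τ ∂(volume.restrict (Ioo t₀ T)), KC I n x₀ ν T h₀ c τ (m τ) (cw u τ) (p τ)) →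
    ∃ δ Q : ℝ, 0 < δ ∧ ∀ t ∈ Ioo (T - δ) T, ∀ x₁ ∈ PI' I x₀, ∀ x ∈ ball x₁ δ, ‖u t x‖ ≤ Q := by
  obtain ⟨θ, hθ, hN⟩ := bN hν
  have hX := Real.exp_pos (1 / (4 * ν))
  refine ⟨θ / (64 * Real.exp (1 / (4 * ν))), by positivity, ?_⟩
  intro T u p t₀ E h I n x₀ h₀ c m hI hn hh₀ hc0 hc hm hm0 hin
  obtain ⟨r₁, hr₁, hsm⟩ := smC h hI hn hc0 hh₀ hm hm0 hin
    (θ := θ / (32 * Real.exp (1 / (4 * ν)))) (by positivity)
  have hn2 : n ≤ 2 := by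
    have h1 := Finset.card_le_univ I
    rw [Fintype.card_fin, hI] at h1
    omega
  refine hN T u p t₀ E h (PI' I x₀) (r₁ / 2) (by positivity) ?_
  intro x₁ hx₁ R hR hR1 s hs hts
  obtain ⟨-, h2⟩ := hsm (2 * R) (by positivity) (by linarith) s ⟨by nlinarith [hs.1], hs.2⟩
  have h3 := nw_low (x₀ := x₀) h hI ⟨hts, hs.2⟩ (ρ := 2 * R) (by positivity) h2
  refine (lintegral_mono_set (ball_nb hx₁ hR)).trans (h3.trans (ENNReal.ofReal_le_ofReal ?_))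
  have h4 : (2 : ℝ) ^ (n + 1) ≤ 8 := by
    calc (2 : ℝ) ^ (n + 1) ≤ 2 ^ 3 := pow_le_pow_right₀ (by norm_num) (by omega)
      _ = 8 := by norm_num
  rw [le_div_iff₀ (by positivity)] at hc
  have h5 : Real.exp (1 / (4 * ν)) * (θ / (32 * Real.exp (1 / (4 * ν))) + 2 * c) ≤ θ / 16 := by
    have : Real.exp (1 / (4 * ν)) * (θ / (32 * Real.exp (1 / (4 * ν)))) = θ / 32 := by
      field_simp
    rw [mul_add, this]
    nlinarith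
  have h6 : 0 ≤ Real.exp (1 / (4 * ν)) * (θ / (32 * Real.exp (1 / (4 * ν))) + 2 * c) := by
    positivity
  calc 2 ^ (n + 1) * Real.exp (1 / (4 * ν)) * (θ / (32 * Real.exp (1 / (4 * ν))) + 2 * c) * (2 * R)
      = 2 ^ (n + 1) * (Real.exp (1 / (4 * ν)) * (θ / (32 * Real.exp (1 / (4 * ν))) + 2 * c)) * (2 * R) := by
        ring
    _ ≤ 8 * (θ / 16) * (2 * R) := by
        refine mul_le_mul_of_nonneg_right (mul_le_mul h4 h5 h6 (by norm_num)) (by positivity)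
    _ = θ * R := by ring

end Pool.Agent.H305.EG
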