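import Pool.Agent.H305.EG.Cak

/-!
The conditions on the inflow.
-/

set_option autoImplicit false

open MeasureTheory Set Metric Filter Topology
open scoped ContDiff ENNReal

namespace Pool.Agent.H305.EG

open H459R3.NS W221.NS Pool.Agent.V1183.PM Pool.Agent.H305.OS Pool.Agent.H305.SL Pool.Agent.H305.PL
  Pool.Agent.H305.EF
open Pool.Agent.W583.MD (sm_pd pd_mul')

/-- The condition on the inflow into the neighbourhoods. -/
def InS (I : Finset (Fin 3)) (x₀ : V) (R ν ε : ℝ) (w : Fin 3 → V → ℝ) (q : V → ℝ) (M : ℝ) : Prop :=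
  ∀ ρ : ℝ, 0 < ρ → ρ < R → -(∫ x in nb I x₀ ρ, wk w q x)
    ≤ ν * (∫ x in nb I x₀ ρ, gw w x) + M * ρ + ε / ρ

/-- The Gaussian weights. -/
noncomputable def gs (I : Finset (Fin 3)) (x₀ : V) (ρ : ℝ) (x : V) : ℝ := Real.exp (-(qI I x₀ x / ρ ^ 2))

/-- The condition on the inflow with Gaussian weights. -/
def InG (I : Finset (Fin 3)) (x₀ : V) (R ν T τ ε : ℝ) (w : Fin 3 → V → ℝ) (q : V → ℝ) (M : ℝ) :
    Prop :=
  ∀ ρ : ℝ, 0 < ρ → ρ < R → 4 * ν * (T - τ) ≤ ρ ^ 2 → -(∫ x, wk w q x * gs I x₀ ρ x)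
    ≤ ν * (∫ x, gw w x * gs I x₀ ρ x) + M * ρ + ε / ρ

section
variable {I : Finset (Fin 3)} {ν T T' τ R ε M s t₁ t₀ E : ℝ} {x₀ : V} {w : Fin 3 → V → ℝ} {q : V → ℝ}
  {u : ℝ → V → V} {p : ℝ → V → ℝ} {g : ℝ → ℝ} {n : ℕ}

/-- The flux inequality. -/
lemma flW_InS (hI : I.card = n + 1) (hν : 0 < ν) (hR : 0 < R) (hε : 0 ≤ ε) (hτ : τ < T')
    {C C₂ : ℝ} (hC : 0 ≤ C) (hC₂ : 0 ≤ C₂) (hpq : ∀ ρ ∈ Icc 0 R, |pq R ρ| ≤ C₂)
    (hfar : ∀ (j : Fin 3) (x : V),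
      |H459R3.NS.pd j (fun x => kI I ν T' x₀ τ x * (1 - chi I x₀ R x)) x| ≤ C)
    (hw : ∀ i, HF (w i)) (hdiv : ∀ x, ∑ i, H459R3.NS.pd i (w i) x = 0) (hq : HF q)
    (hF : ∑ j, gF w q (w j) ≠ (⊤ : ℝ≥0∞)) (h : InS I x₀ R ν ε w q M) :
    flW w q (kI I ν T' x₀ τ) ≤ 2 * (ν * dsW w (kI I ν T' x₀ τ))
      + (2 * √(Real.pi * ν) * (((√(T' - τ))⁻¹) ^ n * (|M| + ε * C₂))
        + √(Real.pi * ν) * ε / ν * ((√(T' - τ))⁻¹) ^ (n + 2) + C * (∑ j, gF w q (w j)).toReal) := by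
  have ha : 0 < T' - τ := by linarith
  have hΦ : BF (kI I ν T' x₀ τ) := kI_BF hν hτ
  have hc : BF (chi I x₀ R) := chi_BF hR
  have h1c : BF fun x => 1 - chi I x₀ R x := by
    have h1 : UB univ fun (_ : ℝ) (x : V) => (-1 : ℝ) * chi I x₀ R x := UB.cmul hc (-1)
    have h2 : UB univ fun (_ : ℝ) (x : V) => (1 : ℝ) + (-1 : ℝ) * chi I x₀ R x := (UB.const 1).add h1
    refine h2.congr fun _ _ => ?_
    funext x
    ring
  have hΦ1 : BF fun x => kI I ν T' x₀ τ x * chi I x₀ R x := UB.mul hΦ hc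
  have hΦ2 : BF fun x => kI I ν T' x₀ τ x * (1 - chi I x₀ R x) := UB.mul hΦ h1c
  have s1 : flW w q (kI I ν T' x₀ τ) = -(2 * ∫ x, wk w q x * (kI I ν T' x₀ τ x * chi I x₀ R x))
      + flW w q (fun x => kI I ν T' x₀ τ x * (1 - chi I x₀ R x)) := by
    rw [flW_wk hw hdiv hq hΦ, flW_wk hw hdiv hq hΦ2]
    have e1 : ∫ x, wk w q x * kI I ν T' x₀ τ x
        = (∫ x, wk w q x * (kI I ν T' x₀ τ x * chi I x₀ R x))
          + ∫ x, wk w q x * (kI I ν T' x₀ τ x * (1 - chi I x₀ R x)) := by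
      rw [← integral_add (wkB_int hw hq hΦ1) (wkB_int hw hq hΦ2)]
      congr 1
      funext x
      ring
    rw [e1]
    ring
  have s2 : flW w q (fun x => kI I ν T' x₀ τ x * (1 - chi I x₀ R x))
      ≤ C * (∑ j, gF w q (w j)).toReal := by
    have h1 := fl_far (w := w) (q := q) hC hfar (fun i => (hw i).sm.continuous.measurable)
      hq.sm.continuous.measurable
    refine (le_abs_self _).trans ?_
    rw [← ENNReal.ofReal_le_ofReal_iff (by positivity), ENNReal.ofReal_mul hC,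
      ENNReal.ofReal_toReal hF]
    exact h1
  obtain ⟨J, hJ⟩ : ∃ J : V → ℝ, J = fun x => -wk w q x - ν * gw w x := ⟨_, rfl⟩
  have i1 := wk_int hw hq
  have i2 := gw_int hw
  have iJ : Integrable J := by
    rw [hJ]
    exact i1.neg.sub (i2.const_mul _)
  have hcd : ∀ ρ : ℝ, 0 < ρ → ρ < R → ∫ x in {x | dI I x₀ x < ρ}, J x ≤ |M| * ρ + ε / ρ := by
    intro ρ hρ hρR
    have h1 := h ρ hρ hρR
    have e1 : ∫ x in {x | dI I x₀ x < ρ}, J x = -(∫ x in nb I x₀ ρ, wk w q x)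
        - ν * ∫ x in nb I x₀ ρ, gw w x := by
      have a1 : Integrable (fun x => -wk w q x) (volume.restrict (nb I x₀ ρ)) :=
        i1.neg.integrableOn
      rw [hJ]
      simp only
      rw [show {x | dI I x₀ x < ρ} = nb I x₀ ρ from rfl,
        integral_sub a1 (i2.const_mul _).integrableOn, integral_const_mul, integral_neg]
    rw [e1]
    have h2 : M * ρ ≤ |M| * ρ := mul_le_mul_of_nonneg_right (le_abs_self M) hρ.le
    linarith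
  have h2 := cakeM (d := dI I x₀) (dI_cont I x₀).measurable (dI_nonneg I x₀) hν ha hR (abs_nonneg M)
    hε iJ hC₂ hpq hcd
  have e2 : ∀ x, kI I ν T' x₀ τ x * chi I x₀ R x
      = ((√(T' - τ))⁻¹) ^ n * gc ν (T' - τ) R (dI I x₀ x) := by
    intro x
    rw [kI_gk hI, chi_pf]
    unfold gc
    ring
  have h3 : ∫ x, J x * (kI I ν T' x₀ τ x * chi I x₀ R x)
      ≤ ((√(T' - τ))⁻¹) ^ n * (√(Real.pi * ν) * (|M| + ε * (1 / (2 * ν * (T' - τ)) + C₂))) := by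
    have e3 : ∫ x, J x * (kI I ν T' x₀ τ x * chi I x₀ R x)
        = ((√(T' - τ))⁻¹) ^ n * ∫ x, J x * gc ν (T' - τ) R (dI I x₀ x) := by
      rw [← integral_const_mul]
      congr 1
      funext x
      rw [e2]
      ring
    rw [e3]
    exact mul_le_mul_of_nonneg_left h2 (by positivity)
  have e4 : ∫ x, J x * (kI I ν T' x₀ τ x * chi I x₀ R x)
      = -(∫ x, wk w q x * (kI I ν T' x₀ τ x * chi I x₀ R x))
      - ν * ∫ x, gw w x * (kI I ν T' x₀ τ x * chi I x₀ R x) := by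
    have e3 : (fun x => J x * (kI I ν T' x₀ τ x * chi I x₀ R x)) = fun x =>
        -(wk w q x * (kI I ν T' x₀ τ x * chi I x₀ R x))
          - ν * (gw w x * (kI I ν T' x₀ τ x * chi I x₀ R x)) := by
      funext x
      rw [hJ]
      simp only
      ring
    have a1 : Integrable (fun x => -(wk w q x * (kI I ν T' x₀ τ x * chi I x₀ R x))) :=
      (wkB_int hw hq hΦ1).neg
    rw [e3, integral_sub a1 ((gwB_int hw hΦ1).const_mul _), integral_neg, integral_const_mul]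
  have h5 : ∫ x, gw w x * (kI I ν T' x₀ τ x * chi I x₀ R x) ≤ dsW w (kI I ν T' x₀ τ) := by
    refine integral_mono (gwB_int hw hΦ1) (gwB_int hw hΦ) fun x => ?_
    refine mul_le_mul_of_nonneg_left ?_ (gw_nonneg w x)
    exact mul_le_of_le_one_right (kI_nonneg x) (chi_le x)
  have h6 : ν * ∫ x, gw w x * (kI I ν T' x₀ τ x * chi I x₀ R x)
      ≤ ν * dsW w (kI I ν T' x₀ τ) := mul_le_mul_of_nonneg_left h5 hν.le
  rw [e4] at h3
  rw [s1]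
  have e7 : 2 * √(Real.pi * ν) * (((√(T' - τ))⁻¹) ^ n * (|M| + ε * C₂))
        + √(Real.pi * ν) * ε / ν * ((√(T' - τ))⁻¹) ^ (n + 2)
      = 2 * (((√(T' - τ))⁻¹) ^ n * (√(Real.pi * ν) * (|M| + ε * (1 / (2 * ν * (T' - τ)) + C₂)))) := by
    have e8 : ((√(T' - τ))⁻¹) ^ (n + 2) = ((√(T' - τ))⁻¹) ^ n * (T' - τ)⁻¹ := by
      rw [pow_add, inv_pow (√(T' - τ)) 2, Real.sq_sqrt ha.le]
    rw [e8]
    field_simp
    ring
  rw [e7]
  linarith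

lemma sqrt_le_T {h₀ : ℝ} (hT : 0 < T) (hh : h₀ ≤ 1) (hτ : 0 < τ) (hT' : T' ≤ T + h₀) :
    √(T' - τ) ≤ T + 1 := by
  rw [Real.sqrt_le_left (by linarith)]
  nlinarith

/-- The first condition. -/
lemma kcS (h : ST ν T u p t₀ E) (hI : I.card = n + 1) (hR : 0 < R) (hε : 0 ≤ ε) (x₀ : V) :
    ∃ K₁ K₂ : ℝ, 0 ≤ K₁ ∧ 0 ≤ K₂ ∧ ∀ τ ∈ Ioo t₀ T, ∀ M : ℝ, InS I x₀ R ν ε (cw u τ) (p τ) M →
      KC I n x₀ ν T 1 (√(Real.pi * ν) * ε / ν) τ
        (2 * √(Real.pi * ν) * (|M| + K₁) + K₂ * (Fx u p τ).toReal) (cw u τ) (p τ) := by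
  have hν := h.hν
  have hT0 : 0 < T := h.t0.trans h.tT
  obtain ⟨C, hC, hfar⟩ := kfar I (ν := ν) (R := R) (T₁ := T + 1) hν hR x₀
  obtain ⟨C₂, hC₂, hpq⟩ := pq_bd R
  refine ⟨ε * C₂, (T + 1) ^ n * C, by positivity, by positivity, ?_⟩
  intro τ hτ M hM T' hT1 hT2
  have hτ0 : τ ∈ Ioo 0 T := ⟨h.t0.trans hτ.1, hτ.2⟩
  have hτ' : τ < T' := hτ.2.trans_le hT1
  have h1 := flW_InS (T' := T') (τ := τ) hI hν hR hε hτ' hC hC₂ hpq
    (hfar T' τ (by linarith) (by linarith [hτ0.1])) (fun i => h.toHS.cw_HF hτ0 i)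
    (h.div τ hτ0) (h.toHS.p_HF hτ0) (h.Fx_fin ⟨hτ.1.le, hτ.2⟩) hM
  have h6 : (∑ j, gF (cw u τ) (p τ) (cw u τ j)).toReal = (Fx u p τ).toReal := rfl
  rw [h6] at h1
  refine h1.trans (add_le_add le_rfl ?_)
  have ha : 0 < √(T' - τ) := Real.sqrt_pos.2 (by linarith)
  have hb := sqrt_le_T (T' := T') (τ := τ) hT0 le_rfl hτ0.1 hT2
  have h2 : 1 ≤ ((√(T' - τ))⁻¹) ^ n * (T + 1) ^ n := by
    rw [← mul_pow]
    apply one_le_pow₀
    rw [inv_mul_eq_div, one_le_div ha]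
    exact hb
  have h3 : 0 ≤ C * (Fx u p τ).toReal := mul_nonneg hC ENNReal.toReal_nonneg
  have h4 : C * (Fx u p τ).toReal ≤ ((√(T' - τ))⁻¹) ^ n * ((T + 1) ^ n * C * (Fx u p τ).toReal) := by
    calc C * (Fx u p τ).toReal = 1 * (C * (Fx u p τ).toReal) := (one_mul _).symm
      _ ≤ (((√(T' - τ))⁻¹) ^ n * (T + 1) ^ n) * (C * (Fx u p τ).toReal) :=
        mul_le_mul_of_nonneg_right h2 h3
      _ = _ := by ring
  have h5 : ((√(T' - τ))⁻¹) ^ n * (2 * √(Real.pi * ν) * (|M| + ε * C₂)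
        + (T + 1) ^ n * C * (Fx u p τ).toReal)
      = 2 * √(Real.pi * ν) * (((√(T' - τ))⁻¹) ^ n * (|M| + ε * C₂))
        + ((√(T' - τ))⁻¹) ^ n * ((T + 1) ^ n * C * (Fx u p τ).toReal) := by ring
  rw [h5]
  linarith

/-- The second condition. -/
lemma kcG (h : ST ν T u p t₀ E) (hI : I.card = n + 1) (hR : 0 < R) (x₀ : V)
    {h₀ : ℝ} (hh : 4 * ν * (T + h₀ - t₀) ≤ R ^ 2) :
    ∀ τ ∈ Ioo t₀ T, ∀ M : ℝ, InG I x₀ R ν T τ ε (cw u τ) (p τ) M →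
      KC I n x₀ ν T h₀ (ε / √ν) τ (4 * √ν * |M|) (cw u τ) (p τ) := by
  have hν := h.hν
  have hsν : 0 < √ν := Real.sqrt_pos.2 hν
  have hνν : √ν ^ 2 = ν := Real.sq_sqrt hν.le
  intro τ hτ M hM T' hT1 hT2
  have hτ0 : τ ∈ Ioo 0 T := ⟨h.t0.trans hτ.1, hτ.2⟩
  have hτ' : τ < T' := hτ.2.trans_le hT1
  have ha : 0 < T' - τ := by linarith
  have hsa : 0 < √(T' - τ) := Real.sqrt_pos.2 ha
  have haa : √(T' - τ) ^ 2 = T' - τ := Real.sq_sqrt ha.le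
  obtain ⟨ρ, hρ⟩ : ∃ ρ, ρ = 2 * √ν * √(T' - τ) := ⟨_, rfl⟩
  have hρ0 : 0 < ρ := by rw [hρ]; positivity
  have hρ2 : ρ ^ 2 = 4 * ν * (T' - τ) := by
    rw [hρ, mul_pow, mul_pow, hνν, haa]
    ring
  have hρR : ρ < R := by
    have h1 : ρ ^ 2 < R ^ 2 := by
      rw [hρ2]
      have : 4 * ν * (T' - τ) < 4 * ν * (T + h₀ - t₀) :=
        mul_lt_mul_of_pos_left (by linarith [hτ.1]) (by positivity)
      linarith
    exact lt_of_pow_lt_pow_left₀ 2 hR.le h1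
  have h1 := hM ρ hρ0 hρR (by
    rw [hρ2]
    exact mul_le_mul_of_nonneg_left (by linarith) (by positivity))
  have e1 : ∀ x, kI I ν T' x₀ τ x = ((√(T' - τ))⁻¹) ^ (n + 1) * gs I x₀ ρ x := by
    intro x
    rw [kI_eq, hI]
    unfold gs
    rw [hρ2]
    congr 2
    field_simp
  have hw : ∀ i, HF (cw u τ i) := fun i => h.toHS.cw_HF hτ0 i
  rw [flW_wk hw (h.div τ hτ0) (h.toHS.p_HF hτ0) (kI_BF hν hτ')]
  have e2 : ∫ x, wk (cw u τ) (p τ) x * kI I ν T' x₀ τ x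
      = ((√(T' - τ))⁻¹) ^ (n + 1) * ∫ x, wk (cw u τ) (p τ) x * gs I x₀ ρ x := by
    rw [← integral_const_mul]
    congr 1
    funext x
    rw [e1]
    ring
  have e3 : dsW (cw u τ) (kI I ν T' x₀ τ)
      = ((√(T' - τ))⁻¹) ^ (n + 1) * ∫ x, gw (cw u τ) x * gs I x₀ ρ x := by
    unfold dsW
    rw [← integral_const_mul]
    congr 1
    funext x
    rw [e1]
    unfold gw
    ring
  rw [e2, e3]
  have h2 : M * ρ ≤ |M| * ρ := mul_le_mul_of_nonneg_right (le_abs_self M) hρ0.le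
  have h3 : -(∫ x, wk (cw u τ) (p τ) x * gs I x₀ ρ x)
      ≤ ν * (∫ x, gw (cw u τ) x * gs I x₀ ρ x) + |M| * ρ + ε / ρ := by linarith
  have h4 := mul_le_mul_of_nonneg_left h3 (by positivity : 0 ≤ 2 * ((√(T' - τ))⁻¹) ^ (n + 1))
  have e5 : 2 * ((√(T' - τ))⁻¹) ^ (n + 1) * (ν * (∫ x, gw (cw u τ) x * gs I x₀ ρ x) + |M| * ρ + ε / ρ)
      = 2 * (ν * (((√(T' - τ))⁻¹) ^ (n + 1) * ∫ x, gw (cw u τ) x * gs I x₀ ρ x))
        + (((√(T' - τ))⁻¹) ^ n * (4 * √ν * |M|) + ε / √ν * ((√(T' - τ))⁻¹) ^ (n + 2)) := by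
    rw [hρ]
    simp only [pow_succ]
    field_simp
    ring
  rw [e5] at h4
  linarith

end

end Pool.Agent.H305.EG
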