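import Pool.Agent.H305.EG.Es2

/-!
The criterion for the inflow integrated in time.
-/

set_option autoImplicit false

open MeasureTheory Set Metric Filter Topology
open scoped ContDiff ENNReal

namespace Pool.Agent.H305.EG

open H459R3.NS W221.NS Pool.Agent.V1183.PM Pool.Agent.H305.OS Pool.Agent.H305.SL Pool.Agent.H305.PL
  Pool.Agent.H305.EF

section
variable {ν T t₀ E t₁ s T' R ρ : ℝ} {u : ℝ → V → V} {p : ℝ → V → ℝ} {I : Finset (Fin 3)} {x₀ : V}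
  {n : ℕ}

lemma F_int (h : HS ν T u p) (ht₁ : 0 < t₁) (hs : s < T) (S : Set V) (hS : MeasurableSet S) :
    IntegrableOn (fun τ => ∫ x in S, Jd ν u p τ x) (Ioc t₁ s) := by
  have h1 := (Jd_int h ht₁ hs).indicator (s := univ ×ˢ S) (MeasurableSet.univ.prod hS)
  have h2 := h1.integral_prod_left
  refine IntegrableOn.congr_fun h2 (fun τ _ => ?_) measurableSet_Ioc
  rw [← integral_indicator hS]
  congr 1
  funext x
  by_cases hx : x ∈ S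
  · rw [indicator_of_mem hx, indicator_of_mem (by exact ⟨mem_univ _, hx⟩)]
  · rw [indicator_of_notMem hx, indicator_of_notMem (by exact fun h => hx h.2)]

/-- The energy inequality. -/
lemma en_D (h : ST ν T u p t₀ E) (hI : I.card = n + 1) (hn : 1 ≤ n) (hR : 0 < R) (x₀ : V) {K₁ : ℝ}
    (hK₁ : 0 ≤ K₁) (hom : ∀ R T : ℝ, 0 < R → 0 < T → ∃ K₂ : ℝ, 0 ≤ K₂ ∧
      ∀ (t₁ s T' r ε ρ : ℝ) (F : ℝ → ℝ), t₁ ≤ s → s - t₁ ≤ T → 0 < r →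
      r ^ 2 = T' - s → 0 ≤ ε → ρ ∈ Ioo 0 R → IntegrableOn F (Ioc t₁ s) →
      (∀ t t', t₁ ≤ t → t ≤ t' → t' ≤ s → ∫ τ in Ioc t t', F τ ≤ ε * (ρ + (t' - t) / ρ)) →
      ∫ τ in Ioc t₁ s, om n ν R ρ (T' - τ) * F τ ≤ ε * (K₁ * ((r + ρ)⁻¹) ^ (n + 1) + K₂)) :
    ∃ K₃ : ℝ, 0 ≤ K₃ ∧ ∀ ε : ℝ, 0 ≤ ε → (∀ ρ ∈ Ioo 0 R, ∀ t t', t₀ ≤ t → t ≤ t' → t' < T →
      ∫ τ in Ioc t t', ∫ x in nb I x₀ ρ, Jd ν u p τ x ≤ ε * (ρ + (t' - t) / ρ)) →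
    ∀ t₁ s T' : ℝ, t₀ ≤ t₁ → t₁ ≤ s → s < T → T ≤ T' → T' ≤ T + 1 →
    enW (cw u s) (kI I ν T' x₀ s) ≤ enW (cw u t₁) (kI I ν T' x₀ t₁)
        + (2 * ε * K₁ * ((√(T' - s))⁻¹) ^ n + K₃ * (ε + ∫ τ in Ioc t₁ s, (Fx u p τ).toReal)) := by
  have hν := h.hν
  have hT0 : 0 < T := h.t0.trans h.tT
  obtain ⟨C, hC, hfar⟩ := kfar I (ν := ν) (R := R) (T₁ := T + 1) hν hR x₀
  obtain ⟨K₂, hK₂, hK⟩ := hom R T hR hT0
  refine ⟨C + 2 * K₂ * R, by positivity, ?_⟩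
  intro ε hε hyp t₁ s T' ht₁ hts hs hT1 hT2
  have ht₁0 : 0 < t₁ := h.t0.trans_le ht₁
  have hsT' : s < T' := hs.trans_le hT1
  obtain ⟨i1, i2, e⟩ := gidK h.toHS ht₁0 hts hs hsT' I x₀
  obtain ⟨-, w2, w3, w4⟩ := swapD (x₀ := x₀) h.toHS hI ht₁0 hts hs hsT' hR
  have hsub : Ioc t₁ s ⊆ Ioo t₀ T := fun τ hτ => ⟨ht₁.trans_lt hτ.1, hτ.2.trans_lt hs⟩
  have hF' : IntegrableOn (fun τ => (Fx u p τ).toReal) (Ioc t₁ s) := h.Fx_int.mono_set hsub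
  obtain ⟨r, hr, hr2⟩ : ∃ r : ℝ, 0 < r ∧ r = √(T' - s) :=
    ⟨√(T' - s), Real.sqrt_pos.2 (by linarith), rfl⟩
  have hrs : r ^ 2 = T' - s := by rw [hr2, Real.sq_sqrt (by linarith)]
  have j12 : IntegrableOn (fun τ => 2 * (∫ x, Jd ν u p τ x * (kI I ν T' x₀ τ x * chi I x₀ R x))
      + C * (Fx u p τ).toReal) (Ioc t₁ s) := (w3.const_mul 2).add (hF'.const_mul C)
  have hmono : ∫ τ in Ioc t₁ s, (flW (cw u τ) (p τ) (kI I ν T' x₀ τ)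
        - 2 * (ν * dsW (cw u τ) (kI I ν T' x₀ τ)))
      ≤ ∫ τ in Ioc t₁ s, (2 * (∫ x, Jd ν u p τ x * (kI I ν T' x₀ τ x * chi I x₀ R x))
      + C * (Fx u p τ).toReal) := by
    refine setIntegral_mono_on (i2.sub (i1.const_mul 2)) j12 measurableSet_Ioc fun τ hτ => ?_
    have hτ0 : τ ∈ Ioo 0 T := ⟨ht₁0.trans hτ.1, hτ.2.trans_lt hs⟩
    have hτ' : τ < T' := hτ.2.trans_lt hsT'
    have hw : ∀ i, HF (cw u τ i) := fun i => h.toHS.cw_HF hτ0 i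
    have hdiv := h.div τ hτ0
    have hq := h.toHS.p_HF hτ0
    have hΦ : BF (kI I ν T' x₀ τ) := kI_BF hν hτ'
    have hc : BF (chi I x₀ R) := chi_BF hR
    have h1c : BF fun x => 1 - chi I x₀ R x := by
      have h1 : UB univ fun (_ : ℝ) (x : V) => (-1 : ℝ) * chi I x₀ R x := UB.cmul hc (-1)
      have h2 : UB univ fun (_ : ℝ) (x : V) => (1 : ℝ) + (-1 : ℝ) * chi I x₀ R x := (UB.const 1).add h1
      refine h2.congr fun _ _ => ?_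
      funext x
      ring
    have hΦ1 : BF fun x => kI I ν T' x₀ τ x * chi I x₀ R x := UB.mul hΦ hc
    have hΦ2 : BF fun x => kI I ν T' x₀ τ x * (1 - chi I x₀ R x) := UB.mul hΦ h1c
    have s1 : flW (cw u τ) (p τ) (kI I ν T' x₀ τ)
        = -(2 * ∫ x, wk (cw u τ) (p τ) x * (kI I ν T' x₀ τ x * chi I x₀ R x))
        + flW (cw u τ) (p τ) (fun x => kI I ν T' x₀ τ x * (1 - chi I x₀ R x)) := by
      rw [flW_wk hw hdiv hq hΦ, flW_wk hw hdiv hq hΦ2]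
      have e1 : ∫ x, wk (cw u τ) (p τ) x * kI I ν T' x₀ τ x
          = (∫ x, wk (cw u τ) (p τ) x * (kI I ν T' x₀ τ x * chi I x₀ R x))
            + ∫ x, wk (cw u τ) (p τ) x * (kI I ν T' x₀ τ x * (1 - chi I x₀ R x)) := by
        rw [← integral_add (wkB_int hw hq hΦ1) (wkB_int hw hq hΦ2)]
        congr 1
        funext x
        ring
      rw [e1]
      ring
    have s2 : flW (cw u τ) (p τ) (fun x => kI I ν T' x₀ τ x * (1 - chi I x₀ R x))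
        ≤ C * (Fx u p τ).toReal := by
      have h1 := fl_far (w := cw u τ) (q := p τ) hC (hfar T' τ (by linarith) (by linarith [hτ0.1]))
        (fun i => (hw i).sm.continuous.measurable) hq.sm.continuous.measurable
      refine (le_abs_self _).trans ?_
      rw [← ENNReal.ofReal_le_ofReal_iff (mul_nonneg hC ENNReal.toReal_nonneg), ENNReal.ofReal_mul hC,
        ENNReal.ofReal_toReal (h.Fx_fin ⟨ht₁.trans hτ.1.le, hτ.2.trans_lt hs⟩)]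
      exact h1
    have e4 : ∫ x, Jd ν u p τ x * (kI I ν T' x₀ τ x * chi I x₀ R x)
        = -(∫ x, wk (cw u τ) (p τ) x * (kI I ν T' x₀ τ x * chi I x₀ R x))
        - ν * ∫ x, gw (cw u τ) x * (kI I ν T' x₀ τ x * chi I x₀ R x) := by
      have e3 : (fun x => Jd ν u p τ x * (kI I ν T' x₀ τ x * chi I x₀ R x)) = fun x =>
          -(wk (cw u τ) (p τ) x * (kI I ν T' x₀ τ x * chi I x₀ R x))
            - ν * (gw (cw u τ) x * (kI I ν T' x₀ τ x * chi I x₀ R x)) := by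
        funext x
        unfold Jd
        ring
      have a1 : Integrable (fun x => -(wk (cw u τ) (p τ) x * (kI I ν T' x₀ τ x * chi I x₀ R x))) :=
        (wkB_int hw hq hΦ1).neg
      rw [e3, integral_sub a1 ((gwB_int hw hΦ1).const_mul _), integral_neg, integral_const_mul]
    have h5 : ∫ x, gw (cw u τ) x * (kI I ν T' x₀ τ x * chi I x₀ R x)
        ≤ dsW (cw u τ) (kI I ν T' x₀ τ) := by
      refine integral_mono (gwB_int hw hΦ1) (gwB_int hw hΦ) fun x => ?_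
      refine mul_le_mul_of_nonneg_left ?_ (gw_nonneg (cw u τ) x)
      exact mul_le_of_le_one_right (kI_nonneg x) (chi_le x)
    have h6 := mul_le_mul_of_nonneg_left h5 hν.le
    rw [s1, e4]
    linarith
  rw [integral_add (w3.const_mul 2) (hF'.const_mul C), integral_const_mul, integral_const_mul, w4]
    at hmono
  obtain ⟨r1, r2⟩ := rad_int hn hr hR
  have hcR : IntegrableOn (fun _ : ℝ => K₂) (Ioo 0 R) :=
    integrableOn_const (by rw [Real.volume_Ioo]; exact ENNReal.ofReal_ne_top)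
  have hρ : ∫ ρ in Ioo 0 R, ∫ τ in Ioc t₁ s, om n ν R ρ (T' - τ) * ∫ x in nb I x₀ ρ, Jd ν u p τ x
      ≤ ε * (K₁ * (r⁻¹) ^ n + K₂ * R) := by
    calc _ ≤ ∫ ρ in Ioo 0 R, ε * (K₁ * ((r + ρ)⁻¹) ^ (n + 1) + K₂) := by
          refine setIntegral_mono_on w2 (((r1.const_mul K₁).add hcR).const_mul ε) measurableSet_Ioo
            fun ρ hρ => ?_
          exact hK t₁ s T' r ε ρ _ hts (by linarith) hr hrs hε hρ
            (F_int h.toHS ht₁0 hs _ nb_meas)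
            (fun t t' h1 h2 h3 => hyp ρ hρ t t' (ht₁.trans h1) h2 (h3.trans_lt hs))
      _ = ε * (K₁ * (∫ ρ in Ioo 0 R, ((r + ρ)⁻¹) ^ (n + 1)) + K₂ * R) := by
          rw [integral_const_mul, integral_add (r1.const_mul K₁) hcR, integral_const_mul,
            setIntegral_const, Real.volume_real_Ioo_of_le hR.le, smul_eq_mul]
          ring
      _ ≤ _ := by
          refine mul_le_mul_of_nonneg_left (add_le_add (mul_le_mul_of_nonneg_left r2 hK₁) le_rfl) hε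
  rw [e, ← hr2]
  have hF0 : 0 ≤ ∫ τ in Ioc t₁ s, (Fx u p τ).toReal := integral_nonneg fun _ => ENNReal.toReal_nonneg
  have h9 : (C + 2 * K₂ * R) * (ε + ∫ τ in Ioc t₁ s, (Fx u p τ).toReal)
      = C * ε + C * (∫ τ in Ioc t₁ s, (Fx u p τ).toReal) + 2 * K₂ * R * ε
        + 2 * K₂ * R * ∫ τ in Ioc t₁ s, (Fx u p τ).toReal := by ring
  have h10 : 0 ≤ C * ε := by positivity
  have h11 : 0 ≤ 2 * K₂ * R * ∫ τ in Ioc t₁ s, (Fx u p τ).toReal := by positivity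
  rw [h9]
  have h12 : 2 * (ε * (K₁ * (r⁻¹) ^ n + K₂ * R)) = 2 * ε * K₁ * (r⁻¹) ^ n + 2 * K₂ * R * ε := by ring
  linarith

/-- Smallness. -/
lemma smD (h : ST ν T u p t₀ E) (hI : I.card = n + 1) (hn : 1 ≤ n) {ε θ K₁ K₃ : ℝ} (hε : 0 ≤ ε)
    (hK₁ : 0 ≤ K₁) (hK₃ : 0 ≤ K₃)
    (hen : ∀ t₁ s T' : ℝ, t₀ ≤ t₁ → t₁ ≤ s → s < T → T ≤ T' → T' ≤ T + 1 →
    enW (cw u s) (kI I ν T' x₀ s) ≤ enW (cw u t₁) (kI I ν T' x₀ t₁)
        + (2 * ε * K₁ * ((√(T' - s))⁻¹) ^ n + K₃ * (ε + ∫ τ in Ioc t₁ s, (Fx u p τ).toReal)))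
    (hθ : 0 < θ) :
    ∃ r₁ : ℝ, 0 < r₁ ∧ ∀ r : ℝ, 0 < r → r ≤ r₁ → ∀ s ∈ Ico (T - r ^ 2) T,
      t₀ ≤ s ∧ (√(s + r ^ 2 - s)) ^ n * enW (cw u s) (kI I ν (s + r ^ 2) x₀ s) ≤ θ + 2 * ε * K₁ := by
  have hν := h.hν
  have hE := h.E0
  have hb : 0 < T - t₀ := by linarith [h.tT]
  have hsb : 0 < √(T - t₀) := Real.sqrt_pos.2 hb
  have hFT : 0 ≤ ∫ τ in Ioo t₀ T, (Fx u p τ).toReal := integral_nonneg fun _ => ENNReal.toReal_nonneg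
  obtain ⟨K, hK⟩ : ∃ K : ℝ, K = ((√(T - t₀))⁻¹) ^ (n + 1) * E
      + K₃ * (ε + ∫ τ in Ioo t₀ T, (Fx u p τ).toReal) + 1 := ⟨_, rfl⟩
  have hK0 : 0 < K := by rw [hK]; positivity
  refine ⟨min (min 1 (√(T - t₀))) (θ / K), by positivity, ?_⟩
  intro r hr hr1 s hs
  have r1 : r ≤ 1 := hr1.trans ((min_le_left _ _).trans (min_le_left _ _))
  have r2 : r ≤ √(T - t₀) := hr1.trans ((min_le_left _ _).trans (min_le_right _ _))
  have r4 : r ≤ θ / K := hr1.trans (min_le_right _ _)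
  have r2' : r ^ 2 ≤ T - t₀ := by
    calc r ^ 2 ≤ √(T - t₀) ^ 2 := pow_le_pow_left₀ hr.le r2 2
      _ = T - t₀ := Real.sq_sqrt hb.le
  have r5 : r ^ 2 ≤ 1 := pow_le_one₀ hr.le r1
  have hts : t₀ ≤ s := by linarith [hs.1]
  refine ⟨hts, ?_⟩
  have h1 := hen t₀ s (s + r ^ 2) le_rfl hts hs.2 (by linarith [hs.1]) (by linarith [hs.2])
  have hr5 : √(s + r ^ 2 - s) = r := by rw [add_sub_cancel_left, Real.sqrt_sq hr.le]
  rw [hr5] at h1 ⊢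
  have h2 := enW_up (x₀ := x₀) h hI (T' := s + r ^ 2) (τ := t₀) ⟨le_rfl, h.tT⟩
    (by nlinarith [hs.1, pow_pos hr 2])
  have h3 : ((√(s + r ^ 2 - t₀))⁻¹) ^ (n + 1) ≤ ((√(T - t₀))⁻¹) ^ (n + 1) := by
    refine pow_le_pow_left₀ (by positivity) (inv_anti₀ hsb (Real.sqrt_le_sqrt ?_)) _
    linarith [hs.1]
  have h4 := mul_le_mul_of_nonneg_right h3 hE
  have h5 : ∫ τ in Ioc t₀ s, (Fx u p τ).toReal ≤ ∫ τ in Ioo t₀ T, (Fx u p τ).toReal :=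
    setIntegral_mono_set h.Fx_int (Eventually.of_forall fun _ => ENNReal.toReal_nonneg)
      (show Ioc t₀ s ⊆ Ioo t₀ T from fun τ hτ => ⟨hτ.1, hτ.2.trans_lt hs.2⟩).eventuallyLE
  have h5' := mul_le_mul_of_nonneg_left (add_le_add (le_refl ε) h5) hK₃
  have h6 := mul_le_mul_of_nonneg_left h1 (pow_nonneg hr.le n)
  have h7 : r ^ n * (enW (cw u t₀) (kI I ν (s + r ^ 2) x₀ t₀)
      + (2 * ε * K₁ * (r⁻¹) ^ n + K₃ * (ε + ∫ τ in Ioc t₀ s, (Fx u p τ).toReal)))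
      = r ^ n * (enW (cw u t₀) (kI I ν (s + r ^ 2) x₀ t₀)
        + K₃ * (ε + ∫ τ in Ioc t₀ s, (Fx u p τ).toReal)) + 2 * ε * K₁ := by
    have : r ^ n * (r⁻¹) ^ n = 1 := by
      rw [← mul_pow, mul_inv_cancel₀ hr.ne', one_pow]
    linear_combination (2 * ε * K₁) * this
  rw [h7] at h6
  have hF0 : 0 ≤ ∫ τ in Ioc t₀ s, (Fx u p τ).toReal := integral_nonneg fun _ => ENNReal.toReal_nonneg
  have h8 : r ^ n * (enW (cw u t₀) (kI I ν (s + r ^ 2) x₀ t₀)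
        + K₃ * (ε + ∫ τ in Ioc t₀ s, (Fx u p τ).toReal)) ≤ θ := by
    have h9 : 0 ≤ enW (cw u t₀) (kI I ν (s + r ^ 2) x₀ t₀) := enW_nonneg fun x => kI_nonneg x
    have h10 : r ^ n ≤ r := by
      calc r ^ n ≤ r ^ 1 := pow_le_pow_of_le_one hr.le r1 hn
        _ = r := pow_one r
    rw [le_div_iff₀ hK0] at r4
    calc r ^ n * (enW (cw u t₀) (kI I ν (s + r ^ 2) x₀ t₀)
        + K₃ * (ε + ∫ τ in Ioc t₀ s, (Fx u p τ).toReal))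
        ≤ r * K := mul_le_mul h10 (by rw [hK]; linarith) (by positivity) hr.le
      _ ≤ _ := r4
  linarith

end

/-- The criterion for the inflow integrated in time. -/
theorem critD {ν : ℝ} (hν : 0 < ν) : ∃ ε : ℝ, 0 < ε ∧ ∀ (T : ℝ) (u : ℝ → V → V) (p : ℝ → V → ℝ)
    (t₀ E : ℝ), ST ν T u p t₀ E → ∀ (I : Finset (Fin 3)) (x₀ : V) (R : ℝ), 2 ≤ I.card → 0 < R →
    (∀ ρ ∈ Ioo 0 R, ∀ t t', t₀ ≤ t → t ≤ t' → t' < T →
      ∫ τ in Ioc t t', ∫ x in nb I x₀ ρ, Jd ν u p τ x ≤ ε * (ρ + (t' - t) / ρ)) →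
    ∃ δ Q : ℝ, 0 < δ ∧ ∀ t ∈ Ioo (T - δ) T, ∀ x₁ ∈ PI' I x₀, ∀ x ∈ ball x₁ δ, ‖u t x‖ ≤ Q := by
  obtain ⟨θ, hθ, hN⟩ := bN hν
  have hX := Real.exp_pos (1 / (4 * ν))
  obtain ⟨K₁, hK₁, hom1⟩ := om_F hν 1
  obtain ⟨K₂, hK₂, hom2⟩ := om_F hν 2
  refine ⟨θ / (64 * Real.exp (1 / (4 * ν)) * (K₁ + K₂ + 1)), by positivity, ?_⟩
  intro T u p t₀ E h I x₀ R hI hR hyp
  obtain ⟨ε, hεe⟩ : ∃ ε : ℝ, ε = θ / (64 * Real.exp (1 / (4 * ν)) * (K₁ + K₂ + 1)) := ⟨_, rfl⟩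
  rw [← hεe] at hyp
  have hε : 0 ≤ ε := by rw [hεe]; positivity
  have hεK : 64 * Real.exp (1 / (4 * ν)) * (ε * (K₁ + K₂ + 1)) = θ := by
    rw [hεe]
    field_simp
  have hcard : I.card ≤ 3 := by
    have h1 := Finset.card_le_univ I
    rwa [Fintype.card_fin] at h1
  have key : ∃ (n : ℕ) (K : ℝ), I.card = n + 1 ∧ 1 ≤ n ∧ n ≤ 2 ∧ 0 ≤ K ∧ K ≤ K₁ + K₂ + 1 ∧
      ∀ R T : ℝ, 0 < R → 0 < T → ∃ K₂ : ℝ, 0 ≤ K₂ ∧
      ∀ (t₁ s T' r ε ρ : ℝ) (F : ℝ → ℝ), t₁ ≤ s → s - t₁ ≤ T → 0 < r →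
      r ^ 2 = T' - s → 0 ≤ ε → ρ ∈ Ioo 0 R → IntegrableOn F (Ioc t₁ s) →
      (∀ t t', t₁ ≤ t → t ≤ t' → t' ≤ s → ∫ τ in Ioc t t', F τ ≤ ε * (ρ + (t' - t) / ρ)) →
      ∫ τ in Ioc t₁ s, om n ν R ρ (T' - τ) * F τ ≤ ε * (K * ((r + ρ)⁻¹) ^ (n + 1) + K₂) := by
    rcases (by omega : I.card = 2 ∨ I.card = 3) with h2 | h3
    · exact ⟨1, K₁, h2, le_rfl, by norm_num, hK₁, by linarith, hom1⟩
    · exact ⟨2, K₂, h3, by norm_num, le_rfl, hK₂, by linarith, hom2⟩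
  obtain ⟨n, K, hn, hn1, hn2, hK, hK12, hom⟩ := key
  obtain ⟨K₃, hK₃, hen⟩ := en_D h hn hn1 hR x₀ hK hom
  obtain ⟨r₁, hr₁, hsm⟩ := smD h hn hn1 hε hK hK₃ (hen ε hε hyp)
    (θ := θ / (32 * Real.exp (1 / (4 * ν)))) (by positivity)
  refine hN T u p t₀ E h (PI' I x₀) (r₁ / 2) (by positivity) ?_
  intro x₁ hx₁ R hR hR1 s hs hts
  obtain ⟨-, h2⟩ := hsm (2 * R) (by positivity) (by linarith) s ⟨by nlinarith [hs.1], hs.2⟩
  have h3 := nw_low (x₀ := x₀) h hn ⟨hts, hs.2⟩ (ρ := 2 * R) (by positivity) h2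
  refine (lintegral_mono_set (ball_nb hx₁ hR)).trans (h3.trans (ENNReal.ofReal_le_ofReal ?_))
  have h4 : (2 : ℝ) ^ (n + 1) ≤ 8 := by
    calc (2 : ℝ) ^ (n + 1) ≤ 2 ^ 3 := pow_le_pow_right₀ (by norm_num) (by omega)
      _ = 8 := by norm_num
  have h5 : Real.exp (1 / (4 * ν)) * (θ / (32 * Real.exp (1 / (4 * ν))) + 2 * ε * K) ≤ θ / 16 := by
    have e1 : Real.exp (1 / (4 * ν)) * (θ / (32 * Real.exp (1 / (4 * ν)))) = θ / 32 := by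
      field_simp
    have e2 : ε * K ≤ ε * (K₁ + K₂ + 1) := mul_le_mul_of_nonneg_left hK12 hε
    have e3 := mul_le_mul_of_nonneg_left e2 hX.le
    rw [mul_add, e1]
    nlinarith
  have h6 : 0 ≤ Real.exp (1 / (4 * ν)) * (θ / (32 * Real.exp (1 / (4 * ν))) + 2 * ε * K) := by
    positivity
  calc 2 ^ (n + 1) * Real.exp (1 / (4 * ν)) * (θ / (32 * Real.exp (1 / (4 * ν))) + 2 * ε * K) * (2 * R)
      = 2 ^ (n + 1) * (Real.exp (1 / (4 * ν)) * (θ / (32 * Real.exp (1 / (4 * ν))) + 2 * ε * K)) * (2 * R) := by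
        ring
    _ ≤ 8 * (θ / 16) * (2 * R) := by
        refine mul_le_mul_of_nonneg_right (mul_le_mul h4 h5 h6 (by norm_num)) (by positivity)
    _ = θ * R := by ring

end Pool.Agent.H305.EG
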