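import Pool.Agent.H305.EG.Tn

/-!
A profile with a flat core.
-/

set_option autoImplicit false

open MeasureTheory Set Metric Filter Topology
open scoped ContDiff ENNReal

namespace Pool.Agent.H305.EG

/-- The step. -/
noncomputable def th (s : ℝ) : ℝ := Real.smoothTransition (4 * s - 4)

/-- The second derivative of the exponential. -/
noncomputable def E1 (s : ℝ) : ℝ := Real.exp (-(s / 4)) / 16

/-- The first correction. -/
noncomputable def j1 (s : ℝ) : ℝ := ∫ t in s..(5 / 4), E1 t * (1 - th t)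

/-- The second correction. -/
noncomputable def g1 (s : ℝ) : ℝ := ∫ t in s..(5 / 4), j1 t

/-- The profile. -/
noncomputable def ph (s : ℝ) : ℝ := Real.exp (-(s / 4)) - g1 s

/-- The derivative of the profile. -/
noncomputable def ph' (s : ℝ) : ℝ := -(Real.exp (-(s / 4)) / 4) + j1 s

section
variable {s : ℝ}

lemma th_zero (h : s ≤ 1) : th s = 0 := Real.smoothTransition.zero_of_nonpos (by linarith)

lemma th_one (h : 5 / 4 ≤ s) : th s = 1 := Real.smoothTransition.one_of_one_le (by linarith)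

lemma th_nonneg (s : ℝ) : 0 ≤ th s := Real.smoothTransition.nonneg _

lemma th_le (s : ℝ) : th s ≤ 1 := Real.smoothTransition.le_one _

lemma th_cd : ContDiff ℝ ∞ th := by
  unfold th
  exact Real.smoothTransition.contDiff.comp ((contDiff_const.mul contDiff_id).sub contDiff_const)

/-- The derivative of the step. -/
noncomputable def th' (s : ℝ) : ℝ := deriv Real.smoothTransition (4 * s - 4) * 4

lemma th_hd (s : ℝ) : HasDerivAt th (th' s) s := by
  have h3 : DifferentiableAt ℝ Real.smoothTransition (4 * s - 4) :=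
    (Real.smoothTransition.contDiff (n := 1)).differentiable (by norm_num) _
  have h1 : HasDerivAt (fun s : ℝ => 4 * s - 4) (4 : ℝ) s := by
    simpa using ((hasDerivAt_id s).const_mul (4 : ℝ)).sub_const 4
  exact h3.hasDerivAt.comp s h1

lemma th'_nonneg (s : ℝ) : 0 ≤ th' s := by
  unfold th'
  have h1 : 0 ≤ deriv Real.smoothTransition (4 * s - 4) := Real.smoothTransition.monotone.deriv_nonneg
  positivity

lemma th'_zero (h : 5 / 4 < s) : th' s = 0 := by
  unfold th'
  rw [dst_zero (Or.inr (by linarith)), zero_mul]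

lemma th'_cont : Continuous th' := by
  unfold th'
  have h1 : Continuous (deriv Real.smoothTransition) :=
    (Real.smoothTransition.contDiff (n := 1)).continuous_deriv (by norm_num)
  exact (h1.comp (by fun_prop)).mul continuous_const

lemma E1_cd : ContDiff ℝ ∞ E1 := by
  unfold E1
  fun_prop

lemma E1_pos (s : ℝ) : 0 < E1 s := by
  unfold E1
  positivity

lemma ig_cd : ContDiff ℝ ∞ fun t => E1 t * (1 - th t) := E1_cd.mul (contDiff_const.sub th_cd)

lemma j1_hd (s : ℝ) : HasDerivAt j1 (-(E1 s * (1 - th s))) s := by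
  have hc : Continuous fun t => E1 t * (1 - th t) := ig_cd.continuous
  exact intervalIntegral.integral_hasDerivAt_left (hc.intervalIntegrable _ _)
    (hc.stronglyMeasurableAtFilter _ _) hc.continuousAt

lemma j1_zero (h : 5 / 4 ≤ s) : j1 s = 0 := by
  unfold j1
  rw [intervalIntegral.integral_symm, neg_eq_zero]
  refine intervalIntegral.integral_zero_ae (Eventually.of_forall fun t ht => ?_)
  rw [uIoc_of_le h] at ht
  rw [th_one ht.1.le]
  ring

lemma j1_nonneg (s : ℝ) : 0 ≤ j1 s := by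
  rcases le_or_gt s (5 / 4) with h | h
  · refine intervalIntegral.integral_nonneg h fun t _ => mul_nonneg (E1_pos t).le ?_
    linarith [th_le t]
  · rw [j1_zero h.le]

lemma j1_le (h0 : 1 ≤ s) : j1 s ≤ Real.exp (-(s / 4)) / 64 := by
  rcases le_or_gt s (5 / 4) with h | h
  · have hc : Continuous fun t => E1 t * (1 - th t) := ig_cd.continuous
    have h1 : j1 s ≤ ∫ _ in s..(5 / 4), (Real.exp (-(s / 4)) / 16 : ℝ) := by
      refine intervalIntegral.integral_mono_on h (hc.intervalIntegrable _ _)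
        (continuous_const.intervalIntegrable _ _) fun t ht => ?_
      have h2 : E1 t ≤ Real.exp (-(s / 4)) / 16 := by
        unfold E1
        have : Real.exp (-(t / 4)) ≤ Real.exp (-(s / 4)) := by
          rw [Real.exp_le_exp]
          linarith [ht.1]
        linarith
      calc E1 t * (1 - th t) ≤ Real.exp (-(s / 4)) / 16 * 1 :=
            mul_le_mul h2 (by linarith [th_nonneg t]) (by linarith [th_le t]) (by positivity)
        _ = _ := mul_one _
    rw [intervalIntegral.integral_const, smul_eq_mul] at h1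
    have h3 := Real.exp_pos (-(s / 4))
    nlinarith
  · rw [j1_zero h.le]
    positivity

lemma j1_cd : ContDiff ℝ ∞ j1 := by
  rw [contDiff_infty_iff_deriv]
  refine ⟨fun s => (j1_hd s).differentiableAt, ?_⟩
  have : deriv j1 = fun s => -(E1 s * (1 - th s)) := funext fun s => (j1_hd s).deriv
  rw [this]
  exact ig_cd.neg

lemma g1_hd (s : ℝ) : HasDerivAt g1 (-(j1 s)) s := by
  have hc : Continuous j1 := j1_cd.continuous
  exact intervalIntegral.integral_hasDerivAt_left (hc.intervalIntegrable _ _)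
    (hc.stronglyMeasurableAtFilter _ _) hc.continuousAt

lemma g1_cd : ContDiff ℝ ∞ g1 := by
  rw [contDiff_infty_iff_deriv]
  refine ⟨fun s => (g1_hd s).differentiableAt, ?_⟩
  have : deriv g1 = fun s => -(j1 s) := funext fun s => (g1_hd s).deriv
  rw [this]
  exact j1_cd.neg

lemma g1_zero (h : 5 / 4 ≤ s) : g1 s = 0 := by
  unfold g1
  rw [intervalIntegral.integral_symm, neg_eq_zero]
  refine intervalIntegral.integral_zero_ae (Eventually.of_forall fun t ht => ?_)
  rw [uIoc_of_le h] at ht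
  exact j1_zero ht.1.le

lemma g1_nonneg (s : ℝ) : 0 ≤ g1 s := by
  rcases le_or_gt s (5 / 4) with h | h
  · exact intervalIntegral.integral_nonneg h fun t _ => j1_nonneg t
  · rw [g1_zero h.le]

lemma ex_hd (s : ℝ) : HasDerivAt (fun s : ℝ => Real.exp (-(s / 4))) (-(Real.exp (-(s / 4)) / 4)) s := by
  have h1 : HasDerivAt (fun s : ℝ => -(s / 4)) (-(1 / 4)) s := ((hasDerivAt_id s).div_const 4).neg
  refine h1.exp.congr_deriv ?_
  ring

lemma ph_hd (s : ℝ) : HasDerivAt ph (ph' s) s := by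
  refine ((ex_hd s).sub (g1_hd s)).congr_deriv ?_
  unfold ph'
  ring

lemma ph'_hd (s : ℝ) : HasDerivAt ph' (E1 s * th s) s := by
  refine (((ex_hd s).div_const 4).neg.add (j1_hd s)).congr_deriv ?_
  unfold E1
  ring

lemma ph_cd : ContDiff ℝ ∞ ph := by
  unfold ph
  exact (by fun_prop : ContDiff ℝ ∞ fun s : ℝ => Real.exp (-(s / 4))).sub g1_cd

lemma ph'_cont : Continuous ph' := continuous_iff_continuousAt.2 fun s => (ph'_hd s).continuousAt

lemma ph'_ge (h0 : 1 ≤ s) : ph' s ≤ -(15 / 64 * Real.exp (-(s / 4))) := by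
  unfold ph'
  have := j1_le h0
  linarith

lemma ph'_eq (h0 : 0 ≤ s) (h1 : s ≤ 1) : ph' s = ph' 1 := by
  have hd : ∀ x ∈ interior (Icc (0 : ℝ) 1), deriv ph' x = 0 := by
    intro x hx
    rw [interior_Icc] at hx
    rw [(ph'_hd x).deriv, th_zero hx.2.le, mul_zero]
  have hD : DifferentiableOn ℝ ph' (interior (Icc (0 : ℝ) 1)) :=
    fun x _ => (ph'_hd x).differentiableAt.differentiableWithinAt
  have h2 := antitoneOn_of_deriv_nonpos (convex_Icc (0 : ℝ) 1) ph'_cont.continuousOn hD
    (fun x hx => (hd x hx).le)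
  have h3 := monotoneOn_of_deriv_nonneg (convex_Icc (0 : ℝ) 1) ph'_cont.continuousOn hD
    (fun x hx => (hd x hx).ge)
  exact le_antisymm (h3 ⟨h0, h1⟩ ⟨zero_le_one, le_rfl⟩ h1) (h2 ⟨h0, h1⟩ ⟨zero_le_one, le_rfl⟩ h1)

lemma ph_eq (h0 : 0 ≤ s) (h1 : s ≤ 1) : ph s = ph 1 - ph' 1 * (1 - s) := by
  have hh : ∀ x, HasDerivAt (fun x => ph x - ph' 1 * x) (ph' x - ph' 1) x := by
    intro x
    have h0 : HasDerivAt (fun x => ph x - ph' 1 * x) _ x :=
      (ph_hd x).sub ((hasDerivAt_id x).const_mul (ph' 1))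
    refine h0.congr_deriv ?_
    ring
  have hd : ∀ x ∈ interior (Icc (0 : ℝ) 1), deriv (fun x => ph x - ph' 1 * x) x = 0 := by
    intro x hx
    rw [interior_Icc] at hx
    rw [(hh x).deriv, ph'_eq hx.1.le hx.2.le, sub_self]
  have hc : ContinuousOn (fun x => ph x - ph' 1 * x) (Icc (0 : ℝ) 1) :=
    fun x _ => (hh x).continuousAt.continuousWithinAt
  have hD : DifferentiableOn ℝ (fun x => ph x - ph' 1 * x) (interior (Icc (0 : ℝ) 1)) :=
    fun x _ => (hh x).differentiableAt.differentiableWithinAt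
  have h2 := antitoneOn_of_deriv_nonpos (convex_Icc (0 : ℝ) 1) hc hD (fun x hx => (hd x hx).le)
  have h3 := monotoneOn_of_deriv_nonneg (convex_Icc (0 : ℝ) 1) hc hD (fun x hx => (hd x hx).ge)
  have h4 := le_antisymm (h3 ⟨h0, h1⟩ ⟨zero_le_one, le_rfl⟩ h1) (h2 ⟨h0, h1⟩ ⟨zero_le_one, le_rfl⟩ h1)
  simp only at h4
  linarith

lemma ph'_nonpos (h0 : 0 ≤ s) : ph' s ≤ 0 := by
  rcases le_or_gt s 1 with h | h
  · rw [ph'_eq h0 h]
    have := ph'_ge (le_refl (1 : ℝ))
    have h2 := Real.exp_pos (-((1 : ℝ) / 4))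
    linarith
  · have := ph'_ge h.le
    have h2 := Real.exp_pos (-(s / 4))
    linarith

lemma ph'_abs (s : ℝ) : -(ph' s) ≤ Real.exp (-(s / 4)) / 4 := by
  unfold ph'
  have := j1_nonneg s
  linarith

lemma ph_anti {t : ℝ} (h0 : 0 ≤ s) (h : s ≤ t) : ph t ≤ ph s := by
  have h1 : AntitoneOn ph (Ici 0) := by
    refine antitoneOn_of_deriv_nonpos (convex_Ici 0) ph_cd.continuous.continuousOn
      (fun x _ => (ph_hd x).differentiableAt.differentiableWithinAt) fun x hx => ?_
    rw [interior_Ici] at hx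
    rw [(ph_hd x).deriv]
    exact ph'_nonpos (le_of_lt hx)
  exact h1 h0 (h0.trans h) h

lemma ph_low (h0 : 0 ≤ s) (h : s ≤ 1) : Real.exp (-(5 / 16)) ≤ ph s := by
  have h1 := ph_anti h0 (by linarith : s ≤ 5 / 4)
  have h2 : ph (5 / 4) = Real.exp (-(5 / 16)) := by
    unfold ph
    rw [g1_zero (by norm_num), sub_zero]
    norm_num
  rw [← h2]
  exact h1

lemma ph_nonneg (h0 : 0 ≤ s) : 0 ≤ ph s := by
  have h1 := ph_anti h0 (le_max_left s (5 / 4))
  refine le_trans ?_ h1
  unfold ph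
  rw [g1_zero (le_max_right _ _), sub_zero]
  exact (Real.exp_pos _).le

lemma ph_up (s : ℝ) : ph s ≤ Real.exp (-(s / 4)) := by
  unfold ph
  linarith [g1_nonneg s]

/-- The differential inequality. -/
lemma ph_sub {m : ℝ} (hm : 2 ≤ m) (h0 : 0 ≤ s) :
    3 / 4 * ph s + (s + 2 * m) * ph' s + 4 * s * (E1 s * th s) ≤ 0 := by
  rcases le_or_gt s 1 with h | h
  · rw [th_zero h, mul_zero, mul_zero, add_zero, ph'_eq h0 h, ph_eq h0 h]
    have h1 := ph_up 1
    have h2 := ph'_ge (le_refl (1 : ℝ))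
    have h3 := Real.exp_pos (-((1 : ℝ) / 4))
    have h4 : ph' 1 ≤ 0 := by linarith
    have h5 : s * ph' 1 ≤ 0 := mul_nonpos_of_nonneg_of_nonpos h0 h4
    have h6 : (2 * m) * ph' 1 ≤ 4 * ph' 1 := mul_le_mul_of_nonpos_right (by linarith) h4
    have h7 : 3 / 4 * (ph 1 - ph' 1 * (1 - s)) + (s + 2 * m) * ph' 1
        = 3 / 4 * ph 1 - 3 / 4 * ph' 1 + 7 / 4 * (s * ph' 1) + 2 * m * ph' 1 := by ring
    rw [h7]
    linarith
  · have h1 : 3 / 4 * ph s ≤ 3 / 4 * Real.exp (-(s / 4)) :=
      mul_le_mul_of_nonneg_left (ph_up s) (by norm_num)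
    have h2 : 4 * s * (E1 s * th s) ≤ s / 4 * Real.exp (-(s / 4)) := by
      have h3 : E1 s * th s ≤ E1 s := mul_le_of_le_one_right (E1_pos s).le (th_le s)
      have h4 := mul_le_mul_of_nonneg_left h3 (by positivity : 0 ≤ 4 * s)
      refine h4.trans (le_of_eq ?_)
      unfold E1
      ring
    have h5 : 3 / 4 * Real.exp (-(s / 4)) + (s + 2 * m) * ph' s + s / 4 * Real.exp (-(s / 4))
        = (3 / 4 - m / 2) * Real.exp (-(s / 4)) + (s + 2 * m) * j1 s := by
      unfold ph'
      ring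
    have h6 : (3 / 4 - m / 2) * Real.exp (-(s / 4)) + (s + 2 * m) * j1 s ≤ 0 := by
      have hX := Real.exp_pos (-(s / 4))
      rcases le_or_gt s (5 / 4) with h' | h'
      · have h8 : (s + 2 * m) * j1 s ≤ (5 / 4 + 2 * m) * (Real.exp (-(s / 4)) / 64) :=
          mul_le_mul (by linarith) (j1_le h.le) (j1_nonneg s) (by linarith)
        nlinarith
      · rw [j1_zero h'.le, mul_zero, add_zero]
        exact mul_nonpos_of_nonpos_of_nonneg (by linarith) hX.le
    linarith

end

end Pool.Agent.H305.EG
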