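import Pool.Agent.H305.EG.Pa

/-!
The kernel with a flat core: regularity.
-/

set_option autoImplicit false

open MeasureTheory Set Metric Filter Topology
open scoped ContDiff ENNReal

namespace Pool.Agent.H305.EG

open H459R3.NS W221.NS Pool.Agent.V1183.PM Pool.Agent.H305.OS Pool.Agent.H305.SL Pool.Agent.H305.PL
  Pool.Agent.H305.EF
open Pool.Agent.W583.MD (sm_pd pd_mul')
open Pool.Agent.H305.TI (it it_nil it_cons it_sm J_it)

section
variable {I : Finset (Fin 3)} {T T' a b τ : ℝ} {x₀ x : V} {S : Set ℝ} {F : ℝ → V → ℝ} {h : ℝ → ℝ}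

lemma UB_tm {c : ℝ → ℝ} {C : ℝ} (hc : ∀ t ∈ S, |c t| ≤ C) (hF : UB S F) :
    UB S (fun t x => c t * F t x) := by
  refine ⟨fun t ht => contDiff_const.mul (hF.sm t ht), fun l => ?_⟩
  obtain ⟨C1, hC1, h1⟩ := hF.bd l
  refine ⟨|C| * C1, by positivity, fun t ht x => ?_⟩
  rw [it_cmul l (c t) (hF.sm t ht)]
  simp only
  rw [abs_mul]
  exact mul_le_mul ((hc t ht).trans (le_abs_self C)) (h1 t ht x) (abs_nonneg _) (abs_nonneg _)

lemma lin_bdT (M : Matrix (Fin 3) (Fin 3) ℝ) (l : List (Fin 3)) : ∀ {K : ℝ → V → ℝ}, UB S K →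
    ∃ C : ℝ, 0 ≤ C ∧ ∀ t ∈ S, ∀ x : V, |it l (fun x => K t (lm M x)) x| ≤ C := by
  induction l with
  | nil =>
    intro K hK
    obtain ⟨C, hC, h1⟩ := hK.bd []
    exact ⟨C, hC, fun t ht x => h1 t ht (lm M x)⟩
  | cons i l ih =>
    intro K hK
    have h1 : ∀ k, ∃ C : ℝ, 0 ≤ C ∧ ∀ t ∈ S, ∀ x : V,
        |it l (fun x => H459R3.NS.pd k (K t) (lm M x)) x| ≤ C :=
      fun k => ih (hK.pd k)
    choose C hC0 hC using h1
    refine ⟨∑ k, |M k i| * C k, Finset.sum_nonneg fun k _ => mul_nonneg (abs_nonneg _) (hC0 k),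
      fun t ht x => ?_⟩
    have hKt := hK.sm t ht
    have hs : ∀ k, ContDiff ℝ ∞ fun x => H459R3.NS.pd k (K t) (lm M x) :=
      fun k => sm_lin (sm_pd hKt k) M
    rw [it_cons, pd_lin hKt, it_sum l (f := fun k x => M k i * H459R3.NS.pd k (K t) (lm M x))
      (fun k => contDiff_const.mul (hs k))]
    refine (Finset.abs_sum_le_sum_abs _ _).trans (Finset.sum_le_sum fun k _ => ?_)
    rw [it_cmul l (M k i) (hs k), abs_mul]
    exact mul_le_mul_of_nonneg_left (hC k t ht x) (abs_nonneg _)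

lemma UB_lin (M : Matrix (Fin 3) (Fin 3) ℝ) {K : ℝ → V → ℝ} (hK : UB S K) :
    UB S fun t x => K t (lm M x) :=
  ⟨fun t ht => sm_lin (hK.sm t ht) M, fun l => lin_bdT M l hK⟩

lemma it_ez (l : List (Fin 3)) : ∀ {f : V → ℝ}, f =ᶠ[𝓝 x] (fun _ => 0) →
    it l f =ᶠ[𝓝 x] (fun _ => 0) := by
  induction l with
  | nil =>
    intro f hf
    exact hf
  | cons i l ih =>
    intro f hf
    rw [it_cons]
    apply ih
    have h1 : fderiv ℝ f =ᶠ[𝓝 x] fderiv ℝ (fun _ : V => (0 : ℝ)) := hf.fderiv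
    filter_upwards [h1] with y hy
    show fderiv ℝ f y (Pi.single i 1) = 0
    rw [hy]
    simp

lemma q_J (hh : ContDiff ℝ ∞ h) (hT : T ≤ T') (I : Finset (Fin 3)) (x₀ : V) :
    J T (fun τ x => h (qI I x₀ x / (T' - τ))) := by
  unfold J
  refine hh.comp_contDiffOn (ContDiffOn.div ?_ (by fun_prop) ?_)
  · have : ContDiff ℝ ∞ fun z : ℝ × V => qI I x₀ z.2 := by
      unfold qI
      fun_prop
    exact this.contDiffOn
  · rintro ⟨t, x⟩ ⟨ht, -⟩
    have := ht.2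
    simp only
    exact (by linarith : 0 < T' - t).ne'

lemma q_ubU (hh : ContDiff ℝ ∞ h) (h0 : ∀ s, 2 ≤ s → h s = 0) (ha : 0 < a) (hb : b < T')
    (x₀ : V) : UB (Icc a b) (fun τ x => h (qI Finset.univ x₀ x / (T' - τ))) := by
  have hJ : J T' (fun τ x => h (qI Finset.univ x₀ x / (T' - τ))) := q_J hh le_rfl _ _
  have hsub : ∀ τ ∈ Icc a b, τ ∈ Ioo 0 T' := fun τ hτ => ⟨ha.trans_le hτ.1, hτ.2.trans_lt hb⟩
  refine ⟨fun τ hτ => ?_, fun l => ?_⟩
  · refine hh.comp ?_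
    unfold qI
    fun_prop
  · obtain ⟨r, hr⟩ : ∃ r : ℝ, r = √(2 * (T' - a)) := ⟨_, rfl⟩
    have hr0 : 0 ≤ r := by rw [hr]; positivity
    have hJl := J_it l hJ
    have hc : ContinuousOn (fun z : ℝ × V => it l (fun x => h (qI Finset.univ x₀ x / (T' - z.1))) z.2)
        (Icc a b ×ˢ closedBall x₀ r) := by
      refine ContinuousOn.mono (ContDiffOn.continuousOn hJl) ?_
      rintro ⟨τ, x⟩ ⟨hτ, -⟩
      exact ⟨hsub τ hτ, mem_univ _⟩
    obtain ⟨C, hC⟩ := (isCompact_Icc.prod (isCompact_closedBall x₀ r)).exists_bound_of_continuousOn hc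
    refine ⟨max C 0, le_max_right _ _, fun τ hτ x => ?_⟩
    by_cases hx : x ∈ closedBall x₀ r
    · exact (hC (τ, x) ⟨hτ, hx⟩).trans (le_max_left _ _)
    · have h1 : (fun x => h (qI Finset.univ x₀ x / (T' - τ))) =ᶠ[𝓝 x] (fun _ => 0) := by
        filter_upwards [isClosed_closedBall.isOpen_compl.mem_nhds hx] with y hy
        apply h0
        have hτ1 := hsub τ hτ
        rw [mem_compl_iff, mem_closedBall, dist_pi_le_iff hr0] at hy
        push Not at hy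
        obtain ⟨i, hi⟩ := hy
        rw [Real.dist_eq] at hi
        have h2 : r ≤ dI Finset.univ x₀ y := hi.le.trans (abs_le_dI (Finset.mem_univ i))
        have h3 : 2 * (T' - a) ≤ qI Finset.univ x₀ y := by
          rw [← dI_sq, ← Real.sq_sqrt (by linarith [hτ.1, hτ1.2] : 0 ≤ 2 * (T' - a)), ← hr]
          exact pow_le_pow_left₀ hr0 h2 2
        rw [le_div_iff₀ (by linarith [hτ1.2])]
        linarith [hτ.1, hτ1.2]
      have h2 := (it_ez l h1).eq_of_nhds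
      rw [h2, abs_zero]
      exact le_max_right _ _

lemma q_ub (hh : ContDiff ℝ ∞ h) (h0 : ∀ s, 2 ≤ s → h s = 0) (ha : 0 < a) (hb : b < T')
    (I : Finset (Fin 3)) (x₀ : V) : UB (Icc a b) (fun τ x => h (qI I x₀ x / (T' - τ))) := by
  obtain ⟨c, hc⟩ : ∃ c : V, c = fun i => if i ∈ I then x₀ i else 0 := ⟨_, rfl⟩
  obtain ⟨M, hM⟩ : ∃ M : Matrix (Fin 3) (Fin 3) ℝ, M = Matrix.diagonal fun i => if i ∈ I then 1 else 0 :=
    ⟨_, rfl⟩
  have hlm : ∀ x i, lm M x i = if i ∈ I then x i else 0 := by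
    intro x i
    rw [lm_apply, hM]
    simp [Matrix.diagonal_apply]
  have h1 := UB_lin M (q_ubU hh h0 ha hb c)
  refine h1.congr fun τ _ => ?_
  funext x
  have e1 : qI I x₀ x = qI Finset.univ c (lm M x) := by
    unfold qI
    rw [← Finset.sum_subset (Finset.subset_univ I)]
    · refine Finset.sum_congr rfl fun i hi => ?_
      rw [hlm, hc]
      simp only [if_pos hi]
    · intro i _ hi
      rw [hlm, hc]
      simp only [if_neg hi]
      norm_num
  rw [e1]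

end

/-- The factor in time. -/
noncomputable def az (z : ℝ) : ℝ := √(√z) * z⁻¹

/-- The kernel. -/
noncomputable def Ps (I : Finset (Fin 3)) (x₀ : V) (T' τ : ℝ) (x : V) : ℝ :=
  az (T' - τ) * ph (qI I x₀ x / (T' - τ))

section
variable {I : Finset (Fin 3)} {T T' a b τ z : ℝ} {x₀ x : V} {n : ℕ} {c : Fin 3}

lemma az_pos (hz : 0 < z) : 0 < az z := by
  unfold az
  have := Real.sqrt_pos.2 (Real.sqrt_pos.2 hz)
  positivity

lemma az_hd (hz : 0 < z) : HasDerivAt az (-(3 / 4 * (az z * z⁻¹))) z := by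
  have h0 : 0 < √z := Real.sqrt_pos.2 hz
  have h1 : 0 < √(√z) := Real.sqrt_pos.2 h0
  have h2 : HasDerivAt (fun z : ℝ => √(√z)) (1 / (2 * √z) / (2 * √(√z))) z :=
    ((Real.hasDerivAt_sqrt hz.ne').sqrt h0.ne')
  have h3 := h2.mul (hasDerivAt_inv hz.ne')
  refine h3.congr_deriv ?_
  have e1 : √(√z) * √(√z) = √z := Real.mul_self_sqrt h0.le
  have e2 : √z * √z = z := Real.mul_self_sqrt hz.le
  have e3 : 1 / (2 * √z) / (2 * √(√z)) = √(√z) / (4 * z) := by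
    rw [div_div, div_eq_div_iff (by positivity) (by positivity)]
    calc 1 * (4 * z) = 4 * (√z * √z) := by rw [e2, one_mul]
      _ = 4 * (√z * (√(√z) * √(√z))) := by rw [e1]
      _ = _ := by ring
  rw [e3]
  unfold az
  field_simp
  ring

lemma Ps_dt (hτ : τ < T') (x : V) : HasDerivAt (fun τ => Ps I x₀ T' τ x)
    (az (T' - τ) * (T' - τ)⁻¹ * (3 / 4 * ph (qI I x₀ x / (T' - τ))
      + qI I x₀ x / (T' - τ) * ph' (qI I x₀ x / (T' - τ)))) τ := by
  have hz : 0 < T' - τ := by linarith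
  have h1 : HasDerivAt (fun s => T' - s) (-1) τ := by
    simpa using (hasDerivAt_id τ).const_sub T'
  have h2 : HasDerivAt (fun s => az (T' - s)) (-(3 / 4 * (az (T' - τ) * (T' - τ)⁻¹)) * -1) τ :=
    (az_hd hz).comp τ h1
  have h3 : HasDerivAt (fun s => qI I x₀ x / (T' - s)) (qI I x₀ x / (T' - τ) ^ 2) τ := by
    have := (hasDerivAt_const τ (qI I x₀ x)).div h1 hz.ne'
    refine this.congr_deriv ?_
    ring
  have h4 : HasDerivAt (fun s => ph (qI I x₀ x / (T' - s))) (ph' (qI I x₀ x / (T' - τ))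
      * (qI I x₀ x / (T' - τ) ^ 2)) τ := (ph_hd _).comp τ h3
  refine (h2.mul h4).congr_deriv ?_
  field_simp

lemma Ps_J (hT : T ≤ T') (I : Finset (Fin 3)) (x₀ : V) : J T (Ps I x₀ T') := by
  have h1 : J T (fun τ _ => az (T' - τ)) := by
    unfold J az
    have h0 : ∀ z ∈ Ioo 0 T ×ˢ (univ : Set V), 0 < T' - z.1 := by
      rintro ⟨t, x⟩ ⟨ht, -⟩
      have := ht.2
      simp only
      linarith
    have h1 : ContDiffOn ℝ ∞ (fun z : ℝ × V => T' - z.1) (Ioo 0 T ×ˢ univ) := by fun_prop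
    have h2 : ContDiffOn ℝ ∞ (fun z : ℝ × V => √(√(T' - z.1))) (Ioo 0 T ×ˢ univ) :=
      (h1.sqrt fun z hz => (h0 z hz).ne').sqrt fun z hz => (Real.sqrt_pos.2 (h0 z hz)).ne'
    exact h2.mul (h1.inv fun z hz => (h0 z hz).ne')
  exact h1.mul (q_J ph_cd hT I x₀)

/-- The Gaussian part. -/
lemma Ps_eq (hI : I.card = n + 1) (hτ : τ < T') (x : V) : Ps I x₀ T' τ x
    = az (T' - τ) * (√(T' - τ)) ^ (n + 1) * kI I 1 T' x₀ τ x
      + -(az (T' - τ)) * g1 (qI I x₀ x / (T' - τ)) := by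
  have hz : 0 < T' - τ := by linarith
  have hr : 0 < √(T' - τ) := Real.sqrt_pos.2 hz
  unfold Ps ph
  rw [kI_eq, hI, inv_pow]
  have e1 : -(1 / (4 * 1 * (T' - τ))) * qI I x₀ x = -(qI I x₀ x / (T' - τ) / 4) := by
    field_simp
  rw [e1]
  field_simp
  ring

lemma tc_bd {f : ℝ → ℝ} (hf : ContinuousOn f (Icc a b)) : ∃ C : ℝ, ∀ t ∈ Icc a b, |f t| ≤ C := by
  obtain ⟨C, hC⟩ := isCompact_Icc.exists_bound_of_continuousOn hf
  exact ⟨C, fun t ht => hC t ht⟩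

lemma az_cont (hb : b < T') : ContinuousOn (fun τ => az (T' - τ)) (Icc a b) := by
  unfold az
  refine ContinuousOn.mul (by fun_prop) (ContinuousOn.inv₀ (by fun_prop) fun τ hτ => ?_)
  exact (by linarith [hτ.2] : 0 < T' - τ).ne'

lemma zi_cont (hb : b < T') : ContinuousOn (fun τ => (T' - τ)⁻¹) (Icc a b) :=
  ContinuousOn.inv₀ (by fun_prop) fun τ hτ => (by linarith [hτ.2] : 0 < T' - τ).ne'

lemma Ps_ub (hI : I.card = n + 1) (ha : 0 < a) (hab : a ≤ b) (hb : b < T') (x₀ : V) :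
    UB (Icc a b) (Ps I x₀ T') := by
  have c1 : ContinuousOn (fun τ => az (T' - τ) * (√(T' - τ)) ^ (n + 1)) (Icc a b) :=
    (az_cont hb).mul (by fun_prop)
  obtain ⟨C1, hC1⟩ := tc_bd c1
  obtain ⟨C2, hC2⟩ := tc_bd (az_cont hb).neg
  have u1 := UB_tm hC1 (kI_ub (x₀ := x₀) one_pos hab hb I)
  have u2 := UB_tm hC2 (q_ub g1_cd (fun s hs => g1_zero (by linarith)) ha hb I x₀)
  refine (u1.add u2).congr fun τ hτ => ?_
  funext x
  exact Ps_eq hI (hτ.2.trans_lt hb) x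

lemma kI_q (hI : I.card = n + 1) (hτ : τ < T') (x : V) :
    qI I x₀ x / (4 * (T' - τ) ^ 2) * kI I 1 T' x₀ τ x
      = (n + 1) / (2 * (T' - τ)) * kI I 1 T' x₀ τ x + lp (kI I 1 T' x₀ τ) x := by
  have h1 := kI_heat (I := I) (x₀ := x₀) one_pos hτ x
  have h2 : HasDerivAt (fun s => kI I 1 T' x₀ s x) (Ek (n + 1) 1 (dI I x₀ x) (T' - τ)
      * ((n + 1 : ℕ) / (2 * (T' - τ)) - dI I x₀ x ^ 2 / (4 * 1 * (T' - τ) ^ 2))) τ := by
    have h3 := Ek_deriv (k := n + 1) (ρ := dI I x₀ x) one_pos (by omega) hτ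
    refine h3.congr_of_eventuallyEq (Eventually.of_forall fun s => ?_)
    exact kI_Ek hI x
  rw [h2.deriv, ← kI_Ek hI x, dI_sq] at h1
  push_cast at h1
  rw [one_mul, mul_one] at h1
  linarith

lemma Ps_ubt (hI : I.card = n + 1) (ha : 0 < a) (hab : a ≤ b) (hb : b < T') (x₀ : V) :
    UB (Icc a b) (fun τ x => deriv (fun r => Ps I x₀ T' r x) τ) := by
  have c1 : ContinuousOn (fun τ => az (T' - τ) * (√(T' - τ)) ^ (n + 1)
      * ((3 / 4 - (n + 1) / 2) * (T' - τ)⁻¹)) (Icc a b) :=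
    ((az_cont hb).mul (by fun_prop)).mul (continuousOn_const.mul (zi_cont hb))
  have c2 : ContinuousOn (fun τ => -(az (T' - τ) * (√(T' - τ)) ^ (n + 1))) (Icc a b) :=
    ((az_cont hb).mul (by fun_prop)).neg
  have c3 : ContinuousOn (fun τ => az (T' - τ) * (T' - τ)⁻¹) (Icc a b) :=
    (az_cont hb).mul (zi_cont hb)
  obtain ⟨C1, hC1⟩ := tc_bd c1
  obtain ⟨C2, hC2⟩ := tc_bd c2
  obtain ⟨C3, hC3⟩ := tc_bd c3
  have hk := kI_ub (x₀ := x₀) one_pos hab hb I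
  have hlp : UB (Icc a b) (fun τ => lp (kI I 1 T' x₀ τ)) := by
    unfold OS.lp
    exact UB.sum fun k => (hk.pd k).pd k
  have hs : ContDiff ℝ ∞ fun s => -(3 / 4 * g1 s) + s * j1 s :=
    (contDiff_const.mul g1_cd).neg.add (contDiff_id.mul j1_cd)
  have u1 := UB_tm hC1 hk
  have u2 := UB_tm hC2 hlp
  have u3 := UB_tm hC3 (q_ub hs (fun s hs => by rw [g1_zero (by linarith), j1_zero (by linarith)]; ring) ha hb I x₀)
  refine ((u1.add u2).add u3).congr fun τ hτ => ?_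
  funext x
  have hτ' : τ < T' := hτ.2.trans_lt hb
  have hz : 0 < T' - τ := by linarith
  have hr : 0 < √(T' - τ) := Real.sqrt_pos.2 hz
  rw [(Ps_dt hτ' x).deriv]
  have e1 := kI_q (x₀ := x₀) hI hτ' x
  have e2 : kI I 1 T' x₀ τ x
      = ((√(T' - τ)) ^ (n + 1))⁻¹ * Real.exp (-(qI I x₀ x / (T' - τ) / 4)) := by
    rw [kI_eq, hI, inv_pow]
    congr 2
    field_simp
  have e3 : lp (kI I 1 T' x₀ τ) x = (qI I x₀ x / (4 * (T' - τ) ^ 2) - (n + 1) / (2 * (T' - τ)))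
      * kI I 1 T' x₀ τ x := by linarith
  rw [e3, e2]
  unfold ph ph'
  field_simp
  ring

/-- The gradient. -/
lemma q_pd {φ φ' : ℝ → ℝ} (hφ : ∀ s, HasDerivAt φ (φ' s) s) (z : ℝ) (j : Fin 3) (x : V) :
    H459R3.NS.pd j (fun x => φ (qI I x₀ x / z)) x
      = if j ∈ I then φ' (qI I x₀ x / z) * (2 * (x j - x₀ j) / z) else 0 := by
  have h1 : HasFDerivAt (fun x => qI I x₀ x / z)
      (z⁻¹ • (∑ i ∈ I, (2 * (x i - x₀ i)) • (ContinuousLinearMap.proj i : V →L[ℝ] ℝ))) x := by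
    have h2 := (qI_hd I x₀ x).mul_const z⁻¹
    simp only [← div_eq_mul_inv] at h2
    exact h2
  have h2 : HasFDerivAt (fun x => φ (qI I x₀ x / z)) _ x :=
    (hφ (qI I x₀ x / z)).comp_hasFDerivAt x h1
  show fderiv ℝ (fun x => φ (qI I x₀ x / z)) x (Pi.single j 1) = _
  rw [h2.fderiv]
  simp only [ContinuousLinearMap.smul_apply,
    ContinuousLinearMap.sum_apply, ContinuousLinearMap.proj_apply, smul_eq_mul]
  by_cases hj : j ∈ I
  · rw [if_pos hj]
    rw [Finset.sum_eq_single_of_mem j hj]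
    · rw [Pi.single_eq_same]
      ring
    · intro i _ hij
      rw [Pi.single_eq_of_ne hij]
      ring
  · rw [if_neg hj]
    rw [Finset.sum_eq_zero]
    · ring
    · intro i hi
      have hij : i ≠ j := fun h => hj (h ▸ hi)
      rw [Pi.single_eq_of_ne hij]
      ring

end

end Pool.Agent.H305.EG
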