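import Pool.Agent.H305.EG.Pw

/-!
The pointwise criterion.
-/

set_option autoImplicit false

open MeasureTheory Set Metric Filter Topology
open scoped ContDiff ENNReal

namespace Pool.Agent.H305.EG

open H459R3.NS W221.NS Pool.Agent.V1183.PM Pool.Agent.H305.OS Pool.Agent.H305.SL Pool.Agent.H305.PL
  Pool.Agent.H305.EF

/-- The standard frame. -/
def sf (i l : Fin 3) : ℝ := if i = l then 1 else 0

lemma sf_on (i j : Fin 3) : ∑ l, sf i l * sf j l = if i = j then 1 else 0 := by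
  unfold sf
  simp only [mul_ite, mul_one, mul_zero, Finset.sum_ite_eq, Finset.mem_univ, if_true]

lemma dsf_sf (b x : V) : dsf sf b x = qI Finset.univ b x := by
  unfold dsf qI
  refine Finset.sum_congr rfl fun i _ => ?_
  unfold sf
  simp

/-- The pointwise criterion. -/
theorem crit_pt : ∃ ε : ℝ, 0 < ε ∧ ∀ (ν T : ℝ) (u : ℝ → V → V)
    (p : ℝ → V → ℝ), HS ν T u p → ∀ a : ℝ, 0 ≤ a → a < T → ∀ (b : V) (R : ℝ), 0 < R →
    ∀ g : ℝ → ℝ, IntegrableOn g (Ioo a T) →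
    (∀ᵐ t ∂(volume.restrict (Ioo a T)), ∀ x, x ≠ b → ∑ i, (x i - b i) ^ 2 < R ^ 2 →
      -(((∑ i, u t x i ^ 2) + 2 * p t x) * ∑ i, u t x i * (x i - b i))
        ≤ g t + ε * ν ^ 3 / ∑ i, (x i - b i) ^ 2) →
    ∃ d : ℝ, 0 < d ∧ ∃ M : ℝ, ∀ t ∈ Ioo (T - d) T, ∀ x ∈ nbh sf b d, ∀ i, |u t x i| ≤ M := by
  obtain ⟨ε, hε, hcr⟩ := crit_abs
  refine ⟨ε / 48, by positivity, ?_⟩
  intro ν T u p h a ha haT b R hR g hg hin
  have hν := h.hν
  obtain ⟨h₀, hh₀, -, hsm⟩ := small_int hg.abs (fun τ => abs_nonneg (g τ))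
    (η := ε * ν ^ 2 / 16) (by positivity) haT
  obtain ⟨a', ha'⟩ : ∃ a', a' = max a (T - h₀) := ⟨_, rfl⟩
  have ha1 : a ≤ a' := by rw [ha']; exact le_max_left _ _
  have ha2 : T - h₀ ≤ a' := by rw [ha']; exact le_max_right _ _
  have ha3 : a' < T := by rw [ha']; exact max_lt haT (by linarith)
  refine hcr ν T u p h a' (ha.trans ha1) ha3 3 sf (by norm_num) sf_on b R hR (Or.inr (Or.inl ?_))
  intro ρ hρ t t' h1 h2 h3 h4
  have hρ0 := hρ.1
  have ht0 : 0 < t := (ha.trans ha1).trans_lt h1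
  have hsub : Ioc t t' ⊆ Ioo a T := fun τ hτ => ⟨(ha1.trans_lt h1).trans hτ.1, hτ.2.trans_lt h3⟩
  have e1 : ∫ τ in Ioc t t', net ν (cw u τ) (p τ) (fun x => max (1 - dsf sf b x / ρ ^ 2) 0)
      = ∫ τ in Ioc t t', Ah Finset.univ b ν ρ (cw u τ) (p τ) := by
    refine setIntegral_congr_fun measurableSet_Ioc fun τ hτ => ?_
    have hτ0 : τ ∈ Ioo 0 T := ⟨ht0.trans hτ.1, hτ.2.trans_lt h3⟩
    simp only [dsf_sf]
    exact (Ah_net (fun i => h.cw_HF hτ0 i) (h.div τ hτ0) (h.p_HF hτ0) hρ0 (gF_fin h hτ0)).symm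
  rw [e1]
  have i1 : IntegrableOn (fun τ => Ah Finset.univ b ν ρ (cw u τ) (p τ)) (Ioc t t') :=
    (swapA h ht0 h3 (T' := T + 1) (by linarith) hR Finset.univ b 1).1 ρ hρ
  have ig : IntegrableOn (fun τ => 8 * ρ * |g τ|) (Ioc t t') :=
    ((hg.mono_set hsub).abs).const_mul _
  have ic : IntegrableOn (fun _ : ℝ => 24 * (ε / 48 * ν ^ 3) / ρ) (Ioc t t') :=
    integrableOn_const (by rw [Real.volume_Ioc]; exact ENNReal.ofReal_ne_top)
  have hle : ∀ᵐ τ ∂(volume.restrict (Ioc t t')), Ah Finset.univ b ν ρ (cw u τ) (p τ)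
      ≤ 8 * ρ * |g τ| + 24 * (ε / 48 * ν ^ 3) / ρ := by
    filter_upwards [ae_restrict_of_ae_restrict_of_subset hsub hin,
      ae_restrict_mem measurableSet_Ioc] with τ h5 hτ
    have hτ0 : τ ∈ Ioo 0 T := ⟨ht0.trans hτ.1, hτ.2.trans_lt h3⟩
    refine Ah_pt hν (fun i => h.cw_HF hτ0 i) (h.p_HF hτ0) (gF_fin h hτ0) hρ0 (abs_nonneg _)
      (by positivity) fun x hx hxb => ?_
    have h6 : ∑ i, (x i - b i) ^ 2 < R ^ 2 := by
      have h7 : dI Finset.univ b x < ρ := hx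
      have h8 : dI Finset.univ b x ^ 2 < R ^ 2 :=
        pow_lt_pow_left₀ (h7.trans hρ.2) (dI_nonneg _ _ _) (by norm_num)
      rw [dI_sq] at h8
      exact h8
    exact (h5 x hxb h6).trans (add_le_add (le_abs_self _) le_rfl)
  have igc : IntegrableOn (fun τ => 8 * ρ * |g τ| + 24 * (ε / 48 * ν ^ 3) / ρ) (Ioc t t') :=
    ig.add ic
  have h5 := hsm t t' (ha2.trans h1.le) h3
  have h6 : (t' - t) ≤ ρ ^ 2 / ν := by
    rw [le_div_iff₀ hν]
    linarith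
  calc ∫ τ in Ioc t t', Ah Finset.univ b ν ρ (cw u τ) (p τ)
      ≤ ∫ τ in Ioc t t', (8 * ρ * |g τ| + 24 * (ε / 48 * ν ^ 3) / ρ) :=
        integral_mono_ae i1 igc hle
    _ = 8 * ρ * (∫ τ in Ioc t t', |g τ|) + (t' - t) * (24 * (ε / 48 * ν ^ 3) / ρ) := by
        rw [integral_add ig ic, integral_const_mul, setIntegral_const,
          Real.volume_real_Ioc_of_le h2.le, smul_eq_mul]
    _ ≤ 8 * ρ * (ε * ν ^ 2 / 16) + ρ ^ 2 / ν * (24 * (ε / 48 * ν ^ 3) / ρ) := by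
        gcongr
    _ = ε * ν ^ 2 * ρ := by
        field_simp
        ring

end Pool.Agent.H305.EG
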