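import Pool.Agent.H305.EG.Pb

/-!
The tents, integrated in time first.
-/

set_option autoImplicit false

open MeasureTheory Set Metric Filter Topology
open scoped ContDiff ENNReal

namespace Pool.Agent.H305.EG

open H459R3.NS W221.NS Pool.Agent.V1183.PM Pool.Agent.H305.OS Pool.Agent.H305.SL Pool.Agent.H305.PL
  Pool.Agent.H305.EF

/-- The weight of the radial flux. -/
noncomputable def bD1 (D : ℝ → ℝ → ℝ) (ρ z : ℝ) : ℝ := 2 * ρ * D ρ z

/-- The weight of the dissipation. -/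
noncomputable def bD2 (D : ℝ → ℝ → ℝ) (d ρ z : ℝ) : ℝ := 2 * ρ * (ρ ^ 2 - d ^ 2) * D ρ z

/-- The weights. -/
noncomputable def mD (D : ℝ → ℝ → ℝ) (ρ z : ℝ) : ℝ := 2 * ρ ^ 3 * D ρ z

/-- The part of the density with the weights. -/
noncomputable def GD (D : ℝ → ℝ → ℝ) (I : Finset (Fin 3)) (x₀ : V) (ν R T' : ℝ) (u : ℝ → V → V)
    (p : ℝ → V → ℝ) (τ : ℝ) (x : V) : ℝ :=
  (nb I x₀ R).indicator (KA I x₀ (cw u τ) (p τ)) x
      * (∫ ρ in Ioo 0 R, (Ioi (dI I x₀ x)).indicator (fun ρ => bD1 D ρ (T' - τ)) ρ)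
    - ν * (gw (cw u τ) x
      * ∫ ρ in Ioo 0 R, (Ioi (dI I x₀ x)).indicator (fun ρ => bD2 D (dI I x₀ x) ρ (T' - τ)) ρ)

section
variable {ν T t₀ t₁ s T' R r ρ z d : ℝ} {u : ℝ → V → V} {p : ℝ → V → ℝ} {I : Finset (Fin 3)} {x₀ : V}
  {n k : ℕ} {w : Fin 3 → V → ℝ} {q : V → ℝ}

lemma bD1_bd {D : ℝ → ℝ → ℝ} {C : ℝ} (hρ : ρ ∈ Ioo 0 R) (hD : |D ρ z| ≤ C) :
    |bD1 D ρ z| ≤ 2 * R * C := by
  unfold bD1
  have h2 := hρ.1
  have h3 : 0 < R := hρ.1.trans hρ.2
  rw [abs_mul, abs_of_pos (by positivity : 0 < 2 * ρ)]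
  exact mul_le_mul (by linarith [hρ.2]) hD (abs_nonneg _) (by positivity)

lemma bD2_bd {D : ℝ → ℝ → ℝ} {C : ℝ} (hρ : ρ ∈ Ioo 0 R) (hd0 : 0 ≤ d) (hd : d < ρ)
    (hD : |D ρ z| ≤ C) : |bD2 D d ρ z| ≤ 2 * R * R ^ 2 * C := by
  unfold bD2
  have h2 := hρ.1
  have hR0 : 0 < R := hρ.1.trans hρ.2
  have h3 : 0 ≤ ρ ^ 2 - d ^ 2 := by nlinarith
  have h4 : ρ ^ 2 - d ^ 2 ≤ R ^ 2 := by
    have := pow_le_pow_left₀ h2.le hρ.2.le 2
    nlinarith
  rw [abs_mul, abs_of_nonneg (by positivity : 0 ≤ 2 * ρ * (ρ ^ 2 - d ^ 2))]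
  exact mul_le_mul (mul_le_mul (by linarith [hρ.2]) h4 h3 (by positivity)) hD (abs_nonneg _)
    (by positivity)

/-- The layer cake formula, integrated in time first. -/
lemma swapG {D : ℝ → ℝ → ℝ} {C₀ : ℝ} (hDm : Measurable fun q : ℝ × ℝ => D q.1 q.2)
    (hDb : ∀ ρ ∈ Ioo 0 R, ∀ z, T' - s ≤ z → z ≤ T' - t₁ → |D ρ z| ≤ C₀) (hC₀ : 0 ≤ C₀)
    (h : HS ν T u p) (ht₁ : 0 < t₁) (hs : s < T) (hR : 0 < R) (I : Finset (Fin 3)) (x₀ : V) :
    (∀ ρ ∈ Ioo 0 R, IntegrableOn (fun τ => Ah I x₀ ν ρ (cw u τ) (p τ)) (Ioc t₁ s)) ∧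
    IntegrableOn (fun ρ => ∫ τ in Ioc t₁ s, mD D ρ (T' - τ) * Ah I x₀ ν ρ (cw u τ) (p τ))
      (Ioo 0 R) ∧
    IntegrableOn (fun τ => ∫ x, GD D I x₀ ν R T' u p τ x) (Ioc t₁ s) ∧
    ∫ τ in Ioc t₁ s, ∫ x, GD D I x₀ ν R T' u p τ x
      = ∫ ρ in Ioo 0 R, ∫ τ in Ioc t₁ s, mD D ρ (T' - τ) * Ah I x₀ ν ρ (cw u τ) (p τ) := by
  have hν := h.hν
  have hK := KR_int h ht₁ hs I x₀ R
  have hgw : Integrable (fun z : ℝ × V => gw (cw u z.1) z.2)
      ((volume.restrict (Ioc t₁ s)).prod volume) := by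
    have ju : ∀ i, J T (fun t => cw u t i) := h.ju
    have uu : ∀ i, UF (Icc t₁ s) (fun τ => cw u τ i) := fun i => h.uu t₁ s ht₁ hs i
    have i3 : ∀ i k, Integrable (fun z : ℝ × V => H459R3.NS.pd k (cw u z.1 i) z.2 ^ 2)
        ((volume.restrict (Ioc t₁ s)).prod volume) := fun i k => by
      have := prod_int ht₁ hs ((ju i).pd k) ((ju i).pd k) ((uu i).pd k) ((uu i).pd k)
      refine this.congr (Eventually.of_forall fun z => ?_)
      show _ * _ = _ ^ 2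
      ring
    unfold gw
    exact integrable_finsetSum _ fun i _ => integrable_finsetSum _ fun k _ => i3 i k
  obtain ⟨μ, hμ⟩ : ∃ μ : Measure ℝ, μ = volume.restrict (Ioc t₁ s) := ⟨_, rfl⟩
  obtain ⟨lam, hlam⟩ : ∃ lam : Measure ℝ, lam = volume.restrict (Ioo 0 R) := ⟨_, rfl⟩
  rw [← hμ] at hK hgw
  have : IsFiniteMeasure μ := by
    rw [hμ]
    exact ⟨by rw [Measure.restrict_apply_univ, Real.volume_Ioc]; exact ENNReal.ofReal_lt_top⟩
  have : IsFiniteMeasure lam := by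
    rw [hlam]
    exact ⟨by rw [Measure.restrict_apply_univ, Real.volume_Ioo]; exact ENNReal.ofReal_lt_top⟩
  have hd : Measurable (dI I x₀) := (dI_cont I x₀).measurable
  -- the factors
  obtain ⟨S, hS⟩ : ∃ S : Set ((ℝ × V) × ℝ), S = {q | dI I x₀ q.1.2 < q.2} := ⟨_, rfl⟩
  have hSm : MeasurableSet S := by
    rw [hS]
    exact measurableSet_lt (hd.comp measurable_fst.snd) measurable_snd
  have hEm : Measurable fun q : (ℝ × V) × ℝ => D q.2 (T' - q.1.1) :=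
    hDm.comp (measurable_snd.prodMk (measurable_fst.fst.const_sub T'))
  obtain ⟨W₁, hW₁⟩ : ∃ W : (ℝ × V) × ℝ → ℝ, W = S.indicator fun q => bD1 D q.2 (T' - q.1.1) :=
    ⟨_, rfl⟩
  obtain ⟨W₂, hW₂⟩ : ∃ W : (ℝ × V) × ℝ → ℝ,
    W = S.indicator fun q => bD2 D (dI I x₀ q.1.2) q.2 (T' - q.1.1) := ⟨_, rfl⟩
  have hW₁m : Measurable W₁ := by
    rw [hW₁]
    refine Measurable.indicator ?_ hSm
    unfold bD1
    exact (measurable_snd.const_mul 2).mul hEm
  have hW₂m : Measurable W₂ := by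
    rw [hW₂]
    refine Measurable.indicator ?_ hSm
    unfold bD2
    exact ((measurable_snd.const_mul 2).mul ((measurable_snd.pow_const 2).sub
      ((hd.comp measurable_fst.snd).pow_const 2))).mul hEm
  have hm1 : (μ.prod (volume : Measure V)).prod lam
      = (((volume : Measure ℝ).prod (volume : Measure V)).prod (volume : Measure ℝ)).restrict
        ((Ioc t₁ s ×ˢ univ) ×ˢ Ioo 0 R) := by
    rw [hμ, hlam, ← Measure.prod_restrict, ← Measure.prod_restrict, Measure.restrict_univ]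
  have hm2 : μ.prod (volume : Measure V)
      = ((volume : Measure ℝ).prod (volume : Measure V)).restrict (Ioc t₁ s ×ˢ univ) := by
    rw [hμ, ← Measure.prod_restrict, Measure.restrict_univ]
  obtain ⟨C₁, hC₁⟩ : ∃ C : ℝ, C = 2 * R * C₀ := ⟨_, rfl⟩
  obtain ⟨C₂, hC₂⟩ : ∃ C : ℝ, C = 2 * R * R ^ 2 * C₀ := ⟨_, rfl⟩
  have hC₁0 : 0 ≤ C₁ := by rw [hC₁]; positivity
  have hC₂0 : 0 ≤ C₂ := by rw [hC₂]; positivity
  have hW₁b : ∀ q ∈ (Ioc t₁ s ×ˢ (univ : Set V)) ×ˢ Ioo 0 R, ‖W₁ q‖ ≤ C₁ := by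
    intro q hq
    rw [hW₁]
    by_cases h1 : q ∈ S
    · rw [indicator_of_mem h1, hC₁]
      exact bD1_bd hq.2 (hDb _ hq.2 _ (by linarith [hq.1.1.2]) (by linarith [hq.1.1.1]))
    · rw [indicator_of_notMem h1, norm_zero]
      exact hC₁0
  have hW₂b : ∀ q ∈ (Ioc t₁ s ×ˢ (univ : Set V)) ×ˢ Ioo 0 R, ‖W₂ q‖ ≤ C₂ := by
    intro q hq
    rw [hW₂]
    by_cases h1 : q ∈ S
    · rw [indicator_of_mem h1, hC₂]
      rw [hS] at h1
      exact bD2_bd hq.2 (dI_nonneg _ _ _) h1 (hDb _ hq.2 _ (by linarith [hq.1.1.2])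
        (by linarith [hq.1.1.1]))
    · rw [indicator_of_notMem h1, norm_zero]
      exact hC₂0
  obtain ⟨H, hH⟩ : ∃ H : (ℝ × V) × ℝ → ℝ, H = fun q =>
      (nb I x₀ R).indicator (KA I x₀ (cw u q.1.1) (p q.1.1)) q.1.2 * W₁ q
        - ν * (gw (cw u q.1.1) q.1.2 * W₂ q) := ⟨_, rfl⟩
  have hHi : Integrable H ((μ.prod (volume : Measure V)).prod lam) := by
    rw [hH]
    refine Integrable.sub ((hK.comp_fst lam).mul_bdd hW₁m.aestronglyMeasurable (c := C₁) ?_)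
      (((hgw.comp_fst lam).mul_bdd hW₂m.aestronglyMeasurable (c := C₂) ?_).const_mul ν)
    · rw [hm1]
      exact ae_restrict_of_forall_mem ((measurableSet_Ioc.prod MeasurableSet.univ).prod
        measurableSet_Ioo) hW₁b
    · rw [hm1]
      exact ae_restrict_of_forall_mem ((measurableSet_Ioc.prod MeasurableSet.univ).prod
        measurableSet_Ioo) hW₂b
  -- for fixed `ρ`
  have hρi : ∀ ρ ∈ Ioo 0 R, Integrable (fun q : ℝ × V => H (q, ρ)) (μ.prod (volume : Measure V)) := by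
    intro ρ hρ
    rw [hH]
    refine Integrable.sub (hK.mul_bdd (hW₁m.comp (measurable_id.prodMk
      measurable_const)).aestronglyMeasurable (c := C₁) ?_) ((hgw.mul_bdd (hW₂m.comp
      (measurable_id.prodMk measurable_const)).aestronglyMeasurable (c := C₂) ?_).const_mul ν)
    · rw [hm2]
      exact ae_restrict_of_forall_mem (measurableSet_Ioc.prod MeasurableSet.univ)
        fun q hq => hW₁b (q, ρ) ⟨hq, hρ⟩
    · rw [hm2]
      exact ae_restrict_of_forall_mem (measurableSet_Ioc.prod MeasurableSet.univ)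
        fun q hq => hW₂b (q, ρ) ⟨hq, hρ⟩
  have e1 : ∀ ρ ∈ Ioo 0 R, ∀ τ : ℝ, ∫ x, H ((τ, x), ρ)
      = mD D ρ (T' - τ) * Ah I x₀ ν ρ (cw u τ) (p τ) := by
    intro ρ hρ τ
    have hρ0 : ρ ≠ 0 := hρ.1.ne'
    have e2 : (fun x : V => H ((τ, x), ρ))
        = (nb I x₀ ρ).indicator fun x => mD D ρ (T' - τ) * (KA I x₀ (cw u τ) (p τ) x / ρ ^ 2
          - ν * ((1 - qI I x₀ x / ρ ^ 2) * gw (cw u τ) x)) := by
      funext x
      rw [hH, hW₁, hW₂]
      by_cases hx : x ∈ nb I x₀ ρ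
      · have hxR : x ∈ nb I x₀ R := nb_mono hρ.2.le hx
        have h1 : ((τ, x), ρ) ∈ S := by rw [hS]; exact hx
        simp only
        rw [indicator_of_mem h1, indicator_of_mem h1, indicator_of_mem hx, indicator_of_mem hxR]
        unfold bD1 bD2 mD
        rw [dI_sq]
        field_simp
      · have h1 : ((τ, x), ρ) ∉ S := by rw [hS]; exact hx
        simp only
        rw [indicator_of_notMem h1, indicator_of_notMem h1, indicator_of_notMem hx]
        ring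
    rw [e2, integral_indicator nb_meas, integral_const_mul]
    rfl
  have e3 : ∀ ρ ∈ Ioo 0 R, ∫ q, H (q, ρ) ∂(μ.prod (volume : Measure V))
      = ∫ τ in Ioc t₁ s, mD D ρ (T' - τ) * Ah I x₀ ν ρ (cw u τ) (p τ) := by
    intro ρ hρ
    rw [integral_prod _ (hρi ρ hρ), hμ]
    exact integral_congr_ae (Eventually.of_forall fun τ => e1 ρ hρ τ)
  have hW₁i : ∀ τ ∈ Ioc t₁ s, ∀ x : V, Integrable (fun ρ => W₁ ((τ, x), ρ)) lam := by
    intro τ hτ x
    refine Integrable.of_bound (hW₁m.comp (measurable_const.prodMk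
      measurable_id)).aestronglyMeasurable C₁ ?_
    rw [hlam]
    exact ae_restrict_of_forall_mem measurableSet_Ioo fun ρ hρ => hW₁b ((τ, x), ρ) ⟨⟨hτ, mem_univ _⟩, hρ⟩
  have hW₂i : ∀ τ ∈ Ioc t₁ s, ∀ x : V, Integrable (fun ρ => W₂ ((τ, x), ρ)) lam := by
    intro τ hτ x
    refine Integrable.of_bound (hW₂m.comp (measurable_const.prodMk
      measurable_id)).aestronglyMeasurable C₂ ?_
    rw [hlam]
    exact ae_restrict_of_forall_mem measurableSet_Ioo fun ρ hρ => hW₂b ((τ, x), ρ) ⟨⟨hτ, mem_univ _⟩, hρ⟩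
  have e4 : ∀ τ ∈ Ioc t₁ s, ∀ x : V, ∫ ρ, H ((τ, x), ρ) ∂lam = GD D I x₀ ν R T' u p τ x := by
    intro τ hτ x
    have e5 : ∫ ρ, H ((τ, x), ρ) ∂lam
        = (nb I x₀ R).indicator (KA I x₀ (cw u τ) (p τ)) x * (∫ ρ, W₁ ((τ, x), ρ) ∂lam)
        - ν * (gw (cw u τ) x * ∫ ρ, W₂ ((τ, x), ρ) ∂lam) := by
      rw [hH]
      simp only
      rw [integral_sub ((hW₁i τ hτ x).const_mul _) (((hW₂i τ hτ x).const_mul _).const_mul _),
        integral_const_mul, integral_const_mul, integral_const_mul]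
    have e6 : (fun ρ => W₁ ((τ, x), ρ))
        = (Ioi (dI I x₀ x)).indicator (fun ρ => bD1 D ρ (T' - τ)) := by
      funext ρ
      rw [hW₁]
      by_cases hρ : dI I x₀ x < ρ
      · rw [indicator_of_mem (by rw [hS]; exact hρ), indicator_of_mem (by exact hρ)]
      · rw [indicator_of_notMem (by rw [hS]; exact hρ), indicator_of_notMem (by exact hρ)]
    have e7 : (fun ρ => W₂ ((τ, x), ρ))
        = (Ioi (dI I x₀ x)).indicator (fun ρ => bD2 D (dI I x₀ x) ρ (T' - τ)) := by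
      funext ρ
      rw [hW₂]
      by_cases hρ : dI I x₀ x < ρ
      · rw [indicator_of_mem (by rw [hS]; exact hρ), indicator_of_mem (by exact hρ)]
      · rw [indicator_of_notMem (by rw [hS]; exact hρ), indicator_of_notMem (by exact hρ)]
    rw [e5, e6, e7, hlam]
    rfl
  have hsw := integral_integral_swap (f := fun (q : ℝ × V) (ρ : ℝ) => H (q, ρ)) hHi
  have hpi : Integrable (fun q : ℝ × V => ∫ ρ, H (q, ρ) ∂lam)
      (μ.prod (volume : Measure V)) := hHi.integral_prod_left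
  have e8 : ∀ τ ∈ Ioc t₁ s, ∫ x, ∫ ρ, H ((τ, x), ρ) ∂lam = ∫ x, GD D I x₀ ν R T' u p τ x := by
    intro τ hτ
    exact integral_congr_ae (Eventually.of_forall fun x => e4 τ hτ x)
  refine ⟨fun ρ hρ => ?_, ?_, ?_, ?_⟩
  · have hqc : Continuous fun x => qI I x₀ x := qI_cont I x₀
    have a1 : Integrable (fun q : ℝ × V => (nb I x₀ ρ).indicator (KA I x₀ (cw u q.1) (p q.1)) q.2
        / ρ ^ 2) (μ.prod (volume : Measure V)) := by
      have := KR_int h ht₁ hs I x₀ ρ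
      rw [← hμ] at this
      exact this.div_const _
    have a2 : Integrable (fun q : ℝ × V => gw (cw u q.1) q.2
        * (nb I x₀ ρ).indicator (fun x => 1 - qI I x₀ x / ρ ^ 2) q.2) (μ.prod (volume : Measure V)) := by
      refine hgw.mul_bdd (c := 1) (Measurable.aestronglyMeasurable ?_) (Eventually.of_forall
        fun q => ?_)
      · have : Measurable ((nb I x₀ ρ).indicator (fun x => 1 - qI I x₀ x / ρ ^ 2)) :=
          Measurable.indicator (by fun_prop) nb_meas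
        exact this.comp measurable_snd
      · by_cases hq : q.2 ∈ nb I x₀ ρ
        · rw [indicator_of_mem hq, Real.norm_eq_abs, ← dI_sq]
          have h1 : dI I x₀ q.2 < ρ := hq
          have h2 := dI_nonneg I x₀ q.2
          have h3 : dI I x₀ q.2 ^ 2 / ρ ^ 2 ≤ 1 := by
            rw [div_le_one (by positivity [hρ.1])]
            exact pow_le_pow_left₀ h2 h1.le 2
          have h4 : 0 ≤ dI I x₀ q.2 ^ 2 / ρ ^ 2 := by positivity
          rw [abs_of_nonneg (by linarith)]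
          linarith
        · rw [indicator_of_notMem hq, norm_zero]
          norm_num
    have a3 := (a1.sub (a2.const_mul ν)).integral_prod_left
    rw [hμ] at a3
    refine IntegrableOn.congr_fun a3 (fun τ _ => ?_) measurableSet_Ioc
    unfold Ah
    rw [← integral_indicator nb_meas]
    congr 1
    funext x
    by_cases hx : x ∈ nb I x₀ ρ
    · simp only [Pi.sub_apply, indicator_of_mem hx]
      ring
    · simp only [Pi.sub_apply, indicator_of_notMem hx]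
      ring
  · have h1 := hHi.integral_prod_right
    rw [hlam] at h1
    exact IntegrableOn.congr_fun h1 (fun ρ hρ => e3 ρ hρ) measurableSet_Ioo
  · have h1 := hpi.integral_prod_left
    rw [hμ] at h1
    exact IntegrableOn.congr_fun h1 (fun τ hτ => e8 τ hτ) measurableSet_Ioc
  · have h1 : ∫ q, (∫ ρ, H (q, ρ) ∂lam) ∂(μ.prod (volume : Measure V))
        = ∫ τ in Ioc t₁ s, ∫ x, GD D I x₀ ν R T' u p τ x := by
      rw [integral_prod _ hpi, hμ]
      exact setIntegral_congr_fun measurableSet_Ioc fun τ hτ => e8 τ hτ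
    rw [← h1, hsw, hlam]
    exact setIntegral_congr_fun measurableSet_Ioo fun ρ hρ => e3 ρ hρ

end

end Pool.Agent.H305.EG
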