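import Pool.Agent.H305.EG.Pd
import Pool.Agent.H305.EG.Ac

/-!
The kernel with a flat core is a sum of tents.
-/

set_option autoImplicit false

open MeasureTheory Set Metric Filter Topology
open scoped ContDiff ENNReal

namespace Pool.Agent.H305.EG

open H459R3.NS W221.NS Pool.Agent.V1183.PM Pool.Agent.H305.OS Pool.Agent.H305.SL Pool.Agent.H305.PL
  Pool.Agent.H305.EF
open Pool.Agent.W583.MD (sm_pd pd_mul')

/-- The density of the tents. -/
noncomputable def Dz (ρ z : ℝ) : ℝ := az z * (z ^ 2)⁻¹ * (E1 (ρ ^ 2 / z) * th (ρ ^ 2 / z))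

section
variable {I : Finset (Fin 3)} {T T' a b τ z s t₁ r R ρ d : ℝ} {x₀ x : V} {n : ℕ} {c j : Fin 3}
  {u : ℝ → V → V} {p : ℝ → V → ℝ}

lemma ph'_cd : ContDiff ℝ ∞ ph' := by
  unfold ph'
  exact (by fun_prop : ContDiff ℝ ∞ fun s : ℝ => -(Real.exp (-(s / 4)) / 4)).add j1_cd

lemma Ps_pd (j : Fin 3) (x : V) : H459R3.NS.pd j (Ps I x₀ T' τ) x
    = if j ∈ I then az (T' - τ) * ph' (qI I x₀ x / (T' - τ)) * (2 * (x j - x₀ j) / (T' - τ)) else 0 :=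
  q_pd (φ := fun s => az (T' - τ) * ph s) (φ' := fun s => az (T' - τ) * ph' s)
    (fun s => (ph_hd s).const_mul _) (T' - τ) j x

lemma lin_pd (z : ℝ) (j : Fin 3) (x : V) :
    H459R3.NS.pd j (fun x : V => 2 * (x j - x₀ j) / z) x = 2 / z := by
  have h1 : HasFDerivAt (fun x : V => 2 * (x j - x₀ j) / z)
      ((2 / z) • (ContinuousLinearMap.proj j : V →L[ℝ] ℝ)) x := by
    have h2 : HasFDerivAt (fun x : V => x j - x₀ j) (ContinuousLinearMap.proj j : V →L[ℝ] ℝ) x :=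
      ((ContinuousLinearMap.proj j : V →L[ℝ] ℝ).hasFDerivAt).sub_const _
    have h3 := h2.const_mul (2 / z)
    refine h3.congr_of_eventuallyEq (Eventually.of_forall fun y => ?_)
    simp only
    ring
  show fderiv ℝ (fun x : V => 2 * (x j - x₀ j) / z) x (Pi.single j 1) = _
  rw [h1.fderiv]
  simp

lemma Ps_pd2 (k : Fin 3) (x : V) : H459R3.NS.pd k (H459R3.NS.pd k (Ps I x₀ T' τ)) x
    = if k ∈ I then az (T' - τ) * (E1 (qI I x₀ x / (T' - τ)) * th (qI I x₀ x / (T' - τ))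
        * (2 * (x k - x₀ k) / (T' - τ)) ^ 2 + ph' (qI I x₀ x / (T' - τ)) * (2 / (T' - τ))) else 0 := by
  by_cases hk : k ∈ I
  · have e1 : H459R3.NS.pd k (Ps I x₀ T' τ) = fun x =>
        (fun x => az (T' - τ) * ph' (qI I x₀ x / (T' - τ))) x
          * (fun x => 2 * (x k - x₀ k) / (T' - τ)) x := by
      funext y
      rw [Ps_pd, if_pos hk]
    have s1 : ContDiff ℝ ∞ fun x => az (T' - τ) * ph' (qI I x₀ x / (T' - τ)) := by
      refine contDiff_const.mul (ph'_cd.comp ?_)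
      unfold qI
      fun_prop
    have s2 : ContDiff ℝ ∞ fun x : V => 2 * (x k - x₀ k) / (T' - τ) := by fun_prop
    rw [e1, pd_mul' s1 s2 k x, lin_pd, if_pos hk,
      q_pd (φ := fun s => az (T' - τ) * ph' s) (φ' := fun s => az (T' - τ) * (E1 s * th s))
      (fun s => (ph'_hd s).const_mul _) (T' - τ) k x, if_pos hk]
    ring
  · have e1 : H459R3.NS.pd k (Ps I x₀ T' τ) = fun _ => 0 := by
      funext y
      rw [Ps_pd, if_neg hk]
    rw [e1, if_neg hk]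
    show fderiv ℝ (fun _ : V => (0 : ℝ)) x (Pi.single k 1) = _
    simp

lemma Ps_lp (hτ : τ < T') (x : V) : lp (Ps I x₀ T' τ) x = az (T' - τ) * (T' - τ)⁻¹
    * (4 * (qI I x₀ x / (T' - τ)) * (E1 (qI I x₀ x / (T' - τ)) * th (qI I x₀ x / (T' - τ)))
      + 2 * I.card * ph' (qI I x₀ x / (T' - τ))) := by
  have hz : 0 < T' - τ := by linarith
  unfold OS.lp
  simp only [Ps_pd2]
  rw [Finset.sum_ite_mem, Finset.univ_inter, ← Finset.mul_sum, Finset.sum_add_distrib,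
    ← Finset.mul_sum, Finset.sum_const, nsmul_eq_mul]
  have e1 : ∑ i ∈ I, (2 * (x i - x₀ i) / (T' - τ)) ^ 2 = 4 * qI I x₀ x / (T' - τ) ^ 2 := by
    unfold qI
    rw [Finset.mul_sum, Finset.sum_div]
    have e0 : ∀ y z : ℝ, (2 * y / z) ^ 2 = 4 * y ^ 2 / z ^ 2 := by
      intro y z
      ring
    exact Finset.sum_congr rfl fun i _ => e0 _ _
  rw [e1]
  field_simp

/-- The kernel is a subsolution. -/
lemma Ps_sub (hI : I.card = n + 1) (hn : 1 ≤ n) (hτ : τ < T') (x : V) :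
    lp (Ps I x₀ T' τ) x + deriv (fun r => Ps I x₀ T' r x) τ ≤ 0 := by
  have hz : 0 < T' - τ := by linarith
  rw [Ps_lp hτ, (Ps_dt hτ x).deriv, hI]
  have h1 := ph_sub (m := (n + 1 : ℕ)) (s := qI I x₀ x / (T' - τ))
    (by have : (1 : ℝ) ≤ n := by exact_mod_cast hn
        push_cast
        linarith) (div_nonneg (qI_nonneg I x₀ x) hz.le)
  have h2 : 0 ≤ az (T' - τ) * (T' - τ)⁻¹ := mul_nonneg (az_pos hz).le (by positivity)
  have h3 := mul_nonpos_of_nonneg_of_nonpos h2 h1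
  refine le_trans (le_of_eq ?_) h3
  ring

lemma Ps_nonneg (hτ : τ < T') (x : V) : 0 ≤ Ps I x₀ T' τ x := by
  have hz : 0 < T' - τ := by linarith
  exact mul_nonneg (az_pos hz).le (ph_nonneg (div_nonneg (qI_nonneg I x₀ x) hz.le))

lemma Dz_nonneg (hz : 0 < z) : 0 ≤ Dz ρ z := by
  unfold Dz
  have h1 := (az_pos hz).le
  have h2 := (E1_pos (ρ ^ 2 / z)).le
  have h3 := th_nonneg (ρ ^ 2 / z)
  positivity

lemma sqrt2_le (hz : 0 ≤ z) : √(√z) ≤ 1 + z := by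
  rw [Real.sqrt_le_left (by positivity), Real.sqrt_le_left (by positivity)]
  nlinarith [pow_nonneg hz 2, pow_nonneg hz 3, pow_nonneg hz 4]

lemma Dz_bd (hr : 0 < r) (hz : r ≤ z) : |Dz ρ z| ≤ (1 + r) * (r ^ 3)⁻¹ := by
  have hz0 : 0 < z := hr.trans_le hz
  rw [abs_of_nonneg (Dz_nonneg hz0)]
  unfold Dz az
  have h1 : E1 (ρ ^ 2 / z) * th (ρ ^ 2 / z) ≤ 1 := by
    have h2 : E1 (ρ ^ 2 / z) ≤ 1 := by
      unfold E1
      have : Real.exp (-(ρ ^ 2 / z / 4)) ≤ 1 := by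
        rw [Real.exp_le_one_iff]
        have : 0 ≤ ρ ^ 2 / z / 4 := by positivity
        linarith
      linarith
    calc _ ≤ 1 * (1 : ℝ) := mul_le_mul h2 (th_le _) (th_nonneg _) zero_le_one
      _ = 1 := one_mul 1
  have h3 : √(√z) * z⁻¹ * (z ^ 2)⁻¹ ≤ (1 + r) * (r ^ 3)⁻¹ := by
    have h4 := sqrt2_le hz0.le
    have h5 : (1 + z) * (z ^ 3)⁻¹ ≤ (1 + r) * (r ^ 3)⁻¹ := by
      rw [← div_eq_mul_inv, ← div_eq_mul_inv, div_le_div_iff₀ (by positivity) (by positivity)]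
      have h6 : r ^ 3 ≤ z ^ 3 := pow_le_pow_left₀ hr.le hz 3
      have h7 : z * r ^ 3 ≤ r * z ^ 3 := by
        have : r ^ 2 ≤ z ^ 2 := pow_le_pow_left₀ hr.le hz 2
        nlinarith [mul_pos hr hz0]
      linarith
    calc √(√z) * z⁻¹ * (z ^ 2)⁻¹ = √(√z) * (z ^ 3)⁻¹ := by
          field_simp
      _ ≤ (1 + z) * (z ^ 3)⁻¹ := mul_le_mul_of_nonneg_right h4 (by positivity)
      _ ≤ _ := h5
  calc √(√z) * z⁻¹ * (z ^ 2)⁻¹ * (E1 (ρ ^ 2 / z) * th (ρ ^ 2 / z))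
      ≤ (1 + r) * (r ^ 3)⁻¹ * 1 := mul_le_mul h3 h1
        (mul_nonneg (E1_pos _).le (th_nonneg _)) (by positivity)
    _ = _ := mul_one _

lemma Dz_meas : Measurable fun q : ℝ × ℝ => Dz q.1 q.2 := by
  unfold Dz az
  have h1 : Measurable th := th_cd.continuous.measurable
  have h2 : Measurable E1 := E1_cd.continuous.measurable
  fun_prop

lemma Dz_rc (z : ℝ) : Continuous fun ρ => Dz ρ z := by
  unfold Dz
  have h1 : Continuous th := th_cd.continuous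
  have h2 : Continuous E1 := E1_cd.continuous
  fun_prop

lemma r2_hd (z ρ : ℝ) : HasDerivAt (fun ρ : ℝ => ρ ^ 2 / z) (2 * ρ / z) ρ := by
  have := (hasDerivAt_pow 2 ρ).div_const z
  simpa using this

/-- The first formula. -/
lemma fB1 (hz : 0 < z) (hd : d ≤ R) : ∫ ρ in Ioo d R, bD1 Dz ρ z
    = az z * z⁻¹ * (ph' (R ^ 2 / z) - ph' (d ^ 2 / z)) := by
  rw [← integral_Ioc_eq_integral_Ioo, ← intervalIntegral.integral_of_le hd]
  rw [intervalIntegral.integral_eq_sub_of_hasDerivAt (f := fun ρ => az z * z⁻¹ * ph' (ρ ^ 2 / z))]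
  · ring
  · intro ρ _
    refine (((ph'_hd _).comp ρ (r2_hd z ρ)).const_mul (az z * z⁻¹)).congr_deriv ?_
    unfold bD1 Dz
    field_simp
  · unfold bD1
    exact ((by fun_prop : Continuous fun ρ : ℝ => 2 * ρ).mul (Dz_rc z)).intervalIntegrable _ _

/-- The second formula. -/
lemma fB2 (hz : 0 < z) (hd : d ≤ R) : ∫ ρ in Ioo d R, bD2 Dz d ρ z
    = (R ^ 2 - d ^ 2) * (az z * z⁻¹ * ph' (R ^ 2 / z)) - az z * ph (R ^ 2 / z)
      + az z * ph (d ^ 2 / z) := by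
  rw [← integral_Ioc_eq_integral_Ioo, ← intervalIntegral.integral_of_le hd]
  rw [intervalIntegral.integral_eq_sub_of_hasDerivAt (f := fun ρ => (ρ ^ 2 - d ^ 2)
    * (az z * z⁻¹ * ph' (ρ ^ 2 / z)) - az z * ph (ρ ^ 2 / z))]
  · ring
  · intro ρ _
    have h1 : HasDerivAt (fun ρ : ℝ => ρ ^ 2 - d ^ 2) (2 * ρ) ρ := by
      simpa using (hasDerivAt_pow 2 ρ).sub_const (d ^ 2)
    have h2 := ((ph'_hd _).comp ρ (r2_hd z ρ)).const_mul (az z * z⁻¹)
    have h3 := ((ph_hd _).comp ρ (r2_hd z ρ)).const_mul (az z)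
    refine ((h1.mul h2).sub h3).congr_deriv ?_
    unfold bD2 Dz
    simp only [Function.comp_apply]
    field_simp
    ring
  · unfold bD2
    exact ((by fun_prop : Continuous fun ρ : ℝ => 2 * ρ * (ρ ^ 2 - d ^ 2)).mul
      (Dz_rc z)).intervalIntegrable _ _

lemma fB2_nonneg (hz : 0 < z) (hd0 : 0 ≤ d) : 0 ≤ ∫ ρ in Ioo d R, bD2 Dz d ρ z := by
  refine setIntegral_nonneg measurableSet_Ioo fun ρ hρ => ?_
  unfold bD2
  have h0 := Dz_nonneg (ρ := ρ) hz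
  have h2 : 0 ≤ ρ ^ 2 - d ^ 2 := by
    have := pow_le_pow_left₀ hd0 hρ.1.le 2
    linarith
  have h3 : 0 ≤ ρ := hd0.trans hρ.1.le
  positivity

lemma fB2_le (hz : 0 < z) (hd0 : 0 ≤ d) (hd : d ≤ R) :
    ∫ ρ in Ioo d R, bD2 Dz d ρ z ≤ az z * ph (d ^ 2 / z) := by
  rw [fB2 hz hd]
  have h1 : 0 ≤ R ^ 2 - d ^ 2 := by
    have := pow_le_pow_left₀ hd0 hd 2
    linarith
  have h2 := ph'_nonpos (s := R ^ 2 / z) (by positivity)
  have h3 := ph_nonneg (s := R ^ 2 / z) (by positivity)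
  have h4 := (az_pos hz).le
  have h5 : (R ^ 2 - d ^ 2) * (az z * z⁻¹ * ph' (R ^ 2 / z)) ≤ 0 :=
    mul_nonpos_of_nonneg_of_nonpos h1 (mul_nonpos_of_nonneg_of_nonpos (by positivity) h2)
  have h6 : 0 ≤ az z * ph (R ^ 2 / z) := by positivity
  linarith

/-- The closed form. -/
lemma GD_eq (x : V) : GD Dz I x₀ 1 R T' u p τ x
    = (nb I x₀ R).indicator (fun x => KA I x₀ (cw u τ) (p τ) x
      * (∫ ρ in Ioo (dI I x₀ x) R, bD1 Dz ρ (T' - τ))
      - gw (cw u τ) x * ∫ ρ in Ioo (dI I x₀ x) R, bD2 Dz (dI I x₀ x) ρ (T' - τ)) x := by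
  unfold GD
  rw [setIntegral_indicator measurableSet_Ioi, setIntegral_indicator measurableSet_Ioi]
  have e6 : Ioo 0 R ∩ Ioi (dI I x₀ x) = Ioo (dI I x₀ x) R := by
    ext ρ
    simp only [mem_inter_iff, mem_Ioo, mem_Ioi]
    constructor
    · rintro ⟨⟨_, h2⟩, h3⟩
      exact ⟨h3, h2⟩
    · rintro ⟨h1, h2⟩
      exact ⟨⟨(dI_nonneg I x₀ x).trans_lt h1, h2⟩, h1⟩
  rw [e6, one_mul]
  by_cases hx : x ∈ nb I x₀ R
  · rw [indicator_of_mem hx, indicator_of_mem hx]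
  · have hd : R ≤ dI I x₀ x := not_lt.1 hx
    rw [indicator_of_notMem hx, indicator_of_notMem hx, Ioo_eq_empty (not_lt.2 hd)]
    simp

/-- The flux through the kernel. -/
lemma fl_Ps (w : Fin 3 → V → ℝ) (q : V → ℝ) (x : V) :
    ((∑ i, w i x ^ 2) + 2 * q x) * ∑ j, w j x * H459R3.NS.pd j (Ps I x₀ T' τ) x
      = KA I x₀ w q x * (-(2 * (az (T' - τ) * (T' - τ)⁻¹ * ph' (qI I x₀ x / (T' - τ))))) := by
  have e1 : ∑ j, w j x * H459R3.NS.pd j (Ps I x₀ T' τ) x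
      = ∑ j ∈ I, w j x * H459R3.NS.pd j (Ps I x₀ T' τ) x := by
    refine (Finset.sum_subset (Finset.subset_univ I) fun j _ hj => ?_).symm
    rw [Ps_pd, if_neg hj, mul_zero]
  have e2 : ∑ j ∈ I, w j x * H459R3.NS.pd j (Ps I x₀ T' τ) x
      = 2 * (az (T' - τ) * (T' - τ)⁻¹ * ph' (qI I x₀ x / (T' - τ)))
        * ∑ j ∈ I, w j x * (x j - x₀ j) := by
    rw [Finset.mul_sum]
    refine Finset.sum_congr rfl fun j hj => ?_
    rw [Ps_pd, if_pos hj]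
    ring
  rw [e1, e2]
  unfold KA nw
  ring

lemma exp_le2 (hz : 0 < z) : Real.exp (-z) ≤ 2 / z ^ 2 := by
  have h1 : z ^ 2 / 2 ≤ Real.exp z := by
    have := Real.quadratic_le_exp_of_nonneg hz.le
    linarith
  rw [Real.exp_neg, inv_eq_one_div, div_le_div_iff₀ (Real.exp_pos z) (by positivity)]
  linarith

/-- The far part. -/
lemma farP_bd {Z : ℝ} (hR : 0 < R) (hz : 0 < z) (hZ : z ≤ Z) {m : ℝ} (hd0 : 0 ≤ d) (hdm : d ≤ m)
    (hRm : R ≤ m) :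
    d * (2 * (az z * z⁻¹ * -(ph' (m ^ 2 / z)))) ≤ 16 * √(√Z) * (R⁻¹) ^ 3 := by
  have hm : 0 < m := hR.trans_le hRm
  have h1 := ph'_abs (m ^ 2 / z)
  have h2 : Real.exp (-(m ^ 2 / z / 4)) ≤ 2 / (m ^ 2 / z / 4) ^ 2 := exp_le2 (by positivity)
  have h3 := az_pos hz
  have h4 : √(√z) ≤ √(√Z) := Real.sqrt_le_sqrt (Real.sqrt_le_sqrt hZ)
  have h5 := ph'_nonpos (s := m ^ 2 / z) (by positivity)
  calc d * (2 * (az z * z⁻¹ * -(ph' (m ^ 2 / z))))
      ≤ m * (2 * (az z * z⁻¹ * (2 / (m ^ 2 / z / 4) ^ 2 / 4))) := by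
        refine mul_le_mul hdm ?_ (mul_nonneg (by norm_num) (mul_nonneg (by positivity)
          (by linarith))) hm.le
        refine mul_le_mul_of_nonneg_left (mul_le_mul_of_nonneg_left ?_ (by positivity)) (by norm_num)
        linarith
    _ = 16 * √(√z) * (m⁻¹) ^ 3 := by
        unfold az
        field_simp
        ring
    _ ≤ _ := by
        refine mul_le_mul (mul_le_mul_of_nonneg_left h4 (by norm_num)) ?_ (by positivity)
          (by positivity)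
        exact pow_le_pow_left₀ (by positivity) (inv_anti₀ hR hRm) _

/-- The pointwise inequality. -/
lemma fl_ptP {Z : ℝ} (hR : 0 < R) (hτ : τ < T') (hZ : T' - τ ≤ Z) (x : V) :
    ((∑ i, cw u τ i x ^ 2) + 2 * p τ x) * (∑ j, cw u τ j x * H459R3.NS.pd j (Ps I x₀ T' τ) x)
      - 2 * (gw (cw u τ) x * Ps I x₀ T' τ x)
      ≤ 2 * GD Dz I x₀ 1 R T' u p τ x + 16 * √(√Z) * (R⁻¹) ^ 3 * nq (cw u τ) (p τ) x := by
  have hz : 0 < T' - τ := by linarith
  rw [fl_Ps, GD_eq]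
  have hK := KA_le (I := I) (x₀ := x₀) (cw u τ) (p τ) x
  have hg := gw_nonneg (cw u τ) x
  have hd := dI_nonneg I x₀ x
  have hn := nq_nonneg (cw u τ) (p τ) x
  have hP : Ps I x₀ T' τ x = az (T' - τ) * ph (dI I x₀ x ^ 2 / (T' - τ)) := by
    unfold Ps
    rw [dI_sq]
  have key : ∀ m : ℝ, dI I x₀ x ≤ m → R ≤ m → KA I x₀ (cw u τ) (p τ) x
      * (2 * (az (T' - τ) * (T' - τ)⁻¹ * -(ph' (m ^ 2 / (T' - τ)))))
      ≤ 16 * √(√Z) * (R⁻¹) ^ 3 * nq (cw u τ) (p τ) x := by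
    intro m hm1 hm2
    have h5 := ph'_nonpos (s := m ^ 2 / (T' - τ)) (by positivity)
    have h6 := az_pos hz
    have h0 : 0 ≤ 2 * (az (T' - τ) * (T' - τ)⁻¹ * -(ph' (m ^ 2 / (T' - τ)))) :=
      mul_nonneg (by norm_num) (mul_nonneg (by positivity) (by linarith))
    calc KA I x₀ (cw u τ) (p τ) x * (2 * (az (T' - τ) * (T' - τ)⁻¹ * -(ph' (m ^ 2 / (T' - τ)))))
        ≤ (dI I x₀ x * nq (cw u τ) (p τ) x)
          * (2 * (az (T' - τ) * (T' - τ)⁻¹ * -(ph' (m ^ 2 / (T' - τ))))) :=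
          mul_le_mul_of_nonneg_right ((le_abs_self _).trans hK) h0
      _ = dI I x₀ x * (2 * (az (T' - τ) * (T' - τ)⁻¹ * -(ph' (m ^ 2 / (T' - τ)))))
          * nq (cw u τ) (p τ) x := by ring
      _ ≤ _ := mul_le_mul_of_nonneg_right (farP_bd hR hz hZ hd hm1 hm2) hn
  by_cases hx : x ∈ nb I x₀ R
  · have hdR : dI I x₀ x ≤ R := le_of_lt hx
    rw [indicator_of_mem hx, fB1 hz hdR, ← dI_sq]
    have h1 := key R hdR le_rfl
    have h2 := fB2_le hz hd hdR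
    rw [← hP] at h2
    have h3 := mul_le_mul_of_nonneg_left h2 hg
    linarith
  · have hdR : R ≤ dI I x₀ x := not_lt.1 hx
    rw [indicator_of_notMem hx, ← dI_sq]
    have h1 := key (dI I x₀ x) le_rfl hdR
    have h2 : 0 ≤ gw (cw u τ) x * Ps I x₀ T' τ x := mul_nonneg hg (Ps_nonneg hτ x)
    linarith

end

end Pool.Agent.H305.EG
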