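import Pool.Agent.H305.EG.Jnt

/-!
Unimodal weights.
-/

set_option autoImplicit false

open MeasureTheory Set Metric Filter Topology
open scoped ContDiff ENNReal

namespace Pool.Agent.H305.EG

section
variable {α β B₀ S : ℝ} {w w' F : ℝ → ℝ}

/-- Increasing weights. -/
lemma bon_inc (hαβ : α ≤ β) (hd : ∀ t ∈ Icc α β, HasDerivAt w (w' t) t)
    (hc : ContinuousOn w' (Icc α β)) (h0 : ∀ t ∈ Icc α β, 0 ≤ w' t) (hα : 0 ≤ w α)
    (hF : IntegrableOn F (Ioc α β)) (hB : ∀ t ∈ Icc α β, ∫ τ in Ioc t β, F τ ≤ B₀) :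
    ∫ τ in Ioc α β, w τ * F τ ≤ w β * B₀ := by
  have hftc : ∀ τ ∈ Icc α β, ∫ t in Ioc α τ, w' t = w τ - w α := by
    intro τ hτ
    rw [← intervalIntegral.integral_of_le hτ.1]
    refine intervalIntegral.integral_eq_sub_of_hasDerivAt (fun t ht => ?_) ?_
    · rw [uIcc_of_le hτ.1] at ht
      exact hd t ⟨ht.1, ht.2.trans hτ.2⟩
    · refine (hc.mono ?_).intervalIntegrable
      rw [uIcc_of_le hτ.1]
      exact Icc_subset_Icc_right hτ.2
  have hwi : IntegrableOn w' (Ioc α β) :=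
    (hc.integrableOn_Icc).mono_set Ioc_subset_Icc_self
  obtain ⟨D, hD⟩ : ∃ D : Set (ℝ × ℝ), D = {z | z.2 ≤ z.1} := ⟨_, rfl⟩
  have hDm : MeasurableSet D := by
    rw [hD]
    exact measurableSet_le measurable_snd measurable_fst
  have hprod : Integrable (fun z : ℝ × ℝ => F z.1 * w' z.2)
      ((volume.restrict (Ioc α β)).prod (volume.restrict (Ioc α β))) := hF.mul_prod hwi
  have hind : Integrable (Function.uncurry fun (τ t : ℝ) =>
      D.indicator (fun z : ℝ × ℝ => F z.1 * w' z.2) (τ, t))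
      ((volume.restrict (Ioc α β)).prod (volume.restrict (Ioc α β))) := hprod.indicator hDm
  have hsw := integral_integral_swap hind
  have e1 : ∀ τ ∈ Ioc α β, ∫ t in Ioc α β, D.indicator (fun z : ℝ × ℝ => F z.1 * w' z.2) (τ, t)
      = (w τ - w α) * F τ := by
    intro τ hτ
    have e2 : (fun t : ℝ => D.indicator (fun z : ℝ × ℝ => F z.1 * w' z.2) (τ, t))
        = (Iic τ).indicator fun t => F τ * w' t := by
      funext t
      by_cases ht : t ≤ τ
      · rw [indicator_of_mem (by rw [hD]; exact ht), indicator_of_mem (by exact ht)]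
      · rw [indicator_of_notMem (by rw [hD]; exact ht), indicator_of_notMem (by exact ht)]
    have e3 : Ioc α β ∩ Iic τ = Ioc α τ := by
      ext t
      simp only [mem_inter_iff, mem_Ioc, mem_Iic]
      constructor
      · rintro ⟨⟨h1, _⟩, h3⟩
        exact ⟨h1, h3⟩
      · rintro ⟨h1, h2⟩
        exact ⟨⟨h1, h2.trans hτ.2⟩, h2⟩
    rw [e2, setIntegral_indicator measurableSet_Iic, e3, integral_const_mul,
      hftc τ (Ioc_subset_Icc_self hτ)]
    ring
  have e4 : ∀ t ∈ Ioc α β, ∫ τ in Ioc α β, D.indicator (fun z : ℝ × ℝ => F z.1 * w' z.2) (τ, t)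
      = w' t * ∫ τ in Ioc t β, F τ := by
    intro t ht
    have e2 : (fun τ : ℝ => D.indicator (fun z : ℝ × ℝ => F z.1 * w' z.2) (τ, t))
        = (Ici t).indicator fun τ => F τ * w' t := by
      funext τ
      by_cases h : t ≤ τ
      · rw [indicator_of_mem (by rw [hD]; exact h), indicator_of_mem (by exact h)]
      · rw [indicator_of_notMem (by rw [hD]; exact h), indicator_of_notMem (by exact h)]
    have e3 : Ioc α β ∩ Ici t = Icc t β := by
      ext τ
      simp only [mem_inter_iff, mem_Ioc, mem_Ici, mem_Icc]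
      constructor
      · rintro ⟨⟨_, h1⟩, h3⟩
        exact ⟨h3, h1⟩
      · rintro ⟨h1, h2⟩
        exact ⟨⟨ht.1.trans_le h1, h2⟩, h1⟩
    rw [e2, setIntegral_indicator measurableSet_Ici, e3, integral_mul_const,
      integral_Icc_eq_integral_Ioc]
    ring
  have hB₀ : 0 ≤ B₀ := by
    have := hB β ⟨hαβ, le_rfl⟩
    simpa using this
  have i1 : IntegrableOn (fun τ => w α * F τ) (Ioc α β) := hF.const_mul _
  have i2 : IntegrableOn (fun τ => (w τ - w α) * F τ) (Ioc α β) :=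
    IntegrableOn.congr_fun hind.integral_prod_left (fun τ hτ => e1 τ hτ) measurableSet_Ioc
  have i3 : IntegrableOn (fun t => w' t * ∫ τ in Ioc t β, F τ) (Ioc α β) :=
    IntegrableOn.congr_fun hind.integral_prod_right (fun τ hτ => e4 τ hτ) measurableSet_Ioc
  have e5 : ∫ τ in Ioc α β, w τ * F τ = w α * (∫ τ in Ioc α β, F τ)
      + ∫ t in Ioc α β, w' t * ∫ τ in Ioc t β, F τ := by
    have e6 : ∫ τ in Ioc α β, w τ * F τ
        = ∫ τ in Ioc α β, (w α * F τ + (w τ - w α) * F τ) := by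
      congr 1
      funext τ
      ring
    rw [e6, integral_add i1 i2, integral_const_mul, ← setIntegral_congr_fun measurableSet_Ioc e1,
      hsw, setIntegral_congr_fun measurableSet_Ioc e4]
  rw [e5]
  have h1 : w α * (∫ τ in Ioc α β, F τ) ≤ w α * B₀ :=
    mul_le_mul_of_nonneg_left (hB α ⟨le_rfl, hαβ⟩) hα
  have h2 : ∫ t in Ioc α β, w' t * ∫ τ in Ioc t β, F τ ≤ (w β - w α) * B₀ := by
    rw [← hftc β ⟨hαβ, le_rfl⟩, ← integral_mul_const]
    refine setIntegral_mono_on i3 (hwi.mul_const _) measurableSet_Ioc fun t ht => ?_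
    exact mul_le_mul_of_nonneg_left (hB t (Ioc_subset_Icc_self ht)) (h0 t (Ioc_subset_Icc_self ht))
  linarith

/-- Decreasing weights. -/
lemma bon_dec (hαβ : α ≤ β) (hd : ∀ t ∈ Icc α β, HasDerivAt w (w' t) t)
    (hc : ContinuousOn w' (Icc α β)) (h0 : ∀ t ∈ Icc α β, w' t ≤ 0) (hβ : 0 ≤ w β)
    (hF : IntegrableOn F (Ioc α β)) (hB : ∀ t ∈ Icc α β, ∫ τ in Ioc α t, F τ ≤ B₀) :
    ∫ τ in Ioc α β, w τ * F τ ≤ w α * B₀ := by
  have hftc : ∀ τ ∈ Icc α β, ∫ t in Ioc τ β, w' t = w β - w τ := by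
    intro τ hτ
    rw [← intervalIntegral.integral_of_le hτ.2]
    refine intervalIntegral.integral_eq_sub_of_hasDerivAt (fun t ht => ?_) ?_
    · rw [uIcc_of_le hτ.2] at ht
      exact hd t ⟨hτ.1.trans ht.1, ht.2⟩
    · refine (hc.mono ?_).intervalIntegrable
      rw [uIcc_of_le hτ.2]
      exact Icc_subset_Icc_left hτ.1
  have hwi : IntegrableOn w' (Ioc α β) :=
    (hc.integrableOn_Icc).mono_set Ioc_subset_Icc_self
  obtain ⟨D, hD⟩ : ∃ D : Set (ℝ × ℝ), D = {z | z.1 < z.2} := ⟨_, rfl⟩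
  have hDm : MeasurableSet D := by
    rw [hD]
    exact measurableSet_lt measurable_fst measurable_snd
  have hprod : Integrable (fun z : ℝ × ℝ => F z.1 * w' z.2)
      ((volume.restrict (Ioc α β)).prod (volume.restrict (Ioc α β))) := hF.mul_prod hwi
  have hind : Integrable (Function.uncurry fun (τ t : ℝ) =>
      D.indicator (fun z : ℝ × ℝ => F z.1 * w' z.2) (τ, t))
      ((volume.restrict (Ioc α β)).prod (volume.restrict (Ioc α β))) := hprod.indicator hDm
  have hsw := integral_integral_swap hind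
  have e1 : ∀ τ ∈ Ioc α β, ∫ t in Ioc α β, D.indicator (fun z : ℝ × ℝ => F z.1 * w' z.2) (τ, t)
      = (w β - w τ) * F τ := by
    intro τ hτ
    have e2 : (fun t : ℝ => D.indicator (fun z : ℝ × ℝ => F z.1 * w' z.2) (τ, t))
        = (Ioi τ).indicator fun t => F τ * w' t := by
      funext t
      by_cases ht : τ < t
      · rw [indicator_of_mem (by rw [hD]; exact ht), indicator_of_mem (by exact ht)]
      · rw [indicator_of_notMem (by rw [hD]; exact ht), indicator_of_notMem (by exact ht)]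
    have e3 : Ioc α β ∩ Ioi τ = Ioc τ β := by
      ext t
      simp only [mem_inter_iff, mem_Ioc, mem_Ioi]
      constructor
      · rintro ⟨⟨_, h1⟩, h3⟩
        exact ⟨h3, h1⟩
      · rintro ⟨h1, h2⟩
        exact ⟨⟨hτ.1.trans h1, h2⟩, h1⟩
    rw [e2, setIntegral_indicator measurableSet_Ioi, e3, integral_const_mul,
      hftc τ (Ioc_subset_Icc_self hτ)]
    ring
  have e4 : ∀ t ∈ Ioc α β, ∫ τ in Ioc α β, D.indicator (fun z : ℝ × ℝ => F z.1 * w' z.2) (τ, t)
      = w' t * ∫ τ in Ioc α t, F τ := by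
    intro t ht
    have e2 : (fun τ : ℝ => D.indicator (fun z : ℝ × ℝ => F z.1 * w' z.2) (τ, t))
        = (Iio t).indicator fun τ => F τ * w' t := by
      funext τ
      by_cases h : τ < t
      · rw [indicator_of_mem (by rw [hD]; exact h), indicator_of_mem (by exact h)]
      · rw [indicator_of_notMem (by rw [hD]; exact h), indicator_of_notMem (by exact h)]
    have e3 : Ioc α β ∩ Iio t = Ioo α t := by
      ext τ
      simp only [mem_inter_iff, mem_Ioc, mem_Iio, mem_Ioo]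
      constructor
      · rintro ⟨⟨h1, _⟩, h3⟩
        exact ⟨h1, h3⟩
      · rintro ⟨h1, h2⟩
        exact ⟨⟨h1, h2.le.trans ht.2⟩, h2⟩
    rw [e2, setIntegral_indicator measurableSet_Iio, e3, integral_mul_const,
      ← integral_Ioc_eq_integral_Ioo]
    ring
  have i1 : IntegrableOn (fun τ => w β * F τ) (Ioc α β) := hF.const_mul _
  have i2 : IntegrableOn (fun τ => (w β - w τ) * F τ) (Ioc α β) :=
    IntegrableOn.congr_fun hind.integral_prod_left (fun τ hτ => e1 τ hτ) measurableSet_Ioc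
  have i3 : IntegrableOn (fun t => w' t * ∫ τ in Ioc α t, F τ) (Ioc α β) :=
    IntegrableOn.congr_fun hind.integral_prod_right (fun τ hτ => e4 τ hτ) measurableSet_Ioc
  have e5 : ∫ τ in Ioc α β, w τ * F τ = w β * (∫ τ in Ioc α β, F τ)
      - ∫ t in Ioc α β, w' t * ∫ τ in Ioc α t, F τ := by
    have e6 : ∫ τ in Ioc α β, w τ * F τ
        = ∫ τ in Ioc α β, (w β * F τ - (w β - w τ) * F τ) := by
      congr 1
      funext τ
      ring
    rw [e6, integral_sub i1 i2, integral_const_mul, ← setIntegral_congr_fun measurableSet_Ioc e1,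
      hsw, setIntegral_congr_fun measurableSet_Ioc e4]
  rw [e5]
  have h1 : w β * (∫ τ in Ioc α β, F τ) ≤ w β * B₀ :=
    mul_le_mul_of_nonneg_left (hB β ⟨hαβ, le_rfl⟩) hβ
  have h2 : (w β - w α) * B₀ ≤ ∫ t in Ioc α β, w' t * ∫ τ in Ioc α t, F τ := by
    rw [← hftc α ⟨le_rfl, hαβ⟩, ← integral_mul_const]
    refine setIntegral_mono_on (hwi.mul_const _) i3 measurableSet_Ioc fun t ht => ?_
    exact mul_le_mul_of_nonpos_left (hB t (Ioc_subset_Icc_self ht)) (h0 t (Ioc_subset_Icc_self ht))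
  linarith

/-- Unimodal weights. -/
lemma bon_uni (hαβ : α ≤ β) (hd : ∀ t ∈ Icc α β, HasDerivAt w (w' t) t)
    (hc : ContinuousOn w' (Icc α β)) (τs : ℝ) (h1 : ∀ t ∈ Icc α β, t ≤ τs → 0 ≤ w' t)
    (h2 : ∀ t ∈ Icc α β, τs ≤ t → w' t ≤ 0) (h0 : ∀ t ∈ Icc α β, 0 ≤ w t)
    (hS : ∀ t ∈ Icc α β, w t ≤ S) (hF : IntegrableOn F (Ioc α β)) (hB₀ : 0 ≤ B₀)
    (hB : ∀ t t', α ≤ t → t ≤ t' → t' ≤ β → ∫ τ in Ioc t t', F τ ≤ B₀) :
    ∫ τ in Ioc α β, w τ * F τ ≤ 2 * S * B₀ := by
  obtain ⟨γ, hγ⟩ : ∃ γ : ℝ, γ = max α (min τs β) := ⟨_, rfl⟩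
  have hγ1 : α ≤ γ := by rw [hγ]; exact le_max_left _ _
  have hγ2 : γ ≤ β := by rw [hγ]; exact max_le hαβ (min_le_right _ _)
  have hs1 : Icc α γ ⊆ Icc α β := Icc_subset_Icc_right hγ2
  have hs2 : Icc γ β ⊆ Icc α β := Icc_subset_Icc_left hγ1
  have j1 : ∫ τ in Ioc α γ, w τ * F τ ≤ w γ * B₀ := by
    rcases le_or_gt α τs with h | h
    · refine bon_inc hγ1 (fun t ht => hd t (hs1 ht)) (hc.mono hs1) (fun t ht => h1 t (hs1 ht) ?_)
        (h0 α ⟨le_rfl, hαβ⟩) (hF.mono_set (Ioc_subset_Ioc_right hγ2))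
        (fun t ht => hB t γ ht.1 ht.2 hγ2)
      refine ht.2.trans ?_
      rw [hγ]
      exact max_le h (min_le_left _ _)
    · have : γ = α := by
        rw [hγ]
        exact max_eq_left ((min_le_left _ _).trans h.le)
      rw [this]
      simp only [Ioc_self, Measure.restrict_empty, integral_zero_measure]
      exact mul_nonneg (h0 α ⟨le_rfl, hαβ⟩) hB₀
  have j2 : ∫ τ in Ioc γ β, w τ * F τ ≤ w γ * B₀ := by
    rcases le_or_gt τs β with h | h
    · refine bon_dec hγ2 (fun t ht => hd t (hs2 ht)) (hc.mono hs2) (fun t ht => h2 t (hs2 ht) ?_)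
        (h0 β ⟨hαβ, le_rfl⟩) (hF.mono_set (Ioc_subset_Ioc_left hγ1))
        (fun t ht => hB γ t hγ1 ht.1 ht.2)
      refine le_trans ?_ ht.1
      rw [hγ, min_eq_left h]
      exact le_max_right _ _
    · have : γ = β := by
        rw [hγ, min_eq_right h.le]
        exact max_eq_right hαβ
      rw [this]
      simp only [Ioc_self, Measure.restrict_empty, integral_zero_measure]
      exact mul_nonneg (h0 β ⟨hαβ, le_rfl⟩) hB₀
  have hi : IntegrableOn (fun τ => w τ * F τ) (Ioc α β) := by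
    have hwc : ContinuousOn w (Icc α β) := fun t ht => (hd t ht).continuousAt.continuousWithinAt
    have hwm : AEStronglyMeasurable w (volume.restrict (Ioc α β)) :=
      (hwc.mono Ioc_subset_Icc_self).aestronglyMeasurable measurableSet_Ioc
    refine hF.bdd_mul hwm (c := S) ?_
    refine ae_restrict_of_forall_mem measurableSet_Ioc fun t ht => ?_
    have ht' := Ioc_subset_Icc_self ht
    rw [Real.norm_eq_abs, abs_of_nonneg (h0 t ht')]
    exact hS t ht'
  have hu : Ioc α β = Ioc α γ ∪ Ioc γ β := (Ioc_union_Ioc_eq_Ioc hγ1 hγ2).symm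
  have e : ∫ τ in Ioc α β, w τ * F τ = (∫ τ in Ioc α γ, w τ * F τ) + ∫ τ in Ioc γ β, w τ * F τ := by
    rw [hu]
    refine setIntegral_union (Ioc_disjoint_Ioc_of_le le_rfl) measurableSet_Ioc
      (hi.mono_set (Ioc_subset_Ioc_right hγ2)) (hi.mono_set (Ioc_subset_Ioc_left hγ1))
  have h3 : w γ * B₀ ≤ S * B₀ := mul_le_mul_of_nonneg_right (hS γ ⟨hγ1, hγ2⟩) hB₀
  rw [e]
  linarith

end

end Pool.Agent.H305.EG
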