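import Pool.Agent.H305.EG.Pe
import Pool.Agent.H305.EG.Uni

/-!
The tents, integrated in time: the weight of a fixed tent.
-/

set_option autoImplicit false

open MeasureTheory Set Metric Filter Topology
open scoped ContDiff ENNReal

namespace Pool.Agent.H305.EG

open H459R3.NS W221.NS Pool.Agent.V1183.PM Pool.Agent.H305.OS Pool.Agent.H305.SL Pool.Agent.H305.PL
  Pool.Agent.H305.EF

/-- The derivative of the weight in time. -/
noncomputable def wD (ρ z : ℝ) : ℝ :=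
  2 * ρ ^ 3 * (az z * (z ^ 3)⁻¹ * E1 (ρ ^ 2 / z) * ((11 - ρ ^ 2 / z) / 4 * th (ρ ^ 2 / z)
    + ρ ^ 2 / z * th' (ρ ^ 2 / z)))

section
variable {T T' τ z s t₁ r R ρ ε : ℝ} {F : ℝ → ℝ}

lemma E1_hd (s : ℝ) : HasDerivAt E1 (-(E1 s / 4)) s := by
  refine ((ex_hd s).div_const 16).congr_deriv ?_
  unfold E1
  ring

lemma mD_hd (hτ : τ < T') : HasDerivAt (fun τ => mD Dz ρ (T' - τ)) (wD ρ (T' - τ)) τ := by
  have hz : 0 < T' - τ := by linarith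
  have h1 : HasDerivAt (fun s => T' - s) (-1) τ := by
    simpa using (hasDerivAt_id τ).const_sub T'
  have h2 : HasDerivAt (fun z => ρ ^ 2 / z) (-(ρ ^ 2 / (T' - τ) ^ 2)) (T' - τ) := by
    have := (hasDerivAt_const (T' - τ) (ρ ^ 2)).div (hasDerivAt_id (T' - τ)) hz.ne'
    refine this.congr_deriv ?_
    simp only [id_eq]
    ring
  have h3 : HasDerivAt (fun z : ℝ => (z ^ 2)⁻¹) (-(2 * (T' - τ)) / ((T' - τ) ^ 2) ^ 2) (T' - τ) := by
    have h0 : HasDerivAt (fun z : ℝ => (z ^ 2)⁻¹) _ (T' - τ) :=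
      (hasDerivAt_pow 2 (T' - τ)).inv (by positivity)
    refine h0.congr_deriv ?_
    norm_num
  have h4 : HasDerivAt (fun z => E1 (ρ ^ 2 / z)) (-(E1 (ρ ^ 2 / (T' - τ)) / 4)
      * -(ρ ^ 2 / (T' - τ) ^ 2)) (T' - τ) := (E1_hd _).comp (T' - τ) h2
  have h5 : HasDerivAt (fun z => th (ρ ^ 2 / z)) (th' (ρ ^ 2 / (T' - τ))
      * -(ρ ^ 2 / (T' - τ) ^ 2)) (T' - τ) := (th_hd _).comp (T' - τ) h2
  have h6 : HasDerivAt (fun z => 2 * ρ ^ 3 * (az z * (z ^ 2)⁻¹ * (E1 (ρ ^ 2 / z) * th (ρ ^ 2 / z)))) _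
      (T' - τ) := (((az_hd hz).mul h3).mul (h4.mul h5)).const_mul (2 * ρ ^ 3)
  have h7 := h6.comp τ h1
  refine h7.congr_deriv ?_
  unfold wD
  simp only [Pi.mul_apply]
  field_simp
  ring

lemma mD_nonneg (hρ : 0 ≤ ρ) (hz : 0 < z) : 0 ≤ mD Dz ρ z := by
  unfold mD
  have := Dz_nonneg (ρ := ρ) hz
  positivity

lemma mD_zero (hz : 0 < z) (h : ρ ^ 2 ≤ z) : mD Dz ρ z = 0 := by
  unfold mD Dz
  rw [th_zero (s := ρ ^ 2 / z)]
  · ring
  · rw [div_le_iff₀ hz]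
    linarith

lemma exp_le3 (hz : 0 < z) : Real.exp (-z) ≤ 6 / z ^ 3 := by
  have h1 := Real.pow_div_factorial_le_exp z hz.le 3
  have h2 : ((3 : ℕ).factorial : ℝ) = 6 := by norm_num [Nat.factorial]
  rw [h2] at h1
  rw [Real.exp_neg, inv_eq_one_div, div_le_div_iff₀ (Real.exp_pos z) (by positivity)]
  rw [div_le_iff₀ (by norm_num)] at h1
  linarith

lemma mD_sup (hρ : 0 < ρ) (hz : 0 < z) (h : z ≤ ρ ^ 2) : mD Dz ρ z ≤ 96 * √ρ / ρ ^ 3 := by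
  unfold mD Dz az E1
  have h1 : Real.exp (-(ρ ^ 2 / z / 4)) ≤ 6 / (ρ ^ 2 / z / 4) ^ 3 := exp_le3 (by positivity)
  have h2 : √(√z) ≤ 2 * √ρ := by
    rw [Real.sqrt_le_left (by positivity), Real.sqrt_le_left (by positivity), mul_pow,
      Real.sq_sqrt hρ.le]
    nlinarith [pow_pos hρ 2]
  have h3 := th_le (ρ ^ 2 / z)
  have h4 := th_nonneg (ρ ^ 2 / z)
  calc 2 * ρ ^ 3 * (√(√z) * z⁻¹ * (z ^ 2)⁻¹ * (Real.exp (-(ρ ^ 2 / z / 4)) / 16 * th (ρ ^ 2 / z)))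
      ≤ 2 * ρ ^ 3 * (2 * √ρ * z⁻¹ * (z ^ 2)⁻¹ * (6 / (ρ ^ 2 / z / 4) ^ 3 / 16 * 1)) := by
        gcongr
    _ = _ := by
        field_simp
        ring

lemma wD_pos (hρ : 0 < ρ) (hz : 0 < z) (h : ρ ^ 2 ≤ 11 * z) : 0 ≤ wD ρ z := by
  unfold wD
  have h1 := (az_pos hz).le
  have h2 := (E1_pos (ρ ^ 2 / z)).le
  have h3 := th_nonneg (ρ ^ 2 / z)
  have h4 := th'_nonneg (ρ ^ 2 / z)
  have h5 : 0 ≤ 11 - ρ ^ 2 / z := by
    rw [sub_nonneg, div_le_iff₀ hz]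
    exact h
  positivity

lemma wD_neg (hρ : 0 < ρ) (hz : 0 < z) (h : 11 * z ≤ ρ ^ 2) : wD ρ z ≤ 0 := by
  unfold wD
  have h1 := (az_pos hz).le
  have h2 := (E1_pos (ρ ^ 2 / z)).le
  have h3 := th_nonneg (ρ ^ 2 / z)
  have h6 : 11 ≤ ρ ^ 2 / z := by
    rw [le_div_iff₀ hz]
    exact h
  rw [th'_zero (s := ρ ^ 2 / z) (by linarith), mul_zero, add_zero]
  have h7 : (11 - ρ ^ 2 / z) / 4 * th (ρ ^ 2 / z) ≤ 0 :=
    mul_nonpos_of_nonpos_of_nonneg (by linarith) h3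
  exact mul_nonpos_of_nonneg_of_nonpos (by positivity)
    (mul_nonpos_of_nonneg_of_nonpos (by positivity) h7)

lemma wD_cont {a b : ℝ} (hb : b < T') : ContinuousOn (fun τ => wD ρ (T' - τ)) (Icc a b) := by
  have h0 : ∀ τ ∈ Icc a b, T' - τ ≠ 0 := fun τ hτ => (by linarith [hτ.2] : 0 < T' - τ).ne'
  have h1 : ContinuousOn (fun τ => ρ ^ 2 / (T' - τ)) (Icc a b) :=
    continuousOn_const.div (by fun_prop) h0
  have h2 : ContinuousOn (fun τ => E1 (ρ ^ 2 / (T' - τ))) (Icc a b) :=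
    E1_cd.continuous.comp_continuousOn h1
  have h3 : ContinuousOn (fun τ => th (ρ ^ 2 / (T' - τ))) (Icc a b) :=
    th_cd.continuous.comp_continuousOn h1
  have h4 : ContinuousOn (fun τ => th' (ρ ^ 2 / (T' - τ))) (Icc a b) :=
    th'_cont.comp_continuousOn h1
  have h5 : ContinuousOn (fun τ => ((T' - τ) ^ 3)⁻¹) (Icc a b) :=
    ContinuousOn.inv₀ (by fun_prop) fun τ hτ => pow_ne_zero _ (h0 τ hτ)
  unfold wD
  exact continuousOn_const.mul ((((az_cont hb).mul h5).mul h2).mul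
    ((((continuousOn_const.sub h1).div_const 4).mul h3).add (h1.mul h4)))

/-- The estimate at a fixed radius. -/
lemma mD_F (hts : t₁ ≤ s) (hr : 0 < r) (hrs : r ^ 2 = T' - s) (hT : T ≤ T') (hε : 0 ≤ ε)
    (hρ : 0 < ρ) (hF : IntegrableOn F (Ioc t₁ s))
    (hB : ∀ t t', t₁ ≤ t → t ≤ t' → t' ≤ s → T - t ≤ ρ ^ 2 → ∫ τ in Ioc t t', F τ ≤ ε * ρ) :
    ∫ τ in Ioc t₁ s, mD Dz ρ (T' - τ) * F τ ≤ ε * (1536 * ((√(r + ρ))⁻¹) ^ 3) := by
  have hs : s < T' := by nlinarith [pow_pos hr 2]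
  have hP : 0 ≤ ε * (1536 * ((√(r + ρ))⁻¹) ^ 3) := by positivity
  rcases le_or_gt (ρ ^ 2) (r ^ 2) with h1 | h1
  · have e : ∫ τ in Ioc t₁ s, mD Dz ρ (T' - τ) * F τ = 0 := by
      refine setIntegral_eq_zero_of_forall_eq_zero fun τ hτ => ?_
      rw [mD_zero (by linarith [hτ.2]) (by linarith [hτ.2]), zero_mul]
    rw [e]
    exact hP
  · obtain ⟨α, hα⟩ : ∃ α, α = max t₁ (T' - ρ ^ 2) := ⟨_, rfl⟩
    have ha1 : t₁ ≤ α := by rw [hα]; exact le_max_left _ _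
    have ha2 : T' - ρ ^ 2 ≤ α := by rw [hα]; exact le_max_right _ _
    have has : α ≤ s := by
      rw [hα]
      exact max_le hts (by linarith)
    have e : ∫ τ in Ioc t₁ s, mD Dz ρ (T' - τ) * F τ = ∫ τ in Ioc α s, mD Dz ρ (T' - τ) * F τ := by
      refine setIntegral_eq_of_subset_of_forall_diff_eq_zero measurableSet_Ioc
        (Ioc_subset_Ioc_left ha1) fun τ hτ => ?_
      have h2 : τ ≤ α := by
        by_contra h3
        exact hτ.2 ⟨not_le.1 h3, hτ.1.2⟩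
      have h3 : τ ≤ T' - ρ ^ 2 := by
        rw [hα] at h2
        rcases le_max_iff.1 h2 with h4 | h4
        · exact absurd h4 (not_le.2 hτ.1.1)
        · exact h4
      rw [mD_zero (by linarith [hτ.1.2]) (by linarith), zero_mul]
    rw [e]
    have h2 := bon_uni (α := α) (β := s) (w := fun τ => mD Dz ρ (T' - τ))
      (w' := fun τ => wD ρ (T' - τ)) (F := F) (S := 96 * √ρ / ρ ^ 3) (B₀ := ε * ρ) has
      (fun τ hτ => mD_hd (hτ.2.trans_lt hs)) (wD_cont hs) (T' - ρ ^ 2 / 11)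
      (fun τ hτ h3 => wD_pos hρ (by linarith [hτ.2]) (by linarith))
      (fun τ hτ h3 => wD_neg hρ (by linarith [hτ.2]) (by linarith))
      (fun τ hτ => mD_nonneg hρ.le (by linarith [hτ.2]))
      (fun τ hτ => mD_sup hρ (by linarith [hτ.2]) (by linarith [hτ.1]))
      (hF.mono_set (Ioc_subset_Ioc_left ha1)) (by positivity)
      (fun t t' h3 h4 h5 => hB t t' (ha1.trans h3) h4 h5 (by linarith))
    refine h2.trans ?_
    have h3 : r < 2 * ρ := by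
      by_contra h4
      have := pow_le_pow_left₀ (by positivity) (not_lt.1 h4) 2
      rw [mul_pow] at this
      nlinarith [pow_pos hρ 2]
    have hsr : 0 < √ρ := Real.sqrt_pos.2 hρ
    have h4 : √(r + ρ) ≤ 2 * √ρ := by
      rw [Real.sqrt_le_left (by positivity), mul_pow, Real.sq_sqrt hρ.le]
      linarith
    have h5 : 0 < √(r + ρ) := Real.sqrt_pos.2 (by positivity)
    have h6 : (√ρ)⁻¹ ≤ 2 * (√(r + ρ))⁻¹ := by
      rw [← div_eq_mul_inv, inv_eq_one_div, div_le_div_iff₀ hsr h5]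
      linarith
    have h7 : ((√ρ)⁻¹) ^ 3 ≤ 8 * ((√(r + ρ))⁻¹) ^ 3 := by
      calc ((√ρ)⁻¹) ^ 3 ≤ (2 * (√(r + ρ))⁻¹) ^ 3 := pow_le_pow_left₀ (by positivity) h6 3
        _ = _ := by ring
    have h8 : 2 * (96 * √ρ / ρ ^ 3) * (ε * ρ) = 192 * ε * ((√ρ)⁻¹) ^ 3 := by
      obtain ⟨y, hy⟩ : ∃ y, y = √ρ := ⟨_, rfl⟩
      have hy2 : ρ = y ^ 2 := by rw [hy, Real.sq_sqrt hρ.le]
      rw [← hy]
      have hy0 : 0 < y := by rw [hy]; exact hsr
      rw [hy2]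
      field_simp
      ring
    rw [h8]
    have h9 := mul_le_mul_of_nonneg_left h7 (by positivity : 0 ≤ 192 * ε)
    linarith

lemma rad_intP (hr : 0 < r) (hR : 0 < R) :
    IntegrableOn (fun ρ => ((√(r + ρ))⁻¹) ^ 3) (Ioo 0 R) ∧
    ∫ ρ in Ioo 0 R, ((√(r + ρ))⁻¹) ^ 3 ≤ 2 * (√r)⁻¹ := by
  have h0 : ∀ ρ ∈ Icc 0 R, 0 < √(r + ρ) := fun ρ hρ => Real.sqrt_pos.2 (by linarith [hρ.1])
  have hc : ContinuousOn (fun ρ => ((√(r + ρ))⁻¹) ^ 3) (Icc 0 R) :=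
    ContinuousOn.pow (ContinuousOn.inv₀ (by fun_prop) fun ρ hρ => (h0 ρ hρ).ne') _
  have hi : IntegrableOn (fun ρ => ((√(r + ρ))⁻¹) ^ 3) (Icc 0 R) := hc.integrableOn_Icc
  refine ⟨hi.mono_set Ioo_subset_Icc_self, ?_⟩
  rw [← integral_Ioc_eq_integral_Ioo, ← intervalIntegral.integral_of_le hR.le]
  have hd : ∀ ρ ∈ uIcc 0 R, HasDerivAt (fun ρ => -(2 * (√(r + ρ))⁻¹)) (((√(r + ρ))⁻¹) ^ 3) ρ := by
    intro ρ hρ
    rw [uIcc_of_le hR.le] at hρ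
    have h1 := h0 ρ hρ
    have h2 : HasDerivAt (fun ρ => r + ρ) 1 ρ := by
      simpa using (hasDerivAt_id ρ).const_add r
    have h3 := ((h2.sqrt (by linarith [hρ.1] : 0 < r + ρ).ne').inv h1.ne').const_mul 2
    refine h3.neg.congr_deriv ?_
    field_simp
  rw [intervalIntegral.integral_eq_sub_of_hasDerivAt hd (by
    apply ContinuousOn.intervalIntegrable
    rw [uIcc_of_le hR.le]
    exact hc)]
  have h4 : 0 ≤ 2 * (√(r + R))⁻¹ := by positivity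
  rw [add_zero]
  linarith

end

end Pool.Agent.H305.EG
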