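import Pool.Agent.H305.EG.Pf
import Pool.Agent.H305.EG.Ad

/-!
The energy inequality for the kernel with a flat core.
-/

set_option autoImplicit false

open MeasureTheory Set Metric Filter Topology
open scoped ContDiff ENNReal

namespace Pool.Agent.H305.EG

open H459R3.NS W221.NS Pool.Agent.V1183.PM Pool.Agent.H305.OS Pool.Agent.H305.SL Pool.Agent.H305.PL
  Pool.Agent.H305.EF

section
variable {T t₀ t₁ s T' R r ρ z d τ E Z : ℝ} {u : ℝ → V → V} {p : ℝ → V → ℝ} {I : Finset (Fin 3)}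
  {x₀ : V} {n k : ℕ} {w : Fin 3 → V → ℝ} {q : V → ℝ}

lemma Ps_BF (hI : I.card = n + 1) (h0 : 0 < τ) (hτ : τ < T') : BF (Ps I x₀ T' τ) :=
  (Ps_ub (x₀ := x₀) hI h0 le_rfl hτ).at ⟨le_rfl, le_rfl⟩

lemma Ps_dBF (hI : I.card = n + 1) (h0 : 0 < τ) (hτ : τ < T') :
    BF (fun x => deriv (fun r => Ps I x₀ T' r x) τ) :=
  (Ps_ubt (x₀ := x₀) hI h0 le_rfl hτ).at ⟨le_rfl, le_rfl⟩

/-- The closed form. -/
lemma GD_eq2 (hτ : τ < T') (x : V) : GD Dz I x₀ 1 R T' u p τ x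
    = (nb I x₀ R).indicator (fun x => KA I x₀ (cw u τ) (p τ) x
      * (az (T' - τ) * (T' - τ)⁻¹ * (ph' (R ^ 2 / (T' - τ)) - ph' (dI I x₀ x ^ 2 / (T' - τ))))
      - gw (cw u τ) x * ((R ^ 2 - dI I x₀ x ^ 2) * (az (T' - τ) * (T' - τ)⁻¹
        * ph' (R ^ 2 / (T' - τ))) - az (T' - τ) * ph (R ^ 2 / (T' - τ))
        + az (T' - τ) * ph (dI I x₀ x ^ 2 / (T' - τ)))) x := by
  have hz : 0 < T' - τ := by linarith
  rw [GD_eq]
  by_cases hx : x ∈ nb I x₀ R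
  · have hdR : dI I x₀ x ≤ R := le_of_lt hx
    rw [indicator_of_mem hx, indicator_of_mem hx, fB1 hz hdR, fB2 hz hdR]
  · rw [indicator_of_notMem hx, indicator_of_notMem hx]

lemma GD_int (hR : 0 < R) (hτ : τ < T') (hw : ∀ i, HF (cw u τ i)) (hq : HF (p τ))
    (hF : ∑ j, gF (cw u τ) (p τ) (cw u τ j) ≠ (⊤ : ℝ≥0∞)) :
    Integrable fun x => GD Dz I x₀ 1 R T' u p τ x := by
  have hz : 0 < T' - τ := by linarith
  have hA := az_pos hz
  have mw : ∀ i, Measurable (cw u τ i) := fun i => (hw i).sm.continuous.measurable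
  have mq : Measurable (p τ) := hq.sm.continuous.measurable
  have hg : Integrable (gw (cw u τ)) := gw_int hw
  obtain ⟨M, hM⟩ : ∃ M : ℝ, M = az (T' - τ) := ⟨_, rfl⟩
  have hM0 : 0 ≤ M := by rw [hM]; exact hA.le
  have hdm : Measurable (dI I x₀) := (dI_cont I x₀).measurable
  have mg : Measurable (gw (cw u τ)) := by
    unfold gw
    exact Finset.measurable_sum _ fun i _ => Finset.measurable_sum _ fun k _ =>
      (((hw i).pd k).sm.continuous.measurable).pow_const 2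
  have mn : Measurable (nw (cw u τ)) := by
    unfold nw
    exact Finset.measurable_sum _ fun i _ => (mw i).pow_const 2
  have mK : Measurable (KA I x₀ (cw u τ) (p τ)) := by
    unfold KA
    refine Measurable.neg ((mn.add (mq.const_mul 2)).mul (Finset.measurable_sum _ fun j _ =>
      (mw j).mul ?_))
    fun_prop
  have m1 : Measurable fun x => ph' (dI I x₀ x ^ 2 / (T' - τ)) :=
    ph'_cont.measurable.comp ((hdm.pow_const 2).div_const _)
  have m2 : Measurable fun x => ph (dI I x₀ x ^ 2 / (T' - τ)) :=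
    ph_cd.continuous.measurable.comp ((hdm.pow_const 2).div_const _)
  refine (((nq_int mw mq hF).1.const_mul (R * (M * (T' - τ)⁻¹ * (1 / 4)))).add
    (hg.const_mul M)).mono' ?_ (Eventually.of_forall fun x => ?_)
  · have e : (fun x => GD Dz I x₀ 1 R T' u p τ x) = _ := funext fun x => GD_eq2 hτ x
    rw [e]
    refine (Measurable.indicator ?_ nb_meas).aestronglyMeasurable
    exact (mK.mul ((m1.const_sub _).const_mul _)).sub (mg.mul ((((hdm.pow_const 2).const_sub _).mul_const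
      _).sub_const _ |>.add (m2.const_mul _)))
  · rw [GD_eq, Real.norm_eq_abs]
    have hn := nq_nonneg (cw u τ) (p τ) x
    have hgx := gw_nonneg (cw u τ) x
    by_cases hx : x ∈ nb I x₀ R
    · have hdR : dI I x₀ x ≤ R := le_of_lt hx
      have hd := dI_nonneg I x₀ x
      rw [indicator_of_mem hx]
      have hB0 : 0 ≤ ∫ ρ in Ioo (dI I x₀ x) R, bD1 Dz ρ (T' - τ) := by
        refine setIntegral_nonneg measurableSet_Ioo fun ρ hρ => ?_
        unfold bD1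
        have h0 := Dz_nonneg (ρ := ρ) hz
        have h3 : 0 ≤ ρ := hd.trans hρ.1.le
        positivity
      have hB1 : ∫ ρ in Ioo (dI I x₀ x) R, bD1 Dz ρ (T' - τ) ≤ M * (T' - τ)⁻¹ * (1 / 4) := by
        rw [fB1 hz hdR, hM]
        refine mul_le_mul_of_nonneg_left ?_ (by positivity)
        have a1 := ph'_nonpos (s := R ^ 2 / (T' - τ)) (by positivity)
        have a2 := ph'_abs (dI I x₀ x ^ 2 / (T' - τ))
        have a3 : Real.exp (-(dI I x₀ x ^ 2 / (T' - τ) / 4)) ≤ 1 := by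
          rw [Real.exp_le_one_iff]
          have : 0 ≤ dI I x₀ x ^ 2 / (T' - τ) / 4 := by positivity
          linarith
        linarith
      have h1 : |KA I x₀ (cw u τ) (p τ) x * ∫ ρ in Ioo (dI I x₀ x) R, bD1 Dz ρ (T' - τ)|
          ≤ R * (M * (T' - τ)⁻¹ * (1 / 4)) * nq (cw u τ) (p τ) x := by
        rw [abs_mul, abs_of_nonneg hB0]
        calc |KA I x₀ (cw u τ) (p τ) x| * ∫ ρ in Ioo (dI I x₀ x) R, bD1 Dz ρ (T' - τ)
            ≤ (R * nq (cw u τ) (p τ) x) * (M * (T' - τ)⁻¹ * (1 / 4)) :=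
              mul_le_mul ((KA_le _ _ _).trans (mul_le_mul_of_nonneg_right hdR hn)) hB1 hB0
                (by positivity)
          _ = _ := by ring
      have hb0 := fB2_nonneg (R := R) hz hd
      have hb1 : ∫ ρ in Ioo (dI I x₀ x) R, bD2 Dz (dI I x₀ x) ρ (T' - τ) ≤ M := by
        refine (fB2_le hz hd hdR).trans ?_
        rw [hM]
        have a1 := ph_up (dI I x₀ x ^ 2 / (T' - τ))
        have a3 : Real.exp (-(dI I x₀ x ^ 2 / (T' - τ) / 4)) ≤ 1 := by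
          rw [Real.exp_le_one_iff]
          have : 0 ≤ dI I x₀ x ^ 2 / (T' - τ) / 4 := by positivity
          linarith
        exact mul_le_of_le_one_right hA.le (a1.trans a3)
      have h2 : |gw (cw u τ) x * ∫ ρ in Ioo (dI I x₀ x) R, bD2 Dz (dI I x₀ x) ρ (T' - τ)|
          ≤ M * gw (cw u τ) x := by
        rw [abs_of_nonneg (by positivity), mul_comm]
        exact mul_le_mul_of_nonneg_right hb1 hgx
      exact (abs_sub _ _).trans (add_le_add h1 h2)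
    · rw [indicator_of_notMem hx, abs_zero]
      simp only [Pi.add_apply]
      positivity

lemma flP (hR : 0 < R) (h0 : 0 < τ) (hτ : τ < T') (hI : I.card = n + 1) (hZ : T' - τ ≤ Z)
    (hw : ∀ i, HF (cw u τ i)) (hq : HF (p τ))
    (hF : ∑ j, gF (cw u τ) (p τ) (cw u τ j) ≠ (⊤ : ℝ≥0∞)) :
    flW (cw u τ) (p τ) (Ps I x₀ T' τ) - 2 * dsW (cw u τ) (Ps I x₀ T' τ)
      ≤ 2 * (∫ x, GD Dz I x₀ 1 R T' u p τ x)
        + 16 * √(√Z) * (R⁻¹) ^ 3 * (Fx u p τ).toReal := by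
  have mw : ∀ i, Measurable (cw u τ i) := fun i => (hw i).sm.continuous.measurable
  have mq : Measurable (p τ) := hq.sm.continuous.measurable
  have hΦ : BF (Ps I x₀ T' τ) := Ps_BF hI h0 hτ
  have h1 := flux_int hw hq hΦ
  have h2 : Integrable fun x => gw (cw u τ) x * Ps I x₀ T' τ x := gwB_int hw hΦ
  obtain ⟨h3, h4⟩ := nq_int mw mq hF
  have h5 := GD_int (I := I) (x₀ := x₀) hR hτ hw hq hF
  have e1 : flW (cw u τ) (p τ) (Ps I x₀ T' τ) - 2 * dsW (cw u τ) (Ps I x₀ T' τ)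
      = ∫ x, (((∑ i, cw u τ i x ^ 2) + 2 * p τ x) * (∑ j, cw u τ j x
        * H459R3.NS.pd j (Ps I x₀ T' τ) x) - 2 * (gw (cw u τ) x * Ps I x₀ T' τ x)) := by
    rw [integral_sub h1 (h2.const_mul 2), integral_const_mul]
    rfl
  have e2 : 2 * (∫ x, GD Dz I x₀ 1 R T' u p τ x)
        + 16 * √(√Z) * (R⁻¹) ^ 3 * (Fx u p τ).toReal
      = ∫ x, (2 * GD Dz I x₀ 1 R T' u p τ x
        + 16 * √(√Z) * (R⁻¹) ^ 3 * nq (cw u τ) (p τ) x) := by
    rw [integral_add (h5.const_mul 2) (h3.const_mul _), integral_const_mul, integral_const_mul, h4]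
    rfl
  rw [e1, e2]
  exact integral_mono (h1.sub (h2.const_mul 2)) ((h5.const_mul 2).add (h3.const_mul _))
    fun x => fl_ptP hR hτ hZ x

/-- The subsolution property. -/
lemma sbP (hI : I.card = n + 1) (hn : 1 ≤ n) (h0 : 0 < τ) (hτ : τ < T')
    (hw : ∀ i, HF (cw u τ i)) : enW (cw u τ) (lp (Ps I x₀ T' τ))
      + enW (cw u τ) (fun x => deriv (fun r => Ps I x₀ T' r x) τ) ≤ 0 := by
  have hΦ : BF (Ps I x₀ T' τ) := Ps_BF hI h0 hτ
  have hL : BF (lp (Ps I x₀ T' τ)) := by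
    unfold OS.lp
    exact UB.sum fun k => (hΦ.pd k).pd k
  have i1 : Integrable fun x => (∑ i, cw u τ i x ^ 2) * lp (Ps I x₀ T' τ) x := by
    simp only [Finset.sum_mul]
    exact integrable_finsetSum _ fun i _ => sqB_int (hw i) hL
  have i2 : Integrable fun x => (∑ i, cw u τ i x ^ 2) * deriv (fun r => Ps I x₀ T' r x) τ := by
    simp only [Finset.sum_mul]
    exact integrable_finsetSum _ fun i _ => sqB_int (hw i) (Ps_dBF hI h0 hτ)
  unfold enW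
  rw [← integral_add i1 i2]
  refine integral_nonpos fun x => ?_
  simp only [Pi.zero_apply]
  rw [← mul_add]
  exact mul_nonpos_of_nonneg_of_nonpos (Finset.sum_nonneg fun i _ => sq_nonneg _)
    (Ps_sub hI hn hτ x)

/-- The energy inequality. -/
lemma en_P (h : ST 1 T u p t₀ E) (hI : I.card = n + 1) (hn : 1 ≤ n) (hR : 0 < R) (x₀ : V) :
    ∃ K₃ : ℝ, 0 ≤ K₃ ∧ ∀ ε : ℝ, 0 ≤ ε → (∀ ρ ∈ Ioo 0 R, ∀ t t', t₀ ≤ t → t ≤ t' → t' < T →
      T - t ≤ ρ ^ 2 → ∫ τ in Ioc t t', Ah I x₀ 1 ρ (cw u τ) (p τ) ≤ ε * ρ) →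
    ∀ s T' : ℝ, t₀ ≤ s → s < T → T ≤ T' → T' ≤ T + 1 →
    enW (cw u s) (Ps I x₀ T' s) ≤ enW (cw u t₀) (Ps I x₀ T' t₀)
        + (6144 * ε * (√(√(T' - s)))⁻¹ + K₃ * ∫ τ in Ioc t₀ s, (Fx u p τ).toReal) := by
  obtain ⟨K₃, hK₃e⟩ : ∃ K : ℝ, K = 16 * √(√(T + 1)) * (R⁻¹) ^ 3 := ⟨_, rfl⟩
  have hK₃ : 0 ≤ K₃ := by rw [hK₃e]; positivity
  refine ⟨K₃, hK₃, ?_⟩
  intro ε hε hyp s T' hts hs hT1 hT2
  have ht₁0 : 0 < t₀ := h.t0
  have hsT' : s < T' := hs.trans_le hT1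
  have hK := wid h.toHS ht₁0 hts hs (Ps_J hT1 I x₀) (Ps_ub hI ht₁0 hts hsT' x₀)
    (Ps_ubt hI ht₁0 hts hsT' x₀)
  have hsz : 0 < T' - s := by linarith
  obtain ⟨w1, w2, w3, w4⟩ := swapG (T' := T') (C₀ := (1 + (T' - s)) * ((T' - s) ^ 3)⁻¹) Dz_meas
    (fun ρ _ z hz _ => Dz_bd hsz hz) (by positivity) h.toHS ht₁0 hs hR I x₀
  have hsub : Ioc t₀ s ⊆ Ioo t₀ T := fun τ hτ => ⟨hτ.1, hτ.2.trans_lt hs⟩
  have hF' : IntegrableOn (fun τ => (Fx u p τ).toReal) (Ioc t₀ s) := h.Fx_int.mono_set hsub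
  obtain ⟨r, hr, hr2⟩ : ∃ r : ℝ, 0 < r ∧ r = √(T' - s) :=
    ⟨√(T' - s), Real.sqrt_pos.2 (by linarith), rfl⟩
  have hrs : r ^ 2 = T' - s := by rw [hr2, Real.sq_sqrt (by linarith)]
  have j12 : IntegrableOn (fun τ => 2 * (∫ x, GD Dz I x₀ 1 R T' u p τ x)
      + K₃ * (Fx u p τ).toReal) (Ioc t₀ s) := (w3.const_mul 2).add (hF'.const_mul K₃)
  have hmono := setIntegral_mono_on hK.1 j12 measurableSet_Ioc fun τ hτ => by
    have hτ0 : τ ∈ Ioo 0 T := ⟨ht₁0.trans hτ.1, hτ.2.trans_lt hs⟩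
    have hw : ∀ i, HF (cw u τ i) := fun i => h.toHS.cw_HF hτ0 i
    have a1 := flP (I := I) (x₀ := x₀) (n := n) (Z := T + 1) hR hτ0.1 (hτ.2.trans_lt hsT') hI
      (by linarith [hτ0.1]) hw (h.toHS.p_HF hτ0) (h.Fx_fin ⟨hτ.1.le, hτ.2.trans_lt hs⟩)
    have a2 := sbP (x₀ := x₀) hI hn hτ0.1 (hτ.2.trans_lt hsT') hw
    rw [← hK₃e] at a1
    show - (2 * 1 * dsW (cw u τ) (Ps I x₀ T' τ)) + 1 * enW (cw u τ) (lp (Ps I x₀ T' τ))
      + flW (cw u τ) (p τ) (Ps I x₀ T' τ) + enW (cw u τ) (fun x => deriv (fun r => Ps I x₀ T' r x) τ)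
      ≤ 2 * (∫ x, GD Dz I x₀ 1 R T' u p τ x) + K₃ * (Fx u p τ).toReal
    linarith
  rw [integral_add (w3.const_mul 2) (hF'.const_mul K₃), integral_const_mul, integral_const_mul, w4]
    at hmono
  obtain ⟨r1, r2⟩ := rad_intP hr hR
  have hρ : ∫ ρ in Ioo 0 R, ∫ τ in Ioc t₀ s, mD Dz ρ (T' - τ) * Ah I x₀ 1 ρ (cw u τ) (p τ)
      ≤ ε * (1536 * (2 * (√r)⁻¹)) := by
    calc _ ≤ ∫ ρ in Ioo 0 R, ε * (1536 * ((√(r + ρ))⁻¹) ^ 3) := by
          refine setIntegral_mono_on w2 ((r1.const_mul 1536).const_mul ε) measurableSet_Ioo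
            fun ρ hρ => ?_
          exact mD_F hts hr hrs hT1 hε hρ.1 (w1 ρ hρ)
            (fun t t' h1 h2 h3 h4 => hyp ρ hρ t t' h1 h2 (h3.trans_lt hs) h4)
      _ = ε * (1536 * (∫ ρ in Ioo 0 R, ((√(r + ρ))⁻¹) ^ 3)) := by
          rw [integral_const_mul, integral_const_mul]
      _ ≤ _ := mul_le_mul_of_nonneg_left (mul_le_mul_of_nonneg_left r2 (by norm_num)) hε
  rw [hK.2, ← hr2]
  have h12 : 2 * (ε * (1536 * (2 * (√r)⁻¹))) = 6144 * ε * (√r)⁻¹ := by ring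
  refine add_le_add le_rfl (hmono.trans ?_)
  rw [← h12]
  linarith

/-- The energy of the initial value. -/
lemma enP_up (h : ST 1 T u p t₀ E) (hI : I.card = n + 1) (hT' : T ≤ T') :
    enW (cw u t₀) (Ps I x₀ T' t₀) ≤ (1 + (T - t₀)⁻¹) * E := by
  have hE := h.E0
  have htT := h.tT
  have hm : t₀ ∈ Ico t₀ T := ⟨le_rfl, htT⟩
  have hb : 0 < T - t₀ := by linarith
  have hw : ∀ i, HF (cw u t₀ i) := fun i => h.toHS.cw_HF (h.mem0 hm) i
  rw [← ENNReal.ofReal_le_ofReal_iff (by positivity), enW_lint hw (Ps_BF hI h.t0 (by linarith))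
    (fun x => Ps_nonneg (by linarith) x), ENNReal.ofReal_mul (by positivity)]
  refine le_trans ?_ (mul_le_mul_right (h.e1 t₀ hm) _)
  rw [← lintegral_const_mul' _ _ ENNReal.ofReal_ne_top]
  refine lintegral_mono fun x => ?_
  rw [mul_comm]
  refine mul_le_mul_left (ENNReal.ofReal_le_ofReal ?_) _
  have hz : 0 < T' - t₀ := by linarith
  unfold Ps
  have a1 := ph_up (qI I x₀ x / (T' - t₀))
  have a2 : 0 ≤ qI I x₀ x / (T' - t₀) / 4 := by
    have := qI_nonneg I x₀ x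
    positivity
  have a3 : Real.exp (-(qI I x₀ x / (T' - t₀) / 4)) ≤ 1 := by
    rw [Real.exp_le_one_iff]
    linarith
  have a4 : az (T' - t₀) ≤ 1 + (T - t₀)⁻¹ := by
    unfold az
    have h1 := sqrt2_le hz.le
    have h2 : (T' - t₀)⁻¹ ≤ (T - t₀)⁻¹ := inv_anti₀ hb (by linarith)
    calc √(√(T' - t₀)) * (T' - t₀)⁻¹ ≤ (1 + (T' - t₀)) * (T' - t₀)⁻¹ :=
          mul_le_mul_of_nonneg_right h1 (by positivity)
      _ = 1 + (T' - t₀)⁻¹ := by
          field_simp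
          ring
      _ ≤ _ := by linarith
  exact (mul_le_of_le_one_right (az_pos hz).le (a1.trans a3)).trans a4

/-- Smallness. -/
lemma smP (h : ST 1 T u p t₀ E) (hI : I.card = n + 1) {ε θ K₃ : ℝ} (hε : 0 ≤ ε)
    (hK₃ : 0 ≤ K₃)
    (hen : ∀ s T' : ℝ, t₀ ≤ s → s < T → T ≤ T' → T' ≤ T + 1 →
    enW (cw u s) (Ps I x₀ T' s) ≤ enW (cw u t₀) (Ps I x₀ T' t₀)
        + (6144 * ε * (√(√(T' - s)))⁻¹ + K₃ * ∫ τ in Ioc t₀ s, (Fx u p τ).toReal))
    (hθ : 0 < θ) :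
    ∃ r₁ : ℝ, 0 < r₁ ∧ ∀ r : ℝ, 0 < r → r ≤ r₁ → ∀ s ∈ Ico (T - r ^ 2) T,
      t₀ ≤ s ∧ √r * enW (cw u s) (Ps I x₀ (s + r ^ 2) s) ≤ θ + 6144 * ε := by
  have hE := h.E0
  have hb : 0 < T - t₀ := by linarith [h.tT]
  have hsb : 0 < √(T - t₀) := Real.sqrt_pos.2 hb
  have hFT : 0 ≤ ∫ τ in Ioo t₀ T, (Fx u p τ).toReal := integral_nonneg fun _ => ENNReal.toReal_nonneg
  obtain ⟨K, hK⟩ : ∃ K : ℝ, K = (1 + (T - t₀)⁻¹) * E
      + K₃ * (∫ τ in Ioo t₀ T, (Fx u p τ).toReal) + 1 := ⟨_, rfl⟩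
  have hK0 : 0 < K := by rw [hK]; positivity
  refine ⟨min (min 1 (√(T - t₀))) ((θ / K) ^ 2), by positivity, ?_⟩
  intro r hr hr1 s hs
  have r1 : r ≤ 1 := hr1.trans ((min_le_left _ _).trans (min_le_left _ _))
  have r2 : r ≤ √(T - t₀) := hr1.trans ((min_le_left _ _).trans (min_le_right _ _))
  have r4 : √r ≤ θ / K := by
    rw [Real.sqrt_le_left (by positivity)]
    exact hr1.trans (min_le_right _ _)
  have r2' : r ^ 2 ≤ T - t₀ := by
    calc r ^ 2 ≤ √(T - t₀) ^ 2 := pow_le_pow_left₀ hr.le r2 2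
      _ = T - t₀ := Real.sq_sqrt hb.le
  have r5 : r ^ 2 ≤ 1 := pow_le_one₀ hr.le r1
  have hts : t₀ ≤ s := by linarith [hs.1]
  have hsr : 0 < √r := Real.sqrt_pos.2 hr
  refine ⟨hts, ?_⟩
  have h1 := hen s (s + r ^ 2) hts hs.2 (by linarith [hs.1]) (by linarith [hs.2])
  have hr5 : √(s + r ^ 2 - s) = r := by rw [add_sub_cancel_left, Real.sqrt_sq hr.le]
  rw [hr5] at h1
  have h2 := enP_up (x₀ := x₀) (T' := s + r ^ 2) h hI (by linarith [hs.1])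
  have h5 : ∫ τ in Ioc t₀ s, (Fx u p τ).toReal ≤ ∫ τ in Ioo t₀ T, (Fx u p τ).toReal :=
    setIntegral_mono_set h.Fx_int (Eventually.of_forall fun _ => ENNReal.toReal_nonneg)
      (show Ioc t₀ s ⊆ Ioo t₀ T from fun τ hτ => ⟨hτ.1, hτ.2.trans_lt hs.2⟩).eventuallyLE
  have h5' := mul_le_mul_of_nonneg_left h5 hK₃
  have h6 : enW (cw u s) (Ps I x₀ (s + r ^ 2) s) ≤ K + 6144 * ε * (√r)⁻¹ := by
    rw [hK]
    linarith
  have h7 := mul_le_mul_of_nonneg_left h6 hsr.le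
  have h8 : √r * (K + 6144 * ε * (√r)⁻¹) = √r * K + 6144 * ε := by
    field_simp
  have h9 : √r * K ≤ θ := by
    rw [le_div_iff₀ hK0] at r4
    exact r4
  linarith

/-- From the weight to the neighbourhood. -/
lemma nw_lowP (h : ST 1 T u p t₀ E) (hI : I.card = n + 1) {s : ℝ} (hs : s ∈ Ico t₀ T) (hr : 0 < r)
    {B : ℝ} (hB : √r * enW (cw u s) (Ps I x₀ (s + r ^ 2) s) ≤ B) :
    ∫⁻ x in nb I x₀ r, ENNReal.ofReal (nw (cw u s) x)
      ≤ ENNReal.ofReal (Real.exp (5 / 16) * B * r) := by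
  have hX := Real.exp_pos (5 / 16)
  have hs0 : 0 < s := h.t0.trans_le hs.1
  have hw : ∀ i, HF (cw u s i) := fun i => h.toHS.cw_HF (h.mem0 hs) i
  have hsr : 0 < √r := Real.sqrt_pos.2 hr
  have hr2 : 0 < r ^ 2 := by positivity
  have hsT : s < s + r ^ 2 := by linarith
  have e0 : s + r ^ 2 - s = r ^ 2 := by ring
  have e1 : ∀ x ∈ nb I x₀ r, ENNReal.ofReal (nw (cw u s) x)
      ≤ ENNReal.ofReal (Real.exp (5 / 16) * r * √r)
        * (ENNReal.ofReal (nw (cw u s) x) * ENNReal.ofReal (Ps I x₀ (s + r ^ 2) s x)) := by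
    intro x hx
    have h1 : 1 ≤ Real.exp (5 / 16) * r * √r * Ps I x₀ (s + r ^ 2) s x := by
      unfold Ps az
      rw [e0, Real.sqrt_sq hr.le]
      have hx' : dI I x₀ x < r := hx
      have h2 : qI I x₀ x / r ^ 2 ≤ 1 := by
        rw [div_le_one hr2, ← dI_sq]
        exact pow_le_pow_left₀ (dI_nonneg _ _ _) hx'.le 2
      have h3 := ph_low (div_nonneg (qI_nonneg I x₀ x) hr2.le) h2
      have h4 : Real.exp (5 / 16) * Real.exp (-(5 / 16)) = 1 := by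
        rw [← Real.exp_add]
        norm_num
      have h5 : r * √r * (√r * (r ^ 2)⁻¹) = 1 := by
        have : √r * √r = r := Real.mul_self_sqrt hr.le
        calc r * √r * (√r * (r ^ 2)⁻¹) = r * (√r * √r) * (r ^ 2)⁻¹ := by ring
          _ = 1 := by
              rw [this]
              field_simp
      calc (1 : ℝ) = (Real.exp (5 / 16) * Real.exp (-(5 / 16))) * (r * √r * (√r * (r ^ 2)⁻¹)) := by
            rw [h4, h5, mul_one]
        _ = Real.exp (5 / 16) * r * √r * (√r * (r ^ 2)⁻¹ * Real.exp (-(5 / 16))) := by ring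
        _ ≤ _ := mul_le_mul_of_nonneg_left (mul_le_mul_of_nonneg_left h3 (by positivity))
            (by positivity)
    calc ENNReal.ofReal (nw (cw u s) x) = ENNReal.ofReal (nw (cw u s) x) * 1 := (mul_one _).symm
      _ ≤ ENNReal.ofReal (nw (cw u s) x)
          * ENNReal.ofReal (Real.exp (5 / 16) * r * √r * Ps I x₀ (s + r ^ 2) s x) := by
          refine mul_le_mul_right ?_ _
          rw [← ENNReal.ofReal_one]
          exact ENNReal.ofReal_le_ofReal h1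
      _ = _ := by
          rw [ENNReal.ofReal_mul (by positivity)]
          ring
  calc ∫⁻ x in nb I x₀ r, ENNReal.ofReal (nw (cw u s) x)
      ≤ ∫⁻ x in nb I x₀ r, ENNReal.ofReal (Real.exp (5 / 16) * r * √r)
        * (ENNReal.ofReal (nw (cw u s) x) * ENNReal.ofReal (Ps I x₀ (s + r ^ 2) s x)) :=
        setLIntegral_mono' nb_meas e1
    _ = ENNReal.ofReal (Real.exp (5 / 16) * r * √r) * ∫⁻ x in nb I x₀ r,
        ENNReal.ofReal (nw (cw u s) x) * ENNReal.ofReal (Ps I x₀ (s + r ^ 2) s x) :=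
        lintegral_const_mul' _ _ ENNReal.ofReal_ne_top
    _ ≤ ENNReal.ofReal (Real.exp (5 / 16) * r * √r) * ∫⁻ x,
        ENNReal.ofReal (nw (cw u s) x) * ENNReal.ofReal (Ps I x₀ (s + r ^ 2) s x) :=
        mul_le_mul_right (setLIntegral_le_lintegral _ _) _
    _ ≤ _ := by
        rw [← enW_lint hw (Ps_BF hI hs0 hsT) (fun x => Ps_nonneg hsT x),
          ← ENNReal.ofReal_mul (by positivity)]
        apply ENNReal.ofReal_le_ofReal
        calc Real.exp (5 / 16) * r * √r * enW (cw u s) (Ps I x₀ (s + r ^ 2) s)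
            = Real.exp (5 / 16) * r * (√r * enW (cw u s) (Ps I x₀ (s + r ^ 2) s)) := by ring
          _ ≤ Real.exp (5 / 16) * r * B := mul_le_mul_of_nonneg_left hB (by positivity)
          _ = _ := by ring

end

/-- The criterion for the averaged inflow in the parabolic neighbourhoods. -/
theorem critP : ∃ ε : ℝ, 0 < ε ∧ ∀ (T : ℝ) (u : ℝ → V → V) (p : ℝ → V → ℝ)
    (t₀ E : ℝ), ST 1 T u p t₀ E → ∀ (I : Finset (Fin 3)) (x₀ : V) (R : ℝ), 2 ≤ I.card → 0 < R →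
    (∀ ρ ∈ Ioo 0 R, ∀ t t', t₀ ≤ t → t ≤ t' → t' < T → T - t ≤ ρ ^ 2 →
      ∫ τ in Ioc t t', Ah I x₀ 1 ρ (cw u τ) (p τ) ≤ ε * ρ) →
    ∃ δ Q : ℝ, 0 < δ ∧ ∀ t ∈ Ioo (T - δ) T, ∀ x₁ ∈ PI' I x₀, ∀ x ∈ ball x₁ δ, ‖u t x‖ ≤ Q := by
  obtain ⟨θ, hθ, hN⟩ := bN one_pos
  have hX := Real.exp_pos (5 / 16)
  refine ⟨θ / (4 * 6144 * Real.exp (5 / 16)), by positivity, ?_⟩
  intro T u p t₀ E h I x₀ R hI hR hyp
  obtain ⟨ε, hεe⟩ : ∃ ε : ℝ, ε = θ / (4 * 6144 * Real.exp (5 / 16)) := ⟨_, rfl⟩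
  rw [← hεe] at hyp
  have hε : 0 ≤ ε := by rw [hεe]; positivity
  have hcard : I.card ≤ 3 := by
    have h1 := Finset.card_le_univ I
    rwa [Fintype.card_fin] at h1
  obtain ⟨n, hn⟩ : ∃ n, I.card = n + 1 := ⟨I.card - 1, by omega⟩
  have hn1 : 1 ≤ n := by omega
  obtain ⟨K₃, hK₃, hen⟩ := en_P h hn hn1 hR x₀
  obtain ⟨r₁, hr₁, hsm⟩ := smP h hn hε hK₃ (hen ε hε hyp)
    (θ := θ / (4 * Real.exp (5 / 16))) (by positivity)
  refine hN T u p t₀ E h (PI' I x₀) (r₁ / 2) (by positivity) ?_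
  intro x₁ hx₁ R hR hR1 s hs hts
  obtain ⟨-, h2⟩ := hsm (2 * R) (by positivity) (by linarith) s ⟨by nlinarith [hs.1], hs.2⟩
  have h3 := nw_lowP (x₀ := x₀) h hn ⟨hts, hs.2⟩ (r := 2 * R) (by positivity) h2
  refine (lintegral_mono_set (ball_nb hx₁ hR)).trans (h3.trans (ENNReal.ofReal_le_ofReal ?_))
  have h5 : Real.exp (5 / 16) * (θ / (4 * Real.exp (5 / 16)) + 6144 * ε) = θ / 2 := by
    rw [hεe]
    field_simp
    ring
  rw [h5]
  linarith

end Pool.Agent.H305.EG
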