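import Pool.Agent.H305.EG.Inf
import Pool.Agent.H305.EG.Hs

/-!
Singular points on affine subspaces.
-/

set_option autoImplicit false

open MeasureTheory Set Metric Filter Topology
open scoped ContDiff ENNReal

namespace Pool.Agent.H305.EG

open H459R3.NS W221.NS Pool.Agent.V1183.PM Pool.Agent.H305.OS Pool.Agent.H305.SL Pool.Agent.H305.PL
  Pool.Agent.H305.EF

section
variable {ν T : ℝ} {u : ℝ → V → V} {p : ℝ → V → ℝ}

/-- If the solution is unbounded near an affine subspace, there is a singular point on it. -/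
theorem sing_sub (h : HS ν T u p) (hT : 0 < T) {m : ℕ} (f : Fin m → V) (b₀ : V)
    (hs : ∀ d > 0, ∀ M, ∃ t ∈ Ioo (T - d) T, ∃ x ∈ nbh f b₀ d, ∃ i, M < |u t x i|) :
    ∃ b : V, (∀ i, ∑ l, f i l * (b l - b₀ l) = 0) ∧
      ∀ U ∈ 𝓝 b, ∀ d > 0, ∀ M, ∃ t ∈ Ioo (T - d) T, ∃ x ∈ U, ∃ i, M < |u t x i| := by
  obtain ⟨K, d₀, M₀, hd₀, hK⟩ := bd_inf h hT
  have h1 : ∀ n : ℕ, ∃ t ∈ Ioo (T - min d₀ (1 / (n + 1))) T, ∃ x ∈ nbh f b₀ (min d₀ (1 / (n + 1))),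
      ∃ i, max M₀ n < |u t x i| := fun n => hs _ (lt_min hd₀ (by positivity)) _
  choose t ht x hx i hi using h1
  have hxK : ∀ n, x n ∈ closedBall (0 : V) K := by
    intro n
    rw [mem_closedBall_zero_iff]
    by_contra hc
    have h2 : min d₀ (1 / ((n : ℝ) + 1)) ≤ d₀ := min_le_left _ _
    have h3 := hK (t n) ⟨by linarith [(ht n).1], (ht n).2⟩ (x n) (not_le.1 hc).le
    have h4 := norm_le_pi_norm (u (t n) (x n)) (i n)
    rw [Real.norm_eq_abs] at h4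
    have h5 := (le_max_left M₀ (n : ℝ)).trans_lt (hi n)
    linarith
  obtain ⟨b, -, φ, hφ, hb⟩ := (isCompact_closedBall (0 : V) K).tendsto_subseq hxK
  have hlim : Tendsto (fun n : ℕ => 1 / ((φ n : ℝ) + 1)) atTop (𝓝 0) :=
    tendsto_one_div_add_atTop_nhds_zero_nat.comp hφ.tendsto_atTop
  refine ⟨b, ?_, ?_⟩
  · have hc : Continuous fun x : V => ∑ i, (∑ l, f i l * (x l - b₀ l)) ^ 2 := by fun_prop
    have h2 : Tendsto (fun n => ∑ i, (∑ l, f i l * (x (φ n) l - b₀ l)) ^ 2) atTop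
        (𝓝 (∑ i, (∑ l, f i l * (b l - b₀ l)) ^ 2)) := (hc.tendsto b).comp hb
    have h3 : Tendsto (fun n : ℕ => (1 / ((φ n : ℝ) + 1)) ^ 2) atTop (𝓝 (0 ^ 2)) := hlim.pow 2
    have h4 : ∑ i, (∑ l, f i l * (b l - b₀ l)) ^ 2 ≤ 0 ^ 2 := by
      refine le_of_tendsto_of_tendsto' h2 h3 fun n => ?_
      have h5 : ∑ i, (∑ l, f i l * (x (φ n) l - b₀ l)) ^ 2 < (min d₀ (1 / ((φ n : ℝ) + 1))) ^ 2 :=
        hx (φ n)
      exact h5.le.trans (pow_le_pow_left₀ (by positivity) (min_le_right _ _) 2)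
    intro i
    have h5 : (∑ l, f i l * (b l - b₀ l)) ^ 2 ≤ ∑ i, (∑ l, f i l * (b l - b₀ l)) ^ 2 :=
      Finset.single_le_sum (f := fun i => (∑ l, f i l * (b l - b₀ l)) ^ 2)
        (fun _ _ => sq_nonneg _) (Finset.mem_univ i)
    have h6 : (∑ l, f i l * (b l - b₀ l)) ^ 2 = 0 :=
      le_antisymm (h5.trans (by simpa using h4)) (sq_nonneg _)
    exact pow_eq_zero_iff (two_ne_zero) |>.1 h6
  · intro U hU d hd M
    obtain ⟨N, hN⟩ := exists_nat_gt M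
    have h2 : ∀ᶠ n in atTop, x (φ n) ∈ U := hb hU
    have h3 : ∀ᶠ n : ℕ in atTop, 1 / ((φ n : ℝ) + 1) < d := hlim.eventually (gt_mem_nhds hd)
    have h4 : ∀ᶠ n : ℕ in atTop, N ≤ φ n := hφ.tendsto_atTop.eventually_ge_atTop N
    obtain ⟨n, a1, a2, a3⟩ := (h2.and (h3.and h4)).exists
    refine ⟨t (φ n), ⟨?_, (ht (φ n)).2⟩, x (φ n), a1, i (φ n), ?_⟩
    · have h5 := (ht (φ n)).1
      have h6 : min d₀ (1 / ((φ n : ℝ) + 1)) ≤ 1 / ((φ n : ℝ) + 1) := min_le_right _ _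
      linarith
    · have h5 := (le_max_right M₀ ((φ n : ℕ) : ℝ)).trans_lt (hi (φ n))
      have h6 : (N : ℝ) ≤ (φ n : ℕ) := by exact_mod_cast a3
      linarith

lemma nbh_mem {m : ℕ} (f : Fin m → V) (b : V) {d : ℝ} (hd : 0 < d) : nbh f b d ∈ 𝓝 b := by
  have h1 : Continuous fun x : V => ∑ i, (∑ l, f i l * (x l - b l)) ^ 2 := by fun_prop
  refine (isOpen_lt h1 continuous_const).mem_nhds ?_
  have h2 : ∑ i, (∑ l, f i l * (b l - b l)) ^ 2 = 0 := by simp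
  show ∑ i, (∑ l, f i l * (b l - b l)) ^ 2 < d ^ 2
  rw [h2]
  positivity

end

end Pool.Agent.H305.EG
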