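import Pool.Agent.H305.EG.Pg
import Pool.Agent.H305.EG.Sg

/-!
The criterion in the parabolic neighbourhoods, for points and lines.
-/

set_option autoImplicit false

open MeasureTheory Set Metric Filter Topology
open scoped ContDiff ENNReal

namespace Pool.Agent.H305.EG

open H459R3.NS W221.NS Pool.Agent.V1183.PM Pool.Agent.H305.OS Pool.Agent.H305.SL Pool.Agent.H305.PL
  Pool.Agent.H305.EF

/-- The criterion. -/
def CP {m : ℕ} (ν T : ℝ) (u : ℝ → V → V) (p : ℝ → V → ℝ) (R : ℝ) (f : Fin m → V) (b : V)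
    (e₁ : ℝ) : Prop :=
  ∀ ρ ∈ Ioo 0 R, ∀ t t', 0 < t → t < t' → t' < T → ν * (T - t) ≤ ρ ^ 2 →
    ∫ τ in Ioc t t', net ν (cw u τ) (p τ) (fun x => max (1 - dsf f b x / ρ ^ 2) 0) ≤ e₁ * ρ

/-- The criterion in coordinates. -/
theorem coordP : ∃ ε : ℝ, 0 < ε ∧ ∀ (T : ℝ) (u : ℝ → V → V) (p : ℝ → V → ℝ),
    HS 1 T u p → 0 < T → ∀ (I : Finset (Fin 3)) (x₀ : V) (R : ℝ), 2 ≤ I.card → 0 < R →
    (∀ ρ ∈ Ioo 0 R, ∀ t t', 0 < t → t < t' → t' < T → T - t ≤ ρ ^ 2 →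
      ∫ τ in Ioc t t', Ah I x₀ 1 ρ (cw u τ) (p τ) ≤ ε * ρ) →
    ∃ d Q : ℝ, 0 < d ∧ ∀ t ∈ Ioo (T - d) T, ∀ x : V, dI I x₀ x < d → ‖u t x‖ ≤ Q := by
  obtain ⟨ε, hε, hP⟩ := critP
  refine ⟨ε, hε, ?_⟩
  intro T u p h hT I x₀ R hI hR hin
  obtain ⟨t₀, ht₀, E, hST⟩ := ST_of h (a := T / 2) (by linarith) (by linarith)
  obtain ⟨d, Q, hd, hQ⟩ := hP T u p t₀ E hST I x₀ R hI hR (by
    intro ρ hρ t t' h1 h2 h3 h4
    rcases eq_or_lt_of_le h2 with h5 | h5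
    · rw [h5, Ioc_self]
      simp only [Measure.restrict_empty, integral_zero_measure]
      exact mul_nonneg hε.le hρ.1.le
    · exact hin ρ hρ t t' (hST.t0.trans_le h1) h5 h3 h4)
  refine ⟨d, Q, hd, fun t ht x hx => ?_⟩
  refine hQ t ht (fun i => if i ∈ I then x₀ i else x i) (fun i hi => by simp only [if_pos hi]) x ?_
  rw [mem_ball, dist_pi_lt_iff hd]
  intro i
  by_cases hi : i ∈ I
  · simp only [if_pos hi]
    rw [Real.dist_eq]
    exact (abs_le_dI hi).trans_lt hx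
  · simp only [if_neg hi, dist_self]
    exact hd

/-- The criterion for the viscosity one. -/
theorem crit_frP : ∃ ε : ℝ, 0 < ε ∧ ∀ (T : ℝ) (u : ℝ → V → V)
    (p : ℝ → V → ℝ), HS 1 T u p → 0 < T → ∀ (m : ℕ) (f : Fin m → V), 2 ≤ m →
    (∀ i j, ∑ l, f i l * f j l = if i = j then 1 else 0) → ∀ (b : V) (R : ℝ), 0 < R →
    CP 1 T u p R f b ε →
    ∃ d : ℝ, 0 < d ∧ ∃ M : ℝ, ∀ t ∈ Ioo (T - d) T, ∀ x ∈ nbh f b d, ∀ i, |u t x i| ≤ M := by
  obtain ⟨ε₁, hε₁, hcr₁⟩ := coordP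
  refine ⟨ε₁, hε₁, ?_⟩
  intro T u p h hT m f hm hf b R hR hin
  obtain ⟨M, I, hM, hI, hMI⟩ := exists_MI (by omega : 0 < m) hf
  have hr := OS.HS.rot h hM
  have hq : ∀ y : V, qI I (lm M b) y = dsf f b (lm M y) := by
    intro y
    have h1 := hMI (fun l => lm M y l - b l)
    unfold dsf
    rw [← h1]
    unfold qI
    refine Finset.sum_congr rfl fun i _ => ?_
    have h2 : lm M (fun l => lm M y l - b l) = fun l => y l - lm M b l := by
      have h3 : (fun l => lm M y l - b l) = lm M y - b := rfl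
      rw [h3, map_sub, hM.lm_lm]
      rfl
    rw [h2]
  have hnb : ∀ ρ : ℝ, 0 < ρ → nb I (lm M b) ρ = (lm M) ⁻¹' (nbh f b ρ) := by
    intro ρ hρ
    ext y
    show √(qI I (lm M b) y) < ρ ↔ dsf f b (lm M y) < ρ ^ 2
    rw [Real.sqrt_lt' hρ, hq]
  have key : ∃ d Q : ℝ, 0 < d ∧ ∀ t ∈ Ioo (T - d) T, ∀ x : V, dI I (lm M b) x < d →
      ‖uM M u t x‖ ≤ Q := by
    refine hcr₁ T (uM M u) (pM M p) hr hT I (lm M b) R (by omega) hR ?_
    intro ρ hρ t t' h1 h2 h3 h4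
    have h5 := hin ρ hρ t t' h1 h2 h3 (by rw [one_mul]; exact h4)
    refine le_trans (le_of_eq ?_) h5
    refine setIntegral_congr_fun measurableSet_Ioc fun τ hτ => ?_
    have hτ0 : τ ∈ Ioo 0 T := ⟨h1.trans hτ.1, hτ.2.trans_lt h3⟩
    have hF := gF_fin hr hτ0
    rw [← net_uM h hM hτ0, Ah_net (fun i => hr.cw_HF hτ0 i) (hr.div τ hτ0) (hr.p_HF hτ0) hρ.1 hF]
    unfold net
    simp only [hq]
  obtain ⟨d, Q, hd, hQ⟩ := key
  refine ⟨d, hd, ∑ i, ∑ k, |M i k| * |Q|, fun t ht x hx i => ?_⟩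
  have hx' : dI I (lm M b) (lm M x) < d := by
    have h1 : lm M x ∈ nb I (lm M b) d := by
      rw [hnb d hd]
      show lm M (lm M x) ∈ nbh f b d
      rw [hM.lm_lm]
      exact hx
    exact h1
  have e1 : u t x i = ∑ k, M i k * uM M u t (lm M x) k := by
    have k1 : (fun k => uM M u t (lm M x) k) = lm M (u t x) := by
      funext k
      unfold uM
      rw [hM.lm_lm, lm_apply]
    have k2 : uM M u t (lm M x) = lm M (u t x) := k1
    rw [k2, ← lm_apply, hM.lm_lm]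
  rw [e1]
  have k3 : |∑ k, M i k * uM M u t (lm M x) k| ≤ ∑ k, |M i k| * |Q| := by
    refine (Finset.abs_sum_le_sum_abs _ _).trans (Finset.sum_le_sum fun k _ => ?_)
    rw [abs_mul]
    have k4 := norm_le_pi_norm (uM M u t (lm M x)) k
    rw [Real.norm_eq_abs] at k4
    exact mul_le_mul_of_nonneg_left ((k4.trans (hQ t ht (lm M x) hx')).trans (le_abs_self Q))
      (abs_nonneg _)
  refine k3.trans ?_
  exact single1 (F := fun i => ∑ k, |M i k| * |Q|)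
    (fun i => Finset.sum_nonneg fun k _ => by positivity) i

/-- The criterion. -/
theorem crit_absP : ∃ ε : ℝ, 0 < ε ∧ ∀ (ν T : ℝ) (u : ℝ → V → V)
    (p : ℝ → V → ℝ), HS ν T u p → 0 < T → ∀ (m : ℕ) (f : Fin m → V), 2 ≤ m →
    (∀ i j, ∑ l, f i l * f j l = if i = j then 1 else 0) → ∀ (b : V) (R : ℝ), 0 < R →
    CP ν T u p R f b (ε * ν ^ 2) →
    ∃ d : ℝ, 0 < d ∧ ∃ M : ℝ, ∀ t ∈ Ioo (T - d) T, ∀ x ∈ nbh f b d, ∀ i, |u t x i| ≤ M := by
  obtain ⟨ε, hε, hcr⟩ := crit_frP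
  refine ⟨ε, hε, ?_⟩
  intro ν T u p h hT m f hm hf b R hR hin
  have hν := h.hν
  obtain ⟨d, hd, M, hM⟩ := hcr (ν * T) (us ν⁻¹ u) (ps ν⁻¹ p) (HS_k h) (by positivity) m f hm hf b R
    hR (by
      intro ρ hρ t t' h1 h2 h3 h4
      obtain ⟨W, hW⟩ : ∃ W : V → ℝ, W = fun x => max (1 - dsf f b x / ρ ^ 2) 0 := ⟨_, rfl⟩
      rw [← hW]
      have e1 : ∫ τ in Ioc t t', net 1 (cw (us ν⁻¹ u) τ) (ps ν⁻¹ p τ) W
          = ∫ τ in Ioc t t', ν⁻¹ ^ 3 * net ν (cw u (ν⁻¹ * τ)) (p (ν⁻¹ * τ)) W := by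
        refine setIntegral_congr_fun measurableSet_Ioc fun τ hτ => ?_
        exact net_k h ⟨h1.trans hτ.1, hτ.2.trans_lt h3⟩ _
      have e2 := int_k hν (fun τ => net ν (cw u τ) (p τ) W) h2.le
      rw [e1, integral_const_mul, e2]
      have h5 := hin ρ hρ (ν⁻¹ * t) (ν⁻¹ * t') (by positivity)
        (mul_lt_mul_of_pos_left h2 (by positivity)) (by rw [inv_mul_lt_iff₀ hν]; exact h3) (by
          have : ν * (T - ν⁻¹ * t) = 1 * (ν * T - t) := by field_simp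
          rw [this]
          exact h4)
      rw [← hW] at h5
      calc ν⁻¹ ^ 3 * (ν * ∫ τ in Ioc (ν⁻¹ * t) (ν⁻¹ * t'), net ν (cw u τ) (p τ) W)
          ≤ ν⁻¹ ^ 3 * (ν * (ε * ν ^ 2 * ρ)) := by gcongr
        _ = ε * ρ := by field_simp)
  refine ⟨min d (d / ν), by positivity, ν * M, ?_⟩
  intro t ht x hx i
  have h1 : min d (d / ν) ≤ d := min_le_left _ _
  have h2 : min d (d / ν) ≤ d / ν := min_le_right _ _
  have hx' : x ∈ nbh f b d := by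
    have h3 : ∑ i, (∑ l, f i l * (x l - b l)) ^ 2 < (min d (d / ν)) ^ 2 := hx
    exact lt_of_lt_of_le h3 (pow_le_pow_left₀ (by positivity) h1 2)
  have ht' : ν * t ∈ Ioo (ν * T - d) (ν * T) := by
    constructor
    · have h3 : T - d / ν < t := by linarith [ht.1]
      have h4 := mul_lt_mul_of_pos_left h3 hν
      have e : ν * (T - d / ν) = ν * T - d := by field_simp
      linarith
    · exact mul_lt_mul_of_pos_left ht.2 hν
  have h3 := hM (ν * t) ht' x hx' i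
  have e : us ν⁻¹ u (ν * t) x i = ν⁻¹ * u t x i := by
    unfold us
    rw [← mul_assoc, inv_mul_cancel₀ hν.ne', one_mul]
  rw [e, abs_mul, abs_of_pos (inv_pos.2 hν), inv_mul_le_iff₀ hν] at h3
  exact h3

end Pool.Agent.H305.EG
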