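import Pool.Agent.H305.EG.Ph

/-!
The tent is an average of neighbourhoods.
-/

set_option autoImplicit false

open MeasureTheory Set Metric Filter Topology
open scoped ContDiff ENNReal

namespace Pool.Agent.H305.EG

open H459R3.NS W221.NS Pool.Agent.V1183.PM Pool.Agent.H305.OS Pool.Agent.H305.SL Pool.Agent.H305.PL
  Pool.Agent.H305.EF

section
variable {ν T t₁ t₂ ρ : ℝ} {u : ℝ → V → V} {p : ℝ → V → ℝ} {m : ℕ} {f : Fin m → V} {b : V}

lemma dsf_nonneg (f : Fin m → V) (b x : V) : 0 ≤ dsf f b x := Finset.sum_nonneg fun _ _ => sq_nonneg _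

lemma dsf_cont (f : Fin m → V) (b : V) : Continuous (dsf f b) := by
  unfold dsf
  fun_prop

lemma tent_int (hρ : 0 < ρ) {d : ℝ} (hd : 0 ≤ d) :
    ∫ σ in Ioo 0 ρ, (Ioi (√d)).indicator (fun σ => 2 * σ / ρ ^ 2) σ = max (1 - d / ρ ^ 2) 0 := by
  rw [setIntegral_indicator measurableSet_Ioi]
  have e6 : Ioo 0 ρ ∩ Ioi (√d) = Ioo (√d) ρ := by
    ext σ
    simp only [mem_inter_iff, mem_Ioo, mem_Ioi]
    constructor
    · rintro ⟨⟨_, h2⟩, h3⟩
      exact ⟨h3, h2⟩
    · rintro ⟨h1, h2⟩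
      exact ⟨⟨(Real.sqrt_nonneg d).trans_lt h1, h2⟩, h1⟩
  rw [e6]
  rcases le_or_gt (√d) ρ with h | h
  · rw [← integral_Ioc_eq_integral_Ioo, ← intervalIntegral.integral_of_le h]
    rw [intervalIntegral.integral_eq_sub_of_hasDerivAt (f := fun σ => σ ^ 2 / ρ ^ 2)]
    · rw [Real.sq_sqrt hd, div_self (by positivity), max_eq_left]
      rw [sub_nonneg, div_le_one (by positivity)]
      rw [Real.sqrt_le_left hρ.le] at h
      exact h
    · intro σ _
      have := (hasDerivAt_pow 2 σ).div_const (ρ ^ 2)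
      refine this.congr_deriv ?_
      norm_num
    · exact (by fun_prop : Continuous fun σ : ℝ => 2 * σ / ρ ^ 2).intervalIntegrable _ _
  · rw [Ioo_eq_empty (not_lt.2 h.le)]
    simp only [Measure.restrict_empty, integral_zero_measure]
    rw [max_eq_right]
    rw [sub_nonpos, one_le_div (by positivity)]
    have := (Real.lt_sqrt hρ.le).1 h
    exact this.le

/-- The tent is an average. -/
lemma tent_avg (h : HS ν T u p) (ht₁ : 0 < t₁) (ht₂ : t₂ < T) (hρ : 0 < ρ) :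
    IntegrableOn (fun σ => 2 * σ / ρ ^ 2 * ∫ τ in Ioc t₁ t₂, net ν (cw u τ) (p τ)
      ((nbh f b σ).indicator 1)) (Ioo 0 ρ) ∧
    ∫ τ in Ioc t₁ t₂, net ν (cw u τ) (p τ) (fun x => max (1 - dsf f b x / ρ ^ 2) 0)
      = ∫ σ in Ioo 0 ρ, 2 * σ / ρ ^ 2 * ∫ τ in Ioc t₁ t₂, net ν (cw u τ) (p τ)
        ((nbh f b σ).indicator 1) := by
  have hJ := Jd_int h ht₁ ht₂
  obtain ⟨μ, hμ⟩ : ∃ μ : Measure ℝ, μ = volume.restrict (Ioc t₁ t₂) := ⟨_, rfl⟩
  obtain ⟨lam, hlam⟩ : ∃ lam : Measure ℝ, lam = volume.restrict (Ioo 0 ρ) := ⟨_, rfl⟩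
  rw [← hμ] at hJ
  have : IsFiniteMeasure μ := by
    rw [hμ]
    exact ⟨by rw [Measure.restrict_apply_univ, Real.volume_Ioc]; exact ENNReal.ofReal_lt_top⟩
  have : IsFiniteMeasure lam := by
    rw [hlam]
    exact ⟨by rw [Measure.restrict_apply_univ, Real.volume_Ioo]; exact ENNReal.ofReal_lt_top⟩
  obtain ⟨S, hS⟩ : ∃ S : Set ((ℝ × V) × ℝ), S = {q | √(dsf f b q.1.2) < q.2} := ⟨_, rfl⟩
  have hSm : MeasurableSet S := by
    rw [hS]
    exact measurableSet_lt (((dsf_cont f b).measurable.comp measurable_fst.snd).sqrt) measurable_snd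
  obtain ⟨W, hW⟩ : ∃ W : (ℝ × V) × ℝ → ℝ, W = S.indicator fun q => 2 * q.2 / ρ ^ 2 := ⟨_, rfl⟩
  have hWm : Measurable W := by
    rw [hW]
    exact Measurable.indicator ((measurable_snd.const_mul 2).div_const _) hSm
  have hWb : ∀ q ∈ (Ioc t₁ t₂ ×ˢ (univ : Set V)) ×ˢ Ioo 0 ρ, ‖W q‖ ≤ 2 / ρ := by
    intro q hq
    rw [hW]
    by_cases h1 : q ∈ S
    · rw [indicator_of_mem h1, Real.norm_eq_abs]
      have h2 := hq.2.1
      rw [abs_of_pos (by positivity), div_le_div_iff₀ (by positivity) hρ]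
      nlinarith [hq.2.2]
    · rw [indicator_of_notMem h1, norm_zero]
      positivity
  have hm1 : (μ.prod (volume : Measure V)).prod lam
      = (((volume : Measure ℝ).prod (volume : Measure V)).prod (volume : Measure ℝ)).restrict
        ((Ioc t₁ t₂ ×ˢ univ) ×ˢ Ioo 0 ρ) := by
    rw [hμ, hlam, ← Measure.prod_restrict, ← Measure.prod_restrict, Measure.restrict_univ]
  have hm2 : μ.prod (volume : Measure V)
      = ((volume : Measure ℝ).prod (volume : Measure V)).restrict (Ioc t₁ t₂ ×ˢ univ) := by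
    rw [hμ, ← Measure.prod_restrict, Measure.restrict_univ]
  obtain ⟨H, hH⟩ : ∃ H : (ℝ × V) × ℝ → ℝ, H = fun q => Jd ν u p q.1.1 q.1.2 * W q := ⟨_, rfl⟩
  have hHi : Integrable H ((μ.prod (volume : Measure V)).prod lam) := by
    rw [hH]
    refine (hJ.comp_fst lam).mul_bdd hWm.aestronglyMeasurable (c := 2 / ρ) ?_
    rw [hm1]
    exact ae_restrict_of_forall_mem ((measurableSet_Ioc.prod MeasurableSet.univ).prod
      measurableSet_Ioo) hWb
  have hρi : ∀ σ ∈ Ioo 0 ρ, Integrable (fun q : ℝ × V => H (q, σ)) (μ.prod (volume : Measure V)) := by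
    intro σ hσ
    rw [hH]
    refine hJ.mul_bdd (hWm.comp (measurable_id.prodMk
      measurable_const)).aestronglyMeasurable (c := 2 / ρ) ?_
    rw [hm2]
    exact ae_restrict_of_forall_mem (measurableSet_Ioc.prod MeasurableSet.univ)
      fun q hq => hWb (q, σ) ⟨hq, hσ⟩
  have e3 : ∀ σ ∈ Ioo 0 ρ, ∫ q, H (q, σ) ∂(μ.prod (volume : Measure V))
      = 2 * σ / ρ ^ 2 * ∫ τ in Ioc t₁ t₂, net ν (cw u τ) (p τ) ((nbh f b σ).indicator 1) := by
    intro σ hσ
    rw [integral_prod _ (hρi σ hσ), hμ, ← integral_const_mul]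
    refine integral_congr_ae (Eventually.of_forall fun τ => ?_)
    simp only
    unfold net
    rw [← integral_const_mul]
    congr 1
    funext x
    rw [hH, hW]
    have hiff : √(dsf f b x) < σ ↔ x ∈ nbh f b σ := by
      rw [Real.sqrt_lt' hσ.1]
      rfl
    by_cases hx : x ∈ nbh f b σ
    · have h1 : ((τ, x), σ) ∈ S := by rw [hS]; exact hiff.2 hx
      simp only
      rw [indicator_of_mem h1, indicator_of_mem hx, Pi.one_apply]
      unfold Jd
      ring
    · have h1 : ((τ, x), σ) ∉ S := by rw [hS]; exact fun h => hx (hiff.1 h)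
      simp only
      rw [indicator_of_notMem h1, indicator_of_notMem hx]
      ring
  have e4 : ∀ τ x, ∫ σ, H ((τ, x), σ) ∂lam = Jd ν u p τ x * max (1 - dsf f b x / ρ ^ 2) 0 := by
    intro τ x
    rw [hH]
    simp only
    rw [integral_const_mul, ← tent_int hρ (dsf_nonneg f b x), hlam]
    congr 1
    refine integral_congr_ae (Eventually.of_forall fun σ => ?_)
    simp only
    rw [hW]
    by_cases hσ : √(dsf f b x) < σ
    · rw [indicator_of_mem (by rw [hS]; exact hσ), indicator_of_mem (by exact hσ)]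
    · rw [indicator_of_notMem (by rw [hS]; exact hσ), indicator_of_notMem (by exact hσ)]
  have hsw := integral_integral_swap (f := fun (q : ℝ × V) (σ : ℝ) => H (q, σ)) hHi
  have hpi : Integrable (fun q : ℝ × V => ∫ σ, H (q, σ) ∂lam)
      (μ.prod (volume : Measure V)) := hHi.integral_prod_left
  refine ⟨?_, ?_⟩
  · have h1 := hHi.integral_prod_right
    rw [hlam] at h1
    exact IntegrableOn.congr_fun h1 (fun σ hσ => e3 σ hσ) measurableSet_Ioo
  · have h1 : ∫ q, (∫ σ, H (q, σ) ∂lam) ∂(μ.prod (volume : Measure V))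
        = ∫ τ in Ioc t₁ t₂, net ν (cw u τ) (p τ) (fun x => max (1 - dsf f b x / ρ ^ 2) 0) := by
      rw [integral_prod _ hpi, hμ]
      refine integral_congr_ae (Eventually.of_forall fun τ => ?_)
      simp only [e4]
      rfl
    rw [← h1, hsw, hlam]
    exact setIntegral_congr_fun measurableSet_Ioo fun σ hσ => e3 σ hσ

/-- From the neighbourhoods to the tent. -/
lemma tent_le (h : HS ν T u p) (ht₁ : 0 < t₁) (ht₂ : t₂ < T) (hρ : 0 < ρ) {B : ℝ}
    (hB : ∀ σ ∈ Ioo 0 ρ, ∫ τ in Ioc t₁ t₂, net ν (cw u τ) (p τ) ((nbh f b σ).indicator 1) ≤ B) :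
    ∫ τ in Ioc t₁ t₂, net ν (cw u τ) (p τ) (fun x => max (1 - dsf f b x / ρ ^ 2) 0) ≤ B := by
  obtain ⟨h1, h2⟩ := tent_avg (f := f) (b := b) h ht₁ ht₂ hρ
  rw [h2]
  have hc : Continuous fun σ : ℝ => 2 * σ / ρ ^ 2 * B := by fun_prop
  have hi : IntegrableOn (fun σ : ℝ => 2 * σ / ρ ^ 2 * B) (Ioo 0 ρ) :=
    (hc.continuousOn.integrableOn_Icc (a := 0) (b := ρ)).mono_set Ioo_subset_Icc_self
  calc _ ≤ ∫ σ in Ioo 0 ρ, 2 * σ / ρ ^ 2 * B := by
        refine setIntegral_mono_on h1 hi measurableSet_Ioo fun σ hσ => ?_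
        have h3 := hσ.1
        exact mul_le_mul_of_nonneg_left (hB σ hσ) (by positivity)
    _ = B := by
        rw [integral_mul_const]
        have h3 := tent_int hρ (le_refl (0 : ℝ))
        rw [Real.sqrt_zero, zero_div, sub_zero, max_eq_left zero_le_one] at h3
        have h4 : ∫ σ in Ioo 0 ρ, (Ioi (0 : ℝ)).indicator (fun σ => 2 * σ / ρ ^ 2) σ
            = ∫ σ in Ioo 0 ρ, 2 * σ / ρ ^ 2 := by
          refine setIntegral_congr_fun measurableSet_Ioo fun σ hσ => ?_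
          exact indicator_of_mem (by exact hσ.1) _
        rw [← h4, h3, one_mul]

end

end Pool.Agent.H305.EG
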