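import Pool.Agent.H305.EG.Scl

/-!
The pointwise criterion.
-/

set_option autoImplicit false

open MeasureTheory Set Metric Filter Topology
open scoped ContDiff ENNReal

namespace Pool.Agent.H305.EG

open H459R3.NS W221.NS Pool.Agent.V1183.PM Pool.Agent.H305.OS Pool.Agent.H305.SL Pool.Agent.H305.PL
  Pool.Agent.H305.EF

section
variable {ν T : ℝ} {u : ℝ → V → V} {p : ℝ → V → ℝ} {w : Fin 3 → V → ℝ} {q : V → ℝ} {b : V} {ρ : ℝ}

lemma inv_sq_int (b : V) (hρ : 0 < ρ) : IntegrableOn (fun x => (‖x - b‖ ^ 2)⁻¹) (ball b ρ) ∧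
    ∫ x in ball b ρ, (‖x - b‖ ^ 2)⁻¹ = 24 * ρ := by
  obtain ⟨f, hf⟩ : ∃ f : ℝ → ℝ, f = (Iio ρ).indicator (fun y => (y ^ 2)⁻¹) := ⟨_, rfl⟩
  have hdim : Module.finrank ℝ V = 3 := by simp
  have e0 : ∀ y ∈ Ioi (0 : ℝ), y ^ (Module.finrank ℝ V - 1) • f y = (Iio ρ).indicator 1 y := by
    intro y hy
    have hy0 : y ≠ 0 := ne_of_gt hy
    rw [hdim, hf]
    by_cases h : y < ρ
    · rw [indicator_of_mem (by exact h), indicator_of_mem (by exact h)]
      simp only [smul_eq_mul, Pi.one_apply]
      exact mul_inv_cancel₀ (pow_ne_zero 2 hy0)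
    · rw [indicator_of_notMem (by exact h), indicator_of_notMem (by exact h), smul_zero]
  have e1 : (ball b ρ).indicator (fun x : V => (‖x - b‖ ^ 2)⁻¹)
      = fun x => f ‖x - b‖ := by
    funext x
    rw [hf]
    by_cases h : x ∈ ball b ρ
    · have h' : ‖x - b‖ < ρ := by rwa [mem_ball, dist_eq_norm] at h
      rw [indicator_of_mem h, indicator_of_mem (by exact h')]
    · have h' : ¬‖x - b‖ < ρ := by rwa [mem_ball, dist_eq_norm] at h
      rw [indicator_of_notMem h, indicator_of_notMem (by exact h')]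
  have h1 : Integrable fun x : V => f ‖x‖ := by
    rw [integrable_fun_norm_addHaar volume (f := f)]
    refine IntegrableOn.congr_fun (f := (Iio ρ).indicator 1) ?_ (fun y hy => (e0 y hy).symm)
      measurableSet_Ioi
    rw [IntegrableOn, integrable_indicator_iff measurableSet_Iio, IntegrableOn,
      Measure.restrict_restrict measurableSet_Iio]
    refine integrableOn_const (C := (1 : ℝ)) ?_
    rw [Iio_inter_Ioi, Real.volume_Ioo]
    exact ENNReal.ofReal_ne_top
  constructor
  · rw [← integrable_indicator_iff measurableSet_ball, e1]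
    exact h1.comp_sub_right b
  · rw [← integral_indicator measurableSet_ball, e1, integral_sub_right_eq_self (fun x => f ‖x‖) b,
      integral_fun_norm_addHaar volume f, setIntegral_congr_fun measurableSet_Ioi e0,
      setIntegral_indicator measurableSet_Iio, Ioi_inter_Iio]
    have h2 : (volume : Measure V).real (ball 0 1) = 8 := by
      rw [Measure.real, Real.volume_pi_ball _ one_pos]
      norm_num
    rw [hdim, h2]
    simp only [Pi.one_apply]
    rw [setIntegral_const, Real.volume_real_Ioo_of_le hρ.le]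
    simp only [smul_eq_mul, nsmul_eq_mul]
    norm_num
    ring

lemma norm_le_dI (x : V) : ‖x - b‖ ≤ dI Finset.univ b x := by
  rw [pi_norm_le_iff_of_nonneg (dI_nonneg _ _ _)]
  intro i
  exact abs_le_dI (Finset.mem_univ i)

lemma nb_ball : nb Finset.univ b ρ ⊆ ball b ρ := by
  intro x hx
  rw [mem_ball, dist_eq_norm]
  exact (norm_le_dI x).trans_lt hx

/-- The bound from the pointwise condition. -/
lemma Ah_pt (hν : 0 < ν) (hw : ∀ i, HF (w i)) (hq : HF q) (hF : ∑ j, gF w q (w j) ≠ (⊤ : ℝ≥0∞))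
    (hρ : 0 < ρ) {g c : ℝ} (hg : 0 ≤ g) (hc : 0 ≤ c)
    (h : ∀ x ∈ nb Finset.univ b ρ, x ≠ b → KA Finset.univ b w q x ≤ g + c / qI Finset.univ b x) :
    Ah Finset.univ b ν ρ w q ≤ 8 * ρ * g + 24 * c / ρ := by
  have mw : ∀ i, Measurable (w i) := fun i => (hw i).sm.continuous.measurable
  have mq : Measurable q := hq.sm.continuous.measurable
  obtain ⟨i1, e1⟩ := inv_sq_int b hρ
  have hfin : volume (ball b ρ) ≠ ⊤ := measure_ball_lt_top.ne
  have i0 : IntegrableOn (fun _ : V => g) (ball b ρ) := integrableOn_const hfin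
  have i2 : IntegrableOn (fun x : V => g + c * (‖x - b‖ ^ 2)⁻¹) (ball b ρ) :=
    i0.add (i1.const_mul c)
  have hne : ∀ᵐ x : V ∂volume, x ≠ b := by
    have : volume ({b} : Set V) = 0 := measure_singleton b
    exact compl_mem_ae_iff.2 this
  have hpos : ∀ x : V, 0 ≤ g + c * (‖x - b‖ ^ 2)⁻¹ := fun x => by positivity
  have mn : Measurable (nw w) := by
    unfold nw
    exact Finset.measurable_sum _ fun i _ => (mw i).pow_const 2
  have mK : Measurable (KA Finset.univ b w q) := by
    unfold KA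
    refine Measurable.neg ((mn.add (mq.const_mul 2)).mul (Finset.measurable_sum _ fun j _ =>
      (mw j).mul ?_))
    fun_prop
  have i3 : IntegrableOn (KA Finset.univ b w q) (nb Finset.univ b ρ) := by
    have h1 : IntegrableOn (fun x => ρ * nq w q x) (nb Finset.univ b ρ) :=
      ((nq_int mw mq hF).1.const_mul ρ).integrableOn
    refine h1.mono' mK.aestronglyMeasurable ?_
    refine ae_restrict_of_forall_mem nb_meas fun x hx => ?_
    exact (KA_le _ _ _).trans (mul_le_mul_of_nonneg_right (le_of_lt hx) (nq_nonneg w q x))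
  have hle : ∀ᵐ x ∂(volume.restrict (nb Finset.univ b ρ)), KA Finset.univ b w q x
      ≤ g + c * (‖x - b‖ ^ 2)⁻¹ := by
    filter_upwards [ae_restrict_mem nb_meas, ae_restrict_of_ae hne] with x hx hxb
    refine (h x hx hxb).trans (add_le_add le_rfl ?_)
    rw [div_eq_mul_inv]
    refine mul_le_mul_of_nonneg_left ?_ hc
    have h0 : 0 < ‖x - b‖ := norm_pos_iff.2 (sub_ne_zero.2 hxb)
    rw [← dI_sq]
    exact inv_anti₀ (by positivity) (pow_le_pow_left₀ h0.le (norm_le_dI x) 2)
  have h1 : ∫ x in nb Finset.univ b ρ, KA Finset.univ b w q x ≤ 8 * ρ ^ 3 * g + 24 * c * ρ := by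
    calc ∫ x in nb Finset.univ b ρ, KA Finset.univ b w q x
        ≤ ∫ x in nb Finset.univ b ρ, (g + c * (‖x - b‖ ^ 2)⁻¹) :=
          integral_mono_ae i3 (i2.mono_set nb_ball) hle
      _ ≤ ∫ x in ball b ρ, (g + c * (‖x - b‖ ^ 2)⁻¹) :=
          setIntegral_mono_set i2 (Eventually.of_forall hpos) nb_ball.eventuallyLE
      _ = 8 * ρ ^ 3 * g + 24 * c * ρ := by
          rw [integral_add i0 (i1.const_mul c), integral_const_mul, e1,
            setIntegral_const, Measure.real, Real.volume_pi_ball _ hρ]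
          rw [ENNReal.toReal_ofReal (by positivity), smul_eq_mul, Fintype.card_fin]
          ring
  unfold Ah
  have h2 : ∀ x, KA Finset.univ b w q x / ρ ^ 2 - ν * ((1 - qI Finset.univ b x / ρ ^ 2) * gw w x)
      ≤ KA Finset.univ b w q x / ρ ^ 2 ∨ x ∉ nb Finset.univ b ρ := by
    intro x
    by_cases hx : x ∈ nb Finset.univ b ρ
    · left
      have h3 : 0 ≤ 1 - qI Finset.univ b x / ρ ^ 2 := by
        rw [sub_nonneg, div_le_one (by positivity), ← dI_sq]
        exact pow_le_pow_left₀ (dI_nonneg _ _ _) (le_of_lt hx) 2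
      have h4 := gw_nonneg w x
      have : 0 ≤ ν * ((1 - qI Finset.univ b x / ρ ^ 2) * gw w x) := by positivity
      linarith
    · exact Or.inr hx
  have i4 : IntegrableOn (fun x => ν * ((1 - qI Finset.univ b x / ρ ^ 2) * gw w x))
      (nb Finset.univ b ρ) := by
    refine Integrable.const_mul ?_ ν
    refine ((gw_int hw).integrableOn.bdd_mul (c := 1) ?_ ?_)
    · have : Continuous fun x : V => 1 - qI Finset.univ b x / ρ ^ 2 :=
        continuous_const.sub ((qI_cont _ _).div_const _)
      exact this.measurable.aestronglyMeasurable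
    · refine ae_restrict_of_forall_mem nb_meas fun x hx => ?_
      have h3 : qI Finset.univ b x / ρ ^ 2 ≤ 1 := by
        rw [div_le_one (by positivity), ← dI_sq]
        exact pow_le_pow_left₀ (dI_nonneg _ _ _) (le_of_lt hx) 2
      have h4 : 0 ≤ qI Finset.univ b x / ρ ^ 2 := div_nonneg (qI_nonneg _ _ _) (by positivity)
      rw [Real.norm_eq_abs, abs_of_nonneg (by linarith)]
      linarith
  calc ∫ x in nb Finset.univ b ρ, (KA Finset.univ b w q x / ρ ^ 2
        - ν * ((1 - qI Finset.univ b x / ρ ^ 2) * gw w x))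
      ≤ ∫ x in nb Finset.univ b ρ, KA Finset.univ b w q x / ρ ^ 2 := by
        refine setIntegral_mono_on ((i3.div_const _).sub i4) (i3.div_const _) nb_meas fun x hx => ?_
        exact (h2 x).resolve_right (by simpa using hx)
    _ = (∫ x in nb Finset.univ b ρ, KA Finset.univ b w q x) / ρ ^ 2 := integral_div _ _
    _ ≤ (8 * ρ ^ 3 * g + 24 * c * ρ) / ρ ^ 2 := div_le_div_of_nonneg_right h1 (by positivity)
    _ = _ := by field_simp

end

end Pool.Agent.H305.EG
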