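import Pool.Agent.H305.EG.Bf4

/-!
Small energy in a range of scales implies regularity.
-/

set_option autoImplicit false

open MeasureTheory Set Metric Filter Topology
open scoped ContDiff ENNReal

namespace Pool.Agent.H305.EG

open H459R3.NS W221.NS Pool.Agent.V1183.PM Pool.Agent.H305.OS Pool.Agent.H305.SL Pool.Agent.H305.PL
  Pool.Agent.H305.EF

/-- The recursion for the dissipation. -/
theorem bRq : ∃ C : ℝ, 0 ≤ C ∧ ∀ (ν T : ℝ) (u : ℝ → V → V) (p : ℝ → V → ℝ) (t₀ E : ℝ),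
    ST ν T u p t₀ E → ∀ (x₀ : V) (θ r₁ r' ρ₀ : ℝ), 0 < θ → θ ≤ 1 → C * (1 + ν) * √θ ≤ ν / 2 →
    0 < r₁ → 0 < ρ₀ → t₀ ≤ T - ρ₀ ^ 2 → 3 * ρ₀ * E ≤ θ * r₁ ^ 2 →
    (∀ R : ℝ, 0 < R → r' ≤ R → R ≤ r₁ → ∀ s ∈ Ico (T - R ^ 2) T, t₀ ≤ s →
      eB (cw u s) x₀ R ≤ ENNReal.ofReal (θ * R)) →
    ∀ k : ℕ, r' ≤ 3 * (ρ₀ * (1 / 9) ^ k) → ∀ s : ℝ, s < T →
      ∫⁻ τ in Ioc (T - (ρ₀ * (1 / 9) ^ k) ^ 2) s, gB (cw u τ) x₀ (ρ₀ * (1 / 9) ^ k)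
        ≤ ENNReal.ofReal ((2 * (C * (1 + ν) * √θ / ν) + (1 / 2) ^ k * (E / ρ₀))
          * (ρ₀ * (1 / 9) ^ k)) := by
  obtain ⟨C, hC, hL⟩ := bL
  refine ⟨9 * C, by positivity, ?_⟩
  intro ν T u p t₀ E h x₀ θ r₁ r' ρ₀ hθ0 hθ1 hκ hr₁ hρ₀ ht₀ hEρ hH k
  have hν := h.hν
  have hE := h.E0
  obtain ⟨κ, hκe⟩ : ∃ κ : ℝ, κ = 9 * C * (1 + ν) * √θ / ν := ⟨_, rfl⟩
  have hκ0 : 0 ≤ κ := by rw [hκe]; positivity
  have hκ1 : κ ≤ 1 / 2 := by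
    rw [hκe, div_le_iff₀ hν]
    linarith
  rw [← hκe]
  obtain ⟨Y, hY⟩ : ∃ Y : ℝ, Y = E / ρ₀ := ⟨_, rfl⟩
  have hY0 : 0 ≤ Y := by rw [hY]; positivity
  rw [← hY]
  induction k with
  | zero =>
    intro _ s hs
    simp only [pow_zero, mul_one, one_mul]
    have h1 : ∫⁻ τ in Ioc (T - ρ₀ ^ 2) s, gB (cw u τ) x₀ ρ₀ ≤ ENNReal.ofReal E := by
      refine le_trans ?_ h.e2
      have hsub : Ioc (T - ρ₀ ^ 2) s ⊆ Ioo t₀ T := fun τ hτ => ⟨ht₀.trans_lt hτ.1, hτ.2.trans_lt hs⟩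
      refine (lintegral_mono_set hsub).trans ?_
      exact lintegral_mono fun τ => setLIntegral_le_lintegral _ _
    refine h1.trans (ENNReal.ofReal_le_ofReal ?_)
    have h2 : E = Y * ρ₀ := by
      rw [hY]
      field_simp
    have h3 : 0 ≤ 2 * κ * ρ₀ := by positivity
    nlinarith
  | succ k ih =>
    intro hr' s hs
    obtain ⟨ρ, hρe⟩ : ∃ ρ : ℝ, ρ = ρ₀ * (1 / 9) ^ (k + 1) := ⟨_, rfl⟩
    have hρ : 0 < ρ := by rw [hρe]; positivity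
    have hρk : ρ₀ * (1 / 9) ^ k = 9 * ρ := by
      rw [hρe, pow_succ]
      ring
    have hρ1 : ρ ≤ ρ₀ := by
      rw [hρe]
      exact mul_le_of_le_one_right hρ₀.le (pow_le_one₀ (by norm_num) (by norm_num))
    rw [← hρe] at hr'
    have hr'k : r' ≤ 3 * (ρ₀ * (1 / 9) ^ k) := by
      rw [hρk]
      linarith
    replace ih := ih hr'k
    rw [← hρe]
    rw [hρk] at ih
    rcases lt_or_ge s (T - ρ ^ 2) with h1 | h1
    · rw [Ioc_eq_empty (not_lt.2 h1.le)]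
      simp
    · have hρ2 : ρ ^ 2 ≤ ρ₀ ^ 2 := pow_le_pow_left₀ hρ.le hρ1 2
      have ht₁ : t₀ ≤ T - ρ ^ 2 := by linarith
      obtain ⟨Z, hZ⟩ : ∃ Z : ℝ, Z = 9 * (1 + 2 * κ + (1 / 2) ^ k * Y) := ⟨_, rfl⟩
      have hq : 0 ≤ (1 / 2 : ℝ) ^ k * Y := by positivity
      have hZ1 : 1 ≤ Z := by rw [hZ]; linarith
      have hE1 : ∀ τ ∈ Icc (T - ρ ^ 2) s, ∀ R, 3 * ρ ≤ R →
          eB (cw u τ) x₀ R ≤ ENNReal.ofReal (θ * R ^ 2 / (3 * ρ)) := by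
        intro τ hτ R hR
        have hR0 : 0 < R := by linarith
        have ht : t₀ ≤ τ := ht₁.trans hτ.1
        rcases le_or_gt R r₁ with h3 | h3
        · refine (hH R hR0 (hr'.trans hR) h3 τ ⟨?_, hτ.2.trans_lt hs⟩ ht).trans (ENNReal.ofReal_le_ofReal ?_)
          · have : ρ ^ 2 ≤ R ^ 2 := pow_le_pow_left₀ hρ.le (by linarith) 2
            linarith [hτ.1]
          · rw [le_div_iff₀ (by positivity)]
            have : R * (3 * ρ) ≤ R ^ 2 := by nlinarith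
            calc θ * R * (3 * ρ) = θ * (R * (3 * ρ)) := by ring
              _ ≤ _ := mul_le_mul_of_nonneg_left this hθ0.le
        · refine (setLIntegral_le_lintegral _ _).trans ((h.e1 τ ⟨ht, hτ.2.trans_lt hs⟩).trans
            (ENNReal.ofReal_le_ofReal ?_))
          rw [le_div_iff₀ (by positivity)]
          have h4 : r₁ ^ 2 ≤ R ^ 2 := pow_le_pow_left₀ hr₁.le h3.le 2
          have h5 : θ * r₁ ^ 2 ≤ θ * R ^ 2 := mul_le_mul_of_nonneg_left h4 hθ0.le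
          have h6 : E * (3 * ρ) ≤ 3 * ρ₀ * E := by nlinarith
          linarith
      have hG1 : ∫⁻ τ in Ioc (T - ρ ^ 2) s, gB (cw u τ) x₀ (9 * ρ) ≤ ENNReal.ofReal (Z * ρ) := by
        have h3 : ρ ^ 2 ≤ (9 * ρ) ^ 2 := by nlinarith
        refine (lintegral_mono_set (Ioc_subset_Ioc_left (by linarith))).trans
          ((ih s hs).trans (ENNReal.ofReal_le_ofReal ?_))
        rw [hZ]
        nlinarith
      have h2 := hL ν T u p h.toHS x₀ ρ (T - ρ ^ 2) s θ Z hρ (h.t0.trans_le ht₁) h1 hs (by linarith)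
        hθ0.le hθ1 hZ1 hE1 hG1
      calc ∫⁻ τ in Ioc (T - ρ ^ 2) s, gB (cw u τ) x₀ ρ
          = ENNReal.ofReal ν⁻¹ * (ENNReal.ofReal ν * ∫⁻ τ in Ioc (T - ρ ^ 2) s, gB (cw u τ) x₀ ρ) := by
            rw [← mul_assoc, ← ENNReal.ofReal_mul (by positivity), inv_mul_cancel₀ hν.ne',
              ENNReal.ofReal_one, one_mul]
        _ ≤ ENNReal.ofReal ν⁻¹ * ENNReal.ofReal (C * (1 + ν) * √θ * Z * ρ) := mul_le_mul_right h2 _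
        _ = ENNReal.ofReal (κ * (1 + 2 * κ + (1 / 2) ^ k * Y) * ρ) := by
            rw [← ENNReal.ofReal_mul (by positivity)]
            congr 1
            have e1 : ν⁻¹ * (C * (1 + ν) * √θ * Z * ρ) = (9 * C * (1 + ν) * √θ / ν)
                * (1 + 2 * κ + (1 / 2) ^ k * Y) * ρ := by
              rw [hZ]
              ring
            rw [e1, ← hκe]
        _ ≤ _ := by
            apply ENNReal.ofReal_le_ofReal
            refine mul_le_mul_of_nonneg_right ?_ hρ.le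
            rw [pow_succ]
            have h3 : κ * (2 * κ) ≤ 1 / 2 * (2 * κ) := mul_le_mul_of_nonneg_right hκ1 (by positivity)
            have h4 : κ * ((1 / 2) ^ k * Y) ≤ 1 / 2 * ((1 / 2) ^ k * Y) :=
              mul_le_mul_of_nonneg_right hκ1 hq
            linarith

/-- Small energy in a range of scales implies regularity. -/
theorem bNq {ν : ℝ} (hν : 0 < ν) : ∃ θ : ℝ, 0 < θ ∧ ∀ T t₀ E : ℝ, t₀ < T → 0 ≤ E →
    ∃ c₃ : ℝ, 0 < c₃ ∧ ∀ (u : ℝ → V → V) (p : ℝ → V → ℝ), ST ν T u p t₀ E →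
    ∀ (P : Set V) (r₁ r' : ℝ), 0 < r₁ → r₁ ≤ 1 → r' ≤ c₃ * r₁ ^ 10 →
    (∀ x₁ ∈ P, ∀ R : ℝ, 0 < R → r' ≤ R → R ≤ r₁ → ∀ s ∈ Ico (T - R ^ 2) T, t₀ ≤ s →
      eB (cw u s) x₁ R ≤ ENNReal.ofReal (θ * R)) →
    ∃ δ Q : ℝ, 0 < δ ∧ ∀ t ∈ Ioo (T - δ) T, ∀ x₁ ∈ P, ∀ x ∈ ball x₁ δ, ‖u t x‖ ≤ Q := by
  obtain ⟨C, hC, hR⟩ := bRq
  obtain ⟨L, c, hL1, hc, hN⟩ := near_at hν
  have hL0 : 0 < L := by linarith
  -- the choice of the threshold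
  obtain ⟨κ₀, hκ₀⟩ : ∃ κ₀ : ℝ, κ₀ = min (min 1 (ν / 2)) (c * ν / (4 * L)) / (C * (1 + ν) + 1) := ⟨_, rfl⟩
  have hden : 0 < C * (1 + ν) + 1 := by positivity
  have hκ₀0 : 0 < κ₀ := by rw [hκ₀]; positivity
  have hκ1 : κ₀ * (C * (1 + ν) + 1) ≤ 1 := by
    rw [hκ₀, div_mul_cancel₀ _ hden.ne']
    exact (min_le_left _ _).trans (min_le_left _ _)
  have hκ2 : κ₀ * (C * (1 + ν) + 1) ≤ ν / 2 := by
    rw [hκ₀, div_mul_cancel₀ _ hden.ne']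
    exact (min_le_left _ _).trans (min_le_right _ _)
  have hκ3 : κ₀ * (C * (1 + ν) + 1) ≤ c * ν / (4 * L) := by
    rw [hκ₀, div_mul_cancel₀ _ hden.ne']
    exact min_le_right _ _
  have hCν : 0 ≤ C * (1 + ν) := by positivity
  have hle1 : κ₀ ≤ 1 := by nlinarith
  have hmul : C * (1 + ν) * κ₀ ≤ κ₀ * (C * (1 + ν) + 1) := by nlinarith
  have hsq : √(κ₀ ^ 2) = κ₀ := Real.sqrt_sq hκ₀0.le
  refine ⟨κ₀ ^ 2, by positivity, ?_⟩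
  intro T t₀ E htT hE
  have hTt : 0 < T - t₀ := by linarith
  -- the constants
  obtain ⟨c₂, hc₂⟩ : ∃ c₂ : ℝ, c₂ = min (min (√(T - t₀)) (1 / 3)) (κ₀ ^ 2 / (3 * (E + 1))) := ⟨_, rfl⟩
  have hc₂0 : 0 < c₂ := by rw [hc₂]; positivity
  have hc₂1 : c₂ ≤ √(T - t₀) := by rw [hc₂]; exact (min_le_left _ _).trans (min_le_left _ _)
  have hc₂2 : c₂ ≤ 1 / 3 := by rw [hc₂]; exact (min_le_left _ _).trans (min_le_right _ _)
  have hc₂3 : c₂ ≤ κ₀ ^ 2 / (3 * (E + 1)) := by rw [hc₂]; exact min_le_right _ _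
  obtain ⟨B, hB⟩ : ∃ B : ℝ, B = 4 * L * (E + 1) / c + 2 := ⟨_, rfl⟩
  have hB0 : 0 < B := by rw [hB]; positivity
  refine ⟨3 * c₂ ^ 5 / B ^ 4, by positivity, ?_⟩
  intro u p h P r₁ r' hr₁ hr₁1 hr' hH
  have hθ1 : κ₀ ^ 2 ≤ 1 := pow_le_one₀ hκ₀0.le hle1
  -- the choice of the scales
  obtain ⟨ρ₀, hρ₀e⟩ : ∃ ρ₀ : ℝ, ρ₀ = c₂ * r₁ ^ 2 := ⟨_, rfl⟩
  have hρ₀ : 0 < ρ₀ := by rw [hρ₀e]; positivity
  have hr2 : r₁ ^ 2 ≤ 1 := pow_le_one₀ hr₁.le hr₁1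
  have hr3 : r₁ ^ 2 ≤ r₁ := by nlinarith
  have hρ1 : ρ₀ ^ 2 ≤ T - t₀ := by
    have : ρ₀ ≤ √(T - t₀) := by
      rw [hρ₀e]
      exact (mul_le_of_le_one_right hc₂0.le hr2).trans hc₂1
    calc ρ₀ ^ 2 ≤ √(T - t₀) ^ 2 := pow_le_pow_left₀ hρ₀.le this 2
      _ = _ := Real.sq_sqrt hTt.le
  have hρ2 : ρ₀ ≤ r₁ / 3 := by
    rw [hρ₀e]
    nlinarith
  have hρ21 : ρ₀ ≤ 1 := by linarith
  have hρ3 : 3 * ρ₀ * E ≤ κ₀ ^ 2 * r₁ ^ 2 := by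
    have h1 : c₂ * (3 * (E + 1)) ≤ κ₀ ^ 2 := by
      rw [le_div_iff₀ (by positivity)] at hc₂3
      exact hc₂3
    have h2 : 3 * c₂ * E ≤ κ₀ ^ 2 := by nlinarith
    have h3 := mul_le_mul_of_nonneg_right h2 (by positivity : 0 ≤ r₁ ^ 2)
    rw [hρ₀e]
    linarith
  obtain ⟨X, hX⟩ : ∃ X : ℝ, X = 2 * L * (E / ρ₀ + 1) / c := ⟨_, rfl⟩
  have hX0 : 0 < X := by rw [hX]; positivity
  obtain ⟨n, hn1, hn2⟩ := exists_nat_pow_near (x := X + 1) (y := (2 : ℝ)) (by linarith) one_lt_two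
  obtain ⟨k, hke⟩ : ∃ k : ℕ, k = n + 1 := ⟨_, rfl⟩
  rw [← hke] at hn2
  have hk : (1 / 2 : ℝ) ^ k < c / (2 * L * (E / ρ₀ + 1)) := by
    have e1 : c / (2 * L * (E / ρ₀ + 1)) = 1 / X := by
      rw [hX]
      field_simp
    rw [e1, one_div_pow]
    exact one_div_lt_one_div_of_lt hX0 (by linarith)
  have hk9 : (9 : ℝ) ^ k ≤ (B / ρ₀) ^ 4 := by
    have h1 : (2 : ℝ) ^ k ≤ B / ρ₀ := by
      have h2 : (2 : ℝ) ^ k ≤ 2 * (X + 1) := by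
        rw [hke, pow_succ]
        linarith
      refine h2.trans ?_
      rw [le_div_iff₀ hρ₀, hX, hB]
      have e1 : 2 * (2 * L * (E / ρ₀ + 1) / c + 1) * ρ₀ = 4 * L * (E + ρ₀) / c + 2 * ρ₀ := by
        field_simp
        ring
      rw [e1]
      have h3 : 4 * L * (E + ρ₀) / c ≤ 4 * L * (E + 1) / c := by gcongr
      linarith
    calc (9 : ℝ) ^ k ≤ 16 ^ k := pow_le_pow_left₀ (by norm_num) (by norm_num) k
      _ = (2 ^ k) ^ 4 := by rw [← pow_mul, mul_comm, pow_mul]; norm_num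
      _ ≤ _ := pow_le_pow_left₀ (by positivity) h1 4
  obtain ⟨ρ, hρe⟩ : ∃ ρ : ℝ, ρ = ρ₀ * (1 / 9) ^ k := ⟨_, rfl⟩
  have hρ : 0 < ρ := by rw [hρe]; positivity
  have hr'ρ : r' ≤ 3 * ρ := by
    refine hr'.trans ?_
    rw [hρe, one_div_pow]
    have h1 : 1 / (B / ρ₀) ^ 4 ≤ 1 / 9 ^ k := one_div_le_one_div_of_le (by positivity) hk9
    calc 3 * c₂ ^ 5 / B ^ 4 * r₁ ^ 10 = 3 * (ρ₀ * (1 / (B / ρ₀) ^ 4)) := by
          rw [hρ₀e]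
          field_simp
      _ ≤ 3 * (ρ₀ * (1 / 9 ^ k)) := by gcongr
  have hρl : ρ ≤ ρ₀ := by
    rw [hρe]
    exact mul_le_of_le_one_right hρ₀.le (pow_le_one₀ (by norm_num) (by norm_num))
  have hρρ : ρ ^ 2 ≤ ρ₀ ^ 2 := pow_le_pow_left₀ hρ.le hρl 2
  obtain ⟨z, hz⟩ : ∃ z : ℝ, z = ρ / L := ⟨_, rfl⟩
  have hz0 : 0 < z := by rw [hz]; positivity
  have hLz : L * z = ρ := by rw [hz]; field_simp
  have hzρ : z ≤ ρ := by rw [← hLz]; nlinarith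
  have hzz : z ^ 2 ≤ ρ ^ 2 := pow_le_pow_left₀ hz0.le hzρ 2
  have hzp : 0 < z ^ 2 := by positivity
  have ht₀z : t₀ ≤ T - z ^ 2 / 4 := by linarith
  refine hN T u p h.toHS z hz0 (h.t0.trans_le ht₀z) P ?_ ?_
  · intro x₁ hx₁ s hs
    rw [hLz]
    refine (hH x₁ hx₁ (3 * ρ) (by positivity) hr'ρ (by linarith) s ⟨?_, hs.2⟩
      (ht₀z.trans hs.1)).trans (ENNReal.ofReal_le_ofReal ?_)
    · nlinarith [hs.1]
    · exact mul_le_of_le_one_left (by positivity) hθ1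
  · intro x₁ hx₁ s hs
    have h1 := hR ν T u p t₀ E h x₁ (κ₀ ^ 2) r₁ r' ρ₀ (by positivity) hθ1 (by rw [hsq]; linarith)
      hr₁ hρ₀ (by linarith) hρ3 (hH x₁ hx₁) k (by rw [← hρe]; exact hr'ρ) s hs.2
    rw [← hρe, hsq] at h1
    rw [hLz]
    refine (lintegral_mono_set (Ioc_subset_Ioc_left (by linarith))).trans (h1.trans
      (ENNReal.ofReal_le_ofReal ?_))
    have h2 : C * (1 + ν) * κ₀ / ν ≤ c / (4 * L) := by
      rw [div_le_iff₀ hν]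
      calc C * (1 + ν) * κ₀ ≤ c * ν / (4 * L) := hmul.trans hκ3
        _ = _ := by ring
    have h3 : (1 / 2 : ℝ) ^ k * (E / ρ₀) ≤ c / (2 * L) := by
      have h4 : 0 < E / ρ₀ + 1 := by positivity
      rw [lt_div_iff₀ (by positivity)] at hk
      rw [le_div_iff₀ (by positivity)]
      have h5 : (0 : ℝ) < (1 / 2) ^ k := by positivity
      have h6 : (1 / 2 : ℝ) ^ k * (E / ρ₀) * (2 * L) ≤ (1 / 2) ^ k * (2 * L * (E / ρ₀ + 1)) := by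
        have : 0 ≤ (1 / 2 : ℝ) ^ k * (2 * L) := by positivity
        nlinarith
      linarith
    calc (2 * (C * (1 + ν) * κ₀ / ν) + (1 / 2) ^ k * (E / ρ₀)) * ρ
        ≤ (2 * (c / (4 * L)) + c / (2 * L)) * ρ := by gcongr
      _ = c * z := by
          rw [← hLz]
          field_simp
          ring

end Pool.Agent.H305.EG
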