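import Pool.Agent.H305.EG.Pg
import Pool.Agent.H305.EG.Qa

/-!
The criterion in a range of scales.
-/

set_option autoImplicit false

open MeasureTheory Set Metric Filter Topology
open scoped ContDiff ENNReal

namespace Pool.Agent.H305.EG

open H459R3.NS W221.NS Pool.Agent.V1183.PM Pool.Agent.H305.OS Pool.Agent.H305.SL Pool.Agent.H305.PL
  Pool.Agent.H305.EF

section
variable {ν T t₀ t₁ s T' R r r' ρ z d τ E ε : ℝ} {u : ℝ → V → V} {p : ℝ → V → ℝ}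
  {I : Finset (Fin 3)} {x₀ : V} {n k : ℕ} {F : ℝ → ℝ}

lemma mD_F' (hts : t₁ ≤ s) (hr : 0 < r) (hrs : r ^ 2 = T' - s) (hT : T ≤ T') (hε : 0 ≤ ε)
    (hρ : 0 < ρ) (hF : IntegrableOn F (Ioc t₁ s))
    (hB : r < ρ → ∀ t t', t₁ ≤ t → t ≤ t' → t' ≤ s → T - t ≤ ρ ^ 2 → ∫ τ in Ioc t t', F τ ≤ ε * ρ) :
    ∫ τ in Ioc t₁ s, mD Dz ρ (T' - τ) * F τ ≤ ε * (1536 * ((√(r + ρ))⁻¹) ^ 3) := by
  rcases lt_or_ge r ρ with h | h
  · exact mD_F hts hr hrs hT hε hρ hF (hB h)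
  · have hs : s < T' := by nlinarith [pow_pos hr 2]
    have h1 : ρ ^ 2 ≤ r ^ 2 := pow_le_pow_left₀ hρ.le h 2
    have e : ∫ τ in Ioc t₁ s, mD Dz ρ (T' - τ) * F τ = 0 := by
      refine setIntegral_eq_zero_of_forall_eq_zero fun τ hτ => ?_
      rw [mD_zero (by linarith [hτ.2]) (by linarith [hτ.2]), zero_mul]
    rw [e]
    positivity

/-- The energy inequality. -/
lemma en_Q (h : ST 1 T u p t₀ E) (hI : I.card = n + 1) (hn : 1 ≤ n) (hr' : 0 ≤ r') (hR : 0 < R)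
    (x₀ : V) (hε : 0 ≤ ε) (hyp : ∀ ρ ∈ Ioo r' R, ∀ t t', t₀ ≤ t → t ≤ t' → t' < T →
      T - t ≤ ρ ^ 2 → ∫ τ in Ioc t t', Ah I x₀ 1 ρ (cw u τ) (p τ) ≤ ε * ρ)
    (hts : t₀ ≤ s) (hs : s < T) (hT1 : T ≤ T') (hT2 : T' ≤ T + 1) (hrT : r' ^ 2 ≤ T' - s) :
    enW (cw u s) (Ps I x₀ T' s) ≤ enW (cw u t₀) (Ps I x₀ T' t₀)
        + (6144 * ε * (√(√(T' - s)))⁻¹
          + 16 * √(√(T + 1)) * (R⁻¹) ^ 3 * ∫ τ in Ioc t₀ s, (Fx u p τ).toReal) := by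
  obtain ⟨K₃, hK₃e⟩ : ∃ K : ℝ, K = 16 * √(√(T + 1)) * (R⁻¹) ^ 3 := ⟨_, rfl⟩
  rw [← hK₃e]
  have hK₃ : 0 ≤ K₃ := by rw [hK₃e]; positivity
  have ht₁0 : 0 < t₀ := h.t0
  have hsT' : s < T' := hs.trans_le hT1
  have hK := wid h.toHS ht₁0 hts hs (Ps_J hT1 I x₀) (Ps_ub hI ht₁0 hts hsT' x₀)
    (Ps_ubt hI ht₁0 hts hsT' x₀)
  have hsz : 0 < T' - s := by linarith
  obtain ⟨w1, w2, w3, w4⟩ := swapG (T' := T') (C₀ := (1 + (T' - s)) * ((T' - s) ^ 3)⁻¹) Dz_meas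
    (fun ρ _ z hz _ => Dz_bd hsz hz) (by positivity) h.toHS ht₁0 hs hR I x₀
  have hsub : Ioc t₀ s ⊆ Ioo t₀ T := fun τ hτ => ⟨hτ.1, hτ.2.trans_lt hs⟩
  have hF' : IntegrableOn (fun τ => (Fx u p τ).toReal) (Ioc t₀ s) := h.Fx_int.mono_set hsub
  obtain ⟨r, hr, hr2⟩ : ∃ r : ℝ, 0 < r ∧ r = √(T' - s) :=
    ⟨√(T' - s), Real.sqrt_pos.2 (by linarith), rfl⟩
  have hrs : r ^ 2 = T' - s := by rw [hr2, Real.sq_sqrt (by linarith)]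
  have hr'r : r' ≤ r := by
    rw [hr2]
    exact Real.le_sqrt_of_sq_le hrT
  have j12 : IntegrableOn (fun τ => 2 * (∫ x, GD Dz I x₀ 1 R T' u p τ x)
      + K₃ * (Fx u p τ).toReal) (Ioc t₀ s) := (w3.const_mul 2).add (hF'.const_mul K₃)
  have hmono := setIntegral_mono_on hK.1 j12 measurableSet_Ioc fun τ hτ => by
    have hτ0 : τ ∈ Ioo 0 T := ⟨ht₁0.trans hτ.1, hτ.2.trans_lt hs⟩
    have hw : ∀ i, HF (cw u τ i) := fun i => h.toHS.cw_HF hτ0 i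
    have a1 := flP (I := I) (x₀ := x₀) (n := n) (Z := T + 1) hR hτ0.1 (hτ.2.trans_lt hsT') hI
      (by linarith [hτ0.1]) hw (h.toHS.p_HF hτ0) (h.Fx_fin ⟨hτ.1.le, hτ.2.trans_lt hs⟩)
    have a2 := sbP (x₀ := x₀) hI hn hτ0.1 (hτ.2.trans_lt hsT') hw
    rw [← hK₃e] at a1
    show - (2 * 1 * dsW (cw u τ) (Ps I x₀ T' τ)) + 1 * enW (cw u τ) (lp (Ps I x₀ T' τ))
      + flW (cw u τ) (p τ) (Ps I x₀ T' τ) + enW (cw u τ) (fun x => deriv (fun r => Ps I x₀ T' r x) τ)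
      ≤ 2 * (∫ x, GD Dz I x₀ 1 R T' u p τ x) + K₃ * (Fx u p τ).toReal
    linarith
  rw [integral_add (w3.const_mul 2) (hF'.const_mul K₃), integral_const_mul, integral_const_mul, w4]
    at hmono
  obtain ⟨r1, r2⟩ := rad_intP hr hR
  have hρ : ∫ ρ in Ioo 0 R, ∫ τ in Ioc t₀ s, mD Dz ρ (T' - τ) * Ah I x₀ 1 ρ (cw u τ) (p τ)
      ≤ ε * (1536 * (2 * (√r)⁻¹)) := by
    calc _ ≤ ∫ ρ in Ioo 0 R, ε * (1536 * ((√(r + ρ))⁻¹) ^ 3) := by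
          refine setIntegral_mono_on w2 ((r1.const_mul 1536).const_mul ε) measurableSet_Ioo
            fun ρ hρ => ?_
          exact mD_F' hts hr hrs hT1 hε hρ.1 (w1 ρ hρ)
            (fun h0 t t' h1 h2 h3 h4 => hyp ρ ⟨hr'r.trans_lt h0, hρ.2⟩ t t' h1 h2
              (h3.trans_lt hs) h4)
      _ = ε * (1536 * (∫ ρ in Ioo 0 R, ((√(r + ρ))⁻¹) ^ 3)) := by
          rw [integral_const_mul, integral_const_mul]
      _ ≤ _ := mul_le_mul_of_nonneg_left (mul_le_mul_of_nonneg_left r2 (by norm_num)) hε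
  rw [hK.2, ← hr2]
  have h12 : 2 * (ε * (1536 * (2 * (√r)⁻¹))) = 6144 * ε * (√r)⁻¹ := by ring
  refine add_le_add le_rfl (hmono.trans ?_)
  rw [← h12]
  linarith

end

/-- The bound for the flux. -/
lemma Fx_bd : ∃ K : ℝ, 0 ≤ K ∧ ∀ (ν T : ℝ) (u : ℝ → V → V) (p : ℝ → V → ℝ) (t₀ E : ℝ),
    ST ν T u p t₀ E → ∫ τ in Ioo t₀ T, (Fx u p τ).toReal ≤ K * ((E + 1) ^ 2 * (T - t₀ + E)) := by
  obtain ⟨K, hK, hF⟩ := Fx_le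
  refine ⟨K.toReal, ENNReal.toReal_nonneg, ?_⟩
  intro ν T u p t₀ E h
  have hE := h.E0
  have htT : 0 < T - t₀ := by linarith [h.tT]
  have hsub : Ioo t₀ T ⊆ Ioo 0 T := Ioo_subset_Ioo_left h.t0.le
  have hc : (ENNReal.ofReal E + 1) ^ 2 ≠ ⊤ :=
    ENNReal.pow_ne_top (ENNReal.add_ne_top.2 ⟨ENNReal.ofReal_ne_top, ENNReal.one_ne_top⟩)
  have h1 : ∫⁻ τ in Ioo t₀ T, Fx u p τ
      ≤ ENNReal.ofReal (K.toReal * ((E + 1) ^ 2 * (T - t₀ + E))) := by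
    calc ∫⁻ τ in Ioo t₀ T, Fx u p τ
        ≤ ∫⁻ τ in Ioo t₀ T, K * ((ENNReal.ofReal E + 1) ^ 2
          * (1 + ∫⁻ x, ENNReal.ofReal (gw (cw u τ) x))) :=
          setLIntegral_mono' measurableSet_Ioo fun τ hτ => hF ν T u p t₀ E h τ ⟨hτ.1.le, hτ.2⟩
      _ = K * ((ENNReal.ofReal E + 1) ^ 2 * (ENNReal.ofReal (T - t₀)
          + ∫⁻ t in Ioo t₀ T, ∫⁻ x, ENNReal.ofReal (gw (cw u t) x))) := by
          rw [lintegral_const_mul' _ _ hK, lintegral_const_mul' _ _ hc,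
            lintegral_add_left (measurable_const : Measurable fun _ : ℝ => (1 : ℝ≥0∞)),
            setLIntegral_one, Real.volume_Ioo]
      _ ≤ K * ((ENNReal.ofReal E + 1) ^ 2 * (ENNReal.ofReal (T - t₀) + ENNReal.ofReal E)) :=
          mul_le_mul_right (mul_le_mul_right (add_le_add le_rfl h.e2) _) _
      _ = _ := by
          rw [ENNReal.ofReal_mul ENNReal.toReal_nonneg, ENNReal.ofReal_toReal hK,
            ENNReal.ofReal_mul (by positivity), ENNReal.ofReal_pow (by positivity),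
            ENNReal.ofReal_add hE zero_le_one, ENNReal.ofReal_one,
            ENNReal.ofReal_add htT.le hE]
  rw [integral_toReal (Fx_aem h.toHS measurableSet_Ioo hsub)
    (ae_restrict_of_forall_mem measurableSet_Ioo fun τ hτ => (h.Fx_fin ⟨hτ.1.le, hτ.2⟩).lt_top)]
  exact ENNReal.toReal_le_of_le_ofReal (by positivity) h1

/-- Smallness. -/
lemma smQ {T t₀ E θ : ℝ} (hT : 0 < T) (ht : t₀ < T) (hE : 0 ≤ E) (hθ : 0 < θ) :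
    ∃ c₁ : ℝ, 0 < c₁ ∧ c₁ ≤ 1 ∧ ∀ (u : ℝ → V → V) (p : ℝ → V → ℝ), ST 1 T u p t₀ E →
    ∀ (I : Finset (Fin 3)) (n : ℕ) (x₀ : V) (R r' ε : ℝ), I.card = n + 1 → 1 ≤ n → 0 < R → R ≤ 1 →
    0 ≤ r' → 0 ≤ ε → (∀ ρ ∈ Ioo r' R, ∀ t t', t₀ ≤ t → t ≤ t' → t' < T →
      T - t ≤ ρ ^ 2 → ∫ τ in Ioc t t', Ah I x₀ 1 ρ (cw u τ) (p τ) ≤ ε * ρ) →
    ∀ r : ℝ, 0 < r → r' ≤ r → r ≤ c₁ * R ^ 6 → ∀ s ∈ Ico (T - r ^ 2) T,
      t₀ ≤ s ∧ √r * enW (cw u s) (Ps I x₀ (s + r ^ 2) s) ≤ θ + 6144 * ε := by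
  obtain ⟨K, hK, hF⟩ := Fx_bd
  have hb : 0 < T - t₀ := by linarith
  have hsb : 0 < √(T - t₀) := Real.sqrt_pos.2 hb
  obtain ⟨F₀, hF₀⟩ : ∃ F₀ : ℝ, F₀ = K * ((E + 1) ^ 2 * (T - t₀ + E)) := ⟨_, rfl⟩
  have hF₀0 : 0 ≤ F₀ := by rw [hF₀]; positivity
  obtain ⟨K₄, hK₄⟩ : ∃ K₄ : ℝ, K₄ = (1 + (T - t₀)⁻¹) * E + 16 * √(√(T + 1)) * F₀ + 1 := ⟨_, rfl⟩
  have hK₄0 : 0 < K₄ := by rw [hK₄]; positivity
  refine ⟨min (min 1 (√(T - t₀))) ((θ / K₄) ^ 2), by positivity,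
    (min_le_left _ _).trans (min_le_left _ _), ?_⟩
  intro u p h I n x₀ R r' ε hI hn hR hR1 hr' hε hyp r hr hr'r hr1 s hs
  obtain ⟨c₁, hc₁⟩ : ∃ c₁ : ℝ, c₁ = min (min 1 (√(T - t₀))) ((θ / K₄) ^ 2) := ⟨_, rfl⟩
  rw [← hc₁] at hr1
  have hc0 : 0 < c₁ := by rw [hc₁]; positivity
  have hR6 : R ^ 6 ≤ 1 := pow_le_one₀ hR.le hR1
  have hrc : r ≤ c₁ := hr1.trans (mul_le_of_le_one_right hc0.le hR6)
  have r1 : r ≤ 1 := hrc.trans (by rw [hc₁]; exact (min_le_left _ _).trans (min_le_left _ _))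
  have r2 : r ≤ √(T - t₀) := hrc.trans (by rw [hc₁]; exact (min_le_left _ _).trans (min_le_right _ _))
  have r4 : √r ≤ θ / K₄ * R ^ 3 := by
    rw [Real.sqrt_le_left (by positivity)]
    refine hr1.trans ?_
    have h1 : c₁ ≤ (θ / K₄) ^ 2 := by rw [hc₁]; exact min_le_right _ _
    calc c₁ * R ^ 6 ≤ (θ / K₄) ^ 2 * R ^ 6 := mul_le_mul_of_nonneg_right h1 (by positivity)
      _ = _ := by ring
  have r2' : r ^ 2 ≤ T - t₀ := by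
    calc r ^ 2 ≤ √(T - t₀) ^ 2 := pow_le_pow_left₀ hr.le r2 2
      _ = T - t₀ := Real.sq_sqrt hb.le
  have r5 : r ^ 2 ≤ 1 := pow_le_one₀ hr.le r1
  have hts : t₀ ≤ s := by linarith [hs.1]
  have hsr : 0 < √r := Real.sqrt_pos.2 hr
  refine ⟨hts, ?_⟩
  have hrr : r' ^ 2 ≤ s + r ^ 2 - s := by
    have := pow_le_pow_left₀ hr' hr'r 2
    linarith
  have h1 := en_Q (T' := s + r ^ 2) h hI hn hr' hR x₀ hε hyp hts hs.2 (by linarith [hs.1])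
    (by linarith [hs.2]) hrr
  have hr5 : √(s + r ^ 2 - s) = r := by rw [add_sub_cancel_left, Real.sqrt_sq hr.le]
  rw [hr5] at h1
  have h2 := enP_up (x₀ := x₀) (T' := s + r ^ 2) h hI (by linarith [hs.1])
  have h5 : ∫ τ in Ioc t₀ s, (Fx u p τ).toReal ≤ ∫ τ in Ioo t₀ T, (Fx u p τ).toReal :=
    setIntegral_mono_set h.Fx_int (Eventually.of_forall fun _ => ENNReal.toReal_nonneg)
      (show Ioc t₀ s ⊆ Ioo t₀ T from fun τ hτ => ⟨hτ.1, hτ.2.trans_lt hs.2⟩).eventuallyLE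
  have h5' := h5.trans (hF 1 T u p t₀ E h)
  rw [← hF₀] at h5'
  have h6' := mul_le_mul_of_nonneg_left h5' (by positivity : 0 ≤ 16 * √(√(T + 1)) * (R⁻¹) ^ 3)
  have hRi : 1 ≤ (R⁻¹) ^ 3 := one_le_pow₀ (one_le_inv_iff₀.2 ⟨hR, hR1⟩)
  have h6 : enW (cw u s) (Ps I x₀ (s + r ^ 2) s) ≤ K₄ * (R⁻¹) ^ 3 + 6144 * ε * (√r)⁻¹ := by
    have h7 : (1 + (T - t₀)⁻¹) * E * 1 ≤ (1 + (T - t₀)⁻¹) * E * (R⁻¹) ^ 3 :=
      mul_le_mul_of_nonneg_left hRi (by positivity)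
    rw [hK₄]
    linarith
  have h7 := mul_le_mul_of_nonneg_left h6 hsr.le
  have h8 : √r * (K₄ * (R⁻¹) ^ 3 + 6144 * ε * (√r)⁻¹) = √r * (K₄ * (R⁻¹) ^ 3) + 6144 * ε := by
    field_simp
  have h9 : √r * (K₄ * (R⁻¹) ^ 3) ≤ θ := by
    calc √r * (K₄ * (R⁻¹) ^ 3) ≤ θ / K₄ * R ^ 3 * (K₄ * (R⁻¹) ^ 3) :=
          mul_le_mul_of_nonneg_right r4 (by positivity)
      _ = θ := by field_simp
  linarith

/-- The criterion for the averaged inflow in a range of scales. -/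
theorem critQ : ∃ ε : ℝ, 0 < ε ∧ ∀ T t₀ E : ℝ, 0 < T → t₀ < T → 0 ≤ E → ∃ R₀ : ℝ, 0 < R₀ ∧
    ∀ (u : ℝ → V → V) (p : ℝ → V → ℝ), ST 1 T u p t₀ E → ∀ (I : Finset (Fin 3)) (x₀ : V) (R : ℝ),
    2 ≤ I.card → 0 < R → R < R₀ → (∀ ρ ∈ Ioo (R ^ 64) R, ∀ t t', t₀ ≤ t → t ≤ t' → t' < T →
      T - t ≤ ρ ^ 2 → ∫ τ in Ioc t t', Ah I x₀ 1 ρ (cw u τ) (p τ) ≤ ε * ρ) →
    ∃ δ Q : ℝ, 0 < δ ∧ ∀ t ∈ Ioo (T - δ) T, ∀ x₁ ∈ PI' I x₀, ∀ x ∈ ball x₁ δ, ‖u t x‖ ≤ Q := by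
  obtain ⟨θ, hθ, hN⟩ := bNq one_pos
  have hX := Real.exp_pos (5 / 16)
  refine ⟨θ / (4 * 6144 * Real.exp (5 / 16)), by positivity, ?_⟩
  intro T t₀ E hT ht₀ hE
  obtain ⟨c₃, hc₃, hN⟩ := hN T t₀ E ht₀ hE
  obtain ⟨c₁, hc₁, hc₁1, hsm⟩ := smQ hT ht₀ hE (θ := θ / (4 * Real.exp (5 / 16))) (by positivity)
  refine ⟨min 1 (c₃ * (c₁ / 2) ^ 10), by positivity, ?_⟩
  intro u p h I x₀ R hI hR hRR hyp
  obtain ⟨ε, hεe⟩ : ∃ ε : ℝ, ε = θ / (4 * 6144 * Real.exp (5 / 16)) := ⟨_, rfl⟩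
  rw [← hεe] at hyp
  have hε : 0 ≤ ε := by rw [hεe]; positivity
  have hcard : I.card ≤ 3 := by
    have h1 := Finset.card_le_univ I
    rwa [Fintype.card_fin] at h1
  obtain ⟨n, hn⟩ : ∃ n, I.card = n + 1 := ⟨I.card - 1, by omega⟩
  have hn1 : 1 ≤ n := by omega
  have hR1 : R ≤ 1 := hRR.le.trans (min_le_left _ _)
  have hR2 : R ≤ c₃ * (c₁ / 2) ^ 10 := hRR.le.trans (min_le_right _ _)
  have hR6 : R ^ 6 ≤ 1 := pow_le_one₀ hR.le hR1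
  have hR4 : R ^ 4 ≤ R := by
    calc R ^ 4 ≤ R ^ 1 := pow_le_pow_of_le_one hR.le hR1 (by norm_num)
      _ = R := pow_one R
  have hsm1 := hsm u p h I n x₀ R (R ^ 64) ε hn hn1 hR hR1 (by positivity) hε hyp
  refine hN u p h (PI' I x₀) (c₁ * R ^ 6 / 2) (R ^ 64) (by positivity) ?_ ?_ ?_
  · have := mul_le_mul hc₁1 hR6 (by positivity) zero_le_one
    linarith
  · calc R ^ 64 = R ^ 4 * R ^ 60 := by ring
      _ ≤ c₃ * (c₁ / 2) ^ 10 * R ^ 60 :=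
          mul_le_mul_of_nonneg_right (hR4.trans hR2) (by positivity)
      _ = _ := by ring
  · intro x₁ hx₁ R₂ hR₂ hR3 hR5 s hs hts
    obtain ⟨-, h2⟩ := hsm1 (2 * R₂) (by positivity) (by linarith) (by linarith) s
      ⟨by nlinarith [hs.1], hs.2⟩
    have h3 := nw_lowP (x₀ := x₀) h hn ⟨hts, hs.2⟩ (r := 2 * R₂) (by positivity) h2
    refine (lintegral_mono_set (ball_nb hx₁ hR₂)).trans (h3.trans (ENNReal.ofReal_le_ofReal ?_))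
    have h5 : Real.exp (5 / 16) * (θ / (4 * Real.exp (5 / 16)) + 6144 * ε) = θ / 2 := by
      rw [hεe]
      field_simp
      ring
    rw [h5]
    linarith

end Pool.Agent.H305.EG
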