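import Pool.Agent.H305.EG.Bf4

/-!
Local regularity at one scale for bounded scaled energy, and the dissipation near a singular point.
-/

set_option autoImplicit false

open MeasureTheory Set Metric Filter Topology
open scoped ContDiff ENNReal

namespace Pool.Agent.H305.EG

open H459R3.NS W221.NS Pool.Agent.V1183.PM Pool.Agent.H305.OS Pool.Agent.H305.SL Pool.Agent.H305.PL
  Pool.Agent.H305.EF

/-- Local regularity at one scale. -/
theorem near_atK {ν : ℝ} (hν : 0 < ν) : ∃ c : ℝ, 0 < c ∧ ∀ K : ℝ, 0 ≤ K → ∃ L : ℝ, 1 ≤ L ∧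
    ∀ (T : ℝ) (u : ℝ → V → V) (p : ℝ → V → ℝ), HS ν T u p → ∀ z : ℝ, 0 < z → 0 < T - z ^ 2 / 4 →
    ∀ x₁ : V, (∀ s ∈ Ico (T - z ^ 2 / 4) T,
      eB (cw u s) x₁ (6 * (L * z)) ≤ ENNReal.ofReal (K * (6 * (L * z)))) →
    (∀ s ∈ Ico (T - z ^ 2 / 4) T, ∫⁻ τ in Ioc (T - z ^ 2 / 4) s,
      gB (cw u τ) x₁ (L * z) ≤ ENNReal.ofReal (c * z)) → ∃ δ Q : ℝ, 0 < δ ∧
    ∀ t ∈ Ioo (T - δ) T, ∀ x ∈ ball x₁ δ, ‖u t x‖ ≤ Q := by
  obtain ⟨C, ε₀, hC, hε₀, hreg⟩ := reg'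
  obtain ⟨b, hb, hb2⟩ : ∃ b : ℝ, 0 < b ∧ b ^ 2 = ν / 16 := by
    refine ⟨√(ν / 16), Real.sqrt_pos.2 (by positivity), Real.sq_sqrt (by positivity)⟩
  refine ⟨ε₀ * ν * b, by positivity, ?_⟩
  intro K hK
  obtain ⟨q, hq⟩ : ∃ q : ℝ, q = 1 + C * b + C * (ν⁻¹ * √(6 * K * b)) := ⟨_, rfl⟩
  have hq1 : 1 ≤ q := by
    have h1 : 0 ≤ C * b := by positivity
    have h2 : 0 ≤ C * (ν⁻¹ * √(6 * K * b)) := by positivity
    linarith
  obtain ⟨L, hL⟩ : ∃ L : ℝ, L = q ^ 2 := ⟨_, rfl⟩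
  have hL1 : 1 ≤ L := by rw [hL]; exact one_le_pow₀ hq1
  have hL0 : 0 < L := by linarith
  refine ⟨L, hL1, ?_⟩
  intro T u p h z hh hz2 x₁ h1 hk
  obtain ⟨m, hm⟩ : ∃ m : ℝ, m = K * (6 * (L * z)) := ⟨_, rfl⟩
  have hm0 : 0 ≤ m := by rw [hm]; positivity
  have hr : 0 < b * z := by positivity
  obtain ⟨δ, Q, hδ, hQ⟩ := hreg ν m (b * z) hν hm0 hr
  have hrν : (b * z) ^ 2 / ν = z ^ 2 / 16 := by
    rw [mul_pow, hb2]
    field_simp
  have hCρ : C * (b * z + ν⁻¹ * √m * √(b * z)) ≤ L * z := by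
    have e1 : √m * √(b * z) = √(6 * K * b) * q * z := by
      rw [← Real.sqrt_mul hm0, hm, hL]
      have e2 : K * (6 * (q ^ 2 * z)) * (b * z) = 6 * K * b * (q * z) ^ 2 := by ring
      rw [e2, Real.sqrt_mul (by positivity), Real.sqrt_sq (by positivity)]
      ring
    calc C * (b * z + ν⁻¹ * √m * √(b * z))
        = (C * b + C * (ν⁻¹ * √(6 * K * b)) * q) * z := by
          rw [mul_assoc ν⁻¹, e1]; ring
      _ ≤ L * z := by
          refine mul_le_mul_of_nonneg_right ?_ hh.le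
          have h1 : 0 ≤ C * b := by positivity
          have h2 : 0 ≤ C * (ν⁻¹ * √(6 * K * b)) := by positivity
          rw [hL, pow_two]
          calc C * b + C * (ν⁻¹ * √(6 * K * b)) * q
              ≤ (1 + C * b) * q + C * (ν⁻¹ * √(6 * K * b)) * q := by
                have : C * b ≤ (1 + C * b) * q := by nlinarith
                linarith
            _ = q * q := by rw [hq]; ring
  have hzz : 0 < z ^ 2 := by positivity
  refine ⟨min δ (z ^ 2 / 8), Q, by positivity, ?_⟩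
  intro t ht x hx
  have hδ1 : min δ (z ^ 2 / 8) ≤ δ := min_le_left _ _
  have hδ2 : min δ (z ^ 2 / 8) ≤ z ^ 2 / 8 := min_le_right _ _
  have hxb : x ∈ ball x₁ δ := ball_subset_ball hδ1 hx
  refine hQ T u p h (T - z ^ 2 / 4) hz2 x₁ (L * z) hCρ ?_
    ((t + T) / 2) ?_ ?_ ?_ t ?_ x hxb
  · intro τ hτ
    have h5 := h1 τ ⟨hτ.1.le, hτ.2⟩
    rw [← hm] at h5
    refine le_trans (lintegral_mono_set (ball_subset_ball ?_)) h5
    nlinarith [mul_pos hL0 hh]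
  · rw [hrν]
    linarith [ht.1]
  · linarith [ht.2]
  · refine le_trans (lintegral_mono_set Ioo_subset_Ioc_self) ?_
    refine (hk ((t + T) / 2) ⟨by linarith [ht.1], by linarith [ht.2]⟩).trans (le_of_eq ?_)
    congr 1
    ring
  · constructor
    · linarith [ht.1]
    · linarith [ht.2]

/-- Regular points at the time `T`. -/
def Rg (T : ℝ) (u : ℝ → V → V) (x₁ : V) : Prop :=
  ∃ δ Q : ℝ, 0 < δ ∧ ∀ t ∈ Ioo (T - δ) T, ∀ x ∈ ball x₁ δ, ‖u t x‖ ≤ Q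

/-- The points with bounded scaled energy along a sequence of scales. -/
def Gp (T : ℝ) (u : ℝ → V → V) (b : V) : Prop :=
  ∃ K : ℝ, ∀ r₀ : ℝ, 0 < r₀ → ∃ r ∈ Ioo 0 r₀, ∀ s ∈ Ico (T - r ^ 2) T, 0 < s →
    eB (cw u s) b r ≤ ENNReal.ofReal (K * r)

lemma Rg_open (T : ℝ) (u : ℝ → V → V) : IsOpen {x | Rg T u x} := by
  rw [Metric.isOpen_iff]
  rintro x ⟨δ, Q, hδ, h⟩
  refine ⟨δ / 2, by positivity, fun y hy => ⟨δ / 2, Q, by positivity, fun t ht z hz => ?_⟩⟩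
  refine h t ⟨by linarith [ht.1], ht.2⟩ z ?_
  rw [mem_ball] at hz hy ⊢
  have := dist_triangle z y x
  linarith

/-- The dissipation near a singular point with bounded scaled energy. -/
theorem diss_low {ν : ℝ} (hν : 0 < ν) : ∃ c : ℝ, 0 < c ∧ ∀ K : ℝ, 0 ≤ K → ∃ L : ℝ, 1 ≤ L ∧
    ∀ (T : ℝ) (u : ℝ → V → V) (p : ℝ → V → ℝ), HS ν T u p → ∀ r : ℝ, 0 < r → 0 < T - r ^ 2 →
    ∀ x₁ : V, ¬ Rg T u x₁ → (∀ s ∈ Ico (T - r ^ 2) T, eB (cw u s) x₁ r ≤ ENNReal.ofReal (K * r)) →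
    ENNReal.ofReal (c * (r / L)) ≤ ∫⁻ τ in Ioo (T - r ^ 2) T, gB (cw u τ) x₁ (r / 6) := by
  obtain ⟨c, hc, hN⟩ := near_atK hν
  refine ⟨c / 6, by positivity, ?_⟩
  intro K hK
  obtain ⟨L, hL1, hN⟩ := hN K hK
  have hL0 : 0 < L := by linarith
  refine ⟨L, hL1, ?_⟩
  intro T u p h r hr hT x₁ hx₁ hE
  by_contra hcon
  rw [not_le] at hcon
  apply hx₁
  obtain ⟨z, hz⟩ : ∃ z : ℝ, z = r / (6 * L) := ⟨_, rfl⟩
  have hz0 : 0 < z := by rw [hz]; positivity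
  have h6 : 6 * (L * z) = r := by rw [hz]; field_simp
  have h6' : L * z = r / 6 := by linarith
  have hzr : z ≤ r := by nlinarith
  have hz2 : z ^ 2 ≤ r ^ 2 := pow_le_pow_left₀ hz0.le hzr 2
  have hzp : 0 < z ^ 2 := by positivity
  refine hN T u p h z hz0 (by linarith) x₁ ?_ ?_
  · intro s hs
    rw [h6]
    exact hE s ⟨by linarith [hs.1], hs.2⟩
  · intro s hs
    rw [h6']
    have e : c / 6 * (r / L) = c * z := by rw [hz]; ring
    rw [e] at hcon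
    refine le_trans (lintegral_mono_set ?_) hcon.le
    intro τ hτ
    exact ⟨by linarith [hτ.1], hτ.2.trans_lt hs.2⟩

end Pool.Agent.H305.EG
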