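import Pool.Agent.H305.EG.Ra

/-!
The energy near the singular points is small if the scaled energy is bounded along a sequence of
scales at each of them.
-/

set_option autoImplicit false

open MeasureTheory Set Metric Filter Topology
open scoped ContDiff ENNReal

namespace Pool.Agent.H305.EG

open H459R3.NS W221.NS Pool.Agent.V1183.PM Pool.Agent.H305.OS Pool.Agent.H305.SL Pool.Agent.H305.PL
  Pool.Agent.H305.EF

lemma sum_half (s : Finset ℕ) : ∑ k ∈ s, (1 / 2 : ℝ) ^ (k + 1) ≤ 1 := by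
  obtain ⟨N, hN⟩ := s.exists_nat_subset_range
  have h1 : ∀ n : ℕ, ∑ k ∈ Finset.range n, (1 / 2 : ℝ) ^ (k + 1) = 1 - (1 / 2) ^ n := by
    intro n
    induction n with
    | zero => simp
    | succ n ih =>
      rw [Finset.sum_range_succ, ih]
      ring
  calc ∑ k ∈ s, (1 / 2 : ℝ) ^ (k + 1) ≤ ∑ k ∈ Finset.range N, (1 / 2 : ℝ) ^ (k + 1) :=
        Finset.sum_le_sum_of_subset_of_nonneg hN fun _ _ _ => by positivity
    _ ≤ 1 := by
        rw [h1]
        have : (0 : ℝ) ≤ (1 / 2) ^ N := by positivity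
        linarith

lemma sum_lint_le {α ι : Type} [MeasurableSpace α] {μ : Measure α} (s : Finset ι) (f : ι → α → ℝ≥0∞) :
    ∑ i ∈ s, ∫⁻ x, f i x ∂μ ≤ ∫⁻ x, ∑ i ∈ s, f i x ∂μ := by
  classical
  induction s using Finset.induction_on with
  | empty => simp
  | insert a s ha ih =>
    rw [Finset.sum_insert ha]
    have e : (fun x => ∑ i ∈ insert a s, f i x) = fun x => f a x + ∑ i ∈ s, f i x := by
      funext x
      rw [Finset.sum_insert ha]
    rw [e]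
    exact (add_le_add le_rfl ih).trans (le_lintegral_add _ _)

lemma lint_bU_le {ι : Type} {μ : Measure V} (s : Finset ι) (B : ι → Set V) (f : V → ℝ≥0∞) :
    ∫⁻ x in ⋃ i ∈ s, B i, f x ∂μ ≤ ∑ i ∈ s, ∫⁻ x in B i, f x ∂μ := by
  classical
  induction s using Finset.induction_on with
  | empty => simp
  | insert a s ha ih =>
    rw [Finset.sum_insert ha, Finset.set_biUnion_insert]
    exact (lintegral_union_le _ _ _).trans (add_le_add le_rfl ih)

section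
variable {ν T t₀ E : ℝ} {u : ℝ → V → V} {p : ℝ → V → ℝ}

/-- The dissipation in short intervals of time. -/
lemma gd_small (h : ST ν T u p t₀ E) {ε : ℝ} (hε : 0 < ε) : ∃ ζ : ℝ, 0 < ζ ∧ ζ ≤ 1 ∧
    t₀ < T - ζ ^ 2 ∧
    ∫⁻ τ in Ioo (T - ζ ^ 2) T, ∫⁻ x, ENNReal.ofReal (gw (cw u τ) x) ≤ ENNReal.ofReal ε := by
  have h1 : ∫⁻ t in Ioo t₀ T, ∫⁻ x, ENNReal.ofReal (gw (cw u t) x) ≠ ⊤ :=
    ne_top_of_le_ne_top ENNReal.ofReal_ne_top h.e2
  obtain ⟨δ, hδ, hd⟩ := exists_pos_setLIntegral_lt_of_measure_lt h1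
    (ε := ENNReal.ofReal ε) (by rw [Ne, ENNReal.ofReal_eq_zero, not_le]; exact hε)
  have hb : 0 < T - t₀ := by linarith [h.tT]
  obtain ⟨δ', hδ', hdd⟩ : ∃ δ' : ℝ, 0 < δ' ∧ ENNReal.ofReal δ' < δ := by
    rcases eq_or_ne δ ⊤ with h2 | h2
    · exact ⟨1, one_pos, by rw [h2]; exact ENNReal.ofReal_lt_top⟩
    · refine ⟨δ.toReal / 2, by have := ENNReal.toReal_pos hδ.ne' h2; positivity, ?_⟩
      rw [ENNReal.ofReal_lt_iff_lt_toReal (by positivity) h2]
      have := ENNReal.toReal_pos hδ.ne' h2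
      linarith
  obtain ⟨ζ, hζ⟩ : ∃ ζ : ℝ, ζ = min 1 (min (δ') ((T - t₀) / 2)) := ⟨_, rfl⟩
  have hζ0 : 0 < ζ := by rw [hζ]; positivity
  have hζ1 : ζ ≤ 1 := by rw [hζ]; exact min_le_left _ _
  have hζ2 : ζ ≤ δ' := by rw [hζ]; exact (min_le_right _ _).trans (min_le_left _ _)
  have hζ3 : ζ ≤ (T - t₀) / 2 := by rw [hζ]; exact (min_le_right _ _).trans (min_le_right _ _)
  have hζs : ζ ^ 2 ≤ ζ := by nlinarith
  refine ⟨ζ, hζ0, hζ1, by linarith, ?_⟩
  have h3 := hd (Ioo (T - ζ ^ 2) T) (by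
    refine lt_of_le_of_lt (Measure.restrict_apply_le _ _) ?_
    rw [Real.volume_Ioo]
    refine lt_of_le_of_lt (ENNReal.ofReal_le_ofReal ?_) hdd
    linarith)
  rw [Measure.restrict_restrict measurableSet_Ioo] at h3
  have e : Ioo (T - ζ ^ 2) T ∩ Ioo t₀ T = Ioo (T - ζ ^ 2) T := by
    refine inter_eq_left.2 fun τ hτ => ⟨by linarith [hτ.1], hτ.2⟩
  rw [e] at h3
  exact h3.le

/-- The energy near the singular points. -/
theorem near_small (h : ST ν T u p t₀ E) {S : Set V} (hS : IsCompact S) (hSs : ∀ b ∈ S, ¬ Rg T u b)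
    (hG : ∀ b ∈ S, Gp T u b) {η : ℝ} (hη : 0 < η) : ∃ U : Set V, IsOpen U ∧ S ⊆ U ∧ ∃ δ : ℝ, 0 < δ ∧
    ∀ t ∈ Ioo (T - δ) T, ∫⁻ x in U, ENNReal.ofReal (nw (cw u t) x) ≤ ENNReal.ofReal η := by
  classical
  have hb : 0 < T - t₀ := by linarith [h.tT]
  obtain ⟨c, hc, hD⟩ := diss_low h.hν
  have hD' : ∀ k : ℕ, ∃ L : ℝ, 1 ≤ L ∧
    ∀ (T : ℝ) (u : ℝ → V → V) (p : ℝ → V → ℝ), HS ν T u p → ∀ r : ℝ, 0 < r → 0 < T - r ^ 2 →
    ∀ x₁ : V, ¬ Rg T u x₁ → (∀ s ∈ Ico (T - r ^ 2) T, eB (cw u s) x₁ r ≤ ENNReal.ofReal (k * r)) →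
    ENNReal.ofReal (c * (r / L)) ≤ ∫⁻ τ in Ioo (T - r ^ 2) T, gB (cw u τ) x₁ (r / 6) :=
    fun k => hD k k.cast_nonneg
  choose L hL1 hLD using hD'
  obtain ⟨w, hw⟩ : ∃ w : ℕ → ℝ, w = fun k : ℕ => (k : ℝ) * L k / c := ⟨_, rfl⟩
  have hL0 : ∀ k, 0 < L k := fun k => by linarith [hL1 k]
  have hw0 : ∀ k, 0 ≤ w k := fun k => by
    rw [hw]
    have := hL0 k
    positivity
  have hζ : ∀ k : ℕ, ∃ ζ : ℝ, 0 < ζ ∧ ζ ≤ 1 ∧ t₀ < T - ζ ^ 2 ∧
      ∫⁻ τ in Ioo (T - ζ ^ 2) T, ∫⁻ x, ENNReal.ofReal (gw (cw u τ) x)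
        ≤ ENNReal.ofReal (η * (1 / 2) ^ (k + 1) / (w k + 1)) := fun k =>
    gd_small h (by have := hw0 k; positivity)
  choose ζ hζ0 hζ1 hζt hζg using hζ
  have hdata : ∀ b ∈ S, ∃ (k : ℕ) (r : ℝ), 0 < r ∧ r ≤ ζ k ∧
      ∀ s ∈ Ico (T - r ^ 2) T, eB (cw u s) b r ≤ ENNReal.ofReal (k * r) := by
    intro b hbS
    obtain ⟨K, hK⟩ := hG b hbS
    obtain ⟨k, hk⟩ := exists_nat_ge K
    obtain ⟨r, hr, hE⟩ := hK (ζ k) (hζ0 k)
    refine ⟨k, r, hr.1, hr.2.le, fun s hs => ?_⟩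
    have h1 : r ^ 2 ≤ ζ k ^ 2 := pow_le_pow_left₀ hr.1.le hr.2.le 2
    have h2 := hζt k
    have h3 := h.t0
    refine (hE s hs (by linarith [hs.1])).trans (ENNReal.ofReal_le_ofReal ?_)
    exact mul_le_mul_of_nonneg_right hk hr.1.le
  choose! k r hr0 hrζ hrE using hdata
  obtain ⟨F, hFS, hFc⟩ := hS.elim_nhds_subcover (fun b => ball b (r b / 6))
    (fun b hbS => ball_mem_nhds b (by have := hr0 b hbS; positivity))
  obtain ⟨F', hF', hdis, hcov⟩ := Vitali.exists_disjoint_subfamily_covering_enlargement_closedBall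
    (F : Set V) (fun b => b) (fun b => r b / 6) 1 (fun b hbF => by
      have h1 := hrζ b (hFS b hbF)
      have h2 := hζ1 (k b)
      linarith) 5 (by norm_num)
  have hfin : F'.Finite := F.finite_toSet.subset hF'
  obtain ⟨G, hGF⟩ : ∃ G : Finset V, (G : Set V) = F' := ⟨hfin.toFinset, hfin.coe_toFinset⟩
  have hGS : ∀ b ∈ G, b ∈ S := fun b hbG => hFS b (hF' (by rw [← hGF]; exact hbG))
  have hδ : ∃ δ : ℝ, 0 < δ ∧ ∀ b ∈ G, δ ≤ r b ^ 2 := by
    rcases G.eq_empty_or_nonempty with h0 | h0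
    · exact ⟨1, one_pos, fun b hbG => by rw [h0] at hbG; exact absurd hbG (Finset.notMem_empty b)⟩
    · obtain ⟨b₀, hb₀, hmin⟩ := Finset.exists_min_image G (fun b => r b ^ 2) h0
      exact ⟨r b₀ ^ 2, pow_pos (hr0 b₀ (hGS b₀ hb₀)) 2, fun b hbG => hmin b hbG⟩
  obtain ⟨δ, hδ0, hδ⟩ := hδ
  refine ⟨⋃ b ∈ G, ball b (r b), isOpen_biUnion fun b _ => isOpen_ball, ?_, δ, hδ0, ?_⟩
  · intro x hx
    obtain ⟨a, ha, hxa⟩ := mem_iUnion₂.1 (hFc hx)
    obtain ⟨b, hb', hab⟩ := hcov a ha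
    have hbG : b ∈ G := by
      rw [← hGF] at hb'
      exact hb'
    refine mem_iUnion₂.2 ⟨b, hbG, ?_⟩
    have h1 := hab (ball_subset_closedBall hxa)
    rw [mem_closedBall] at h1
    rw [mem_ball]
    have := hr0 b (hGS b hbG)
    linarith
  · intro t ht
    have a1 : ∀ b ∈ G, ∫⁻ x in ball b (r b), ENNReal.ofReal (nw (cw u t) x)
        ≤ ENNReal.ofReal (w (k b)) * ∫⁻ τ in Ioo (T - r b ^ 2) T, gB (cw u τ) b (r b / 6) := by
      intro b hbG
      have hbS := hGS b hbG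
      have hr := hr0 b hbS
      have hT0 : 0 < T - r b ^ 2 := by
        have h1 : r b ^ 2 ≤ ζ (k b) ^ 2 := pow_le_pow_left₀ hr.le (hrζ b hbS) 2
        have h2 := hζt (k b)
        have h3 := h.t0
        linarith
      have h1 := hrE b hbS t ⟨by linarith [hδ b hbG, ht.1], ht.2⟩
      have h2 := hLD (k b) T u p h.toHS (r b) hr hT0 b (hSs b hbS) (hrE b hbS)
      have h3 := mul_le_mul_right h2 (ENNReal.ofReal (w (k b)))
      refine h1.trans (le_trans (le_of_eq ?_) h3)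
      rw [← ENNReal.ofReal_mul (hw0 _), hw]
      congr 1
      have := hL0 (k b)
      field_simp
    have a2 : ∀ j ∈ G.image k, ∑ b ∈ G with k b = j, ENNReal.ofReal (w (k b))
        * ∫⁻ τ in Ioo (T - r b ^ 2) T, gB (cw u τ) b (r b / 6)
        ≤ ENNReal.ofReal (η * (1 / 2) ^ (j + 1)) := by
      intro j _
      obtain ⟨H, hH⟩ : ∃ H : Finset V, H = G.filter fun b => k b = j := ⟨_, rfl⟩
      rw [← hH]
      have hHG : ∀ b ∈ H, b ∈ G ∧ k b = j := fun b hbH => by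
        rw [hH] at hbH
        exact Finset.mem_filter.1 hbH
      have b1 : ∑ b ∈ H, ENNReal.ofReal (w (k b))
          * ∫⁻ τ in Ioo (T - r b ^ 2) T, gB (cw u τ) b (r b / 6)
          ≤ ENNReal.ofReal (w j) * ∑ b ∈ H, ∫⁻ τ in Ioo (T - ζ j ^ 2) T, gB (cw u τ) b (r b / 6) := by
        rw [Finset.mul_sum]
        refine Finset.sum_le_sum fun b hbH => ?_
        obtain ⟨c1, c2⟩ := hHG b hbH
        rw [c2]
        refine mul_le_mul_right (lintegral_mono_set (Ioo_subset_Ioo_left ?_)) _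
        have c3 := hrζ b (hGS b c1)
        rw [c2] at c3
        have := pow_le_pow_left₀ (hr0 b (hGS b c1)).le c3 2
        linarith
      have b2 : ∑ b ∈ H, ∫⁻ τ in Ioo (T - ζ j ^ 2) T, gB (cw u τ) b (r b / 6)
          ≤ ∫⁻ τ in Ioo (T - ζ j ^ 2) T, ∫⁻ x, ENNReal.ofReal (gw (cw u τ) x) := by
        refine (sum_lint_le H _).trans (lintegral_mono fun τ => ?_)
        unfold gB
        rw [← lintegral_biUnion_finset (s := H) (t := fun b => ball b (r b / 6)) ?_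
          (fun b _ => measurableSet_ball)]
        · exact setLIntegral_le_lintegral _ _
        · intro b hbH b' hbH' hne
          have d1 : b ∈ F' := by rw [← hGF]; exact (hHG b hbH).1
          have d2 : b' ∈ F' := by rw [← hGF]; exact (hHG b' hbH').1
          exact (hdis d1 d2 hne).mono ball_subset_closedBall ball_subset_closedBall
      calc _ ≤ ENNReal.ofReal (w j) * ENNReal.ofReal (η * (1 / 2) ^ (j + 1) / (w j + 1)) :=
            b1.trans (mul_le_mul_right (b2.trans (hζg j)) _)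
        _ = ENNReal.ofReal (w j * (η * (1 / 2) ^ (j + 1) / (w j + 1))) :=
            (ENNReal.ofReal_mul (hw0 j)).symm
        _ ≤ _ := by
            apply ENNReal.ofReal_le_ofReal
            have h1 := hw0 j
            rw [← mul_div_assoc, div_le_iff₀ (by positivity)]
            have h2 : 0 ≤ η * (1 / 2) ^ (j + 1) := by positivity
            nlinarith
    calc ∫⁻ x in ⋃ b ∈ G, ball b (r b), ENNReal.ofReal (nw (cw u t) x)
        ≤ ∑ b ∈ G, ∫⁻ x in ball b (r b), ENNReal.ofReal (nw (cw u t) x) := lint_bU_le _ _ _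
      _ ≤ ∑ b ∈ G, ENNReal.ofReal (w (k b))
          * ∫⁻ τ in Ioo (T - r b ^ 2) T, gB (cw u τ) b (r b / 6) := Finset.sum_le_sum a1
      _ = ∑ j ∈ G.image k, ∑ b ∈ G with k b = j, ENNReal.ofReal (w (k b))
          * ∫⁻ τ in Ioo (T - r b ^ 2) T, gB (cw u τ) b (r b / 6) :=
          (Finset.sum_fiberwise_of_maps_to (fun b hbG => Finset.mem_image_of_mem k hbG) _).symm
      _ ≤ ∑ j ∈ G.image k, ENNReal.ofReal (η * (1 / 2) ^ (j + 1)) := Finset.sum_le_sum a2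
      _ = ENNReal.ofReal (∑ j ∈ G.image k, η * (1 / 2) ^ (j + 1)) :=
          (ENNReal.ofReal_sum_of_nonneg fun j _ => by positivity).symm
      _ ≤ _ := by
          apply ENNReal.ofReal_le_ofReal
          rw [← Finset.mul_sum]
          exact mul_le_of_le_one_right hη.le (sum_half _)

end

end Pool.Agent.H305.EG
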