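import Pool.Agent.H305.EF.Bdk

/-!
The integrability of the pressure against a fixed function.
-/

set_option autoImplicit false

open MeasureTheory Set Metric Filter Topology
open scoped ContDiff ENNReal

namespace Pool.Agent.H305.EG

open H459R3.NS W221.NS Pool.Agent.V1183.PM Pool.Agent.H305.OS Pool.Agent.H305.SL Pool.Agent.H305.PL
  Pool.Agent.H305.EF

lemma gF_test {ν T : ℝ} {u : ℝ → V → V} {p : ℝ → V → ℝ} {Cp : ℝ}
    (hp : ∀ (w : Fin 3 → V → ℝ) (q : V → ℝ), (∀ i, HF (w i)) →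
    (∀ x, ∑ i, H459R3.NS.pd i (w i) x = 0) → HF q → (∀ x, - lp q x = ∑ i, H459R3.NS.pd i (nl w i) x) →
    ∀ r : ℝ, 0 < r → ∀ x, ENNReal.ofReal |q x| ≤ ENNReal.ofReal Cp * (nearP w r x + farP w r x))
    (h : HS ν T u p) {τ : ℝ} (hτ : τ ∈ Ioo 0 T) {X : ℝ≥0∞} (hX : 1 ≤ X)
    (hE : ∫⁻ x, ENNReal.ofReal (nw (cw u τ) x) ≤ X) {g : V → ℝ} (hw : Continuous g)
    (hsq : ∫⁻ x, ENNReal.ofReal |g x| ^ 2 ≤ X) (hg4 : ∫⁻ x, ENNReal.ofReal (g x ^ 4) ≤ X) :
    gF (cw u τ) (p τ) g ≤ (108 + ENNReal.ofReal (2 * Cp) * 800)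
      * (X ^ 2 * (1 + ∫⁻ x, ENNReal.ofReal (gw (cw u τ) x))) := by
  have hv : ∀ i, HF (cw u τ i) := fun i => h.cw_HF hτ i
  have cn := nw_cont hv
  have cg := gw_cont hv
  have mv : ∀ i, Measurable (cw u τ i) := fun i => (hv i).sm.continuous.measurable
  have mw : Measurable fun x => ENNReal.ofReal |g x| := hw.measurable.norm.ennreal_ofReal
  obtain ⟨D, hD⟩ : ∃ D : ℝ≥0∞, D = ∫⁻ x, ENNReal.ofReal (gw (cw u τ) x) := ⟨_, rfl⟩
  rw [← hD]
  have hL4 : ∀ k, ∫⁻ x, ENNReal.ofReal (cw u τ k x ^ 4) ≤ 12 * (X ^ (1 / 2 : ℝ) * D ^ (3 / 2 : ℝ)) :=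
    fun k => L4g (hv k) ((sqi_le_nw k).trans hE) fun j => by
      rw [hD]
      exact sqi_le_gw k j
  have hXp : ∀ a b : ℝ, 0 ≤ a → 0 ≤ b → X ^ a * X ^ b = X ^ (a + b) := fun a b ha hb =>
    (ENNReal.rpow_add_of_nonneg a b ha hb).symm
  have hDp : ∀ a b : ℝ, 0 ≤ a → 0 ≤ b → D ^ a * D ^ b = D ^ (a + b) := fun a b ha hb =>
    (ENNReal.rpow_add_of_nonneg a b ha hb).symm
  have h2 : gF (cw u τ) (p τ) g ≤
      (∫⁻ x, ENNReal.ofReal (|g x| * nw (cw u τ) x))
      + ENNReal.ofReal (2 * Cp) * ((∫⁻ x, ENNReal.ofReal |g x| * nearP (cw u τ) 1 x)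
        + ∫⁻ x, ENNReal.ofReal |g x| * farP (cw u τ) 1 x) := by
    have m1 : Measurable fun x => ENNReal.ofReal (|g x| * nw (cw u τ) x) :=
      (ENNReal.continuous_ofReal.comp (hw.abs.mul cn)).measurable
    have m2 : Measurable fun x => ENNReal.ofReal |g x| * nearP (cw u τ) 1 x := by
      apply mw.mul
      unfold nearP
      have cG : Continuous fun x => √(nw (cw u τ) x) * √(gw (cw u τ) x) :=
        cn.sqrt.mul (gw_cont hv).sqrt
      have : Measurable fun z : V × ℝ => ∫⁻ y' in closedBall (0 : V) 1,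
          ENNReal.ofReal (√(nw (cw u τ) (z.1 + z.2 • y')) * √(gw (cw u τ) (z.1 + z.2 • y'))) := by
        have : Measurable fun q : (V × ℝ) × V => ENNReal.ofReal
            ((fun x => √(nw (cw u τ) x) * √(gw (cw u τ) x)) (q.1.1 + q.1.2 • q.2)) := by
          have : Continuous fun q : (V × ℝ) × V =>
              (fun x => √(nw (cw u τ) x) * √(gw (cw u τ) x)) (q.1.1 + q.1.2 • q.2) :=
            cG.comp (by fun_prop)
          exact (ENNReal.continuous_ofReal.comp this).measurable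
        exact this.lintegral_prod_right'
      exact this.lintegral_prod_right'
    unfold gF
    rw [← lintegral_add_left m2, ← lintegral_const_mul' _ _ ENNReal.ofReal_ne_top,
      ← lintegral_add_left m1]
    apply lintegral_mono
    intro x
    simp only
    have h2 : ENNReal.ofReal ((nw (cw u τ) x + 2 * |p τ x|) * |g x|)
        = ENNReal.ofReal (|g x| * nw (cw u τ) x) + ENNReal.ofReal 2 *
          (ENNReal.ofReal |g x| * ENNReal.ofReal |p τ x|) := by
      have n1 := nw_nonneg (cw u τ) x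
      rw [← ENNReal.ofReal_mul (abs_nonneg _), ← ENNReal.ofReal_mul (by norm_num),
        ← ENNReal.ofReal_add (by positivity) (by positivity)]
      congr 1
      ring
    rw [h2]
    have h3 := hp (cw u τ) (p τ) hv (h.div τ hτ) (h.p_HF hτ) (HS.press h hτ) 1 one_pos x
    calc ENNReal.ofReal (|g x| * nw (cw u τ) x) + ENNReal.ofReal 2 *
          (ENNReal.ofReal |g x| * ENNReal.ofReal |p τ x|)
        ≤ ENNReal.ofReal (|g x| * nw (cw u τ) x) + ENNReal.ofReal 2 *
          (ENNReal.ofReal |g x| * (ENNReal.ofReal Cp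
            * (nearP (cw u τ) 1 x + farP (cw u τ) 1 x))) :=
          add_le_add le_rfl (mul_le_mul_right (mul_le_mul_right h3 _) _)
      _ = _ := by
          rw [ENNReal.ofReal_mul (by norm_num : (0 : ℝ) ≤ 2)]
          ring
  -- the cubic term
  have c1 : ∫⁻ x, ENNReal.ofReal (|g x| * nw (cw u τ) x) ≤ 108 * (X ^ 2 * (1 + D)) := by
    have h1 : ∫⁻ x, ENNReal.ofReal (|g x| * nw (cw u τ) x)
        ≤ (∫⁻ x, ENNReal.ofReal |g x| ^ 2) ^ (1 / 2 : ℝ)
          * (∫⁻ x, ENNReal.ofReal (nw (cw u τ) x) ^ 2) ^ (1 / 2 : ℝ) := by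
      have m2 : Measurable fun x => ENNReal.ofReal (nw (cw u τ) x) := cn.measurable.ennreal_ofReal
      refine le_trans (le_of_eq ?_) (csE mw.aemeasurable m2.aemeasurable)
      apply lintegral_congr
      intro x
      exact ENNReal.ofReal_mul (abs_nonneg _)
    have h3 : ∫⁻ x, ENNReal.ofReal (nw (cw u τ) x) ^ 2
        ≤ 108 * (X ^ (1 / 2 : ℝ) * D ^ (3 / 2 : ℝ)) := by
      calc ∫⁻ x, ENNReal.ofReal (nw (cw u τ) x) ^ 2
          ≤ ∫⁻ x, 3 * ∑ k, ENNReal.ofReal (cw u τ k x ^ 4) := by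
            apply lintegral_mono
            intro x
            simp only
            rw [← ENNReal.ofReal_pow (nw_nonneg _ x), ← ENNReal.ofReal_sum_of_nonneg
              (fun k _ => by positivity), show (3 : ℝ≥0∞) = ENNReal.ofReal 3 by norm_num,
              ← ENNReal.ofReal_mul (by norm_num)]
            apply ENNReal.ofReal_le_ofReal
            unfold nw
            simp only [Fin.sum_univ_three]
            nlinarith [sq_nonneg (cw u τ 0 x ^ 2 - cw u τ 1 x ^ 2),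
              sq_nonneg (cw u τ 1 x ^ 2 - cw u τ 2 x ^ 2), sq_nonneg (cw u τ 0 x ^ 2 - cw u τ 2 x ^ 2)]
        _ = 3 * ∑ k, ∫⁻ x, ENNReal.ofReal (cw u τ k x ^ 4) := by
            rw [lintegral_const_mul _ (Finset.measurable_sum _ fun k _ =>
              ((mv k).pow_const 4).ennreal_ofReal), lintegral_finsetSum _ fun k _ =>
              ((mv k).pow_const 4).ennreal_ofReal]
        _ ≤ 3 * ∑ _k : Fin 3, 12 * (X ^ (1 / 2 : ℝ) * D ^ (3 / 2 : ℝ)) := by
            gcongr with k _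
            exact hL4 k
        _ = _ := by
            rw [Finset.sum_const, Finset.card_univ, Fintype.card_fin, nsmul_eq_mul]
            push_cast
            ring
    calc _ ≤ X ^ (1 / 2 : ℝ) * (108 * (X ^ (1 / 2 : ℝ) * D ^ (3 / 2 : ℝ))) ^ (1 / 2 : ℝ) :=
          h1.trans (mul_le_mul' (ENNReal.rpow_le_rpow hsq (by norm_num))
            (ENNReal.rpow_le_rpow h3 (by norm_num)))
      _ = (108 : ℝ≥0∞) ^ (1 / 2 : ℝ) * ((X ^ (1 / 2 : ℝ) * X ^ (1 / 4 : ℝ)) * D ^ (3 / 4 : ℝ)) := by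
          rw [ENNReal.mul_rpow_of_nonneg _ _ (by norm_num), ENNReal.mul_rpow_of_nonneg _ _ (by norm_num),
            ← ENNReal.rpow_mul, ← ENNReal.rpow_mul, show (1 / 2 : ℝ) * (1 / 2) = 1 / 4 by norm_num,
            show (3 / 2 : ℝ) * (1 / 2) = 3 / 4 by norm_num]
          ring
      _ ≤ 108 * (X ^ 2 * (1 + D)) := by
          rw [hXp _ _ (by norm_num) (by norm_num)]
          refine mul_le_mul' ?_ (mul_le_mul' (pw_X hX (by norm_num)) (pw_le (by norm_num) (by norm_num)))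
          calc (108 : ℝ≥0∞) ^ (1 / 2 : ℝ) ≤ (108 : ℝ≥0∞) ^ (1 : ℝ) :=
                ENNReal.rpow_le_rpow_of_exponent_le (by norm_num) (by norm_num)
            _ = _ := ENNReal.rpow_one _
  -- the near part
  have c2 : ∫⁻ x, ENNReal.ofReal |g x| * nearP (cw u τ) 1 x ≤ 768 * (X ^ 2 * (1 + D)) := by
    have hg : ∫⁻ x in (univ : Set V), ENNReal.ofReal (√(nw (cw u τ) x) * √(gw (cw u τ) x))
        ≤ X ^ (1 / 2 : ℝ) * D ^ (1 / 2 : ℝ) := by
      rw [Measure.restrict_univ]
      have h := csE (μ := volume) (f := fun x => ENNReal.ofReal √(nw (cw u τ) x))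
        (g := fun x => ENNReal.ofReal √(gw (cw u τ) x)) cn.sqrt.measurable.ennreal_ofReal.aemeasurable
        cg.sqrt.measurable.ennreal_ofReal.aemeasurable
      have e1 : ∫⁻ x, ENNReal.ofReal (√(nw (cw u τ) x) * √(gw (cw u τ) x))
          = ∫⁻ x, ENNReal.ofReal √(nw (cw u τ) x) * ENNReal.ofReal √(gw (cw u τ) x) := by
        apply lintegral_congr
        intro x
        exact ENNReal.ofReal_mul (Real.sqrt_nonneg _)
      rw [e1]
      refine h.trans (mul_le_mul' (ENNReal.rpow_le_rpow ?_ (by norm_num))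
        (ENNReal.rpow_le_rpow ?_ (by norm_num)))
      · refine le_trans (le_of_eq ?_) hE
        apply lintegral_congr
        intro x
        rw [← ENNReal.ofReal_pow (Real.sqrt_nonneg _), Real.sq_sqrt (nw_nonneg _ x)]
      · rw [hD]
        apply le_of_eq
        apply lintegral_congr
        intro x
        rw [← ENNReal.ofReal_pow (Real.sqrt_nonneg _), Real.sq_sqrt (gw_nonneg _ x)]
    have h := nearG (S := univ) (S' := univ) hv hw MeasurableSet.univ one_pos
      (fun _ _ => subset_univ _) (e := X) (L := X)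
      (by rw [Measure.restrict_univ]; exact hsq) (by rw [Measure.restrict_univ]; exact hg4) hg
    rw [Measure.restrict_univ] at h
    refine h.trans ?_
    rw [ENNReal.ofReal_one, ENNReal.one_rpow, one_mul]
    calc 64 * (X ^ (1 / 12 : ℝ) * X ^ (5 / 24 : ℝ) * (X ^ (1 / 2 : ℝ) * D ^ (1 / 2 : ℝ)))
        = 64 * ((X ^ (1 / 12 : ℝ) * X ^ (5 / 24 : ℝ) * X ^ (1 / 2 : ℝ)) * D ^ (1 / 2 : ℝ)) := by
          ring
      _ ≤ 64 * (12 * (X ^ 2 * (1 + D))) := by
          rw [hXp _ _ (by norm_num) (by norm_num), hXp _ _ (by norm_num) (by norm_num)]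
          refine mul_le_mul_right ?_ _
          calc X ^ ((1 / 12 : ℝ) + 5 / 24 + 1 / 2) * D ^ (1 / 2 : ℝ) ≤ X ^ 2 * (1 + D) :=
                mul_le_mul' (pw_X hX (by norm_num)) (pw_le (by norm_num) (by norm_num))
            _ = 1 * (X ^ 2 * (1 + D)) := (one_mul _).symm
            _ ≤ _ := mul_le_mul_left (by norm_num) _
      _ = _ := by ring
  -- the far part
  have c3 : ∫⁻ x, ENNReal.ofReal |g x| * farP (cw u τ) 1 x ≤ 6 * X ^ 2 := by
    have hK : ∀ R, 1 < R → ∀ z, ∫⁻ x in univ ∩ closedBall z R, ENNReal.ofReal |g x|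
        ≤ 3 * (ENNReal.ofReal R ^ (3 / 2 : ℝ) * X ^ (1 / 2 : ℝ)) := by
      intro R hR z
      have hR0 : 0 < R := by linarith
      have h := csE (μ := volume.restrict (univ ∩ closedBall z R))
        (f := fun _ => 1) (g := fun x => ENNReal.ofReal |g x|) aemeasurable_const mw.aemeasurable
      simp only [one_mul, one_pow] at h
      refine h.trans ?_
      have h2 := PL.vol_cb hR0 z univ
      calc _ ≤ (8 * ENNReal.ofReal R ^ 3) ^ (1 / 2 : ℝ) * X ^ (1 / 2 : ℝ) :=
            mul_le_mul' (ENNReal.rpow_le_rpow h2 (by norm_num))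
              (ENNReal.rpow_le_rpow ((setLIntegral_le_lintegral _ _).trans hsq) (by norm_num))
        _ = (8 : ℝ≥0∞) ^ (1 / 2 : ℝ) * (ENNReal.ofReal R ^ (3 / 2 : ℝ) * X ^ (1 / 2 : ℝ)) := by
            rw [ENNReal.mul_rpow_of_nonneg _ _ (by norm_num), ← ENNReal.rpow_natCast,
              ← ENNReal.rpow_mul, show ((3 : ℕ) : ℝ) * (1 / 2) = 3 / 2 by norm_num]
            ring
        _ ≤ _ := by
            refine mul_le_mul_left ?_ _
            calc (8 : ℝ≥0∞) ^ (1 / 2 : ℝ) ≤ (9 : ℝ≥0∞) ^ (1 / 2 : ℝ) :=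
                  ENNReal.rpow_le_rpow (by norm_num) (by norm_num)
              _ = 3 := by
                  rw [show (9 : ℝ≥0∞) = 3 ^ (2 : ℝ) by norm_num, ← ENNReal.rpow_mul]
                  norm_num
    have h := farG (S := univ) hv hw one_pos (K := fun R => 3 * (ENNReal.ofReal R ^ (3 / 2 : ℝ)
      * X ^ (1 / 2 : ℝ))) (B := fun _ => X) (X := 6 * X ^ 2) hK (D := fun _ => univ)
      (fun _ => MeasurableSet.univ) (fun _ _ _ _ => subset_univ _)
      (fun _ _ => by rw [Measure.restrict_univ]; exact hE) ?_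
    · rwa [Measure.restrict_univ] at h
    · have key : ∀ R ∈ Ioi (1 : ℝ), ENNReal.ofReal (R⁻¹ * (R ^ 3)⁻¹)
          * (3 * (ENNReal.ofReal R ^ (3 / 2 : ℝ) * X ^ (1 / 2 : ℝ)) * X)
          ≤ (3 * (X ^ (1 / 2 : ℝ) * X)) * ENNReal.ofReal (R ^ (-(5 / 2) : ℝ)) := by
        intro R hR
        have hR0 : 0 < R := lt_trans one_pos hR
        have e1 : ENNReal.ofReal (R⁻¹ * (R ^ 3)⁻¹) * ENNReal.ofReal R ^ (3 / 2 : ℝ)
            = ENNReal.ofReal (R ^ (-(5 / 2) : ℝ)) := by
          rw [ENNReal.ofReal_rpow_of_pos hR0, ← ENNReal.ofReal_mul (by positivity)]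
          congr 1
          rw [← mul_inv, ← pow_succ', ← Real.rpow_natCast, ← Real.rpow_neg hR0.le, ← Real.rpow_add hR0]
          norm_num
        rw [← e1]
        apply le_of_eq
        ring
      refine (setLIntegral_mono' measurableSet_Ioi key).trans ?_
      rw [lintegral_const_mul _ (by fun_prop),
        ← ofReal_integral_eq_lintegral_ofReal (integrableOn_Ioi_rpow_of_lt (by norm_num) one_pos),
        integral_Ioi_rpow_of_lt (by norm_num) one_pos]
      · have e2 : ENNReal.ofReal (-(1 : ℝ) ^ (-(5 / 2 : ℝ) + 1) / (-(5 / 2 : ℝ) + 1)) ≤ 1 := by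
          rw [ENNReal.ofReal_le_one, Real.one_rpow]
          norm_num
        have e3 : X ^ (1 / 2 : ℝ) * X ≤ X ^ 2 := by
          calc X ^ (1 / 2 : ℝ) * X = X ^ (1 / 2 : ℝ) * X ^ (1 : ℝ) := by rw [ENNReal.rpow_one]
            _ = X ^ (3 / 2 : ℝ) := by
                rw [hXp _ _ (by norm_num) (by norm_num)]
                norm_num
            _ ≤ _ := pw_X hX (by norm_num)
        calc _ ≤ 3 * X ^ 2 * 1 := mul_le_mul' (mul_le_mul_right e3 _) e2
          _ ≤ 6 * X ^ 2 := by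
              rw [mul_one]
              exact mul_le_mul_left (by norm_num) _
      · rw [EventuallyLE, ae_restrict_iff' measurableSet_Ioi]
        exact Eventually.of_forall fun R hR => Real.rpow_nonneg (lt_trans one_pos hR).le _
  refine h2.trans ?_
  have h6 : 6 * X ^ 2 ≤ 32 * (X ^ 2 * (1 + D)) := by
    calc 6 * X ^ 2 = 6 * (X ^ 2 * 1) := by rw [mul_one]
      _ ≤ 32 * (X ^ 2 * (1 + D)) :=
        mul_le_mul' (by norm_num) (mul_le_mul_right le_self_add _)
  calc _ ≤ 108 * (X ^ 2 * (1 + D)) + ENNReal.ofReal (2 * Cp) * (768 * (X ^ 2 * (1 + D))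
        + 32 * (X ^ 2 * (1 + D))) :=
        add_le_add c1 (mul_le_mul_right (add_le_add c2 (c3.trans h6)) _)
    _ = _ := by ring

end Pool.Agent.H305.EG
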