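import Pool.Agent.H305.EG.Rb
import Pool.Agent.H305.EG.Rc
import Pool.Agent.H305.EG.Ad

/-!
The pairing of the solution with its values at an earlier time.
-/

set_option autoImplicit false

open MeasureTheory Set Metric Filter Topology
open scoped ContDiff ENNReal

namespace Pool.Agent.H305.EG

open H459R3.NS W221.NS Pool.Agent.V1183.PM Pool.Agent.H305.OS Pool.Agent.H305.SL Pool.Agent.H305.PL
  Pool.Agent.H305.EF
open Pool.Agent.W583.MD (sm_pd pd_mul')

section
variable {w v : Fin 3 → V → ℝ} {q Φ g f G : V → ℝ} {ν A Q : ℝ} {N : Set V}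

/-- The density of the pairing. -/
noncomputable def crI (ν : ℝ) (w v : Fin 3 → V → ℝ) (q Φ : V → ℝ) (x : V) : ℝ :=
  (∑ i, ∑ k, (-(ν * (H459R3.NS.pd k (w i) x * (v i x * H459R3.NS.pd k Φ x
    + H459R3.NS.pd k (v i) x * Φ x))) - w k x * H459R3.NS.pd k (w i) x * (v i x * Φ x)))
    + q x * ∑ j, v j x * H459R3.NS.pd j Φ x

lemma ip_lp (hf : HF f) (hG : HF G) : ip (lp f) G = -∑ k, ip (H459R3.NS.pd k f) (H459R3.NS.pd k G) := by
  have h1 : ip (lp f) G = ∑ k, ip (H459R3.NS.pd k (H459R3.NS.pd k f)) G := by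
    unfold ip OS.lp
    rw [← sum_int3 fun k => (((hf.pd k).pd k).ip_int hG)]
    congr 1
    funext x
    rw [Finset.sum_mul]
  rw [h1, ← Finset.sum_neg_distrib]
  exact Finset.sum_congr rfl fun k _ => (hf.pd k).ip_ibp hG k

lemma cr_id (hw : ∀ i, HF (w i)) (hv : ∀ i, HF (v i))
    (hdiv : ∀ x, ∑ i, H459R3.NS.pd i (v i) x = 0) (hq : HF q) (hΦ : BF Φ) :
    Integrable (crI ν w v q Φ) ∧
    ∑ i, ip (fun x => ν * lp (w i) x - nl w i x - H459R3.NS.pd i q x) (fun x => v i x * Φ x)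
      = ∫ x, crI ν w v q Φ x := by
  have hnl : ∀ i, HF (nl w i) := fun i => nl_HF hw i
  have hG : ∀ i, HF fun x => v i x * Φ x := fun i => HF.mulB (hv i) hΦ
  have e0 : ∀ i, ip (fun x => ν * lp (w i) x - nl w i x - H459R3.NS.pd i q x) (fun x => v i x * Φ x)
      = ν * ip (lp (w i)) (fun x => v i x * Φ x) - ip (nl w i) (fun x => v i x * Φ x)
        - ip (H459R3.NS.pd i q) (fun x => v i x * Φ x) := by
    intro i
    have H := hG i
    rw [ip_comm, H.ip_sub (((hw i).lp.cmul ν).sub (hnl i)) (hq.pd i),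
      H.ip_sub ((hw i).lp.cmul ν) (hnl i), ip_cmul, ip_comm _ (lp (w i)), ip_comm _ (nl w i),
      ip_comm _ (H459R3.NS.pd i q)]
  have eG : ∀ i k, H459R3.NS.pd k (fun x => v i x * Φ x)
      = fun x => v i x * H459R3.NS.pd k Φ x + H459R3.NS.pd k (v i) x * Φ x := by
    intro i k
    funext x
    exact pd_mul' (hv i).sm hΦ.sm k x
  have hpG : ∀ i k, HF fun x => v i x * H459R3.NS.pd k Φ x + H459R3.NS.pd k (v i) x * Φ x := by
    intro i k
    rw [← eG i k]
    exact (hG i).pd k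
  have e1 : ∀ i, ip (lp (w i)) (fun x => v i x * Φ x) = -∑ k, ∫ x, H459R3.NS.pd k (w i) x
      * (v i x * H459R3.NS.pd k Φ x + H459R3.NS.pd k (v i) x * Φ x) := by
    intro i
    rw [ip_lp (hw i) (hG i)]
    congr 1
    refine Finset.sum_congr rfl fun k _ => ?_
    rw [eG i k]
    rfl
  have e2 := pr_id hv hdiv hq hΦ
  have iA : ∀ i k, Integrable fun x => H459R3.NS.pd k (w i) x
      * (v i x * H459R3.NS.pd k Φ x + H459R3.NS.pd k (v i) x * Φ x) := fun i k =>
    ((hw i).pd k).ip_int (hpG i k)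
  have iB : ∀ i k, Integrable fun x => w k x * H459R3.NS.pd k (w i) x * (v i x * Φ x) := fun i k =>
    ((hw k).mul ((hw i).pd k)).ip_int (hG i)
  have iC : Integrable fun x => q x * ∑ j, v j x * H459R3.NS.pd j Φ x :=
    hq.ip_int (HF.sum fun j => HF.mulB (hv j) (hΦ.pd j))
  have iAB : ∀ i k, Integrable fun x => (-(ν * (H459R3.NS.pd k (w i) x * (v i x * H459R3.NS.pd k Φ x
    + H459R3.NS.pd k (v i) x * Φ x))) - w k x * H459R3.NS.pd k (w i) x * (v i x * Φ x)) := fun i k =>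
    ((iA i k).const_mul ν).neg.sub (iB i k)
  have e3 : ∀ i, ip (nl w i) (fun x => v i x * Φ x)
      = ∑ k, ∫ x, w k x * H459R3.NS.pd k (w i) x * (v i x * Φ x) := by
    intro i
    rw [← sum_int3 fun k => iB i k]
    unfold ip OS.nl
    congr 1
    funext x
    rw [Finset.sum_mul]
  have iS : Integrable fun x => ∑ i, ∑ k, (-(ν * (H459R3.NS.pd k (w i) x * (v i x
      * H459R3.NS.pd k Φ x + H459R3.NS.pd k (v i) x * Φ x)))
      - w k x * H459R3.NS.pd k (w i) x * (v i x * Φ x)) :=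
    integrable_finsetSum _ fun i _ => integrable_finsetSum _ fun k _ => iAB i k
  refine ⟨iS.add iC, ?_⟩
  have e4 : ∫ x, crI ν w v q Φ x = (∑ i, ∑ k, (-(ν * ∫ x, H459R3.NS.pd k (w i) x
      * (v i x * H459R3.NS.pd k Φ x + H459R3.NS.pd k (v i) x * Φ x))
      - ∫ x, w k x * H459R3.NS.pd k (w i) x * (v i x * Φ x)))
      + ∫ x, q x * ∑ j, v j x * H459R3.NS.pd j Φ x := by
    unfold crI
    rw [integral_add iS iC, sum_int3 fun i => integrable_finsetSum _ fun k _ => iAB i k]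
    congr 1
    refine Finset.sum_congr rfl fun i _ => ?_
    rw [sum_int3 fun k => iAB i k]
    refine Finset.sum_congr rfl fun k _ => ?_
    have iA' : Integrable fun x => -(ν * (H459R3.NS.pd k (w i) x
      * (v i x * H459R3.NS.pd k Φ x + H459R3.NS.pd k (v i) x * Φ x))) :=
      ((iA i k).const_mul ν).neg
    rw [integral_sub iA' (iB i k), integral_neg, integral_const_mul]
  rw [e4]
  simp only [e0, Finset.sum_sub_distrib, e1, e3, e2]
  simp only [Fin.sum_univ_three]
  ring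

/-- The pointwise bound. -/
lemma cr_pt (hν : 0 ≤ ν) (h0 : ∀ x ∈ N, Φ x = 0 ∧ ∀ k, H459R3.NS.pd k Φ x = 0)
    (h1 : ∀ x ∉ N, ∀ i, |w i x| ≤ Q ∧ |v i x| ≤ Q) (hΦ1 : ∀ x, |Φ x| ≤ 1)
    (hA : ∀ x k, |H459R3.NS.pd k Φ x| ≤ A) (hg : ∀ x, g x = ∑ k, |H459R3.NS.pd k Φ x|) (x : V) :
    |crI ν w v q Φ x| ≤ (ν + 1) * gw w x + ν * gw v x + 2 * (ν * A ^ 2 + Q ^ 2) * nw v x
      + Q * ((nw w x + 2 * |q x|) * |g x|) := by
  have n1 := gw_nonneg w x
  have n2 := gw_nonneg v x
  have n3 := nw_nonneg v x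
  have n4 := nw_nonneg w x
  by_cases hx : x ∈ N
  · obtain ⟨a1, a2⟩ := h0 x hx
    have e1 : crI ν w v q Φ x = 0 := by
      unfold crI
      simp only [a1, a2]
      simp
    have e2 : g x = 0 := by
      rw [hg]
      simp only [a2]
      simp
    rw [e1, e2, abs_zero, mul_zero, mul_zero, add_zero]
    positivity
  · have hQ : 0 ≤ Q := (abs_nonneg _).trans (h1 x hx 0).1
    have hA0 : 0 ≤ A := (abs_nonneg _).trans (hA x 0)
    have t1 : ∀ i k, |(-(ν * (H459R3.NS.pd k (w i) x * (v i x * H459R3.NS.pd k Φ x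
        + H459R3.NS.pd k (v i) x * Φ x))) - w k x * H459R3.NS.pd k (w i) x * (v i x * Φ x))|
        ≤ (ν + 1 / 2) * H459R3.NS.pd k (w i) x ^ 2 + ν / 2 * H459R3.NS.pd k (v i) x ^ 2
          + 1 / 2 * (ν * A ^ 2 + Q ^ 2) * v i x ^ 2 := by
      intro i k
      obtain ⟨a, ha⟩ : ∃ a, a = |H459R3.NS.pd k (w i) x| := ⟨_, rfl⟩
      obtain ⟨b, hb⟩ : ∃ b, b = |H459R3.NS.pd k (v i) x| := ⟨_, rfl⟩
      obtain ⟨c, hc⟩ : ∃ c, c = |v i x| := ⟨_, rfl⟩
      have ha0 : 0 ≤ a := by rw [ha]; exact abs_nonneg _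
      have hb0 : 0 ≤ b := by rw [hb]; exact abs_nonneg _
      have hc0 : 0 ≤ c := by rw [hc]; exact abs_nonneg _
      have s1 : H459R3.NS.pd k (w i) x ^ 2 = a ^ 2 := by rw [ha, sq_abs]
      have s2 : H459R3.NS.pd k (v i) x ^ 2 = b ^ 2 := by rw [hb, sq_abs]
      have s3 : v i x ^ 2 = c ^ 2 := by rw [hc, sq_abs]
      rw [s1, s2, s3]
      have u1 : |H459R3.NS.pd k (w i) x * (v i x * H459R3.NS.pd k Φ x)| ≤ a * (c * A) := by
        rw [abs_mul, abs_mul, ← ha, ← hc]
        exact mul_le_mul_of_nonneg_left (mul_le_mul_of_nonneg_left (hA x k) hc0) ha0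
      have u2 : |H459R3.NS.pd k (w i) x * (H459R3.NS.pd k (v i) x * Φ x)| ≤ a * b := by
        rw [abs_mul, abs_mul, ← ha, ← hb]
        exact mul_le_mul_of_nonneg_left (mul_le_of_le_one_right hb0 (hΦ1 x)) ha0
      have u3 : |w k x * H459R3.NS.pd k (w i) x * (v i x * Φ x)| ≤ Q * a * c := by
        rw [abs_mul, abs_mul, abs_mul, ← ha, ← hc]
        exact mul_le_mul (mul_le_mul_of_nonneg_right (h1 x hx k).1 ha0)
          (mul_le_of_le_one_right hc0 (hΦ1 x)) (by positivity) (by positivity)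
      have e1 : (-(ν * (H459R3.NS.pd k (w i) x * (v i x * H459R3.NS.pd k Φ x
          + H459R3.NS.pd k (v i) x * Φ x))) - w k x * H459R3.NS.pd k (w i) x * (v i x * Φ x))
          = -(ν * (H459R3.NS.pd k (w i) x * (v i x * H459R3.NS.pd k Φ x)))
            - ν * (H459R3.NS.pd k (w i) x * (H459R3.NS.pd k (v i) x * Φ x))
            - w k x * H459R3.NS.pd k (w i) x * (v i x * Φ x) := by ring
      rw [e1, abs_le]
      obtain ⟨p1, p2⟩ := abs_le.1 u1
      obtain ⟨p3, p4⟩ := abs_le.1 u2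
      obtain ⟨p5, p6⟩ := abs_le.1 u3
      have m1 := mul_le_mul_of_nonneg_left p1 hν
      have m2 := mul_le_mul_of_nonneg_left p2 hν
      have m3 := mul_le_mul_of_nonneg_left p3 hν
      have m4 := mul_le_mul_of_nonneg_left p4 hν
      have y1 : a * (c * A) ≤ (a ^ 2 + A ^ 2 * c ^ 2) / 2 := by nlinarith [sq_nonneg (a - c * A)]
      have y2 : a * b ≤ (a ^ 2 + b ^ 2) / 2 := by nlinarith [sq_nonneg (a - b)]
      have y3 : Q * a * c ≤ (a ^ 2 + Q ^ 2 * c ^ 2) / 2 := by nlinarith [sq_nonneg (a - Q * c)]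
      have y1' := mul_le_mul_of_nonneg_left y1 hν
      have y2' := mul_le_mul_of_nonneg_left y2 hν
      constructor <;> nlinarith
    have t2 : |q x * ∑ j, v j x * H459R3.NS.pd j Φ x| ≤ Q * (|q x| * |g x|) := by
      rw [abs_mul]
      have r1 : |∑ j, v j x * H459R3.NS.pd j Φ x| ≤ Q * |g x| := by
        refine (Finset.abs_sum_le_sum_abs _ _).trans ?_
        have : |g x| = ∑ k, |H459R3.NS.pd k Φ x| := by
          rw [hg, abs_of_nonneg (Finset.sum_nonneg fun _ _ => abs_nonneg _)]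
        rw [this, Finset.mul_sum]
        refine Finset.sum_le_sum fun j _ => ?_
        rw [abs_mul]
        exact mul_le_mul_of_nonneg_right (h1 x hx j).2 (abs_nonneg _)
      have := mul_le_mul_of_nonneg_left r1 (abs_nonneg (q x))
      linarith
    have t3 : |∑ i, ∑ k, (-(ν * (H459R3.NS.pd k (w i) x * (v i x * H459R3.NS.pd k Φ x
        + H459R3.NS.pd k (v i) x * Φ x))) - w k x * H459R3.NS.pd k (w i) x * (v i x * Φ x))|
        ≤ (ν + 1 / 2) * gw w x + ν / 2 * gw v x + 3 / 2 * (ν * A ^ 2 + Q ^ 2) * nw v x := by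
      refine (Finset.abs_sum_le_sum_abs _ _).trans ?_
      calc _ ≤ ∑ i, ∑ k, ((ν + 1 / 2) * H459R3.NS.pd k (w i) x ^ 2
          + ν / 2 * H459R3.NS.pd k (v i) x ^ 2 + 1 / 2 * (ν * A ^ 2 + Q ^ 2) * v i x ^ 2) :=
            Finset.sum_le_sum fun i _ => (Finset.abs_sum_le_sum_abs _ _).trans
              (Finset.sum_le_sum fun k _ => t1 i k)
        _ = _ := by
            unfold gw nw
            simp only [Fin.sum_univ_three]
            ring
    unfold crI
    refine (abs_add_le _ _).trans ((add_le_add t3 t2).trans ?_)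
    have z1 : 0 ≤ Q * (nw w x * |g x|) := by positivity
    have z2 : 0 ≤ Q * (|q x| * |g x|) := by positivity
    have z3 : 0 ≤ (ν * A ^ 2 + Q ^ 2) * nw v x := by positivity
    have z4 : 0 ≤ ν * gw v x := by positivity
    nlinarith

/-- The bound for the pairing. -/
lemma cr_le (hw : ∀ i, HF (w i)) (hv : ∀ i, HF (v i))
    (hdiv : ∀ x, ∑ i, H459R3.NS.pd i (v i) x = 0) (hq : HF q) (hΦ : BF Φ)
    (hν : 0 ≤ ν) (h0 : ∀ x ∈ N, Φ x = 0 ∧ ∀ k, H459R3.NS.pd k Φ x = 0)
    (h1 : ∀ x ∉ N, ∀ i, |w i x| ≤ Q ∧ |v i x| ≤ Q) (hΦ1 : ∀ x, |Φ x| ≤ 1)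
    (hA : ∀ x k, |H459R3.NS.pd k Φ x| ≤ A) (hg : ∀ x, g x = ∑ k, |H459R3.NS.pd k Φ x|)
    (hgm : Measurable g) (hfin : gF w q g ≠ ⊤) :
    |∑ i, ip (fun x => ν * lp (w i) x - nl w i x - H459R3.NS.pd i q x) (fun x => v i x * Φ x)|
      ≤ (ν + 1) * (∫ x, gw w x) + ν * (∫ x, gw v x) + 2 * (ν * A ^ 2 + Q ^ 2) * (∫ x, nw v x)
        + Q * (gF w q g).toReal := by
  obtain ⟨i0, e0⟩ := cr_id (ν := ν) hw hv hdiv hq hΦ
  rw [e0]
  have i1 : Integrable (gw w) := gw_int hw
  have i2 : Integrable (gw v) := gw_int hv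
  have i3 : Integrable (nw v) := by
    unfold nw
    exact integrable_finsetSum _ fun i _ => by simpa using sqB_int (hv i) BF_one
  have mw : Measurable (nw w) := by
    unfold nw
    exact Finset.measurable_sum _ fun i _ => ((hw i).sm.continuous.measurable).pow_const 2
  have mq : Measurable q := hq.sm.continuous.measurable
  have m4 : Measurable fun x => (nw w x + 2 * |q x|) * |g x| :=
    (mw.add ((mq.norm).const_mul 2)).mul hgm.norm
  have n4 : ∀ x, 0 ≤ (nw w x + 2 * |q x|) * |g x| := fun x => by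
    have := nw_nonneg w x
    positivity
  have i4 : Integrable fun x => (nw w x + 2 * |q x|) * |g x| := by
    refine ⟨m4.aestronglyMeasurable, ?_⟩
    rw [hasFiniteIntegral_iff_ofReal (Eventually.of_forall n4)]
    exact lt_top_iff_ne_top.2 hfin
  have e4 : ∫ x, (nw w x + 2 * |q x|) * |g x| = (gF w q g).toReal := by
    unfold gF
    rw [integral_eq_lintegral_of_nonneg_ae (Eventually.of_forall n4) m4.aestronglyMeasurable]
  have j1 : Integrable fun x => (ν + 1) * gw w x := i1.const_mul _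
  have j2 : Integrable fun x => ν * gw v x := i2.const_mul _
  have j3 : Integrable fun x => 2 * (ν * A ^ 2 + Q ^ 2) * nw v x := i3.const_mul _
  have j4 : Integrable fun x => Q * ((nw w x + 2 * |q x|) * |g x|) := i4.const_mul _
  have j12 : Integrable fun x => (ν + 1) * gw w x + ν * gw v x := j1.add j2
  have j123 : Integrable fun x => (ν + 1) * gw w x + ν * gw v x
    + 2 * (ν * A ^ 2 + Q ^ 2) * nw v x := j12.add j3
  have j1234 : Integrable fun x => (ν + 1) * gw w x + ν * gw v x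
    + 2 * (ν * A ^ 2 + Q ^ 2) * nw v x + Q * ((nw w x + 2 * |q x|) * |g x|) := j123.add j4
  refine (abs_integral_le_integral_abs).trans ?_
  calc ∫ x, |crI ν w v q Φ x| ≤ ∫ x, ((ν + 1) * gw w x + ν * gw v x
        + 2 * (ν * A ^ 2 + Q ^ 2) * nw v x + Q * ((nw w x + 2 * |q x|) * |g x|)) :=
        integral_mono i0.abs j1234 fun x => cr_pt hν h0 h1 hΦ1 hA hg x
    _ = _ := by
        rw [integral_add j123 j4, integral_add j12 j3, integral_add j1 j2, integral_const_mul,
          integral_const_mul, integral_const_mul, integral_const_mul, e4]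

/-- The bound for the local energy balance. -/
lemma ba_le (hw : ∀ i, HF (w i)) (hq : HF q) (hΦ : BF Φ) (hν : 0 ≤ ν) (hΦ0 : ∀ x, 0 ≤ Φ x)
    (h0 : ∀ x ∈ N, Φ x = 0 ∧ ∀ k, H459R3.NS.pd k Φ x = 0) (h1 : ∀ x ∉ N, ∀ i, |w i x| ≤ Q)
    {A₂ : ℝ} (hA : ∀ x, |lp Φ x| ≤ A₂) (hg : ∀ x, g x = ∑ k, |H459R3.NS.pd k Φ x|)
    (hgm : Measurable g) (hfin : gF w q g ≠ ⊤) :
    -(2 * ν * dsW w Φ) + ν * enW w (lp Φ) + flW w q Φ
      ≤ ν * (A₂ * ∫ x, nw w x) + Q * (gF w q g).toReal := by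
  have i3 : Integrable (nw w) := by
    unfold nw
    exact integrable_finsetSum _ fun i _ => by simpa using sqB_int (hw i) BF_one
  have hL : BF (lp Φ) := by
    unfold OS.lp
    exact UB.sum fun k => (hΦ.pd k).pd k
  have hd : 0 ≤ dsW w Φ := integral_nonneg fun x =>
    mul_nonneg (Finset.sum_nonneg fun i _ => Finset.sum_nonneg fun k _ => sq_nonneg _) (hΦ0 x)
  have he : enW w (lp Φ) ≤ A₂ * ∫ x, nw w x := by
    unfold enW
    rw [← integral_const_mul]
    refine integral_mono ?_ (i3.const_mul A₂) fun x => ?_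
    · simp only [Finset.sum_mul]
      exact integrable_finsetSum _ fun i _ => sqB_int (hw i) hL
    · have n1 := nw_nonneg w x
      have h2 := (le_abs_self _).trans (hA x)
      show nw w x * lp Φ x ≤ A₂ * nw w x
      have := mul_le_mul_of_nonneg_left h2 n1
      linarith
  have mw : Measurable (nw w) := by
    unfold nw
    exact Finset.measurable_sum _ fun i _ => ((hw i).sm.continuous.measurable).pow_const 2
  have mq : Measurable q := hq.sm.continuous.measurable
  have m4 : Measurable fun x => (nw w x + 2 * |q x|) * |g x| :=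
    (mw.add ((mq.norm).const_mul 2)).mul hgm.norm
  have n4 : ∀ x, 0 ≤ (nw w x + 2 * |q x|) * |g x| := fun x => by
    have := nw_nonneg w x
    positivity
  have i4 : Integrable fun x => (nw w x + 2 * |q x|) * |g x| := by
    refine ⟨m4.aestronglyMeasurable, ?_⟩
    rw [hasFiniteIntegral_iff_ofReal (Eventually.of_forall n4)]
    exact lt_top_iff_ne_top.2 hfin
  have e4 : ∫ x, (nw w x + 2 * |q x|) * |g x| = (gF w q g).toReal := by
    unfold gF
    rw [integral_eq_lintegral_of_nonneg_ae (Eventually.of_forall n4) m4.aestronglyMeasurable]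
  have hf : flW w q Φ ≤ Q * (gF w q g).toReal := by
    unfold flW
    rw [← e4, ← integral_const_mul]
    refine integral_mono (flux_int hw hq hΦ) (i4.const_mul Q) fun x => ?_
    have n1 := nw_nonneg w x
    simp only
    by_cases hx : x ∈ N
    · obtain ⟨a1, a2⟩ := h0 x hx
      have e2 : g x = 0 := by
        rw [hg]
        simp only [a2]
        simp
      rw [e2]
      simp only [a2]
      simp
    · have hQ : 0 ≤ Q := (abs_nonneg _).trans (h1 x hx 0)
      have r1 : |∑ j, w j x * H459R3.NS.pd j Φ x| ≤ Q * |g x| := by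
        refine (Finset.abs_sum_le_sum_abs _ _).trans ?_
        have : |g x| = ∑ k, |H459R3.NS.pd k Φ x| := by
          rw [hg, abs_of_nonneg (Finset.sum_nonneg fun _ _ => abs_nonneg _)]
        rw [this, Finset.mul_sum]
        refine Finset.sum_le_sum fun j _ => ?_
        rw [abs_mul]
        exact mul_le_mul_of_nonneg_right (h1 x hx j) (abs_nonneg _)
      have r2 : |(∑ i, w i x ^ 2) + 2 * q x| ≤ nw w x + 2 * |q x| := by
        have h2 := abs_add_le (∑ i, w i x ^ 2) (2 * q x)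
        rw [abs_mul, abs_of_pos (by norm_num : (0 : ℝ) < 2)] at h2
        have h3 : |∑ i, w i x ^ 2| = nw w x := abs_of_nonneg n1
        rw [h3] at h2
        exact h2
      calc _ ≤ |((∑ i, w i x ^ 2) + 2 * q x) * ∑ j, w j x * H459R3.NS.pd j Φ x| := le_abs_self _
        _ ≤ (nw w x + 2 * |q x|) * (Q * |g x|) := by
            rw [abs_mul]
            exact mul_le_mul r2 r1 (abs_nonneg _) (by positivity)
        _ = _ := by ring
  have h2 := mul_le_mul_of_nonneg_left he hν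
  have h3 : 0 ≤ 2 * ν * dsW w Φ := by positivity
  linarith

end

end Pool.Agent.H305.EG
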