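import Pool.Agent.H305.EG.Rd
import Pool.Agent.H305.EG.Inf

/-!
The solution does not move much in regions where it is bounded.
-/

set_option autoImplicit false

open MeasureTheory Set Metric Filter Topology
open scoped ContDiff ENNReal

namespace Pool.Agent.H305.EG

open H459R3.NS W221.NS Pool.Agent.V1183.PM Pool.Agent.H305.OS Pool.Agent.H305.SL Pool.Agent.H305.PL
  Pool.Agent.H305.EF
open Pool.Agent.H305.TI (it it_nil it_cons it_sm)

lemma it_zero0 : ∀ l : List (Fin 3), it l (fun _ : V => (0 : ℝ)) = fun _ => 0 := by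
  intro l
  induction l with
  | nil => rfl
  | cons j l ih =>
    rw [it_cons]
    have e : H459R3.NS.pd j (fun _ : V => (0 : ℝ)) = fun _ => 0 := by
      funext x
      unfold H459R3.NS.pd
      simp
    rw [e, ih]

lemma UF_zero (I : Set ℝ) : UF I fun _ _ => (0 : ℝ) := by
  refine ⟨fun _ _ => contDiff_const, fun l => ⟨0, le_rfl, fun t _ => ?_⟩⟩
  have e := it_zero0 l
  rw [e]
  refine ⟨fun x => by simp, ?_⟩
  unfold sqi
  simp

lemma UF_const {I : Set ℝ} {f : V → ℝ} (hf : HF f) : UF I fun _ => f := by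
  refine ⟨fun _ _ => hf.sm, fun l => ?_⟩
  obtain ⟨C, hC, h1⟩ := hf.bd l
  exact ⟨C, hC, fun t _ => h1 0 (mem_univ _)⟩

lemma UB_const {I : Set ℝ} {f : V → ℝ} (hf : BF f) : UB I fun _ => f := by
  refine ⟨fun _ _ => hf.sm, fun l => ?_⟩
  obtain ⟨C, hC, h1⟩ := UB.bd hf l
  exact ⟨C, hC, fun t _ => h1 0 (mem_univ _)⟩

lemma UB_zero (I : Set ℝ) : UB I fun _ _ => (0 : ℝ) := by
  refine ⟨fun _ _ => contDiff_const, fun l => ⟨0, le_rfl, fun t _ x => ?_⟩⟩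
  have e := it_zero0 l
  rw [e]
  simp

lemma J_const {T : ℝ} {f : V → ℝ} (hf : ContDiff ℝ ∞ f) : J T fun _ => f := by
  unfold J
  exact (hf.comp contDiff_snd).contDiffOn

/-- The dissipation. -/
noncomputable def DR (u : ℝ → V → V) (τ : ℝ) : ℝ := (∫⁻ x, ENNReal.ofReal (gw (cw u τ) x)).toReal

section
variable {ν T t₀ E : ℝ} {u : ℝ → V → V} {p : ℝ → V → ℝ} {Φ g : V → ℝ}

lemma DR_nonneg (u : ℝ → V → V) (τ : ℝ) : 0 ≤ DR u τ := ENNReal.toReal_nonneg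

lemma DR_int (h : ST ν T u p t₀ E) : IntegrableOn (DR u) (Ioo t₀ T) := by
  have hsub : Ioo t₀ T ⊆ Ioo 0 T := Ioo_subset_Ioo_left h.t0.le
  refine integrable_toReal_of_lintegral_ne_top ?_ (ne_top_of_le_ne_top ENNReal.ofReal_ne_top h.e2)
  have h1 := J_aem (μ := volume) (S := univ) (HS.j_gw h.toHS) measurableSet_Ioo hsub
  simpa only [Measure.restrict_univ] using h1

lemma DR_eq (h : ST ν T u p t₀ E) {τ : ℝ} (hτ : τ ∈ Ico t₀ T) : ∫ x, gw (cw u τ) x = DR u τ := by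
  have hw : ∀ i, HF (cw u τ i) := fun i => h.toHS.cw_HF (h.mem0 hτ) i
  unfold DR
  rw [integral_eq_lintegral_of_nonneg_ae (Eventually.of_forall fun x => gw_nonneg _ x)
    (gw_int hw).aestronglyMeasurable]

lemma nw_leE (h : ST ν T u p t₀ E) {τ : ℝ} (hτ : τ ∈ Ico t₀ T) : ∫ x, nw (cw u τ) x ≤ E := by
  have hw : ∀ i, HF (cw u τ i) := fun i => h.toHS.cw_HF (h.mem0 hτ) i
  have i3 : Integrable (nw (cw u τ)) := by
    unfold nw
    exact integrable_finsetSum _ fun i _ => by simpa using sqB_int (hw i) BF_one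
  rw [integral_eq_lintegral_of_nonneg_ae (Eventually.of_forall fun x => nw_nonneg _ x)
    i3.aestronglyMeasurable]
  exact ENNReal.toReal_le_of_le_ofReal h.E0 (h.e1 τ hτ)

/-- The bound for the flux density against a fixed function. -/
lemma gF_K (h : ST ν T u p t₀ E) (hg : Continuous g) (h2 : ∫⁻ x, ENNReal.ofReal |g x| ^ 2 ≠ ⊤)
    (h4 : ∫⁻ x, ENNReal.ofReal (g x ^ 4) ≠ ⊤) : ∃ K : ℝ, 0 ≤ K ∧ ∀ τ ∈ Ico t₀ T,
      gF (cw u τ) (p τ) g ≠ ⊤ ∧ (gF (cw u τ) (p τ) g).toReal ≤ K * (1 + DR u τ) := by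
  obtain ⟨Cp, hCp, hp⟩ := press_bd
  obtain ⟨X, hX⟩ : ∃ X : ℝ≥0∞, X = 1 + ENNReal.ofReal E + (∫⁻ x, ENNReal.ofReal |g x| ^ 2)
    + ∫⁻ x, ENNReal.ofReal (g x ^ 4) := ⟨_, rfl⟩
  have hXt : X ≠ ⊤ := by
    rw [hX]
    exact ENNReal.add_ne_top.2 ⟨ENNReal.add_ne_top.2 ⟨ENNReal.add_ne_top.2 ⟨ENNReal.one_ne_top,
      ENNReal.ofReal_ne_top⟩, h2⟩, h4⟩
  have hX1 : 1 ≤ X := by rw [hX, add_assoc, add_assoc]; exact le_self_add
  have hXE : ENNReal.ofReal E ≤ X := by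
    rw [hX]
    exact (le_add_self.trans le_self_add).trans le_self_add
  have hX2 : ∫⁻ x, ENNReal.ofReal |g x| ^ 2 ≤ X := by
    rw [hX]
    exact le_add_self.trans le_self_add
  have hX4 : ∫⁻ x, ENNReal.ofReal (g x ^ 4) ≤ X := by
    rw [hX]
    exact le_add_self
  obtain ⟨K₀, hK₀⟩ : ∃ K₀ : ℝ≥0∞, K₀ = 108 + ENNReal.ofReal (2 * Cp) * 800 := ⟨_, rfl⟩
  have hK₀t : K₀ ≠ ⊤ := by
    rw [hK₀]
    exact ENNReal.add_ne_top.2 ⟨by norm_num, ENNReal.mul_ne_top ENNReal.ofReal_ne_top (by norm_num)⟩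
  refine ⟨K₀.toReal * X.toReal ^ 2, by positivity, ?_⟩
  intro τ hτ
  have h5 := gF_test hp h.toHS (h.mem0 hτ) hX1 ((h.e1 τ hτ).trans hXE) hg hX2 hX4
  rw [← hK₀] at h5
  have h6 := h.gw_fin hτ
  have h7 : K₀ * (X ^ 2 * (1 + ∫⁻ x, ENNReal.ofReal (gw (cw u τ) x))) ≠ ⊤ :=
    ENNReal.mul_ne_top hK₀t (ENNReal.mul_ne_top (ENNReal.pow_ne_top hXt)
      (ENNReal.add_ne_top.2 ⟨ENNReal.one_ne_top, h6⟩))
  refine ⟨ne_top_of_le_ne_top h7 h5, ?_⟩
  refine (ENNReal.toReal_mono h7 h5).trans (le_of_eq ?_)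
  rw [ENNReal.toReal_mul, ENNReal.toReal_mul, ENNReal.toReal_pow,
    ENNReal.toReal_add ENNReal.one_ne_top h6, ENNReal.toReal_one]
  unfold DR
  ring

/-- The distance between the values at two times. -/
theorem step_le (h : ST ν T u p t₀ E) (hΦ : BF Φ) (hΦ0 : ∀ x, 0 ≤ Φ x) (hΦ1 : ∀ x, Φ x ≤ 1)
    {N : Set V} (h0 : ∀ x ∈ N, Φ x = 0 ∧ ∀ k, H459R3.NS.pd k Φ x = 0) {a Q : ℝ} (hQ0 : 0 ≤ Q)
    (hQ : ∀ t ∈ Ioo a T, ∀ x ∉ N, ∀ i, |cw u t i x| ≤ Q)
    (hg : ∀ x, g x = ∑ k, |H459R3.NS.pd k Φ x|) (hgc : Continuous g)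
    (h2 : ∫⁻ x, ENNReal.ofReal |g x| ^ 2 ≠ ⊤) (h4 : ∫⁻ x, ENNReal.ofReal (g x ^ 4) ≠ ⊤) :
    ∃ C : ℝ, 0 ≤ C ∧ ∀ s t : ℝ, t₀ ≤ s → a < s → s ≤ t → t < T →
      ∫ x, (∑ i, (cw u t i x - cw u s i x) ^ 2) * Φ x
        ≤ C * ((1 + DR u s) * (t - s) + ∫ τ in Ioc s t, DR u τ) := by
  obtain ⟨K, hK, hKb⟩ := gF_K h hgc h2 h4
  have hν := h.hν
  have hE := h.E0
  obtain ⟨A, hA0, hA⟩ : ∃ A : ℝ, 0 ≤ A ∧ ∀ x k, |H459R3.NS.pd k Φ x| ≤ A := by
    have h1 : ∀ k, ∃ C : ℝ, 0 ≤ C ∧ ∀ x, |H459R3.NS.pd k Φ x| ≤ C := fun k => by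
      obtain ⟨C, hC, h1⟩ := UB.bd hΦ [k]
      exact ⟨C, hC, fun x => h1 0 (mem_univ _) x⟩
    choose C hC h1 using h1
    refine ⟨∑ k, C k, Finset.sum_nonneg fun k _ => hC k, fun x k => (h1 k x).trans ?_⟩
    exact Finset.single_le_sum (f := C) (fun i _ => hC i) (Finset.mem_univ k)
  obtain ⟨A₂, hA₂0, hA₂⟩ : ∃ A₂ : ℝ, 0 ≤ A₂ ∧ ∀ x, |lp Φ x| ≤ A₂ := by
    have h1 : ∀ k, ∃ C : ℝ, 0 ≤ C ∧ ∀ x, |H459R3.NS.pd k (H459R3.NS.pd k Φ) x| ≤ C := fun k => by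
      obtain ⟨C, hC, h1⟩ := UB.bd hΦ [k, k]
      exact ⟨C, hC, fun x => h1 0 (mem_univ _) x⟩
    choose C hC h1 using h1
    refine ⟨∑ k, C k, Finset.sum_nonneg fun k _ => hC k, fun x => ?_⟩
    unfold OS.lp
    exact (Finset.abs_sum_le_sum_abs _ _).trans (Finset.sum_le_sum fun k _ => h1 k x)
  obtain ⟨C₁, hC₁⟩ : ∃ C₁ : ℝ, C₁ = 2 * ν + 1 + 2 * (ν * A ^ 2 + Q ^ 2) * E + Q * K := ⟨_, rfl⟩
  have hC₁0 : 0 ≤ C₁ := by rw [hC₁]; positivity
  obtain ⟨C₂, hC₂⟩ : ∃ C₂ : ℝ, C₂ = ν * (A₂ * E) + Q * K := ⟨_, rfl⟩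
  have hC₂0 : 0 ≤ C₂ := by rw [hC₂]; positivity
  refine ⟨C₂ + 2 * C₁, by positivity, ?_⟩
  intro s t hs has hst ht
  have hs0 : 0 < s := h.t0.trans_le hs
  have hsT : s < T := hst.trans_lt ht
  have hI : ∀ τ ∈ Icc s t, τ ∈ Ico t₀ T := fun τ hτ => ⟨hs.trans hτ.1, hτ.2.trans_lt ht⟩
  have hI0 : ∀ τ ∈ Icc s t, τ ∈ Ioo 0 T := fun τ hτ => h.mem0 (hI τ hτ)
  have hw : ∀ τ ∈ Icc s t, ∀ i, HF (cw u τ i) := fun τ hτ i => h.toHS.cw_HF (hI0 τ hτ) i
  have hsm : s ∈ Icc s t := ⟨le_rfl, hst⟩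
  have htm : t ∈ Icc s t := ⟨hst, le_rfl⟩
  have hG : ∀ i, HF fun x => cw u s i x * Φ x := fun i => HF.mulB (hw s hsm i) hΦ
  have hDR : IntegrableOn (DR u) (Ioc s t) := (DR_int h).mono_set fun τ hτ =>
    ⟨lt_of_le_of_lt hs hτ.1, hτ.2.trans_lt ht⟩
  have hc1 : IntegrableOn (fun _ : ℝ => 1 + DR u s) (Ioc s t) := by
    refine integrableOn_const ?_ ?_
    · rw [Real.volume_Ioc]
      exact ENNReal.ofReal_ne_top
    · exact enorm_ne_top
  -- the majorant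
  have hmaj : ∫ τ in Ioc s t, (1 + DR u s + DR u τ)
      = (1 + DR u s) * (t - s) + ∫ τ in Ioc s t, DR u τ := by
    rw [integral_add hc1 hDR, setIntegral_const]
    simp only [Measure.real, Real.volume_Ioc]
    rw [ENNReal.toReal_ofReal (by linarith), smul_eq_mul]
    ring
  have hmi : IntegrableOn (fun τ => 1 + DR u s + DR u τ) (Ioc s t) := hc1.add hDR
  -- the local energy
  have e1 := wid h.toHS hs0 hst ht (Ψ := fun _ => Φ) (J_const hΦ.sm) (UB_const hΦ) (by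
    have : (fun (τ : ℝ) (x : V) => deriv (fun _ : ℝ => Φ x) τ) = fun _ _ => 0 := by
      funext τ x
      simp
    rw [this]
    exact UB_zero _)
  have b1 : enW (cw u t) Φ ≤ enW (cw u s) Φ + C₂ * ∫ τ in Ioc s t, (1 + DR u s + DR u τ) := by
    rw [e1.2, ← integral_const_mul]
    refine add_le_add le_rfl (setIntegral_mono_on e1.1 (hmi.const_mul C₂) measurableSet_Ioc
      fun τ hτ => ?_)
    have hτ' : τ ∈ Icc s t := Ioc_subset_Icc_self hτ
    obtain ⟨k1, k2⟩ := hKb τ (hI τ hτ')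
    have k3 := ba_le (hw τ hτ') (h.toHS.p_HF (hI0 τ hτ')) hΦ hν.le hΦ0 h0
      (fun x hx i => hQ τ ⟨has.trans hτ.1, hτ.2.trans_lt ht⟩ x hx i) hA₂ hg hgc.measurable k1
    have k4 : enW (cw u τ) (fun x => deriv (fun _ : ℝ => Φ x) τ) = 0 := by
      unfold enW
      simp
    rw [k4, add_zero]
    have k5 := mul_le_mul_of_nonneg_left (nw_leE h (hI τ hτ')) (by positivity : 0 ≤ ν * A₂)
    have k6 := mul_le_mul_of_nonneg_left k2 hQ0
    have n1 := DR_nonneg u τ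
    have n2 := DR_nonneg u s
    have k7 : 0 ≤ ν * (A₂ * E) * (DR u s + DR u τ) := by positivity
    have k8 : 0 ≤ Q * K * DR u s := by positivity
    rw [hC₂]
    nlinarith
  -- the pairing
  have e2 : ∀ i, _ := fun i => ip_id2 (F := fun τ => cw u τ i) (G := fun _ x => cw u s i x * Φ x)
    (F' := fun τ x => deriv (fun r => cw u r i x) τ) (G' := fun _ _ => 0)
    hs0 hst ht (h.toHS.ju i) (J_const (hG i).sm)
    ((h.toHS.ju i).dt) (J_const contDiff_const) (h.toHS.uu s t hs0 ht i) (UF_const (hG i))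
    ((h.toHS.tdv_UF hs0 ht i).congr fun τ hτ => by
      funext x
      exact h.toHS.mom i τ (hI0 τ hτ) x) (UF_zero _) (fun τ _ x => rfl) (fun τ _ x => by simp)
  have b2 : |∑ i, (ip (cw u t i) (fun x => cw u s i x * Φ x)
      - ip (cw u s i) (fun x => cw u s i x * Φ x))|
      ≤ C₁ * ∫ τ in Ioc s t, (1 + DR u s + DR u τ) := by
    have e3 : ∑ i, (ip (cw u t i) (fun x => cw u s i x * Φ x)
        - ip (cw u s i) (fun x => cw u s i x * Φ x))
        = ∫ τ in Ioc s t, ∑ i, (ip (cw u τ i) (fun _ => 0)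
          + ip (fun x => deriv (fun r => cw u r i x) τ) (fun x => cw u s i x * Φ x)) := by
      rw [integral_finsetSum _ fun i _ => (e2 i).1]
      refine Finset.sum_congr rfl fun i _ => ?_
      have := (e2 i).2
      linarith
    rw [e3, ← integral_const_mul]
    refine (abs_integral_le_integral_abs).trans ?_
    refine setIntegral_mono_on (integrable_finsetSum _ fun i _ => (e2 i).1).abs
      (hmi.const_mul C₁) measurableSet_Ioc fun τ hτ => ?_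
    have hτ' : τ ∈ Icc s t := Ioc_subset_Icc_self hτ
    obtain ⟨k1, k2⟩ := hKb τ (hI τ hτ')
    have hsaT : s ∈ Ioo a T := ⟨has, hsT⟩
    have hτaT : τ ∈ Ioo a T := ⟨has.trans hτ.1, hτ.2.trans_lt ht⟩
    have k3 := cr_le (ν := ν) (hw τ hτ') (hw s hsm) (h.toHS.div s (hI0 s hsm))
      (h.toHS.p_HF (hI0 τ hτ')) hΦ hν.le h0
      (fun x hx i => ⟨hQ τ hτaT x hx i, hQ s hsaT x hx i⟩)
      (fun x => by rw [abs_of_nonneg (hΦ0 x)]; exact hΦ1 x) hA hg hgc.measurable k1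
    have k4 : ∑ i, (ip (cw u τ i) (fun _ => 0)
          + ip (fun x => deriv (fun r => cw u r i x) τ) (fun x => cw u s i x * Φ x))
        = ∑ i, ip (fun x => ν * lp (cw u τ i) x - nl (cw u τ) i x - H459R3.NS.pd i (p τ) x)
          (fun x => cw u s i x * Φ x) := by
      refine Finset.sum_congr rfl fun i _ => ?_
      have z1 : ip (cw u τ i) (fun _ => 0) = 0 := by
        unfold ip
        simp
      have z2 : (fun x => deriv (fun r => cw u r i x) τ)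
          = fun x => ν * lp (cw u τ i) x - nl (cw u τ) i x - H459R3.NS.pd i (p τ) x := by
        funext x
        exact h.toHS.mom i τ (hI0 τ hτ') x
      rw [z1, z2, zero_add]
    rw [k4]
    refine k3.trans ?_
    rw [DR_eq h (hI τ hτ'), DR_eq h (hI s hsm)]
    have k5 := mul_le_mul_of_nonneg_left (nw_leE h (hI s hsm))
      (by positivity : 0 ≤ 2 * (ν * A ^ 2 + Q ^ 2))
    have k6 := mul_le_mul_of_nonneg_left k2 hQ0
    have n1 := DR_nonneg u τ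
    have n2 := DR_nonneg u s
    have k7 : 0 ≤ 2 * (ν * A ^ 2 + Q ^ 2) * E * (DR u s + DR u τ) := by positivity
    have k8 : 0 ≤ Q * K * DR u s := by positivity
    have k9 : 0 ≤ ν * DR u τ := by positivity
    have k10 : 0 ≤ ν * DR u s := by positivity
    rw [hC₁]
    nlinarith
  -- the square
  have e4 : ∫ x, (∑ i, (cw u t i x - cw u s i x) ^ 2) * Φ x
      = enW (cw u t) Φ - enW (cw u s) Φ - 2 * ∑ i, (ip (cw u t i) (fun x => cw u s i x * Φ x)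
        - ip (cw u s i) (fun x => cw u s i x * Φ x)) := by
    have i1 : ∀ i, Integrable fun x => cw u t i x ^ 2 * Φ x := fun i => sqB_int (hw t htm i) hΦ
    have i2 : ∀ i, Integrable fun x => cw u s i x ^ 2 * Φ x := fun i => sqB_int (hw s hsm i) hΦ
    have i3 : ∀ i, Integrable fun x => cw u t i x * (cw u s i x * Φ x) := fun i =>
      (hw t htm i).ip_int (hG i)
    have i4 : ∀ i, Integrable fun x => cw u s i x * (cw u s i x * Φ x) := fun i =>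
      (hw s hsm i).ip_int (hG i)
    have i5 : ∀ i, Integrable fun x => (cw u t i x ^ 2 * Φ x - cw u s i x ^ 2 * Φ x)
        - 2 * (cw u t i x * (cw u s i x * Φ x) - cw u s i x * (cw u s i x * Φ x)) := fun i =>
      ((i1 i).sub (i2 i)).sub (((i3 i).sub (i4 i)).const_mul 2)
    have i6 : ∀ i, Integrable fun x => cw u t i x ^ 2 * Φ x - cw u s i x ^ 2 * Φ x := fun i =>
      (i1 i).sub (i2 i)
    have i7 : ∀ i, Integrable fun x => cw u t i x * (cw u s i x * Φ x)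
        - cw u s i x * (cw u s i x * Φ x) := fun i => (i3 i).sub (i4 i)
    have e5 : ∫ x, (∑ i, (cw u t i x - cw u s i x) ^ 2) * Φ x
        = ∑ i, ∫ x, ((cw u t i x ^ 2 * Φ x - cw u s i x ^ 2 * Φ x)
        - 2 * (cw u t i x * (cw u s i x * Φ x) - cw u s i x * (cw u s i x * Φ x))) := by
      rw [← sum_int3 i5]
      congr 1
      funext x
      rw [Finset.sum_mul]
      refine Finset.sum_congr rfl fun i _ => ?_
      ring
    have e6 : enW (cw u t) Φ = ∑ i, ∫ x, cw u t i x ^ 2 * Φ x := by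
      unfold enW
      simp only [Finset.sum_mul]
      exact sum_int3 i1
    have e7 : enW (cw u s) Φ = ∑ i, ∫ x, cw u s i x ^ 2 * Φ x := by
      unfold enW
      simp only [Finset.sum_mul]
      exact sum_int3 i2
    rw [e5, e6, e7, Finset.mul_sum, ← Finset.sum_sub_distrib, ← Finset.sum_sub_distrib]
    refine Finset.sum_congr rfl fun i _ => ?_
    rw [integral_sub (i6 i) ((i7 i).const_mul 2), integral_sub (i1 i) (i2 i), integral_const_mul,
      integral_sub (i3 i) (i4 i)]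
    rfl
  rw [e4, ← hmaj]
  have b3 := (abs_le.1 b2).1
  linarith

end

end Pool.Agent.H305.EG
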