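import Pool.Agent.H305.EG.Re

/-!
Strong convergence at the end of the interval of time.
-/

set_option autoImplicit false

open MeasureTheory Set Metric Filter Topology
open scoped ContDiff ENNReal Manifold

namespace Pool.Agent.H305.EG

open H459R3.NS W221.NS Pool.Agent.V1183.PM Pool.Agent.H305.OS Pool.Agent.H305.SL Pool.Agent.H305.PL
  Pool.Agent.H305.EF
open Pool.Agent.H305.TI (it it_nil it_cons it_sm)
open Pool.Agent.W583.MD (sm_pd pd_mul')

/-- Constant outside a ball. -/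
def Cst (K : ℝ) (f : V → ℝ) : Prop := ContDiff ℝ ∞ f ∧ ∃ c : ℝ, ∀ x, K < ‖x‖ → f x = c

lemma Cst.pd0 {K : ℝ} {f : V → ℝ} (h : Cst K f) (j : Fin 3) {x : V} (hx : K < ‖x‖) :
    H459R3.NS.pd j f x = 0 := by
  obtain ⟨h1, c, hc⟩ := h
  have ho : {y : V | K < ‖y‖} ∈ 𝓝 x := (isOpen_lt continuous_const continuous_norm).mem_nhds hx
  have e : f =ᶠ[𝓝 x] fun _ => c := by
    filter_upwards [ho] with y hy
    exact hc y hy
  unfold H459R3.NS.pd
  rw [e.fderiv_eq]
  simp

lemma Cst.pd {K : ℝ} {f : V → ℝ} (h : Cst K f) (j : Fin 3) : Cst K (H459R3.NS.pd j f) :=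
  ⟨sm_pd h.1 j, 0, fun _ hx => h.pd0 j hx⟩

lemma Cst.it {K : ℝ} : ∀ (l : List (Fin 3)) {f : V → ℝ}, Cst K f → Cst K (TI.it l f) := by
  intro l
  induction l with
  | nil => intro f h; exact h
  | cons j l ih =>
    intro f h
    rw [it_cons]
    exact ih (h.pd j)

lemma Cst.bdd {K : ℝ} {f : V → ℝ} (h : Cst K f) : ∃ C : ℝ, 0 ≤ C ∧ ∀ x, |f x| ≤ C := by
  obtain ⟨h1, c, hc⟩ := h
  obtain ⟨B, hB⟩ := (isCompact_closedBall (0 : V) K).exists_bound_of_continuousOn
    h1.continuous.continuousOn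
  refine ⟨max |B| |c|, (abs_nonneg _).trans (le_max_left _ _), fun x => ?_⟩
  rcases le_or_gt ‖x‖ K with hx | hx
  · have := hB x (by rw [mem_closedBall_zero_iff]; exact hx)
    rw [Real.norm_eq_abs] at this
    exact (this.trans (le_abs_self _)).trans (le_max_left _ _)
  · rw [hc x hx]
    exact le_max_right _ _

lemma Cst.BF {K : ℝ} {f : V → ℝ} (h : Cst K f) : BF f := by
  refine ⟨fun _ _ => h.1, fun l => ?_⟩
  obtain ⟨C, hC, h1⟩ := (h.it l).bdd
  exact ⟨C, hC, fun _ _ => h1⟩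

/-- The cut-off function. -/
lemma exists_cut {S U : Set V} (hS : IsCompact S) (hU : IsOpen U) (hSU : S ⊆ U) {K : ℝ}
    (hK : U ⊆ ball 0 K) : ∃ (Φ : V → ℝ) (N : Set V), Cst K Φ ∧ IsOpen N ∧ S ⊆ N ∧ N ⊆ U ∧
      (∀ x, 0 ≤ Φ x) ∧ (∀ x, Φ x ≤ 1) ∧ (∀ x ∉ U, Φ x = 1) ∧
      ∀ x ∈ N, Φ x = 0 ∧ ∀ k, H459R3.NS.pd k Φ x = 0 := by
  obtain ⟨L, hL, hSL, hLU⟩ := exists_compact_between hS hU hSU
  have hd : Disjoint L Uᶜ := disjoint_compl_right_iff_subset.2 hLU
  obtain ⟨f, f0, f1, f01⟩ := exists_contMDiffMap_zero_one_of_isClosed (n := ⊤) 𝓘(ℝ, V)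
    hL.isClosed hU.isClosed_compl hd
  have hf : ContDiff ℝ ∞ f := f.contMDiff.contDiff
  refine ⟨f, interior L, ⟨hf, 1, fun x hx => f1 ?_⟩, isOpen_interior, hSL,
    interior_subset.trans hLU, fun x => (f01 x).1, fun x => (f01 x).2, fun x hx => f1 hx, ?_⟩
  · intro hxU
    have := hK hxU
    rw [mem_ball_zero_iff] at this
    linarith
  · intro x hx
    refine ⟨f0 (interior_subset hx), fun k => ?_⟩
    have e : (f : V → ℝ) =ᶠ[𝓝 x] fun _ => 0 := by
      filter_upwards [isOpen_interior.mem_nhds hx] with y hy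
      exact f0 (interior_subset hy)
    unfold H459R3.NS.pd
    rw [e.fderiv_eq]
    simp

section
variable {ν T t₀ E : ℝ} {u : ℝ → V → V} {p : ℝ → V → ℝ}

/-- Boundedness off a neighbourhood of the singular set. -/
lemma bd_off (h : HS ν T u p) (hT : 0 < T) {N : Set V} (hN : IsOpen N) (hr : ∀ x ∉ N, Rg T u x) :
    ∃ a Q : ℝ, a < T ∧ 0 ≤ Q ∧ ∀ t ∈ Ioo a T, ∀ x ∉ N, ∀ i, |cw u t i x| ≤ Q := by
  obtain ⟨K, d, M, hd, hK⟩ := bd_inf h hT
  have hc : IsCompact (closedBall (0 : V) K ∩ Nᶜ) :=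
    (isCompact_closedBall _ _).inter_right hN.isClosed_compl
  have key : ∃ δ Q : ℝ, 0 < δ ∧ ∀ t ∈ Ioo (T - δ) T, ∀ x ∈ closedBall (0 : V) K ∩ Nᶜ,
      ‖u t x‖ ≤ Q := by
    refine hc.induction_on (p := fun s => ∃ δ Q : ℝ, 0 < δ ∧ ∀ t ∈ Ioo (T - δ) T, ∀ x ∈ s,
      ‖u t x‖ ≤ Q) ⟨1, 0, one_pos, fun t _ x hx => absurd hx (notMem_empty x)⟩ ?_ ?_ ?_
    · rintro s t hst ⟨δ, Q, hδ, h1⟩
      exact ⟨δ, Q, hδ, fun τ hτ x hx => h1 τ hτ x (hst hx)⟩
    · rintro s t ⟨δ, Q, hδ, h1⟩ ⟨δ', Q', hδ', h2⟩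
      refine ⟨min δ δ', max Q Q', lt_min hδ hδ', fun τ hτ x hx => ?_⟩
      have m1 : min δ δ' ≤ δ := min_le_left _ _
      have m2 : min δ δ' ≤ δ' := min_le_right _ _
      rcases hx with hx | hx
      · exact (h1 τ ⟨by linarith [hτ.1], hτ.2⟩ x hx).trans (le_max_left _ _)
      · exact (h2 τ ⟨by linarith [hτ.1], hτ.2⟩ x hx).trans (le_max_right _ _)
    · intro x hx
      obtain ⟨δ, Q, hδ, h1⟩ := hr x hx.2
      exact ⟨ball x δ, mem_nhdsWithin_of_mem_nhds (ball_mem_nhds x hδ), δ, Q, hδ,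
        fun τ hτ y hy => h1 τ hτ y hy⟩
  obtain ⟨δ, Q, hδ, hQ⟩ := key
  refine ⟨T - min δ d, max 0 (max Q M), by have := lt_min hδ hd; linarith, le_max_left _ _, ?_⟩
  intro t ht x hx i
  have m1 : min δ d ≤ δ := min_le_left _ _
  have m2 : min δ d ≤ d := min_le_right _ _
  have h1 := norm_le_pi_norm (u t x) i
  rw [Real.norm_eq_abs] at h1
  refine h1.trans ?_
  rcases le_or_gt ‖x‖ K with hxK | hxK
  · exact (hQ t ⟨by linarith [ht.1], ht.2⟩ x ⟨by rw [mem_closedBall_zero_iff]; exact hxK, hx⟩).trans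
      ((le_max_left _ _).trans (le_max_right _ _))
  · exact (hK t ⟨by linarith [ht.1], ht.2⟩ x hxK.le).trans
      ((le_max_right _ _).trans (le_max_right _ _))

lemma DR_small (h : ST ν T u p t₀ E) {ε : ℝ} (hε : 0 < ε) : ∃ ζ : ℝ, 0 < ζ ∧ t₀ < T - ζ ∧
    (∀ s t : ℝ, T - ζ ≤ s → t < T → ∫ τ in Ioc s t, DR u τ ≤ ε) ∧
    ∫ τ in Ioo (T - ζ) T, DR u τ ≤ ε := by
  obtain ⟨ζ, hζ, -, hζt, hb⟩ := gd_small h hε
  have hsub : Ioo (T - ζ ^ 2) T ⊆ Ioo t₀ T := Ioo_subset_Ioo_left hζt.le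
  have hi : IntegrableOn (DR u) (Ioo (T - ζ ^ 2) T) := (DR_int h).mono_set hsub
  have h1 : ∫ τ in Ioo (T - ζ ^ 2) T, DR u τ ≤ ε := by
    unfold DR
    have hsub' : Ioo (T - ζ ^ 2) T ⊆ Ioo 0 T := hsub.trans (Ioo_subset_Ioo_left h.t0.le)
    have ha : AEMeasurable (fun τ => ∫⁻ x, ENNReal.ofReal (gw (cw u τ) x))
        (volume.restrict (Ioo (T - ζ ^ 2) T)) := by
      have h1 := J_aem (μ := volume) (S := univ) (HS.j_gw h.toHS) measurableSet_Ioo hsub'
      simpa only [Measure.restrict_univ] using h1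
    rw [integral_toReal ha (ae_restrict_of_forall_mem measurableSet_Ioo fun τ hτ =>
      (h.gw_fin ⟨(hsub hτ).1.le, hτ.2⟩).lt_top)]
    exact ENNReal.toReal_le_of_le_ofReal hε.le hb
  refine ⟨ζ ^ 2, by positivity, hζt, fun s t hs ht => ?_, h1⟩
  refine (setIntegral_mono_set hi (Eventually.of_forall fun _ => DR_nonneg u _)
    (show Ioc s t ⊆ Ioo (T - ζ ^ 2) T from fun τ hτ => ⟨hs.trans_lt hτ.1,
      hτ.2.trans_lt ht⟩).eventuallyLE).trans h1

/-- Good times. -/
lemma good_time (h : ST ν T u p t₀ E) {η a : ℝ} (hη : 0 < η) (ha : a < T) :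
    ∃ s ∈ Ioo a T, (T - s) * DR u s ≤ η := by
  obtain ⟨ζ, hζ, hζt, -, hb⟩ := DR_small h (ε := η / 4) (by positivity)
  obtain ⟨δ, hδ⟩ : ∃ δ : ℝ, δ = min ζ (T - a) := ⟨_, rfl⟩
  have hδ0 : 0 < δ := by
    rw [hδ]
    exact lt_min hζ (by linarith)
  have hδ1 : δ ≤ ζ := by rw [hδ]; exact min_le_left _ _
  have hδ2 : δ ≤ T - a := by rw [hδ]; exact min_le_right _ _
  by_contra hcon
  push Not at hcon
  have hsub : Ioo (T - δ) (T - δ / 2) ⊆ Ioo (T - ζ) T := fun τ hτ =>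
    ⟨by linarith [hτ.1], by linarith [hτ.2]⟩
  have hi : IntegrableOn (DR u) (Ioo (T - ζ) T) := (DR_int h).mono_set
    (Ioo_subset_Ioo_left hζt.le)
  have h1 : ∫ τ in Ioo (T - δ) (T - δ / 2), DR u τ ≤ η / 4 :=
    (setIntegral_mono_set hi (Eventually.of_forall fun _ => DR_nonneg u _) hsub.eventuallyLE).trans hb
  have h2 : ∫ _τ in Ioo (T - δ) (T - δ / 2), η / δ ≤ ∫ τ in Ioo (T - δ) (T - δ / 2), DR u τ := by
    refine setIntegral_mono_on ?_ (hi.mono_set hsub) measurableSet_Ioo fun τ hτ => ?_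
    · refine integrableOn_const ?_ ?_
      · rw [Real.volume_Ioo]
        exact ENNReal.ofReal_ne_top
      · exact enorm_ne_top
    · have h3 := hcon τ ⟨by linarith [hτ.1], by linarith [hτ.2]⟩
      have h4 : 0 < T - τ := by linarith [hτ.2]
      have h5 : T - τ ≤ δ := by linarith [hτ.1]
      rw [div_le_iff₀ hδ0]
      have h6 := mul_le_mul_of_nonneg_right h5 (DR_nonneg u τ)
      linarith
  rw [setIntegral_const] at h2
  simp only [Measure.real, Real.volume_Ioo] at h2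
  rw [ENNReal.toReal_ofReal (by linarith), smul_eq_mul] at h2
  have h3 : (T - δ / 2 - (T - δ)) * (η / δ) = η / 2 := by
    field_simp
    ring
  rw [h3] at h2
  linarith

/-- The square of the distance. -/
noncomputable def d2 (u : ℝ → V → V) (s t : ℝ) : ℝ := ∫ x, ∑ i, (cw u t i x - cw u s i x) ^ 2

lemma d2_int (h : HS ν T u p) {s t : ℝ} (hs : s ∈ Ioo 0 T) (ht : t ∈ Ioo 0 T) :
    Integrable fun x => ∑ i, (cw u t i x - cw u s i x) ^ 2 := by
  refine integrable_finsetSum _ fun i _ => ?_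
  have h1 : HF fun x => cw u t i x - cw u s i x := (h.cw_HF ht i).sub (h.cw_HF hs i)
  simpa using sqB_int h1 BF_one

lemma d2_tri (h : HS ν T u p) {r s t : ℝ} (hr : r ∈ Ioo 0 T) (hs : s ∈ Ioo 0 T) (ht : t ∈ Ioo 0 T) :
    d2 u s t ≤ 2 * d2 u r s + 2 * d2 u r t := by
  unfold d2
  have i1 := (d2_int h hr hs).const_mul 2
  have i2 := (d2_int h hr ht).const_mul 2
  rw [← integral_const_mul, ← integral_const_mul, ← integral_add i1 i2]
  refine integral_mono (d2_int h hs ht) (i1.add i2) fun x => ?_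
  simp only [Fin.sum_univ_three]
  nlinarith [sq_nonneg ((cw u t 0 x - cw u r 0 x) + (cw u s 0 x - cw u r 0 x)),
    sq_nonneg ((cw u t 1 x - cw u r 1 x) + (cw u s 1 x - cw u r 1 x)),
    sq_nonneg ((cw u t 2 x - cw u r 2 x) + (cw u s 2 x - cw u r 2 x))]

/-- Strong convergence. -/
theorem strong (h : HS ν T u p) (hT : 0 < T) (hG : ∀ b, ¬ Rg T u b → Gp T u b) :
    ∀ ε : ℝ, 0 < ε → ∃ δ : ℝ, 0 < δ ∧ ∀ s ∈ Ioo (T - δ) T, ∀ t ∈ Ioo (T - δ) T, d2 u s t ≤ ε := by
  intro ε hε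
  obtain ⟨t₀, ht₀, E, hST⟩ := ST_of h (a := T / 2) (by linarith) (by linarith)
  obtain ⟨K, d, M, hd, hK⟩ := bd_inf h hT
  obtain ⟨S, hSe⟩ : ∃ S : Set V, S = {x | ¬ Rg T u x} := ⟨_, rfl⟩
  have hSc : IsClosed S := by
    rw [hSe]
    exact (Rg_open T u).isClosed_compl
  have hSK : S ⊆ closedBall 0 K := by
    intro x hx
    rw [mem_closedBall_zero_iff]
    by_contra hxK
    rw [not_le] at hxK
    rw [hSe] at hx
    apply hx
    have ho : IsOpen {y : V | K < ‖y‖} := isOpen_lt continuous_const continuous_norm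
    obtain ⟨δ, hδ, hδs⟩ := Metric.isOpen_iff.1 ho x hxK
    refine ⟨min δ d, M, lt_min hδ hd, fun t ht y hy => hK t ?_ y ?_⟩
    · have := min_le_right δ d
      exact ⟨by linarith [ht.1], ht.2⟩
    · exact (hδs (ball_subset_ball (min_le_left _ _) hy)).le
  have hScp : IsCompact S := (isCompact_closedBall (0 : V) K).of_isClosed_subset hSc hSK
  have hSs : ∀ b ∈ S, ¬ Rg T u b := fun b hb => by rw [hSe] at hb; exact hb
  obtain ⟨U, hU, hSU, δ₁, hδ₁, hUE⟩ := near_small hST hScp hSs (fun b hb => hG b (hSs b hb))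
    (η := ε / 32) (by positivity)
  obtain ⟨U', hU'⟩ : ∃ U' : Set V, U' = U ∩ ball 0 (K + 1) := ⟨_, rfl⟩
  have hU'o : IsOpen U' := by rw [hU']; exact hU.inter isOpen_ball
  have hSU' : S ⊆ U' := by
    rw [hU']
    refine fun x hx => ⟨hSU hx, ?_⟩
    have := hSK hx
    rw [mem_closedBall_zero_iff] at this
    rw [mem_ball_zero_iff]
    linarith
  obtain ⟨Φ, N, hΦc, hN, hSN, -, hΦ0, hΦ1, hΦU, hΦN⟩ := exists_cut hScp hU'o hSU' (K := K + 1)
    (by rw [hU']; exact inter_subset_right)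
  have hΦ : BF Φ := hΦc.BF
  obtain ⟨a, Q, haT, hQ0, hQ⟩ := bd_off h hT hN (fun x hx => by
    by_contra hc
    exact hx (hSN (by rw [hSe]; exact hc)))
  obtain ⟨g, hg⟩ : ∃ g : V → ℝ, g = fun x => ∑ k, |H459R3.NS.pd k Φ x| := ⟨_, rfl⟩
  have hgc : Continuous g := by
    rw [hg]
    exact continuous_finsetSum _ fun k _ => ((hΦ.pd k).sm.continuous).abs
  have hg0 : ∀ x, K + 1 < ‖x‖ → g x = 0 := by
    intro x hx
    rw [hg]
    simp only [hΦc.pd0 _ hx]
    simp
  have hgcs : HasCompactSupport g := by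
    refine HasCompactSupport.of_support_subset_isCompact (isCompact_closedBall (0 : V) (K + 1)) ?_
    intro x hx
    rw [mem_closedBall_zero_iff]
    by_contra hc
    exact hx (hg0 x (not_le.1 hc))
  have hfin : ∀ n : ℕ, n ≠ 0 → ∫⁻ x, ENNReal.ofReal (g x ^ n) ≠ ⊤ := by
    intro n hn
    have hcs : HasCompactSupport fun x => g x ^ n := by
      refine hgcs.mono ?_
      intro x hx hc
      apply hx
      simp only
      rw [hc, zero_pow hn]
    have hi : Integrable fun x => g x ^ n := (hgc.pow n).integrable_of_hasCompactSupport hcs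
    exact hi.lintegral_lt_top.ne
  have hf2 : ∫⁻ x, ENNReal.ofReal |g x| ^ 2 ≠ ⊤ := by
    refine ne_top_of_le_ne_top (hfin 2 two_ne_zero) (le_of_eq ?_)
    apply lintegral_congr
    intro x
    rw [← ENNReal.ofReal_pow (abs_nonneg _), sq_abs]
  obtain ⟨C, hC, hstep⟩ := step_le hST hΦ hΦ0 hΦ1 hΦN hQ0 hQ (g := g) (fun x => by rw [hg]) hgc hf2
    (hfin 4 (by norm_num))
  -- the choice of the time
  obtain ⟨ζ, hζ, hζt, hζi, -⟩ := DR_small hST (ε := ε / (48 * (C + 1))) (by positivity)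
  obtain ⟨b, hb⟩ : ∃ b : ℝ, b = max (max a (T - ζ)) (max (T - δ₁) (T - ε / (48 * (C + 1)))) := ⟨_, rfl⟩
  have hbT : b < T := by
    rw [hb]
    refine max_lt (max_lt haT (by linarith)) (max_lt (by linarith) ?_)
    have : 0 < ε / (48 * (C + 1)) := by positivity
    linarith
  have hb1 : a ≤ b := by rw [hb]; exact (le_max_left _ _).trans (le_max_left _ _)
  have hb2 : T - ζ ≤ b := by rw [hb]; exact (le_max_right _ _).trans (le_max_left _ _)
  have hb3 : T - δ₁ ≤ b := by rw [hb]; exact (le_max_left _ _).trans (le_max_right _ _)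
  have hb4 : T - ε / (48 * (C + 1)) ≤ b := by rw [hb]; exact (le_max_right _ _).trans (le_max_right _ _)
  obtain ⟨s, hs, hsD⟩ := good_time hST (η := ε / (48 * (C + 1))) (by positivity) hbT
  have hst₀ : t₀ ≤ s := by linarith [hs.1]
  have hs0 : s ∈ Ioo 0 T := ⟨hST.t0.trans_le hst₀, hs.2⟩
  have key : ∀ t : ℝ, s ≤ t → t < T → d2 u s t ≤ ε / 4 := by
    intro t hst ht
    have ht0 : t ∈ Ioo 0 T := ⟨hs0.1.trans_le hst, ht⟩
    have h1 := hstep s t hst₀ (hb1.trans_lt hs.1) hst ht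
    have h2 := hζi s t (by linarith [hs.1]) ht
    have hD := DR_nonneg u s
    have h3 : (1 + DR u s) * (t - s) ≤ 2 * (ε / (48 * (C + 1))) := by
      have h4 : t - s ≤ T - s := by linarith
      have h5 : T - s ≤ ε / (48 * (C + 1)) := by linarith [hs.1]
      calc (1 + DR u s) * (t - s) ≤ (1 + DR u s) * (T - s) :=
            mul_le_mul_of_nonneg_left h4 (by positivity)
        _ = (T - s) + (T - s) * DR u s := by ring
        _ ≤ _ := by linarith
    have h4 : C * ((1 + DR u s) * (t - s) + ∫ τ in Ioc s t, DR u τ) ≤ ε / 16 := by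
      calc _ ≤ C * (3 * (ε / (48 * (C + 1)))) := mul_le_mul_of_nonneg_left (by linarith) hC
        _ ≤ (C + 1) * (3 * (ε / (48 * (C + 1)))) :=
            mul_le_mul_of_nonneg_right (by linarith) (by positivity)
        _ = ε / 16 := by
            field_simp
            ring
    have hUe : ∀ t ∈ Ioo (T - δ₁) T, t ∈ Ioo 0 T → ∫ x in U', nw (cw u t) x ≤ ε / 32 := by
      intro t ht ht0
      have h5 := hUE t ht
      have i3 : Integrable (nw (cw u t)) := by
        unfold nw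
        exact integrable_finsetSum _ fun i _ => by simpa using sqB_int (h.cw_HF ht0 i) BF_one
      rw [integral_eq_lintegral_of_nonneg_ae (Eventually.of_forall fun x => nw_nonneg _ x)
        i3.aestronglyMeasurable.restrict]
      refine ENNReal.toReal_le_of_le_ofReal (by positivity) (le_trans (lintegral_mono_set ?_) h5)
      rw [hU']
      exact inter_subset_left
    have h5 := hUe s ⟨by linarith [hs.1], hs.2⟩ hs0
    have h6 := hUe t ⟨by linarith [hs.1], ht⟩ ht0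
    have i0 := d2_int h hs0 ht0
    have hWs : ∀ i, HF fun x => cw u t i x - cw u s i x := fun i =>
      (h.cw_HF ht0 i).sub (h.cw_HF hs0 i)
    have i1 : Integrable fun x => (∑ i, (cw u t i x - cw u s i x) ^ 2) * Φ x := by
      simp only [Finset.sum_mul]
      exact integrable_finsetSum _ fun i _ => sqB_int (hWs i) hΦ
    have hni : ∀ r ∈ Ioo 0 T, Integrable (nw (cw u r)) := by
      intro r hr
      unfold nw
      exact integrable_finsetSum _ fun i _ => by simpa using sqB_int (h.cw_HF hr i) BF_one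
    have i2 : Integrable fun x => U'.indicator (fun x => 2 * nw (cw u t) x + 2 * nw (cw u s) x) x :=
      (((hni t ht0).const_mul 2).add ((hni s hs0).const_mul 2)).indicator hU'o.measurableSet
    unfold d2
    calc ∫ x, ∑ i, (cw u t i x - cw u s i x) ^ 2
        ≤ ∫ x, ((∑ i, (cw u t i x - cw u s i x) ^ 2) * Φ x
          + U'.indicator (fun x => 2 * nw (cw u t) x + 2 * nw (cw u s) x) x) := by
          refine integral_mono i0 (i1.add i2) fun x => ?_
          have n0 : 0 ≤ ∑ i, (cw u t i x - cw u s i x) ^ 2 := Finset.sum_nonneg fun _ _ => sq_nonneg _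
          by_cases hx : x ∈ U'
          · simp only [indicator_of_mem hx]
            have h7 : ∑ i, (cw u t i x - cw u s i x) ^ 2 ≤ 2 * nw (cw u t) x + 2 * nw (cw u s) x := by
              unfold nw
              simp only [Fin.sum_univ_three]
              nlinarith [sq_nonneg (cw u t 0 x + cw u s 0 x), sq_nonneg (cw u t 1 x + cw u s 1 x),
                sq_nonneg (cw u t 2 x + cw u s 2 x)]
            have h8 : 0 ≤ (∑ i, (cw u t i x - cw u s i x) ^ 2) * Φ x := mul_nonneg n0 (hΦ0 x)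
            linarith
          · simp only [indicator_of_notMem hx, hΦU x hx, mul_one, add_zero]
            exact le_rfl
      _ = (∫ x, (∑ i, (cw u t i x - cw u s i x) ^ 2) * Φ x)
          + ((2 * ∫ x in U', nw (cw u t) x) + 2 * ∫ x in U', nw (cw u s) x) := by
          rw [integral_add i1 i2, integral_indicator hU'o.measurableSet,
            integral_add ((hni t ht0).integrableOn.const_mul 2) ((hni s hs0).integrableOn.const_mul 2),
            integral_const_mul, integral_const_mul]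
      _ ≤ ε / 16 + (2 * (ε / 32) + 2 * (ε / 32)) := by linarith
      _ ≤ _ := by linarith
  refine ⟨T - s, by linarith [hs.2], fun s' hs' t' ht' => ?_⟩
  have m1 : s < s' := by linarith [hs'.1]
  have m2 : s < t' := by linarith [ht'.1]
  have h1 := d2_tri h hs0 ⟨hs0.1.trans m1, hs'.2⟩ ⟨hs0.1.trans m2, ht'.2⟩
  have h2 := key s' m1.le hs'.2
  have h3 := key t' m2.le ht'.2
  linarith

end

end Pool.Agent.H305.EG
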