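import Pool.Agent.H305.EG.Rf
import Pool.Agent.H305.EG.Qc

/-!
Bounded inflow in a range of scales implies bounded scaled energy.
-/

set_option autoImplicit false

open MeasureTheory Set Metric Filter Topology
open scoped ContDiff ENNReal

namespace Pool.Agent.H305.EG

open H459R3.NS W221.NS Pool.Agent.V1183.PM Pool.Agent.H305.OS Pool.Agent.H305.SL Pool.Agent.H305.PL
  Pool.Agent.H305.EF

/-- Bounded inflow implies bounded scaled energy. -/
theorem gp1 {T : ℝ} {u : ℝ → V → V} {p : ℝ → V → ℝ} (h : HS 1 T u p) (hT : 0 < T) (b : V) (K : ℝ)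
    (hyp : ∀ R₀ : ℝ, 0 < R₀ → ∃ (m : ℕ) (f : Fin m → V), 2 ≤ m ∧
      (∀ i j, ∑ l, f i l * f j l = if i = j then 1 else 0) ∧ ∃ R ∈ Ioo 0 R₀,
      CQ 1 T u p (R ^ 7) R f b K) : Gp T u b := by
  obtain ⟨t₀, ht₀, E, hST⟩ := ST_of h (a := T / 2) (by linarith) (by linarith)
  obtain ⟨c₁, hc₁, hc₁1, hsm⟩ := smQ hT ht₀.2 hST.E0 (θ := 1) one_pos
  obtain ⟨K', hK'⟩ : ∃ K' : ℝ, K' = Real.exp (5 / 16) * (1 + 6144 * max K 0) := ⟨_, rfl⟩
  have hK0 : 0 ≤ max K 0 := le_max_right _ _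
  have hK'0 : 0 ≤ K' := by rw [hK']; positivity
  refine ⟨2 * K', ?_⟩
  intro r₀ hr₀
  obtain ⟨m, f, hm, hf, R, hR, hin⟩ := hyp (min c₁ r₀) (by positivity)
  have hR0 := hR.1
  have hRc : R ≤ c₁ := hR.2.le.trans (min_le_left _ _)
  have hRr : R < r₀ := hR.2.trans_le (min_le_right _ _)
  have hR1 : R ≤ 1 := hRc.trans hc₁1
  obtain ⟨r, hr⟩ : ∃ r : ℝ, r = c₁ * R ^ 6 := ⟨_, rfl⟩
  have hr0 : 0 < r := by rw [hr]; positivity
  have hr7 : R ^ 7 ≤ r := by
    rw [hr]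
    calc R ^ 7 = R * R ^ 6 := by ring
      _ ≤ _ := mul_le_mul_of_nonneg_right hRc (by positivity)
  have hrR : r ≤ R := by
    rw [hr]
    have h1 : R ^ 6 ≤ R := by
      calc R ^ 6 ≤ R ^ 1 := pow_le_pow_of_le_one hR0.le hR1 (by norm_num)
        _ = R := pow_one R
    calc c₁ * R ^ 6 ≤ 1 * R := mul_le_mul hc₁1 h1 (by positivity) zero_le_one
      _ = R := one_mul R
  obtain ⟨M, I, hM, hI, hMI⟩ := exists_MI (by omega : 0 < m) hf
  have hrot := ST_uM hST hM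
  have hcard : I.card ≤ 3 := by
    have h1 := Finset.card_le_univ I
    rwa [Fintype.card_fin] at h1
  obtain ⟨n, hn⟩ : ∃ n, I.card = n + 1 := ⟨I.card - 1, by omega⟩
  have hn1 : 1 ≤ n := by omega
  have hq : ∀ y : V, qI I (lm M b) y = dsf f b (lm M y) := by
    intro y
    have h1 := hMI (fun l => lm M y l - b l)
    unfold dsf
    rw [← h1]
    unfold qI
    refine Finset.sum_congr rfl fun i _ => ?_
    have h2 : lm M (fun l => lm M y l - b l) = fun l => y l - lm M b l := by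
      have h3 : (fun l => lm M y l - b l) = lm M y - b := rfl
      rw [h3, map_sub, hM.lm_lm]
      rfl
    rw [h2]
  have hnb : ∀ ρ : ℝ, 0 < ρ → nb I (lm M b) ρ = (lm M) ⁻¹' (nbh f b ρ) := by
    intro ρ hρ
    ext y
    show √(qI I (lm M b) y) < ρ ↔ dsf f b (lm M y) < ρ ^ 2
    rw [Real.sqrt_lt' hρ, hq]
  have hbn : ball b (r / 2) ⊆ nbh f b r := by
    intro x hx
    show dsf f b x < r ^ 2
    have h1 := hMI (fun l => x l - b l)
    have h2 : ∑ i ∈ I, lm M (fun l => x l - b l) i ^ 2 ≤ ∑ i, lm M (fun l => x l - b l) i ^ 2 :=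
      Finset.sum_le_sum_of_subset_of_nonneg (Finset.subset_univ I) fun _ _ _ => sq_nonneg _
    rw [hM.sum_sq] at h2
    have h3 : dsf f b x ≤ ∑ i, (x i - b i) ^ 2 := by
      unfold dsf
      rw [← h1]
      exact h2
    have h4 : ∀ i, (x i - b i) ^ 2 < (r / 2) ^ 2 := by
      intro i
      rw [mem_ball] at hx
      have h5 := (dist_le_pi_dist x b i).trans_lt hx
      rw [Real.dist_eq] at h5
      rw [← sq_abs]
      exact pow_lt_pow_left₀ h5 (abs_nonneg _) two_ne_zero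
    have h5 : ∑ i, (x i - b i) ^ 2 < 3 * (r / 2) ^ 2 := by
      simp only [Fin.sum_univ_three]
      linarith [h4 0, h4 1, h4 2]
    nlinarith
  have key := hsm (uM M u) (pM M p) hrot I n (lm M b) R (R ^ 7) (max K 0) hn hn1 hR0 hR1
    (by positivity) hK0 (by
      intro ρ hρ t t' h1 h2 h3 h4
      have hρ0 : 0 < ρ := lt_trans (by positivity) hρ.1
      have h10 : 0 < t := hST.t0.trans_le h1
      rcases eq_or_lt_of_le h2 with h5 | h5
      · rw [h5, Ioc_self]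
        simp only [Measure.restrict_empty, integral_zero_measure]
        positivity
      · have h6 := hin ρ hρ t t' h10 h5 h3 (by rw [one_mul]; exact h4)
        have h7 : K * ρ ≤ max K 0 * ρ := mul_le_mul_of_nonneg_right (le_max_left _ _) hρ0.le
        refine le_trans (le_of_eq ?_) (h6.trans h7)
        refine setIntegral_congr_fun measurableSet_Ioc fun τ hτ => ?_
        have hτ0 : τ ∈ Ioo 0 T := ⟨h10.trans hτ.1, hτ.2.trans_lt h3⟩
        have hF := gF_fin hrot.toHS hτ0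
        rw [← net_uM h hM hτ0, Ah_net (fun i => hrot.toHS.cw_HF hτ0 i) (hrot.div τ hτ0)
          (hrot.toHS.p_HF hτ0) hρ0 hF]
        unfold net
        simp only [hq]) r hr0 hr7 hr.le
  refine ⟨r / 2, ⟨by positivity, by linarith⟩, fun s hs hs0 => ?_⟩
  have hsr : s ∈ Ico (T - r ^ 2) T := ⟨by nlinarith [hs.1, pow_pos hr0 2], hs.2⟩
  obtain ⟨k1, k2⟩ := key s hsr
  have k3 := nw_lowP (x₀ := lm M b) hrot hn ⟨k1, hs.2⟩ hr0 k2
  unfold eB
  refine (lintegral_mono_set hbn).trans ?_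
  rw [hnb r hr0] at k3
  simp only [nw_uM hM] at k3
  rw [hM.mp.setLIntegral_comp_preimage_emb (lm_emb hM)
    (fun x => ENNReal.ofReal (nw (cw u s) x))] at k3
  refine k3.trans (ENNReal.ofReal_le_ofReal (le_of_eq ?_))
  rw [hK']
  ring

lemma Rg_k {ν T : ℝ} (hν : 0 < ν) {u : ℝ → V → V} {b : V} (h : Rg (ν * T) (us ν⁻¹ u) b) :
    Rg T u b := by
  obtain ⟨δ, Q, hδ, hQ⟩ := h
  refine ⟨min δ (δ / ν), ν * Q, by positivity, fun t ht x hx => ?_⟩
  have m1 : min δ (δ / ν) ≤ δ := min_le_left _ _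
  have m2 : min δ (δ / ν) ≤ δ / ν := min_le_right _ _
  have h1 : ν * t ∈ Ioo (ν * T - δ) (ν * T) := by
    constructor
    · have h3 : T - δ / ν < t := by linarith [ht.1]
      have h4 := mul_lt_mul_of_pos_left h3 hν
      have e : ν * (T - δ / ν) = ν * T - δ := by field_simp
      linarith
    · exact mul_lt_mul_of_pos_left ht.2 hν
  have h2 := hQ (ν * t) h1 x (ball_subset_ball m1 hx)
  have e : us ν⁻¹ u (ν * t) x = ν⁻¹ • u t x := by
    funext i
    unfold us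
    rw [← mul_assoc, inv_mul_cancel₀ hν.ne', one_mul]
    rfl
  rw [e, norm_smul, Real.norm_eq_abs, abs_of_pos (inv_pos.2 hν), inv_mul_le_iff₀ hν] at h2
  exact h2

/-- The theorem for the viscosity `ν`. -/
theorem loss {ν T : ℝ} {u : ℝ → V → V} {p : ℝ → V → ℝ} (h : HS ν T u p) (hT : 0 < T)
    (hno : ¬ ∀ ε : ℝ, 0 < ε → ∃ δ : ℝ, 0 < δ ∧ ∀ s ∈ Ioo (T - δ) T, ∀ t ∈ Ioo (T - δ) T,
      d2 u s t ≤ ε) :
    ∃ b : V, ¬ Rg T u b ∧
      (∀ K : ℝ, ∃ r₀ : ℝ, 0 < r₀ ∧ ∀ r ∈ Ioo 0 r₀, ∃ t ∈ Ico (T - r ^ 2 / ν) T, 0 < t ∧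
        ENNReal.ofReal (K * r) < eB (cw u t) b r) ∧
      ∀ K : ℝ, ∃ R₀ : ℝ, 0 < R₀ ∧ ∀ (m : ℕ) (f : Fin m → V), 2 ≤ m →
        (∀ i j, ∑ l, f i l * f j l = if i = j then 1 else 0) → ∀ R ∈ Ioo 0 R₀,
        ¬ CQ ν T u p (R ^ 7) R f b K := by
  have hν := h.hν
  have h1 := HS_k h
  have hTν : 0 < ν * T := by positivity
  have hd : ∀ s t : ℝ, d2 (us ν⁻¹ u) (ν * s) (ν * t) = ν⁻¹ ^ 2 * d2 u s t := by
    intro s t
    unfold d2
    rw [← integral_const_mul]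
    congr 1
    funext x
    rw [Finset.mul_sum]
    refine Finset.sum_congr rfl fun i _ => ?_
    unfold cw us
    rw [← mul_assoc, ← mul_assoc, inv_mul_cancel₀ hν.ne', one_mul, one_mul]
    ring
  have hex : ∃ b, ¬ Rg (ν * T) (us ν⁻¹ u) b ∧ ¬ Gp (ν * T) (us ν⁻¹ u) b := by
    by_contra hcon
    push Not at hcon
    apply hno
    intro ε hε
    obtain ⟨δ, hδ, hs⟩ := strong h1 hTν hcon (ν⁻¹ ^ 2 * ε) (by positivity)
    have key : ∀ s ∈ Ioo (T - δ / ν) T, ν * s ∈ Ioo (ν * T - δ) (ν * T) := by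
      intro s hs
      constructor
      · have h4 := mul_lt_mul_of_pos_left hs.1 hν
        have e : ν * (T - δ / ν) = ν * T - δ := by field_simp
        linarith
      · exact mul_lt_mul_of_pos_left hs.2 hν
    refine ⟨δ / ν, by positivity, fun s hs' t ht' => ?_⟩
    have h2 := hs (ν * s) (key s hs') (ν * t) (key t ht')
    rw [hd] at h2
    exact le_of_mul_le_mul_left h2 (by positivity)
  obtain ⟨b, hb1, hb2⟩ := hex
  refine ⟨b, ?_, ?_, ?_⟩
  · intro hc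
    apply hb1
    obtain ⟨δ, Q, hδ, hQ⟩ := hc
    refine ⟨min δ (δ * ν), ν⁻¹ * Q, by positivity, fun t ht x hx => ?_⟩
    have m1 : min δ (δ * ν) ≤ δ := min_le_left _ _
    have m2 : min δ (δ * ν) ≤ δ * ν := min_le_right _ _
    have h2 : ν⁻¹ * t ∈ Ioo (T - δ) T := by
      constructor
      · have h3 : ν * T - δ * ν < t := by linarith [ht.1]
        rw [lt_inv_mul_iff₀ hν]
        linarith
      · rw [inv_mul_lt_iff₀ hν]
        exact ht.2
    have h3 := hQ (ν⁻¹ * t) h2 x (ball_subset_ball m1 hx)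
    have e : us ν⁻¹ u t x = ν⁻¹ • u (ν⁻¹ * t) x := by
      funext i
      rfl
    rw [e, norm_smul, Real.norm_eq_abs, abs_of_pos (inv_pos.2 hν)]
    exact mul_le_mul_of_nonneg_left h3 (by positivity)
  · intro K
    unfold Gp at hb2
    push Not at hb2
    obtain ⟨r₀, hr₀, h2⟩ := hb2 (ν⁻¹ ^ 2 * K)
    refine ⟨r₀, hr₀, fun r hr => ?_⟩
    obtain ⟨s, hs, hs0, h3⟩ := h2 r hr
    refine ⟨ν⁻¹ * s, ⟨?_, ?_⟩, by positivity, ?_⟩
    · rw [le_inv_mul_iff₀ hν]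
      have e : ν * (T - r ^ 2 / ν) = ν * T - r ^ 2 := by field_simp
      linarith [hs.1]
    · rw [inv_mul_lt_iff₀ hν]
      exact hs.2
    · have e : eB (cw (us ν⁻¹ u) s) b r = ENNReal.ofReal (ν⁻¹ ^ 2) * eB (cw u (ν⁻¹ * s)) b r := by
        unfold eB
        rw [← lintegral_const_mul' _ _ ENNReal.ofReal_ne_top]
        refine lintegral_congr fun x => ?_
        rw [← ENNReal.ofReal_mul (by positivity)]
        congr 1
        unfold nw
        rw [Finset.mul_sum]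
        refine Finset.sum_congr rfl fun i _ => ?_
        unfold cw us
        ring
      rw [e, mul_assoc, ENNReal.ofReal_mul (by positivity)] at h3
      exact lt_of_mul_lt_mul_left' h3
  · intro K
    by_contra hcon
    push Not at hcon
    apply hb2
    refine gp1 h1 hTν b (ν⁻¹ ^ 2 * K) fun R₀ hR₀ => ?_
    obtain ⟨m, f, hm, hf, R, hR, hCQ⟩ := hcon R₀ hR₀
    refine ⟨m, f, hm, hf, R, hR, ?_⟩
    intro ρ hρ t t' h2 h3 h4 h5
    have hρ0 : 0 < ρ := lt_trans (pow_pos hR.1 7) hρ.1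
    obtain ⟨W, hW⟩ : ∃ W : V → ℝ, W = fun x => max (1 - dsf f b x / ρ ^ 2) 0 := ⟨_, rfl⟩
    rw [← hW]
    have e1 : ∫ τ in Ioc t t', net 1 (cw (us ν⁻¹ u) τ) (ps ν⁻¹ p τ) W
        = ∫ τ in Ioc t t', ν⁻¹ ^ 3 * net ν (cw u (ν⁻¹ * τ)) (p (ν⁻¹ * τ)) W := by
      refine setIntegral_congr_fun measurableSet_Ioc fun τ hτ => ?_
      exact net_k h ⟨h2.trans hτ.1, hτ.2.trans_lt h4⟩ _
    have e2 := int_k hν (fun τ => net ν (cw u τ) (p τ) W) h3.le
    rw [e1, integral_const_mul, e2]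
    have h6 := hCQ ρ hρ (ν⁻¹ * t) (ν⁻¹ * t') (by positivity)
      (mul_lt_mul_of_pos_left h3 (by positivity)) (by rw [inv_mul_lt_iff₀ hν]; exact h4) (by
        have : ν * (T - ν⁻¹ * t) = 1 * (ν * T - t) := by field_simp
        rw [this]
        exact h5)
    rw [← hW] at h6
    calc ν⁻¹ ^ 3 * (ν * ∫ τ in Ioc (ν⁻¹ * t) (ν⁻¹ * t'), net ν (cw u τ) (p τ) W)
        ≤ ν⁻¹ ^ 3 * (ν * (K * ρ)) := by gcongr
      _ = ν⁻¹ ^ 2 * K * ρ := by field_simp

end Pool.Agent.H305.EG
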