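import Pool.Agent.H305.EG.Rg

/-!
The energy equality up to the time `T`.
-/

set_option autoImplicit false

open MeasureTheory Set Metric Filter Topology
open scoped ContDiff ENNReal

namespace Pool.Agent.H305.EG

open H459R3.NS W221.NS Pool.Agent.V1183.PM Pool.Agent.H305.OS Pool.Agent.H305.SL Pool.Agent.H305.PL
  Pool.Agent.H305.EF

lemma nrm2 {f : V → ℝ} (hf : MemLp f 2 (volume : Measure V)) : ‖hf.toLp f‖ ^ 2 = ∫ x, f x ^ 2 := by
  have h0 : 0 ≤ ∫ x, f x ^ 2 := integral_nonneg fun x => sq_nonneg _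
  rw [Lp.norm_toLp, hf.eLpNorm_eq_integral_rpow_norm two_ne_zero ENNReal.ofNat_ne_top]
  have e : ∫ x, ‖f x‖ ^ (ENNReal.toReal 2) = ∫ x, f x ^ 2 := by
    congr 1
    funext x
    rw [ENNReal.toReal_ofNat, Real.rpow_ofNat, Real.norm_eq_abs, sq_abs]
  rw [e, ENNReal.toReal_ofReal (by positivity), ENNReal.toReal_ofNat, ← Real.rpow_natCast,
    ← Real.rpow_mul h0]
  norm_num

lemma HF.mem2 {f : V → ℝ} (hf : HF f) : MemLp f 2 (volume : Measure V) := by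
  rw [memLp_two_iff_integrable_sq hf.sm.continuous.aestronglyMeasurable]
  refine (hf.ip_int hf).congr (Eventually.of_forall fun x => ?_)
  simp only
  ring

section
variable {ν T : ℝ} {u : ℝ → V → V} {p : ℝ → V → ℝ}

lemma DR_N2 (h : HS ν T u p) {τ : ℝ} (hτ : τ ∈ Ioo 0 T) : N2 (cw u τ) = DR u τ := by
  have h1 := gw_N2 fun i => h.cw_HF hτ i
  have h2 : 0 ≤ N2 (cw u τ) := by
    unfold N2 n1
    exact Finset.sum_nonneg fun m _ => Finset.sum_nonneg fun i _ => ip_self_nonneg _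
  unfold DR
  rw [h1, ENNReal.toReal_ofReal h2]

/-- The energy identity, and integrability of the dissipation. -/
lemma en_DR (h : HS ν T u p) {s : ℝ} (hs : s ∈ Ioo 0 T) :
    IntegrableOn (DR u) (Icc s T) ∧ ∀ t : ℝ, s ≤ t → t < T →
      en u t = en u s - 2 * ν * ∫ τ in Ioc s t, DR u τ := by
  have hT : 0 < T := hs.1.trans hs.2
  have hν := h.hν
  have e1 : ∀ t : ℝ, s ≤ t → t < T → IntegrableOn (DR u) (Ioc s t) ∧
      en u t = en u s - 2 * ν * ∫ τ in Ioc s t, DR u τ := by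
    intro t hst ht
    have h1 := h.energy hs.1 hst ht
    have e2 : ∀ τ ∈ Ioc s t, -(2 * ν) * N2 (cw u τ) = -(2 * ν) * DR u τ := fun τ hτ => by
      rw [DR_N2 h ⟨hs.1.trans hτ.1, hτ.2.trans_lt ht⟩]
    have h2 : IntegrableOn (fun τ => -(2 * ν) * DR u τ) (Ioc s t) :=
      h1.1.congr_fun e2 measurableSet_Ioc
    refine ⟨?_, ?_⟩
    · have h3 := h2.const_mul (-(2 * ν))⁻¹
      refine h3.congr (Eventually.of_forall fun τ => ?_)
      simp only
      rw [← mul_assoc, inv_mul_cancel₀ (by linarith), one_mul]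
    · rw [h1.2, setIntegral_congr_fun measurableSet_Ioc e2, integral_const_mul]
      ring
  refine ⟨?_, fun t hst ht => (e1 t hst ht).2⟩
  obtain ⟨t₀, ht₀, E, hST⟩ := ST_of h (a := s) hs.1 hs.2
  have h1 := (e1 t₀ ht₀.1.le ht₀.2).1
  have h2 := DR_int hST
  have h3 : IntegrableOn (DR u) (Ioc s t₀ ∪ Ioo t₀ T) := h1.union h2
  have e : Ioc s t₀ ∪ Ioo t₀ T = Ioo s T := Ioc_union_Ioo_eq_Ioo ht₀.1.le ht₀.2
  rw [e] at h3
  rwa [integrableOn_Icc_iff_integrableOn_Ioo]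

/-- Strong convergence gives the energy equality up to the time `T`. -/
theorem eneq (h : HS ν T u p) (hT : 0 < T)
    (hc : ∀ ε : ℝ, 0 < ε → ∃ δ : ℝ, 0 < δ ∧ ∀ s ∈ Ioo (T - δ) T, ∀ t ∈ Ioo (T - δ) T,
      d2 u s t ≤ ε) :
    ∃ v : V → V, (∀ i, Measurable fun x => v x i) ∧ (∀ i, Integrable fun x => v x i ^ 2) ∧
      Tendsto (fun t => ∫ x, ∑ i, (cw u t i x - v x i) ^ 2) (𝓝[<] T) (𝓝 0) ∧
      ∀ s ∈ Ioo 0 T, (∫ x, ∑ i, v x i ^ 2) + 2 * ν * (∫ τ in Ioc s T, DR u τ) = en u s := by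
  classical
  have hne : (𝓝[<] T).NeBot := inferInstance
  have hev : ∀ᶠ t in 𝓝[<] T, t ∈ Ioo 0 T := Ioo_mem_nhdsLT hT
  have hm : ∀ t : ℝ, t ∈ Ioo 0 T → ∀ i, MemLp (cw u t i) 2 (volume : Measure V) := fun t ht i =>
    HF.mem2 (h.cw_HF ht i)
  have hF : ∀ i, ∃ F : ℝ → Lp ℝ 2 (volume : Measure V), ∀ t : ℝ, ∀ ht : t ∈ Ioo 0 T,
      F t = (hm t ht i).toLp (cw u t i) := fun i =>
    ⟨fun t => if ht : t ∈ Ioo 0 T then (hm t ht i).toLp (cw u t i) else 0,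
      fun t ht => dif_pos ht⟩
  choose F hF using hF
  have hlim : ∀ i, ∃ g : Lp ℝ 2 (volume : Measure V), Tendsto (F i) (𝓝[<] T) (𝓝 g) := by
    intro i
    rw [← cauchy_map_iff_exists_tendsto, Metric.cauchy_iff]
    refine ⟨hne.map _, fun ε hε => ?_⟩
    obtain ⟨δ, hδ, hs⟩ := hc (ε ^ 2 / 4) (by positivity)
    have hmem : Ioo (max (T - δ) 0) T ∈ 𝓝[<] T := Ioo_mem_nhdsLT (max_lt (by linarith) hT)
    refine ⟨F i '' Ioo (max (T - δ) 0) T, image_mem_map hmem, ?_⟩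
    rintro _ ⟨s, hs', rfl⟩ _ ⟨t, ht', rfl⟩
    have hs0 : s ∈ Ioo 0 T := ⟨(le_max_right _ _).trans_lt hs'.1, hs'.2⟩
    have ht0 : t ∈ Ioo 0 T := ⟨(le_max_right _ _).trans_lt ht'.1, ht'.2⟩
    have hs1 : s ∈ Ioo (T - δ) T := ⟨(le_max_left _ _).trans_lt hs'.1, hs'.2⟩
    have ht1 : t ∈ Ioo (T - δ) T := ⟨(le_max_left _ _).trans_lt ht'.1, ht'.2⟩
    have h1 := hs t ht1 s hs1
    have h2 : ‖F i s - F i t‖ ^ 2 ≤ ε ^ 2 / 4 := by
      rw [hF i s hs0, hF i t ht0, ← MemLp.toLp_sub, nrm2]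
      refine le_trans ?_ h1
      unfold d2
      refine integral_mono ?_ (d2_int h ht0 hs0) fun x => ?_
      · have h3 : HF fun x => cw u s i x - cw u t i x := (h.cw_HF hs0 i).sub (h.cw_HF ht0 i)
        simpa using sqB_int h3 BF_one
      · simp only [Pi.sub_apply]
        exact Finset.single_le_sum (f := fun i => (cw u s i x - cw u t i x) ^ 2)
          (fun _ _ => sq_nonneg _) (Finset.mem_univ i)
    rw [dist_eq_norm]
    have h3 : ‖F i s - F i t‖ ≤ ε / 2 := by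
      refine abs_le_of_sq_le_sq' ?_ (by positivity) |>.2
      calc ‖F i s - F i t‖ ^ 2 ≤ ε ^ 2 / 4 := h2
        _ = (ε / 2) ^ 2 := by ring
    linarith
  choose g hg using hlim
  have hgm : ∀ i, MemLp (g i) 2 (volume : Measure V) := fun i => Lp.memLp (g i)
  have hgi : ∀ i, Integrable fun x => (g i : V → ℝ) x ^ 2 := fun i =>
    (memLp_two_iff_integrable_sq (hgm i).aestronglyMeasurable).1 (hgm i)
  have hn1 : ∀ i, ∀ t ∈ Ioo 0 T, ∫ x, (cw u t i x - (g i : V → ℝ) x) ^ 2 = ‖F i t - g i‖ ^ 2 := by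
    intro i t ht
    have e1 : F i t - g i = ((hm t ht i).sub (hgm i)).toLp (cw u t i - (g i : V → ℝ)) := by
      rw [MemLp.toLp_sub (hm t ht i) (hgm i), hF i t ht, Lp.toLp_coeFn]
    rw [e1, nrm2]
    rfl
  have hn2 : ∀ i, ∀ t ∈ Ioo 0 T, ip (cw u t i) (cw u t i) = ‖F i t‖ ^ 2 := by
    intro i t ht
    rw [hF i t ht, nrm2]
    unfold ip
    simp only [pow_two]
  have hn3 : ∀ i, ∫ x, (g i : V → ℝ) x ^ 2 = ‖g i‖ ^ 2 := by
    intro i
    have e1 := nrm2 (hgm i)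
    rw [Lp.toLp_coeFn] at e1
    exact e1.symm
  have hdi : ∀ i, ∀ t ∈ Ioo 0 T, Integrable fun x => (cw u t i x - (g i : V → ℝ) x) ^ 2 := by
    intro i t ht
    have h1 := (hm t ht i).sub (hgm i)
    exact (memLp_two_iff_integrable_sq h1.aestronglyMeasurable).1 h1
  refine ⟨fun x i => (g i : V → ℝ) x, fun i => (Lp.stronglyMeasurable (g i)).measurable, hgi,
    ?_, ?_⟩
  · have h1 : Tendsto (fun t => ∑ i, ‖F i t - g i‖ ^ 2) (𝓝[<] T) (𝓝 0) := by
      have h2 : Tendsto (fun t => ∑ i, ‖F i t - g i‖ ^ 2) (𝓝[<] T)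
          (𝓝 (∑ i : Fin 3, ‖g i - g i‖ ^ 2)) :=
        tendsto_finsetSum _ fun i _ => (((hg i).sub_const (g i)).norm).pow 2
      simpa using h2
    refine h1.congr' ?_
    filter_upwards [hev] with t ht
    rw [sum_int3 fun i => hdi i t ht]
    exact Finset.sum_congr rfl fun i _ => (hn1 i t ht).symm
  · intro s hs
    obtain ⟨hDi, hDe⟩ := en_DR h hs
    have h1 : Tendsto (fun t => en u t) (𝓝[<] T) (𝓝 (∑ i, ‖g i‖ ^ 2)) := by
      have h2 : Tendsto (fun t => ∑ i, ‖F i t‖ ^ 2) (𝓝[<] T) (𝓝 (∑ i, ‖g i‖ ^ 2)) :=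
        tendsto_finsetSum _ fun i _ => ((hg i).norm).pow 2
      refine h2.congr' ?_
      filter_upwards [hev] with t ht
      unfold en
      exact Finset.sum_congr rfl fun i _ => (hn2 i t ht).symm
    have h3 : Tendsto (fun t => ∫ τ in Ioc s t, DR u τ) (𝓝[<] T) (𝓝 (∫ τ in Ioc s T, DR u τ)) := by
      have h4 := intervalIntegral.continuousOn_primitive hDi T ⟨hs.2.le, le_rfl⟩
      refine h4.mono_left ?_
      rw [← nhdsWithin_Ioo_eq_nhdsLT hs.2]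
      exact nhdsWithin_mono _ Ioo_subset_Icc_self
    have h5 : Tendsto (fun t => en u t) (𝓝[<] T)
        (𝓝 (en u s - 2 * ν * ∫ τ in Ioc s T, DR u τ)) := by
      refine (tendsto_const_nhds.sub (h3.const_mul (2 * ν))).congr' ?_
      filter_upwards [Ioo_mem_nhdsLT hs.2] with t ht
      exact (hDe t ht.1.le ht.2).symm
    have h6 := tendsto_nhds_unique h1 h5
    rw [sum_int3 fun i => hgi i]
    simp only [hn3]
    linarith

end

end Pool.Agent.H305.EG
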