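import Pool.Agent.H305.SL.Lef
import Pool.Graph.R_seed8.W221.NS.Asm2
import Pool.Agent.H305.SL.Ckn

/-!
Local regularity from a small dissipation in one cylinder, with explicit bounds.
-/

set_option autoImplicit false

open MeasureTheory Set Metric Filter Topology
open scoped ContDiff ENNReal

namespace Pool.Agent.H305.SL

open H459R3.NS W221.NS W382.ME

/-- Local regularity in the frame of the mollified velocity, with explicit bounds. -/
theorem regx : ∃ C ε : ℝ, 0 < C ∧ 0 < ε ∧ ∀ K : ℝ, 0 ≤ K → ∃ c₁ C₁ : ℝ, 0 < c₁ ∧ c₁ ≤ 1 ∧ 0 ≤ C₁ ∧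
    ∀ (E r : ℝ), 0 ≤ E → 0 < r → r ≤ 1 → E ^ 2 ≤ K * r →
    ∀ (T κ : ℝ) (O : Set V) (u : ℝ → V → V) (p : ℝ → V → ℝ), 0 ≤ κ → LSol T κ E O u p →
    ∀ (x : V), ball x (C * (r + E * √r)) ⊆ O → ∀ s : ℝ, r ^ 2 < s → s < T →
    ∫⁻ t in Ioo (s - r ^ 2) s, ∫⁻ y in ball x (C * (r + E * √r)), ENNReal.ofReal (gsq (u t) y)
      ≤ ENNReal.ofReal (ε * r) →
    ∀ t ∈ Ioo (s - c₁ * r ^ 2) s, ∀ y ∈ ball x (c₁ * r ^ 2), ‖u t y‖ ≤ C₁ / r := by
  obtain ⟨ε, CL, hε, hCL, hloc⟩ := W221.NS.B.p_local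
  obtain ⟨CM, hCM, hmol⟩ := W221.NS.B.p_moll2
  refine ⟨9 + CM, ε, by positivity, hε, ?_⟩
  intro K hK
  refine ⟨min (1 / 32) (1 / (16 * (CM * √K + 1))),
    CL * (1 + √(2 * (K + 1536 * (CM ^ 2 * K)))) + CM * √K, by positivity,
    (min_le_left _ _).trans (by norm_num), by positivity, ?_⟩
  intro E r hE hr hr1 hEK
  obtain ⟨c₁, hc₁⟩ : ∃ c₁ : ℝ, c₁ = min (1 / 32) (1 / (16 * (CM * √K + 1))) := ⟨_, rfl⟩
  rw [← hc₁]
  have hc₁0 : 0 < c₁ := by rw [hc₁]; positivity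
  have hc₁1 : c₁ ≤ 1 / 32 := by rw [hc₁]; exact min_le_left _ _
  have hc₁2 : c₁ * (16 * (CM * √K + 1)) ≤ 1 := by
    have h1 : c₁ ≤ 1 / (16 * (CM * √K + 1)) := by rw [hc₁]; exact min_le_right _ _
    rwa [le_div_iff₀ (by positivity)] at h1
  have hr2 : 0 < r ^ 2 := by positivity
  have hsr0 : 0 < √r := Real.sqrt_pos.2 hr
  have hss : √r * √r = r := Real.mul_self_sqrt hr.le
  have hsr : √(r ^ 3) = r * √r := by
    rw [show r ^ 3 = r ^ 2 * r by ring, Real.sqrt_mul (by positivity), Real.sqrt_sq hr.le]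
  have hEK' : E ≤ √K * √r := by
    rw [← Real.sqrt_mul hK]
    exact Real.le_sqrt_of_sq_le hEK
  obtain ⟨M, hMdef⟩ : ∃ M : ℝ, M = CM * E / √(r ^ 3) := ⟨_, rfl⟩
  have hM0 : 0 ≤ M := by rw [hMdef]; positivity
  have hMr : M * r ^ 2 = CM * E * √r := by
    rw [hMdef, hsr, div_mul_eq_mul_div, div_eq_iff (by positivity)]
    calc CM * E * r ^ 2 = CM * E * (r * (√r * √r)) := by rw [hss]; ring
      _ = _ := by ring
  have hMr' : M * r ≤ CM * √K := by
    have h1 : M * r * r ≤ CM * √K * r := by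
      calc M * r * r = CM * E * √r := by rw [← hMr]; ring
        _ ≤ CM * (√K * √r) * √r := by gcongr
        _ = CM * √K * (√r * √r) := by ring
        _ = _ := by rw [hss]
    exact le_of_mul_le_mul_right h1 hr
  obtain ⟨δ, hδe⟩ : ∃ δ : ℝ, δ = c₁ * r ^ 2 := ⟨_, rfl⟩
  have hδ0 : 0 < δ := by rw [hδe]; positivity
  have hδ1 : δ ≤ r ^ 2 / 32 := by rw [hδe]; nlinarith
  have hδ2 : δ ≤ r / 16 := by nlinarith
  have hδ3 : M * δ ≤ r / 16 := by
    calc M * δ = c₁ * (M * r) * r := by rw [hδe]; ring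
      _ ≤ c₁ * (CM * √K + 1) * r := by gcongr; linarith
      _ ≤ 1 / 16 * r := by gcongr; linarith
      _ = _ := by ring
  obtain ⟨Q, hQ⟩ : ∃ Q : ℝ, Q = CL * (1 + √(2 * r ^ 2 * ((r ^ 3)⁻¹ * E ^ 2 + 1536 * M ^ 2))) :=
    ⟨_, rfl⟩
  have hQle : Q / r + M ≤ (CL * (1 + √(2 * (K + 1536 * (CM ^ 2 * K)))) + CM * √K) / r := by
    have h1 : 2 * r ^ 2 * ((r ^ 3)⁻¹ * E ^ 2 + 1536 * M ^ 2) ≤ 2 * (K + 1536 * (CM ^ 2 * K)) := by
      have h2 : r ^ 2 * ((r ^ 3)⁻¹ * E ^ 2) ≤ K := by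
        calc r ^ 2 * ((r ^ 3)⁻¹ * E ^ 2) = E ^ 2 / r := by field_simp
          _ ≤ K := by rwa [div_le_iff₀ hr]
      have h3 : (M * r) ^ 2 ≤ CM ^ 2 * K := by
        calc (M * r) ^ 2 ≤ (CM * √K) ^ 2 := pow_le_pow_left₀ (by positivity) hMr' 2
          _ = _ := by rw [mul_pow, Real.sq_sqrt hK]
      nlinarith
    have h4 : Q ≤ CL * (1 + √(2 * (K + 1536 * (CM ^ 2 * K)))) := by
      rw [hQ]
      gcongr
    rw [add_div]
    have h5 : M ≤ CM * √K / r := by rwa [le_div_iff₀ hr]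
    have h6 : Q / r ≤ CL * (1 + √(2 * (K + 1536 * (CM ^ 2 * K)))) / r := by gcongr
    linarith
  rw [← hδe]
  intro T κ O u p hκ hsol x hO s hrs hs2 hdis t ht y hy
  refine le_trans ?_ hQle
  obtain ⟨L, hgood⟩ := hmol T κ E O u p hκ hE hsol r hr
  rw [← hMdef] at hgood
  have hα : 0 < s - r ^ 2 := by linarith
  have hαβ : s - r ^ 2 < s := by linarith
  obtain ⟨X, hX⟩ := W221.NS.B.p_flowx2 T M L _ (mol r u) hgood (s - r ^ 2) s hα hαβ hs2
  have hMb : ∀ t ∈ Ioo (s - r ^ 2) s, ∀ x, ‖mol r u t x‖ ≤ M := fun t ht x =>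
    hgood.bd t ⟨hα.trans ht.1, ht.2.trans hs2⟩ x
  have htube : ∀ t ∈ Ioo (s - r ^ 2) s, ball (X t x) (8 * r) ⊆ ball x ((9 + CM) * (r + E * √r)) := by
    intro t ht y hy
    rw [mem_ball, dist_eq_norm] at hy ⊢
    have hsp : ‖X s x - X t x‖ ≤ M * (s - t) := speed hX hMb ht x
    rw [hX.fin x] at hsp
    have hsp2 : ‖x - X t x‖ ≤ CM * E * √r := by
      rw [← hMr]
      exact hsp.trans (mul_le_mul_of_nonneg_left (by linarith [ht.1]) hM0)
    have h1 : ‖y - x‖ < 8 * r + CM * E * √r := by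
      calc ‖y - x‖ = ‖(y - X t x) - (x - X t x)‖ := by congr 1; abel
        _ ≤ ‖y - X t x‖ + ‖x - X t x‖ := norm_sub_le _ _
        _ < _ := by linarith
    have hB : 0 ≤ E * √r := by positivity
    nlinarith [mul_nonneg hCM.le hr.le]
  have hsm : ContDiffOn ℝ ∞ (fun τ => X τ x) (Ioo (s - r ^ 2) s) := hX.smooth x
  have hode : ∀ t ∈ Ioo (s - r ^ 2) s,
      HasDerivAt (fun τ => X τ x) (mol r u t ((fun τ => X τ x) t)) t := fun t ht => hX.ode x t ht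
  have hL2 := W221.NS.B.p_frame2 T κ E O u p hsol r s hr hrs hs2 (fun τ => X τ x) hsm hode
    (fun t ht => (htube t ht).trans hO)
  have htime : ∀ t ∈ Ioo (-1 : ℝ) 0, s + r ^ 2 * t ∈ Ioo (s - r ^ 2) s := by
    intro t ht
    have a1 : r ^ 2 * (-1) < r ^ 2 * t := (mul_lt_mul_iff_right₀ hr2).2 ht.1
    have a2 : r ^ 2 * t < r ^ 2 * 0 := (mul_lt_mul_iff_right₀ hr2).2 ht.2
    constructor <;> linarith
  have hT' : ∀ t ∈ Ioo (-1 : ℝ) 0, s + r ^ 2 * t ∈ Ioo 0 T := fun t ht =>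
    ⟨hα.trans (htime t ht).1, (htime t ht).2.trans hs2⟩
  have hcd : ∀ t ∈ Ioo (-1 : ℝ) 0, ContDiff ℝ ∞ (u (s + r ^ 2 * t)) := fun t ht =>
    cd_slice hsol.smooth_u (hT' t ht)
  have hB0 : ∀ t, 0 ≤ B2 0 8 (frv r s (fun τ => X τ x) u t) := fun t =>
    setIntegral_nonneg measurableSet_ball fun w _ => W382.ME.gsq_nonneg _ w
  have hBl : ∀ t ∈ Ioo (-1 : ℝ) 0, ENNReal.ofReal (B2 0 8 (frv r s (fun τ => X τ x) u t))
      = ENNReal.ofReal r * ∫⁻ y in ball (X (s + r ^ 2 * t) x) (8 * r),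
        ENNReal.ofReal (gsq (u (s + r ^ 2 * t)) y) := by
    intro t ht
    rw [B2_frv hr (hcd t ht), ENNReal.ofReal_mul hr.le, mul_comm r 8]
    congr 1
    exact ofReal_integral_eq_lintegral_ofReal (int_ball (gsq_cont (hcd t ht)) _ _)
      (Eventually.of_forall fun y => W382.ME.gsq_nonneg _ y)
  have hcont : ContinuousOn (fun t => B2 0 8 (frv r s (fun τ => X τ x) u t)) (Ioo (-1) 0) :=
    ((W335.MD.t_CT Pool.Agent.W333.MD.t_PCONT (-1) 0 _ hL2.smooth_v).1 0 8).2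
  -- change of variables in time
  have hlint : ∫⁻ t in Ioo (-1 : ℝ) 0, ENNReal.ofReal (B2 0 8 (frv r s (fun τ => X τ x) u t))
      ≤ ENNReal.ofReal ε := by
    obtain ⟨g, hg⟩ : ∃ g : ℝ → ℝ≥0∞, g = fun t => ∫⁻ y in ball x ((9 + CM) * (r + E * √r)),
      ENNReal.ofReal (gsq (u t) y) := ⟨_, rfl⟩
    have h1 : ∫⁻ t in Ioo (-1 : ℝ) 0, ENNReal.ofReal (B2 0 8 (frv r s (fun τ => X τ x) u t))
        ≤ ∫⁻ t in Ioo (-1 : ℝ) 0, ENNReal.ofReal r * g (s + r ^ 2 * t) := by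
      rw [setLIntegral_congr_fun measurableSet_Ioo hBl]
      apply setLIntegral_mono' measurableSet_Ioo
      intro t ht
      rw [hg]
      exact mul_le_mul_right (lintegral_mono_set (htube _ (htime t ht))) _
    have h2 : ∫⁻ t in Ioo (s - r ^ 2) s, g t
        = ENNReal.ofReal (r ^ 2) * ∫⁻ t in Ioo (-1 : ℝ) 0, g (s + r ^ 2 * t) := by
      have him : (fun t : ℝ => s + r ^ 2 * t) '' Ioo (-1) 0 = Ioo (s - r ^ 2) s := by
        ext τ
        constructor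
        · rintro ⟨t, ht, rfl⟩
          exact htime t ht
        · intro hτ
          refine ⟨(τ - s) / r ^ 2, ⟨?_, ?_⟩, ?_⟩
          · rw [lt_div_iff₀ hr2]
            linarith [hτ.1]
          · exact div_neg_of_neg_of_pos (by linarith [hτ.2]) hr2
          · field_simp
            ring
      have hcv := lintegral_image_eq_lintegral_abs_deriv_mul (s := Ioo (-1 : ℝ) 0)
        (f := fun t => s + r ^ 2 * t) (f' := fun _ => r ^ 2) measurableSet_Ioo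
        (fun t _ => by
          have := ((hasDerivAt_id t).const_mul (r ^ 2)).const_add s
          simpa using this.hasDerivWithinAt)
        (fun a _ b _ hab => by
          simp only [add_right_inj, mul_eq_mul_left_iff] at hab
          exact hab.resolve_right hr2.ne') g
      rw [him] at hcv
      rw [hcv]
      simp only [abs_of_pos hr2]
      rw [lintegral_const_mul' _ _ ENNReal.ofReal_ne_top]
    rw [lintegral_const_mul' _ _ ENNReal.ofReal_ne_top] at h1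
    refine h1.trans ?_
    rw [← hg] at hdis
    rw [h2] at hdis
    have h3 : ENNReal.ofReal (r ^ 2) = ENNReal.ofReal r * ENNReal.ofReal r := by
      rw [← ENNReal.ofReal_mul hr.le, sq]
    rw [h3, mul_assoc, mul_comm ε, ENNReal.ofReal_mul hr.le] at hdis
    exact (ENNReal.mul_le_mul_iff_right (by simpa using hr) ENNReal.ofReal_ne_top).1 hdis
  have hInt : IntegrableOn (fun t => B2 0 8 (frv r s (fun τ => X τ x) u t)) (Ioo (-1) 0) := by
    refine ⟨hcont.aestronglyMeasurable measurableSet_Ioo, ?_⟩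
    rw [hasFiniteIntegral_iff_ofReal (Eventually.of_forall hB0)]
    exact hlint.trans_lt ENNReal.ofReal_lt_top
  have hle : ∫ t in Ioo (-1 : ℝ) 0, B2 0 8 (frv r s (fun τ => X τ x) u t) ≤ ε := by
    rw [← ofReal_integral_eq_lintegral_ofReal hInt (Eventually.of_forall hB0)] at hlint
    exact (ENNReal.ofReal_le_ofReal_iff hε.le).1 hlint
  have hl := hloc _ _ hL2 hInt hle
  have hl' : ∀ t ∈ Ioo (-1 / 16 : ℝ) 0, ∀ w ∈ ball (0 : V) (1 / 4), ∀ i,
      |frv r s (fun τ => X τ x) u t w i| ≤ Q := by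
    intro t ht w hw i
    refine (hl t ht w hw i).trans ?_
    have ht' : t ∈ Ioo (-1 : ℝ) 0 := ⟨by linarith [ht.1], ht.2⟩
    have hA2 : A2 0 4 (frv r s (fun τ => X τ x) u t)
        ≤ 2 * r ^ 2 * ((r ^ 3)⁻¹ * E ^ 2 + 1536 * M ^ 2) := by
      refine A2_bd (hcd t ht') (hsol.en_int _ (hT' t ht')) (hsol.en _ (hT' t ht')) hr
        (X (s + r ^ 2 * t) x) (fun i => deriv (fun τ => X τ x i) (s + r ^ 2 * t)) ?_
      intro i
      have hd : HasDerivAt (fun τ => X τ x i) (mol r u (s + r ^ 2 * t) (X (s + r ^ 2 * t) x) i)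
          (s + r ^ 2 * t) := (hasDerivAt_pi.1 (hX.ode x _ (htime t ht'))) i
      rw [hd.deriv]
      exact (norm_le_pi_norm (mol r u _ (X _ x)) i).trans (hMb _ (htime t ht') _)
    rw [hQ]
    gcongr
  exact point (CL := Q) hr hM0 hX hMb hδ1 hδ2 hδ3 (t := t) (by linarith [ht.1]) ht.2
    (mem_ball_self (by positivity)) hy hl'

end Pool.Agent.H305.SL
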