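import Pool.Agent.H305.EG.Sa
import Pool.Agent.H305.SL.Tol

/-!
The local regularity criterion for the solutions with viscosity `ν`, with explicit bounds.
-/

set_option autoImplicit false

open MeasureTheory Set Metric Filter Topology
open scoped ContDiff ENNReal

namespace Pool.Agent.H305.SL

open H459R3.NS W221.NS W382.ME Pool.Agent.V1183.PM Pool.Agent.H305.OS
open Pool.Agent.W583.MD (sm_pd pd_mul')

/-- Local regularity for solutions with viscosity `ν`, with explicit bounds. -/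
theorem regx' : ∃ C ε : ℝ, 0 < C ∧ 0 < ε ∧ ∀ (ν K : ℝ), 0 < ν → 0 ≤ K →
    ∃ c₂ C₂ : ℝ, 0 < c₂ ∧ c₂ ≤ 1 ∧ 0 ≤ C₂ ∧ ∀ (m r : ℝ), 0 ≤ m → 0 < r → r ≤ 1 →
    (ν⁻¹ * √m) ^ 2 ≤ K * r → ∀ (T : ℝ) (u : ℝ → V → V) (p : ℝ → V → ℝ), HS ν T u p →
    ∀ (t₀ : ℝ), 0 < t₀ → ∀ (x : V) (ρ : ℝ), C * (r + ν⁻¹ * √m * √r) ≤ ρ →
    (∀ t ∈ Ioo t₀ T, ∫⁻ y in ball x (3 * ρ), ENNReal.ofReal (nw (cw u t) y) ≤ ENNReal.ofReal m) →
    ∀ s : ℝ, t₀ + r ^ 2 / ν < s → s < T →
    ∫⁻ t in Ioo t₀ s, ∫⁻ y in ball x ρ, ENNReal.ofReal (gw (cw u t) y)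
      ≤ ENNReal.ofReal (ε * ν * r) →
    ∀ t ∈ Ioo (s - c₂ * r ^ 2) s, ∀ y ∈ ball x (c₂ * r ^ 2), ‖u t y‖ ≤ C₂ / r := by
  obtain ⟨C, ε, hC, hε, hreg⟩ := regx
  refine ⟨C, ε, hC, hε, ?_⟩
  intro ν K hν hK
  obtain ⟨c₁, C₁, hc₁, hc₁1, hC₁, hreg⟩ := hreg K hK
  refine ⟨min (min c₁ (c₁ / ν)) C, ν * C₁, by positivity, (min_le_left _ _).trans
    ((min_le_left _ _).trans hc₁1), by positivity, ?_⟩
  intro m r hm hr hr1 hmK
  have hE' : 0 ≤ ν⁻¹ * √m := by positivity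
  have hQ := hreg (ν⁻¹ * √m) r hE' hr hr1 hmK
  obtain ⟨δ, hδe⟩ : ∃ δ : ℝ, δ = c₁ * r ^ 2 := ⟨_, rfl⟩
  have hδ : 0 < δ := by rw [hδe]; positivity
  rw [← hδe] at hQ
  have hmin : min (min c₁ (c₁ / ν)) C * r ^ 2 ≤ min (min δ (δ / ν)) (C * r) := by
    have hr2 : 0 < r ^ 2 := by positivity
    refine le_min (le_min ?_ ?_) ?_
    · rw [hδe]
      exact mul_le_mul_of_nonneg_right ((min_le_left _ _).trans (min_le_left _ _)) hr2.le
    · rw [hδe, mul_div_right_comm]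
      exact mul_le_mul_of_nonneg_right ((min_le_left _ _).trans (min_le_right _ _)) hr2.le
    · have h1 : r ^ 2 ≤ r := by nlinarith
      exact mul_le_mul (min_le_right _ _) h1 hr2.le hC.le
  intro T u p h t₀ ht₀ x ρ hρC hloc s hs1 hs2 hdis t ht y hy
  replace ht : t ∈ Ioo (s - min (min δ (δ / ν)) (C * r)) s := ⟨by linarith [ht.1], ht.2⟩
  replace hy : y ∈ ball x (min (min δ (δ / ν)) (C * r)) := ball_subset_ball hmin hy
  rw [mul_div_assoc]
  have hr2 : 0 < r ^ 2 / ν := by positivity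
  have ht₀T : t₀ < T := by linarith
  have hρ : 0 < ρ := lt_of_lt_of_le (by positivity) hρC
  -- the cut-off
  obtain ⟨ξ, hξd⟩ : ∃ ξ, ξ = tf 0 (x 0) ρ x ρ := ⟨_, rfl⟩
  have hξ : BF ξ := by rw [hξd]; exact tf_BF hρ hρ
  have hξ0 : ∀ y, 0 ≤ ξ y := fun y => by rw [hξd]; exact tf_nonneg y
  have hξ1 : ∀ y, ξ y ≤ 1 := fun y => by rw [hξd]; exact tf_le y
  have hξo : ∀ y ∈ ball x ρ, ξ y = 1 := by
    intro y hy
    rw [hξd]
    refine tf_one hρ hρ ?_ (ball_subset_closedBall hy)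
    have h1 : |y 0 - x 0| < ρ := by
      have h2 := norm_le_pi_norm (y - x) 0
      rw [mem_ball, dist_eq_norm] at hy
      rw [Real.norm_eq_abs, Pi.sub_apply] at h2
      linarith
    exact h1
  have hξs : ∀ y ∉ ball x (3 * ρ), ξ y = 0 := by
    intro y hy
    rw [hξd]
    exact tf_out hρ hρ fun h => hy h.2
  have hξξ : BF fun y => ξ y * ξ y := UB.mul hξ hξ
  have hen1 : ∀ t ∈ Ioo t₀ T, enW (cw u t) (fun y => ξ y * ξ y) ≤ (ν * (ν⁻¹ * √m)) ^ 2 := by
    intro t ht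
    have e1 : (ν * (ν⁻¹ * √m)) ^ 2 = m := by
      rw [← mul_assoc, mul_inv_cancel₀ hν.ne', one_mul, Real.sq_sqrt hm]
    rw [e1]
    have hHF : ∀ i, HF (cw u t i) := fun i => h.cw_HF ⟨ht₀.trans ht.1, ht.2⟩ i
    rw [← ENNReal.ofReal_le_ofReal_iff hm, enW_lint hHF hξξ fun y => mul_self_nonneg _]
    refine le_trans ?_ (hloc t ht)
    rw [← lintegral_indicator measurableSet_ball]
    refine lintegral_mono fun y => ?_
    by_cases hy : y ∈ ball x (3 * ρ)
    · simp only [indicator_of_mem hy]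
      calc ENNReal.ofReal (nw (cw u t) y) * ENNReal.ofReal (ξ y * ξ y)
          ≤ ENNReal.ofReal (nw (cw u t) y) * 1 := by
            refine mul_le_mul_right ?_ _
            rw [ENNReal.ofReal_le_one]
            exact mul_le_one₀ (hξ1 y) (hξ0 y) (hξ1 y)
        _ = _ := mul_one _
    · simp only [hξs y hy, mul_zero, ENNReal.ofReal_zero, zero_le]
  have hen2 : ∀ t ∈ Ioo t₀ T, enW (cw u t) (fun _ => 1) ≤ en u t₀ := by
    intro t ht
    refine le_trans (le_of_eq ?_) (h.en_anti ht₀ ht.1.le ht.2)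
    have hHF : ∀ i, HF (cw u t i) := fun i => h.cw_HF ⟨ht₀.trans ht.1, ht.2⟩ i
    have i1 : ∀ i, Integrable fun x => cw u t i x ^ 2 := fun i => by
      simpa using sqB_int (hHF i) BF_one
    unfold enW en ip
    simp only [mul_one]
    rw [integral_finset_sum _ fun i _ => i1 i]
    refine Finset.sum_congr rfl fun i _ => ?_
    congr 1
    funext x
    ring
  obtain ⟨κ, hκ, hL⟩ := HS.toL h ht₀ ht₀T hξ isOpen_ball hξo hen1 hen2
  -- the times
  obtain ⟨s', hs'⟩ : ∃ s', s' = ν * (s - t₀) := ⟨_, rfl⟩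
  have hs'1 : r ^ 2 < s' := by
    have : r ^ 2 / ν < s - t₀ := by linarith
    rw [div_lt_iff₀ hν] at this
    rw [hs']; linarith
  have hs'2 : s' < ν * (T - t₀) := by
    rw [hs']
    exact mul_lt_mul_of_pos_left (by linarith) hν
  have hsub : ball x (C * (r + ν⁻¹ * √m * √r)) ⊆ ball x ρ := ball_subset_ball hρC
  have hgs : ∀ t ∈ Ioo 0 s', ∀ y ∈ ball x ρ, gsq (lu ν t₀ ξ u t) y
      = (ν ^ 2)⁻¹ * gw (cw u (t₀ + t / ν)) y := by
    intro t ht y hy
    unfold gsq gw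
    rw [Finset.mul_sum]
    refine Finset.sum_congr rfl fun i _ => ?_
    rw [Finset.mul_sum]
    refine Finset.sum_congr rfl fun j _ => ?_
    rw [lu_pd h ht₀ isOpen_ball hξo ⟨ht.1, ht.2.trans hs'2⟩ hy i j, mul_pow, inv_pow]
    rfl
  obtain ⟨G, hG⟩ : ∃ G : ℝ → ℝ≥0∞, G = fun t => ∫⁻ y in ball x ρ, ENNReal.ofReal (gw (cw u t) y) :=
    ⟨_, rfl⟩
  have him : (fun t : ℝ => t₀ + t / ν) '' Ioo 0 s' = Ioo t₀ s := by
    ext τ
    constructor
    · rintro ⟨t, ht, rfl⟩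
      have h1 : 0 < t / ν := div_pos ht.1 hν
      have h2 : t / ν < s - t₀ := by
        rw [div_lt_iff₀ hν]
        have := ht.2
        rw [hs'] at this
        linarith
      exact ⟨by simp only; linarith, by simp only; linarith⟩
    · intro hτ
      refine ⟨ν * (τ - t₀), ⟨mul_pos hν (by linarith [hτ.1]), ?_⟩, ?_⟩
      · rw [hs']
        exact mul_lt_mul_of_pos_left (by linarith [hτ.2]) hν
      · field_simp
        ring
  have hcv : ∫⁻ t in Ioo t₀ s, G t = ENNReal.ofReal ν⁻¹ * ∫⁻ t in Ioo 0 s', G (t₀ + t / ν) := by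
    have hcv := lintegral_image_eq_lintegral_abs_deriv_mul (s := Ioo 0 s')
      (f := fun t : ℝ => t₀ + t / ν) (f' := fun _ => ν⁻¹) measurableSet_Ioo
      (fun t _ => by
        have := ((hasDerivAt_id t).div_const ν).const_add t₀
        simpa using this.hasDerivWithinAt)
      (fun a _ b _ hab => by
        have h3 : a / ν = b / ν := by simpa using hab
        field_simp at h3
        exact h3) G
    rw [him, abs_of_pos (inv_pos.2 hν)] at hcv
    rw [hcv, lintegral_const_mul' _ _ ENNReal.ofReal_ne_top]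
  have hd : ∫⁻ t in Ioo (s' - r ^ 2) s', ∫⁻ y in ball x (C * (r + ν⁻¹ * √m * √r)),
      ENNReal.ofReal (gsq (lu ν t₀ ξ u t) y) ≤ ENNReal.ofReal (ε * r) := by
    calc ∫⁻ t in Ioo (s' - r ^ 2) s', ∫⁻ y in ball x (C * (r + ν⁻¹ * √m * √r)),
          ENNReal.ofReal (gsq (lu ν t₀ ξ u t) y)
        ≤ ∫⁻ t in Ioo 0 s', ∫⁻ y in ball x (C * (r + ν⁻¹ * √m * √r)),
          ENNReal.ofReal (gsq (lu ν t₀ ξ u t) y) :=
          lintegral_mono_set (Ioo_subset_Ioo_left (by linarith))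
      _ ≤ ∫⁻ t in Ioo 0 s', ENNReal.ofReal (ν ^ 2)⁻¹ * G (t₀ + t / ν) := by
          refine setLIntegral_mono' measurableSet_Ioo fun t ht => ?_
          calc ∫⁻ y in ball x (C * (r + ν⁻¹ * √m * √r)), ENNReal.ofReal (gsq (lu ν t₀ ξ u t) y)
              ≤ ∫⁻ y in ball x ρ, ENNReal.ofReal (gsq (lu ν t₀ ξ u t) y) := lintegral_mono_set hsub
            _ = ∫⁻ y in ball x ρ, ENNReal.ofReal (ν ^ 2)⁻¹
                  * ENNReal.ofReal (gw (cw u (t₀ + t / ν)) y) := by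
                refine setLIntegral_congr_fun measurableSet_ball fun y hy => ?_
                rw [hgs t ht y hy, ENNReal.ofReal_mul (by positivity)]
            _ = _ := by rw [lintegral_const_mul' _ _ ENNReal.ofReal_ne_top, hG]
      _ = ENNReal.ofReal (ν ^ 2)⁻¹ * ∫⁻ t in Ioo 0 s', G (t₀ + t / ν) :=
          lintegral_const_mul' _ _ ENNReal.ofReal_ne_top
      _ = ENNReal.ofReal ν⁻¹ * ∫⁻ t in Ioo t₀ s, G t := by
          rw [hcv, ← mul_assoc, ← ENNReal.ofReal_mul (by positivity)]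
          congr 2
          rw [pow_two, mul_inv]
      _ ≤ ENNReal.ofReal ν⁻¹ * ENNReal.ofReal (ε * ν * r) := by
          refine mul_le_mul_right ?_ _
          rw [hG]
          exact hdis
      _ = ENNReal.ofReal (ε * r) := by
          rw [← ENNReal.ofReal_mul (by positivity)]
          congr 1
          field_simp
  have hfin := hQ (ν * (T - t₀)) κ (ball x ρ) (lu ν t₀ ξ u) (lq ν t₀ ξ p) hκ hL x hsub s' hs'1 hs'2 hd
  have hδ1 : min (min δ (δ / ν)) (C * r) ≤ δ := (min_le_left _ _).trans (min_le_left _ _)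
  have hδ2 : min (min δ (δ / ν)) (C * r) ≤ δ / ν := (min_le_left _ _).trans (min_le_right _ _)
  have hδ3 : min (min δ (δ / ν)) (C * r) ≤ ρ := by
    refine (min_le_right _ _).trans (le_trans ?_ hρC)
    exact mul_le_mul_of_nonneg_left (by linarith [mul_nonneg hE' (Real.sqrt_nonneg r)]) hC.le
  have ht' : ν * (t - t₀) ∈ Ioo (s' - δ) s' := by
    rw [hs']
    constructor
    · have h1 : s - t < δ / ν := by linarith [ht.1]
      rw [lt_div_iff₀ hν] at h1
      nlinarith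
    · exact mul_lt_mul_of_pos_left (by linarith [ht.2]) hν
  have hyδ : y ∈ ball x δ := ball_subset_ball hδ1 hy
  have h1 := hfin _ ht' y hyδ
  have hyρ : y ∈ ball x ρ := ball_subset_ball hδ3 hy
  have e1 : u t y = ν • lu ν t₀ ξ u (ν * (t - t₀)) y := by
    funext i
    simp only [Pi.smul_apply, smul_eq_mul, lu, hξo y hyρ, one_mul]
    rw [show t₀ + ν * (t - t₀) / ν = t by field_simp; ring]
    field_simp
  rw [e1, norm_smul, Real.norm_eq_abs, abs_of_pos hν]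
  exact mul_le_mul_of_nonneg_left h1 hν.le

end Pool.Agent.H305.SL
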