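import Pool.Agent.H305.EG.Sb
import Pool.Agent.H305.EG.Qa

/-!
Small energy in a range of scales implies regularity, with explicit bounds.
-/

set_option autoImplicit false

open MeasureTheory Set Metric Filter Topology
open scoped ContDiff ENNReal

namespace Pool.Agent.H305.EG

open H459R3.NS W221.NS Pool.Agent.V1183.PM Pool.Agent.H305.OS Pool.Agent.H305.SL Pool.Agent.H305.PL
  Pool.Agent.H305.EF

/-- Local regularity at one scale, with explicit bounds. -/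
theorem near_atx : ∃ L c c₀ C₀ : ℝ, 1 ≤ L ∧ 0 < c ∧ 0 < c₀ ∧ c₀ ≤ 1 ∧ 0 ≤ C₀ ∧
    ∀ (T : ℝ) (u : ℝ → V → V)
    (p : ℝ → V → ℝ), HS 1 T u p → ∀ z : ℝ, 0 < z → z ≤ 1 → 0 < T - z ^ 2 / 4 → ∀ P : Set V,
    (∀ x₁ ∈ P, ∀ s ∈ Ico (T - z ^ 2 / 4) T,
      eB (cw u s) x₁ (3 * (L * z)) ≤ ENNReal.ofReal (3 * (L * z))) →
    (∀ x₁ ∈ P, ∀ s ∈ Ico (T - z ^ 2 / 4) T, ∫⁻ τ in Ioc (T - z ^ 2 / 4) s,
      gB (cw u τ) x₁ (L * z) ≤ ENNReal.ofReal (c * z)) →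
    ∀ t ∈ Ioo (T - c₀ * z ^ 2) T, ∀ x₁ ∈ P, ∀ x ∈ ball x₁ (c₀ * z ^ 2), ‖u t x‖ ≤ C₀ / z := by
  obtain ⟨C, ε₀, hC, hε₀, hreg⟩ := regx'
  obtain ⟨b, hb, hb1, hb2⟩ : ∃ b : ℝ, 0 < b ∧ b ≤ 1 ∧ b ^ 2 = 1 / 16 :=
    ⟨1 / 4, by norm_num, by norm_num, by norm_num⟩
  obtain ⟨q, hq⟩ : ∃ q : ℝ, q = 1 + C * b + C * ((1 : ℝ)⁻¹ * √(3 * b)) := ⟨_, rfl⟩
  have hq1 : 1 ≤ q := by
    have h1 : 0 ≤ C * b := by positivity
    have h2 : 0 ≤ C * ((1 : ℝ)⁻¹ * √(3 * b)) := by positivity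
    linarith
  obtain ⟨L, hL⟩ : ∃ L : ℝ, L = q ^ 2 := ⟨_, rfl⟩
  have hL1 : 1 ≤ L := by rw [hL]; exact one_le_pow₀ hq1
  have hL0 : 0 < L := by linarith
  obtain ⟨c₂, C₂, hc₂, hc₂1, hC₂, hreg⟩ := hreg 1 (3 * L / b) one_pos (by positivity)
  refine ⟨L, ε₀ * 1 * b, min (c₂ / 16) (1 / 8), C₂ / b, hL1, by positivity, by positivity,
    (min_le_right _ _).trans (by norm_num), by positivity, ?_⟩
  intro T u p h z hh hz1 hz2 P h1 hk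
  obtain ⟨m, hm⟩ : ∃ m : ℝ, m = 3 * (L * z) := ⟨_, rfl⟩
  have hm0 : 0 ≤ m := by rw [hm]; positivity
  have hr : 0 < b * z := by positivity
  have hr1 : b * z ≤ 1 := mul_le_one₀ hb1 hh.le hz1
  have hQ := hreg m (b * z) hm0 hr hr1 (by
    rw [inv_one, one_mul, Real.sq_sqrt hm0, hm]
    refine le_of_eq ?_
    field_simp)
  have hrν : (b * z) ^ 2 / 1 = z ^ 2 / 16 := by
    rw [mul_pow, hb2]
    ring
  have hCρ : C * (b * z + (1 : ℝ)⁻¹ * √m * √(b * z)) ≤ L * z := by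
    have e1 : √m * √(b * z) = √(3 * b) * q * z := by
      rw [← Real.sqrt_mul hm0, hm, hL]
      have e2 : 3 * (q ^ 2 * z) * (b * z) = 3 * b * (q * z) ^ 2 := by ring
      rw [e2, Real.sqrt_mul (by positivity), Real.sqrt_sq (by positivity)]
      ring
    calc C * (b * z + (1 : ℝ)⁻¹ * √m * √(b * z))
        = (C * b + C * ((1 : ℝ)⁻¹ * √(3 * b)) * q) * z := by
          rw [mul_assoc (1 : ℝ)⁻¹, e1]; ring
      _ ≤ L * z := by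
          refine mul_le_mul_of_nonneg_right ?_ hh.le
          have h1 : 0 ≤ C * b := by positivity
          have h2 : 0 ≤ C * ((1 : ℝ)⁻¹ * √(3 * b)) := by positivity
          rw [hL, pow_two]
          calc C * b + C * ((1 : ℝ)⁻¹ * √(3 * b)) * q
              ≤ (1 + C * b) * q + C * ((1 : ℝ)⁻¹ * √(3 * b)) * q := by
                have : C * b ≤ (1 + C * b) * q := by nlinarith
                linarith
            _ = q * q := by rw [hq]; ring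
  have hzz : 0 < z ^ 2 := by positivity
  have hδ : min (c₂ / 16) (1 / 8) * z ^ 2 ≤ c₂ * (b * z) ^ 2 := by
    rw [mul_pow, hb2]
    calc min (c₂ / 16) (1 / 8) * z ^ 2 ≤ c₂ / 16 * z ^ 2 :=
          mul_le_mul_of_nonneg_right (min_le_left _ _) hzz.le
      _ = _ := by ring
  have hδ2 : min (c₂ / 16) (1 / 8) * z ^ 2 ≤ z ^ 2 / 8 := by
    calc min (c₂ / 16) (1 / 8) * z ^ 2 ≤ 1 / 8 * z ^ 2 :=
          mul_le_mul_of_nonneg_right (min_le_right _ _) hzz.le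
      _ = _ := by ring
  intro t ht x₁ hx₁ x hx
  rw [div_div]
  refine hQ T u p h (T - z ^ 2 / 4) hz2 x₁ (L * z) hCρ ?_
    ((t + T) / 2) ?_ ?_ ?_ t ?_ x (ball_subset_ball hδ hx)
  · intro τ hτ
    have h5 := h1 x₁ hx₁ τ ⟨hτ.1.le, hτ.2⟩
    rwa [← hm] at h5 ⊢
  · rw [hrν]
    linarith [ht.1]
  · linarith [ht.2]
  · refine le_trans (lintegral_mono_set Ioo_subset_Ioc_self) ?_
    refine (hk x₁ hx₁ ((t + T) / 2) ⟨by linarith [ht.1], by linarith [ht.2]⟩).trans (le_of_eq ?_)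
    congr 1
    ring
  · have h6 : 0 < c₂ * (b * z) ^ 2 := by positivity
    constructor
    · linarith [ht.1, ht.2]
    · linarith [ht.2]

/-- Small energy in a range of scales implies regularity, with explicit bounds. -/
theorem bNx : ∃ θ : ℝ, 0 < θ ∧ ∀ T t₀ E : ℝ, t₀ < T → 0 ≤ E →
    ∃ c₃ c₄ C₄ : ℝ, 0 < c₃ ∧ 0 < c₄ ∧ 0 ≤ C₄ ∧
    ∀ (u : ℝ → V → V) (p : ℝ → V → ℝ), ST 1 T u p t₀ E →
    ∀ (P : Set V) (r₁ r' : ℝ), 0 < r₁ → r₁ ≤ 1 → r' ≤ c₃ * r₁ ^ 10 →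
    (∀ x₁ ∈ P, ∀ R : ℝ, 0 < R → r' ≤ R → R ≤ r₁ → ∀ s ∈ Ico (T - R ^ 2) T, t₀ ≤ s →
      eB (cw u s) x₁ R ≤ ENNReal.ofReal (θ * R)) →
    ∀ t ∈ Ioo (T - c₄ * r₁ ^ 20) T, ∀ x₁ ∈ P, ∀ x ∈ ball x₁ (c₄ * r₁ ^ 20),
      ‖u t x‖ ≤ C₄ / r₁ ^ 10 := by
  obtain ⟨C, hC, hR⟩ := bRq
  obtain ⟨L, c, c₀, C₀, hL1, hc, hc₀, hc₀1, hC₀, hN⟩ := near_atx
  have hν : (0 : ℝ) < 1 := one_pos
  have hL0 : 0 < L := by linarith
  -- the choice of the threshold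
  obtain ⟨κ₀, hκ₀⟩ : ∃ κ₀ : ℝ, κ₀ = min (min 1 ((1 : ℝ) / 2)) (c * 1 / (4 * L)) / (C * (1 + 1) + 1) :=
    ⟨_, rfl⟩
  have hden : 0 < C * (1 + 1) + 1 := by positivity
  have hκ₀0 : 0 < κ₀ := by rw [hκ₀]; positivity
  have hκ1 : κ₀ * (C * (1 + 1) + 1) ≤ 1 := by
    rw [hκ₀, div_mul_cancel₀ _ hden.ne']
    exact (min_le_left _ _).trans (min_le_left _ _)
  have hκ2 : κ₀ * (C * (1 + 1) + 1) ≤ 1 / 2 := by
    rw [hκ₀, div_mul_cancel₀ _ hden.ne']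
    exact (min_le_left _ _).trans (min_le_right _ _)
  have hκ3 : κ₀ * (C * (1 + 1) + 1) ≤ c * 1 / (4 * L) := by
    rw [hκ₀, div_mul_cancel₀ _ hden.ne']
    exact min_le_right _ _
  have hCν : 0 ≤ C * (1 + 1) := by positivity
  have hle1 : κ₀ ≤ 1 := by nlinarith
  have hmul : C * (1 + 1) * κ₀ ≤ κ₀ * (C * (1 + 1) + 1) := by nlinarith
  have hsq : √(κ₀ ^ 2) = κ₀ := Real.sqrt_sq hκ₀0.le
  refine ⟨κ₀ ^ 2, by positivity, ?_⟩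
  intro T t₀ E htT hE
  have hTt : 0 < T - t₀ := by linarith
  -- the constants
  obtain ⟨c₂, hc₂⟩ : ∃ c₂ : ℝ, c₂ = min (min (√(T - t₀)) (1 / 3)) (κ₀ ^ 2 / (3 * (E + 1))) := ⟨_, rfl⟩
  have hc₂0 : 0 < c₂ := by rw [hc₂]; positivity
  have hc₂1 : c₂ ≤ √(T - t₀) := by rw [hc₂]; exact (min_le_left _ _).trans (min_le_left _ _)
  have hc₂2 : c₂ ≤ 1 / 3 := by rw [hc₂]; exact (min_le_left _ _).trans (min_le_right _ _)
  have hc₂3 : c₂ ≤ κ₀ ^ 2 / (3 * (E + 1)) := by rw [hc₂]; exact min_le_right _ _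
  obtain ⟨B, hB⟩ : ∃ B : ℝ, B = 4 * L * (E + 1) / c + 2 := ⟨_, rfl⟩
  have hB0 : 0 < B := by rw [hB]; positivity
  obtain ⟨c₅, hc₅⟩ : ∃ c₅ : ℝ, c₅ = c₂ ^ 5 / B ^ 4 := ⟨_, rfl⟩
  have hc₅0 : 0 < c₅ := by rw [hc₅]; positivity
  refine ⟨3 * c₂ ^ 5 / B ^ 4, c₀ * (c₅ / L) ^ 2, C₀ * L / c₅, by positivity, by positivity,
    by positivity, ?_⟩
  intro u p h P r₁ r' hr₁ hr₁1 hr' hH
  have hθ1 : κ₀ ^ 2 ≤ 1 := pow_le_one₀ hκ₀0.le hle1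
  -- the choice of the scales
  obtain ⟨ρ₀, hρ₀e⟩ : ∃ ρ₀ : ℝ, ρ₀ = c₂ * r₁ ^ 2 := ⟨_, rfl⟩
  have hρ₀ : 0 < ρ₀ := by rw [hρ₀e]; positivity
  have hr2 : r₁ ^ 2 ≤ 1 := pow_le_one₀ hr₁.le hr₁1
  have hr3 : r₁ ^ 2 ≤ r₁ := by nlinarith
  have hρ1 : ρ₀ ^ 2 ≤ T - t₀ := by
    have : ρ₀ ≤ √(T - t₀) := by
      rw [hρ₀e]
      exact (mul_le_of_le_one_right hc₂0.le hr2).trans hc₂1
    calc ρ₀ ^ 2 ≤ √(T - t₀) ^ 2 := pow_le_pow_left₀ hρ₀.le this 2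
      _ = _ := Real.sq_sqrt hTt.le
  have hρ2 : ρ₀ ≤ r₁ / 3 := by
    rw [hρ₀e]
    nlinarith
  have hρ21 : ρ₀ ≤ 1 := by linarith
  have hρ3 : 3 * ρ₀ * E ≤ κ₀ ^ 2 * r₁ ^ 2 := by
    have h1 : c₂ * (3 * (E + 1)) ≤ κ₀ ^ 2 := by
      rw [le_div_iff₀ (by positivity)] at hc₂3
      exact hc₂3
    have h2 : 3 * c₂ * E ≤ κ₀ ^ 2 := by nlinarith
    have h3 := mul_le_mul_of_nonneg_right h2 (by positivity : 0 ≤ r₁ ^ 2)
    rw [hρ₀e]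
    linarith
  obtain ⟨X, hX⟩ : ∃ X : ℝ, X = 2 * L * (E / ρ₀ + 1) / c := ⟨_, rfl⟩
  have hX0 : 0 < X := by rw [hX]; positivity
  obtain ⟨n, hn1, hn2⟩ := exists_nat_pow_near (x := X + 1) (y := (2 : ℝ)) (by linarith) one_lt_two
  obtain ⟨k, hke⟩ : ∃ k : ℕ, k = n + 1 := ⟨_, rfl⟩
  rw [← hke] at hn2
  have hk : (1 / 2 : ℝ) ^ k < c / (2 * L * (E / ρ₀ + 1)) := by
    have e1 : c / (2 * L * (E / ρ₀ + 1)) = 1 / X := by
      rw [hX]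
      field_simp
    rw [e1, one_div_pow]
    exact one_div_lt_one_div_of_lt hX0 (by linarith)
  have hk9 : (9 : ℝ) ^ k ≤ (B / ρ₀) ^ 4 := by
    have h1 : (2 : ℝ) ^ k ≤ B / ρ₀ := by
      have h2 : (2 : ℝ) ^ k ≤ 2 * (X + 1) := by
        rw [hke, pow_succ]
        linarith
      refine h2.trans ?_
      rw [le_div_iff₀ hρ₀, hX, hB]
      have e1 : 2 * (2 * L * (E / ρ₀ + 1) / c + 1) * ρ₀ = 4 * L * (E + ρ₀) / c + 2 * ρ₀ := by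
        field_simp
        ring
      rw [e1]
      have h3 : 4 * L * (E + ρ₀) / c ≤ 4 * L * (E + 1) / c := by gcongr
      linarith
    calc (9 : ℝ) ^ k ≤ 16 ^ k := pow_le_pow_left₀ (by norm_num) (by norm_num) k
      _ = (2 ^ k) ^ 4 := by rw [← pow_mul, mul_comm, pow_mul]; norm_num
      _ ≤ _ := pow_le_pow_left₀ (by positivity) h1 4
  obtain ⟨ρ, hρe⟩ : ∃ ρ : ℝ, ρ = ρ₀ * (1 / 9) ^ k := ⟨_, rfl⟩
  have hρ : 0 < ρ := by rw [hρe]; positivity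
  have hρlow : c₅ * r₁ ^ 10 ≤ ρ := by
    rw [hρe, one_div_pow]
    have h1 : 1 / (B / ρ₀) ^ 4 ≤ 1 / 9 ^ k := one_div_le_one_div_of_le (by positivity) hk9
    calc c₅ * r₁ ^ 10 = ρ₀ * (1 / (B / ρ₀) ^ 4) := by
          rw [hρ₀e, hc₅]
          field_simp
      _ ≤ ρ₀ * (1 / 9 ^ k) := by gcongr
  have hr'ρ : r' ≤ 3 * ρ := by
    refine hr'.trans ?_
    have e : 3 * c₂ ^ 5 / B ^ 4 * r₁ ^ 10 = 3 * (c₅ * r₁ ^ 10) := by rw [hc₅]; ring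
    rw [e]
    linarith
  have hρl : ρ ≤ ρ₀ := by
    rw [hρe]
    exact mul_le_of_le_one_right hρ₀.le (pow_le_one₀ (by norm_num) (by norm_num))
  have hρρ : ρ ^ 2 ≤ ρ₀ ^ 2 := pow_le_pow_left₀ hρ.le hρl 2
  obtain ⟨z, hz⟩ : ∃ z : ℝ, z = ρ / L := ⟨_, rfl⟩
  have hz0 : 0 < z := by rw [hz]; positivity
  have hLz : L * z = ρ := by rw [hz]; field_simp
  have hzρ : z ≤ ρ := by rw [← hLz]; nlinarith
  have hz1 : z ≤ 1 := by linarith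
  have hzlow : c₅ / L * r₁ ^ 10 ≤ z := by
    rw [hz, div_mul_eq_mul_div]
    gcongr
  have hzz : z ^ 2 ≤ ρ ^ 2 := pow_le_pow_left₀ hz0.le hzρ 2
  have hzp : 0 < z ^ 2 := by positivity
  have ht₀z : t₀ ≤ T - z ^ 2 / 4 := by linarith
  have hd1 : c₀ * (c₅ / L) ^ 2 * r₁ ^ 20 ≤ c₀ * z ^ 2 := by
    calc c₀ * (c₅ / L) ^ 2 * r₁ ^ 20 = c₀ * (c₅ / L * r₁ ^ 10) ^ 2 := by ring
      _ ≤ c₀ * z ^ 2 := by gcongr
  have hd2 : C₀ / z ≤ C₀ * L / c₅ / r₁ ^ 10 := by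
    calc C₀ / z ≤ C₀ / (c₅ / L * r₁ ^ 10) := by gcongr
      _ = _ := by field_simp
  have hfin := hN T u p h.toHS z hz0 hz1 (h.t0.trans_le ht₀z) P ?_ ?_
  · intro t ht x₁ hx₁ x hx
    exact (hfin t ⟨by linarith [ht.1], ht.2⟩ x₁ hx₁ x (ball_subset_ball hd1 hx)).trans hd2
  · intro x₁ hx₁ s hs
    rw [hLz]
    refine (hH x₁ hx₁ (3 * ρ) (by positivity) hr'ρ (by linarith) s ⟨?_, hs.2⟩
      (ht₀z.trans hs.1)).trans (ENNReal.ofReal_le_ofReal ?_)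
    · nlinarith [hs.1]
    · exact mul_le_of_le_one_left (by positivity) hθ1
  · intro x₁ hx₁ s hs
    have h1 := hR 1 T u p t₀ E h x₁ (κ₀ ^ 2) r₁ r' ρ₀ (by positivity) hθ1 (by rw [hsq]; linarith)
      hr₁ hρ₀ (by linarith) hρ3 (hH x₁ hx₁) k (by rw [← hρe]; exact hr'ρ) s hs.2
    rw [← hρe, hsq] at h1
    rw [hLz]
    refine (lintegral_mono_set (Ioc_subset_Ioc_left (by linarith))).trans (h1.trans
      (ENNReal.ofReal_le_ofReal ?_))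
    have h2 : C * (1 + 1) * κ₀ / 1 ≤ c / (4 * L) := by
      rw [div_one]
      calc C * (1 + 1) * κ₀ ≤ c * 1 / (4 * L) := hmul.trans hκ3
        _ = _ := by ring
    have h3 : (1 / 2 : ℝ) ^ k * (E / ρ₀) ≤ c / (2 * L) := by
      have h4 : 0 < E / ρ₀ + 1 := by positivity
      rw [lt_div_iff₀ (by positivity)] at hk
      rw [le_div_iff₀ (by positivity)]
      have h5 : (0 : ℝ) < (1 / 2) ^ k := by positivity
      have h6 : (1 / 2 : ℝ) ^ k * (E / ρ₀) * (2 * L) ≤ (1 / 2) ^ k * (2 * L * (E / ρ₀ + 1)) := by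
        have : 0 ≤ (1 / 2 : ℝ) ^ k * (2 * L) := by positivity
        nlinarith
      linarith
    calc (2 * (C * (1 + 1) * κ₀ / 1) + (1 / 2) ^ k * (E / ρ₀)) * ρ
        ≤ (2 * (c / (4 * L)) + c / (2 * L)) * ρ := by gcongr
      _ = c * z := by
          rw [← hLz]
          field_simp
          ring

end Pool.Agent.H305.EG
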