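import Pool.Agent.H305.EG.Sc
import Pool.Agent.H305.EG.Qc

/-!
The criterion in a range of scales, with explicit bounds and with constants which depend on the
energy only.
-/

set_option autoImplicit false

open MeasureTheory Set Metric Filter Topology
open scoped ContDiff ENNReal

namespace Pool.Agent.H305.EG

open H459R3.NS W221.NS Pool.Agent.V1183.PM Pool.Agent.H305.OS Pool.Agent.H305.SL Pool.Agent.H305.PL
  Pool.Agent.H305.EF

/-- The criterion for the averaged inflow in a range of scales, with explicit bounds. -/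
theorem critQx : ∃ ε : ℝ, 0 < ε ∧ ∀ T t₀ E : ℝ, 0 < T → t₀ < T → 0 ≤ E → ∃ R₀ : ℝ, 0 < R₀ ∧
    R₀ ≤ 1 ∧
    ∀ (u : ℝ → V → V) (p : ℝ → V → ℝ), ST 1 T u p t₀ E → ∀ (I : Finset (Fin 3)) (x₀ : V) (R : ℝ),
    2 ≤ I.card → 0 < R → R < R₀ → (∀ ρ ∈ Ioo (R ^ 64) R, ∀ t t', t₀ ≤ t → t ≤ t' → t' < T →
      T - t ≤ ρ ^ 2 → ∫ τ in Ioc t t', Ah I x₀ 1 ρ (cw u τ) (p τ) ≤ ε * ρ) →
    ∀ t ∈ Ioo (T - R ^ 127) T, ∀ x₁ ∈ PI' I x₀, ∀ x ∈ ball x₁ (R ^ 127), ‖u t x‖ ≤ 1 / R ^ 63 := by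
  obtain ⟨θ, hθ, hN⟩ := bNx
  have hX := Real.exp_pos (5 / 16)
  refine ⟨θ / (4 * 6144 * Real.exp (5 / 16)), by positivity, ?_⟩
  intro T t₀ E hT ht₀ hE
  obtain ⟨c₃, c₄, C₄, hc₃, hc₄, hC₄, hN⟩ := hN T t₀ E ht₀ hE
  obtain ⟨c₁, hc₁, hc₁1, hsm⟩ := smQ hT ht₀ hE (θ := θ / (4 * Real.exp (5 / 16))) (by positivity)
  refine ⟨min (min 1 (c₃ * (c₁ / 2) ^ 10)) (min (c₄ * (c₁ / 2) ^ 20) ((c₁ / 2) ^ 10 / (C₄ + 1))),
    by positivity, (min_le_left _ _).trans (min_le_left _ _), ?_⟩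
  intro u p h I x₀ R hI hR hRR hyp
  obtain ⟨ε, hεe⟩ : ∃ ε : ℝ, ε = θ / (4 * 6144 * Real.exp (5 / 16)) := ⟨_, rfl⟩
  rw [← hεe] at hyp
  have hε : 0 ≤ ε := by rw [hεe]; positivity
  have hcard : I.card ≤ 3 := by
    have h1 := Finset.card_le_univ I
    rwa [Fintype.card_fin] at h1
  obtain ⟨n, hn⟩ : ∃ n, I.card = n + 1 := ⟨I.card - 1, by omega⟩
  have hn1 : 1 ≤ n := by omega
  have hR1 : R ≤ 1 := hRR.le.trans ((min_le_left _ _).trans (min_le_left _ _))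
  have hR2 : R ≤ c₃ * (c₁ / 2) ^ 10 := hRR.le.trans ((min_le_left _ _).trans (min_le_right _ _))
  have hR3 : R ≤ c₄ * (c₁ / 2) ^ 20 := hRR.le.trans ((min_le_right _ _).trans (min_le_left _ _))
  have hR4' : R ≤ (c₁ / 2) ^ 10 / (C₄ + 1) :=
    hRR.le.trans ((min_le_right _ _).trans (min_le_right _ _))
  have hR6 : R ^ 6 ≤ 1 := pow_le_one₀ hR.le hR1
  have hRk : ∀ k : ℕ, 1 ≤ k → R ^ k ≤ R := fun k hk => by
    calc R ^ k ≤ R ^ 1 := pow_le_pow_of_le_one hR.le hR1 hk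
      _ = R := pow_one R
  have hsm1 := hsm u p h I n x₀ R (R ^ 64) ε hn hn1 hR hR1 (by positivity) hε hyp
  have hfin := hN u p h (PI' I x₀) (c₁ * R ^ 6 / 2) (R ^ 64) (by positivity) ?_ ?_ ?_
  · have hd : R ^ 127 ≤ c₄ * (c₁ * R ^ 6 / 2) ^ 20 := by
      calc R ^ 127 = R ^ 7 * R ^ 120 := by ring
        _ ≤ c₄ * (c₁ / 2) ^ 20 * R ^ 120 :=
            mul_le_mul_of_nonneg_right ((hRk 7 (by norm_num)).trans hR3) (by positivity)
        _ = _ := by ring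
    have hQ : C₄ / (c₁ * R ^ 6 / 2) ^ 10 ≤ 1 / R ^ 63 := by
      rw [div_le_div_iff₀ (by positivity) (by positivity)]
      have h1 : C₄ * R ^ 3 ≤ (c₁ / 2) ^ 10 := by
        rw [le_div_iff₀ (by positivity)] at hR4'
        have h2 := hRk 3 (by norm_num)
        calc C₄ * R ^ 3 ≤ (C₄ + 1) * R := mul_le_mul (by linarith) h2 (by positivity) (by positivity)
          _ ≤ _ := by linarith
      calc C₄ * R ^ 63 = C₄ * R ^ 3 * R ^ 60 := by ring
        _ ≤ (c₁ / 2) ^ 10 * R ^ 60 := mul_le_mul_of_nonneg_right h1 (by positivity)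
        _ = _ := by ring
    intro t ht x₁ hx₁ x hx
    exact (hfin t ⟨by linarith [ht.1], ht.2⟩ x₁ hx₁ x (ball_subset_ball hd hx)).trans hQ
  · have := mul_le_mul hc₁1 hR6 (by positivity) zero_le_one
    linarith
  · calc R ^ 64 = R ^ 4 * R ^ 60 := by ring
      _ ≤ c₃ * (c₁ / 2) ^ 10 * R ^ 60 :=
          mul_le_mul_of_nonneg_right ((hRk 4 (by norm_num)).trans hR2) (by positivity)
      _ = _ := by ring
  · intro x₁ hx₁ R₂ hR₂ hR3 hR5 s hs hts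
    obtain ⟨-, h2⟩ := hsm1 (2 * R₂) (by positivity) (by linarith) (by linarith) s
      ⟨by nlinarith [hs.1], hs.2⟩
    have h3 := nw_lowP (x₀ := x₀) h hn ⟨hts, hs.2⟩ (r := 2 * R₂) (by positivity) h2
    refine (lintegral_mono_set (ball_nb hx₁ hR₂)).trans (h3.trans (ENNReal.ofReal_le_ofReal ?_))
    have h5 : Real.exp (5 / 16) * (θ / (4 * Real.exp (5 / 16)) + 6144 * ε) = θ / 2 := by
      rw [hεe]
      field_simp
      ring
    rw [h5]
    linarith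

section
variable {ν T τ a t₀ E : ℝ} {u : ℝ → V → V} {p : ℝ → V → ℝ} {F : ℝ → V → ℝ}

lemma ST_en (h : HS 1 T u p) (h0 : 0 < t₀) (h1 : t₀ < T) (hE : en u t₀ ≤ E) :
    ST 1 T u p t₀ E := by
  have hE0 : 0 ≤ E := (en_nonneg u t₀).trans hE
  refine ⟨h, h0, h1, hE0, ?_, ?_⟩
  · intro t ht
    rw [nw_en fun i => h.cw_HF ⟨h0.trans_le ht.1, ht.2⟩ i]
    exact ENNReal.ofReal_le_ofReal ((h.en_anti h0 ht.1 ht.2).trans hE)
  · refine HS.diss_le h ⟨h0, h1⟩ fun t hst ht => ?_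
    have h3 := (h.energy h0 hst ht).2
    rw [integral_const_mul] at h3
    rw [← ofReal_integral_eq_lintegral_ofReal (h.N2_int h0 ht)
      (Eventually.of_forall fun τ => N2_nonneg _)]
    apply ENNReal.ofReal_le_ofReal
    have h4 := en_nonneg u t
    have h5 : 0 ≤ ∫ τ in Ioc t₀ t, N2 (cw u τ) := integral_nonneg fun τ => N2_nonneg _
    linarith

lemma J_sh (hF : J T F) (ha : 0 ≤ a) : J (T - a) (fun t x => F (a + t) x) := by
  unfold J at hF ⊢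
  have h1 : ContDiff ℝ ∞ fun z : ℝ × V => ((a + z.1, z.2) : ℝ × V) :=
    (contDiff_const.add contDiff_fst).prodMk contDiff_snd
  refine hF.comp h1.contDiffOn ?_
  rintro ⟨t, x⟩ ⟨h2, -⟩
  have h3 : t ∈ Ioo 0 (T - a) := h2
  exact ⟨⟨by show 0 < a + t; linarith [h3.1], by show a + t < T; linarith [h3.2]⟩, mem_univ _⟩

lemma UF_sh {s t : ℝ} (hF : UF (Icc (a + s) (a + t)) F) : UF (Icc s t) (fun τ x => F (a + τ) x) := by
  have h2 : ∀ τ ∈ Icc s t, a + τ ∈ Icc (a + s) (a + t) := fun τ hτ =>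
    ⟨by linarith [hτ.1], by linarith [hτ.2]⟩
  refine ⟨fun τ hτ => hF.sm _ (h2 τ hτ), fun l => ?_⟩
  obtain ⟨C, hC, hb⟩ := hF.bd l
  exact ⟨C, hC, fun τ hτ => hb _ (h2 τ hτ)⟩

lemma HS_sh (h : HS ν T u p) (ha : 0 ≤ a) : HS ν (T - a) (fun t => u (a + t)) (fun t => p (a + t)) := by
  have hm : ∀ t ∈ Ioo 0 (T - a), a + t ∈ Ioo 0 T := fun t ht =>
    ⟨by linarith [ht.1], by linarith [ht.2]⟩
  refine ⟨h.hν, fun i => J_sh (h.ju i) ha, J_sh h.jp ha, ?_, ?_, ?_, ?_⟩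
  · intro s t hs ht i
    exact UF_sh (F := fun τ x => u τ x i) (h.uu _ _ (by linarith) (by linarith) i)
  · intro s t hs ht
    exact UF_sh (F := p) (h.up _ _ (by linarith) (by linarith))
  · intro t ht x
    exact h.div _ (hm t ht) x
  · intro i t ht x
    have e1 : deriv (fun s => u (a + s) x i) t = deriv (fun s => u s x i) (a + t) :=
      deriv_comp_const_add (f := fun s => u s x i) a t
    rw [e1]
    exact h.mom i _ (hm t ht) x

lemma CQ_sh {m : ℕ} {f : Fin m → V} {b : V} {r R e : ℝ} (ha : 0 ≤ a)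
    (h : CQ ν T u p r R f b e) :
    CQ ν (T - a) (fun t => u (a + t)) (fun t => p (a + t)) r R f b e := by
  intro ρ hρ t t' h1 h2 h3 h4
  have h5 := h ρ hρ (a + t) (a + t') (by linarith) (by linarith) (by linarith) (by
    have : T - (a + t) = T - a - t := by ring
    rw [this]
    exact h4)
  refine le_trans (le_of_eq ?_) h5
  rw [← intervalIntegral.integral_of_le h2.le, ← intervalIntegral.integral_of_le (by linarith)]
  exact intervalIntegral.integral_comp_add_left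
    (fun τ => net ν (cw u τ) (p τ) (fun x => max (1 - dsf f b x / ρ ^ 2) 0)) a

end

end Pool.Agent.H305.EG
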