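import Pool.Agent.H305.EG.Se
import Pool.Agent.H305.EG.Re

/-!
The net inflow is bounded by the energy.
-/

set_option autoImplicit false

open MeasureTheory Set Metric Filter Topology
open scoped ContDiff ENNReal

namespace Pool.Agent.H305.EG

open H459R3.NS W221.NS Pool.Agent.V1183.PM Pool.Agent.H305.OS Pool.Agent.H305.SL Pool.Agent.H305.PL
  Pool.Agent.H305.EF
open Pool.Agent.W583.MD (sm_pd pd_mul')

/-- Convex approximations of the positive part. -/
noncomputable def cvx (k : ℕ) (s : ℝ) : ℝ := ∫ t in (0 : ℝ)..s, Real.smoothTransition (k * t)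

section
variable {I : Finset (Fin 3)} {ρ s : ℝ} {x₀ x : V} {k : ℕ} {w : Fin 3 → V → ℝ} {q : V → ℝ}

lemma st_cd (k : ℕ) : ContDiff ℝ ∞ fun t : ℝ => Real.smoothTransition (k * t) :=
  Real.smoothTransition.contDiff.comp (contDiff_const.mul contDiff_id)

lemma cvx_hd (k : ℕ) (s : ℝ) : HasDerivAt (cvx k) (Real.smoothTransition (k * s)) s := by
  have hc : Continuous fun t : ℝ => Real.smoothTransition (k * t) := (st_cd k).continuous
  exact intervalIntegral.integral_hasDerivAt_right (hc.intervalIntegrable _ _)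
    (hc.stronglyMeasurableAtFilter _ _) hc.continuousAt

lemma cvx_cd (k : ℕ) : ContDiff ℝ ∞ (cvx k) := by
  rw [contDiff_infty_iff_deriv]
  refine ⟨fun s => (cvx_hd k s).differentiableAt, ?_⟩
  have : deriv (cvx k) = fun s => Real.smoothTransition (k * s) := funext fun s => (cvx_hd k s).deriv
  rw [this]
  exact st_cd k

lemma cvx_neg (h : s ≤ 0) : cvx k s = 0 := by
  unfold cvx
  rw [intervalIntegral.integral_symm, neg_eq_zero]
  refine intervalIntegral.integral_zero_ae (Eventually.of_forall fun t ht => ?_)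
  rw [uIoc_of_le h] at ht
  exact Real.smoothTransition.zero_of_nonpos
    (mul_nonpos_of_nonneg_of_nonpos (Nat.cast_nonneg k) ht.2)

lemma cvx_nonneg (k : ℕ) (s : ℝ) : 0 ≤ cvx k s := by
  rcases le_or_gt s 0 with h | h
  · rw [cvx_neg h]
  · exact intervalIntegral.integral_nonneg h.le fun t _ => Real.smoothTransition.nonneg _

lemma cvx_le (k : ℕ) (s : ℝ) : cvx k s ≤ max s 0 := by
  rcases le_or_gt s 0 with h | h
  · rw [cvx_neg h]
    exact le_max_right _ _
  · have hc : Continuous fun t : ℝ => Real.smoothTransition (k * t) := (st_cd k).continuous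
    have h1 : cvx k s ≤ ∫ _ in (0 : ℝ)..s, (1 : ℝ) :=
      intervalIntegral.integral_mono_on h.le (hc.intervalIntegrable _ _)
        (continuous_const.intervalIntegrable _ _) fun t _ => Real.smoothTransition.le_one _
    rw [intervalIntegral.integral_const, smul_eq_mul, mul_one, sub_zero] at h1
    exact h1.trans (le_max_left _ _)

lemma cvx_low (hk : 0 < k) (s : ℝ) : max s 0 - 1 / k ≤ cvx k s := by
  have hk0 : (0 : ℝ) < k := by exact_mod_cast hk
  rcases le_or_gt s (1 / k) with h | h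
  · have h1 : max s 0 ≤ 1 / k := max_le h (by positivity)
    linarith [cvx_nonneg k s]
  · have hs : 0 < s := lt_trans (by positivity) h
    have hc : Continuous fun t : ℝ => Real.smoothTransition (k * t) := (st_cd k).continuous
    have h1 : cvx k s = (∫ t in (0 : ℝ)..(1 / k), Real.smoothTransition (k * t))
        + ∫ t in (1 / k : ℝ)..s, Real.smoothTransition (k * t) :=
      (intervalIntegral.integral_add_adjacent_intervals (hc.intervalIntegrable _ _)
        (hc.intervalIntegrable _ _)).symm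
    have h2 : ∫ t in (1 / k : ℝ)..s, Real.smoothTransition (k * t) = ∫ _ in (1 / k : ℝ)..s, (1 : ℝ) := by
      refine intervalIntegral.integral_congr fun t ht => ?_
      rw [uIcc_of_le h.le] at ht
      have h3 : 1 / k ≤ t := ht.1
      rw [div_le_iff₀ hk0] at h3
      exact Real.smoothTransition.one_of_one_le (by linarith)
    rw [intervalIntegral.integral_const, smul_eq_mul, mul_one] at h2
    have h4 : 0 ≤ ∫ t in (0 : ℝ)..(1 / k), Real.smoothTransition (k * t) :=
      intervalIntegral.integral_nonneg (by positivity) fun t _ => Real.smoothTransition.nonneg _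
    rw [h1, h2, max_eq_left hs.le]
    linarith

lemma dst_nonneg (y : ℝ) : 0 ≤ deriv Real.smoothTransition y := by
  have h1 := th'_nonneg ((y + 4) / 4)
  unfold th' at h1
  have e : 4 * ((y + 4) / 4) - 4 = y := by ring
  rw [e] at h1
  linarith

lemma st_hd (k : ℕ) (s : ℝ) : HasDerivAt (fun s : ℝ => Real.smoothTransition (k * s))
    (k * deriv Real.smoothTransition (k * s)) s := by
  have h3 : DifferentiableAt ℝ Real.smoothTransition (k * s) :=
    (Real.smoothTransition.contDiff (n := 1)).differentiable (by norm_num) _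
  have h1 : HasDerivAt (fun s : ℝ => (k : ℝ) * s) (k : ℝ) s := by
    simpa using (hasDerivAt_id s).const_mul (k : ℝ)
  have h2 := h3.hasDerivAt.comp s h1
  refine h2.congr_deriv ?_
  ring

lemma cvx_pd2 (j : Fin 3) (x : V) :
    H459R3.NS.pd j (H459R3.NS.pd j (fun x => cvx k (1 - qI I x₀ x / ρ ^ 2))) x
    = if j ∈ I then k * deriv Real.smoothTransition (k * (1 - qI I x₀ x / ρ ^ 2))
        * (2 * (x j - x₀ j) / ρ ^ 2) ^ 2
        - Real.smoothTransition (k * (1 - qI I x₀ x / ρ ^ 2)) * (2 / ρ ^ 2) else 0 := by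
  by_cases hk : j ∈ I
  · have e1 : H459R3.NS.pd j (fun x => cvx k (1 - qI I x₀ x / ρ ^ 2)) = fun x =>
        (fun x => Real.smoothTransition (k * (1 - qI I x₀ x / ρ ^ 2))) x
          * (fun x => 2 * (x j - x₀ j) / (-ρ ^ 2)) x := by
      funext y
      rw [prof_pd (cvx_hd k), if_pos hk]
      simp only
      rw [div_neg, neg_div]
    have s1 : ContDiff ℝ ∞ fun x => Real.smoothTransition (k * (1 - qI I x₀ x / ρ ^ 2)) := by
      refine (st_cd k).comp (f := fun x => 1 - qI I x₀ x / ρ ^ 2) ?_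
      unfold qI
      fun_prop
    have s2 : ContDiff ℝ ∞ fun x : V => 2 * (x j - x₀ j) / (-ρ ^ 2) := by fun_prop
    rw [e1, pd_mul' s1 s2 j x, lin_pd, if_pos hk, prof_pd (st_hd k), if_pos hk]
    simp only [div_neg, neg_div]
    ring
  · have e1 : H459R3.NS.pd j (fun x => cvx k (1 - qI I x₀ x / ρ ^ 2)) = fun _ => 0 := by
      funext y
      rw [prof_pd (cvx_hd k), if_neg hk]
    rw [e1, if_neg hk]
    show fderiv ℝ (fun _ : V => (0 : ℝ)) x (Pi.single j 1) = _
    simp

lemma nb_iff (hR : 0 < ρ) (x : V) : x ∈ nb I x₀ ρ ↔ 0 < 1 - qI I x₀ x / ρ ^ 2 := by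
  rw [sub_pos, div_lt_one (by positivity), ← dI_sq]
  show dI I x₀ x < ρ ↔ _
  exact (pow_lt_pow_iff_left₀ (dI_nonneg I x₀ x) hR.le (by norm_num)).symm

lemma cvx_lp (hρ : 0 < ρ) (x : V) : -((nb I x₀ ρ).indicator (fun _ => 6 / ρ ^ 2) x)
    ≤ lp (fun x => cvx k (1 - qI I x₀ x / ρ ^ 2)) x := by
  unfold OS.lp
  simp only [cvx_pd2]
  have h1 : ∀ j : Fin 3, -((nb I x₀ ρ).indicator (fun _ => 2 / ρ ^ 2) x)
      ≤ if j ∈ I then k * deriv Real.smoothTransition (k * (1 - qI I x₀ x / ρ ^ 2))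
        * (2 * (x j - x₀ j) / ρ ^ 2) ^ 2
        - Real.smoothTransition (k * (1 - qI I x₀ x / ρ ^ 2)) * (2 / ρ ^ 2) else 0 := by
    intro j
    have h2 : 0 ≤ (nb I x₀ ρ).indicator (fun _ => 2 / ρ ^ 2) x :=
      indicator_nonneg (fun _ _ => by positivity) x
    split_ifs with hj
    · have h3 : 0 ≤ k * deriv Real.smoothTransition (k * (1 - qI I x₀ x / ρ ^ 2))
          * (2 * (x j - x₀ j) / ρ ^ 2) ^ 2 :=
        mul_nonneg (mul_nonneg (Nat.cast_nonneg k) (dst_nonneg _)) (sq_nonneg _)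
      have h4 : Real.smoothTransition (k * (1 - qI I x₀ x / ρ ^ 2)) * (2 / ρ ^ 2)
          ≤ (nb I x₀ ρ).indicator (fun _ => 2 / ρ ^ 2) x := by
        by_cases hx : x ∈ nb I x₀ ρ
        · rw [indicator_of_mem hx]
          exact mul_le_of_le_one_left (by positivity) (Real.smoothTransition.le_one _)
        · rw [indicator_of_notMem hx]
          rw [nb_iff hρ, not_lt] at hx
          rw [Real.smoothTransition.zero_of_nonpos
            (mul_nonpos_of_nonneg_of_nonpos (Nat.cast_nonneg k) hx), zero_mul]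
      linarith
    · linarith
  have h2 := Finset.sum_le_sum fun j (_ : j ∈ (Finset.univ : Finset (Fin 3))) => h1 j
  refine le_trans (le_of_eq ?_) h2
  rw [Finset.sum_const, Finset.card_univ, Fintype.card_fin, nsmul_eq_mul]
  by_cases hx : x ∈ nb I x₀ ρ
  · rw [indicator_of_mem hx, indicator_of_mem hx]
    push_cast
    ring
  · rw [indicator_of_notMem hx, indicator_of_notMem hx]
    ring

end

section
variable {I : Finset (Fin 3)} {T t₀ E ρ s t A : ℝ} {x₀ x : V} {k : ℕ} {u : ℝ → V → V}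
  {p : ℝ → V → ℝ}

/-- The net inflow is bounded by the energy. -/
lemma Ah_up (h : HS 1 T u p) (hs : 0 < s) (hst : s ≤ t) (ht : t < T) (hρ : 0 < ρ)
    (htr : t - s ≤ ρ ^ 2) (hA0 : 0 ≤ A)
    (hA : ∀ τ ∈ Icc s t, ∫⁻ x in nb I x₀ ρ, ENNReal.ofReal (nw (cw u τ) x) ≤ ENNReal.ofReal A) :
    ∫ τ in Ioc s t, Ah I x₀ 1 ρ (cw u τ) (p τ) ≤ 7 / 2 * A := by
  have hI0 : ∀ τ ∈ Icc s t, τ ∈ Ioo 0 T := fun τ hτ => ⟨hs.trans_le hτ.1, hτ.2.trans_lt ht⟩
  have hw : ∀ τ ∈ Icc s t, ∀ i, HF (cw u τ i) := fun τ hτ i => h.cw_HF (hI0 τ hτ) i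
  have hqm : Measurable (qI I x₀) := (qI_cont I x₀).measurable
  -- the density
  obtain ⟨J₀, hJ₀⟩ : ∃ J₀ : ℝ × V → ℝ, J₀ = fun z => -wk (cw u z.1) (p z.1) z.2
      - 1 * gw (cw u z.1) z.2 := ⟨_, rfl⟩
  have hJi : Integrable J₀ ((volume.restrict (Ioc s t)).prod volume) := by
    rw [hJ₀]
    exact Jd_int h hs ht
  obtain ⟨C, hC⟩ : ∃ C : ℝ, C = ∫ τ in Ioc s t, ∫ x, ‖J₀ (τ, x)‖ := ⟨_, rfl⟩
  have hCi : IntegrableOn (fun τ => ∫ x, ‖J₀ (τ, x)‖) (Ioc s t) := hJi.norm.integral_prod_left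
  have hC0 : 0 ≤ C := by
    rw [hC]
    exact integral_nonneg fun τ => integral_nonneg fun x => norm_nonneg _
  have hv1 : ∀ x, 1 - qI I x₀ x / ρ ^ 2 ≤ 1 := by
    intro x
    have : 0 ≤ qI I x₀ x / ρ ^ 2 := div_nonneg (qI_nonneg I x₀ x) (by positivity)
    linarith
  have key : ∀ k : ℕ, 0 < k → ∫ τ in Ioc s t, Ah I x₀ 1 ρ (cw u τ) (p τ) ≤ 7 / 2 * A + C * (1 / k) := by
    intro k hk
    obtain ⟨Φ, hΦe⟩ : ∃ Φ : V → ℝ, Φ = fun x => cvx k (1 - qI I x₀ x / ρ ^ 2) := ⟨_, rfl⟩
    have hΦ : BF Φ := by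
      rw [hΦe]
      exact prof_BF (cvx_cd k) (fun s hs => cvx_neg hs) hρ
    have hΦ0 : ∀ x, 0 ≤ Φ x := fun x => by rw [hΦe]; exact cvx_nonneg _ _
    have hΦ1 : ∀ x, Φ x ≤ 1 := fun x => by
      rw [hΦe]
      exact (cvx_le _ _).trans (max_le (hv1 x) zero_le_one)
    have hΦs : ∀ x ∉ nb I x₀ ρ, Φ x = 0 := fun x hx => by
      rw [nb_iff hρ, not_lt] at hx
      rw [hΦe]
      exact cvx_neg hx
    have e1 := wid h hs hst ht (Ψ := fun _ => Φ) (J_const hΦ.sm) (UB_const hΦ) (by
      have : (fun (τ : ℝ) (x : V) => deriv (fun _ : ℝ => Φ x) τ) = fun _ _ => 0 := by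
        funext τ x
        simp
      rw [this]
      exact UB_zero _)
    have hen : ∀ τ ∈ Icc s t, enW (cw u τ) Φ ≤ A := by
      intro τ hτ
      rw [← ENNReal.ofReal_le_ofReal_iff hA0, enW_lint (hw τ hτ) hΦ hΦ0]
      refine le_trans ?_ (hA τ hτ)
      rw [← lintegral_indicator nb_meas]
      refine lintegral_mono fun x => ?_
      by_cases hx : x ∈ nb I x₀ ρ
      · simp only [indicator_of_mem hx]
        refine mul_le_of_le_one_right bot_le ?_
        rw [ENNReal.ofReal_le_one]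
        exact hΦ1 x
      · simp only [hΦs x hx, ENNReal.ofReal_zero, mul_zero, zero_le]
    have hen0 : 0 ≤ enW (cw u s) Φ := by
      unfold enW
      exact integral_nonneg fun x => mul_nonneg (Finset.sum_nonneg fun i _ => sq_nonneg _) (hΦ0 x)
    have hlp : ∀ τ ∈ Icc s t, -(6 / ρ ^ 2 * A) ≤ enW (cw u τ) (lp Φ) := by
      intro τ hτ
      have hlB : BF (lp Φ) := by
        have : lp Φ = fun x => ∑ j, H459R3.NS.pd j (H459R3.NS.pd j Φ) x := rfl
        rw [this]
        exact UB.sum fun j => (UB.pd (UB.pd hΦ j) j)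
      have m1 : ∀ i, Measurable (cw u τ i) := fun i => (hw τ hτ i).sm.continuous.measurable
      have i0 : Integrable (nw (cw u τ)) := by
        have h1 : ∀ i, Integrable fun x => cw u τ i x ^ 2 := fun i => by
          simpa using sqB_int (hw τ hτ i) BF_one
        exact integrable_finsetSum _ fun i _ => h1 i
      have i1 : Integrable fun x => nw (cw u τ) x * lp Φ x := by
        have h1 : ∀ i, Integrable fun x => cw u τ i x ^ 2 * lp Φ x := fun i => sqB_int (hw τ hτ i) hlB
        have h2 := integrable_finsetSum Finset.univ fun i (_ : i ∈ Finset.univ) => h1 i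
        refine h2.congr (Eventually.of_forall fun x => ?_)
        simp only
        rw [← Finset.sum_mul]
        rfl
      have i2 : Integrable fun x => nw (cw u τ) x * (nb I x₀ ρ).indicator (fun _ => 6 / ρ ^ 2) x := by
        have i3 : Integrable ((nb I x₀ ρ).indicator fun x => 6 / ρ ^ 2 * nw (cw u τ) x) :=
          (i0.const_mul (6 / ρ ^ 2)).indicator nb_meas
        refine i3.congr (Eventually.of_forall fun x => ?_)
        simp only
        by_cases hx : x ∈ nb I x₀ ρ
        · rw [indicator_of_mem hx, indicator_of_mem hx, mul_comm]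
        · rw [indicator_of_notMem hx, indicator_of_notMem hx, mul_zero]
      have h3 : 0 ≤ ∫ x, (nw (cw u τ) x * lp Φ x
          + nw (cw u τ) x * (nb I x₀ ρ).indicator (fun _ => 6 / ρ ^ 2) x) := by
        refine integral_nonneg fun x => ?_
        have h4 := cvx_lp (I := I) (x₀ := x₀) (k := k) hρ x
        rw [← hΦe] at h4
        have h5 := nw_nonneg (cw u τ) x
        show 0 ≤ nw (cw u τ) x * lp Φ x
          + nw (cw u τ) x * (nb I x₀ ρ).indicator (fun _ => 6 / ρ ^ 2) x
        rw [← mul_add]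
        exact mul_nonneg h5 (by linarith)
      rw [integral_add i1 i2] at h3
      have h4 : ∫ x, nw (cw u τ) x * (nb I x₀ ρ).indicator (fun _ => 6 / ρ ^ 2) x ≤ 6 / ρ ^ 2 * A := by
        have e2 : (fun x => nw (cw u τ) x * (nb I x₀ ρ).indicator (fun _ => 6 / ρ ^ 2) x)
            = (nb I x₀ ρ).indicator fun x => 6 / ρ ^ 2 * nw (cw u τ) x := by
          funext x
          by_cases hx : x ∈ nb I x₀ ρ
          · rw [indicator_of_mem hx, indicator_of_mem hx, mul_comm]
          · rw [indicator_of_notMem hx, indicator_of_notMem hx, mul_zero]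
        rw [e2, integral_indicator nb_meas, integral_const_mul]
        refine mul_le_mul_of_nonneg_left ?_ (by positivity)
        have h5 := hA τ hτ
        rw [← ofReal_integral_eq_lintegral_ofReal i0.integrableOn
          (Eventually.of_forall fun x => nw_nonneg _ _)] at h5
        exact (ENNReal.ofReal_le_ofReal_iff hA0).1 h5
      have e3 : enW (cw u τ) (lp Φ) = ∫ x, nw (cw u τ) x * lp Φ x := rfl
      rw [e3]
      linarith
    -- the flux
    have hfl : ∀ τ ∈ Icc s t, - (2 * 1 * dsW (cw u τ) Φ) + flW (cw u τ) (p τ) Φ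
        = 2 * ∫ x, J₀ (τ, x) * Φ x := by
      intro τ hτ
      have hq : HF (p τ) := h.p_HF (hI0 τ hτ)
      rw [flW_wk (hw τ hτ) (h.div τ (hI0 τ hτ)) hq hΦ]
      have mΦ : AEStronglyMeasurable Φ volume := hΦ.sm.continuous.aestronglyMeasurable
      have hb : ∀ x : V, ‖Φ x‖ ≤ 1 := fun x => by
        rw [Real.norm_eq_abs, abs_of_nonneg (hΦ0 x)]
        exact hΦ1 x
      have i1 : Integrable fun x => wk (cw u τ) (p τ) x * Φ x :=
        (wk_int (hw τ hτ) hq).mul_bdd mΦ (Eventually.of_forall hb)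
      have i2 : Integrable fun x => gw (cw u τ) x * Φ x :=
        (gw_int (hw τ hτ)).mul_bdd mΦ (Eventually.of_forall hb)
      have i1' : Integrable fun x => -(wk (cw u τ) (p τ) x * Φ x) := i1.neg
      have e2 : ∫ x, J₀ (τ, x) * Φ x = -(∫ x, wk (cw u τ) (p τ) x * Φ x)
          - ∫ x, gw (cw u τ) x * Φ x := by
        rw [← integral_neg, ← integral_sub i1' i2]
        congr 1
        funext x
        rw [hJ₀]
        ring
      have e3 : dsW (cw u τ) Φ = ∫ x, gw (cw u τ) x * Φ x := rfl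
      rw [e2, e3]
      ring
    -- the comparison
    have hcmp : ∀ τ ∈ Icc s t, Ah I x₀ 1 ρ (cw u τ) (p τ)
        ≤ (∫ x, J₀ (τ, x) * Φ x) + (∫ x, ‖J₀ (τ, x)‖) * (1 / k) := by
      intro τ hτ
      have hq : HF (p τ) := h.p_HF (hI0 τ hτ)
      have hF : ∑ j, gF (cw u τ) (p τ) (cw u τ j) ≠ (⊤ : ℝ≥0∞) := gF_fin h (hI0 τ hτ)
      rw [Ah_net (hw τ hτ) (h.div τ (hI0 τ hτ)) hq hρ hF]
      have mΦ : AEStronglyMeasurable Φ volume := hΦ.sm.continuous.aestronglyMeasurable
      have hb : ∀ x : V, ‖Φ x‖ ≤ 1 := fun x => by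
        rw [Real.norm_eq_abs, abs_of_nonneg (hΦ0 x)]
        exact hΦ1 x
      have iJ : Integrable fun x => J₀ (τ, x) := by
        rw [hJ₀]
        exact (wk_int (hw τ hτ) hq).neg.sub ((gw_int (hw τ hτ)).const_mul 1)
      have hm : Measurable fun x : V => max (1 - qI I x₀ x / ρ ^ 2) 0 :=
        (((hqm.div_const _).const_sub 1)).max measurable_const
      have hb2 : ∀ x : V, ‖max (1 - qI I x₀ x / ρ ^ 2) 0‖ ≤ 1 := by
        intro x
        rw [Real.norm_eq_abs, abs_of_nonneg (le_max_right _ _)]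
        exact max_le (hv1 x) zero_le_one
      have i1 : Integrable fun x => J₀ (τ, x) * max (1 - qI I x₀ x / ρ ^ 2) 0 :=
        iJ.mul_bdd hm.aestronglyMeasurable (Eventually.of_forall hb2)
      have i2 : Integrable fun x => J₀ (τ, x) * Φ x := iJ.mul_bdd mΦ (Eventually.of_forall hb)
      have i3 : Integrable fun x => ‖J₀ (τ, x)‖ * (1 / (k : ℝ)) := iJ.norm.mul_const _
      have e2 : ∫ x, (-wk (cw u τ) (p τ) x - 1 * gw (cw u τ) x) * max (1 - qI I x₀ x / ρ ^ 2) 0
          = ∫ x, J₀ (τ, x) * max (1 - qI I x₀ x / ρ ^ 2) 0 := by rw [hJ₀]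
      rw [e2, ← integral_mul_const, ← integral_add i2 i3]
      refine integral_mono i1 (i2.add i3) fun x => ?_
      simp only
      have h1 := cvx_low hk (1 - qI I x₀ x / ρ ^ 2)
      have h2 := cvx_le k (1 - qI I x₀ x / ρ ^ 2)
      have h3 : |max (1 - qI I x₀ x / ρ ^ 2) 0 - Φ x| ≤ 1 / k := by
        rw [hΦe, abs_le]
        constructor
        · have : (0 : ℝ) ≤ 1 / k := by positivity
          linarith
        · linarith
      have h4 : J₀ (τ, x) * (max (1 - qI I x₀ x / ρ ^ 2) 0 - Φ x) ≤ ‖J₀ (τ, x)‖ * (1 / k) := by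
        refine (le_abs_self _).trans ?_
        rw [abs_mul]
        exact mul_le_mul_of_nonneg_left h3 (abs_nonneg _)
      linarith
    have hsub : Ioc s t ⊆ Icc s t := Ioc_subset_Icc_self
    have hzero : ∀ τ, enW (cw u τ) (fun x => deriv (fun _ : ℝ => Φ x) τ) = 0 := by
      intro τ
      unfold enW
      simp
    -- integrate
    have i5 : IntegrableOn (fun τ => ∫ x, J₀ (τ, x) * Φ x) (Ioc s t) := by
      have h1 : Integrable (fun z : ℝ × V => J₀ z * Φ z.2) ((volume.restrict (Ioc s t)).prod volume) := by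
        refine hJi.mul_bdd (c := 1) ?_ (Eventually.of_forall fun z => ?_)
        · exact (hΦ.sm.continuous.comp continuous_snd).aestronglyMeasurable
        · rw [Real.norm_eq_abs, abs_of_nonneg (hΦ0 _)]
          exact hΦ1 _
      exact h1.integral_prod_left
    have i6 : IntegrableOn (fun τ => Ah I x₀ 1 ρ (cw u τ) (p τ)) (Ioc s t) :=
      (swapG (T' := T) (C₀ := 0) (D := fun _ _ => 0) (R := ρ + 1) measurable_const
        (fun _ _ _ _ _ => by simp) le_rfl h hs ht (by linarith) I x₀).1 ρ ⟨hρ, by linarith⟩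
    have b1 : ∫ τ in Ioc s t, Ah I x₀ 1 ρ (cw u τ) (p τ)
        ≤ (∫ τ in Ioc s t, ∫ x, J₀ (τ, x) * Φ x) + C * (1 / k) := by
      rw [hC, ← integral_mul_const, ← integral_add i5 (hCi.mul_const _)]
      exact setIntegral_mono_on i6 (i5.add (hCi.mul_const _)) measurableSet_Ioc fun τ hτ =>
        hcmp τ (hsub hτ)
    have b2 : 2 * (∫ τ in Ioc s t, ∫ x, J₀ (τ, x) * Φ x) ≤ A + 6 * A := by
      have e2 : ∫ τ in Ioc s t, (2 * (∫ x, J₀ (τ, x) * Φ x) - 6 / ρ ^ 2 * A)
          ≤ enW (cw u t) Φ - enW (cw u s) Φ := by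
        rw [e1.2, add_sub_cancel_left]
        have i7 : IntegrableOn (fun _ : ℝ => 6 / ρ ^ 2 * A) (Ioc s t) := by
          refine integrableOn_const ?_ enorm_ne_top
          rw [Real.volume_Ioc]
          exact ENNReal.ofReal_ne_top
        refine setIntegral_mono_on ((i5.const_mul 2).sub i7) e1.1 measurableSet_Ioc fun τ hτ => ?_
        have h1 := hlp τ (hsub hτ)
        have h2 := hfl τ (hsub hτ)
        rw [hzero τ, ← h2]
        linarith
      rw [integral_sub (i5.const_mul 2) (by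
        refine integrableOn_const ?_ enorm_ne_top
        rw [Real.volume_Ioc]
        exact ENNReal.ofReal_ne_top), integral_const_mul, setIntegral_const] at e2
      simp only [Measure.real, Real.volume_Ioc] at e2
      rw [ENNReal.toReal_ofReal (by linarith), smul_eq_mul] at e2
      have h1 := hen t ⟨hst, le_rfl⟩
      have h2 : (t - s) * (6 / ρ ^ 2 * A) ≤ 6 * A := by
        calc (t - s) * (6 / ρ ^ 2 * A) ≤ ρ ^ 2 * (6 / ρ ^ 2 * A) :=
              mul_le_mul_of_nonneg_right htr (by positivity)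
          _ = 6 * A := by field_simp
      linarith
    linarith
  refine le_of_forall_pos_le_add fun δ hδ => ?_
  obtain ⟨k, hk⟩ := exists_nat_gt (C / δ + 1)
  have hk0 : (0 : ℝ) < k := lt_trans (by positivity) hk
  have h1 := key k (by exact_mod_cast hk0)
  have h2 : C * (1 / k) ≤ δ := by
    rw [mul_one_div, div_le_iff₀ hk0]
    have h3 : C / δ < k := by linarith
    rw [div_lt_iff₀ hδ] at h3
    linarith
  linarith

end

end Pool.Agent.H305.EG
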