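import Pool.Agent.H305.EG.Sf

/-!
The energy inequality with a bound for the inflow which depends on the radius.
-/

set_option autoImplicit false

open MeasureTheory Set Metric Filter Topology
open scoped ContDiff ENNReal

namespace Pool.Agent.H305.EG

open H459R3.NS W221.NS Pool.Agent.V1183.PM Pool.Agent.H305.OS Pool.Agent.H305.SL Pool.Agent.H305.PL
  Pool.Agent.H305.EF

section
variable {ν T t₀ t₁ s T' R r r' ρ z d τ E ε : ℝ} {u : ℝ → V → V} {p : ℝ → V → ℝ}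
  {I : Finset (Fin 3)} {x₀ : V} {n k : ℕ} {F : ℝ → ℝ}

/-- The energy inequality. -/
lemma en_Qe (h : ST 1 T u p t₀ E) (hI : I.card = n + 1) (hn : 1 ≤ n) (hr' : 0 ≤ r') (hR : 0 < R)
    (x₀ : V) {e : ℝ → ℝ} (he : ∀ ρ, 0 ≤ e ρ) (hyp : ∀ ρ ∈ Ioo r' R, ∀ t t', t₀ ≤ t → t ≤ t' →
      t' < T → T - t ≤ ρ ^ 2 → ∫ τ in Ioc t t', Ah I x₀ 1 ρ (cw u τ) (p τ) ≤ e ρ * ρ)
    (hts : t₀ ≤ s) (hs : s < T) (hT1 : T ≤ T') (hT2 : T' ≤ T + 1) (hrT : r' ^ 2 ≤ T' - s)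
    (hei : IntegrableOn (fun ρ => e ρ * ((√(√(T' - s) + ρ))⁻¹) ^ 3) (Ioo 0 R)) :
    enW (cw u s) (Ps I x₀ T' s) ≤ enW (cw u t₀) (Ps I x₀ T' t₀)
        + (3072 * (∫ ρ in Ioo 0 R, e ρ * ((√(√(T' - s) + ρ))⁻¹) ^ 3)
          + 16 * √(√(T + 1)) * (R⁻¹) ^ 3 * ∫ τ in Ioc t₀ s, (Fx u p τ).toReal) := by
  obtain ⟨K₃, hK₃e⟩ : ∃ K : ℝ, K = 16 * √(√(T + 1)) * (R⁻¹) ^ 3 := ⟨_, rfl⟩
  rw [← hK₃e]
  have hK₃ : 0 ≤ K₃ := by rw [hK₃e]; positivity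
  have ht₁0 : 0 < t₀ := h.t0
  have hsT' : s < T' := hs.trans_le hT1
  have hK := wid h.toHS ht₁0 hts hs (Ps_J hT1 I x₀) (Ps_ub hI ht₁0 hts hsT' x₀)
    (Ps_ubt hI ht₁0 hts hsT' x₀)
  have hsz : 0 < T' - s := by linarith
  obtain ⟨w1, w2, w3, w4⟩ := swapG (T' := T') (C₀ := (1 + (T' - s)) * ((T' - s) ^ 3)⁻¹) Dz_meas
    (fun ρ _ z hz _ => Dz_bd hsz hz) (by positivity) h.toHS ht₁0 hs hR I x₀
  have hsub : Ioc t₀ s ⊆ Ioo t₀ T := fun τ hτ => ⟨hτ.1, hτ.2.trans_lt hs⟩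
  have hF' : IntegrableOn (fun τ => (Fx u p τ).toReal) (Ioc t₀ s) := h.Fx_int.mono_set hsub
  obtain ⟨r, hr, hr2⟩ : ∃ r : ℝ, 0 < r ∧ r = √(T' - s) :=
    ⟨√(T' - s), Real.sqrt_pos.2 (by linarith), rfl⟩
  have hrs : r ^ 2 = T' - s := by rw [hr2, Real.sq_sqrt (by linarith)]
  have hr'r : r' ≤ r := by
    rw [hr2]
    exact Real.le_sqrt_of_sq_le hrT
  have j12 : IntegrableOn (fun τ => 2 * (∫ x, GD Dz I x₀ 1 R T' u p τ x)
      + K₃ * (Fx u p τ).toReal) (Ioc t₀ s) := (w3.const_mul 2).add (hF'.const_mul K₃)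
  have hmono := setIntegral_mono_on hK.1 j12 measurableSet_Ioc fun τ hτ => by
    have hτ0 : τ ∈ Ioo 0 T := ⟨ht₁0.trans hτ.1, hτ.2.trans_lt hs⟩
    have hw : ∀ i, HF (cw u τ i) := fun i => h.toHS.cw_HF hτ0 i
    have a1 := flP (I := I) (x₀ := x₀) (n := n) (Z := T + 1) hR hτ0.1 (hτ.2.trans_lt hsT') hI
      (by linarith [hτ0.1]) hw (h.toHS.p_HF hτ0) (h.Fx_fin ⟨hτ.1.le, hτ.2.trans_lt hs⟩)
    have a2 := sbP (x₀ := x₀) hI hn hτ0.1 (hτ.2.trans_lt hsT') hw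
    rw [← hK₃e] at a1
    show - (2 * 1 * dsW (cw u τ) (Ps I x₀ T' τ)) + 1 * enW (cw u τ) (lp (Ps I x₀ T' τ))
      + flW (cw u τ) (p τ) (Ps I x₀ T' τ) + enW (cw u τ) (fun x => deriv (fun r => Ps I x₀ T' r x) τ)
      ≤ 2 * (∫ x, GD Dz I x₀ 1 R T' u p τ x) + K₃ * (Fx u p τ).toReal
    linarith
  rw [integral_add (w3.const_mul 2) (hF'.const_mul K₃), integral_const_mul, integral_const_mul, w4]
    at hmono
  rw [← hr2] at hei ⊢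
  have hρ : ∫ ρ in Ioo 0 R, ∫ τ in Ioc t₀ s, mD Dz ρ (T' - τ) * Ah I x₀ 1 ρ (cw u τ) (p τ)
      ≤ 1536 * ∫ ρ in Ioo 0 R, e ρ * ((√(r + ρ))⁻¹) ^ 3 := by
    rw [← integral_const_mul]
    refine setIntegral_mono_on w2 (hei.const_mul 1536) measurableSet_Ioo fun ρ hρ => ?_
    have h1 := mD_F' hts hr hrs hT1 (he ρ) hρ.1 (w1 ρ hρ)
      (fun h0 t t' h1 h2 h3 h4 => hyp ρ ⟨hr'r.trans_lt h0, hρ.2⟩ t t' h1 h2 (h3.trans_lt hs) h4)
    refine h1.trans (le_of_eq ?_)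
    ring
  rw [hK.2]
  refine add_le_add le_rfl (hmono.trans ?_)
  linarith

end

/-- The scales. -/
noncomputable def sc (j : ℕ) : ℝ := (1 / 2 : ℝ) ^ j

/-- Their square roots. -/
noncomputable def kp : ℝ := √(1 / 2)

lemma kp_pos : 0 < kp := Real.sqrt_pos.2 (by norm_num)

lemma kp_sq : kp ^ 2 = 1 / 2 := Real.sq_sqrt (by norm_num)

lemma kp_lt : kp < 1 := by
  have h1 := kp_sq
  have h2 := kp_pos
  nlinarith

lemma sc_pos (j : ℕ) : 0 < sc j := by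
  unfold sc
  positivity

lemma sc_le (j : ℕ) : sc j ≤ 1 := pow_le_one₀ (by norm_num) (by norm_num)

lemma sc_succ (j : ℕ) : sc (j + 1) = sc j / 2 := by
  unfold sc
  rw [pow_succ]
  ring

lemma sc_anti {i j : ℕ} (h : i ≤ j) : sc j ≤ sc i :=
  pow_le_pow_of_le_one (by norm_num) (by norm_num) h

lemma sc_lt {i j : ℕ} (h : sc j < sc i) : i < j := by
  by_contra hc
  exact absurd (sc_anti (not_lt.1 hc)) (not_le.2 h)

lemma sqrt_sc (j : ℕ) : √(sc j) = kp ^ j := by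
  have h1 : sc j = (kp ^ j) ^ 2 := by
    unfold sc
    rw [← pow_mul, mul_comm, pow_mul, kp_sq]
  rw [h1, Real.sqrt_sq (pow_nonneg kp_pos.le j)]

/-- The step functions. -/
noncomputable def stp (S : Finset ℕ) (ε : ℝ) (B : ℕ → ℝ) (ρ : ℝ) : ℝ :=
  ε + ∑ j ∈ S, (Ioc (sc (j + 1)) (sc j)).indicator (fun _ => B j) ρ

lemma stp_nonneg {S : Finset ℕ} {ε : ℝ} {B : ℕ → ℝ} (hε : 0 ≤ ε) (hB : ∀ j ∈ S, 0 ≤ B j) (ρ : ℝ) :
    0 ≤ stp S ε B ρ :=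
  add_nonneg hε (Finset.sum_nonneg fun j hj => indicator_nonneg (fun _ _ => hB j hj) ρ)

lemma stp_ge {S : Finset ℕ} {ε : ℝ} {B : ℕ → ℝ} (hε : 0 ≤ ε) (hB : ∀ j ∈ S, 0 ≤ B j) {j : ℕ}
    (hj : j ∈ S) {ρ : ℝ} (hρ : ρ ∈ Ioc (sc (j + 1)) (sc j)) : B j ≤ stp S ε B ρ := by
  unfold stp
  have h1 : (Ioc (sc (j + 1)) (sc j)).indicator (fun _ => B j) ρ
      ≤ ∑ j ∈ S, (Ioc (sc (j + 1)) (sc j)).indicator (fun _ => B j) ρ :=
    Finset.single_le_sum (f := fun j => (Ioc (sc (j + 1)) (sc j)).indicator (fun _ => B j) ρ)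
      (fun i hi => indicator_nonneg (fun _ _ => hB i hi) ρ) hj
  rw [indicator_of_mem hρ] at h1
  linarith

lemma stp_int {S : Finset ℕ} {ε : ℝ} {B : ℕ → ℝ} (hε : 0 ≤ ε) (hB : ∀ j ∈ S, 0 ≤ B j) {r R : ℝ}
    (hr : 0 < r) (hR : 0 < R) :
    IntegrableOn (fun ρ => stp S ε B ρ * ((√(r + ρ))⁻¹) ^ 3) (Ioo 0 R) ∧
    ∫ ρ in Ioo 0 R, stp S ε B ρ * ((√(r + ρ))⁻¹) ^ 3
      ≤ 2 * ε * (√r)⁻¹ + ∑ j ∈ S, B j * (kp ^ (j + 1))⁻¹ := by
  obtain ⟨r1, r2⟩ := rad_intP hr hR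
  obtain ⟨g, hg⟩ : ∃ g : ℝ → ℝ, g = fun ρ => ((√(r + ρ))⁻¹) ^ 3 := ⟨_, rfl⟩
  have hg0 : ∀ ρ, 0 ≤ g ρ := fun ρ => by rw [hg]; positivity
  rw [← hg] at r1
  have e1 : (fun ρ => stp S ε B ρ * ((√(r + ρ))⁻¹) ^ 3)
      = fun ρ => ε * g ρ + ∑ j ∈ S, B j * (Ioc (sc (j + 1)) (sc j)).indicator g ρ := by
    funext ρ
    rw [hg]
    unfold stp
    rw [add_mul, Finset.sum_mul]
    congr 1
    refine Finset.sum_congr rfl fun j _ => ?_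
    by_cases hρ : ρ ∈ Ioc (sc (j + 1)) (sc j)
    · rw [indicator_of_mem hρ, indicator_of_mem hρ]
    · rw [indicator_of_notMem hρ, indicator_of_notMem hρ, zero_mul, mul_zero]
  have i1 : ∀ j ∈ S, IntegrableOn (fun ρ => B j * (Ioc (sc (j + 1)) (sc j)).indicator g ρ) (Ioo 0 R) :=
    fun j _ => (r1.indicator measurableSet_Ioc).const_mul (B j)
  have i2 : IntegrableOn (fun ρ => ε * g ρ) (Ioo 0 R) := r1.const_mul ε
  have i3 : IntegrableOn (fun ρ => ∑ j ∈ S, B j * (Ioc (sc (j + 1)) (sc j)).indicator g ρ)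
      (Ioo 0 R) := integrable_finsetSum S i1
  rw [e1]
  refine ⟨i2.add i3, ?_⟩
  rw [integral_add i2 i3, integral_finsetSum S i1, integral_const_mul]
  refine add_le_add ?_ (Finset.sum_le_sum fun j hj => ?_)
  · rw [hg]
    nlinarith
  · rw [integral_const_mul]
    refine mul_le_mul_of_nonneg_left ?_ (hB j hj)
    rw [setIntegral_indicator measurableSet_Ioc]
    have hs1 := sc_pos (j + 1)
    have hm : ∀ ρ ∈ Ioo 0 R ∩ Ioc (sc (j + 1)) (sc j), g ρ ≤ (kp ^ (j + 1))⁻¹ ^ 3 := by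
      intro ρ hρ
      rw [hg]
      simp only
      refine pow_le_pow_left₀ (by positivity) (inv_anti₀ (pow_pos kp_pos _) ?_) 3
      rw [← sqrt_sc]
      exact Real.sqrt_le_sqrt (by linarith [hρ.2.1])
    have hvol : volume (Ioo 0 R ∩ Ioc (sc (j + 1)) (sc j)) ≤ ENNReal.ofReal (sc (j + 1)) := by
      refine (measure_mono inter_subset_right).trans (le_of_eq ?_)
      rw [Real.volume_Ioc, sc_succ]
      congr 1
      ring
    have hfin : volume (Ioo 0 R ∩ Ioc (sc (j + 1)) (sc j)) ≠ ⊤ :=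
      ne_top_of_le_ne_top ENNReal.ofReal_ne_top hvol
    have hms : MeasurableSet (Ioo 0 R ∩ Ioc (sc (j + 1)) (sc j)) :=
      measurableSet_Ioo.inter measurableSet_Ioc
    calc ∫ ρ in Ioo 0 R ∩ Ioc (sc (j + 1)) (sc j), g ρ
        ≤ ∫ _ in Ioo 0 R ∩ Ioc (sc (j + 1)) (sc j), (kp ^ (j + 1))⁻¹ ^ 3 :=
          setIntegral_mono_on (r1.mono_set inter_subset_left) (integrableOn_const hfin enorm_ne_top)
            hms hm
      _ = (volume (Ioo 0 R ∩ Ioc (sc (j + 1)) (sc j))).toReal * (kp ^ (j + 1))⁻¹ ^ 3 := by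
          rw [setIntegral_const, smul_eq_mul]
          rfl
      _ ≤ sc (j + 1) * (kp ^ (j + 1))⁻¹ ^ 3 := by
          refine mul_le_mul_of_nonneg_right ?_ (by have := kp_pos; positivity)
          exact ENNReal.toReal_le_of_le_ofReal hs1.le hvol
      _ = (kp ^ (j + 1))⁻¹ := by
          have hk : 0 < kp ^ (j + 1) := pow_pos kp_pos _
          have e2 : sc (j + 1) = kp ^ (j + 1) * kp ^ (j + 1) := by
            rw [← sqrt_sc, Real.mul_self_sqrt hs1.le]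
          rw [e2]
          field_simp

end Pool.Agent.H305.EG
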