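import Pool.Agent.H305.EG.Ta

/-!
The energy at the dyadic scales.
-/

set_option autoImplicit false

open MeasureTheory Set Metric Filter Topology
open scoped ContDiff ENNReal

namespace Pool.Agent.H305.EG

open H459R3.NS W221.NS Pool.Agent.V1183.PM Pool.Agent.H305.OS Pool.Agent.H305.SL Pool.Agent.H305.PL
  Pool.Agent.H305.EF

/-- The hypothesis at the scales outside of `S`. -/
def GS (T t₀ : ℝ) (u : ℝ → V → V) (p : ℝ → V → ℝ) (I : Finset (Fin 3)) (x₀ : V) (S : Finset ℕ)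
    (J N : ℕ) (ε : ℝ) : Prop :=
  ∀ j, J ≤ j → j < N → j ∉ S → ∀ ρ ∈ Ioc (sc (j + 1)) (sc j), ∀ t t', t₀ ≤ t → t ≤ t' → t' < T →
    T - t ≤ ρ ^ 2 → ∫ τ in Ioc t t', Ah I x₀ 1 ρ (cw u τ) (p τ) ≤ ε * ρ

/-- The bound for the energy at the scale `j`. -/
def EB (T t₀ : ℝ) (u : ℝ → V → V) (I : Finset (Fin 3)) (x₀ : V) (j : ℕ) (a : ℝ) : Prop :=
  ∀ s ∈ Ico (T - sc j ^ 2) T, t₀ ≤ s →
    ∫⁻ x in nb I x₀ (sc j), ENNReal.ofReal (nw (cw u s) x) ≤ ENNReal.ofReal (a * sc j)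

/-- The bound for the energy at the scale `i`. -/
lemma stepX {T t₀ E : ℝ} (hT : 0 < T) (ht : t₀ < T) (hE : 0 ≤ E) :
    ∃ K₄ : ℝ, 0 < K₄ ∧ ∃ J₀ : ℕ, (∀ J, J₀ ≤ J → sc J ^ 2 ≤ T - t₀) ∧
    ∀ (u : ℝ → V → V) (p : ℝ → V → ℝ), ST 1 T u p t₀ E →
    ∀ (I : Finset (Fin 3)) (n : ℕ) (x₀ : V) (J i : ℕ) (S : Finset ℕ) (ε : ℝ) (a : ℕ → ℝ),
    I.card = n + 1 → 1 ≤ n → J₀ ≤ J → J ≤ i → 0 ≤ ε → (∀ j, 0 ≤ a j) →
    GS T t₀ u p I x₀ S J i ε → (∀ j ∈ S, J ≤ j → j < i → EB T t₀ u I x₀ j (a j)) →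
    EB T t₀ u I x₀ i (Real.exp (5 / 16) * (K₄ * 8 ^ J * kp ^ i + 6144 * ε
      + 21504 * ∑ j ∈ S.filter (fun j => J ≤ j ∧ j < i), a j * (kp ^ i * (kp ^ (j + 1))⁻¹))) := by
  obtain ⟨K, hK, hF⟩ := Fx_bd
  have hb : 0 < T - t₀ := by linarith
  obtain ⟨F₀, hF₀⟩ : ∃ F₀ : ℝ, F₀ = K * ((E + 1) ^ 2 * (T - t₀ + E)) := ⟨_, rfl⟩
  have hF₀0 : 0 ≤ F₀ := by rw [hF₀]; positivity
  obtain ⟨K₄, hK₄⟩ : ∃ K₄ : ℝ, K₄ = (1 + (T - t₀)⁻¹) * E + 16 * √(√(T + 1)) * F₀ + 1 := ⟨_, rfl⟩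
  have hK₄0 : 0 < K₄ := by rw [hK₄]; positivity
  obtain ⟨J₀, hJ₀⟩ : ∃ J₀ : ℕ, sc J₀ < min 1 (T - t₀) :=
    exists_pow_lt_of_lt_one (by positivity) (by norm_num)
  have hJ : ∀ J, J₀ ≤ J → sc J ^ 2 ≤ T - t₀ := by
    intro J hJ
    have h1 := sc_anti hJ
    have h2 := sc_pos J
    have h3 : sc J ≤ T - t₀ := (h1.trans hJ₀.le).trans (min_le_right _ _)
    have h4 := sc_le J
    nlinarith
  refine ⟨K₄, hK₄0, J₀, hJ, ?_⟩
  intro u p h I n x₀ J i S ε a hI hn hJJ hJi hε ha hG hS s hs hts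
  obtain ⟨S', hS'⟩ : ∃ S' : Finset ℕ, S' = S.filter (fun j => J ≤ j ∧ j < i) := ⟨_, rfl⟩
  rw [← hS']
  obtain ⟨r, hre⟩ : ∃ r : ℝ, r = sc i := ⟨_, rfl⟩
  have hr : 0 < r := by rw [hre]; exact sc_pos i
  have hr1 : r ≤ 1 := by rw [hre]; exact sc_le i
  have hr2 : r ^ 2 ≤ 1 := pow_le_one₀ hr.le hr1
  have hR := sc_pos J
  have hB0 : ∀ j ∈ S', 0 ≤ 7 * a j := fun j _ => by have := ha j; positivity
  have hyp : ∀ ρ ∈ Ioo (sc i) (sc J), ∀ t t', t₀ ≤ t → t ≤ t' → t' < T → T - t ≤ ρ ^ 2 →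
      ∫ τ in Ioc t t', Ah I x₀ 1 ρ (cw u τ) (p τ) ≤ stp S' ε (fun j => 7 * a j) ρ * ρ := by
    intro ρ hρ t t' h1 h2 h3 h4
    have hρ0 : 0 < ρ := (sc_pos i).trans hρ.1
    obtain ⟨j, hj1, hj2⟩ := exists_nat_pow_near_of_lt_one hρ0 (hρ.2.le.trans (sc_le J))
      (by norm_num : (0 : ℝ) < 1 / 2) (by norm_num)
    have hj1 : sc (j + 1) < ρ := hj1
    have hj2 : ρ ≤ sc j := hj2
    have hJj : J ≤ j := by
      have := sc_lt (hj1.trans hρ.2)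
      omega
    have hji : j < i := sc_lt (hρ.1.trans_le hj2)
    by_cases hjS : j ∈ S
    · have hjS' : j ∈ S' := by
        rw [hS', Finset.mem_filter]
        exact ⟨hjS, hJj, hji⟩
      have h5 := hS j hjS hJj hji
      have hρ2 : ρ ^ 2 ≤ sc j ^ 2 := pow_le_pow_left₀ hρ0.le hj2 2
      have h6 := Ah_up (I := I) (x₀ := x₀) (A := a j * sc j) h.toHS (h.t0.trans_le h1) h2 h3 hρ0
        (by linarith) (mul_nonneg (ha j) (sc_pos j).le) (by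
          intro τ hτ
          have h7 : nb I x₀ ρ ⊆ nb I x₀ (sc j) := fun x hx => lt_of_lt_of_le hx hj2
          exact (lintegral_mono_set h7).trans (h5 τ ⟨by linarith [hτ.1], hτ.2.trans_lt h3⟩
            (h1.trans hτ.1)))
      refine h6.trans ?_
      have h7 := stp_ge hε hB0 hjS' (ρ := ρ) ⟨hj1, hj2⟩
      have h8 : sc j ≤ 2 * ρ := by
        rw [sc_succ] at hj1
        linarith
      have h9 := ha j
      calc 7 / 2 * (a j * sc j) ≤ 7 / 2 * (a j * (2 * ρ)) := by gcongr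
        _ = 7 * a j * ρ := by ring
        _ ≤ _ := mul_le_mul_of_nonneg_right h7 hρ0.le
    · refine (hG j hJj hji hjS ρ ⟨hj1, hj2⟩ t t' h1 h2 h3 h4).trans ?_
      refine mul_le_mul_of_nonneg_right ?_ hρ0.le
      unfold stp
      have : 0 ≤ ∑ j ∈ S', (Ioc (sc (j + 1)) (sc j)).indicator (fun _ => 7 * a j) ρ :=
        Finset.sum_nonneg fun j hj => indicator_nonneg (fun _ _ => hB0 j hj) ρ
      linarith
  have hrr : √(s + r ^ 2 - s) = r := by rw [add_sub_cancel_left, Real.sqrt_sq hr.le]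
  obtain ⟨q1, q2⟩ := stp_int hε hB0 hr hR
  have hs' : s ∈ Ico (T - r ^ 2) T := by rw [hre]; exact hs
  have h1 := en_Qe (T' := s + r ^ 2) (e := stp S' ε (fun j => 7 * a j)) h hI hn (sc_pos i).le hR x₀
    (stp_nonneg hε hB0) hyp hts hs.2 (by linarith [hs'.1]) (by linarith [hs.2])
    (by rw [hre, add_sub_cancel_left]) (by rw [hrr]; exact q1)
  rw [hrr] at h1
  have h2 := enP_up (x₀ := x₀) (T' := s + r ^ 2) h hI (by linarith [hs'.1])
  have h5 : ∫ τ in Ioc t₀ s, (Fx u p τ).toReal ≤ ∫ τ in Ioo t₀ T, (Fx u p τ).toReal :=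
    setIntegral_mono_set h.Fx_int (Eventually.of_forall fun _ => ENNReal.toReal_nonneg)
      (show Ioc t₀ s ⊆ Ioo t₀ T from fun τ hτ => ⟨hτ.1, hτ.2.trans_lt hs.2⟩).eventuallyLE
  have h5' := h5.trans (hF 1 T u p t₀ E h)
  rw [← hF₀] at h5'
  have hRe : ((sc J)⁻¹) ^ 3 = 8 ^ J := by
    unfold sc
    rw [← inv_pow, ← pow_mul, mul_comm, pow_mul]
    norm_num
  rw [hRe] at h1
  have h6' := mul_le_mul_of_nonneg_left h5' (by positivity : 0 ≤ 16 * √(√(T + 1)) * (8 : ℝ) ^ J)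
  have hRi : (1 : ℝ) ≤ 8 ^ J := one_le_pow₀ (by norm_num)
  have hkr : √r = kp ^ i := by rw [hre, sqrt_sc]
  have hkp : 0 < kp ^ i := pow_pos kp_pos i
  have h6 : enW (cw u s) (Ps I x₀ (s + r ^ 2) s) ≤ K₄ * 8 ^ J
      + 3072 * (2 * ε * (kp ^ i)⁻¹ + ∑ j ∈ S', 7 * a j * (kp ^ (j + 1))⁻¹) := by
    have h7 : (1 + (T - t₀)⁻¹) * E * 1 ≤ (1 + (T - t₀)⁻¹) * E * 8 ^ J :=
      mul_le_mul_of_nonneg_left hRi (by positivity)
    rw [hkr] at q2
    rw [hK₄]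
    linarith
  have h7 := mul_le_mul_of_nonneg_left h6 hkp.le
  have h8 : kp ^ i * (K₄ * 8 ^ J + 3072 * (2 * ε * (kp ^ i)⁻¹ + ∑ j ∈ S', 7 * a j * (kp ^ (j + 1))⁻¹))
      = K₄ * 8 ^ J * kp ^ i + 6144 * ε
        + 21504 * ∑ j ∈ S', a j * (kp ^ i * (kp ^ (j + 1))⁻¹) := by
    have e1 : ∑ j ∈ S', 7 * a j * (kp ^ (j + 1))⁻¹ = 7 * ∑ j ∈ S', a j * (kp ^ (j + 1))⁻¹ := by
      rw [Finset.mul_sum]
      exact Finset.sum_congr rfl fun j _ => by ring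
    have e2 : ∑ j ∈ S', a j * (kp ^ i * (kp ^ (j + 1))⁻¹)
        = kp ^ i * ∑ j ∈ S', a j * (kp ^ (j + 1))⁻¹ := by
      rw [Finset.mul_sum]
      exact Finset.sum_congr rfl fun j _ => by ring
    rw [e1, e2]
    have e3 : kp ^ i * (kp ^ i)⁻¹ = 1 := mul_inv_cancel₀ hkp.ne'
    calc _ = kp ^ i * K₄ * 8 ^ J + 6144 * ε * (kp ^ i * (kp ^ i)⁻¹)
          + 21504 * (kp ^ i * ∑ j ∈ S', a j * (kp ^ (j + 1))⁻¹) := by ring
      _ = _ := by rw [e3]; ring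
  rw [h8, ← hkr] at h7
  have h9 := nw_lowP (x₀ := x₀) h hI ⟨hts, hs.2⟩ hr h7
  rw [hkr, hre] at h9
  exact h9

/-- The recursion. -/
noncomputable def mm (S : Finset ℕ) (J : ℕ) (A₀ c : ℝ) : ℕ → ℝ
  | 0 => A₀ * kp ^ J
  | l + 1 => kp * mm S J A₀ c l
      + if J + l ∈ S then 21504 * Real.exp (5 / 16) * (mm S J A₀ c l + c) else 0

section
variable {S : Finset ℕ} {J : ℕ} {A₀ c : ℝ}

lemma mm_nonneg (hA : 0 ≤ A₀) (hc : 0 ≤ c) : ∀ l, 0 ≤ mm S J A₀ c l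
  | 0 => by
    unfold mm
    have := kp_pos
    positivity
  | l + 1 => by
    have h1 := mm_nonneg hA hc l
    have h2 := kp_pos
    unfold mm
    split_ifs
    · positivity
    · positivity

lemma mm_low (hA : 0 ≤ A₀) (hc : 0 ≤ c) (l : ℕ) : kp * mm S J A₀ c l ≤ mm S J A₀ c (l + 1) := by
  have h1 := mm_nonneg (S := S) (J := J) hA hc l
  have e : mm S J A₀ c (l + 1) = kp * mm S J A₀ c l
      + if J + l ∈ S then 21504 * Real.exp (5 / 16) * (mm S J A₀ c l + c) else 0 := rfl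
  rw [e]
  split_ifs
  · have : 0 ≤ 21504 * Real.exp (5 / 16) * (mm S J A₀ c l + c) := by positivity
    linarith
  · linarith

lemma mm_sum (l : ℕ) : mm S J A₀ c l = A₀ * kp ^ (J + l)
    + 21504 * ∑ j ∈ S.filter (fun j => J ≤ j ∧ j < J + l),
      Real.exp (5 / 16) * (mm S J A₀ c (j - J) + c) * (kp ^ (J + l) * (kp ^ (j + 1))⁻¹) := by
  induction l with
  | zero =>
    have e : S.filter (fun j => J ≤ j ∧ j < J + 0) = ∅ := by
      rw [Finset.filter_eq_empty_iff]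
      intro j _
      omega
    rw [e, Finset.sum_empty]
    unfold mm
    simp
  | succ l ih =>
    obtain ⟨g, hg⟩ : ∃ g : ℕ → ℝ, g = fun j => Real.exp (5 / 16) * (mm S J A₀ c (j - J) + c)
        * (kp ^ (J + l) * (kp ^ (j + 1))⁻¹) := ⟨_, rfl⟩
    have hk := kp_pos
    have e0 : ∀ j, Real.exp (5 / 16) * (mm S J A₀ c (j - J) + c)
        * (kp ^ (J + (l + 1)) * (kp ^ (j + 1))⁻¹) = kp * g j := by
      intro j
      rw [hg, ← add_assoc, pow_succ]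
      ring
    have e1 : ∑ j ∈ S.filter (fun j => J ≤ j ∧ j < J + (l + 1)), kp * g j
        = kp * ∑ j ∈ S.filter (fun j => J ≤ j ∧ j < J + l), g j
          + if J + l ∈ S then kp * g (J + l) else 0 := by
      rw [Finset.sum_filter, Finset.sum_filter, Finset.mul_sum]
      have e2 : (if J + l ∈ S then kp * g (J + l) else 0)
          = ∑ j ∈ S, if J + l = j then kp * g j else 0 := by
        rw [Finset.sum_ite_eq]
      rw [e2, ← Finset.sum_add_distrib]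
      refine Finset.sum_congr rfl fun j _ => ?_
      by_cases h1 : J ≤ j ∧ j < J + l
      · rw [if_pos (by omega), if_pos h1, if_neg (by omega), add_zero]
      · by_cases h2 : J + l = j
        · rw [if_pos (by omega), if_neg h1, if_pos h2, mul_zero, zero_add]
        · rw [if_neg (by omega), if_neg h1, if_neg h2, mul_zero, zero_add]
    have e3 : mm S J A₀ c (l + 1) = kp * mm S J A₀ c l
        + if J + l ∈ S then 21504 * Real.exp (5 / 16) * (mm S J A₀ c l + c) else 0 := rfl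
    simp only [e0]
    rw [e1, e3, ih]
    have e4 : ∑ j ∈ S.filter (fun j => J ≤ j ∧ j < J + l), Real.exp (5 / 16)
        * (mm S J A₀ c (j - J) + c) * (kp ^ (J + l) * (kp ^ (j + 1))⁻¹)
        = ∑ j ∈ S.filter (fun j => J ≤ j ∧ j < J + l), g j := by rw [hg]
    rw [e4] at ih ⊢
    have e5 : J + (l + 1) = J + l + 1 := by omega
    rw [e5, pow_succ]
    by_cases h : J + l ∈ S
    · rw [if_pos h, if_pos h, hg]
      simp only [Nat.add_sub_cancel_left]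
      rw [ih, hg]
      have h3 : kp ^ (J + l) ≠ 0 := (pow_pos hk _).ne'
      have h4 : kp * (kp ^ (J + l) * (kp ^ (J + l + 1))⁻¹) = 1 := by
        rw [pow_succ]
        field_simp
      linear_combination (-(21504 * Real.exp (5 / 16) * (A₀ * kp ^ (J + l)
        + 21504 * (∑ j ∈ S.filter (fun j => J ≤ j ∧ j < J + l), Real.exp (5 / 16)
        * (mm S J A₀ c (j - J) + c) * (kp ^ (J + l) * (kp ^ (j + 1))⁻¹)) + c))) * h4
    · rw [if_neg h, if_neg h]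
      ring

end

end Pool.Agent.H305.EG
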