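import Pool.Agent.H305.EG.Tb

/-!
The number of the scales with large energy.
-/

set_option autoImplicit false

open MeasureTheory Set Metric Filter Topology
open scoped ContDiff ENNReal

namespace Pool.Agent.H305.EG

open H459R3.NS W221.NS Pool.Agent.V1183.PM Pool.Agent.H305.OS Pool.Agent.H305.SL Pool.Agent.H305.PL
  Pool.Agent.H305.EF

lemma exp_le16 : Real.exp (5 / 16) ≤ 16 / 11 := by
  have h1 := Real.add_one_le_exp (-(5 / 16) : ℝ)
  have h2 : Real.exp (5 / 16) * Real.exp (-(5 / 16)) = 1 := by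
    rw [← Real.exp_add]
    norm_num
  have h3 := Real.exp_pos (5 / 16)
  nlinarith

/-- The number of the scales in `S`. -/
def c1 (S : Finset ℕ) (J n : ℕ) : ℕ := ∑ l ∈ Finset.range n, if J + l ∈ S then 1 else 0

/-- The number of the scales outside of `S` with large energy. -/
noncomputable def c2 (S : Finset ℕ) (J : ℕ) (A₀ c : ℝ) (n : ℕ) : ℕ :=
  ∑ l ∈ Finset.range n, if J + l ∉ S ∧ c ≤ kp * mm S J A₀ c l then 1 else 0

/-- The bad scales. -/
def bd (S : Finset ℕ) (J : ℕ) (A₀ c : ℝ) (l : ℕ) : Prop := J + l ∈ S ∨ c ≤ kp * mm S J A₀ c l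

noncomputable instance (S : Finset ℕ) (J : ℕ) (A₀ c : ℝ) : DecidablePred (bd S J A₀ c) :=
  fun _ => Classical.propDecidable _

section
variable {S : Finset ℕ} {J : ℕ} {A₀ c : ℝ}

lemma mm_cnt (hA : 0 ≤ A₀) (hc : 0 ≤ c) (n : ℕ) : max (mm S J A₀ c n) c
    ≤ max (A₀ * kp ^ J) c * kp ^ c2 S J A₀ c n * (2 ^ 16) ^ c1 S J n := by
  induction n with
  | zero => simp [c1, c2, mm]
  | succ n ih =>
    obtain ⟨M, hM⟩ : ∃ M : ℝ, M = max (mm S J A₀ c n) c := ⟨_, rfl⟩
    rw [← hM] at ih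
    have hM1 : mm S J A₀ c n ≤ M := by rw [hM]; exact le_max_left _ _
    have hM2 : c ≤ M := by rw [hM]; exact le_max_right _ _
    have hM0 : 0 ≤ M := hc.trans hM2
    have hm0 := mm_nonneg (S := S) (J := J) hA hc n
    have hk := kp_pos
    have hk1 := kp_lt
    have e : mm S J A₀ c (n + 1) = kp * mm S J A₀ c n
      + if J + n ∈ S then 21504 * Real.exp (5 / 16) * (mm S J A₀ c n + c) else 0 := rfl
    have e1 : c1 S J (n + 1) = c1 S J n + if J + n ∈ S then 1 else 0 := Finset.sum_range_succ _ _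
    have e2 : c2 S J A₀ c (n + 1) = c2 S J A₀ c n
        + if J + n ∉ S ∧ c ≤ kp * mm S J A₀ c n then 1 else 0 := Finset.sum_range_succ _ _
    obtain ⟨X, hX⟩ : ∃ X : ℝ, X = max (A₀ * kp ^ J) c * kp ^ c2 S J A₀ c n * (2 ^ 16) ^ c1 S J n :=
      ⟨_, rfl⟩
    rw [← hX] at ih
    rw [e, e1, e2]
    by_cases h : J + n ∈ S
    · rw [if_pos h, if_pos h, if_neg (by tauto), add_zero, pow_succ]
      have h1 := exp_le16
      have h2 : 21504 * Real.exp (5 / 16) * (mm S J A₀ c n + c) ≤ 32000 * (M + M) := by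
        have h3 : 21504 * Real.exp (5 / 16) ≤ 32000 := by linarith
        exact mul_le_mul h3 (by linarith) (by positivity) (by norm_num)
      have h4 : kp * mm S J A₀ c n ≤ 1 * M := mul_le_mul hk1.le hM1 hm0 zero_le_one
      have h5 : max (kp * mm S J A₀ c n + 21504 * Real.exp (5 / 16) * (mm S J A₀ c n + c)) c
          ≤ 2 ^ 16 * M := by
        refine max_le ?_ ?_
        · linarith
        · linarith
      calc _ ≤ 2 ^ 16 * M := h5
        _ ≤ 2 ^ 16 * X := by linarith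
        _ = _ := by rw [hX]; ring
    · rw [if_neg h, if_neg h, add_zero, add_zero]
      by_cases h' : c ≤ kp * mm S J A₀ c n
      · rw [if_pos ⟨h, h'⟩, pow_succ, max_eq_left h']
        calc kp * mm S J A₀ c n ≤ kp * X := by
              exact mul_le_mul_of_nonneg_left (hM1.trans ih) hk.le
          _ = _ := by rw [hX]; ring
      · rw [if_neg (by tauto), add_zero, max_eq_right (not_le.1 h').le, ← hX]
        exact hM2.trans ih

lemma c1_le (n : ℕ) : c1 S J n ≤ S.card := by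
  unfold c1
  rw [← Finset.card_filter]
  refine Finset.card_le_card_of_injOn (fun l => J + l) ?_ ?_
  · intro l hl
    exact (Finset.mem_filter.1 hl).2
  · intro a _ b _ h
    have h : J + a = J + b := h
    omega

lemma c2_le (hA : 0 ≤ A₀) (hc : 0 < c) (hK : A₀ * kp ^ J ≤ c * 8 ^ J) (n : ℕ) :
    c2 S J A₀ c n ≤ 6 * J + 32 * c1 S J n := by
  have h1 := mm_cnt (S := S) (J := J) hA hc.le n
  have hk := kp_pos
  have h2 : max (A₀ * kp ^ J) c ≤ c * 8 ^ J := by
    refine max_le hK ?_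
    have : (1 : ℝ) ≤ 8 ^ J := one_le_pow₀ (by norm_num)
    nlinarith
  have h3 : c ≤ c * 8 ^ J * kp ^ c2 S J A₀ c n * (2 ^ 16) ^ c1 S J n := by
    refine (le_max_right _ _).trans (h1.trans ?_)
    gcongr
  have h4 : 1 ≤ 8 ^ J * kp ^ c2 S J A₀ c n * (2 ^ 16) ^ c1 S J n := by
    have h5 : c * 1 ≤ c * (8 ^ J * kp ^ c2 S J A₀ c n * (2 ^ 16) ^ c1 S J n) := by
      calc c * 1 = c := mul_one c
        _ ≤ _ := h3
        _ = _ := by ring
    exact le_of_mul_le_mul_left h5 hc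
  have h5 : (1 : ℝ) ≤ (8 ^ J * kp ^ c2 S J A₀ c n * (2 ^ 16) ^ c1 S J n) ^ 2 := one_le_pow₀ h4
  obtain ⟨q, hq⟩ : ∃ q : ℕ, q = c2 S J A₀ c n := ⟨_, rfl⟩
  obtain ⟨r, hr⟩ : ∃ r : ℕ, r = c1 S J n := ⟨_, rfl⟩
  rw [← hq, ← hr] at h5 ⊢
  have e : (8 ^ J * kp ^ q * (2 ^ 16) ^ r) ^ 2 = (2 : ℝ) ^ (6 * J + 32 * r) * (1 / 2) ^ q := by
    have e1 : ((8 : ℝ) ^ J) ^ 2 = 2 ^ (6 * J) := by
      rw [show (8 : ℝ) = 2 ^ 3 by norm_num, ← pow_mul, ← pow_mul]
      congr 1
      ring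
    have e2 : (kp ^ q) ^ 2 = (1 / 2) ^ q := by
      rw [← pow_mul, mul_comm, pow_mul, kp_sq]
    have e3 : (((2 : ℝ) ^ 16) ^ r) ^ 2 = 2 ^ (32 * r) := by
      rw [← pow_mul, ← pow_mul]
      congr 1
      ring
    rw [mul_pow, mul_pow, e1, e2, e3, pow_add]
    ring
  rw [e] at h5
  have h6 : (2 : ℝ) ^ q ≤ 2 ^ (6 * J + 32 * r) := by
    have h7 : (1 / 2 : ℝ) ^ q = (2 ^ q)⁻¹ := by rw [one_div, inv_pow]
    rw [h7, ← div_eq_mul_inv, one_le_div (by positivity)] at h5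
    exact h5
  exact (pow_le_pow_iff_right₀ (by norm_num)).1 h6

lemma bd_le (hA : 0 ≤ A₀) (hc : 0 < c) (hK : A₀ * kp ^ J ≤ c * 8 ^ J) (hS : 100 * S.card ≤ J)
    (n : ℕ) : ∑ l ∈ Finset.range n, (if bd S J A₀ c l then 1 else 0) ≤ 7 * J := by
  have h1 : ∑ l ∈ Finset.range n, (if bd S J A₀ c l then 1 else 0) ≤ c1 S J n + c2 S J A₀ c n := by
    unfold c1 c2
    rw [← Finset.sum_add_distrib]
    refine Finset.sum_le_sum fun l _ => ?_
    by_cases h1 : J + l ∈ S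
    · rw [if_pos (show bd S J A₀ c l from Or.inl h1), if_pos h1]
      omega
    · by_cases h2 : c ≤ kp * mm S J A₀ c l
      · rw [if_pos (show bd S J A₀ c l from Or.inr h2),
          if_pos (show J + l ∉ S ∧ c ≤ kp * mm S J A₀ c l from ⟨h1, h2⟩)]
        omega
      · have h3 : ¬ bd S J A₀ c l := fun h => h.elim h1 h2
        rw [if_neg h3]
        exact Nat.zero_le _
  have h2 := c1_le (S := S) (J := J) n
  have h3 := c2_le (S := S) (J := J) hA hc hK n
  omega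

lemma good_a (hA : 0 ≤ A₀) (hc : 0 ≤ c) {l : ℕ} (h : ¬ bd S J A₀ c l) :
    Real.exp (5 / 16) * (mm S J A₀ c l + c) ≤ 5 * c := by
  have h1 : kp * mm S J A₀ c l < c := not_le.1 fun h' => h (Or.inr h')
  have h2 : 1 / 2 ≤ kp := Real.le_sqrt_of_sq_le (by norm_num)
  have h3 := mm_nonneg (S := S) (J := J) hA hc l
  have h4 : mm S J A₀ c l ≤ 2 * c := by nlinarith
  have h5 := exp_le16
  have h6 := Real.exp_pos (5 / 16)
  calc Real.exp (5 / 16) * (mm S J A₀ c l + c) ≤ 16 / 11 * (2 * c + c) :=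
        mul_le_mul h5 (by linarith) (by positivity) (by norm_num)
    _ ≤ _ := by linarith

/-- The energy does not decrease much. -/
lemma mm_up (hA : 0 ≤ A₀) (hc : 0 ≤ c) (l d : ℕ) :
    mm S J A₀ c l ≤ 2 ^ d * mm S J A₀ c (l + d) := by
  induction d with
  | zero => simp
  | succ d ih =>
    have h1 := mm_low (S := S) (J := J) hA hc (l + d)
    have h2 : 1 / 2 ≤ kp := Real.le_sqrt_of_sq_le (by norm_num)
    have h3 := mm_nonneg (S := S) (J := J) hA hc (l + d)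
    have h4 : mm S J A₀ c (l + d) ≤ 2 * mm S J A₀ c (l + d + 1) := by nlinarith
    calc mm S J A₀ c l ≤ 2 ^ d * mm S J A₀ c (l + d) := ih
      _ ≤ 2 ^ d * (2 * mm S J A₀ c (l + d + 1)) := by gcongr
      _ = _ := by rw [pow_succ, ← add_assoc]; ring

lemma a_up (hA : 0 ≤ A₀) (hc : 0 ≤ c) {l i : ℕ} (h : l ≤ i) :
    Real.exp (5 / 16) * (mm S J A₀ c l + c)
      ≤ 2 ^ (i - l) * (Real.exp (5 / 16) * (mm S J A₀ c i + c)) := by
  have h1 := mm_up (S := S) (J := J) hA hc l (i - l)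
  rw [Nat.add_sub_cancel' h] at h1
  have h2 : (1 : ℝ) ≤ 2 ^ (i - l) := one_le_pow₀ (by norm_num)
  have h3 := Real.exp_pos (5 / 16)
  have h4 : c ≤ 2 ^ (i - l) * c := by nlinarith
  calc Real.exp (5 / 16) * (mm S J A₀ c l + c)
      ≤ Real.exp (5 / 16) * (2 ^ (i - l) * mm S J A₀ c i + 2 ^ (i - l) * c) := by gcongr
    _ = _ := by ring

end

/-- The recursion for the dissipation. -/
lemma rec_D {P : ℕ → ℝ → Prop} {g : ℕ → Prop} [DecidablePred g] {κ c₁ D₀ : ℝ} {n : ℕ}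
    (hP : ∀ k D D', P k D → D ≤ D' → P k D') (h0 : P 0 D₀) (hc : 0 < c₁) (hD : c₁ < D₀)
    (hκ : κ ≤ c₁ / 2) (hκ' : κ ≤ 1 / 64)
    (hg : ∀ k D, k < n → 0 ≤ D → ¬ g k → P k D → P (k + 1) (κ * (1 + 16 * D)))
    (hb : ∀ k D, k < n → 0 ≤ D → P k D → P (k + 1) (16 * D))
    (hno : ∀ k, k < n → ¬ g k → ¬ P (k + 1) c₁) :
    c₁ * 2 ^ n < D₀ * 32 ^ (∑ k ∈ Finset.range n, if g k then 1 else 0) := by
  have key : ∀ k, k ≤ n → ∃ D, P k D ∧ c₁ < D ∧
      D * 2 ^ k ≤ D₀ * 32 ^ (∑ k ∈ Finset.range k, if g k then 1 else 0) := by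
    intro k
    induction k with
    | zero =>
      intro _
      exact ⟨D₀, h0, hD, by simp⟩
    | succ k ih =>
      intro hk
      obtain ⟨D, h1, h2, h3⟩ := ih (by omega)
      have hD0 : 0 < D := hc.trans h2
      rw [Finset.sum_range_succ]
      by_cases h : g k
      · rw [if_pos h, pow_succ, pow_succ]
        refine ⟨16 * D, hb k D (by omega) hD0.le h1, by linarith, ?_⟩
        calc 16 * D * (2 ^ k * 2) = 32 * (D * 2 ^ k) := by ring
          _ ≤ 32 * (D₀ * 32 ^ (∑ k ∈ Finset.range k, if g k then 1 else 0)) := by linarith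
          _ = _ := by ring
      · rw [if_neg h, add_zero, pow_succ]
        have h4 := hg k D (by omega) hD0.le h h1
        have h5 := hno k (by omega) h
        have h6 : c₁ < κ * (1 + 16 * D) := by
          by_contra h7
          exact h5 (hP _ _ _ h4 (not_lt.1 h7))
        have h7 : κ * (16 * D) ≤ 1 / 64 * (16 * D) := mul_le_mul_of_nonneg_right hκ' (by positivity)
        have h8 : κ * (1 + 16 * D) ≤ D / 2 := by
          have h9 : 2 * c₁ < D := by linarith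
          linarith
        refine ⟨D / 2, hP _ _ _ h4 h8, by linarith, ?_⟩
        calc D / 2 * (2 ^ k * 2) = D * 2 ^ k := by ring
          _ ≤ _ := h3
  obtain ⟨D, -, h2, h3⟩ := key n le_rfl
  refine lt_of_lt_of_le ?_ h3
  exact mul_lt_mul_of_pos_right h2 (by positivity)

end Pool.Agent.H305.EG
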