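import Pool.Agent.H305.EG.Tc

/-!
The energy and the dissipation at the good scales.
-/

set_option autoImplicit false

open MeasureTheory Set Metric Filter Topology
open scoped ContDiff ENNReal

namespace Pool.Agent.H305.EG

open H459R3.NS W221.NS Pool.Agent.V1183.PM Pool.Agent.H305.OS Pool.Agent.H305.SL Pool.Agent.H305.PL
  Pool.Agent.H305.EF

section
variable {S : Finset ℕ} {J N : ℕ} {T t₀ E ε θ a : ℝ} {u : ℝ → V → V} {p : ℝ → V → ℝ}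
  {I : Finset (Fin 3)} {x₀ : V}

lemma EB_mono {j : ℕ} {b : ℝ} (h : EB T t₀ u I x₀ j a) (hab : a ≤ b) : EB T t₀ u I x₀ j b := by
  intro s hs hts
  exact (h s hs hts).trans (ENNReal.ofReal_le_ofReal
    (mul_le_mul_of_nonneg_right hab (sc_pos j).le))

/-- The energy in the balls, from the energy in the tubes. -/
lemma goodS (h : ST 1 T u p t₀ E) {i : ℕ} (ha : 0 ≤ a)
    (hE : ∀ j, J ≤ j → j ≤ i → EB T t₀ u I x₀ j (2 ^ (i - j) * a)) (hθ : 6 * a ≤ θ)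
    (hEi : 12 * sc (i + 3) * E ≤ θ * sc J ^ 2) (ht : t₀ ≤ T - sc (i + 3) ^ 2) :
    ∀ x₁ ∈ PI' I x₀, ∀ τ ∈ Ico (T - sc (i + 3) ^ 2) T, ∀ R, 3 * sc (i + 3) ≤ R →
      eB (cw u τ) x₁ R ≤ ENNReal.ofReal (θ * R ^ 2 / (3 * sc (i + 3))) := by
  intro x₁ hx₁ τ hτ R hR
  obtain ⟨ρ, hρe⟩ : ∃ ρ : ℝ, ρ = sc (i + 3) := ⟨_, rfl⟩
  have hρ : 0 < ρ := by rw [hρe]; exact sc_pos _
  have hi8 : sc i = 8 * ρ := by
    rw [hρe]
    unfold sc
    rw [pow_add]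
    ring
  rw [← hρe] at hEi ht hτ hR ⊢
  have hR0 : 0 < R := by linarith
  have hts : t₀ ≤ τ := ht.trans hτ.1
  rcases le_or_gt (2 * R) (sc J) with h1 | h1
  · obtain ⟨j, hj1, hj2⟩ := exists_nat_pow_near_of_lt_one (by positivity : 0 < 2 * R)
      (h1.trans (sc_le J)) (by norm_num : (0 : ℝ) < 1 / 2) (by norm_num)
    have hj1 : sc (j + 1) < 2 * R := hj1
    have hj2 : 2 * R ≤ sc j := hj2
    have hJj : J ≤ j := by
      have := sc_lt (hj1.trans_le h1)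
      omega
    have hi1 : sc (i + 1) = 4 * ρ := by
      rw [sc_succ, hi8]
      ring
    have hji : j ≤ i := by
      have h2 : sc (i + 1) < sc j := by
        rw [hi1]
        linarith
      have := sc_lt h2
      omega
    have h3 := sc_pos j
    have h4 : sc j ≤ 4 * R := by
      rw [sc_succ] at hj1
      linarith
    have h5 : ρ ≤ sc j := by linarith
    have h6 : ρ ^ 2 ≤ sc j ^ 2 := pow_le_pow_left₀ hρ.le h5 2
    have h7 := hE j hJj hji τ ⟨by linarith [hτ.1], hτ.2⟩ hts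
    have hsub : ball x₁ R ⊆ nb I x₀ (sc j) := fun x hx =>
      lt_of_lt_of_le (ball_nb hx₁ hR0 hx) hj2
    refine (lintegral_mono_set hsub).trans (h7.trans (ENNReal.ofReal_le_ofReal ?_))
    have e : (2 : ℝ) ^ (i - j) * sc i = sc j := by
      unfold sc
      have e1 : (1 / 2 : ℝ) ^ i = (1 / 2) ^ (i - j) * (1 / 2) ^ j := by
        rw [← pow_add, Nat.sub_add_cancel hji]
      rw [e1, ← mul_assoc, ← mul_pow]
      norm_num
    rw [hi8] at e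
    rw [le_div_iff₀ (by positivity)]
    have h8 : (2 : ℝ) ^ (i - j) * a * sc j * (3 * ρ) = 3 / 8 * a * (sc j * (2 ^ (i - j) * (8 * ρ))) := by
      ring
    rw [h8, e]
    have h9 : sc j * sc j ≤ 4 * R * (4 * R) := mul_le_mul h4 h4 h3.le (by positivity)
    calc 3 / 8 * a * (sc j * sc j) ≤ 3 / 8 * a * (4 * R * (4 * R)) := by gcongr
      _ = 6 * a * R ^ 2 := by ring
      _ ≤ θ * R ^ 2 := by gcongr
  · refine (setLIntegral_le_lintegral _ _).trans ((h.e1 τ ⟨hts, hτ.2⟩).trans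
      (ENNReal.ofReal_le_ofReal ?_))
    rw [le_div_iff₀ (by positivity)]
    have h2 := sc_pos J
    have h3 : sc J ^ 2 ≤ (2 * R) ^ 2 := pow_le_pow_left₀ h2.le h1.le 2
    have h4 : θ * sc J ^ 2 ≤ θ * (2 * R) ^ 2 :=
      mul_le_mul_of_nonneg_left h3 (by linarith)
    have h5 : θ * (2 * R) ^ 2 = 4 * (θ * R ^ 2) := by ring
    linarith

/-- The bound for the dissipation at a scale. -/
def DB (T : ℝ) (u : ℝ → V → V) (I : Finset (Fin 3)) (x₀ : V) (ρ D : ℝ) : Prop :=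
  ∀ x₁ ∈ PI' I x₀, ∀ s, s < T →
    ∫⁻ τ in Ioc (T - ρ ^ 2) s, gB (cw u τ) x₁ ρ ≤ ENNReal.ofReal (D * ρ)

lemma DB_mono {ρ D D' : ℝ} (hρ : 0 < ρ) (h : DB T u I x₀ ρ D) (hD : D ≤ D') :
    DB T u I x₀ ρ D' := fun x₁ hx₁ s hs =>
  (h x₁ hx₁ s hs).trans (ENNReal.ofReal_le_ofReal (mul_le_mul_of_nonneg_right hD hρ.le))

/-- The bad scales. -/
lemma DB_bad {ρ D : ℝ} (hρ : 0 < ρ) (h : DB T u I x₀ (16 * ρ) D) : DB T u I x₀ ρ (16 * D) := by
  intro x₁ hx₁ s hs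
  have h1 := h x₁ hx₁ s hs
  have e : D * (16 * ρ) = 16 * D * ρ := by ring
  rw [e] at h1
  refine le_trans ?_ h1
  have h2 : ρ ^ 2 ≤ (16 * ρ) ^ 2 := by nlinarith
  have h3 : T - (16 * ρ) ^ 2 ≤ T - ρ ^ 2 := by linarith
  have h4 : ρ ≤ 16 * ρ := by linarith
  refine (lintegral_mono_set (Ioc_subset_Ioc_left h3)).trans ?_
  exact lintegral_mono fun τ => lintegral_mono_set (ball_subset_ball h4)

lemma DB_0 (h : ST 1 T u p t₀ E) {ρ D : ℝ} (ht : t₀ ≤ T - ρ ^ 2) (hE : E ≤ D * ρ) :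
    DB T u I x₀ ρ D := by
  intro x₁ _ s hs
  have h1 : ∫⁻ τ in Ioc (T - ρ ^ 2) s, gB (cw u τ) x₁ ρ ≤ ENNReal.ofReal E := by
    refine le_trans ?_ h.e2
    have hsub : Ioc (T - ρ ^ 2) s ⊆ Ioo t₀ T := fun τ hτ => ⟨ht.trans_lt hτ.1, hτ.2.trans_lt hs⟩
    refine (lintegral_mono_set hsub).trans ?_
    exact lintegral_mono fun τ => setLIntegral_le_lintegral _ _
  exact h1.trans (ENNReal.ofReal_le_ofReal hE)

/-- The good scales. -/
lemma DB_good : ∃ C : ℝ, 0 ≤ C ∧ ∀ (T : ℝ) (u : ℝ → V → V) (p : ℝ → V → ℝ) (t₀ E : ℝ),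
    ST 1 T u p t₀ E → ∀ (I : Finset (Fin 3)) (x₀ : V) (ρ θ D : ℝ), 0 < ρ → 0 ≤ θ → θ ≤ 1 →
    0 ≤ D → t₀ ≤ T - ρ ^ 2 →
    (∀ x₁ ∈ PI' I x₀, ∀ τ ∈ Ico (T - ρ ^ 2) T, ∀ R, 3 * ρ ≤ R →
      eB (cw u τ) x₁ R ≤ ENNReal.ofReal (θ * R ^ 2 / (3 * ρ))) →
    DB T u I x₀ (16 * ρ) D → DB T u I x₀ ρ (C * √θ * (1 + 16 * D)) := by
  obtain ⟨C, hC, hL⟩ := bL
  refine ⟨C * (1 + 1), by positivity, ?_⟩
  intro T u p t₀ E h I x₀ ρ θ D hρ hθ0 hθ1 hD ht hE hDB x₁ hx₁ s hs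
  rcases lt_or_ge s (T - ρ ^ 2) with h1 | h1
  · rw [Ioc_eq_empty (not_lt.2 h1.le)]
    simp
  · have hG1 : ∫⁻ τ in Ioc (T - ρ ^ 2) s, gB (cw u τ) x₁ (9 * ρ)
        ≤ ENNReal.ofReal ((1 + 16 * D) * ρ) := by
      have h3 : ρ ^ 2 ≤ (16 * ρ) ^ 2 := by nlinarith
      have h4 : T - (16 * ρ) ^ 2 ≤ T - ρ ^ 2 := by linarith
      have h5 : 9 * ρ ≤ 16 * ρ := by linarith
      refine le_trans ?_ ((hDB x₁ hx₁ s hs).trans (ENNReal.ofReal_le_ofReal ?_))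
      · refine (lintegral_mono_set (Ioc_subset_Ioc_left h4)).trans ?_
        exact lintegral_mono fun τ => lintegral_mono_set (ball_subset_ball h5)
      · linarith
    have h2 := hL 1 T u p h.toHS x₁ ρ (T - ρ ^ 2) s θ (1 + 16 * D) hρ (h.t0.trans_le ht) h1 hs
      (by linarith) hθ0 hθ1 (by linarith)
      (fun τ hτ R hR => hE x₁ hx₁ τ ⟨hτ.1, hτ.2.trans_lt hs⟩ R hR) hG1
    rw [ENNReal.ofReal_one, one_mul] at h2
    exact h2

/-- The energy at the scales. -/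
lemma EB_all {A₀ c : ℝ} (hA : 0 ≤ A₀) (hc : 0 ≤ c)
    (hstep : ∀ (i : ℕ) (a : ℕ → ℝ), J ≤ i → i ≤ N → (∀ j, 0 ≤ a j) →
      (∀ j ∈ S, J ≤ j → j < i → EB T t₀ u I x₀ j (a j)) →
      EB T t₀ u I x₀ i (Real.exp (5 / 16) * (A₀ * kp ^ i + c
        + 21504 * ∑ j ∈ S.filter (fun j => J ≤ j ∧ j < i), a j * (kp ^ i * (kp ^ (j + 1))⁻¹))))
    (l : ℕ) (hl : J + l ≤ N) :
    EB T t₀ u I x₀ (J + l) (Real.exp (5 / 16) * (mm S J A₀ c l + c)) := by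
  induction l using Nat.strong_induction_on with
  | _ l ih =>
    have h1 := hstep (J + l) (fun j => Real.exp (5 / 16) * (mm S J A₀ c (j - J) + c)) (by omega) hl
      (fun j => by
        have := mm_nonneg (S := S) (J := J) hA hc (j - J)
        have := Real.exp_pos (5 / 16)
        positivity)
      (by
        intro j _ hJj hj
        have h2 := ih (j - J) (by omega) (by omega)
        rwa [Nat.add_sub_cancel' hJj] at h2)
    have h2 := mm_sum (S := S) (J := J) (A₀ := A₀) (c := c) l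
    have e : A₀ * kp ^ (J + l) + c + 21504 * ∑ j ∈ S.filter (fun j => J ≤ j ∧ j < J + l),
        Real.exp (5 / 16) * (mm S J A₀ c (j - J) + c) * (kp ^ (J + l) * (kp ^ (j + 1))⁻¹)
        = mm S J A₀ c l + c := by
      rw [h2]
      ring
    rw [e] at h1
    exact h1

end

end Pool.Agent.H305.EG
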