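import Pool.Agent.H305.EG.Td
import Pool.Agent.H305.EG.Sd

/-!
The criterion for a positive proportion of the scales: viscosity one.
-/

set_option autoImplicit false

open MeasureTheory Set Metric Filter Topology
open scoped ContDiff ENNReal

namespace Pool.Agent.H305.EG

open H459R3.NS W221.NS Pool.Agent.V1183.PM Pool.Agent.H305.OS Pool.Agent.H305.SL Pool.Agent.H305.PL
  Pool.Agent.H305.EF

lemma ex_two (a : ℝ) : ∃ n : ℕ, ∀ J, n ≤ J → a ≤ 2 ^ J := by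
  obtain ⟨n, hn⟩ := pow_unbounded_of_one_lt a (by norm_num : (1 : ℝ) < 2)
  exact ⟨n, fun J hJ => hn.le.trans (pow_le_pow_right₀ (by norm_num) hJ)⟩

lemma sc_two (j : ℕ) : sc j = (2 ^ j)⁻¹ := by
  unfold sc
  rw [one_div, inv_pow]

lemma sc_mul (j : ℕ) : 2 ^ j * sc j = 1 := by
  rw [sc_two]
  exact mul_inv_cancel₀ (by positivity)

lemma sc16 (m : ℕ) : 16 * sc (m + 4) = sc m := by
  unfold sc
  rw [pow_add]
  ring

lemma sc_add (i j : ℕ) : sc (i + j) = sc i * sc j := pow_add _ _ _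

theorem critS : ∃ ε : ℝ, 0 < ε ∧ ∀ T t₀ E : ℝ, 0 < T → t₀ < T → 0 ≤ E → ∃ J₀ : ℕ,
    ∀ (u : ℝ → V → V) (p : ℝ → V → ℝ), ST 1 T u p t₀ E → ∀ (I : Finset (Fin 3)) (x₀ : V) (J : ℕ)
    (S : Finset ℕ), 2 ≤ I.card → J₀ ≤ J → 100 * S.card ≤ J → GS T t₀ u p I x₀ S J (256 * J) ε →
    ∀ t ∈ Ioo (T - sc (500 * J)) T, ∀ x₁ ∈ PI' I x₀, ∀ x ∈ ball x₁ (sc (500 * J)),
      ‖u t x‖ ≤ 2 ^ (250 * J) := by
  obtain ⟨C, hC, hG⟩ := DB_good
  obtain ⟨L, c, c₀, C₀, hL1, hc, hc₀, hc₀1, hC₀, hN⟩ := near_atx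
  have hL0 : 0 < L := by linarith
  obtain ⟨c₁, hc₁⟩ : ∃ c₁ : ℝ, c₁ = c / L := ⟨_, rfl⟩
  have hc₁0 : 0 < c₁ := by rw [hc₁]; positivity
  obtain ⟨κ₀, hκ₀⟩ : ∃ κ₀ : ℝ, κ₀ = min (c₁ / 2) (1 / 64) / (C + 1) := ⟨_, rfl⟩
  have hκ₀0 : 0 < κ₀ := by rw [hκ₀]; positivity
  have hκ1 : κ₀ * (C + 1) = min (c₁ / 2) (1 / 64) := by
    rw [hκ₀]
    exact div_mul_cancel₀ _ (by positivity)
  have hm1 := min_le_left (c₁ / 2) (1 / 64)
  have hm2 := min_le_right (c₁ / 2) (1 / 64)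
  have hCκ0 : 0 ≤ C * κ₀ := by positivity
  have hκa : C * κ₀ ≤ c₁ / 2 := by nlinarith
  have hκb : C * κ₀ ≤ 1 / 64 := by nlinarith
  have hκ64 : κ₀ ≤ 1 / 64 := by nlinarith
  have hsq : √(κ₀ ^ 2) = κ₀ := Real.sqrt_sq hκ₀0.le
  have hθ1 : κ₀ ^ 2 ≤ 1 := pow_le_one₀ hκ₀0.le (by linarith)
  obtain ⟨ε, hεe⟩ : ∃ ε : ℝ, ε = κ₀ ^ 2 / 184320 := ⟨_, rfl⟩
  have hε : 0 < ε := by rw [hεe]; positivity
  refine ⟨ε, hε, ?_⟩
  intro T t₀ E hT ht hE
  obtain ⟨K₄, hK₄, J₁, hJ₁, hstep⟩ := stepX hT ht hE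
  obtain ⟨c', hc'⟩ : ∃ c' : ℝ, c' = 6144 * ε := ⟨_, rfl⟩
  have hc'0 : 0 < c' := by rw [hc']; positivity
  have h30 : 6 * (5 * c') = κ₀ ^ 2 := by
    rw [hc', hεe]
    ring
  -- the constants
  obtain ⟨J₂, hJ₂⟩ := ex_two (12 * E / κ₀ ^ 2)
  obtain ⟨J₃, hJ₃⟩ : ∃ J₃ : ℕ, ∀ J, J₃ ≤ J → K₄ * kp ^ J ≤ c' := by
    obtain ⟨n, hn⟩ := exists_pow_lt_of_lt_one (by positivity : 0 < c' / K₄) kp_lt
    refine ⟨n, fun J hJ => ?_⟩
    have h1 : kp ^ J ≤ kp ^ n := pow_le_pow_of_le_one kp_pos.le kp_lt.le hJ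
    have h2 := h1.trans hn.le
    rw [le_div_iff₀ hK₄] at h2
    linarith
  obtain ⟨J₄, hJ₄⟩ := ex_two ((E + c₁ + 1) * 2 ^ (J₂ + 3) / c₁)
  obtain ⟨J₅, hJ₅⟩ := ex_two (C₀ * L * 2 ^ (J₂ + 3))
  obtain ⟨J₆, hJ₆⟩ := ex_two (L ^ 2 * (2 ^ (J₂ + 3)) ^ 2 / c₀)
  refine ⟨J₁ + J₂ + J₃ + J₄ + J₅ + J₆ + 1, ?_⟩
  intro u p h I x₀ J S hI hJJ hS hGS
  have g1 : J₁ ≤ J := by omega
  have g2 : J₂ ≤ J := by omega
  have g7 : 1 ≤ J := by omega
  replace hJ₂ := hJ₂ J₂ le_rfl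
  replace hJ₃ := hJ₃ J (by omega)
  replace hJ₄ := hJ₄ J (by omega)
  replace hJ₅ := hJ₅ J (by omega)
  replace hJ₆ := hJ₆ J (by omega)
  replace hJ₁ := hJ₁ J g1
  have hcard : I.card ≤ 3 := by
    have h1 := Finset.card_le_univ I
    rwa [Fintype.card_fin] at h1
  obtain ⟨n, hn⟩ : ∃ n, I.card = n + 1 := ⟨I.card - 1, by omega⟩
  have hn1 : 1 ≤ n := by omega
  obtain ⟨A₀, hA₀⟩ : ∃ A₀ : ℝ, A₀ = K₄ * 8 ^ J := ⟨_, rfl⟩
  have hA : 0 ≤ A₀ := by rw [hA₀]; positivity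
  have hEB := EB_all (T := T) (t₀ := t₀) (u := u) (I := I) (x₀ := x₀) (S := S) (J := J)
    (N := 256 * J) hA hc'0.le (fun i a h1 h2 h3 h4 => by
      have h5 := hstep u p h I n x₀ J i S ε a hn hn1 g1 h1 hε.le h3
        (fun j h6 h7 => hGS j h6 (by omega)) h4
      rw [← hA₀, ← hc'] at h5
      exact h5)
  have hK : A₀ * kp ^ J ≤ c' * 8 ^ J := by
    rw [hA₀]
    calc K₄ * 8 ^ J * kp ^ J = K₄ * kp ^ J * 8 ^ J := by ring
      _ ≤ _ := mul_le_mul_of_nonneg_right hJ₃ (by positivity)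
  have hJ1 : ∀ m, J ≤ m → t₀ ≤ T - sc m ^ 2 := by
    intro m hm
    have h1 := sc_anti hm
    have h2 : sc m ^ 2 ≤ sc J ^ 2 := pow_le_pow_left₀ (sc_pos m).le h1 2
    linarith
  -- the energy at the good scales
  have hgood : ∀ k, k < 60 * J → ¬ bd S J A₀ c' (J + J₂ + 4 * (k + 1)) →
      ∀ x₁ ∈ PI' I x₀, ∀ τ ∈ Ico (T - sc (2 * J + J₂ + 4 * (k + 1) + 3) ^ 2) T, ∀ R,
      3 * sc (2 * J + J₂ + 4 * (k + 1) + 3) ≤ R →
      eB (cw u τ) x₁ R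
        ≤ ENNReal.ofReal (κ₀ ^ 2 * R ^ 2 / (3 * sc (2 * J + J₂ + 4 * (k + 1) + 3))) := by
    intro k hk hb
    refine goodS (i := 2 * J + J₂ + 4 * (k + 1)) (J := J) (a := 5 * c') (θ := κ₀ ^ 2) h
      (by positivity) ?_ h30.le ?_ (hJ1 _ (by omega))
    · intro j hj hji
      have h1 := hEB (j - J) (by omega)
      rw [Nat.add_sub_cancel' hj] at h1
      refine EB_mono h1 ?_
      have h2 := a_up (S := S) (J := J) hA hc'0.le (l := j - J) (i := J + J₂ + 4 * (k + 1)) (by omega)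
      have e : J + J₂ + 4 * (k + 1) - (j - J) = 2 * J + J₂ + 4 * (k + 1) - j := by omega
      rw [e] at h2
      exact h2.trans (mul_le_mul_of_nonneg_left (good_a hA hc'0.le hb) (by positivity))
    · have h1 : sc (2 * J + J₂ + 4 * (k + 1) + 3) ≤ sc (2 * J + J₂) := sc_anti (by omega)
      have h2 : sc (2 * J + J₂) = sc J ^ 2 * sc J₂ := by
        rw [sc_add]
        unfold sc
        rw [mul_comm 2 J, pow_mul]
      have h3 : 12 * E * sc J₂ ≤ κ₀ ^ 2 := by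
        rw [div_le_iff₀ (by positivity)] at hJ₂
        have h4 := sc_pos J₂
        have h5 := sc_mul J₂
        calc 12 * E * sc J₂ ≤ 2 ^ J₂ * κ₀ ^ 2 * sc J₂ := mul_le_mul_of_nonneg_right hJ₂ h4.le
          _ = κ₀ ^ 2 * (2 ^ J₂ * sc J₂) := by ring
          _ = κ₀ ^ 2 := by rw [h5, mul_one]
      calc 12 * sc (2 * J + J₂ + 4 * (k + 1) + 3) * E ≤ 12 * (sc J ^ 2 * sc J₂) * E := by
            rw [h2] at h1
            gcongr
        _ = 12 * E * sc J₂ * sc J ^ 2 := by ring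
        _ ≤ _ := mul_le_mul_of_nonneg_right h3 (by positivity)
  by_cases hfin : ∃ k, k < 60 * J ∧ ¬ bd S J A₀ c' (J + J₂ + 4 * (k + 1)) ∧
      DB T u I x₀ (sc (2 * J + J₂ + 4 * (k + 1) + 3)) c₁
  · -- the end of the proof
    obtain ⟨k, hk, hb, hD⟩ := hfin
    have hE' := hgood k hk hb
    obtain ⟨m, hm⟩ : ∃ m : ℕ, m = 2 * J + J₂ + 4 * (k + 1) + 3 := ⟨_, rfl⟩
    rw [← hm] at hD hE'
    have hm2 : m ≤ 242 * J + (J₂ + 3) := by omega
    obtain ⟨ρ, hρe⟩ : ∃ ρ : ℝ, ρ = sc m := ⟨_, rfl⟩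
    have hρ : 0 < ρ := by rw [hρe]; exact sc_pos _
    have hρ1 : ρ ≤ 1 := by rw [hρe]; exact sc_le _
    have htρ := hJ1 m (by omega)
    rw [← hρe] at hD hE' htρ
    obtain ⟨z, hz⟩ : ∃ z : ℝ, z = ρ / L := ⟨_, rfl⟩
    have hz0 : 0 < z := by rw [hz]; positivity
    have hLz : L * z = ρ := by rw [hz]; field_simp
    have hzρ : z ≤ ρ := by rw [← hLz]; nlinarith
    have hz1 : z ≤ 1 := by linarith
    have hzz : z ^ 2 ≤ ρ ^ 2 := pow_le_pow_left₀ hz0.le hzρ 2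
    have hzp : 0 < z ^ 2 := by positivity
    have ht₀z : t₀ ≤ T - z ^ 2 / 4 := by linarith
    have hρ2 : 1 ≤ 2 ^ (242 * J + (J₂ + 3)) * ρ := by
      have h1 := sc_anti hm2
      rw [← hρe] at h1
      rw [← sc_mul (242 * J + (J₂ + 3))]
      exact mul_le_mul_of_nonneg_left h1 (by positivity)
    have hd1 : sc (500 * J) ≤ c₀ * z ^ 2 := by
      have h1 := sc_pos (500 * J)
      have h2 : L ^ 2 * (2 ^ (J₂ + 3)) ^ 2 ≤ c₀ * 2 ^ J := by
        rw [div_le_iff₀ hc₀] at hJ₆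
        linarith
      have h3 : (1 : ℝ) ≤ (2 ^ (242 * J + (J₂ + 3)) * ρ) ^ 2 := one_le_pow₀ hρ2
      have h4 : L ^ 2 * sc (500 * J) ≤ c₀ * ρ ^ 2 := by
        have e1 : (2 : ℝ) ^ J * (2 ^ (242 * J)) ^ 2 ≤ 2 ^ (500 * J) := by
          rw [← pow_mul, ← pow_add]
          exact pow_le_pow_right₀ (by norm_num) (by omega)
        calc L ^ 2 * sc (500 * J) ≤ L ^ 2 * sc (500 * J) * (2 ^ (242 * J + (J₂ + 3)) * ρ) ^ 2 :=
              le_mul_of_one_le_right (by positivity) h3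
          _ = L ^ 2 * (2 ^ (J₂ + 3)) ^ 2 * ((2 ^ (242 * J)) ^ 2 * (sc (500 * J) * ρ ^ 2)) := by
              rw [pow_add]
              ring
          _ ≤ c₀ * 2 ^ J * ((2 ^ (242 * J)) ^ 2 * (sc (500 * J) * ρ ^ 2)) := by gcongr
          _ = c₀ * ρ ^ 2 * (2 ^ J * (2 ^ (242 * J)) ^ 2 * sc (500 * J)) := by ring
          _ ≤ c₀ * ρ ^ 2 * (2 ^ (500 * J) * sc (500 * J)) := by gcongr
          _ = c₀ * ρ ^ 2 := by rw [sc_mul, mul_one]
      rw [← hLz] at h4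
      have h5 : c₀ * (L * z) ^ 2 = L ^ 2 * (c₀ * z ^ 2) := by ring
      rw [h5] at h4
      exact le_of_mul_le_mul_left h4 (by positivity)
    have hd2 : C₀ / z ≤ 2 ^ (250 * J) := by
      rw [div_le_iff₀ hz0]
      have h1 : C₀ * L ≤ 2 ^ (250 * J) * (z * L) := by
        rw [mul_comm z L, hLz]
        calc C₀ * L ≤ C₀ * L * (2 ^ (242 * J + (J₂ + 3)) * ρ) :=
              le_mul_of_one_le_right (by positivity) hρ2
          _ = C₀ * L * 2 ^ (J₂ + 3) * (2 ^ (242 * J) * ρ) := by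
              rw [pow_add]
              ring
          _ ≤ 2 ^ J * (2 ^ (242 * J) * ρ) := by gcongr
          _ = 2 ^ (J + 242 * J) * ρ := by rw [pow_add]; ring
          _ ≤ 2 ^ (250 * J) * ρ := by
              refine mul_le_mul_of_nonneg_right ?_ hρ.le
              exact pow_le_pow_right₀ (by norm_num) (by omega)
      rw [← mul_assoc] at h1
      exact le_of_mul_le_mul_right h1 hL0
    have hfin := hN T u p h.toHS z hz0 hz1 (h.t0.trans_le ht₀z) (PI' I x₀) ?_ ?_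
    · intro t ht x₁ hx₁ x hx
      exact (hfin t ⟨by linarith [ht.1], ht.2⟩ x₁ hx₁ x (ball_subset_ball hd1 hx)).trans hd2
    · intro x₁ hx₁ s hs
      rw [hLz]
      refine (hE' x₁ hx₁ s ⟨by linarith [hs.1], hs.2⟩ (3 * ρ) le_rfl).trans
        (ENNReal.ofReal_le_ofReal ?_)
      rw [div_le_iff₀ (by positivity)]
      have h1 : κ₀ ^ 2 * (3 * ρ) ^ 2 ≤ 1 * (3 * ρ) ^ 2 := mul_le_mul_of_nonneg_right hθ1 (by positivity)
      calc κ₀ ^ 2 * (3 * ρ) ^ 2 ≤ 1 * (3 * ρ) ^ 2 := h1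
        _ = _ := by ring
    · intro x₁ hx₁ s hs
      rw [hLz]
      have h1 := hD x₁ hx₁ s hs.2
      have h2 : T - ρ ^ 2 ≤ T - z ^ 2 / 4 := by linarith
      refine (lintegral_mono_set (Ioc_subset_Ioc_left h2)).trans (h1.trans
        (ENNReal.ofReal_le_ofReal (le_of_eq ?_)))
      rw [hc₁, hz]
      field_simp
  · -- the recursion
    exfalso
    push Not at hfin
    obtain ⟨D₀, hD₀⟩ : ∃ D₀ : ℝ, D₀ = (E + c₁ + 1) * 2 ^ (2 * J + J₂ + 3) := ⟨_, rfl⟩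
    have h2p : (1 : ℝ) ≤ 2 ^ (2 * J + J₂ + 3) := one_le_pow₀ (by norm_num)
    have hrec := rec_D (P := fun k D => DB T u I x₀ (sc (2 * J + J₂ + 4 * k + 3)) D)
      (g := fun k => bd S J A₀ c' (J + J₂ + 4 * (k + 1))) (κ := C * κ₀) (c₁ := c₁) (D₀ := D₀)
      (n := 60 * J)
      (fun k D D' h1 h2 => DB_mono (sc_pos _) h1 h2)
      (DB_0 h (hJ1 _ (by omega)) (by
        rw [hD₀]
        have h1 := sc_mul (2 * J + J₂ + 3)
        have h2 : 2 * J + J₂ + 4 * 0 + 3 = 2 * J + J₂ + 3 := by omega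
        rw [h2, mul_assoc, h1, mul_one]
        linarith))
      hc₁0
      (by
        rw [hD₀]
        nlinarith)
      hκa hκb
      (by
        intro k D hk hD0 hb h1
        have e : sc (2 * J + J₂ + 4 * k + 3) = 16 * sc (2 * J + J₂ + 4 * (k + 1) + 3) := by
          rw [← sc16]
          congr 2
        rw [e] at h1
        have h2 := hG T u p t₀ E h I x₀ _ (κ₀ ^ 2) D (sc_pos _) (by positivity) hθ1 hD0
          (hJ1 _ (by omega)) (hgood k hk hb) h1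
        rw [hsq] at h2
        exact h2)
      (by
        intro k D _ _ h1
        have e : sc (2 * J + J₂ + 4 * k + 3) = 16 * sc (2 * J + J₂ + 4 * (k + 1) + 3) := by
          rw [← sc16]
          congr 2
        rw [e] at h1
        exact DB_bad (sc_pos _) h1)
      (fun k hk hb => hfin k hk hb)
    have hcnt : ∑ k ∈ Finset.range (60 * J), (if bd S J A₀ c' (J + J₂ + 4 * (k + 1)) then 1 else 0)
        ≤ 7 * J := by
      refine le_trans ?_ (bd_le (S := S) (J := J) hA hc'0 hK hS (255 * J))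
      have h1 : ∑ k ∈ Finset.range (60 * J), (if bd S J A₀ c' (J + J₂ + 4 * (k + 1)) then 1 else 0)
          = ∑ l ∈ (Finset.range (60 * J)).image (fun k => J + J₂ + 4 * (k + 1)),
            if bd S J A₀ c' l then 1 else 0 := by
        rw [Finset.sum_image]
        intro a _ b _ hab
        have hab : J + J₂ + 4 * (a + 1) = J + J₂ + 4 * (b + 1) := hab
        omega
      rw [h1]
      refine Finset.sum_le_sum_of_subset ?_
      intro l hl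
      obtain ⟨k, hk, rfl⟩ := Finset.mem_image.1 hl
      rw [Finset.mem_range] at hk ⊢
      omega
    have h3 : c₁ * 2 ^ (60 * J) < D₀ * 32 ^ (7 * J) := by
      refine hrec.trans_le ?_
      refine mul_le_mul_of_nonneg_left ?_ (by rw [hD₀]; positivity)
      exact pow_le_pow_right₀ (by norm_num) hcnt
    have h4 : D₀ * 32 ^ (7 * J) ≤ c₁ * 2 ^ (60 * J) := by
      have e1 : (32 : ℝ) ^ (7 * J) = 2 ^ (35 * J) := by
        rw [show (32 : ℝ) = 2 ^ 5 by norm_num, ← pow_mul]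
        congr 1
        ring
      have h5 : (E + c₁ + 1) * 2 ^ (J₂ + 3) ≤ c₁ * 2 ^ J := by
        rw [div_le_iff₀ hc₁0] at hJ₄
        linarith
      rw [hD₀, e1]
      calc (E + c₁ + 1) * 2 ^ (2 * J + J₂ + 3) * 2 ^ (35 * J)
          = (E + c₁ + 1) * 2 ^ (J₂ + 3) * (2 ^ (2 * J) * 2 ^ (35 * J)) := by
            rw [add_assoc (2 * J) J₂ 3, pow_add 2 (2 * J) (J₂ + 3)]
            ring
        _ ≤ c₁ * 2 ^ J * (2 ^ (2 * J) * 2 ^ (35 * J)) := by gcongr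
        _ = c₁ * 2 ^ (J + (2 * J + 35 * J)) := by
            rw [pow_add, pow_add]
            ring
        _ ≤ _ := by
            refine mul_le_mul_of_nonneg_left ?_ hc₁0.le
            exact pow_le_pow_right₀ (by norm_num) (by omega)
    linarith

end Pool.Agent.H305.EG
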