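import Pool.Agent.H305.EG.Tf

/-!
The energy at the dyadic scales, with explicit constants.
-/

set_option autoImplicit false

open MeasureTheory Set Metric Filter Topology
open scoped ContDiff ENNReal

namespace Pool.Agent.H305.EG

open H459R3.NS W221.NS Pool.Agent.V1183.PM Pool.Agent.H305.OS Pool.Agent.H305.SL Pool.Agent.H305.PL
  Pool.Agent.H305.EF

/-- The bound for the energy at the scale `i`. -/
theorem stepY : ∃ K₅ : ℝ, 0 ≤ K₅ ∧ ∀ T t₀ E : ℝ, 0 < t₀ → t₀ < T → 0 ≤ E →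
    ∃ K₄ : ℝ, 0 < K₄ ∧ K₄ ≤ K₅ * (2 + T + (T - t₀)⁻¹ + E) ^ 4 ∧
    ∀ (u : ℝ → V → V) (p : ℝ → V → ℝ), ST 1 T u p t₀ E →
    ∀ (I : Finset (Fin 3)) (n : ℕ) (x₀ : V) (J i : ℕ) (S : Finset ℕ) (ε : ℝ) (a : ℕ → ℝ),
    I.card = n + 1 → 1 ≤ n → J ≤ i → 0 ≤ ε → (∀ j, 0 ≤ a j) →
    GS T t₀ u p I x₀ S J i ε → (∀ j ∈ S, J ≤ j → j < i → EB T t₀ u I x₀ j (a j)) →
    EB T t₀ u I x₀ i (Real.exp (5 / 16) * (K₄ * 8 ^ J * kp ^ i + 6144 * ε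
      + 21504 * ∑ j ∈ S.filter (fun j => J ≤ j ∧ j < i), a j * (kp ^ i * (kp ^ (j + 1))⁻¹))) := by
  obtain ⟨K, hK, hF⟩ := Fx_bd
  refine ⟨2 + 16 * K, by positivity, ?_⟩
  intro T t₀ E ht0 ht hE
  have hT : 0 < T := ht0.trans ht
  have hb : 0 < T - t₀ := by linarith
  obtain ⟨F₀, hF₀⟩ : ∃ F₀ : ℝ, F₀ = K * ((E + 1) ^ 2 * (T - t₀ + E)) := ⟨_, rfl⟩
  have hF₀0 : 0 ≤ F₀ := by rw [hF₀]; positivity
  obtain ⟨K₄, hK₄⟩ : ∃ K₄ : ℝ, K₄ = (1 + (T - t₀)⁻¹) * E + 16 * √(√(T + 1)) * F₀ + 1 := ⟨_, rfl⟩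
  have hK₄0 : 0 < K₄ := by rw [hK₄]; positivity
  obtain ⟨B, hB⟩ : ∃ B : ℝ, B = 2 + T + (T - t₀)⁻¹ + E := ⟨_, rfl⟩
  have hTi : 0 < (T - t₀)⁻¹ := inv_pos.2 hb
  have hB2 : 2 ≤ B := by rw [hB]; linarith
  have hBT : T + 2 ≤ B := by rw [hB]; linarith
  have hBi : (T - t₀)⁻¹ + 2 ≤ B := by rw [hB]; linarith
  have hBE : E + 2 ≤ B := by rw [hB]; linarith
  have hBTE : T - t₀ + E ≤ B := by rw [hB]; linarith
  have hK₄5 : K₄ ≤ (2 + 16 * K) * (2 + T + (T - t₀)⁻¹ + E) ^ 4 := by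
    rw [← hB, hK₄]
    have q1 : √(√(T + 1)) ≤ B := by
      rw [Real.sqrt_le_left (by linarith), Real.sqrt_le_left (by positivity)]
      have : B ≤ B ^ 2 := by nlinarith
      have : (1 : ℝ) ≤ B ^ 2 := by nlinarith
      nlinarith
    have q2 : F₀ ≤ K * B ^ 3 := by
      rw [hF₀]
      refine mul_le_mul_of_nonneg_left ?_ hK
      have h1 : (E + 1) ^ 2 ≤ B ^ 2 := pow_le_pow_left₀ (by linarith) (by linarith) 2
      calc (E + 1) ^ 2 * (T - t₀ + E) ≤ B ^ 2 * B :=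
            mul_le_mul h1 hBTE (by linarith) (by positivity)
        _ = B ^ 3 := by ring
    have q3 : (1 + (T - t₀)⁻¹) * E ≤ B * B :=
      mul_le_mul (by linarith) (by linarith) hE (by linarith)
    have q4 : 16 * √(√(T + 1)) * F₀ ≤ 16 * B * (K * B ^ 3) :=
      mul_le_mul (by linarith) q2 hF₀0 (by linarith)
    have q5 : B * B ≤ B ^ 4 := by
      have : (1 : ℝ) ≤ B ^ 2 := by nlinarith
      nlinarith
    have q6 : (1 : ℝ) ≤ B ^ 4 := one_le_pow₀ (by linarith)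
    have q7 : 16 * B * (K * B ^ 3) = 16 * K * B ^ 4 := by ring
    linarith
  refine ⟨K₄, hK₄0, hK₄5, ?_⟩
  intro u p h I n x₀ J i S ε a hI hn hJi hε ha hG hS s hs hts
  obtain ⟨S', hS'⟩ : ∃ S' : Finset ℕ, S' = S.filter (fun j => J ≤ j ∧ j < i) := ⟨_, rfl⟩
  rw [← hS']
  obtain ⟨r, hre⟩ : ∃ r : ℝ, r = sc i := ⟨_, rfl⟩
  have hr : 0 < r := by rw [hre]; exact sc_pos i
  have hr1 : r ≤ 1 := by rw [hre]; exact sc_le i
  have hr2 : r ^ 2 ≤ 1 := pow_le_one₀ hr.le hr1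
  have hR := sc_pos J
  have hB0 : ∀ j ∈ S', 0 ≤ 7 * a j := fun j _ => by have := ha j; positivity
  have hyp : ∀ ρ ∈ Ioo (sc i) (sc J), ∀ t t', t₀ ≤ t → t ≤ t' → t' < T → T - t ≤ ρ ^ 2 →
      ∫ τ in Ioc t t', Ah I x₀ 1 ρ (cw u τ) (p τ) ≤ stp S' ε (fun j => 7 * a j) ρ * ρ := by
    intro ρ hρ t t' h1 h2 h3 h4
    have hρ0 : 0 < ρ := (sc_pos i).trans hρ.1
    obtain ⟨j, hj1, hj2⟩ := exists_nat_pow_near_of_lt_one hρ0 (hρ.2.le.trans (sc_le J))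
      (by norm_num : (0 : ℝ) < 1 / 2) (by norm_num)
    have hj1 : sc (j + 1) < ρ := hj1
    have hj2 : ρ ≤ sc j := hj2
    have hJj : J ≤ j := by
      have := sc_lt (hj1.trans hρ.2)
      omega
    have hji : j < i := sc_lt (hρ.1.trans_le hj2)
    by_cases hjS : j ∈ S
    · have hjS' : j ∈ S' := by
        rw [hS', Finset.mem_filter]
        exact ⟨hjS, hJj, hji⟩
      have h5 := hS j hjS hJj hji
      have hρ2 : ρ ^ 2 ≤ sc j ^ 2 := pow_le_pow_left₀ hρ0.le hj2 2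
      have h6 := Ah_up (I := I) (x₀ := x₀) (A := a j * sc j) h.toHS (h.t0.trans_le h1) h2 h3 hρ0
        (by linarith) (mul_nonneg (ha j) (sc_pos j).le) (by
          intro τ hτ
          have h7 : nb I x₀ ρ ⊆ nb I x₀ (sc j) := fun x hx => lt_of_lt_of_le hx hj2
          exact (lintegral_mono_set h7).trans (h5 τ ⟨by linarith [hτ.1], hτ.2.trans_lt h3⟩
            (h1.trans hτ.1)))
      refine h6.trans ?_
      have h7 := stp_ge hε hB0 hjS' (ρ := ρ) ⟨hj1, hj2⟩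
      have h8 : sc j ≤ 2 * ρ := by
        rw [sc_succ] at hj1
        linarith
      have h9 := ha j
      calc 7 / 2 * (a j * sc j) ≤ 7 / 2 * (a j * (2 * ρ)) := by gcongr
        _ = 7 * a j * ρ := by ring
        _ ≤ _ := mul_le_mul_of_nonneg_right h7 hρ0.le
    · refine (hG j hJj hji hjS ρ ⟨hj1, hj2⟩ t t' h1 h2 h3 h4).trans ?_
      refine mul_le_mul_of_nonneg_right ?_ hρ0.le
      unfold stp
      have : 0 ≤ ∑ j ∈ S', (Ioc (sc (j + 1)) (sc j)).indicator (fun _ => 7 * a j) ρ :=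
        Finset.sum_nonneg fun j hj => indicator_nonneg (fun _ _ => hB0 j hj) ρ
      linarith
  have hrr : √(s + r ^ 2 - s) = r := by rw [add_sub_cancel_left, Real.sqrt_sq hr.le]
  obtain ⟨q1, q2⟩ := stp_int hε hB0 hr hR
  have hs' : s ∈ Ico (T - r ^ 2) T := by rw [hre]; exact hs
  have h1 := en_Qe (T' := s + r ^ 2) (e := stp S' ε (fun j => 7 * a j)) h hI hn (sc_pos i).le hR x₀
    (stp_nonneg hε hB0) hyp hts hs.2 (by linarith [hs'.1]) (by linarith [hs.2])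
    (by rw [hre, add_sub_cancel_left]) (by rw [hrr]; exact q1)
  rw [hrr] at h1
  have h2 := enP_up (x₀ := x₀) (T' := s + r ^ 2) h hI (by linarith [hs'.1])
  have h5 : ∫ τ in Ioc t₀ s, (Fx u p τ).toReal ≤ ∫ τ in Ioo t₀ T, (Fx u p τ).toReal :=
    setIntegral_mono_set h.Fx_int (Eventually.of_forall fun _ => ENNReal.toReal_nonneg)
      (show Ioc t₀ s ⊆ Ioo t₀ T from fun τ hτ => ⟨hτ.1, hτ.2.trans_lt hs.2⟩).eventuallyLE
  have h5' := h5.trans (hF 1 T u p t₀ E h)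
  rw [← hF₀] at h5'
  have hRe : ((sc J)⁻¹) ^ 3 = 8 ^ J := by
    unfold sc
    rw [← inv_pow, ← pow_mul, mul_comm, pow_mul]
    norm_num
  rw [hRe] at h1
  have h6' := mul_le_mul_of_nonneg_left h5' (by positivity : 0 ≤ 16 * √(√(T + 1)) * (8 : ℝ) ^ J)
  have hRi : (1 : ℝ) ≤ 8 ^ J := one_le_pow₀ (by norm_num)
  have hkr : √r = kp ^ i := by rw [hre, sqrt_sc]
  have hkp : 0 < kp ^ i := pow_pos kp_pos i
  have h6 : enW (cw u s) (Ps I x₀ (s + r ^ 2) s) ≤ K₄ * 8 ^ J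
      + 3072 * (2 * ε * (kp ^ i)⁻¹ + ∑ j ∈ S', 7 * a j * (kp ^ (j + 1))⁻¹) := by
    have h7 : (1 + (T - t₀)⁻¹) * E * 1 ≤ (1 + (T - t₀)⁻¹) * E * 8 ^ J :=
      mul_le_mul_of_nonneg_left hRi (by positivity)
    rw [hkr] at q2
    rw [hK₄]
    linarith
  have h7 := mul_le_mul_of_nonneg_left h6 hkp.le
  have h8 : kp ^ i * (K₄ * 8 ^ J + 3072 * (2 * ε * (kp ^ i)⁻¹ + ∑ j ∈ S', 7 * a j * (kp ^ (j + 1))⁻¹))
      = K₄ * 8 ^ J * kp ^ i + 6144 * ε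
        + 21504 * ∑ j ∈ S', a j * (kp ^ i * (kp ^ (j + 1))⁻¹) := by
    have e1 : ∑ j ∈ S', 7 * a j * (kp ^ (j + 1))⁻¹ = 7 * ∑ j ∈ S', a j * (kp ^ (j + 1))⁻¹ := by
      rw [Finset.mul_sum]
      exact Finset.sum_congr rfl fun j _ => by ring
    have e2 : ∑ j ∈ S', a j * (kp ^ i * (kp ^ (j + 1))⁻¹)
        = kp ^ i * ∑ j ∈ S', a j * (kp ^ (j + 1))⁻¹ := by
      rw [Finset.mul_sum]
      exact Finset.sum_congr rfl fun j _ => by ring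
    rw [e1, e2]
    have e3 : kp ^ i * (kp ^ i)⁻¹ = 1 := mul_inv_cancel₀ hkp.ne'
    calc _ = kp ^ i * K₄ * 8 ^ J + 6144 * ε * (kp ^ i * (kp ^ i)⁻¹)
          + 21504 * (kp ^ i * ∑ j ∈ S', a j * (kp ^ (j + 1))⁻¹) := by ring
      _ = _ := by rw [e3]; ring
  rw [h8, ← hkr] at h7
  have h9 := nw_lowP (x₀ := x₀) h hI ⟨hts, hs.2⟩ hr h7
  rw [hkr, hre] at h9
  exact h9


end Pool.Agent.H305.EG
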