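import Pool.Agent.H305.EG.Tg

/-!
The criterion for a positive proportion of the scales, with an explicit threshold: viscosity one.
-/

set_option autoImplicit false

open MeasureTheory Set Metric Filter Topology
open scoped ContDiff ENNReal

namespace Pool.Agent.H305.EG

open H459R3.NS W221.NS Pool.Agent.V1183.PM Pool.Agent.H305.OS Pool.Agent.H305.SL Pool.Agent.H305.PL
  Pool.Agent.H305.EF

theorem critY : ∃ ε : ℝ, 0 < ε ∧ ∃ n₀ : ℕ, ∀ T t₀ E : ℝ, 0 < t₀ → t₀ < T → 0 ≤ E →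
    ∀ (u : ℝ → V → V) (p : ℝ → V → ℝ), ST 1 T u p t₀ E → ∀ (I : Finset (Fin 3)) (x₀ : V) (J : ℕ)
    (S : Finset ℕ), 2 ≤ I.card → (2 + T + (T - t₀)⁻¹ + E) ^ n₀ ≤ 2 ^ J → 100 * S.card ≤ J →
    GS T t₀ u p I x₀ S J (256 * J) ε →
    ∀ t ∈ Ioo (T - sc (500 * J)) T, ∀ x₁ ∈ PI' I x₀, ∀ x ∈ ball x₁ (sc (500 * J)),
      ‖u t x‖ ≤ 2 ^ (250 * J) := by
  obtain ⟨C, hC, hG⟩ := DB_good
  obtain ⟨L, c, c₀, C₀, hL1, hc, hc₀, hc₀1, hC₀, hN⟩ := near_atx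
  have hL0 : 0 < L := by linarith
  obtain ⟨c₁, hc₁⟩ : ∃ c₁ : ℝ, c₁ = c / L := ⟨_, rfl⟩
  have hc₁0 : 0 < c₁ := by rw [hc₁]; positivity
  obtain ⟨κ₀, hκ₀⟩ : ∃ κ₀ : ℝ, κ₀ = min (c₁ / 2) (1 / 64) / (C + 1) := ⟨_, rfl⟩
  have hκ₀0 : 0 < κ₀ := by rw [hκ₀]; positivity
  have hκ1 : κ₀ * (C + 1) = min (c₁ / 2) (1 / 64) := by
    rw [hκ₀]
    exact div_mul_cancel₀ _ (by positivity)
  have hm1 := min_le_left (c₁ / 2) (1 / 64)
  have hm2 := min_le_right (c₁ / 2) (1 / 64)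
  have hCκ0 : 0 ≤ C * κ₀ := by positivity
  have hκa : C * κ₀ ≤ c₁ / 2 := by nlinarith
  have hκb : C * κ₀ ≤ 1 / 64 := by nlinarith
  have hκ64 : κ₀ ≤ 1 / 64 := by nlinarith
  have hsq : √(κ₀ ^ 2) = κ₀ := Real.sqrt_sq hκ₀0.le
  have hθ1 : κ₀ ^ 2 ≤ 1 := pow_le_one₀ hκ₀0.le (by linarith)
  obtain ⟨ε, hεe⟩ : ∃ ε : ℝ, ε = κ₀ ^ 2 / 184320 := ⟨_, rfl⟩
  have hε : 0 < ε := by rw [hεe]; positivity
  obtain ⟨K₅, hK₅, hstep⟩ := stepY
  obtain ⟨c', hc'⟩ : ∃ c' : ℝ, c' = 6144 * ε := ⟨_, rfl⟩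
  have hc'0 : 0 < c' := by rw [hc']; positivity
  have h30 : 6 * (5 * c') = κ₀ ^ 2 := by
    rw [hc', hεe]
    ring
  -- the absolute constants
  obtain ⟨W, hW⟩ : ∃ W : ℝ, W = 12 / κ₀ ^ 2 + 1 := ⟨_, rfl⟩
  have hW1 : 1 ≤ W := by
    rw [hW]
    have : 0 ≤ 12 / κ₀ ^ 2 := by positivity
    linarith
  obtain ⟨Q, hQ⟩ : ∃ Q : ℝ, Q = 2 * W + K₅ ^ 2 / c' ^ 2 + (c₁ + 1) * (16 * W) / c₁
    + C₀ * L * (16 * W) + L ^ 2 * (16 * W) ^ 2 / c₀ := ⟨_, rfl⟩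
  have p1 : 0 ≤ 2 * W := by positivity
  have p2 : 0 ≤ K₅ ^ 2 / c' ^ 2 := by positivity
  have p3 : 0 ≤ (c₁ + 1) * (16 * W) / c₁ := by positivity
  have p4 : 0 ≤ C₀ * L * (16 * W) := by positivity
  have p5 : 0 ≤ L ^ 2 * (16 * W) ^ 2 / c₀ := by positivity
  obtain ⟨n₁, hn₁⟩ := ex_two Q
  replace hn₁ := hn₁ n₁ le_rfl
  refine ⟨ε, hε, n₁ + 8, ?_⟩
  intro T t₀ E ht0 ht hE
  have hT : 0 < T := ht0.trans ht
  obtain ⟨K₄, hK₄, hK₄5, hstep⟩ := hstep T t₀ E ht0 ht hE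
  intro u p h I x₀ J S hI hJJ hS hGS
  obtain ⟨B, hB⟩ : ∃ B : ℝ, B = 2 + T + (T - t₀)⁻¹ + E := ⟨_, rfl⟩
  rw [← hB] at hJJ hK₄5
  have hb : 0 < T - t₀ := by linarith
  have hTi : 0 < (T - t₀)⁻¹ := inv_pos.2 hb
  have hB2 : 2 ≤ B := by rw [hB]; linarith
  have hBi : (T - t₀)⁻¹ ≤ B := by rw [hB]; linarith
  have hBE : E + 2 ≤ B := by rw [hB]; linarith
  have hB0 : 0 < B := by linarith
  have hB1 : 1 ≤ B := by linarith
  have hQB : Q * B ^ 8 ≤ 2 ^ J := by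
    refine le_trans ?_ hJJ
    rw [pow_add]
    refine mul_le_mul_of_nonneg_right ?_ (by positivity)
    exact hn₁.trans (pow_le_pow_left₀ (by norm_num) hB2 n₁)
  have hBk : ∀ k, k ≤ 8 → B ^ k ≤ B ^ 8 := fun k hk => pow_le_pow_right₀ hB1 hk
  have hBk0 : ∀ k, 0 < B ^ k := fun k => pow_pos hB0 k
  have use : ∀ (q : ℝ) (k : ℕ), 0 ≤ q → q ≤ Q → k ≤ 8 → q * B ^ k ≤ 2 ^ J := fun q k h0 h1 h2 =>
    (mul_le_mul h1 (hBk k h2) (hBk0 k).le (h0.trans h1)).trans hQB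
  obtain ⟨J₂, hJ₂a, hJ₂b⟩ := exists_nat_pow_near (x := 12 * E / κ₀ ^ 2 + 1) (y := (2 : ℝ))
    (by
      have : 0 ≤ 12 * E / κ₀ ^ 2 := by positivity
      linarith) (by norm_num)
  obtain ⟨J₂', hJ₂'⟩ : ∃ n : ℕ, n = J₂ + 1 := ⟨_, rfl⟩
  rw [← hJ₂'] at hJ₂b
  have hWB : 2 ^ J₂' ≤ 2 * W * B := by
    have h1 : (2 : ℝ) ^ J₂' = 2 * 2 ^ J₂ := by rw [hJ₂', pow_succ]; ring
    have h2 : 12 * E / κ₀ ^ 2 + 1 ≤ W * B := by
      rw [hW]
      have h3 : 12 * E / κ₀ ^ 2 = 12 / κ₀ ^ 2 * E := by ring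
      have h4 : 12 / κ₀ ^ 2 * E ≤ 12 / κ₀ ^ 2 * B :=
        mul_le_mul_of_nonneg_left (by linarith) (by positivity)
      rw [h3]
      linarith
    rw [h1]
    linarith
  have hWB3 : 2 ^ (J₂' + 3) ≤ 16 * W * B := by
    rw [pow_add]
    linarith
  have hJ₂ : 12 * E / κ₀ ^ 2 ≤ 2 ^ J₂' := by linarith
  have g2 : J₂' ≤ J := by
    have h1 := use (2 * W) 1 p1 (by rw [hQ]; linarith) (by norm_num)
    rw [pow_one] at h1
    exact (pow_le_pow_iff_right₀ (by norm_num : (1 : ℝ) < 2)).1 (hWB.trans h1)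
  have g7 : 1 ≤ J := by omega
  have hJ₁ : sc J ^ 2 ≤ T - t₀ := by
    have h1 := use 1 1 (by norm_num) (by rw [hQ]; linarith) (by norm_num)
    rw [pow_one, one_mul] at h1
    have h2 := sc_pos J
    have h3 := sc_le J
    have h4 : sc J ≤ T - t₀ := by
      rw [sc_two]
      exact inv_le_of_inv_le₀ hb (hBi.trans h1)
    nlinarith
  have hJ₃ : K₄ * kp ^ J ≤ c' := by
    have h1 := use (K₅ ^ 2 / c' ^ 2) 8 p2 (by rw [hQ]; linarith) le_rfl
    have h2 : K₄ ^ 2 ≤ c' ^ 2 * 2 ^ J := by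
      calc K₄ ^ 2 ≤ (K₅ * B ^ 4) ^ 2 := pow_le_pow_left₀ hK₄.le hK₄5 2
        _ = c' ^ 2 * (K₅ ^ 2 / c' ^ 2 * B ^ 8) := by field_simp
        _ ≤ _ := mul_le_mul_of_nonneg_left h1 (by positivity)
    have h3 : (K₄ * kp ^ J) ^ 2 ≤ c' ^ 2 := by
      have e1 : (K₄ * kp ^ J) ^ 2 = K₄ ^ 2 * sc J := by
        rw [mul_pow, ← pow_mul, mul_comm J 2, pow_mul, kp_sq]
        rfl
      rw [e1]
      calc K₄ ^ 2 * sc J ≤ c' ^ 2 * 2 ^ J * sc J := mul_le_mul_of_nonneg_right h2 (sc_pos J).le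
        _ = c' ^ 2 * (2 ^ J * sc J) := by ring
        _ = c' ^ 2 := by rw [sc_mul, mul_one]
    have := kp_pos
    exact (pow_le_pow_iff_left₀ (by positivity) hc'0.le (by norm_num)).1 h3
  have hJ₄ : (E + c₁ + 1) * 2 ^ (J₂' + 3) / c₁ ≤ 2 ^ J := by
    have h1 := use ((c₁ + 1) * (16 * W) / c₁) 2 p3 (by rw [hQ]; linarith) (by norm_num)
    refine le_trans ?_ h1
    rw [div_mul_eq_mul_div]
    refine div_le_div_of_nonneg_right ?_ hc₁0.le
    have h2 : E + c₁ + 1 ≤ (c₁ + 1) * B := by nlinarith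
    calc (E + c₁ + 1) * 2 ^ (J₂' + 3) ≤ (c₁ + 1) * B * (16 * W * B) :=
          mul_le_mul h2 hWB3 (by positivity) (by positivity)
      _ = _ := by ring
  have hJ₅ : C₀ * L * 2 ^ (J₂' + 3) ≤ 2 ^ J := by
    have h1 := use (C₀ * L * (16 * W)) 1 p4 (by rw [hQ]; linarith) (by norm_num)
    refine le_trans ?_ h1
    calc C₀ * L * 2 ^ (J₂' + 3) ≤ C₀ * L * (16 * W * B) :=
          mul_le_mul_of_nonneg_left hWB3 (by positivity)
      _ = _ := by ring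
  have hJ₆ : L ^ 2 * (2 ^ (J₂' + 3)) ^ 2 / c₀ ≤ 2 ^ J := by
    have h1 := use (L ^ 2 * (16 * W) ^ 2 / c₀) 2 p5 (by rw [hQ]; linarith) (by norm_num)
    refine le_trans ?_ h1
    rw [div_mul_eq_mul_div]
    refine div_le_div_of_nonneg_right ?_ hc₀.le
    calc L ^ 2 * (2 ^ (J₂' + 3)) ^ 2 ≤ L ^ 2 * (16 * W * B) ^ 2 :=
          mul_le_mul_of_nonneg_left (pow_le_pow_left₀ (by positivity) hWB3 2) (by positivity)
      _ = _ := by ring
  have hcard : I.card ≤ 3 := by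
    have h1 := Finset.card_le_univ I
    rwa [Fintype.card_fin] at h1
  obtain ⟨n, hn⟩ : ∃ n, I.card = n + 1 := ⟨I.card - 1, by omega⟩
  have hn1 : 1 ≤ n := by omega
  obtain ⟨A₀, hA₀⟩ : ∃ A₀ : ℝ, A₀ = K₄ * 8 ^ J := ⟨_, rfl⟩
  have hA : 0 ≤ A₀ := by rw [hA₀]; positivity
  have hEB := EB_all (T := T) (t₀ := t₀) (u := u) (I := I) (x₀ := x₀) (S := S) (J := J)
    (N := 256 * J) hA hc'0.le (fun i a h1 h2 h3 h4 => by
      have h5 := hstep u p h I n x₀ J i S ε a hn hn1 h1 hε.le h3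
        (fun j h6 h7 => hGS j h6 (by omega)) h4
      rw [← hA₀, ← hc'] at h5
      exact h5)
  have hK : A₀ * kp ^ J ≤ c' * 8 ^ J := by
    rw [hA₀]
    calc K₄ * 8 ^ J * kp ^ J = K₄ * kp ^ J * 8 ^ J := by ring
      _ ≤ _ := mul_le_mul_of_nonneg_right hJ₃ (by positivity)
  have hJ1 : ∀ m, J ≤ m → t₀ ≤ T - sc m ^ 2 := by
    intro m hm
    have h1 := sc_anti hm
    have h2 : sc m ^ 2 ≤ sc J ^ 2 := pow_le_pow_left₀ (sc_pos m).le h1 2
    linarith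
  -- the energy at the good scales
  have hgood : ∀ k, k < 60 * J → ¬ bd S J A₀ c' (J + J₂' + 4 * (k + 1)) →
      ∀ x₁ ∈ PI' I x₀, ∀ τ ∈ Ico (T - sc (2 * J + J₂' + 4 * (k + 1) + 3) ^ 2) T, ∀ R,
      3 * sc (2 * J + J₂' + 4 * (k + 1) + 3) ≤ R →
      eB (cw u τ) x₁ R
        ≤ ENNReal.ofReal (κ₀ ^ 2 * R ^ 2 / (3 * sc (2 * J + J₂' + 4 * (k + 1) + 3))) := by
    intro k hk hb
    refine goodS (i := 2 * J + J₂' + 4 * (k + 1)) (J := J) (a := 5 * c') (θ := κ₀ ^ 2) h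
      (by positivity) ?_ h30.le ?_ (hJ1 _ (by omega))
    · intro j hj hji
      have h1 := hEB (j - J) (by omega)
      rw [Nat.add_sub_cancel' hj] at h1
      refine EB_mono h1 ?_
      have h2 := a_up (S := S) (J := J) hA hc'0.le (l := j - J) (i := J + J₂' + 4 * (k + 1)) (by omega)
      have e : J + J₂' + 4 * (k + 1) - (j - J) = 2 * J + J₂' + 4 * (k + 1) - j := by omega
      rw [e] at h2
      exact h2.trans (mul_le_mul_of_nonneg_left (good_a hA hc'0.le hb) (by positivity))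
    · have h1 : sc (2 * J + J₂' + 4 * (k + 1) + 3) ≤ sc (2 * J + J₂') := sc_anti (by omega)
      have h2 : sc (2 * J + J₂') = sc J ^ 2 * sc J₂' := by
        rw [sc_add]
        unfold sc
        rw [mul_comm 2 J, pow_mul]
      have h3 : 12 * E * sc J₂' ≤ κ₀ ^ 2 := by
        rw [div_le_iff₀ (by positivity)] at hJ₂
        have h4 := sc_pos J₂'
        have h5 := sc_mul J₂'
        calc 12 * E * sc J₂' ≤ 2 ^ J₂' * κ₀ ^ 2 * sc J₂' := mul_le_mul_of_nonneg_right hJ₂ h4.le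
          _ = κ₀ ^ 2 * (2 ^ J₂' * sc J₂') := by ring
          _ = κ₀ ^ 2 := by rw [h5, mul_one]
      calc 12 * sc (2 * J + J₂' + 4 * (k + 1) + 3) * E ≤ 12 * (sc J ^ 2 * sc J₂') * E := by
            rw [h2] at h1
            gcongr
        _ = 12 * E * sc J₂' * sc J ^ 2 := by ring
        _ ≤ _ := mul_le_mul_of_nonneg_right h3 (by positivity)
  by_cases hfin : ∃ k, k < 60 * J ∧ ¬ bd S J A₀ c' (J + J₂' + 4 * (k + 1)) ∧
      DB T u I x₀ (sc (2 * J + J₂' + 4 * (k + 1) + 3)) c₁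
  · -- the end of the proof
    obtain ⟨k, hk, hb, hD⟩ := hfin
    have hE' := hgood k hk hb
    obtain ⟨m, hm⟩ : ∃ m : ℕ, m = 2 * J + J₂' + 4 * (k + 1) + 3 := ⟨_, rfl⟩
    rw [← hm] at hD hE'
    have hm2 : m ≤ 242 * J + (J₂' + 3) := by omega
    obtain ⟨ρ, hρe⟩ : ∃ ρ : ℝ, ρ = sc m := ⟨_, rfl⟩
    have hρ : 0 < ρ := by rw [hρe]; exact sc_pos _
    have hρ1 : ρ ≤ 1 := by rw [hρe]; exact sc_le _
    have htρ := hJ1 m (by omega)
    rw [← hρe] at hD hE' htρ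
    obtain ⟨z, hz⟩ : ∃ z : ℝ, z = ρ / L := ⟨_, rfl⟩
    have hz0 : 0 < z := by rw [hz]; positivity
    have hLz : L * z = ρ := by rw [hz]; field_simp
    have hzρ : z ≤ ρ := by rw [← hLz]; nlinarith
    have hz1 : z ≤ 1 := by linarith
    have hzz : z ^ 2 ≤ ρ ^ 2 := pow_le_pow_left₀ hz0.le hzρ 2
    have hzp : 0 < z ^ 2 := by positivity
    have ht₀z : t₀ ≤ T - z ^ 2 / 4 := by linarith
    have hρ2 : 1 ≤ 2 ^ (242 * J + (J₂' + 3)) * ρ := by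
      have h1 := sc_anti hm2
      rw [← hρe] at h1
      rw [← sc_mul (242 * J + (J₂' + 3))]
      exact mul_le_mul_of_nonneg_left h1 (by positivity)
    have hd1 : sc (500 * J) ≤ c₀ * z ^ 2 := by
      have h1 := sc_pos (500 * J)
      have h2 : L ^ 2 * (2 ^ (J₂' + 3)) ^ 2 ≤ c₀ * 2 ^ J := by
        rw [div_le_iff₀ hc₀] at hJ₆
        linarith
      have h3 : (1 : ℝ) ≤ (2 ^ (242 * J + (J₂' + 3)) * ρ) ^ 2 := one_le_pow₀ hρ2
      have h4 : L ^ 2 * sc (500 * J) ≤ c₀ * ρ ^ 2 := by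
        have e1 : (2 : ℝ) ^ J * (2 ^ (242 * J)) ^ 2 ≤ 2 ^ (500 * J) := by
          rw [← pow_mul, ← pow_add]
          exact pow_le_pow_right₀ (by norm_num) (by omega)
        calc L ^ 2 * sc (500 * J) ≤ L ^ 2 * sc (500 * J) * (2 ^ (242 * J + (J₂' + 3)) * ρ) ^ 2 :=
              le_mul_of_one_le_right (by positivity) h3
          _ = L ^ 2 * (2 ^ (J₂' + 3)) ^ 2 * ((2 ^ (242 * J)) ^ 2 * (sc (500 * J) * ρ ^ 2)) := by
              rw [pow_add]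
              ring
          _ ≤ c₀ * 2 ^ J * ((2 ^ (242 * J)) ^ 2 * (sc (500 * J) * ρ ^ 2)) := by gcongr
          _ = c₀ * ρ ^ 2 * (2 ^ J * (2 ^ (242 * J)) ^ 2 * sc (500 * J)) := by ring
          _ ≤ c₀ * ρ ^ 2 * (2 ^ (500 * J) * sc (500 * J)) := by gcongr
          _ = c₀ * ρ ^ 2 := by rw [sc_mul, mul_one]
      rw [← hLz] at h4
      have h5 : c₀ * (L * z) ^ 2 = L ^ 2 * (c₀ * z ^ 2) := by ring
      rw [h5] at h4
      exact le_of_mul_le_mul_left h4 (by positivity)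
    have hd2 : C₀ / z ≤ 2 ^ (250 * J) := by
      rw [div_le_iff₀ hz0]
      have h1 : C₀ * L ≤ 2 ^ (250 * J) * (z * L) := by
        rw [mul_comm z L, hLz]
        calc C₀ * L ≤ C₀ * L * (2 ^ (242 * J + (J₂' + 3)) * ρ) :=
              le_mul_of_one_le_right (by positivity) hρ2
          _ = C₀ * L * 2 ^ (J₂' + 3) * (2 ^ (242 * J) * ρ) := by
              rw [pow_add]
              ring
          _ ≤ 2 ^ J * (2 ^ (242 * J) * ρ) := by gcongr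
          _ = 2 ^ (J + 242 * J) * ρ := by rw [pow_add]; ring
          _ ≤ 2 ^ (250 * J) * ρ := by
              refine mul_le_mul_of_nonneg_right ?_ hρ.le
              exact pow_le_pow_right₀ (by norm_num) (by omega)
      rw [← mul_assoc] at h1
      exact le_of_mul_le_mul_right h1 hL0
    have hfin := hN T u p h.toHS z hz0 hz1 (h.t0.trans_le ht₀z) (PI' I x₀) ?_ ?_
    · intro t ht x₁ hx₁ x hx
      exact (hfin t ⟨by linarith [ht.1], ht.2⟩ x₁ hx₁ x (ball_subset_ball hd1 hx)).trans hd2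
    · intro x₁ hx₁ s hs
      rw [hLz]
      refine (hE' x₁ hx₁ s ⟨by linarith [hs.1], hs.2⟩ (3 * ρ) le_rfl).trans
        (ENNReal.ofReal_le_ofReal ?_)
      rw [div_le_iff₀ (by positivity)]
      have h1 : κ₀ ^ 2 * (3 * ρ) ^ 2 ≤ 1 * (3 * ρ) ^ 2 := mul_le_mul_of_nonneg_right hθ1 (by positivity)
      calc κ₀ ^ 2 * (3 * ρ) ^ 2 ≤ 1 * (3 * ρ) ^ 2 := h1
        _ = _ := by ring
    · intro x₁ hx₁ s hs
      rw [hLz]
      have h1 := hD x₁ hx₁ s hs.2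
      have h2 : T - ρ ^ 2 ≤ T - z ^ 2 / 4 := by linarith
      refine (lintegral_mono_set (Ioc_subset_Ioc_left h2)).trans (h1.trans
        (ENNReal.ofReal_le_ofReal (le_of_eq ?_)))
      rw [hc₁, hz]
      field_simp
  · -- the recursion
    exfalso
    push Not at hfin
    obtain ⟨D₀, hD₀⟩ : ∃ D₀ : ℝ, D₀ = (E + c₁ + 1) * 2 ^ (2 * J + J₂' + 3) := ⟨_, rfl⟩
    have h2p : (1 : ℝ) ≤ 2 ^ (2 * J + J₂' + 3) := one_le_pow₀ (by norm_num)
    have hrec := rec_D (P := fun k D => DB T u I x₀ (sc (2 * J + J₂' + 4 * k + 3)) D)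
      (g := fun k => bd S J A₀ c' (J + J₂' + 4 * (k + 1))) (κ := C * κ₀) (c₁ := c₁) (D₀ := D₀)
      (n := 60 * J)
      (fun k D D' h1 h2 => DB_mono (sc_pos _) h1 h2)
      (DB_0 h (hJ1 _ (by omega)) (by
        rw [hD₀]
        have h1 := sc_mul (2 * J + J₂' + 3)
        have h2 : 2 * J + J₂' + 4 * 0 + 3 = 2 * J + J₂' + 3 := by omega
        rw [h2, mul_assoc, h1, mul_one]
        linarith))
      hc₁0
      (by
        rw [hD₀]
        nlinarith)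
      hκa hκb
      (by
        intro k D hk hD0 hb h1
        have e : sc (2 * J + J₂' + 4 * k + 3) = 16 * sc (2 * J + J₂' + 4 * (k + 1) + 3) := by
          rw [← sc16]
          congr 2
        rw [e] at h1
        have h2 := hG T u p t₀ E h I x₀ _ (κ₀ ^ 2) D (sc_pos _) (by positivity) hθ1 hD0
          (hJ1 _ (by omega)) (hgood k hk hb) h1
        rw [hsq] at h2
        exact h2)
      (by
        intro k D _ _ h1
        have e : sc (2 * J + J₂' + 4 * k + 3) = 16 * sc (2 * J + J₂' + 4 * (k + 1) + 3) := by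
          rw [← sc16]
          congr 2
        rw [e] at h1
        exact DB_bad (sc_pos _) h1)
      (fun k hk hb => hfin k hk hb)
    have hcnt : ∑ k ∈ Finset.range (60 * J), (if bd S J A₀ c' (J + J₂' + 4 * (k + 1)) then 1 else 0)
        ≤ 7 * J := by
      refine le_trans ?_ (bd_le (S := S) (J := J) hA hc'0 hK hS (255 * J))
      have h1 : ∑ k ∈ Finset.range (60 * J), (if bd S J A₀ c' (J + J₂' + 4 * (k + 1)) then 1 else 0)
          = ∑ l ∈ (Finset.range (60 * J)).image (fun k => J + J₂' + 4 * (k + 1)),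
            if bd S J A₀ c' l then 1 else 0 := by
        rw [Finset.sum_image]
        intro a _ b _ hab
        have hab : J + J₂' + 4 * (a + 1) = J + J₂' + 4 * (b + 1) := hab
        omega
      rw [h1]
      refine Finset.sum_le_sum_of_subset ?_
      intro l hl
      obtain ⟨k, hk, rfl⟩ := Finset.mem_image.1 hl
      rw [Finset.mem_range] at hk ⊢
      omega
    have h3 : c₁ * 2 ^ (60 * J) < D₀ * 32 ^ (7 * J) := by
      refine hrec.trans_le ?_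
      refine mul_le_mul_of_nonneg_left ?_ (by rw [hD₀]; positivity)
      exact pow_le_pow_right₀ (by norm_num) hcnt
    have h4 : D₀ * 32 ^ (7 * J) ≤ c₁ * 2 ^ (60 * J) := by
      have e1 : (32 : ℝ) ^ (7 * J) = 2 ^ (35 * J) := by
        rw [show (32 : ℝ) = 2 ^ 5 by norm_num, ← pow_mul]
        congr 1
        ring
      have h5 : (E + c₁ + 1) * 2 ^ (J₂' + 3) ≤ c₁ * 2 ^ J := by
        rw [div_le_iff₀ hc₁0] at hJ₄
        linarith
      rw [hD₀, e1]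
      calc (E + c₁ + 1) * 2 ^ (2 * J + J₂' + 3) * 2 ^ (35 * J)
          = (E + c₁ + 1) * 2 ^ (J₂' + 3) * (2 ^ (2 * J) * 2 ^ (35 * J)) := by
            rw [add_assoc (2 * J) J₂' 3, pow_add 2 (2 * J) (J₂' + 3)]
            ring
        _ ≤ c₁ * 2 ^ J * (2 ^ (2 * J) * 2 ^ (35 * J)) := by gcongr
        _ = c₁ * 2 ^ (J + (2 * J + 35 * J)) := by
            rw [pow_add, pow_add]
            ring
        _ ≤ _ := by
            refine mul_le_mul_of_nonneg_left ?_ hc₁0.le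
            exact pow_le_pow_right₀ (by norm_num) (by omega)
    linarith

end Pool.Agent.H305.EG
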