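import Pool.Agent.H305.EG.Tf
import Pool.Agent.H305.EG.Rg

/-!
Bounded inflow at most of the scales implies bounded scaled energy.
-/

set_option autoImplicit false

open MeasureTheory Set Metric Filter Topology
open scoped ContDiff ENNReal

namespace Pool.Agent.H305.EG

open H459R3.NS W221.NS Pool.Agent.V1183.PM Pool.Agent.H305.OS Pool.Agent.H305.SL Pool.Agent.H305.PL
  Pool.Agent.H305.EF

/-- The radii with a scale outside of `S`. -/
def AT (M : ℕ) (S : Finset ℕ) (J : ℕ) : Set ℝ :=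
  {ρ | ∃ j, J ≤ j ∧ j < M * J ∧ j ∉ S ∧ ρ ∈ Ioc (sc (j + 1)) (sc j)}

lemma AT_pos {M : ℕ} {S : Finset ℕ} {J : ℕ} {ρ : ℝ} (h : ρ ∈ AT M S J) : 0 < ρ := by
  obtain ⟨j, -, -, -, h1, -⟩ := h
  exact (sc_pos _).trans h1

lemma bd_ex {S : Finset ℕ} {J : ℕ} {A₀ c : ℝ} (hA : 0 ≤ A₀) (hc : 0 < c)
    (hK : A₀ * kp ^ J ≤ c * 8 ^ J) {n : ℕ} (hS : 33 * S.card + 6 * J < n) :
    ∃ l, l < n ∧ ¬ bd S J A₀ c l := by
  by_contra hcon
  push Not at hcon
  have h1 : ∑ l ∈ Finset.range n, (1 : ℕ) ≤ c1 S J n + c2 S J A₀ c n := by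
    unfold c1 c2
    rw [← Finset.sum_add_distrib]
    refine Finset.sum_le_sum fun l hl => ?_
    by_cases h1 : J + l ∈ S
    · rw [if_pos h1]
      omega
    · have h2 : c ≤ kp * mm S J A₀ c l := (hcon l (Finset.mem_range.1 hl)).resolve_left h1
      rw [if_pos (show J + l ∉ S ∧ c ≤ kp * mm S J A₀ c l from ⟨h1, h2⟩)]
      omega
  have h2 := c1_le (S := S) (J := J) n
  have h3 := c2_le (S := S) (J := J) hA hc hK n
  simp only [Finset.sum_const, Finset.card_range, smul_eq_mul, mul_one] at h1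
  omega

/-- Bounded inflow implies bounded scaled energy. -/
theorem gpY {T : ℝ} {u : ℝ → V → V} {p : ℝ → V → ℝ} (h : HS 1 T u p) (hT : 0 < T) (b : V) (K : ℝ)
    (hyp : ∀ N₀ : ℕ, ∃ (m : ℕ) (f : Fin m → V), 2 ≤ m ∧
      (∀ i j, ∑ l, f i l * f j l = if i = j then 1 else 0) ∧ ∃ (J : ℕ) (S : Finset ℕ), N₀ ≤ J ∧
      33 * S.card + 6 * J < 63 * J ∧ CA 1 T u p (AT 64 S J) f b K) : Gp T u b := by
  obtain ⟨t₀, ht₀, E, hST⟩ := ST_of h (a := T / 2) (by linarith) (by linarith)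
  obtain ⟨K₄, hK₄, J₁, hJ₁, hstep⟩ := stepX hT ht₀.2 hST.E0
  obtain ⟨K', hK'⟩ : ∃ K' : ℝ, K' = max K 1 := ⟨_, rfl⟩
  have hK'1 : 1 ≤ K' := by rw [hK']; exact le_max_right _ _
  have hK'0 : 0 ≤ K' := by linarith
  have hKK : K ≤ K' := by rw [hK']; exact le_max_left _ _
  obtain ⟨c', hc'⟩ : ∃ c' : ℝ, c' = 6144 * K' := ⟨_, rfl⟩
  have hc'0 : 0 < c' := by rw [hc']; positivity
  obtain ⟨J₃, hJ₃⟩ : ∃ J₃ : ℕ, ∀ J, J₃ ≤ J → K₄ * kp ^ J ≤ c' := by
    obtain ⟨n, hn⟩ := exists_pow_lt_of_lt_one (by positivity : 0 < c' / K₄) kp_lt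
    refine ⟨n, fun J hJ => ?_⟩
    have h1 : kp ^ J ≤ kp ^ n := pow_le_pow_of_le_one kp_pos.le kp_lt.le hJ
    have h2 := h1.trans hn.le
    rw [le_div_iff₀ hK₄] at h2
    linarith
  refine ⟨2 * (5 * c'), ?_⟩
  intro r₀ hr₀
  obtain ⟨J₂, hJ₂⟩ := ex_two (r₀⁻¹)
  obtain ⟨m, f, hm, hf, J, S, hJJ, hS, hin⟩ := hyp (J₁ + J₂ + J₃)
  replace hJ₂ := hJ₂ J (by omega)
  replace hJ₃ := hJ₃ J (by omega)
  obtain ⟨M, I, hM, hI, hMI⟩ := exists_MI (by omega : 0 < m) hf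
  have hrot := ST_uM hST hM
  have hcard : I.card ≤ 3 := by
    have h1 := Finset.card_le_univ I
    rwa [Fintype.card_fin] at h1
  obtain ⟨n, hn⟩ : ∃ n, I.card = n + 1 := ⟨I.card - 1, by omega⟩
  have hn1 : 1 ≤ n := by omega
  have hq : ∀ y : V, qI I (lm M b) y = dsf f b (lm M y) := by
    intro y
    have h1 := hMI (fun l => lm M y l - b l)
    unfold dsf
    rw [← h1]
    unfold qI
    refine Finset.sum_congr rfl fun i _ => ?_
    have h2 : lm M (fun l => lm M y l - b l) = fun l => y l - lm M b l := by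
      have h3 : (fun l => lm M y l - b l) = lm M y - b := rfl
      rw [h3, map_sub, hM.lm_lm]
      rfl
    rw [h2]
  have hnb : ∀ ρ : ℝ, 0 < ρ → nb I (lm M b) ρ = (lm M) ⁻¹' (nbh f b ρ) := by
    intro ρ hρ
    ext y
    show √(qI I (lm M b) y) < ρ ↔ dsf f b (lm M y) < ρ ^ 2
    rw [Real.sqrt_lt' hρ, hq]
  have hbn : ∀ r : ℝ, 0 < r → ball b (r / 2) ⊆ nbh f b r := by
    intro r hr0 x hx
    show dsf f b x < r ^ 2
    have h1 := hMI (fun l => x l - b l)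
    have h2 : ∑ i ∈ I, lm M (fun l => x l - b l) i ^ 2 ≤ ∑ i, lm M (fun l => x l - b l) i ^ 2 :=
      Finset.sum_le_sum_of_subset_of_nonneg (Finset.subset_univ I) fun _ _ _ => sq_nonneg _
    rw [hM.sum_sq] at h2
    have h3 : dsf f b x ≤ ∑ i, (x i - b i) ^ 2 := by
      unfold dsf
      rw [← h1]
      exact h2
    have h4 : ∀ i, (x i - b i) ^ 2 < (r / 2) ^ 2 := by
      intro i
      rw [mem_ball] at hx
      have h5 := (dist_le_pi_dist x b i).trans_lt hx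
      rw [Real.dist_eq] at h5
      rw [← sq_abs]
      exact pow_lt_pow_left₀ h5 (abs_nonneg _) two_ne_zero
    have h5 : ∑ i, (x i - b i) ^ 2 < 3 * (r / 2) ^ 2 := by
      simp only [Fin.sum_univ_three]
      linarith [h4 0, h4 1, h4 2]
    nlinarith
  obtain ⟨A₀, hA₀⟩ : ∃ A₀ : ℝ, A₀ = K₄ * 8 ^ J := ⟨_, rfl⟩
  have hA : 0 ≤ A₀ := by rw [hA₀]; positivity
  have hGS : GS T t₀ (uM M u) (pM M p) I (lm M b) S J (64 * J) K' := by
    intro j hj1 hj2 hj3 ρ hρ t t' h1 h2 h3 h4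
    have hρA : ρ ∈ AT 64 S J := ⟨j, hj1, hj2, hj3, hρ⟩
    have hρ0 : 0 < ρ := AT_pos hρA
    have h10 : 0 < t := hST.t0.trans_le h1
    rcases eq_or_lt_of_le h2 with h5 | h5
    · rw [h5, Ioc_self]
      simp only [Measure.restrict_empty, integral_zero_measure]
      positivity
    · have h6 := hin ρ hρA t t' h10 h5 h3 (by rw [one_mul]; exact h4)
      have h7 : K * ρ ≤ K' * ρ := mul_le_mul_of_nonneg_right hKK hρ0.le
      refine le_trans (le_of_eq ?_) (h6.trans h7)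
      refine setIntegral_congr_fun measurableSet_Ioc fun τ hτ => ?_
      have hτ0 : τ ∈ Ioo 0 T := ⟨h10.trans hτ.1, hτ.2.trans_lt h3⟩
      have hF := gF_fin hrot.toHS hτ0
      rw [← net_uM h hM hτ0, Ah_net (fun i => hrot.toHS.cw_HF hτ0 i) (hrot.div τ hτ0)
        (hrot.toHS.p_HF hτ0) hρ0 hF]
      unfold net
      simp only [hq]
  have hEB := EB_all (T := T) (t₀ := t₀) (u := uM M u) (I := I) (x₀ := lm M b) (S := S) (J := J)
    (N := 64 * J) hA hc'0.le (fun i a h1 h2 h3 h4 => by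
      have h5 := hstep (uM M u) (pM M p) hrot I n (lm M b) J i S K' a hn hn1 (by omega) h1 hK'0 h3
        (fun j h6 h7 => hGS j h6 (by omega)) h4
      rw [← hA₀, ← hc'] at h5
      exact h5)
  have hKk : A₀ * kp ^ J ≤ c' * 8 ^ J := by
    rw [hA₀]
    calc K₄ * 8 ^ J * kp ^ J = K₄ * kp ^ J * 8 ^ J := by ring
      _ ≤ _ := mul_le_mul_of_nonneg_right hJ₃ (by positivity)
  obtain ⟨l, hl, hb⟩ := bd_ex (S := S) (J := J) hA hc'0 hKk hS
  have hEl := EB_mono (hEB l (by omega)) (good_a hA hc'0.le hb)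
  obtain ⟨r, hr⟩ : ∃ r : ℝ, r = sc (J + l) := ⟨_, rfl⟩
  have hr0 : 0 < r := by rw [hr]; exact sc_pos _
  have hrr₀ : r ≤ r₀ := by
    have h1 : sc (J + l) ≤ sc J := sc_anti (by omega)
    have h2 : sc J ≤ r₀ := by
      rw [sc_two]
      exact inv_le_of_inv_le₀ hr₀ hJ₂
    rw [hr]
    exact h1.trans h2
  have htr : t₀ ≤ T - r ^ 2 := by
    have h1 : sc (J + l) ≤ sc J := sc_anti (by omega)
    have h2 : sc (J + l) ^ 2 ≤ sc J ^ 2 := pow_le_pow_left₀ (sc_pos _).le h1 2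
    have h3 := hJ₁ J (by omega)
    rw [hr]
    linarith
  refine ⟨r / 2, ⟨by positivity, by linarith⟩, fun s hs hs0 => ?_⟩
  have hsr : s ∈ Ico (T - r ^ 2) T := ⟨by nlinarith [hs.1, pow_pos hr0 2], hs.2⟩
  have k3 := hEl s (by rw [← hr]; exact hsr) (htr.trans hsr.1)
  rw [← hr] at k3
  unfold eB
  refine (lintegral_mono_set (hbn r hr0)).trans ?_
  rw [hnb r hr0] at k3
  simp only [nw_uM hM] at k3
  rw [hM.mp.setLIntegral_comp_preimage_emb (lm_emb hM)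
    (fun x => ENNReal.ofReal (nw (cw u s) x))] at k3
  refine k3.trans (ENNReal.ofReal_le_ofReal (le_of_eq ?_))
  ring

/-- The theorem for the viscosity `ν`. -/
theorem lossY {ν T : ℝ} {u : ℝ → V → V} {p : ℝ → V → ℝ} (h : HS ν T u p) (hT : 0 < T)
    (hno : ¬ ∀ ε : ℝ, 0 < ε → ∃ δ : ℝ, 0 < δ ∧ ∀ s ∈ Ioo (T - δ) T, ∀ t ∈ Ioo (T - δ) T,
      d2 u s t ≤ ε) :
    ∃ b : V, ¬ Rg T u b ∧
      (∀ K : ℝ, ∃ r₀ : ℝ, 0 < r₀ ∧ ∀ r ∈ Ioo 0 r₀, ∃ t ∈ Ico (T - r ^ 2 / ν) T, 0 < t ∧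
        ENNReal.ofReal (K * r) < eB (cw u t) b r) ∧
      ∀ K : ℝ, ∃ N₀ : ℕ, ∀ (m : ℕ) (f : Fin m → V), 2 ≤ m →
        (∀ i j, ∑ l, f i l * f j l = if i = j then 1 else 0) → ∀ (J : ℕ) (S : Finset ℕ), N₀ ≤ J →
        33 * S.card + 6 * J < 63 * J → ¬ CA ν T u p (AT 64 S J) f b K := by
  have hν := h.hν
  have h1 := HS_k h
  have hTν : 0 < ν * T := by positivity
  have hd : ∀ s t : ℝ, d2 (us ν⁻¹ u) (ν * s) (ν * t) = ν⁻¹ ^ 2 * d2 u s t := by
    intro s t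
    unfold d2
    rw [← integral_const_mul]
    congr 1
    funext x
    rw [Finset.mul_sum]
    refine Finset.sum_congr rfl fun i _ => ?_
    unfold cw us
    rw [← mul_assoc, ← mul_assoc, inv_mul_cancel₀ hν.ne', one_mul, one_mul]
    ring
  have hex : ∃ b, ¬ Rg (ν * T) (us ν⁻¹ u) b ∧ ¬ Gp (ν * T) (us ν⁻¹ u) b := by
    by_contra hcon
    push Not at hcon
    apply hno
    intro ε hε
    obtain ⟨δ, hδ, hs⟩ := strong h1 hTν hcon (ν⁻¹ ^ 2 * ε) (by positivity)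
    have key : ∀ s ∈ Ioo (T - δ / ν) T, ν * s ∈ Ioo (ν * T - δ) (ν * T) := by
      intro s hs
      constructor
      · have h4 := mul_lt_mul_of_pos_left hs.1 hν
        have e : ν * (T - δ / ν) = ν * T - δ := by field_simp
        linarith
      · exact mul_lt_mul_of_pos_left hs.2 hν
    refine ⟨δ / ν, by positivity, fun s hs' t ht' => ?_⟩
    have h2 := hs (ν * s) (key s hs') (ν * t) (key t ht')
    rw [hd] at h2
    exact le_of_mul_le_mul_left h2 (by positivity)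
  obtain ⟨b, hb1, hb2⟩ := hex
  refine ⟨b, ?_, ?_, ?_⟩
  · intro hc
    apply hb1
    obtain ⟨δ, Q, hδ, hQ⟩ := hc
    refine ⟨min δ (δ * ν), ν⁻¹ * Q, by positivity, fun t ht x hx => ?_⟩
    have m1 : min δ (δ * ν) ≤ δ := min_le_left _ _
    have m2 : min δ (δ * ν) ≤ δ * ν := min_le_right _ _
    have h2 : ν⁻¹ * t ∈ Ioo (T - δ) T := by
      constructor
      · have h3 : ν * T - δ * ν < t := by linarith [ht.1]
        rw [lt_inv_mul_iff₀ hν]
        linarith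
      · rw [inv_mul_lt_iff₀ hν]
        exact ht.2
    have h3 := hQ (ν⁻¹ * t) h2 x (ball_subset_ball m1 hx)
    have e : us ν⁻¹ u t x = ν⁻¹ • u (ν⁻¹ * t) x := by
      funext i
      rfl
    rw [e, norm_smul, Real.norm_eq_abs, abs_of_pos (inv_pos.2 hν)]
    exact mul_le_mul_of_nonneg_left h3 (by positivity)
  · intro K
    unfold Gp at hb2
    push Not at hb2
    obtain ⟨r₀, hr₀, h2⟩ := hb2 (ν⁻¹ ^ 2 * K)
    refine ⟨r₀, hr₀, fun r hr => ?_⟩
    obtain ⟨s, hs, hs0, h3⟩ := h2 r hr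
    refine ⟨ν⁻¹ * s, ⟨?_, ?_⟩, by positivity, ?_⟩
    · rw [le_inv_mul_iff₀ hν]
      have e : ν * (T - r ^ 2 / ν) = ν * T - r ^ 2 := by field_simp
      linarith [hs.1]
    · rw [inv_mul_lt_iff₀ hν]
      exact hs.2
    · have e : eB (cw (us ν⁻¹ u) s) b r = ENNReal.ofReal (ν⁻¹ ^ 2) * eB (cw u (ν⁻¹ * s)) b r := by
        unfold eB
        rw [← lintegral_const_mul' _ _ ENNReal.ofReal_ne_top]
        refine lintegral_congr fun x => ?_
        rw [← ENNReal.ofReal_mul (by positivity)]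
        congr 1
        unfold nw
        rw [Finset.mul_sum]
        refine Finset.sum_congr rfl fun i _ => ?_
        unfold cw us
        ring
      rw [e, mul_assoc, ENNReal.ofReal_mul (by positivity)] at h3
      exact lt_of_mul_lt_mul_left' h3
  · intro K
    by_contra hcon
    push Not at hcon
    apply hb2
    refine gpY h1 hTν b (ν⁻¹ ^ 2 * K) fun N₀ => ?_
    obtain ⟨m, f, hm, hf, J, S, hJ, hS, hCQ⟩ := hcon N₀
    refine ⟨m, f, hm, hf, J, S, hJ, hS, ?_⟩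
    intro ρ hρ t t' h2 h3 h4 h5
    have hρ0 : 0 < ρ := AT_pos hρ
    obtain ⟨W, hW⟩ : ∃ W : V → ℝ, W = fun x => max (1 - dsf f b x / ρ ^ 2) 0 := ⟨_, rfl⟩
    rw [← hW]
    have e1 : ∫ τ in Ioc t t', net 1 (cw (us ν⁻¹ u) τ) (ps ν⁻¹ p τ) W
        = ∫ τ in Ioc t t', ν⁻¹ ^ 3 * net ν (cw u (ν⁻¹ * τ)) (p (ν⁻¹ * τ)) W := by
      refine setIntegral_congr_fun measurableSet_Ioc fun τ hτ => ?_
      exact net_k h ⟨h2.trans hτ.1, hτ.2.trans_lt h4⟩ _
    have e2 := int_k hν (fun τ => net ν (cw u τ) (p τ) W) h3.le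
    rw [e1, integral_const_mul, e2]
    have h6 := hCQ ρ hρ (ν⁻¹ * t) (ν⁻¹ * t') (by positivity)
      (mul_lt_mul_of_pos_left h3 (by positivity)) (by rw [inv_mul_lt_iff₀ hν]; exact h4) (by
        have : ν * (T - ν⁻¹ * t) = 1 * (ν * T - t) := by field_simp
        rw [this]
        exact h5)
    rw [← hW] at h6
    calc ν⁻¹ ^ 3 * (ν * ∫ τ in Ioc (ν⁻¹ * t) (ν⁻¹ * t'), net ν (cw u τ) (p τ) W)
        ≤ ν⁻¹ ^ 3 * (ν * (K * ρ)) := by gcongr
      _ = ν⁻¹ ^ 2 * K * ρ := by field_simp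

end Pool.Agent.H305.EG
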