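import Pool.Agent.H305.EG.Tg

/-!
Better constants in the counting.
-/

set_option autoImplicit false

open MeasureTheory Set Metric Filter Topology
open scoped ContDiff ENNReal

namespace Pool.Agent.H305.EG

open H459R3.NS W221.NS Pool.Agent.V1183.PM Pool.Agent.H305.OS Pool.Agent.H305.SL Pool.Agent.H305.PL
  Pool.Agent.H305.EF

lemma bd_sum {S : Finset ℕ} {J : ℕ} {A₀ c : ℝ} (hA : 0 ≤ A₀) (hc : 0 < c)
    (hK : A₀ * kp ^ J ≤ c * 8 ^ J) (n : ℕ) :
    ∑ l ∈ Finset.range n, (if bd S J A₀ c l then 1 else 0) ≤ 33 * S.card + 6 * J := by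
  have h1 : ∑ l ∈ Finset.range n, (if bd S J A₀ c l then 1 else 0) ≤ c1 S J n + c2 S J A₀ c n := by
    unfold c1 c2
    rw [← Finset.sum_add_distrib]
    refine Finset.sum_le_sum fun l _ => ?_
    by_cases h1 : J + l ∈ S
    · rw [if_pos (show bd S J A₀ c l from Or.inl h1), if_pos h1]
      omega
    · by_cases h2 : c ≤ kp * mm S J A₀ c l
      · rw [if_pos (show bd S J A₀ c l from Or.inr h2),
          if_pos (show J + l ∉ S ∧ c ≤ kp * mm S J A₀ c l from ⟨h1, h2⟩)]
        omega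
      · have h3 : ¬ bd S J A₀ c l := fun h => h.elim h1 h2
        rw [if_neg h3]
        exact Nat.zero_le _
  have h2 := c1_le (S := S) (J := J) n
  have h3 := c2_le (S := S) (J := J) hA hc hK n
  omega

lemma sum4 (f : ℕ → ℕ) (n : ℕ) : ∑ k ∈ Finset.range n, f (4 * k)
    + ∑ k ∈ Finset.range n, f (4 * k + 1) + ∑ k ∈ Finset.range n, f (4 * k + 2)
    + ∑ k ∈ Finset.range n, f (4 * k + 3) = ∑ l ∈ Finset.range (4 * n), f l := by
  induction n with
  | zero => simp
  | succ n ih =>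
    have e : 4 * (n + 1) = 4 * n + 1 + 1 + 1 + 1 := by ring
    rw [e, Finset.sum_range_succ, Finset.sum_range_succ, Finset.sum_range_succ,
      Finset.sum_range_succ, Finset.sum_range_succ, Finset.sum_range_succ, Finset.sum_range_succ,
      Finset.sum_range_succ, ← ih]
    ring

/-- One of the four classes has few bad scales. -/
lemma pigeon (f : ℕ → ℕ) (a n X : ℕ) (hX : ∑ l ∈ Finset.range (a + 4 * n), f l ≤ X) :
    ∃ r, r ≤ 3 ∧ 4 * ∑ k ∈ Finset.range n, f (a + (4 * k + r)) ≤ X := by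
  have h1 := sum4 (fun l => f (a + l)) n
  have h2 : ∑ l ∈ Finset.range (4 * n), f (a + l) ≤ X := by
    rw [Finset.sum_range_add] at hX
    omega
  by_contra hcon
  push Not at hcon
  have q0 := hcon 0 (by norm_num)
  have q1 := hcon 1 (by norm_num)
  have q2 := hcon 2 (by norm_num)
  have q3 := hcon 3 (by norm_num)
  simp only [add_zero] at q0
  omega

/-- The recursion for the dissipation. -/
lemma rec_G {P : ℕ → ℝ → Prop} {g : ℕ → Prop} [DecidablePred g] {κ c₁ D₀ : ℝ} {n : ℕ}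
    (hP : ∀ k D D', P k D → D ≤ D' → P k D') (h0 : P 0 D₀) (hc : 0 < c₁) (hD : c₁ < D₀)
    (hκ : κ * 2 ^ 33 ≤ c₁) (hκ' : κ * 2 ^ 37 ≤ 1)
    (hg : ∀ k D, k < n → 0 ≤ D → ¬ g k → P k D → P (k + 1) (κ * (1 + 16 * D)))
    (hb : ∀ k D, k < n → 0 ≤ D → P k D → P (k + 1) (16 * D))
    (hno : ∀ k, k < n → ¬ g k → ¬ P (k + 1) c₁) :
    c₁ * 2 ^ (32 * n) < D₀ * 2 ^ (36 * ∑ k ∈ Finset.range n, if g k then 1 else 0) := by
  have key : ∀ k, k ≤ n → ∃ D, P k D ∧ c₁ < D ∧
      D * 2 ^ (32 * k) ≤ D₀ * 2 ^ (36 * ∑ k ∈ Finset.range k, if g k then 1 else 0) := by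
    intro k
    induction k with
    | zero =>
      intro _
      exact ⟨D₀, h0, hD, by simp⟩
    | succ k ih =>
      intro hk
      obtain ⟨D, h1, h2, h3⟩ := ih (by omega)
      have hD0 : 0 < D := hc.trans h2
      rw [Finset.sum_range_succ, mul_add, mul_add]
      by_cases h : g k
      · rw [if_pos h, mul_one, pow_add, pow_add, mul_one]
        refine ⟨16 * D, hb k D (by omega) hD0.le h1, by linarith, ?_⟩
        calc 16 * D * (2 ^ (32 * k) * 2 ^ 32) = 2 ^ 36 * (D * 2 ^ (32 * k)) := by ring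
          _ ≤ 2 ^ 36 * (D₀ * 2 ^ (36 * ∑ k ∈ Finset.range k, if g k then 1 else 0)) := by linarith
          _ = _ := by ring
      · rw [if_neg h, mul_zero, add_zero, mul_one, pow_add]
        have h4 := hg k D (by omega) hD0.le h h1
        have h5 := hno k (by omega) h
        have h6 : c₁ < κ * (1 + 16 * D) := by
          by_contra h7
          exact h5 (hP _ _ _ h4 (not_lt.1 h7))
        have h8 : κ * (1 + 16 * D) ≤ D / 2 ^ 32 := by
          have h9 : κ * 2 ^ 37 * D ≤ 1 * D := mul_le_mul_of_nonneg_right hκ' hD0.le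
          rw [le_div_iff₀ (by positivity)]
          linarith
        have h9 : c₁ < D / 2 ^ 32 := h6.trans_le h8
        refine ⟨D / 2 ^ 32, hP _ _ _ h4 h8, h9, ?_⟩
        calc D / 2 ^ 32 * (2 ^ (32 * k) * 2 ^ 32) = D * 2 ^ (32 * k) := by field_simp
          _ ≤ _ := h3
  obtain ⟨D, -, h2, h3⟩ := key n le_rfl
  refine lt_of_lt_of_le ?_ h3
  exact mul_lt_mul_of_pos_right h2 (by positivity)

end Pool.Agent.H305.EG
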