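import Pool.Agent.H305.EG.Tl
import Pool.Agent.H305.EG.Tj

/-!
The criterion for a positive proportion of the scales, with an explicit threshold: points and lines,
all viscosities, better constants.
-/

set_option autoImplicit false

open MeasureTheory Set Metric Filter Topology
open scoped ContDiff ENNReal

namespace Pool.Agent.H305.EG

open H459R3.NS W221.NS Pool.Agent.V1183.PM Pool.Agent.H305.OS Pool.Agent.H305.SL Pool.Agent.H305.PL
  Pool.Agent.H305.EF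

/-- The criterion for the viscosity one. -/
theorem crit_frZ : ∃ ε : ℝ, 0 < ε ∧ ∃ n₀ : ℕ, ∀ T E : ℝ, 0 < T → 0 ≤ E →
    ∀ (u : ℝ → V → V) (p : ℝ → V → ℝ), HS 1 T u p → en u (T / 2) ≤ E →
    ∀ (m : ℕ) (f : Fin m → V), 2 ≤ m →
    (∀ i j, ∑ l, f i l * f j l = if i = j then 1 else 0) → ∀ (b : V) (J : ℕ) (S : Finset ℕ),
    (2 + T + (T - T / 2)⁻¹ + E) ^ n₀ ≤ 2 ^ J → 50 * S.card ≤ 64 * J + 63 → CA 1 T u p (AT 64 S J) f b ε →
    ∀ t ∈ Ioo (T - sc (120 * J)) T, ∀ x ∈ nbh f b (sc (120 * J)), ∀ i,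
      |u t x i| ≤ 2 * 2 ^ (60 * J) := by
  obtain ⟨ε₁, hε₁, n₀, hcr₁⟩ := critZ
  refine ⟨ε₁, hε₁, n₀, ?_⟩
  intro T E hT hE
  have hP := hcr₁ T (T / 2) E (by linarith) (by linarith) hE
  intro u p h hEu m f hm hf b J S hJ hS hin
  have hST : ST 1 T u p (T / 2) E := ST_en h (by linarith) (by linarith) hEu
  obtain ⟨M, I, hM, hI, hMI⟩ := exists_MI (by omega : 0 < m) hf
  have hr := ST_uM hST hM
  have hq : ∀ y : V, qI I (lm M b) y = dsf f b (lm M y) := by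
    intro y
    have h1 := hMI (fun l => lm M y l - b l)
    unfold dsf
    rw [← h1]
    unfold qI
    refine Finset.sum_congr rfl fun i _ => ?_
    have h2 : lm M (fun l => lm M y l - b l) = fun l => y l - lm M b l := by
      have h3 : (fun l => lm M y l - b l) = lm M y - b := rfl
      rw [h3, map_sub, hM.lm_lm]
      rfl
    rw [h2]
  have hnb : ∀ ρ : ℝ, 0 < ρ → nb I (lm M b) ρ = (lm M) ⁻¹' (nbh f b ρ) := by
    intro ρ hρ
    ext y
    show √(qI I (lm M b) y) < ρ ↔ dsf f b (lm M y) < ρ ^ 2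
    rw [Real.sqrt_lt' hρ, hq]
  obtain ⟨d, hde⟩ : ∃ d : ℝ, d = sc (120 * J) := ⟨_, rfl⟩
  have hd : 0 < d := by rw [hde]; exact sc_pos _
  obtain ⟨Q, hQe⟩ : ∃ Q : ℝ, Q = 2 ^ (60 * J) := ⟨_, rfl⟩
  have hQ0 : 0 < Q := by rw [hQe]; positivity
  have key : ∀ t ∈ Ioo (T - d) T, ∀ x : V, dI I (lm M b) x < d → ‖uM M u t x‖ ≤ Q := by
    have hQ := hP (uM M u) (pM M p) hr I (lm M b) J S (by omega) hJ hS (by
      intro j hj1 hj2 hj3 ρ hρ t t' h1 h2 h3 h4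
      have hρA : ρ ∈ AT 64 S J := ⟨j, hj1, hj2, hj3, hρ⟩
      have hρ0 : 0 < ρ := AT_pos hρA
      have h10 : 0 < t := hST.t0.trans_le h1
      rcases eq_or_lt_of_le h2 with h5 | h5
      · rw [h5, Ioc_self]
        simp only [Measure.restrict_empty, integral_zero_measure]
        exact mul_nonneg hε₁.le hρ0.le
      · have h5 := hin ρ hρA t t' h10 h5 h3 (by rw [one_mul]; exact h4)
        refine le_trans (le_of_eq ?_) h5
        refine setIntegral_congr_fun measurableSet_Ioc fun τ hτ => ?_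
        have hτ0 : τ ∈ Ioo 0 T := ⟨h10.trans hτ.1, hτ.2.trans_lt h3⟩
        have hF := gF_fin hr.toHS hτ0
        rw [← net_uM h hM hτ0, Ah_net (fun i => hr.toHS.cw_HF hτ0 i) (hr.div τ hτ0)
          (hr.toHS.p_HF hτ0) hρ0 hF]
        unfold net
        simp only [hq])
    rw [← hde, ← hQe] at hQ
    intro t ht x hx
    refine hQ t ht (fun i => if i ∈ I then lm M b i else x i)
      (fun i hi => by simp only [if_pos hi]) x ?_
    rw [mem_ball, dist_pi_lt_iff hd]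
    intro i
    by_cases hi : i ∈ I
    · simp only [if_pos hi]
      rw [Real.dist_eq]
      exact (abs_le_dI hi).trans_lt hx
    · simp only [if_neg hi, dist_self]
      exact hd
  rw [← hde, ← hQe]
  intro t ht x hx i
  have hx' : dI I (lm M b) (lm M x) < d := by
    have h1 : lm M x ∈ nb I (lm M b) d := by
      rw [hnb d hd]
      show lm M (lm M x) ∈ nbh f b d
      rw [hM.lm_lm]
      exact hx
    exact h1
  have h2 := key t ht (lm M x) hx'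
  have h3 : nw (cw u t) x = nw (cw (uM M u) t) (lm M x) := by
    rw [nw_uM hM, hM.lm_lm]
  have h4 : nw (cw (uM M u) t) (lm M x) ≤ 3 * Q ^ 2 := by
    unfold nw
    have h5 : ∀ k : Fin 3, cw (uM M u) t k (lm M x) ^ 2 ≤ Q ^ 2 := fun k => by
      have h6 := norm_le_pi_norm (uM M u t (lm M x)) k
      rw [Real.norm_eq_abs] at h6
      have h7 : cw (uM M u) t k (lm M x) = uM M u t (lm M x) k := rfl
      rw [h7]
      exact sq_le_sq' (by linarith [neg_abs_le (uM M u t (lm M x) k)])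
        ((le_abs_self _).trans (h6.trans h2))
    calc ∑ k, cw (uM M u) t k (lm M x) ^ 2 ≤ ∑ _k : Fin 3, Q ^ 2 := Finset.sum_le_sum fun k _ => h5 k
      _ = 3 * Q ^ 2 := by rw [Finset.sum_const, Finset.card_univ, Fintype.card_fin, nsmul_eq_mul]; norm_num
  have h6 : u t x i ^ 2 ≤ nw (cw u t) x :=
    Finset.single_le_sum (f := fun k => cw u t k x ^ 2) (fun k _ => sq_nonneg _) (Finset.mem_univ i)
  have h7 : u t x i ^ 2 ≤ (2 * Q) ^ 2 := by nlinarith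
  exact abs_le_of_sq_le_sq h7 (by positivity)

/-- The criterion. -/
theorem crit_GZ : ∃ ε : ℝ, 0 < ε ∧ ∃ n₀ : ℕ, ∀ ν τ E : ℝ, 0 < ν → 0 < τ → 0 ≤ E →
    ∀ (T : ℝ) (u : ℝ → V → V) (p : ℝ → V → ℝ), HS ν T u p → ∀ s : ℝ, 0 < s → en u s ≤ E →
    ∀ T' : ℝ, s + τ ≤ T' → T' ≤ T → ∀ (m : ℕ) (f : Fin m → V), 2 ≤ m →
    (∀ i j, ∑ l, f i l * f j l = if i = j then 1 else 0) → ∀ (b : V) (J : ℕ) (S : Finset ℕ),
    (2 + ν + ν⁻¹ + τ + τ⁻¹ + E) ^ n₀ ≤ 2 ^ J → 50 * S.card ≤ 64 * J + 63 →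
    CA ν T' u p (AT 64 S J) f b (ε * ν ^ 2) →
    ∀ t ∈ Ioo (T' - sc (128 * J)) T', ∀ x ∈ nbh f b (sc (128 * J)), ∀ i,
      |u t x i| ≤ 2 ^ (64 * J) := by
  obtain ⟨ε, hε, n₀, hcr⟩ := crit_frZ
  refine ⟨ε, hε, 5 * n₀ + 2, ?_⟩
  intro ν τ E hν hτ hE
  have hP := hcr (ν * τ) (ν⁻¹ ^ 2 * E) (by positivity) (by positivity)
  intro T u p h s hs hEs T' hT1 hT2 m f hm hf b J S hJ hS hin
  obtain ⟨M, hM⟩ : ∃ M : ℝ, M = 2 + ν + ν⁻¹ + τ + τ⁻¹ + E := ⟨_, rfl⟩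
  rw [← hM] at hJ
  have hνi : 0 < ν⁻¹ := inv_pos.2 hν
  have hτi : 0 < τ⁻¹ := inv_pos.2 hτ
  have m0 : 2 ≤ M := by rw [hM]; linarith
  have m1 : ν ≤ M := by rw [hM]; linarith
  have m2 : ν⁻¹ ≤ M := by rw [hM]; linarith
  have m3 : τ ≤ M := by rw [hM]; linarith
  have m4 : τ⁻¹ ≤ M := by rw [hM]; linarith
  have m5 : E ≤ M := by rw [hM]; linarith
  have hM1 : 1 ≤ M := by linarith
  have hν2 : 2 * ν ≤ 2 ^ J := by
    have h1 : M ^ 2 ≤ M ^ (5 * n₀ + 2) := pow_le_pow_right₀ hM1 (by omega)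
    nlinarith
  have hJB : (2 + ν * τ + (ν * τ - ν * τ / 2)⁻¹ + ν⁻¹ ^ 2 * E) ^ n₀ ≤ 2 ^ J := by
    have h1 : 2 + ν * τ + (ν * τ - ν * τ / 2)⁻¹ + ν⁻¹ ^ 2 * E ≤ M ^ 5 := by
      have e1 : (ν * τ - ν * τ / 2)⁻¹ = 2 * (ν⁻¹ * τ⁻¹) := by
        field_simp
        norm_num
      have a1 : ν * τ ≤ M * M := mul_le_mul m1 m3 hτ.le (by linarith)
      have a2 : ν⁻¹ * τ⁻¹ ≤ M * M := mul_le_mul m2 m4 hτi.le (by linarith)
      have a3 : ν⁻¹ ^ 2 * E ≤ M ^ 2 * M :=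
        mul_le_mul (pow_le_pow_left₀ hνi.le m2 2) m5 hE (by positivity)
      have a4 : M * M = M ^ 2 := by ring
      have a5 : M ^ 2 * M = M ^ 3 := by ring
      have a6 : 2 * M ^ 2 ≤ M ^ 3 := by nlinarith [sq_nonneg M]
      have a7 : 4 ≤ M ^ 2 := by nlinarith
      have a8 : M ^ 5 = M ^ 2 * M ^ 3 := by ring
      have a9 : 0 < M ^ 3 := by positivity
      rw [e1]
      nlinarith
    have h0 : 0 ≤ 2 + ν * τ + (ν * τ - ν * τ / 2)⁻¹ + ν⁻¹ ^ 2 * E := by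
      have : 0 < ν * τ - ν * τ / 2 := by
        have : 0 < ν * τ := by positivity
        linarith
      positivity
    calc _ ≤ (M ^ 5) ^ n₀ := pow_le_pow_left₀ h0 h1 n₀
      _ = M ^ (5 * n₀) := by rw [← pow_mul]
      _ ≤ M ^ (5 * n₀ + 2) := pow_le_pow_right₀ hM1 (by omega)
      _ ≤ _ := hJ
  obtain ⟨a, ha⟩ : ∃ a : ℝ, a = T' - τ := ⟨_, rfl⟩
  have hsa : s ≤ a := by linarith
  have ha0 : 0 < a := hs.trans_le hsa
  have haT : T' - a = τ := by rw [ha]; ring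
  have h1 : HS ν T' u p := HS_mono h hT2
  have h2 := HS_sh h1 ha0.le
  rw [haT] at h2
  have hin2 := CA_sh ha0.le hin
  rw [haT] at hin2
  obtain ⟨u', hu'⟩ : ∃ u' : ℝ → V → V, u' = fun t => u (a + t) := ⟨_, rfl⟩
  obtain ⟨p', hp'⟩ : ∃ p' : ℝ → V → ℝ, p' = fun t => p (a + t) := ⟨_, rfl⟩
  rw [← hu', ← hp'] at h2 hin2
  have h3 := HS_k h2
  have hE' : en (us ν⁻¹ u') (ν * τ / 2) ≤ ν⁻¹ ^ 2 * E := by
    have e1 : ν⁻¹ * (ν * τ / 2) = τ / 2 := by field_simp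
    rw [en_k, e1]
    refine mul_le_mul_of_nonneg_left ?_ (by positivity)
    have e2 : en u' (τ / 2) = en u (a + τ / 2) := by rw [hu']; rfl
    rw [e2]
    exact (h1.en_anti hs (by linarith) (by linarith)).trans hEs
  have h4 := hP (us ν⁻¹ u') (ps ν⁻¹ p') h3 hE' m f hm hf b J S hJB hS (by
      intro ρ hρ t t' h1 h3 h4 h5
      obtain ⟨W, hW⟩ : ∃ W : V → ℝ, W = fun x => max (1 - dsf f b x / ρ ^ 2) 0 := ⟨_, rfl⟩
      rw [← hW]
      have e1 : ∫ τ in Ioc t t', net 1 (cw (us ν⁻¹ u') τ) (ps ν⁻¹ p' τ) W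
          = ∫ τ in Ioc t t', ν⁻¹ ^ 3 * net ν (cw u' (ν⁻¹ * τ)) (p' (ν⁻¹ * τ)) W := by
        refine setIntegral_congr_fun measurableSet_Ioc fun τ hτ => ?_
        exact net_k h2 ⟨h1.trans hτ.1, hτ.2.trans_lt h4⟩ _
      have e2 := int_k hν (fun τ => net ν (cw u' τ) (p' τ) W) h3.le
      rw [e1, integral_const_mul, e2]
      have h6 := hin2 ρ hρ (ν⁻¹ * t) (ν⁻¹ * t') (by positivity)
        (mul_lt_mul_of_pos_left h3 (by positivity)) (by rw [inv_mul_lt_iff₀ hν]; exact h4) (by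
          have : ν * (τ - ν⁻¹ * t) = 1 * (ν * τ - t) := by field_simp
          rw [this]
          exact h5)
      rw [← hW] at h6
      calc ν⁻¹ ^ 3 * (ν * ∫ τ in Ioc (ν⁻¹ * t) (ν⁻¹ * t'), net ν (cw u' τ) (p' τ) W)
          ≤ ν⁻¹ ^ 3 * (ν * (ε * ν ^ 2 * ρ)) := by gcongr
        _ = ε * ρ := by field_simp)
  intro t ht x hx i
  have h5 : sc (128 * J) ≤ sc (120 * J) := sc_anti (by omega)
  have hs0 := sc_pos (128 * J)
  have h6 : ν * sc (128 * J) ≤ sc (120 * J) := by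
    have e1 : 128 * J = 120 * J + 8 * J := by ring
    rw [e1, sc_add]
    have h7 := sc_pos (120 * J)
    have h8 := sc_pos (8 * J)
    have h9 : ν * sc (8 * J) ≤ 1 := by
      have h10 : ν ≤ 2 ^ (8 * J) := by
        have h11 : (2 : ℝ) ^ J ≤ 2 ^ (8 * J) := pow_le_pow_right₀ (by norm_num) (by omega)
        linarith
      calc ν * sc (8 * J) ≤ 2 ^ (8 * J) * sc (8 * J) := mul_le_mul_of_nonneg_right h10 h8.le
        _ = 1 := sc_mul _
    calc ν * (sc (120 * J) * sc (8 * J)) = sc (120 * J) * (ν * sc (8 * J)) := by ring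
      _ ≤ sc (120 * J) * 1 := mul_le_mul_of_nonneg_left h9 h7.le
      _ = _ := mul_one _
  have hx' : x ∈ nbh f b (sc (120 * J)) := by
    have h7 : ∑ i, (∑ l, f i l * (x l - b l)) ^ 2 < (sc (128 * J)) ^ 2 := hx
    exact lt_of_lt_of_le h7 (pow_le_pow_left₀ hs0.le h5 2)
  have ht' : ν * (t - a) ∈ Ioo (ν * τ - sc (120 * J)) (ν * τ) := by
    constructor
    · have h7 : τ - sc (128 * J) < t - a := by linarith [ht.1]
      have h8 := mul_lt_mul_of_pos_left h7 hν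
      have e : ν * (τ - sc (128 * J)) = ν * τ - ν * sc (128 * J) := by ring
      linarith
    · exact mul_lt_mul_of_pos_left (by linarith [ht.2]) hν
  have h7 := h4 (ν * (t - a)) ht' x hx' i
  have e : us ν⁻¹ u' (ν * (t - a)) x i = ν⁻¹ * u t x i := by
    unfold us
    rw [← mul_assoc, inv_mul_cancel₀ hν.ne', one_mul, hu']
    simp only [add_sub_cancel]
  rw [e, abs_mul, abs_of_pos (inv_pos.2 hν), inv_mul_le_iff₀ hν] at h7
  refine h7.trans ?_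
  calc ν * (2 * 2 ^ (60 * J)) = 2 * ν * 2 ^ (60 * J) := by ring
    _ ≤ 2 ^ J * 2 ^ (60 * J) := mul_le_mul_of_nonneg_right hν2 (by positivity)
    _ = 2 ^ (J + 60 * J) := by rw [pow_add]
    _ ≤ _ := pow_le_pow_right₀ (by norm_num) (by omega)

end Pool.Agent.H305.EG
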