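import Pool.Agent.H305.EG.Cd

/-!
The weight `(1 - d² / ρ²)₊`.
-/

set_option autoImplicit false

open MeasureTheory Set Metric Filter Topology
open scoped ContDiff ENNReal

namespace Pool.Agent.H305.EG

open H459R3.NS W221.NS Pool.Agent.V1183.PM Pool.Agent.H305.OS Pool.Agent.H305.SL Pool.Agent.H305.PL
  Pool.Agent.H305.EF
open Pool.Agent.W583.MD (sm_pd pd_mul')

/-- The approximations of the positive part. -/
noncomputable def pp (k : ℕ) (s : ℝ) : ℝ := s * Real.smoothTransition (k * s)

/-- Their derivatives. -/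
noncomputable def pp' (k : ℕ) (s : ℝ) : ℝ :=
  Real.smoothTransition (k * s) + k * s * deriv Real.smoothTransition (k * s)

section
variable {I : Finset (Fin 3)} {ρ R s : ℝ} {x₀ x : V} {c : Fin 3} {k : ℕ} {w : Fin 3 → V → ℝ}
  {q : V → ℝ}

lemma pp_sm (k : ℕ) : ContDiff ℝ ∞ (pp k) := by
  unfold pp
  exact contDiff_id.mul (Real.smoothTransition.contDiff.comp (contDiff_const.mul contDiff_id))

lemma pp_neg (h : s ≤ 0) : pp k s = 0 := by
  unfold pp
  rw [Real.smoothTransition.zero_of_nonpos, mul_zero]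
  exact mul_nonpos_of_nonneg_of_nonpos (Nat.cast_nonneg k) h

lemma pp_hd (k : ℕ) (s : ℝ) : HasDerivAt (pp k) (pp' k s) s := by
  have h3 : DifferentiableAt ℝ Real.smoothTransition (k * s) :=
    (Real.smoothTransition.contDiff (n := 1)).differentiable (by norm_num) _
  have h1 : HasDerivAt (fun s : ℝ => (k : ℝ) * s) (k : ℝ) s := by
    simpa using (hasDerivAt_id s).const_mul (k : ℝ)
  have h2 := (hasDerivAt_id s).mul (h3.hasDerivAt.comp s h1)
  refine h2.congr_deriv ?_
  unfold pp'
  simp only [Function.comp_apply, id_eq, one_mul]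
  ring

lemma pp_abs (k : ℕ) (s : ℝ) : |pp k s| ≤ max s 0 := by
  rcases le_or_gt s 0 with h | h
  · rw [pp_neg h, abs_zero]
    exact le_max_right _ _
  · unfold pp
    rw [abs_mul, abs_of_pos h, abs_of_nonneg (Real.smoothTransition.nonneg _)]
    exact (mul_le_of_le_one_right h.le (Real.smoothTransition.le_one _)).trans (le_max_left _ _)

lemma pp_lim (s : ℝ) : Tendsto (fun k => pp k s) atTop (𝓝 (max s 0)) := by
  rcases le_or_gt s 0 with h | h
  · simp only [pp_neg h, max_eq_right h]
    exact tendsto_const_nhds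
  · rw [max_eq_left h.le]
    refine tendsto_const_nhds.congr' ?_
    obtain ⟨N, hN⟩ := exists_nat_gt (1 / s)
    filter_upwards [eventually_ge_atTop N] with k hk
    unfold pp
    rw [Real.smoothTransition.one_of_one_le, mul_one]
    have h1 : (N : ℝ) ≤ k := by exact_mod_cast hk
    have h2 : 1 / s < k := hN.trans_le h1
    rw [div_lt_iff₀ h] at h2
    exact h2.le

lemma dst_zero {s : ℝ} (h : s < 0 ∨ 1 < s) : deriv Real.smoothTransition s = 0 := by
  rcases h with h | h
  · have : Real.smoothTransition =ᶠ[𝓝 s] fun _ => 0 := by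
      filter_upwards [Iio_mem_nhds h] with x hx
      exact Real.smoothTransition.zero_of_nonpos (le_of_lt hx)
    rw [this.deriv_eq, deriv_const]
  · have : Real.smoothTransition =ᶠ[𝓝 s] fun _ => 1 := by
      filter_upwards [Ioi_mem_nhds h] with x hx
      exact Real.smoothTransition.one_of_one_le (le_of_lt hx)
    rw [this.deriv_eq, deriv_const]

lemma pp'_bd : ∃ C : ℝ, 0 ≤ C ∧ ∀ (k : ℕ) (s : ℝ), |pp' k s| ≤ C := by
  have hc : Continuous fun s : ℝ => s * deriv Real.smoothTransition s :=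
    continuous_id.mul ((Real.smoothTransition.contDiff (n := 1)).continuous_deriv (by norm_num))
  obtain ⟨C, hC⟩ := isCompact_Icc.exists_bound_of_continuousOn hc.continuousOn (s := Icc (0 : ℝ) 1)
  have hC0 : 0 ≤ C := (norm_nonneg _).trans (hC 0 ⟨le_rfl, zero_le_one⟩)
  refine ⟨1 + C, by positivity, fun k s => ?_⟩
  unfold pp'
  refine (abs_add_le _ _).trans (add_le_add ?_ ?_)
  · rw [abs_of_nonneg (Real.smoothTransition.nonneg _)]
    exact Real.smoothTransition.le_one _
  · by_cases h : (k : ℝ) * s ∈ Icc (0 : ℝ) 1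
    · exact hC _ h
    · rw [dst_zero, mul_zero, abs_zero]
      · exact hC0
      · rw [mem_Icc, not_and_or, not_le, not_le] at h
        exact h

lemma pp'_neg (h : s ≤ 0) : pp' k s = 0 := by
  unfold pp'
  rcases eq_or_lt_of_le (mul_nonpos_of_nonneg_of_nonpos (Nat.cast_nonneg (α := ℝ) k) h) with h1 | h1
  · rw [h1, zero_mul, add_zero]
    exact Real.smoothTransition.zero_of_nonpos le_rfl
  · rw [Real.smoothTransition.zero_of_nonpos h1.le, dst_zero (Or.inl h1)]
    ring

lemma pp'_lim (h : 0 < s) : Tendsto (fun k => pp' k s) atTop (𝓝 1) := by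
  refine tendsto_const_nhds.congr' ?_
  obtain ⟨N, hN⟩ := exists_nat_gt (1 / s)
  filter_upwards [eventually_ge_atTop N] with k hk
  have h1 : (N : ℝ) ≤ k := by exact_mod_cast hk
  have h2 : 1 / s < k := hN.trans_le h1
  rw [div_lt_iff₀ h] at h2
  unfold pp'
  rw [Real.smoothTransition.one_of_one_le h2.le, dst_zero (Or.inr h2)]
  ring

/-- Weights which are functions of the distance. -/
lemma prof_BF {φ : ℝ → ℝ} (hφ : ContDiff ℝ ∞ φ) (h0 : ∀ s ≤ 0, φ s = 0) (hR : 0 < R) :
    BF fun x => φ (1 - qI I x₀ x / R ^ 2) := by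
  obtain ⟨b, hb⟩ : ∃ b : V, b = fun i => if i ∈ I then x₀ i else 0 := ⟨_, rfl⟩
  obtain ⟨K, hK⟩ : ∃ K : V → ℝ, K = fun x => φ (1 - qI Finset.univ b x / R ^ 2) := ⟨_, rfl⟩
  have hKs : ContDiff ℝ ∞ K := by
    rw [hK]
    refine hφ.comp ?_
    unfold qI
    fun_prop
  have hKc : HasCompactSupport K := by
    apply HasCompactSupport.of_support_subset_isCompact (isCompact_closedBall b R)
    intro z hz
    by_contra h
    apply hz
    rw [hK]
    apply h0
    rw [mem_closedBall, dist_pi_le_iff hR.le] at h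
    push Not at h
    obtain ⟨i, hi⟩ := h
    rw [Real.dist_eq] at hi
    have h1 : R ≤ dI Finset.univ b z := hi.le.trans (abs_le_dI (Finset.mem_univ i))
    rw [← dI_sq, sub_nonpos, one_le_div₀ (by positivity)]
    exact pow_le_pow_left₀ hR.le h1 2
  obtain ⟨M, hM⟩ : ∃ M : Matrix (Fin 3) (Fin 3) ℝ, M = Matrix.diagonal fun i => if i ∈ I then 1 else 0 :=
    ⟨_, rfl⟩
  have hlm : ∀ x i, lm M x i = if i ∈ I then x i else 0 := by
    intro x i
    rw [lm_apply, hM]
    simp [Matrix.diagonal_apply]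
  have e : (fun x => φ (1 - qI I x₀ x / R ^ 2)) = fun x => K (lm M x) := by
    funext x
    rw [hK]
    have e1 : qI I x₀ x = qI Finset.univ b (lm M x) := by
      unfold qI
      rw [← Finset.sum_subset (Finset.subset_univ I)]
      · refine Finset.sum_congr rfl fun i hi => ?_
        rw [hlm, hb]
        simp only [if_pos hi]
      · intro i _ hi
        rw [hlm, hb]
        simp only [if_neg hi]
        norm_num
    rw [e1]
  rw [e]
  exact lin_BF M hKs hKc

lemma qI_hd (I : Finset (Fin 3)) (x₀ x : V) : HasFDerivAt (qI I x₀)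
    (∑ i ∈ I, (2 * (x i - x₀ i)) • (ContinuousLinearMap.proj i : V →L[ℝ] ℝ)) x := by
  unfold qI
  have h1 : ∀ i ∈ I, HasFDerivAt (fun x : V => (x i - x₀ i) ^ 2)
      ((2 * (x i - x₀ i)) • (ContinuousLinearMap.proj i : V →L[ℝ] ℝ)) x := by
    intro i _
    have h2 : HasFDerivAt (fun x : V => x i - x₀ i) (ContinuousLinearMap.proj i : V →L[ℝ] ℝ) x :=
      ((ContinuousLinearMap.proj i : V →L[ℝ] ℝ).hasFDerivAt).sub_const _
    have h3 := h2.pow 2
    refine h3.congr_fderiv ?_
    ext y
    simp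
  have h2 := HasFDerivAt.fun_sum h1
  exact h2

lemma prof_pd {φ : ℝ → ℝ} {φ' : ℝ → ℝ} (hφ : ∀ s, HasDerivAt φ (φ' s) s) (j : Fin 3) (x : V) :
    H459R3.NS.pd j (fun x => φ (1 - qI I x₀ x / R ^ 2)) x
      = if j ∈ I then φ' (1 - qI I x₀ x / R ^ 2) * (-(2 * (x j - x₀ j)) / R ^ 2) else 0 := by
  have h1 : HasFDerivAt (fun x => 1 - qI I x₀ x / R ^ 2)
      (-((R ^ 2)⁻¹ • (∑ i ∈ I, (2 * (x i - x₀ i)) • (ContinuousLinearMap.proj i : V →L[ℝ] ℝ)))) x := by
    have h2 := ((qI_hd I x₀ x).mul_const (R ^ 2)⁻¹).const_sub 1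
    simp only [← div_eq_mul_inv] at h2
    exact h2
  have h2 : HasFDerivAt (fun x => φ (1 - qI I x₀ x / R ^ 2)) _ x :=
    (hφ (1 - qI I x₀ x / R ^ 2)).comp_hasFDerivAt x h1
  show fderiv ℝ (fun x => φ (1 - qI I x₀ x / R ^ 2)) x (Pi.single j 1) = _
  rw [h2.fderiv]
  simp only [ContinuousLinearMap.smul_apply, ContinuousLinearMap.neg_apply,
    ContinuousLinearMap.sum_apply, ContinuousLinearMap.proj_apply, smul_eq_mul]
  by_cases hj : j ∈ I
  · rw [if_pos hj]
    rw [Finset.sum_eq_single_of_mem j hj]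
    · rw [Pi.single_eq_same]
      ring
    · intro i _ hij
      rw [Pi.single_eq_of_ne hij, mul_zero]
  · rw [if_neg hj, Finset.sum_eq_zero]
    · ring
    · intro i hi
      rw [Pi.single_eq_of_ne (by rintro rfl; exact hj hi), mul_zero]

/-- Integration by parts. -/
lemma tent_id (hw : ∀ i, HF (w i)) (hdiv : ∀ x, ∑ i, H459R3.NS.pd i (w i) x = 0) (hq : HF q)
    (hR : 0 < R) (hF : ∑ j, gF w q (w j) ≠ (⊤ : ℝ≥0∞)) :
    ∫ x, wk w q x * max (1 - qI I x₀ x / R ^ 2) 0 = -∫ x in nb I x₀ R, KA I x₀ w q x / R ^ 2 := by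
  have mw : ∀ i, Measurable (w i) := fun i => (hw i).sm.continuous.measurable
  have mq : Measurable q := hq.sm.continuous.measurable
  have hqm : Measurable (qI I x₀) := (qI_cont I x₀).measurable
  obtain ⟨C, hC, hCb⟩ := pp'_bd
  have hB : ∀ k, BF fun x => pp k (1 - qI I x₀ x / R ^ 2) := fun k =>
    prof_BF (pp_sm k) (fun s hs => pp_neg hs) hR
  have e1 : ∀ k, ∫ x, KA I x₀ w q x * (2 / R ^ 2 * pp' k (1 - qI I x₀ x / R ^ 2))
      = -(2 * ∫ x, wk w q x * pp k (1 - qI I x₀ x / R ^ 2)) := by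
    intro k
    rw [← flW_wk hw hdiv hq (hB k)]
    unfold flW
    congr 1
    funext x
    have e2 : ∑ j, w j x * H459R3.NS.pd j (fun x => pp k (1 - qI I x₀ x / R ^ 2)) x
        = -(2 / R ^ 2 * pp' k (1 - qI I x₀ x / R ^ 2)) * ∑ j ∈ I, w j x * (x j - x₀ j) := by
      have e3 : ∑ j, w j x * H459R3.NS.pd j (fun x => pp k (1 - qI I x₀ x / R ^ 2)) x
          = ∑ j ∈ I, w j x * H459R3.NS.pd j (fun x => pp k (1 - qI I x₀ x / R ^ 2)) x := by
        refine (Finset.sum_subset (Finset.subset_univ I) fun j _ hj => ?_).symm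
        rw [prof_pd (pp_hd k), if_neg hj, mul_zero]
      rw [e3, Finset.mul_sum]
      refine Finset.sum_congr rfl fun j hj => ?_
      rw [prof_pd (pp_hd k), if_pos hj]
      ring
    rw [e2]
    unfold KA nw
    ring
  -- the limits
  have hs : ∀ x, 1 - qI I x₀ x / R ^ 2 ≤ 1 := by
    intro x
    have : 0 ≤ qI I x₀ x / R ^ 2 := div_nonneg (qI_nonneg I x₀ x) (by positivity)
    linarith
  have mwk : Integrable (wk w q) := wk_int hw hq
  have l1 : Tendsto (fun k => ∫ x, wk w q x * pp k (1 - qI I x₀ x / R ^ 2)) atTop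
      (𝓝 (∫ x, wk w q x * max (1 - qI I x₀ x / R ^ 2) 0)) := by
    refine tendsto_integral_of_dominated_convergence (fun x => ‖wk w q x‖) ?_ mwk.norm ?_ ?_
    · intro k
      refine mwk.aestronglyMeasurable.mul (Measurable.aestronglyMeasurable ?_)
      exact (pp_sm k).continuous.measurable.comp ((hqm.div_const _).const_sub 1)
    · intro k
      refine Eventually.of_forall fun x => ?_
      rw [norm_mul]
      refine mul_le_of_le_one_right (norm_nonneg _) ?_
      exact (pp_abs k _).trans (max_le (hs x) zero_le_one)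
    · exact Eventually.of_forall fun x => (pp_lim _).const_mul _
  have hnb : ∀ x, x ∈ nb I x₀ R ↔ 0 < 1 - qI I x₀ x / R ^ 2 := by
    intro x
    rw [sub_pos, div_lt_one (by positivity), ← dI_sq]
    show dI I x₀ x < R ↔ _
    exact (pow_lt_pow_iff_left₀ (dI_nonneg I x₀ x) hR.le (by norm_num)).symm
  have mn : Measurable (nw w) := by
    unfold nw
    exact Finset.measurable_sum _ fun i _ => (mw i).pow_const 2
  have mK : Measurable (KA I x₀ w q) := by
    unfold KA
    refine Measurable.neg ((mn.add (mq.const_mul 2)).mul (Finset.measurable_sum _ fun j _ =>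
      (mw j).mul ?_))
    fun_prop
  have l2 : Tendsto (fun k => ∫ x, KA I x₀ w q x * (2 / R ^ 2 * pp' k (1 - qI I x₀ x / R ^ 2))) atTop
      (𝓝 (∫ x, (nb I x₀ R).indicator (fun x => KA I x₀ w q x * (2 / R ^ 2)) x)) := by
    refine tendsto_integral_of_dominated_convergence (fun x => R * (2 / R ^ 2 * C) * nq w q x) ?_
      ((nq_int mw mq hF).1.const_mul _) ?_ ?_
    · intro k
      refine (Measurable.mul mK (Measurable.const_mul ?_ _)).aestronglyMeasurable
      have h1 : Measurable (pp' k) := by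
        have h2 : Continuous (deriv Real.smoothTransition) :=
          (Real.smoothTransition.contDiff (n := 1)).continuous_deriv (by norm_num)
        have h3 : Continuous (pp' k) := by
          unfold pp'
          exact (Real.smoothTransition.continuous.comp (by fun_prop)).add
            ((by fun_prop : Continuous fun s : ℝ => (k : ℝ) * s).mul (h2.comp (by fun_prop)))
        exact h3.measurable
      exact h1.comp ((hqm.div_const _).const_sub 1)
    · intro k
      refine Eventually.of_forall fun x => ?_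
      by_cases hx : x ∈ nb I x₀ R
      · have hd : dI I x₀ x ≤ R := le_of_lt hx
        rw [Real.norm_eq_abs, abs_mul, abs_mul, abs_of_nonneg (a := 2 / R ^ 2) (by positivity)]
        calc |KA I x₀ w q x| * (2 / R ^ 2 * |pp' k (1 - qI I x₀ x / R ^ 2)|)
            ≤ (R * nq w q x) * (2 / R ^ 2 * C) := by
              refine mul_le_mul ((KA_le _ _ _).trans (mul_le_mul_of_nonneg_right hd
                (nq_nonneg w q x))) (mul_le_mul_of_nonneg_left (hCb _ _) (by positivity))
                (by positivity) (mul_nonneg hR.le (nq_nonneg w q x))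
          _ = _ := by ring
      · rw [hnb, not_lt] at hx
        rw [pp'_neg hx, mul_zero, mul_zero, norm_zero]
        exact mul_nonneg (by positivity) (nq_nonneg w q x)
    · refine Eventually.of_forall fun x => ?_
      by_cases hx : x ∈ nb I x₀ R
      · rw [indicator_of_mem hx]
        have h1 := (pp'_lim ((hnb x).1 hx)).const_mul (2 / R ^ 2)
        rw [mul_one] at h1
        exact h1.const_mul _
      · rw [indicator_of_notMem hx]
        rw [hnb, not_lt] at hx
        simp only [pp'_neg hx, mul_zero]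
        exact tendsto_const_nhds
  have l3 := tendsto_nhds_unique l2 (by
    simp only [e1]
    exact (l1.const_mul 2).neg)
  rw [integral_indicator nb_meas] at l3
  have e4 : ∫ x in nb I x₀ R, KA I x₀ w q x * (2 / R ^ 2)
      = 2 * ∫ x in nb I x₀ R, KA I x₀ w q x / R ^ 2 := by
    rw [← integral_const_mul]
    congr 1
    funext x
    ring
  rw [e4] at l3
  linarith

/-- The averaged inflow as the inflow with a weight. -/
lemma Ah_net {ν : ℝ} (hw : ∀ i, HF (w i)) (hdiv : ∀ x, ∑ i, H459R3.NS.pd i (w i) x = 0) (hq : HF q)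
    (hR : 0 < R) (hF : ∑ j, gF w q (w j) ≠ (⊤ : ℝ≥0∞)) :
    Ah I x₀ ν R w q = ∫ x, (-wk w q x - ν * gw w x) * max (1 - qI I x₀ x / R ^ 2) 0 := by
  have mw : ∀ i, Measurable (w i) := fun i => (hw i).sm.continuous.measurable
  have mq : Measurable q := hq.sm.continuous.measurable
  have hqm : Measurable (qI I x₀) := (qI_cont I x₀).measurable
  have hm : Measurable fun x : V => max (1 - qI I x₀ x / R ^ 2) 0 :=
    (((hqm.div_const _).const_sub 1)).max measurable_const
  have hb : ∀ x : V, ‖max (1 - qI I x₀ x / R ^ 2) 0‖ ≤ 1 := by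
    intro x
    rw [Real.norm_eq_abs, abs_of_nonneg (le_max_right _ _)]
    refine max_le ?_ zero_le_one
    have : 0 ≤ qI I x₀ x / R ^ 2 := div_nonneg (qI_nonneg I x₀ x) (by positivity)
    linarith
  have i1 : Integrable fun x => wk w q x * max (1 - qI I x₀ x / R ^ 2) 0 :=
    (wk_int hw hq).mul_bdd hm.aestronglyMeasurable (Eventually.of_forall hb)
  have i2 : Integrable fun x => gw w x * max (1 - qI I x₀ x / R ^ 2) 0 :=
    (gw_int hw).mul_bdd hm.aestronglyMeasurable (Eventually.of_forall hb)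
  have e1 : ∫ x, (-wk w q x - ν * gw w x) * max (1 - qI I x₀ x / R ^ 2) 0
      = -(∫ x, wk w q x * max (1 - qI I x₀ x / R ^ 2) 0)
        - ν * ∫ x, gw w x * max (1 - qI I x₀ x / R ^ 2) 0 := by
    have i1' : Integrable fun x => -(wk w q x * max (1 - qI I x₀ x / R ^ 2) 0) := i1.neg
    rw [← integral_neg, ← integral_const_mul, ← integral_sub i1' (i2.const_mul ν)]
    congr 1
    funext x
    ring
  have hnb : ∀ x, x ∈ nb I x₀ R ↔ 0 < 1 - qI I x₀ x / R ^ 2 := by
    intro x
    rw [sub_pos, div_lt_one (by positivity), ← dI_sq]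
    show dI I x₀ x < R ↔ _
    exact (pow_lt_pow_iff_left₀ (dI_nonneg I x₀ x) hR.le (by norm_num)).symm
  have e2 : ∫ x, gw w x * max (1 - qI I x₀ x / R ^ 2) 0
      = ∫ x in nb I x₀ R, (1 - qI I x₀ x / R ^ 2) * gw w x := by
    rw [← integral_indicator nb_meas]
    congr 1
    funext x
    by_cases hx : x ∈ nb I x₀ R
    · rw [indicator_of_mem hx, max_eq_left ((hnb x).1 hx).le, mul_comm]
    · rw [indicator_of_notMem hx]
      rw [hnb, not_lt] at hx
      rw [max_eq_right hx, mul_zero]
  have mn : Measurable (nw w) := by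
    unfold nw
    exact Finset.measurable_sum _ fun i _ => (mw i).pow_const 2
  have mK : Measurable (KA I x₀ w q) := by
    unfold KA
    refine Measurable.neg ((mn.add (mq.const_mul 2)).mul (Finset.measurable_sum _ fun j _ =>
      (mw j).mul ?_))
    fun_prop
  have i3 : IntegrableOn (fun x => KA I x₀ w q x / R ^ 2) (nb I x₀ R) := by
    have h1 : IntegrableOn (fun x => R * nq w q x) (nb I x₀ R) :=
      ((nq_int mw mq hF).1.const_mul R).integrableOn
    refine Integrable.div_const (h1.mono' mK.aestronglyMeasurable ?_) _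
    refine ae_restrict_of_forall_mem nb_meas fun x hx => ?_
    exact (KA_le _ _ _).trans (mul_le_mul_of_nonneg_right (le_of_lt hx) (nq_nonneg w q x))
  have i4 : IntegrableOn (fun x => ν * ((1 - qI I x₀ x / R ^ 2) * gw w x)) (nb I x₀ R) := by
    have h1 : IntegrableOn (fun x => ν * (gw w x * max (1 - qI I x₀ x / R ^ 2) 0)) (nb I x₀ R) :=
      (i2.const_mul ν).integrableOn
    refine IntegrableOn.congr_fun h1 (fun x hx => ?_) nb_meas
    rw [max_eq_left ((hnb x).1 hx).le, mul_comm (gw w x)]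
  rw [e1, tent_id hw hdiv hq hR hF, e2]
  unfold Ah
  rw [integral_sub i3 i4, integral_const_mul]
  ring

end

end Pool.Agent.H305.EG
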